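import Pool.Agent.Lib.MP_573265_nt.H31Omit

/-! Certificates: 3-smooth numbers, levels 1 to 25 (helper31, MP_573265_nt, k = 3). -/

namespace Pool.Agent.Lib.MP_573265_nt.H31

/-- the 3-smooth numbers up to 1944 -/
def PP3 : List ℕ := [1, 2, 3, 4, 6, 8, 9, 12, 16, 18, 24, 27, 32, 36, 48, 54, 64, 72, 81, 96, 108, 128, 144, 162, 192, 216, 243, 256, 288, 324, 384, 432, 486, 512, 576, 648, 729, 768, 864, 972, 1024, 1152, 1296, 1458, 1536, 1728, 1944]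

/-- the `a`-th 3-smooth number -/
def el3 (a : ℕ) : ℕ := PP3.getD a 0

/-- divisor masks, 64 bits each -/
def TAB3 : ℕ := 10056925684002701312523099669574335557138907049137068960058638703105875254144232545634627923168042557002087372237430261768543858476963495859269335100872461156322410612638753177981340301429448012715400211703243051823938936969597310423005566247289661075033344730594518776564260767207716771664345605390401708759646781414840447685392358864661146748071121253639408232768393230069397015388953189825427338755174282678051031587160940443296561512066344831875227526382413636082076111738293173477293094476831468346551977072007069015621042769724982264233242173145828378210157794954545541782630529831803711215225049923235041966882312037245609869888910057078713072258043788415423763264215697982354068640919855921312355681039165203430211387490632318586575517905072286657178475243887510226667437773343668009877189547466412277163145454522673472534894609140957446819723162814031969452102101308059911379522939487518720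

/-- mask of the proper divisors of the `a`-th 3-smooth number -/
def dm3 (a : ℕ) : ℕ := (TAB3 >>> (64 * a)) % 18446744073709551616

/-- prefix lengths -/
def PL3 : List ℕ := [0, 5, 8, 9, 11, 13, 14, 15, 17, 18, 20, 21, 23, 24, 25, 26, 29, 30, 31, 32, 33, 35, 36, 38, 39, 40, 41, 42, 43, 45, 46, 47]

lemma dm3_lt : ∀ a < 47, dm3 a < 2 ^ a := by decide +kernel

lemma dm3_spec : ∀ a < 47, ∀ d < 47, ((dm3 a).testBit d = true ↔ d ≠ a ∧ el3 d ∣ el3 a) := by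
  decide +kernel

lemma el3_inj : ∀ a < 47, ∀ d < 47, el3 a = el3 d → a = d := by decide +kernel

lemma el3_mono : ∀ a < 47, ∀ d < 47, a ≤ d → el3 a ≤ el3 d := by decide +kernel

lemma PL3_le : ∀ j ≤ 31, PL3.getD j 100 ≤ 47 := by decide

set_option maxRecDepth 100000

private def c1 : Cert := (.m 0 (.l 4))

private lemma k1 : chk dm3 (PLf PL3 1) 5 0 c1 0 0 = true := by decide +kernel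

private def c2 : Cert := (.m 1 (.l 7))

private lemma k2 : chk dm3 (PLf PL3 2) 8 1 c2 0 0 = true := by decide +kernel

private def c3 : Cert := (.m 2 (.b 7 (.m 1 (.l 8)) (.l 7)))

private lemma k3 : chk dm3 (PLf PL3 3) 9 2 c3 0 0 = true := by decide +kernel

private def c4 : Cert := (.m 3 (.l 10))

private lemma k4 : chk dm3 (PLf PL3 4) 11 3 c4 0 0 = true := by decide +kernel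

private def c5 : Cert := (.m 4 (.b 10 (.m 3 (.b 8 (.l 9) (.b 5 (.l 9) (.b 3 (.l 9) (.l 12))))) (.l 10)))

private lemma k5 : chk dm3 (PLf PL3 5) 13 4 c5 0 0 = true := by decide +kernel

private def c6 : Cert := (.m 5 (.l 13))

private lemma k6 : chk dm3 (PLf PL3 6) 14 5 c6 0 0 = true := by decide +kernel

private def c7 : Cert := (.m 6 (.l 14))

private lemma k7 : chk dm3 (PLf PL3 7) 15 6 c7 0 0 = true := by decide +kernel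

private def c8 : Cert := (.m 7 (.b 12 (.b 14 (.b 13 (.m 4 (.l 15)) (.l 13)) (.l 14)) (.b 8 (.b 5 (.b 13 (.l 15) (.l 13)) (.b 3 (.b 1 (.b 0 (.b 11 (.b 13 (.l 15) (.l 13)) (.b 9 (.b 14 (.l 15) (.l 14)) (.b 6 (.b 14 (.l 15) (.l 14)) (.l 15)))) (.l 16)) (.l 16)) (.l 16))) (.b 5 (.b 3 (.b 1 (.b 0 (.b 11 (.b 13 (.l 15) (.l 13)) (.b 9 (.b 14 (.l 15) (.l 14)) (.b 6 (.b 14 (.l 15) (.l 14)) (.l 15)))) (.l 16)) (.l 16)) (.l 16)) (.l 16)))))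

private lemma k8 : chk dm3 (PLf PL3 8) 17 7 c8 0 0 = true := by decide +kernel

private def c9 : Cert := (.m 8 (.l 17))

private lemma k9 : chk dm3 (PLf PL3 9) 18 8 c9 0 0 = true := by decide +kernel

private def c10 : Cert := (.m 9 (.b 14 (.b 17 (.l 19) (.l 17)) (.b 12 (.b 17 (.l 19) (.l 17)) (.b 10 (.b 8 (.b 17 (.l 19) (.l 17)) (.l 19)) (.l 19)))))

private lemma k10 : chk dm3 (PLf PL3 10) 20 9 c10 0 0 = true := by decide +kernel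

private def c11 : Cert := (.m 10 (.b 15 (.b 13 (.b 19 (.m 9 (.b 17 (.m 7 (.l 20)) (.l 17))) (.l 19)) (.b 11 (.b 17 (.b 19 (.m 7 (.l 20)) (.l 19)) (.l 17)) (.b 9 (.b 19 (.m 9 (.b 17 (.m 7 (.l 20)) (.l 17))) (.l 19)) (.l 20)))) (.b 13 (.b 11 (.b 19 (.m 9 (.b 17 (.l 20) (.l 17))) (.l 19)) (.b 9 (.b 19 (.m 9 (.b 7 (.b 6 (.b 14 (.l 20) (.l 14)) (.l 20)) (.l 20))) (.l 19)) (.l 20))) (.b 11 (.b 9 (.b 19 (.m 9 (.b 17 (.l 20) (.l 17))) (.l 19)) (.l 20)) (.l 20)))))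

private lemma k11 : chk dm3 (PLf PL3 11) 21 10 c11 0 0 = true := by decide +kernel

private def c12 : Cert := (.m 11 (.l 22))

private lemma k12 : chk dm3 (PLf PL3 12) 23 11 c12 0 0 = true := by decide +kernel

private def c13 : Cert := (.m 12 (.b 18 (.b 22 (.m 11 (.b 15 (.b 11 (.b 17 (.b 19 (.m 7 (.l 20)) (.l 19)) (.l 17)) (.b 9 (.b 19 (.m 9 (.b 17 (.m 7 (.l 20)) (.l 17))) (.l 19)) (.b 6 (.b 19 (.m 9 (.b 17 (.m 7 (.l 20)) (.l 17))) (.l 19)) (.l 23)))) (.b 11 (.b 9 (.b 19 (.m 9 (.b 17 (.l 20) (.l 17))) (.l 19)) (.b 6 (.b 19 (.m 9 (.b 17 (.l 20) (.l 17))) (.l 19)) (.l 23))) (.b 9 (.b 6 (.b 19 (.m 9 (.b 4 (.b 2 (.b 1 (.b 0 (.b 13 (.l 21) (.l 20)) (.l 23)) (.l 23)) (.l 23)) (.l 23))) (.l 19)) (.l 23)) (.l 23))))) (.l 22)) (.b 15 (.b 22 (.m 11 (.b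 11 (.b 9 (.b 19 (.b 17 (.b 14 (.b 20 (.m 6 (.l 21)) (.l 20)) (.l 14)) (.l 17)) (.l 19)) (.b 6 (.b 19 (.b 17 (.b 14 (.b 20 (.m 6 (.l 21)) (.l 20)) (.l 14)) (.l 17)) (.l 19)) (.l 23))) (.b 9 (.b 6 (.b 19 (.b 4 (.b 2 (.b 1 (.b 0 (.b 16 (.b 14 (.l 21) (.l 14)) (.b 12 (.b 14 (.l 21) (.l 14)) (.b 8 (.b 17 (.l 21) (.l 17)) (.l 21)))) (.l 23)) (.l 23)) (.l 23)) (.l 23)) (.l 19)) (.l 23)) (.l 23)))) (.l 22)) (.b 11 (.b 22 (.m 11 (.b 9 (.b 6 (.b 19 (.b 4 (.b 2 (.b 1 (.b 0 (.b 16 (.b 14 (.l 21) (.l 14)) (.b 12 (.b 14 (.l 21) (.l 14)) (.b 8 (.b 17 (.l 21) (.l 17)) (.l 21)))) (.l 23)) (.l 23)) (.l 23)) (.l 23)) (.l 19)) (.l 23)) (.l 23))) (.l 22)) (.l 23)))))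

private lemma k13 : chk dm3 (PLf PL3 13) 24 12 c13 0 0 = true := by decide +kernel

private def c14 : Cert := (.m 13 (.b 19 (.b 16 (.b 22 (.b 14 (.b 12 (.b 17 (.b 20 (.l 24) (.l 20)) (.l 17)) (.b 10 (.b 20 (.b 17 (.l 24) (.l 17)) (.l 20)) (.b 8 (.b 17 (.b 20 (.l 24) (.l 20)) (.l 17)) (.l 24)))) (.b 12 (.b 10 (.b 20 (.b 17 (.l 24) (.l 17)) (.l 20)) (.b 8 (.b 17 (.b 20 (.l 24) (.l 20)) (.l 17)) (.l 24))) (.b 10 (.b 8 (.b 20 (.b 17 (.l 24) (.l 17)) (.l 20)) (.l 24)) (.l 24)))) (.l 22)) (.b 14 (.b 12 (.b 22 (.b 10 (.b 20 (.b 17 (.l 24) (.l 17)) (.l 20)) (.b 8 (.b 17 (.b 20 (.l 24) (.l 20)) (.l 17)) (.l 24))) (.l 22)) (.b 10 (.b 8 (.b 7 (.b 5 (.b 20 (.b 22 (.b 17 (.l 24) (.l 17)) (.l 22)) (.l 20)) (.l 24)) (.l 24)) (.l 24)) (.l 24))) (.b 12 (.b 22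 (.b 10 (.b 8 (.b 20 (.b 17 (.l 24) (.l 17)) (.l 20)) (.l 24)) (.l 24)) (.l 22)) (.l 24)))) (.b 16 (.b 14 (.b 12 (.b 22 (.b 10 (.b 20 (.b 17 (.l 24) (.l 17)) (.l 20)) (.b 8 (.b 17 (.b 20 (.l 24) (.l 20)) (.l 17)) (.l 24))) (.l 22)) (.b 10 (.b 8 (.b 7 (.b 5 (.b 20 (.b 22 (.b 17 (.l 24) (.l 17)) (.l 22)) (.l 20)) (.l 24)) (.l 24)) (.l 24)) (.l 24))) (.b 12 (.b 22 (.b 10 (.b 8 (.b 20 (.b 17 (.l 24) (.l 17)) (.l 20)) (.l 24)) (.l 24)) (.l 22)) (.l 24))) (.b 14 (.b 12 (.b 10 (.b 8 (.b 7 (.b 5 (.b 20 (.b 22 (.b 17 (.l 24) (.l 17)) (.l 22)) (.l 20)) (.l 24)) (.l 24)) (.l 24)) (.l 24)) (.l 24)) (.l 24)))))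

private lemma k14 : chk dm3 (PLf PL3 14) 25 13 c14 0 0 = true := by decide +kernel

private def c15 : Cert := (.m 14 (.b 20 (.b 17 (.b 15 (.b 13 (.b 24 (.b 22 (.l 25) (.l 22)) (.l 24)) (.b 11 (.b 22 (.b 24 (.l 25) (.l 24)) (.l 22)) (.b 10 (.b 9 (.b 24 (.b 22 (.l 25) (.l 22)) (.l 24)) (.l 25)) (.l 25)))) (.b 13 (.b 11 (.b 24 (.b 22 (.l 25) (.l 22)) (.l 24)) (.b 10 (.b 9 (.b 24 (.b 7 (.b 6 (.b 19 (.l 25) (.l 19)) (.l 25)) (.l 25)) (.l 24)) (.l 25)) (.l 25))) (.b 11 (.b 10 (.b 9 (.b 24 (.b 22 (.l 25) (.l 22)) (.l 24)) (.l 25)) (.l 25)) (.l 25)))) (.b 15 (.b 13 (.b 11 (.b 22 (.b 24 (.l 25) (.l 24)) (.l 22)) (.b 10 (.b 9 (.b 24 (.b 22 (.l 25) (.l 22)) (.l 24)) (.l 25)) (.l 25))) (.b 11 (.b 22 (.b 24 (.l 25) (.l 24)) (.l 22)) (.l 25))) (.b 13 (.b 11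 (.b 10 (.b 9 (.b 24 (.b 22 (.l 25) (.l 22)) (.l 24)) (.l 25)) (.l 25)) (.l 25)) (.l 25)))) (.b 17 (.b 15 (.b 13 (.b 11 (.b 24 (.b 22 (.l 25) (.l 22)) (.l 24)) (.b 10 (.b 9 (.b 24 (.b 7 (.b 6 (.b 19 (.l 25) (.l 19)) (.l 25)) (.l 25)) (.l 24)) (.l 25)) (.l 25))) (.b 11 (.b 10 (.b 9 (.b 24 (.b 22 (.l 25) (.l 22)) (.l 24)) (.l 25)) (.l 25)) (.l 25))) (.b 13 (.b 11 (.b 10 (.b 9 (.b 24 (.b 7 (.b 6 (.b 19 (.l 25) (.l 19)) (.l 25)) (.l 25)) (.l 24)) (.l 25)) (.l 25)) (.l 25)) (.l 25))) (.b 15 (.b 13 (.b 11 (.b 10 (.b 9 (.b 24 (.b 22 (.l 25) (.l 22)) (.l 24)) (.l 25)) (.l 25)) (.l 25)) (.l 25)) (.l 25)))))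

private lemma k15 : chk dm3 (PLf PL3 15) 26 14 c15 0 0 = true := by decide +kernel

private def c16 : Cert := (.m 15 (.b 22 (.b 19 (.b 17 (.b 14 (.b 25 (.l 28) (.l 25)) (.b 13 (.b 12 (.b 25 (.l 28) (.l 25)) (.b 10 (.b 9 (.b 8 (.b 25 (.l 28) (.l 25)) (.l 28)) (.l 28)) (.l 28))) (.b 12 (.b 25 (.l 28) (.l 25)) (.l 28)))) (.b 14 (.b 25 (.l 28) (.l 25)) (.b 13 (.b 12 (.b 25 (.l 28) (.l 25)) (.l 28)) (.l 28)))) (.b 17 (.b 14 (.b 13 (.b 12 (.b 25 (.l 28) (.l 25)) (.b 10 (.b 9 (.b 8 (.b 25 (.l 28) (.l 25)) (.l 28)) (.l 28)) (.l 28))) (.b 12 (.b 25 (.l 28) (.l 25)) (.l 28))) (.b 13 (.b 12 (.b 10 (.b 9 (.b 8 (.b 25 (.l 28) (.l 25)) (.l 28)) (.l 28)) (.l 28)) (.l 28)) (.l 28))) (.b 14 (.b 13 (.b 12 (.b 25 (.l 28) (.l 25)) (.l 28)) (.l 28)) (.l 28)))) (.b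 19 (.b 17 (.b 14 (.b 13 (.b 12 (.b 25 (.l 28) (.l 25)) (.b 10 (.b 9 (.b 8 (.b 25 (.l 28) (.l 25)) (.l 28)) (.l 28)) (.l 28))) (.b 12 (.b 25 (.l 28) (.l 25)) (.l 28))) (.b 13 (.b 12 (.b 10 (.b 9 (.b 8 (.b 25 (.l 28) (.l 25)) (.l 28)) (.l 28)) (.l 28)) (.l 28)) (.l 28))) (.b 14 (.b 13 (.b 12 (.b 25 (.l 28) (.l 25)) (.l 28)) (.l 28)) (.l 28))) (.b 17 (.b 14 (.b 13 (.b 12 (.b 10 (.b 9 (.b 8 (.b 25 (.l 28) (.l 25)) (.l 28)) (.l 28)) (.l 28)) (.l 28)) (.l 28)) (.l 28)) (.l 28)))))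

private lemma k16 : chk dm3 (PLf PL3 16) 29 15 c16 0 0 = true := by decide +kernel

private def c17 : Cert := (.m 16 (.b 23 (.b 20 (.b 28 (.m 15 (.b 18 (.b 15 (.b 22 (.b 24 (.b 25 (.m 9 (.l 19)) (.l 25)) (.l 24)) (.l 22)) (.b 13 (.b 11 (.b 22 (.b 24 (.b 19 (.m 9 (.l 25)) (.l 19)) (.l 24)) (.l 22)) (.b 9 (.b 24 (.b 22 (.b 19 (.m 9 (.l 25)) (.l 19)) (.l 22)) (.l 24)) (.l 29))) (.b 11 (.b 22 (.b 24 (.b 25 (.m 9 (.l 19)) (.l 25)) (.l 24)) (.l 22)) (.l 29)))) (.b 15 (.b 13 (.b 11 (.b 22 (.b 24 (.b 19 (.b 17 (.l 29) (.l 17)) (.l 19)) (.l 24)) (.l 22)) (.b 9 (.b 24 (.b 22 (.b 19 (.b 25 (.m 9 (.l 29)) (.l 25)) (.l 19)) (.l 22)) (.l 24)) (.l 29))) (.b 11 (.b 22 (.b 24 (.b 25 (.m 10 (.b 17 (.l 29) (.l 17))) (.l 25)) (.l 24)) (.l 22)) (.l 29))) (.b 13 (.b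 11 (.b 9 (.b 24 (.b 22 (.b 19 (.b 25 (.m 9 (.l 29)) (.l 25)) (.l 19)) (.l 22)) (.l 24)) (.l 29)) (.l 29)) (.l 29))))) (.l 28)) (.b 18 (.b 28 (.m 15 (.b 15 (.b 13 (.b 11 (.b 22 (.b 24 (.b 19 (.b 17 (.l 29) (.l 17)) (.l 19)) (.l 24)) (.l 22)) (.b 9 (.b 24 (.b 22 (.b 19 (.b 25 (.m 9 (.l 29)) (.l 25)) (.l 19)) (.l 22)) (.l 24)) (.l 29))) (.b 11 (.b 22 (.b 24 (.b 25 (.m 11 (.b 17 (.l 29) (.l 17))) (.l 25)) (.l 24)) (.l 22)) (.l 29))) (.b 13 (.b 11 (.b 9 (.b 24 (.b 22 (.b 19 (.b 25 (.m 9 (.l 29)) (.l 25)) (.l 19)) (.l 22)) (.l 24)) (.l 29)) (.l 29)) (.l 29)))) (.l 28)) (.b 15 (.b 28 (.m 15 (.b 13 (.b 11 (.b 9 (.b 24 (.b 22 (.b 19 (.b 25 (.m 11 (.l 29)) (.l 25)) (.l 19)) (.l 22)) (.l 24)) (.l 29)) (.l 29)) (.l 29))) (.l 28)) (.l 29)))) (.b 20 (.b 18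 (.b 28 (.m 15 (.b 15 (.b 13 (.b 11 (.b 22 (.b 24 (.b 19 (.b 17 (.l 29) (.l 17)) (.l 19)) (.l 24)) (.l 22)) (.b 9 (.b 24 (.b 22 (.b 19 (.b 25 (.m 9 (.l 29)) (.l 25)) (.l 19)) (.l 22)) (.l 24)) (.l 29))) (.b 11 (.b 22 (.b 24 (.b 25 (.b 17 (.l 29) (.l 17)) (.l 25)) (.l 24)) (.l 22)) (.l 29))) (.b 13 (.b 11 (.b 9 (.b 24 (.b 22 (.b 19 (.b 25 (.m 9 (.l 29)) (.l 25)) (.l 19)) (.l 22)) (.l 24)) (.l 29)) (.l 29)) (.l 29)))) (.l 28)) (.b 15 (.b 28 (.m 15 (.b 13 (.b 11 (.b 9 (.b 24 (.b 22 (.b 19 (.b 25 (.l 29) (.l 25)) (.l 19)) (.l 22)) (.l 24)) (.l 29)) (.l 29)) (.l 29))) (.l 28)) (.l 29))) (.b 18 (.b 15 (.b 28 (.m 15 (.b 13 (.b 11 (.b 9 (.b 24 (.b 22 (.b 19 (.b 25 (.l 29) (.l 25)) (.l 19)) (.l 22)) (.l 24)) (.l 29)) (.l 29)) (.l 29))) (.l 28)) (.l 29))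 (.l 29)))))

private lemma k17 : chk dm3 (PLf PL3 17) 30 16 c17 0 0 = true := by decide +kernel

private def c18 : Cert := (.m 17 (.b 24 (.b 21 (.b 19 (.b 16 (.b 28 (.b 25 (.b 22 (.b 29 (.m 11 (.b 14 (.b 17 (.l 30) (.l 17)) (.b 12 (.b 17 (.l 30) (.l 17)) (.b 10 (.b 20 (.m 9 (.l 30)) (.l 20)) (.l 30))))) (.l 29)) (.l 22)) (.l 25)) (.l 28)) (.b 14 (.b 12 (.b 25 (.b 28 (.b 22 (.b 29 (.m 11 (.b 17 (.l 30) (.l 17))) (.l 29)) (.l 22)) (.l 28)) (.l 25)) (.b 10 (.b 8 (.b 25 (.b 28 (.b 29 (.m 13 (.b 20 (.b 17 (.l 30) (.l 17)) (.l 20))) (.l 29)) (.l 28)) (.l 25)) (.l 30)) (.l 30))) (.b 12 (.b 10 (.b 8 (.b 25 (.b 28 (.b 22 (.b 20 (.b 17 (.l 30) (.l 17)) (.l 20)) (.l 22)) (.l 28)) (.l 25)) (.l 30)) (.l 30)) (.l 30)))) (.b 16 (.b 28 (.b 14 (.b 25 (.b 29 (.m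 13 (.b 22 (.m 11 (.b 12 (.b 17 (.l 30) (.l 17)) (.b 10 (.b 20 (.l 30) (.l 20)) (.l 30)))) (.l 22))) (.l 29)) (.l 25)) (.b 12 (.b 25 (.b 22 (.b 29 (.m 11 (.b 10 (.b 20 (.l 30) (.l 20)) (.l 30))) (.l 29)) (.l 22)) (.l 25)) (.l 30))) (.l 28)) (.b 14 (.b 12 (.b 10 (.b 8 (.b 25 (.b 28 (.b 29 (.m 13 (.b 20 (.b 17 (.l 30) (.l 17)) (.l 20))) (.l 29)) (.l 28)) (.l 25)) (.l 30)) (.l 30)) (.l 30)) (.l 30)))) (.b 19 (.b 16 (.b 14 (.b 12 (.b 25 (.b 28 (.b 22 (.b 29 (.m 13 (.b 17 (.l 30) (.l 17))) (.l 29)) (.l 22)) (.l 28)) (.l 25)) (.b 10 (.b 8 (.b 25 (.b 28 (.b 29 (.m 13 (.b 20 (.b 17 (.l 30) (.l 17)) (.l 20))) (.l 29)) (.l 28)) (.l 25)) (.l 30)) (.l 30))) (.b 12 (.b 10 (.b 8 (.b 25 (.b 28 (.b 22 (.b 20 (.b 17 (.l 30) (.l 17)) (.l 20)) (.l 22)) (.l 28)) (.l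 25)) (.l 30)) (.l 30)) (.l 30))) (.b 14 (.b 12 (.b 10 (.b 8 (.b 25 (.b 29 (.b 28 (.m 13 (.b 20 (.b 17 (.l 30) (.l 17)) (.l 20))) (.l 28)) (.l 29)) (.l 25)) (.l 30)) (.l 30)) (.l 30)) (.l 30))) (.b 16 (.b 14 (.b 12 (.b 10 (.b 8 (.b 25 (.b 28 (.b 29 (.m 13 (.b 20 (.b 17 (.l 30) (.l 17)) (.l 20))) (.l 29)) (.l 28)) (.l 25)) (.l 30)) (.l 30)) (.l 30)) (.l 30)) (.l 30)))) (.b 21 (.b 19 (.b 16 (.b 14 (.b 12 (.b 25 (.b 28 (.b 22 (.b 29 (.m 14 (.b 17 (.l 30) (.l 17))) (.l 29)) (.l 22)) (.l 28)) (.l 25)) (.b 10 (.b 8 (.b 25 (.b 28 (.b 29 (.m 14 (.b 20 (.b 17 (.l 30) (.l 17)) (.l 20))) (.l 29)) (.l 28)) (.l 25)) (.l 30)) (.l 30))) (.b 12 (.b 10 (.b 8 (.b 25 (.b 28 (.b 22 (.b 20 (.b 17 (.l 30) (.l 17)) (.l 20)) (.l 22)) (.l 28)) (.l 25)) (.l 30)) (.l 30))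 (.l 30))) (.b 14 (.b 12 (.b 10 (.b 8 (.b 25 (.b 29 (.b 28 (.m 14 (.b 20 (.b 17 (.l 30) (.l 17)) (.l 20))) (.l 28)) (.l 29)) (.l 25)) (.l 30)) (.l 30)) (.l 30)) (.l 30))) (.b 16 (.b 14 (.b 12 (.b 10 (.b 8 (.b 25 (.b 28 (.b 29 (.m 14 (.b 20 (.b 17 (.l 30) (.l 17)) (.l 20))) (.l 29)) (.l 28)) (.l 25)) (.l 30)) (.l 30)) (.l 30)) (.l 30)) (.l 30))) (.b 19 (.b 16 (.b 14 (.b 12 (.b 10 (.b 8 (.b 25 (.b 29 (.b 28 (.m 14 (.b 20 (.b 17 (.l 30) (.l 17)) (.l 20))) (.l 28)) (.l 29)) (.l 25)) (.l 30)) (.l 30)) (.l 30)) (.l 30)) (.l 30)) (.l 30)))))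

private lemma k18 : chk dm3 (PLf PL3 18) 31 17 c18 0 0 = true := by decide +kernel

private def c19 : Cert := (.m 18 (.b 25 (.b 22 (.b 20 (.b 17 (.b 15 (.b 14 (.b 13 (.b 30 (.b 28 (.l 31) (.l 28)) (.l 30)) (.b 11 (.b 28 (.b 30 (.l 31) (.l 30)) (.l 28)) (.b 10 (.b 9 (.b 30 (.b 28 (.l 31) (.l 28)) (.l 30)) (.l 31)) (.l 31)))) (.b 13 (.b 30 (.b 28 (.l 31) (.l 28)) (.l 30)) (.b 11 (.b 28 (.b 30 (.l 31) (.l 30)) (.l 28)) (.l 31)))) (.b 14 (.b 13 (.b 11 (.b 30 (.b 28 (.l 31) (.l 28)) (.l 30)) (.b 10 (.b 9 (.b 30 (.b 8 (.b 29 (.l 31) (.l 29)) (.l 31)) (.l 30)) (.l 31)) (.l 31))) (.b 11 (.b 10 (.b 9 (.b 30 (.b 28 (.l 31) (.l 28)) (.l 30)) (.l 31)) (.l 31)) (.l 31))) (.b 13 (.b 11 (.b 30 (.b 28 (.l 31) (.l 28)) (.l 30)) (.l 31)) (.l 31)))) (.b 15 (.b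 14 (.b 13 (.b 11 (.b 28 (.b 30 (.l 31) (.l 30)) (.l 28)) (.b 10 (.b 9 (.b 30 (.b 28 (.l 31) (.l 28)) (.l 30)) (.l 31)) (.l 31))) (.b 11 (.b 28 (.b 30 (.l 31) (.l 30)) (.l 28)) (.l 31))) (.b 13 (.b 11 (.b 28 (.b 30 (.l 31) (.l 30)) (.l 28)) (.l 31)) (.l 31))) (.b 14 (.b 13 (.b 11 (.b 10 (.b 9 (.b 30 (.b 28 (.l 31) (.l 28)) (.l 30)) (.l 31)) (.l 31)) (.l 31)) (.l 31)) (.l 31)))) (.b 17 (.b 15 (.b 14 (.b 13 (.b 11 (.b 30 (.b 28 (.l 31) (.l 28)) (.l 30)) (.b 10 (.b 9 (.b 30 (.b 8 (.b 29 (.l 31) (.l 29)) (.l 31)) (.l 30)) (.l 31)) (.l 31))) (.b 11 (.b 10 (.b 9 (.b 30 (.b 28 (.l 31) (.l 28)) (.l 30)) (.l 31)) (.l 31)) (.l 31))) (.b 13 (.b 11 (.b 30 (.b 28 (.l 31) (.l 28)) (.l 30)) (.l 31)) (.l 31))) (.b 14 (.b 13 (.b 11 (.b 10 (.b 9 (.b 30 (.b 8 (.b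 29 (.l 31) (.l 29)) (.l 31)) (.l 30)) (.l 31)) (.l 31)) (.l 31)) (.l 31)) (.l 31))) (.b 15 (.b 14 (.b 13 (.b 11 (.b 10 (.b 9 (.b 30 (.b 28 (.l 31) (.l 28)) (.l 30)) (.l 31)) (.l 31)) (.l 31)) (.l 31)) (.l 31)) (.l 31)))) (.b 20 (.b 17 (.b 15 (.b 14 (.b 13 (.b 11 (.b 28 (.b 30 (.l 31) (.l 30)) (.l 28)) (.b 10 (.b 9 (.b 30 (.b 28 (.l 31) (.l 28)) (.l 30)) (.l 31)) (.l 31))) (.b 11 (.b 28 (.b 30 (.l 31) (.l 30)) (.l 28)) (.l 31))) (.b 13 (.b 11 (.b 28 (.b 30 (.l 31) (.l 30)) (.l 28)) (.l 31)) (.l 31))) (.b 14 (.b 13 (.b 11 (.b 10 (.b 9 (.b 30 (.b 28 (.l 31) (.l 28)) (.l 30)) (.l 31)) (.l 31)) (.l 31)) (.l 31)) (.l 31))) (.b 15 (.b 14 (.b 13 (.b 11 (.b 28 (.b 30 (.l 31) (.l 30)) (.l 28)) (.l 31)) (.l 31)) (.l 31)) (.l 31))) (.b 17 (.b 15 (.b 14 (.b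 13 (.b 11 (.b 10 (.b 9 (.b 30 (.b 28 (.l 31) (.l 28)) (.l 30)) (.l 31)) (.l 31)) (.l 31)) (.l 31)) (.l 31)) (.l 31)) (.l 31)))) (.b 22 (.b 20 (.b 17 (.b 15 (.b 14 (.b 13 (.b 11 (.b 30 (.b 28 (.l 31) (.l 28)) (.l 30)) (.b 10 (.b 9 (.b 30 (.b 8 (.b 7 (.b 6 (.b 24 (.l 31) (.l 24)) (.l 31)) (.l 31)) (.l 31)) (.l 30)) (.l 31)) (.l 31))) (.b 11 (.b 10 (.b 9 (.b 30 (.b 28 (.l 31) (.l 28)) (.l 30)) (.l 31)) (.l 31)) (.l 31))) (.b 13 (.b 11 (.b 30 (.b 28 (.l 31) (.l 28)) (.l 30)) (.l 31)) (.l 31))) (.b 14 (.b 13 (.b 11 (.b 10 (.b 9 (.b 30 (.b 8 (.b 7 (.b 6 (.b 24 (.l 31) (.l 24)) (.l 31)) (.l 31)) (.l 31)) (.l 30)) (.l 31)) (.l 31)) (.l 31)) (.l 31)) (.l 31))) (.b 15 (.b 14 (.b 13 (.b 11 (.b 10 (.b 9 (.b 30 (.b 28 (.l 31) (.l 28)) (.l 30)) (.l 31)) (.l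 31)) (.l 31)) (.l 31)) (.l 31)) (.l 31))) (.b 17 (.b 15 (.b 14 (.b 13 (.b 11 (.b 10 (.b 9 (.b 30 (.b 8 (.b 7 (.b 6 (.b 24 (.l 31) (.l 24)) (.l 31)) (.l 31)) (.l 31)) (.l 30)) (.l 31)) (.l 31)) (.l 31)) (.l 31)) (.l 31)) (.l 31)) (.l 31))) (.b 20 (.b 17 (.b 15 (.b 14 (.b 13 (.b 11 (.b 10 (.b 9 (.b 30 (.b 28 (.l 31) (.l 28)) (.l 30)) (.l 31)) (.l 31)) (.l 31)) (.l 31)) (.l 31)) (.l 31)) (.l 31)) (.l 31)))))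

private lemma k19 : chk dm3 (PLf PL3 19) 32 18 c19 0 0 = true := by decide +kernel

private def c20 : Cert := (.m 19 (.b 26 (.b 23 (.b 18 (.b 31 (.b 15 (.b 28 (.b 11 (.b 30 (.m 15 (.b 22 (.b 24 (.b 25 (.m 11 (.b 17 (.l 29) (.l 17))) (.l 25)) (.l 24)) (.l 22))) (.l 30)) (.b 9 (.b 30 (.m 15 (.b 6 (.b 24 (.b 22 (.b 19 (.b 25 (.m 9 (.l 29)) (.l 25)) (.l 19)) (.l 22)) (.l 24)) (.b 4 (.b 2 (.b 1 (.b 0 (.b 20 (.b 22 (.b 24 (.b 19 (.m 9 (.l 27)) (.l 19)) (.l 24)) (.l 22)) (.l 29)) (.l 32)) (.l 32)) (.l 32)) (.l 32)))) (.l 30)) (.b 6 (.b 30 (.m 15 (.b 4 (.b 2 (.b 1 (.b 0 (.b 20 (.b 22 (.b 24 (.b 19 (.m 9 (.l 27)) (.l 19)) (.l 24)) (.l 22)) (.l 29)) (.l 32)) (.l 32)) (.l 32)) (.l 32))) (.l 30)) (.l 32)))) (.l 28)) (.b 11 (.b 28 (.b 9 (.b 30 (.m 15 (.b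 6 (.b 24 (.b 22 (.b 19 (.b 25 (.m 9 (.l 29)) (.l 25)) (.l 19)) (.l 22)) (.l 24)) (.b 4 (.b 2 (.b 1 (.b 0 (.b 20 (.b 22 (.b 24 (.b 19 (.m 9 (.l 27)) (.l 19)) (.l 24)) (.l 22)) (.l 29)) (.l 32)) (.l 32)) (.l 32)) (.l 32)))) (.l 30)) (.b 6 (.b 30 (.m 15 (.b 4 (.b 2 (.b 1 (.b 0 (.b 20 (.b 22 (.b 24 (.b 19 (.m 9 (.l 27)) (.l 19)) (.l 24)) (.l 22)) (.l 29)) (.l 32)) (.l 32)) (.l 32)) (.l 32))) (.l 30)) (.l 32))) (.l 28)) (.b 9 (.b 6 (.b 4 (.b 2 (.b 1 (.b 0 (.b 29 (.b 28 (.m 15 (.l 30)) (.l 28)) (.b 20 (.b 28 (.b 30 (.m 15 (.b 24 (.b 22 (.b 19 (.m 9 (.l 27)) (.l 19)) (.l 22)) (.l 24))) (.l 30)) (.l 28)) (.l 29))) (.l 32)) (.l 32)) (.l 32)) (.l 32)) (.l 32)) (.l 32)))) (.l 31)) (.b 15 (.b 11 (.b 9 (.b 6 (.b 4 (.b 2 (.b 1 (.b 29 (.b 28 (.b 30 (.m 15 (.l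 31)) (.l 30)) (.l 28)) (.b 20 (.b 28 (.b 30 (.b 24 (.b 22 (.b 19 (.b 25 (.b 14 (.l 29) (.l 14)) (.l 25)) (.l 19)) (.l 22)) (.l 24)) (.l 30)) (.l 28)) (.b 13 (.b 30 (.b 28 (.b 24 (.b 31 (.m 15 (.b 19 (.l 27) (.l 19))) (.l 31)) (.l 24)) (.l 28)) (.l 30)) (.l 29)))) (.b 0 (.b 29 (.b 28 (.b 30 (.m 15 (.l 31)) (.l 30)) (.l 28)) (.b 20 (.b 28 (.b 30 (.b 24 (.b 22 (.b 19 (.b 25 (.b 14 (.l 29) (.l 14)) (.l 25)) (.l 19)) (.l 22)) (.l 24)) (.l 30)) (.l 28)) (.l 29))) (.l 32))) (.b 1 (.b 0 (.b 29 (.b 28 (.b 30 (.m 15 (.l 31)) (.l 30)) (.l 28)) (.b 20 (.b 28 (.b 30 (.b 24 (.b 22 (.b 19 (.b 25 (.b 14 (.l 29) (.l 14)) (.l 25)) (.l 19)) (.l 22)) (.l 24)) (.l 30)) (.l 28)) (.l 29))) (.l 32)) (.l 32))) (.b 2 (.b 1 (.b 0 (.b 29 (.b 28 (.b 30 (.m 15 (.l 31)) (.l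 30)) (.l 28)) (.b 20 (.b 28 (.b 30 (.b 24 (.b 22 (.b 19 (.b 25 (.b 14 (.l 29) (.l 14)) (.l 25)) (.l 19)) (.l 22)) (.l 24)) (.l 30)) (.l 28)) (.l 29))) (.l 32)) (.l 32)) (.l 32))) (.b 4 (.b 2 (.b 1 (.b 0 (.b 29 (.b 28 (.b 30 (.m 15 (.l 31)) (.l 30)) (.l 28)) (.b 20 (.b 28 (.b 30 (.b 31 (.m 15 (.b 22 (.b 24 (.b 19 (.l 27) (.l 19)) (.l 24)) (.l 22))) (.l 31)) (.l 30)) (.l 28)) (.l 29))) (.l 32)) (.l 32)) (.l 32)) (.l 32))) (.b 6 (.b 4 (.b 2 (.b 1 (.b 0 (.b 29 (.b 28 (.b 30 (.m 15 (.l 31)) (.l 30)) (.l 28)) (.b 20 (.b 28 (.b 30 (.b 31 (.m 15 (.b 22 (.b 24 (.b 19 (.l 27) (.l 19)) (.l 24)) (.l 22))) (.l 31)) (.l 30)) (.l 28)) (.l 29))) (.l 32)) (.l 32)) (.l 32)) (.l 32)) (.l 32))) (.b 9 (.b 6 (.b 4 (.b 2 (.b 1 (.b 0 (.b 29 (.b 31 (.b 28 (.m 15 (.l 30))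 (.l 28)) (.l 31)) (.b 20 (.b 13 (.b 30 (.b 28 (.b 24 (.b 31 (.m 15 (.b 19 (.l 27) (.l 19))) (.l 31)) (.l 24)) (.l 28)) (.l 30)) (.l 29)) (.l 29))) (.l 32)) (.l 32)) (.l 32)) (.l 32)) (.l 32)) (.l 32))) (.b 11 (.b 9 (.b 6 (.b 4 (.b 2 (.b 1 (.b 0 (.b 29 (.b 31 (.b 28 (.m 15 (.l 30)) (.l 28)) (.l 31)) (.b 20 (.b 13 (.b 30 (.b 28 (.b 24 (.b 31 (.m 15 (.b 19 (.l 27) (.l 19))) (.l 31)) (.l 24)) (.l 28)) (.l 30)) (.l 29)) (.l 29))) (.l 32)) (.l 32)) (.l 32)) (.l 32)) (.l 32)) (.l 32)) (.l 32)))) (.b 18 (.b 15 (.b 11 (.b 9 (.b 6 (.b 4 (.b 2 (.b 1 (.b 29 (.b 28 (.b 30 (.m 15 (.l 31)) (.l 30)) (.l 28)) (.b 20 (.b 28 (.b 30 (.b 24 (.b 22 (.b 19 (.b 25 (.b 14 (.l 29) (.l 14)) (.l 25)) (.l 19)) (.l 22)) (.l 24)) (.l 30)) (.l 28)) (.b 13 (.b 30 (.b 28 (.b 24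 (.b 31 (.m 15 (.b 19 (.l 27) (.l 19))) (.l 31)) (.l 24)) (.l 28)) (.l 30)) (.l 29)))) (.b 0 (.b 29 (.b 28 (.b 30 (.m 15 (.l 31)) (.l 30)) (.l 28)) (.b 20 (.b 28 (.b 30 (.b 24 (.b 22 (.b 19 (.b 25 (.b 14 (.l 29) (.l 14)) (.l 25)) (.l 19)) (.l 22)) (.l 24)) (.l 30)) (.l 28)) (.l 29))) (.l 32))) (.b 1 (.b 0 (.b 29 (.b 28 (.b 30 (.m 15 (.l 31)) (.l 30)) (.l 28)) (.b 20 (.b 28 (.b 30 (.b 24 (.b 22 (.b 19 (.b 25 (.b 14 (.l 29) (.l 14)) (.l 25)) (.l 19)) (.l 22)) (.l 24)) (.l 30)) (.l 28)) (.l 29))) (.l 32)) (.l 32))) (.b 2 (.b 1 (.b 0 (.b 29 (.b 28 (.b 30 (.m 15 (.l 31)) (.l 30)) (.l 28)) (.b 20 (.b 28 (.b 30 (.b 24 (.b 22 (.b 19 (.b 25 (.b 14 (.l 29) (.l 14)) (.l 25)) (.l 19)) (.l 22)) (.l 24)) (.l 30)) (.l 28)) (.l 29))) (.l 32)) (.l 32)) (.l 32)))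 (.b 4 (.b 2 (.b 1 (.b 0 (.b 29 (.b 28 (.b 30 (.m 15 (.l 31)) (.l 30)) (.l 28)) (.b 20 (.b 28 (.b 30 (.b 31 (.m 15 (.b 22 (.b 24 (.b 19 (.l 27) (.l 19)) (.l 24)) (.l 22))) (.l 31)) (.l 30)) (.l 28)) (.l 29))) (.l 32)) (.l 32)) (.l 32)) (.l 32))) (.b 6 (.b 4 (.b 2 (.b 1 (.b 0 (.b 29 (.b 28 (.b 30 (.m 15 (.l 31)) (.l 30)) (.l 28)) (.b 20 (.b 28 (.b 30 (.b 31 (.m 15 (.b 22 (.b 24 (.b 19 (.l 27) (.l 19)) (.l 24)) (.l 22))) (.l 31)) (.l 30)) (.l 28)) (.l 29))) (.l 32)) (.l 32)) (.l 32)) (.l 32)) (.l 32))) (.b 9 (.b 6 (.b 4 (.b 2 (.b 1 (.b 0 (.b 29 (.b 31 (.b 28 (.m 15 (.l 30)) (.l 28)) (.l 31)) (.b 20 (.b 13 (.b 30 (.b 28 (.b 24 (.b 31 (.m 15 (.b 19 (.l 27) (.l 19))) (.l 31)) (.l 24)) (.l 28)) (.l 30)) (.l 29)) (.l 29))) (.l 32)) (.l 32)) (.l 32)) (.l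 32)) (.l 32)) (.l 32))) (.b 11 (.b 9 (.b 6 (.b 4 (.b 2 (.b 1 (.b 0 (.b 29 (.b 31 (.b 28 (.m 15 (.l 30)) (.l 28)) (.l 31)) (.b 20 (.b 13 (.b 30 (.b 28 (.b 24 (.b 31 (.m 15 (.b 19 (.l 27) (.l 19))) (.l 31)) (.l 24)) (.l 28)) (.l 30)) (.l 29)) (.l 29))) (.l 32)) (.l 32)) (.l 32)) (.l 32)) (.l 32)) (.l 32)) (.l 32))) (.b 15 (.b 11 (.b 9 (.b 6 (.b 4 (.b 2 (.b 1 (.b 0 (.b 29 (.b 31 (.b 28 (.m 15 (.l 30)) (.l 28)) (.b 25 (.b 28 (.l 31) (.l 28)) (.b 22 (.b 30 (.l 31) (.l 30)) (.b 20 (.b 28 (.l 31) (.l 28)) (.l 31))))) (.b 20 (.b 13 (.b 30 (.b 28 (.b 24 (.b 31 (.m 15 (.b 19 (.l 27) (.l 19))) (.l 31)) (.l 24)) (.l 28)) (.l 30)) (.l 29)) (.l 29))) (.l 32)) (.l 32)) (.l 32)) (.l 32)) (.l 32)) (.l 32)) (.l 32)) (.l 32)))) (.b 23 (.b 18 (.b 15 (.b 11 (.b 9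 (.b 6 (.b 4 (.b 2 (.b 1 (.b 31 (.b 28 (.b 30 (.b 24 (.b 22 (.b 19 (.b 25 (.b 14 (.b 16 (.b 10 (.m 0 (.l 29)) (.l 10)) (.l 16)) (.l 14)) (.l 25)) (.l 19)) (.l 22)) (.l 24)) (.l 30)) (.l 28)) (.b 25 (.b 28 (.l 31) (.l 28)) (.b 22 (.b 30 (.l 31) (.l 30)) (.b 20 (.b 28 (.l 31) (.l 28)) (.l 31))))) (.b 0 (.b 31 (.b 28 (.b 30 (.b 24 (.b 22 (.b 19 (.b 25 (.b 14 (.b 16 (.b 10 (.m 0 (.l 29)) (.l 10)) (.l 16)) (.l 14)) (.l 25)) (.l 19)) (.l 22)) (.l 24)) (.l 30)) (.l 28)) (.b 25 (.b 28 (.l 31) (.l 28)) (.b 22 (.b 30 (.l 31) (.l 30)) (.l 31)))) (.l 32))) (.b 1 (.b 0 (.b 31 (.b 28 (.b 30 (.b 24 (.b 22 (.b 19 (.b 25 (.b 14 (.b 17 (.b 10 (.m 0 (.l 29)) (.l 10)) (.l 17)) (.l 14)) (.l 25)) (.l 19)) (.l 22)) (.l 24)) (.l 30)) (.l 28)) (.b 25 (.b 28 (.l 31) (.l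 28)) (.b 22 (.b 30 (.l 31) (.l 30)) (.l 31)))) (.l 32)) (.l 32))) (.b 2 (.b 1 (.b 0 (.b 31 (.b 28 (.b 30 (.b 24 (.b 22 (.b 19 (.b 25 (.b 14 (.b 17 (.b 10 (.m 0 (.l 29)) (.l 10)) (.l 17)) (.l 14)) (.l 25)) (.l 19)) (.l 22)) (.l 24)) (.l 30)) (.l 28)) (.b 25 (.b 28 (.l 31) (.l 28)) (.b 22 (.b 30 (.l 31) (.l 30)) (.l 31)))) (.l 32)) (.l 32)) (.l 32))) (.b 4 (.b 2 (.b 1 (.b 0 (.b 31 (.b 28 (.b 30 (.b 29 (.m 15 (.b 22 (.b 24 (.b 19 (.l 27) (.l 19)) (.l 24)) (.l 22))) (.b 20 (.b 22 (.b 24 (.b 19 (.b 17 (.b 14 (.l 29) (.l 14)) (.l 17)) (.l 19)) (.l 24)) (.l 22)) (.b 13 (.b 24 (.b 22 (.b 19 (.b 25 (.b 14 (.l 29) (.l 14)) (.l 25)) (.l 19)) (.l 22)) (.l 24)) (.l 29)))) (.l 30)) (.l 28)) (.b 25 (.b 28 (.l 31) (.l 28)) (.b 22 (.b 20 (.b 28 (.l 31) (.l 28))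 (.l 31)) (.l 31)))) (.l 32)) (.l 32)) (.l 32)) (.l 32))) (.b 6 (.b 4 (.b 2 (.b 1 (.b 0 (.b 31 (.b 28 (.b 30 (.b 29 (.m 15 (.b 22 (.b 24 (.b 19 (.l 27) (.l 19)) (.l 24)) (.l 22))) (.b 20 (.b 22 (.b 24 (.b 19 (.b 17 (.b 14 (.l 29) (.l 14)) (.l 17)) (.l 19)) (.l 24)) (.l 22)) (.b 13 (.b 24 (.b 22 (.b 19 (.b 25 (.b 14 (.l 29) (.l 14)) (.l 25)) (.l 19)) (.l 22)) (.l 24)) (.l 29)))) (.l 30)) (.l 28)) (.b 25 (.b 28 (.l 31) (.l 28)) (.b 22 (.b 20 (.b 28 (.l 31) (.l 28)) (.l 31)) (.l 31)))) (.l 32)) (.l 32)) (.l 32)) (.l 32)) (.l 32))) (.b 9 (.b 6 (.b 4 (.b 2 (.b 1 (.b 0 (.b 31 (.b 29 (.b 28 (.b 30 (.m 15 (.b 24 (.b 22 (.b 19 (.l 27) (.l 19)) (.l 22)) (.l 24))) (.l 30)) (.l 28)) (.b 20 (.b 28 (.b 30 (.b 24 (.b 22 (.b 19 (.b 25 (.m 9 (.l 27)) (.l 25)) (.l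 19)) (.l 22)) (.l 24)) (.l 30)) (.l 28)) (.b 13 (.b 30 (.b 28 (.b 24 (.b 7 (.b 3 (.b 25 (.b 19 (.b 21 (.m 0 (.l 27)) (.l 21)) (.l 19)) (.b 17 (.b 19 (.l 25) (.l 19)) (.l 25))) (.l 29)) (.l 29)) (.l 24)) (.l 28)) (.l 30)) (.l 29)))) (.b 25 (.b 22 (.b 30 (.l 31) (.l 30)) (.b 20 (.b 28 (.l 31) (.l 28)) (.l 31))) (.b 22 (.b 20 (.b 30 (.l 31) (.l 30)) (.l 31)) (.l 31)))) (.l 32)) (.l 32)) (.l 32)) (.l 32)) (.l 32)) (.l 32))) (.b 11 (.b 9 (.b 6 (.b 4 (.b 2 (.b 1 (.b 0 (.b 31 (.b 29 (.b 28 (.b 30 (.m 15 (.b 24 (.b 22 (.b 19 (.l 27) (.l 19)) (.l 22)) (.l 24))) (.l 30)) (.l 28)) (.b 20 (.b 28 (.b 30 (.b 24 (.b 22 (.b 19 (.b 25 (.m 9 (.l 27)) (.l 25)) (.l 19)) (.l 22)) (.l 24)) (.l 30)) (.l 28)) (.b 13 (.b 30 (.b 28 (.b 24 (.b 7 (.b 3 (.b 25 (.b 19 (.b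 21 (.m 0 (.l 27)) (.l 21)) (.l 19)) (.b 17 (.b 19 (.l 25) (.l 19)) (.l 25))) (.l 29)) (.l 29)) (.l 24)) (.l 28)) (.l 30)) (.l 29)))) (.b 25 (.b 22 (.b 30 (.l 31) (.l 30)) (.b 20 (.b 28 (.l 31) (.l 28)) (.l 31))) (.b 22 (.b 20 (.b 30 (.l 31) (.l 30)) (.l 31)) (.l 31)))) (.l 32)) (.l 32)) (.l 32)) (.l 32)) (.l 32)) (.l 32)) (.l 32))) (.b 15 (.b 11 (.b 9 (.b 6 (.b 4 (.b 2 (.b 1 (.b 0 (.b 29 (.b 31 (.b 28 (.b 30 (.m 15 (.b 24 (.b 22 (.b 19 (.l 27) (.l 19)) (.l 22)) (.l 24))) (.l 30)) (.l 28)) (.b 25 (.b 28 (.l 31) (.l 28)) (.b 22 (.b 30 (.l 31) (.l 30)) (.b 20 (.b 28 (.l 31) (.l 28)) (.l 31))))) (.b 20 (.b 13 (.b 30 (.b 28 (.b 24 (.b 31 (.b 19 (.b 22 (.b 14 (.b 16 (.m 0 (.l 29)) (.l 16)) (.l 14)) (.l 22)) (.l 19)) (.l 31)) (.l 24)) (.l 28)) (.l 30))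 (.b 7 (.b 3 (.b 31 (.b 28 (.b 30 (.b 24 (.b 22 (.b 19 (.b 21 (.m 0 (.l 27)) (.l 21)) (.l 19)) (.l 22)) (.l 24)) (.l 30)) (.l 28)) (.b 25 (.b 28 (.b 30 (.l 31) (.l 30)) (.l 28)) (.b 22 (.b 30 (.b 28 (.l 31) (.l 28)) (.l 30)) (.l 31)))) (.l 29)) (.l 29))) (.b 13 (.b 7 (.b 3 (.b 31 (.b 30 (.b 28 (.b 24 (.b 25 (.b 19 (.b 21 (.m 0 (.l 27)) (.l 21)) (.l 19)) (.b 17 (.b 19 (.b 21 (.m 0 (.l 27)) (.l 21)) (.l 19)) (.b 10 (.b 27 (.b 19 (.m 0 (.l 25)) (.l 19)) (.l 27)) (.l 25)))) (.l 24)) (.l 28)) (.l 30)) (.b 25 (.b 30 (.b 28 (.l 31) (.l 28)) (.l 30)) (.b 22 (.b 30 (.b 17 (.b 24 (.l 31) (.l 24)) (.l 31)) (.l 30)) (.l 31)))) (.l 29)) (.l 29)) (.l 29)))) (.l 32)) (.l 32)) (.l 32)) (.l 32)) (.l 32)) (.l 32)) (.l 32)) (.l 32))) (.b 18 (.b 15 (.b 11 (.b 9 (.b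 6 (.b 4 (.b 2 (.b 1 (.b 0 (.b 29 (.b 31 (.b 28 (.b 30 (.m 15 (.b 24 (.b 22 (.b 19 (.l 27) (.l 19)) (.l 22)) (.l 24))) (.l 30)) (.l 28)) (.b 25 (.b 28 (.l 31) (.l 28)) (.b 22 (.b 30 (.l 31) (.l 30)) (.b 20 (.b 28 (.l 31) (.l 28)) (.l 31))))) (.b 20 (.b 13 (.b 30 (.b 28 (.b 24 (.b 31 (.b 19 (.b 22 (.b 14 (.b 16 (.m 0 (.l 29)) (.l 16)) (.l 14)) (.l 22)) (.l 19)) (.l 31)) (.l 24)) (.l 28)) (.l 30)) (.b 7 (.b 3 (.b 31 (.b 28 (.b 30 (.b 24 (.b 22 (.b 19 (.b 21 (.m 0 (.l 27)) (.l 21)) (.l 19)) (.l 22)) (.l 24)) (.l 30)) (.l 28)) (.b 25 (.b 28 (.b 30 (.l 31) (.l 30)) (.l 28)) (.b 22 (.b 30 (.b 28 (.l 31) (.l 28)) (.l 30)) (.l 31)))) (.l 29)) (.l 29))) (.b 13 (.b 7 (.b 3 (.b 31 (.b 30 (.b 28 (.b 24 (.b 25 (.b 19 (.b 21 (.m 0 (.l 27)) (.l 21)) (.l 19))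 (.b 17 (.b 19 (.b 21 (.m 0 (.l 27)) (.l 21)) (.l 19)) (.b 10 (.b 27 (.b 19 (.m 0 (.l 25)) (.l 19)) (.l 27)) (.l 25)))) (.l 24)) (.l 28)) (.l 30)) (.b 25 (.b 30 (.b 28 (.l 31) (.l 28)) (.l 30)) (.b 22 (.b 30 (.b 17 (.b 24 (.l 31) (.l 24)) (.l 31)) (.l 30)) (.l 31)))) (.l 29)) (.l 29)) (.l 29)))) (.l 32)) (.l 32)) (.l 32)) (.l 32)) (.l 32)) (.l 32)) (.l 32)) (.l 32)) (.l 32)))))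

private lemma k20 : chk dm3 (PLf PL3 20) 33 19 c20 0 0 = true := by decide +kernel

private def c21 : Cert := (.m 20 (.b 28 (.b 24 (.b 22 (.b 19 (.b 17 (.b 16 (.b 31 (.b 14 (.b 13 (.b 12 (.b 25 (.b 29 (.l 34) (.l 29)) (.l 25)) (.b 10 (.b 29 (.b 25 (.l 34) (.l 25)) (.l 29)) (.b 9 (.b 8 (.b 25 (.b 29 (.l 34) (.l 29)) (.l 25)) (.l 34)) (.l 34)))) (.b 12 (.b 25 (.b 29 (.l 34) (.l 29)) (.l 25)) (.b 10 (.b 29 (.b 25 (.l 34) (.l 25)) (.l 29)) (.l 34)))) (.b 13 (.b 12 (.b 10 (.b 29 (.b 25 (.l 34) (.l 25)) (.l 29)) (.b 9 (.b 8 (.b 25 (.b 29 (.l 34) (.l 29)) (.l 25)) (.l 34)) (.l 34))) (.b 10 (.b 9 (.b 8 (.b 29 (.b 25 (.l 34) (.l 25)) (.l 29)) (.l 34)) (.l 34)) (.l 34))) (.b 12 (.b 10 (.b 29 (.b 25 (.l 34) (.l 25)) (.l 29)) (.l 34)) (.l 34)))) (.l 31))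 (.b 14 (.b 13 (.b 12 (.b 31 (.b 10 (.b 29 (.b 25 (.l 34) (.l 25)) (.l 29)) (.b 9 (.b 8 (.b 25 (.b 29 (.l 34) (.l 29)) (.l 25)) (.l 34)) (.l 34))) (.l 31)) (.b 10 (.b 9 (.b 8 (.b 7 (.b 6 (.b 5 (.b 29 (.b 31 (.b 25 (.l 34) (.l 25)) (.l 31)) (.l 29)) (.l 34)) (.l 34)) (.l 34)) (.l 34)) (.l 34)) (.l 34))) (.b 12 (.b 31 (.b 10 (.b 29 (.b 25 (.l 34) (.l 25)) (.l 29)) (.l 34)) (.l 31)) (.l 34))) (.b 13 (.b 12 (.b 31 (.b 10 (.b 9 (.b 8 (.b 29 (.b 25 (.l 34) (.l 25)) (.l 29)) (.l 34)) (.l 34)) (.l 34)) (.l 31)) (.l 34)) (.l 34)))) (.b 16 (.b 31 (.b 14 (.b 13 (.b 12 (.b 25 (.b 29 (.l 34) (.l 29)) (.l 25)) (.b 10 (.b 9 (.b 8 (.b 25 (.b 29 (.l 34) (.l 29)) (.l 25)) (.l 34)) (.l 34)) (.l 34))) (.b 12 (.b 25 (.b 29 (.l 34) (.l 29)) (.l 25)) (.l 34))) (.b 13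 (.b 12 (.b 10 (.b 9 (.b 8 (.b 25 (.b 29 (.l 34) (.l 29)) (.l 25)) (.l 34)) (.l 34)) (.l 34)) (.l 34)) (.l 34))) (.l 31)) (.b 14 (.b 13 (.b 12 (.b 31 (.b 10 (.b 9 (.b 8 (.b 25 (.b 29 (.l 34) (.l 29)) (.l 25)) (.l 34)) (.l 34)) (.l 34)) (.l 31)) (.l 34)) (.l 34)) (.l 34)))) (.b 17 (.b 16 (.b 14 (.b 13 (.b 12 (.b 31 (.b 10 (.b 29 (.b 25 (.l 34) (.l 25)) (.l 29)) (.b 9 (.b 8 (.b 25 (.b 29 (.l 34) (.l 29)) (.l 25)) (.l 34)) (.l 34))) (.l 31)) (.b 10 (.b 9 (.b 8 (.b 7 (.b 6 (.b 5 (.b 29 (.b 31 (.b 25 (.l 34) (.l 25)) (.l 31)) (.l 29)) (.l 34)) (.l 34)) (.l 34)) (.l 34)) (.l 34)) (.l 34))) (.b 12 (.b 31 (.b 10 (.b 29 (.b 25 (.l 34) (.l 25)) (.l 29)) (.l 34)) (.l 31)) (.l 34))) (.b 13 (.b 12 (.b 31 (.b 10 (.b 9 (.b 8 (.b 29 (.b 25 (.l 34) (.l 25)) (.l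 29)) (.l 34)) (.l 34)) (.l 34)) (.l 31)) (.l 34)) (.l 34))) (.b 14 (.b 13 (.b 12 (.b 10 (.b 9 (.b 8 (.b 7 (.b 6 (.b 5 (.b 29 (.b 31 (.b 25 (.l 34) (.l 25)) (.l 31)) (.l 29)) (.l 34)) (.l 34)) (.l 34)) (.l 34)) (.l 34)) (.l 34)) (.l 34)) (.l 34)) (.l 34))) (.b 16 (.b 14 (.b 13 (.b 12 (.b 31 (.b 10 (.b 9 (.b 8 (.b 25 (.b 29 (.l 34) (.l 29)) (.l 25)) (.l 34)) (.l 34)) (.l 34)) (.l 31)) (.l 34)) (.l 34)) (.l 34)) (.l 34)))) (.b 19 (.b 17 (.b 16 (.b 31 (.b 14 (.b 13 (.b 12 (.b 10 (.b 29 (.b 25 (.l 34) (.l 25)) (.l 29)) (.b 9 (.b 8 (.b 25 (.b 29 (.l 34) (.l 29)) (.l 25)) (.l 34)) (.l 34))) (.b 10 (.b 9 (.b 8 (.b 29 (.b 25 (.l 34) (.l 25)) (.l 29)) (.l 34)) (.l 34)) (.l 34))) (.b 12 (.b 10 (.b 29 (.b 25 (.l 34) (.l 25)) (.l 29)) (.l 34)) (.l 34))) (.b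 13 (.b 12 (.b 10 (.b 9 (.b 8 (.b 29 (.b 25 (.l 34) (.l 25)) (.l 29)) (.l 34)) (.l 34)) (.l 34)) (.l 34)) (.l 34))) (.l 31)) (.b 14 (.b 13 (.b 12 (.b 31 (.b 10 (.b 9 (.b 8 (.b 29 (.b 25 (.l 34) (.l 25)) (.l 29)) (.l 34)) (.l 34)) (.l 34)) (.l 31)) (.l 34)) (.l 34)) (.l 34))) (.b 16 (.b 31 (.b 14 (.b 13 (.b 12 (.b 10 (.b 9 (.b 8 (.b 25 (.b 29 (.l 34) (.l 29)) (.l 25)) (.l 34)) (.l 34)) (.l 34)) (.l 34)) (.l 34)) (.l 34)) (.l 31)) (.l 34))) (.b 17 (.b 16 (.b 14 (.b 13 (.b 12 (.b 31 (.b 10 (.b 9 (.b 8 (.b 29 (.b 25 (.l 34) (.l 25)) (.l 29)) (.l 34)) (.l 34)) (.l 34)) (.l 31)) (.l 34)) (.l 34)) (.l 34)) (.l 34)) (.l 34)))) (.b 22 (.b 19 (.b 17 (.b 16 (.b 14 (.b 13 (.b 12 (.b 31 (.b 10 (.b 29 (.b 25 (.l 34) (.l 25)) (.l 29)) (.b 9 (.b 8 (.b 25 (.b 29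 (.l 34) (.l 29)) (.l 25)) (.l 34)) (.l 34))) (.l 31)) (.b 10 (.b 9 (.b 8 (.b 7 (.b 6 (.b 5 (.b 29 (.b 31 (.b 25 (.l 34) (.l 25)) (.l 31)) (.l 29)) (.l 34)) (.l 34)) (.l 34)) (.l 34)) (.l 34)) (.l 34))) (.b 12 (.b 31 (.b 10 (.b 29 (.b 25 (.l 34) (.l 25)) (.l 29)) (.l 34)) (.l 31)) (.l 34))) (.b 13 (.b 12 (.b 31 (.b 10 (.b 9 (.b 8 (.b 29 (.b 25 (.l 34) (.l 25)) (.l 29)) (.l 34)) (.l 34)) (.l 34)) (.l 31)) (.l 34)) (.l 34))) (.b 14 (.b 13 (.b 12 (.b 10 (.b 9 (.b 8 (.b 7 (.b 6 (.b 5 (.b 29 (.b 31 (.b 25 (.l 34) (.l 25)) (.l 31)) (.l 29)) (.l 34)) (.l 34)) (.l 34)) (.l 34)) (.l 34)) (.l 34)) (.l 34)) (.l 34)) (.l 34))) (.b 16 (.b 14 (.b 13 (.b 12 (.b 31 (.b 10 (.b 9 (.b 8 (.b 25 (.b 29 (.l 34) (.l 29)) (.l 25)) (.l 34)) (.l 34)) (.l 34)) (.l 31)) (.l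 34)) (.l 34)) (.l 34)) (.l 34))) (.b 17 (.b 16 (.b 14 (.b 13 (.b 12 (.b 10 (.b 9 (.b 8 (.b 7 (.b 6 (.b 5 (.b 29 (.b 31 (.b 25 (.l 34) (.l 25)) (.l 31)) (.l 29)) (.l 34)) (.l 34)) (.l 34)) (.l 34)) (.l 34)) (.l 34)) (.l 34)) (.l 34)) (.l 34)) (.l 34)) (.l 34))) (.b 19 (.b 17 (.b 16 (.b 14 (.b 13 (.b 12 (.b 31 (.b 10 (.b 9 (.b 8 (.b 29 (.b 25 (.l 34) (.l 25)) (.l 29)) (.l 34)) (.l 34)) (.l 34)) (.l 31)) (.l 34)) (.l 34)) (.l 34)) (.l 34)) (.l 34)) (.l 34)))) (.b 24 (.b 22 (.b 19 (.b 17 (.b 16 (.b 14 (.b 13 (.b 12 (.b 31 (.b 10 (.b 29 (.b 25 (.l 34) (.l 25)) (.l 29)) (.b 9 (.b 8 (.b 25 (.b 29 (.l 34) (.l 29)) (.l 25)) (.l 34)) (.l 34))) (.l 31)) (.b 10 (.b 9 (.b 8 (.b 7 (.b 6 (.b 5 (.b 29 (.b 31 (.b 25 (.l 34) (.l 25)) (.l 31)) (.l 29)) (.l 34))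 (.l 34)) (.l 34)) (.l 34)) (.l 34)) (.l 34))) (.b 12 (.b 31 (.b 10 (.b 29 (.b 25 (.l 34) (.l 25)) (.l 29)) (.l 34)) (.l 31)) (.l 34))) (.b 13 (.b 12 (.b 31 (.b 10 (.b 9 (.b 8 (.b 29 (.b 25 (.l 34) (.l 25)) (.l 29)) (.l 34)) (.l 34)) (.l 34)) (.l 31)) (.l 34)) (.l 34))) (.b 14 (.b 13 (.b 12 (.b 10 (.b 9 (.b 8 (.b 7 (.b 6 (.b 5 (.b 29 (.b 31 (.b 25 (.l 34) (.l 25)) (.l 31)) (.l 29)) (.l 34)) (.l 34)) (.l 34)) (.l 34)) (.l 34)) (.l 34)) (.l 34)) (.l 34)) (.l 34))) (.b 16 (.b 14 (.b 13 (.b 12 (.b 31 (.b 10 (.b 9 (.b 8 (.b 25 (.b 29 (.l 34) (.l 29)) (.l 25)) (.l 34)) (.l 34)) (.l 34)) (.l 31)) (.l 34)) (.l 34)) (.l 34)) (.l 34))) (.b 17 (.b 16 (.b 14 (.b 13 (.b 12 (.b 10 (.b 9 (.b 8 (.b 7 (.b 6 (.b 5 (.b 29 (.b 31 (.b 25 (.l 34) (.l 25)) (.l 31)) (.l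 29)) (.l 34)) (.l 34)) (.l 34)) (.l 34)) (.l 34)) (.l 34)) (.l 34)) (.l 34)) (.l 34)) (.l 34)) (.l 34))) (.b 19 (.b 17 (.b 16 (.b 14 (.b 13 (.b 12 (.b 31 (.b 10 (.b 9 (.b 8 (.b 29 (.b 25 (.l 34) (.l 25)) (.l 29)) (.l 34)) (.l 34)) (.l 34)) (.l 31)) (.l 34)) (.l 34)) (.l 34)) (.l 34)) (.l 34)) (.l 34))) (.b 22 (.b 19 (.b 17 (.b 16 (.b 14 (.b 13 (.b 12 (.b 10 (.b 9 (.b 8 (.b 7 (.b 6 (.b 5 (.b 29 (.b 31 (.b 25 (.l 34) (.l 25)) (.l 31)) (.l 29)) (.l 34)) (.l 34)) (.l 34)) (.l 34)) (.l 34)) (.l 34)) (.l 34)) (.l 34)) (.l 34)) (.l 34)) (.l 34)) (.l 34)) (.l 34)))))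

private lemma k21 : chk dm3 (PLf PL3 21) 35 20 c21 0 0 = true := by decide +kernel

private def c22 : Cert := (.m 21 (.b 29 (.b 25 (.b 23 (.b 20 (.b 34 (.m 20 (.b 18 (.b 17 (.b 15 (.b 28 (.b 30 (.b 31 (.b 22 (.l 35) (.l 22)) (.l 31)) (.l 30)) (.l 28)) (.b 13 (.b 11 (.b 28 (.b 30 (.b 24 (.b 22 (.l 35) (.l 22)) (.l 24)) (.l 30)) (.l 28)) (.b 10 (.b 9 (.b 30 (.b 28 (.b 24 (.b 31 (.l 35) (.l 31)) (.l 24)) (.l 28)) (.l 30)) (.l 35)) (.l 35))) (.b 11 (.b 28 (.b 30 (.b 31 (.b 22 (.l 35) (.l 22)) (.l 31)) (.l 30)) (.l 28)) (.l 35)))) (.b 15 (.b 28 (.b 31 (.b 30 (.b 22 (.l 35) (.l 22)) (.l 30)) (.l 31)) (.l 28)) (.b 13 (.b 11 (.b 28 (.b 30 (.b 31 (.b 22 (.l 35) (.l 22)) (.l 31)) (.l 30)) (.l 28)) (.l 35)) (.l 35)))) (.b 17 (.b 15 (.b 13 (.b 11 (.b 28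 (.b 30 (.b 24 (.b 22 (.l 35) (.l 22)) (.l 24)) (.l 30)) (.l 28)) (.b 10 (.b 9 (.b 30 (.b 28 (.b 24 (.b 31 (.l 35) (.l 31)) (.l 24)) (.l 28)) (.l 30)) (.l 35)) (.l 35))) (.b 11 (.b 28 (.b 30 (.b 31 (.b 22 (.l 35) (.l 22)) (.l 31)) (.l 30)) (.l 28)) (.l 35))) (.b 13 (.b 11 (.b 10 (.b 9 (.b 30 (.b 28 (.b 24 (.b 31 (.l 35) (.l 31)) (.l 24)) (.l 28)) (.l 30)) (.l 35)) (.l 35)) (.l 35)) (.l 35))) (.b 15 (.b 13 (.b 11 (.b 28 (.b 30 (.b 31 (.b 22 (.l 35) (.l 22)) (.l 31)) (.l 30)) (.l 28)) (.l 35)) (.l 35)) (.l 35))))) (.l 34)) (.b 18 (.b 34 (.m 20 (.b 17 (.b 15 (.b 13 (.b 11 (.b 28 (.b 30 (.b 24 (.b 22 (.l 35) (.l 22)) (.l 24)) (.l 30)) (.l 28)) (.b 10 (.b 9 (.b 30 (.b 28 (.b 24 (.b 31 (.l 35) (.l 31)) (.l 24)) (.l 28)) (.l 30)) (.l 35)) (.l 35))) (.b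 11 (.b 28 (.b 30 (.b 31 (.b 22 (.l 35) (.l 22)) (.l 31)) (.l 30)) (.l 28)) (.l 35))) (.b 13 (.b 11 (.b 10 (.b 9 (.b 30 (.b 28 (.b 24 (.b 31 (.l 35) (.l 31)) (.l 24)) (.l 28)) (.l 30)) (.l 35)) (.l 35)) (.l 35)) (.l 35))) (.b 15 (.b 13 (.b 11 (.b 28 (.b 30 (.b 31 (.b 22 (.l 35) (.l 22)) (.l 31)) (.l 30)) (.l 28)) (.l 35)) (.l 35)) (.l 35)))) (.l 34)) (.b 17 (.b 15 (.b 34 (.m 20 (.b 13 (.b 11 (.b 10 (.b 9 (.b 30 (.b 28 (.b 24 (.b 31 (.l 35) (.l 31)) (.l 24)) (.l 28)) (.l 30)) (.l 35)) (.l 35)) (.l 35)) (.l 35))) (.l 34)) (.l 35)) (.l 35)))) (.b 20 (.b 18 (.b 34 (.m 20 (.b 17 (.b 15 (.b 13 (.b 11 (.b 28 (.b 30 (.b 24 (.b 22 (.l 35) (.l 22)) (.l 24)) (.l 30)) (.l 28)) (.b 10 (.b 9 (.b 30 (.b 28 (.b 24 (.b 31 (.l 35) (.l 31)) (.l 24)) (.l 28)) (.l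 30)) (.l 35)) (.l 35))) (.b 11 (.b 28 (.b 30 (.b 31 (.b 22 (.l 35) (.l 22)) (.l 31)) (.l 30)) (.l 28)) (.l 35))) (.b 13 (.b 11 (.b 10 (.b 9 (.b 30 (.b 28 (.b 24 (.b 31 (.l 35) (.l 31)) (.l 24)) (.l 28)) (.l 30)) (.l 35)) (.l 35)) (.l 35)) (.l 35))) (.b 15 (.b 13 (.b 11 (.b 28 (.b 30 (.b 31 (.b 22 (.l 35) (.l 22)) (.l 31)) (.l 30)) (.l 28)) (.l 35)) (.l 35)) (.l 35)))) (.l 34)) (.b 17 (.b 15 (.b 34 (.m 20 (.b 13 (.b 11 (.b 10 (.b 9 (.b 30 (.b 28 (.b 24 (.b 31 (.l 35) (.l 31)) (.l 24)) (.l 28)) (.l 30)) (.l 35)) (.l 35)) (.l 35)) (.l 35))) (.l 34)) (.l 35)) (.l 35))) (.b 18 (.b 17 (.b 15 (.b 34 (.m 20 (.b 13 (.b 11 (.b 10 (.b 9 (.b 30 (.b 28 (.b 24 (.b 31 (.l 35) (.l 31)) (.l 24)) (.l 28)) (.l 30)) (.l 35)) (.l 35)) (.l 35)) (.l 35))) (.l 34)) (.l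 35)) (.l 35)) (.l 35)))) (.b 23 (.b 20 (.b 18 (.b 34 (.m 20 (.b 17 (.b 15 (.b 13 (.b 11 (.b 28 (.b 30 (.b 24 (.b 22 (.l 35) (.l 22)) (.l 24)) (.l 30)) (.l 28)) (.b 10 (.b 9 (.b 30 (.b 28 (.b 24 (.b 31 (.l 35) (.l 31)) (.l 24)) (.l 28)) (.l 30)) (.l 35)) (.l 35))) (.b 11 (.b 28 (.b 30 (.b 31 (.b 22 (.l 35) (.l 22)) (.l 31)) (.l 30)) (.l 28)) (.l 35))) (.b 13 (.b 11 (.b 10 (.b 9 (.b 30 (.b 28 (.b 24 (.b 31 (.l 35) (.l 31)) (.l 24)) (.l 28)) (.l 30)) (.l 35)) (.l 35)) (.l 35)) (.l 35))) (.b 15 (.b 13 (.b 11 (.b 28 (.b 30 (.b 31 (.b 22 (.l 35) (.l 22)) (.l 31)) (.l 30)) (.l 28)) (.l 35)) (.l 35)) (.l 35)))) (.l 34)) (.b 17 (.b 15 (.b 34 (.m 20 (.b 13 (.b 11 (.b 10 (.b 9 (.b 30 (.b 28 (.b 24 (.b 31 (.l 35) (.l 31)) (.l 24)) (.l 28)) (.l 30)) (.l 35))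 (.l 35)) (.l 35)) (.l 35))) (.l 34)) (.l 35)) (.l 35))) (.b 18 (.b 17 (.b 15 (.b 34 (.m 20 (.b 13 (.b 11 (.b 10 (.b 9 (.b 30 (.b 28 (.b 24 (.b 31 (.l 35) (.l 31)) (.l 24)) (.l 28)) (.l 30)) (.l 35)) (.l 35)) (.l 35)) (.l 35))) (.l 34)) (.l 35)) (.l 35)) (.l 35))) (.b 20 (.b 18 (.b 17 (.b 15 (.b 34 (.m 20 (.b 13 (.b 11 (.b 10 (.b 9 (.b 30 (.b 28 (.b 24 (.b 31 (.l 35) (.l 31)) (.l 24)) (.l 28)) (.l 30)) (.l 35)) (.l 35)) (.l 35)) (.l 35))) (.l 34)) (.l 35)) (.l 35)) (.l 35)) (.l 35)))) (.b 25 (.b 23 (.b 20 (.b 18 (.b 34 (.m 20 (.b 17 (.b 15 (.b 13 (.b 11 (.b 28 (.b 30 (.b 24 (.b 22 (.l 35) (.l 22)) (.l 24)) (.l 30)) (.l 28)) (.b 10 (.b 9 (.b 30 (.b 28 (.b 24 (.b 31 (.l 35) (.l 31)) (.l 24)) (.l 28)) (.l 30)) (.l 35)) (.l 35))) (.b 11 (.b 28 (.b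 30 (.b 31 (.b 22 (.l 35) (.l 22)) (.l 31)) (.l 30)) (.l 28)) (.l 35))) (.b 13 (.b 11 (.b 10 (.b 9 (.b 30 (.b 28 (.b 24 (.b 31 (.l 35) (.l 31)) (.l 24)) (.l 28)) (.l 30)) (.l 35)) (.l 35)) (.l 35)) (.l 35))) (.b 15 (.b 13 (.b 11 (.b 28 (.b 30 (.b 31 (.b 22 (.l 35) (.l 22)) (.l 31)) (.l 30)) (.l 28)) (.l 35)) (.l 35)) (.l 35)))) (.l 34)) (.b 17 (.b 15 (.b 34 (.m 20 (.b 13 (.b 11 (.b 10 (.b 9 (.b 30 (.b 28 (.b 24 (.b 31 (.l 35) (.l 31)) (.l 24)) (.l 28)) (.l 30)) (.l 35)) (.l 35)) (.l 35)) (.l 35))) (.l 34)) (.l 35)) (.l 35))) (.b 18 (.b 17 (.b 15 (.b 34 (.m 20 (.b 13 (.b 11 (.b 10 (.b 9 (.b 30 (.b 28 (.b 24 (.b 31 (.l 35) (.l 31)) (.l 24)) (.l 28)) (.l 30)) (.l 35)) (.l 35)) (.l 35)) (.l 35))) (.l 34)) (.l 35)) (.l 35)) (.l 35))) (.b 20 (.b 18 (.b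 17 (.b 15 (.b 34 (.m 20 (.b 13 (.b 11 (.b 10 (.b 9 (.b 30 (.b 28 (.b 24 (.b 31 (.l 35) (.l 31)) (.l 24)) (.l 28)) (.l 30)) (.l 35)) (.l 35)) (.l 35)) (.l 35))) (.l 34)) (.l 35)) (.l 35)) (.l 35)) (.l 35))) (.b 23 (.b 20 (.b 18 (.b 17 (.b 15 (.b 34 (.m 20 (.b 13 (.b 11 (.b 10 (.b 9 (.b 30 (.b 28 (.b 24 (.b 31 (.l 35) (.l 31)) (.l 24)) (.l 28)) (.l 30)) (.l 35)) (.l 35)) (.l 35)) (.l 35))) (.l 34)) (.l 35)) (.l 35)) (.l 35)) (.l 35)) (.l 35)))))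

private lemma k22 : chk dm3 (PLf PL3 22) 36 21 c22 0 0 = true := by decide +kernel

private def c23 : Cert := (.m 22 (.b 30 (.b 27 (.b 24 (.b 21 (.b 19 (.b 16 (.b 31 (.b 35 (.b 34 (.m 20 (.b 28 (.b 25 (.b 22 (.b 29 (.m 11 (.b 18 (.m 9 (.l 37)) (.l 32))) (.l 29)) (.l 22)) (.l 25)) (.l 28))) (.l 34)) (.l 35)) (.l 31)) (.b 14 (.b 35 (.b 31 (.b 34 (.m 20 (.b 12 (.b 25 (.b 28 (.b 22 (.b 29 (.m 11 (.l 32)) (.l 29)) (.l 22)) (.l 28)) (.l 25)) (.b 10 (.b 8 (.b 25 (.b 28 (.b 29 (.m 13 (.l 32)) (.l 29)) (.l 28)) (.l 25)) (.l 37)) (.l 37)))) (.l 34)) (.l 31)) (.l 35)) (.b 12 (.b 31 (.b 35 (.b 34 (.m 20 (.b 10 (.b 8 (.b 25 (.b 28 (.b 22 (.b 20 (.b 17 (.l 37) (.l 17)) (.l 20)) (.l 22)) (.l 28)) (.l 25)) (.l 37)) (.l 37))) (.l 34)) (.l 35)) (.l 31)) (.l 37))))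 (.b 16 (.b 14 (.b 35 (.b 31 (.b 34 (.m 20 (.b 28 (.b 25 (.b 29 (.m 13 (.b 22 (.m 11 (.b 18 (.l 37) (.l 32))) (.l 22))) (.l 29)) (.l 25)) (.l 28))) (.l 34)) (.l 31)) (.l 35)) (.b 12 (.b 31 (.b 35 (.b 34 (.m 20 (.b 28 (.b 25 (.b 22 (.b 29 (.m 11 (.b 10 (.l 32) (.l 37))) (.l 29)) (.l 22)) (.l 25)) (.l 28))) (.l 34)) (.l 35)) (.l 31)) (.l 37))) (.b 14 (.b 12 (.b 35 (.b 31 (.b 34 (.m 20 (.b 10 (.b 8 (.b 25 (.b 28 (.b 29 (.m 13 (.l 32)) (.l 29)) (.l 28)) (.l 25)) (.l 37)) (.l 37))) (.l 34)) (.l 31)) (.l 35)) (.l 37)) (.l 37)))) (.b 19 (.b 16 (.b 14 (.b 35 (.b 31 (.b 12 (.b 10 (.b 8 (.b 25 (.b 29 (.b 28 (.b 20 (.b 17 (.b 22 (.l 37) (.l 22)) (.l 17)) (.l 20)) (.l 28)) (.l 29)) (.l 25)) (.b 7 (.b 5 (.b 29 (.b 25 (.b 28 (.b 20 (.b 22 (.b 17 (.l 37) (.l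 17)) (.l 22)) (.l 20)) (.l 28)) (.l 25)) (.l 29)) (.l 37)) (.l 37))) (.b 8 (.b 25 (.b 29 (.b 28 (.b 22 (.b 17 (.b 20 (.l 37) (.l 20)) (.l 17)) (.l 22)) (.l 28)) (.l 29)) (.l 25)) (.l 37))) (.b 10 (.b 8 (.b 7 (.b 5 (.b 29 (.b 25 (.b 28 (.b 20 (.b 22 (.b 17 (.l 37) (.l 17)) (.l 22)) (.l 20)) (.l 28)) (.l 25)) (.l 29)) (.l 37)) (.l 37)) (.l 37)) (.l 37))) (.l 31)) (.l 35)) (.b 12 (.b 31 (.b 35 (.b 10 (.b 8 (.b 7 (.b 5 (.b 29 (.b 25 (.b 28 (.b 20 (.b 22 (.b 17 (.l 37) (.l 17)) (.l 22)) (.l 20)) (.l 28)) (.l 25)) (.l 29)) (.l 37)) (.l 37)) (.l 37)) (.l 37)) (.l 35)) (.l 31)) (.l 37))) (.b 14 (.b 12 (.b 35 (.b 31 (.b 10 (.b 8 (.b 7 (.b 5 (.b 29 (.b 25 (.b 32 (.b 20 (.b 22 (.b 17 (.l 37) (.l 17)) (.l 22)) (.l 20)) (.l 32)) (.l 25)) (.l 29)) (.l 37))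 (.l 37)) (.l 37)) (.l 37)) (.l 31)) (.l 35)) (.l 37)) (.l 37))) (.b 16 (.b 14 (.b 12 (.b 35 (.b 31 (.b 10 (.b 8 (.b 7 (.b 5 (.b 29 (.b 25 (.b 28 (.b 20 (.b 22 (.b 17 (.l 37) (.l 17)) (.l 22)) (.l 20)) (.l 28)) (.l 25)) (.l 29)) (.l 37)) (.l 37)) (.l 37)) (.l 37)) (.l 31)) (.l 35)) (.l 37)) (.l 37)) (.l 37)))) (.b 21 (.b 19 (.b 16 (.b 14 (.b 35 (.b 31 (.b 34 (.m 20 (.b 12 (.b 25 (.b 28 (.b 22 (.b 29 (.m 14 (.l 32)) (.l 29)) (.l 22)) (.l 28)) (.l 25)) (.b 10 (.b 8 (.b 25 (.b 28 (.b 29 (.m 14 (.l 32)) (.l 29)) (.l 28)) (.l 25)) (.l 37)) (.l 37)))) (.l 34)) (.l 31)) (.l 35)) (.b 12 (.b 31 (.b 35 (.b 34 (.m 20 (.b 10 (.b 8 (.b 25 (.b 28 (.b 22 (.b 20 (.b 17 (.l 37) (.l 17)) (.l 20)) (.l 22)) (.l 28)) (.l 25)) (.l 37)) (.l 37))) (.l 34)) (.l 35)) (.l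 31)) (.l 37))) (.b 14 (.b 12 (.b 35 (.b 31 (.b 34 (.m 20 (.b 10 (.b 8 (.b 25 (.b 29 (.b 28 (.m 14 (.l 32)) (.l 28)) (.l 29)) (.l 25)) (.l 37)) (.l 37))) (.l 34)) (.l 31)) (.l 35)) (.l 37)) (.l 37))) (.b 16 (.b 14 (.b 12 (.b 35 (.b 31 (.b 34 (.m 20 (.b 10 (.b 8 (.b 25 (.b 28 (.b 29 (.m 14 (.l 32)) (.l 29)) (.l 28)) (.l 25)) (.l 37)) (.l 37))) (.l 34)) (.l 31)) (.l 35)) (.l 37)) (.l 37)) (.l 37))) (.b 19 (.b 16 (.b 14 (.b 12 (.b 35 (.b 31 (.b 10 (.b 8 (.b 7 (.b 5 (.b 29 (.b 25 (.b 32 (.b 20 (.b 22 (.b 17 (.l 37) (.l 17)) (.l 22)) (.l 20)) (.l 32)) (.l 25)) (.l 29)) (.l 37)) (.l 37)) (.l 37)) (.l 37)) (.l 31)) (.l 35)) (.l 37)) (.l 37)) (.l 37)) (.l 37)))) (.b 24 (.b 21 (.b 19 (.b 16 (.b 14 (.b 35 (.b 31 (.b 12 (.b 10 (.b 8 (.b 25 (.b 29 (.b 28 (.b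 20 (.b 17 (.b 22 (.l 37) (.l 22)) (.l 17)) (.l 20)) (.l 28)) (.l 29)) (.l 25)) (.b 7 (.b 5 (.b 29 (.b 25 (.b 28 (.b 20 (.b 22 (.b 17 (.l 37) (.l 17)) (.l 22)) (.l 20)) (.l 28)) (.l 25)) (.l 29)) (.l 37)) (.l 37))) (.b 8 (.b 25 (.b 29 (.b 28 (.b 22 (.b 17 (.b 20 (.l 37) (.l 20)) (.l 17)) (.l 22)) (.l 28)) (.l 29)) (.l 25)) (.l 37))) (.b 10 (.b 8 (.b 7 (.b 5 (.b 29 (.b 25 (.b 28 (.b 20 (.b 22 (.b 17 (.l 37) (.l 17)) (.l 22)) (.l 20)) (.l 28)) (.l 25)) (.l 29)) (.l 37)) (.l 37)) (.l 37)) (.l 37))) (.l 31)) (.l 35)) (.b 12 (.b 31 (.b 35 (.b 10 (.b 8 (.b 7 (.b 5 (.b 29 (.b 25 (.b 28 (.b 20 (.b 22 (.b 17 (.l 37) (.l 17)) (.l 22)) (.l 20)) (.l 28)) (.l 25)) (.l 29)) (.l 37)) (.l 37)) (.l 37)) (.l 37)) (.l 35)) (.l 31)) (.l 37))) (.b 14 (.b 12 (.b 35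 (.b 31 (.b 10 (.b 8 (.b 7 (.b 5 (.b 29 (.b 25 (.b 32 (.b 20 (.b 22 (.b 17 (.l 37) (.l 17)) (.l 22)) (.l 20)) (.l 32)) (.l 25)) (.l 29)) (.l 37)) (.l 37)) (.l 37)) (.l 37)) (.l 31)) (.l 35)) (.l 37)) (.l 37))) (.b 16 (.b 14 (.b 12 (.b 35 (.b 31 (.b 10 (.b 8 (.b 7 (.b 5 (.b 29 (.b 25 (.b 28 (.b 20 (.b 22 (.b 17 (.l 37) (.l 17)) (.l 22)) (.l 20)) (.l 28)) (.l 25)) (.l 29)) (.l 37)) (.l 37)) (.l 37)) (.l 37)) (.l 31)) (.l 35)) (.l 37)) (.l 37)) (.l 37))) (.b 19 (.b 16 (.b 14 (.b 12 (.b 35 (.b 31 (.b 10 (.b 8 (.b 7 (.b 5 (.b 29 (.b 25 (.b 32 (.b 20 (.b 22 (.b 17 (.l 37) (.l 17)) (.l 22)) (.l 20)) (.l 32)) (.l 25)) (.l 29)) (.l 37)) (.l 37)) (.l 37)) (.l 37)) (.l 31)) (.l 35)) (.l 37)) (.l 37)) (.l 37)) (.l 37))) (.b 21 (.b 19 (.b 16 (.b 14 (.b 12 (.b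 35 (.b 31 (.b 10 (.b 8 (.b 7 (.b 5 (.b 29 (.b 25 (.b 32 (.b 20 (.b 22 (.b 17 (.l 37) (.l 17)) (.l 22)) (.l 20)) (.l 32)) (.l 25)) (.l 29)) (.l 37)) (.l 37)) (.l 37)) (.l 37)) (.l 31)) (.l 35)) (.l 37)) (.l 37)) (.l 37)) (.l 37)) (.l 37)))) (.b 27 (.b 24 (.b 21 (.b 19 (.b 16 (.b 14 (.b 35 (.b 31 (.b 12 (.b 10 (.b 8 (.b 25 (.b 29 (.b 28 (.b 20 (.b 17 (.b 22 (.l 37) (.l 22)) (.l 17)) (.l 20)) (.l 28)) (.l 29)) (.l 25)) (.b 7 (.b 5 (.b 29 (.b 25 (.b 28 (.b 20 (.b 22 (.b 17 (.l 37) (.l 17)) (.l 22)) (.l 20)) (.l 28)) (.l 25)) (.l 29)) (.l 37)) (.l 37))) (.b 8 (.b 25 (.b 29 (.b 28 (.b 22 (.b 17 (.b 20 (.l 37) (.l 20)) (.l 17)) (.l 22)) (.l 28)) (.l 29)) (.l 25)) (.l 37))) (.b 10 (.b 8 (.b 7 (.b 5 (.b 29 (.b 25 (.b 28 (.b 20 (.b 22 (.b 17 (.l 37) (.l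 17)) (.l 22)) (.l 20)) (.l 28)) (.l 25)) (.l 29)) (.l 37)) (.l 37)) (.l 37)) (.l 37))) (.l 31)) (.l 35)) (.b 12 (.b 31 (.b 35 (.b 10 (.b 8 (.b 7 (.b 5 (.b 29 (.b 25 (.b 28 (.b 20 (.b 22 (.b 17 (.l 37) (.l 17)) (.l 22)) (.l 20)) (.l 28)) (.l 25)) (.l 29)) (.l 37)) (.l 37)) (.l 37)) (.l 37)) (.l 35)) (.l 31)) (.l 37))) (.b 14 (.b 12 (.b 35 (.b 31 (.b 10 (.b 8 (.b 7 (.b 5 (.b 29 (.b 25 (.b 32 (.b 20 (.b 22 (.b 17 (.l 37) (.l 17)) (.l 22)) (.l 20)) (.l 32)) (.l 25)) (.l 29)) (.l 37)) (.l 37)) (.l 37)) (.l 37)) (.l 31)) (.l 35)) (.l 37)) (.l 37))) (.b 16 (.b 14 (.b 12 (.b 35 (.b 31 (.b 10 (.b 8 (.b 7 (.b 5 (.b 29 (.b 25 (.b 28 (.b 20 (.b 22 (.b 17 (.l 37) (.l 17)) (.l 22)) (.l 20)) (.l 28)) (.l 25)) (.l 29)) (.l 37)) (.l 37)) (.l 37)) (.l 37)) (.l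 31)) (.l 35)) (.l 37)) (.l 37)) (.l 37))) (.b 19 (.b 16 (.b 14 (.b 12 (.b 35 (.b 31 (.b 10 (.b 8 (.b 7 (.b 5 (.b 29 (.b 25 (.b 32 (.b 20 (.b 22 (.b 17 (.l 37) (.l 17)) (.l 22)) (.l 20)) (.l 32)) (.l 25)) (.l 29)) (.l 37)) (.l 37)) (.l 37)) (.l 37)) (.l 31)) (.l 35)) (.l 37)) (.l 37)) (.l 37)) (.l 37))) (.b 21 (.b 19 (.b 16 (.b 14 (.b 12 (.b 35 (.b 31 (.b 10 (.b 8 (.b 7 (.b 5 (.b 29 (.b 25 (.b 32 (.b 20 (.b 22 (.b 17 (.l 37) (.l 17)) (.l 22)) (.l 20)) (.l 32)) (.l 25)) (.l 29)) (.l 37)) (.l 37)) (.l 37)) (.l 37)) (.l 31)) (.l 35)) (.l 37)) (.l 37)) (.l 37)) (.l 37)) (.l 37))) (.b 24 (.b 21 (.b 19 (.b 16 (.b 14 (.b 12 (.b 35 (.b 31 (.b 10 (.b 8 (.b 7 (.b 5 (.b 29 (.b 25 (.b 32 (.b 20 (.b 22 (.b 17 (.l 37) (.l 17)) (.l 22)) (.l 20)) (.l 32)) (.l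 25)) (.l 29)) (.l 37)) (.l 37)) (.l 37)) (.l 37)) (.l 31)) (.l 35)) (.l 37)) (.l 37)) (.l 37)) (.l 37)) (.l 37)) (.l 37)))))

private lemma k23 : chk dm3 (PLf PL3 23) 38 22 c23 0 0 = true := by decide +kernel

private def c24 : Cert := (.m 23 (.b 31 (.b 28 (.b 25 (.b 22 (.b 20 (.b 19 (.b 17 (.b 15 (.b 14 (.b 13 (.b 12 (.b 11 (.b 37 (.m 22 (.b 34 (.b 30 (.l 38) (.l 30)) (.l 34))) (.l 37)) (.b 10 (.b 9 (.b 37 (.m 22 (.b 35 (.b 30 (.l 38) (.l 30)) (.l 35))) (.l 37)) (.b 8 (.b 35 (.b 37 (.m 21 (.b 29 (.l 38) (.l 29))) (.l 37)) (.l 35)) (.l 38))) (.b 9 (.b 37 (.m 22 (.b 35 (.b 30 (.l 38) (.l 30)) (.l 35))) (.l 37)) (.l 38)))) (.b 11 (.b 37 (.m 22 (.b 34 (.b 30 (.l 38) (.l 30)) (.l 34))) (.l 37)) (.b 10 (.b 9 (.b 37 (.m 22 (.b 8 (.b 35 (.b 30 (.l 38)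 (.l 30)) (.l 35)) (.l 38))) (.l 37)) (.l 38)) (.l 38)))) (.b 12 (.b 11 (.b 10 (.b 9 (.b 37 (.m 22 (.b 34 (.b 30 (.l 38) (.l 30)) (.l 34))) (.l 37)) (.b 8 (.b 35 (.b 34 (.b 29 (.l 38) (.l 29)) (.l 34)) (.l 35)) (.l 38))) (.b 9 (.b 37 (.m 22 (.b 34 (.b 30 (.l 38) (.l 30)) (.l 34))) (.l 37)) (.l 38))) (.b 10 (.b 9 (.b 8 (.b 35 (.b 37 (.m 21 (.b 29 (.l 38) (.l 29))) (.l 37)) (.l 35)) (.l 38)) (.l 38)) (.l 38))) (.b 11 (.b 10 (.b 9 (.b 37 (.m 22 (.b 34 (.b 30 (.l 38) (.l 30)) (.l 34))) (.l 37)) (.l 38)) (.l 38)) (.l 38)))) (.b 13 (.b 12 (.b 11 (.b 37 (.m 22 (.b 34 (.b 30 (.l 38) (.l 30)) (.l 34))) (.l 37)) (.b 10 (.b 9 (.b 37 (.m 22 (.b 8 (.b 35 (.b 30 (.l 38) (.l 30)) (.l 35)) (.l 38))) (.l 37)) (.l 38)) (.l 38))) (.b 11 (.b 37 (.m 22 (.b 34 (.b 30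 (.l 38) (.l 30)) (.l 34))) (.l 37)) (.l 38))) (.b 12 (.b 11 (.b 10 (.b 9 (.b 37 (.m 22 (.b 34 (.b 30 (.l 38) (.l 30)) (.l 34))) (.l 37)) (.l 38)) (.l 38)) (.l 38)) (.l 38)))) (.b 14 (.b 13 (.b 12 (.b 11 (.b 10 (.b 9 (.b 37 (.m 22 (.b 35 (.b 30 (.l 38) (.l 30)) (.l 35))) (.l 37)) (.b 8 (.b 35 (.b 37 (.m 21 (.b 29 (.l 38) (.l 29))) (.l 37)) (.l 35)) (.l 38))) (.b 9 (.b 37 (.m 22 (.b 35 (.b 30 (.l 38) (.l 30)) (.l 35))) (.l 37)) (.l 38))) (.b 10 (.b 9 (.b 8 (.b 35 (.b 37 (.m 21 (.b 29 (.l 38) (.l 29))) (.l 37)) (.l 35)) (.l 38)) (.l 38)) (.l 38))) (.b 11 (.b 10 (.b 9 (.b 37 (.m 22 (.b 8 (.b 35 (.b 30 (.l 38) (.l 30)) (.l 35)) (.l 38))) (.l 37)) (.l 38)) (.l 38)) (.l 38))) (.b 12 (.b 11 (.b 10 (.b 9 (.b 8 (.b 35 (.b 37 (.m 21 (.b 29 (.l 38) (.l 29)))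 (.l 37)) (.l 35)) (.l 38)) (.l 38)) (.l 38)) (.l 38)) (.l 38))) (.b 13 (.b 12 (.b 11 (.b 10 (.b 9 (.b 37 (.m 22 (.b 8 (.b 35 (.b 30 (.l 38) (.l 30)) (.l 35)) (.l 38))) (.l 37)) (.l 38)) (.l 38)) (.l 38)) (.l 38)) (.l 38)))) (.b 15 (.b 14 (.b 13 (.b 12 (.b 11 (.b 10 (.b 9 (.b 37 (.m 22 (.b 34 (.b 30 (.l 38) (.l 30)) (.l 34))) (.l 37)) (.b 8 (.b 35 (.b 34 (.b 37 (.m 20 (.l 38)) (.l 37)) (.l 34)) (.l 35)) (.l 38))) (.b 9 (.b 37 (.m 22 (.b 34 (.b 30 (.l 38) (.l 30)) (.l 34))) (.l 37)) (.l 38))) (.b 10 (.b 9 (.b 8 (.b 35 (.b 37 (.m 21 (.b 34 (.m 20 (.l 38)) (.l 34))) (.l 37)) (.l 35)) (.l 38)) (.l 38)) (.l 38))) (.b 11 (.b 10 (.b 9 (.b 37 (.m 22 (.b 34 (.b 30 (.l 38) (.l 30)) (.l 34))) (.l 37)) (.l 38)) (.l 38)) (.l 38))) (.b 12 (.b 11 (.b 10 (.b 9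 (.b 8 (.b 35 (.b 34 (.b 37 (.m 20 (.l 38)) (.l 37)) (.l 34)) (.l 35)) (.l 38)) (.l 38)) (.l 38)) (.l 38)) (.l 38))) (.b 13 (.b 12 (.b 11 (.b 10 (.b 9 (.b 37 (.m 22 (.b 34 (.b 30 (.l 38) (.l 30)) (.l 34))) (.l 37)) (.l 38)) (.l 38)) (.l 38)) (.l 38)) (.l 38))) (.b 14 (.b 13 (.b 12 (.b 11 (.b 10 (.b 9 (.b 8 (.b 35 (.b 37 (.m 21 (.b 34 (.m 20 (.l 38)) (.l 34))) (.l 37)) (.l 35)) (.l 38)) (.l 38)) (.l 38)) (.l 38)) (.l 38)) (.l 38)) (.l 38)))) (.b 17 (.b 15 (.b 14 (.b 13 (.b 12 (.b 11 (.b 37 (.m 22 (.b 34 (.b 30 (.l 38) (.l 30)) (.l 34))) (.l 37)) (.b 10 (.b 9 (.b 37 (.m 22 (.b 8 (.b 35 (.b 30 (.l 38) (.l 30)) (.l 35)) (.l 38))) (.l 37)) (.l 38)) (.l 38))) (.b 11 (.b 37 (.m 22 (.b 34 (.b 30 (.l 38) (.l 30)) (.l 34))) (.l 37)) (.l 38))) (.b 12 (.b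 11 (.b 10 (.b 9 (.b 37 (.m 22 (.b 34 (.b 30 (.l 38) (.l 30)) (.l 34))) (.l 37)) (.l 38)) (.l 38)) (.l 38)) (.l 38))) (.b 13 (.b 12 (.b 11 (.b 37 (.m 22 (.b 34 (.b 30 (.l 38) (.l 30)) (.l 34))) (.l 37)) (.l 38)) (.l 38)) (.l 38))) (.b 14 (.b 13 (.b 12 (.b 11 (.b 10 (.b 9 (.b 37 (.m 22 (.b 8 (.b 35 (.b 30 (.l 38) (.l 30)) (.l 35)) (.l 38))) (.l 37)) (.l 38)) (.l 38)) (.l 38)) (.l 38)) (.l 38)) (.l 38))) (.b 15 (.b 14 (.b 13 (.b 12 (.b 11 (.b 10 (.b 9 (.b 37 (.m 22 (.b 34 (.b 30 (.l 38) (.l 30)) (.l 34))) (.l 37)) (.l 38)) (.l 38)) (.l 38)) (.l 38)) (.l 38)) (.l 38)) (.l 38)))) (.b 19 (.b 17 (.b 15 (.b 14 (.b 13 (.b 12 (.b 11 (.b 10 (.b 9 (.b 37 (.m 22 (.b 35 (.b 30 (.l 38) (.l 30)) (.l 35))) (.l 37)) (.b 8 (.b 35 (.b 37 (.m 21 (.b 29 (.l 38) (.l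 29))) (.l 37)) (.l 35)) (.l 38))) (.b 9 (.b 37 (.m 22 (.b 35 (.b 30 (.l 38) (.l 30)) (.l 35))) (.l 37)) (.l 38))) (.b 10 (.b 9 (.b 8 (.b 35 (.b 37 (.m 21 (.b 29 (.l 38) (.l 29))) (.l 37)) (.l 35)) (.l 38)) (.l 38)) (.l 38))) (.b 11 (.b 10 (.b 9 (.b 37 (.m 22 (.b 8 (.b 35 (.b 30 (.l 38) (.l 30)) (.l 35)) (.l 38))) (.l 37)) (.l 38)) (.l 38)) (.l 38))) (.b 12 (.b 11 (.b 10 (.b 9 (.b 8 (.b 35 (.b 37 (.m 21 (.b 29 (.l 38) (.l 29))) (.l 37)) (.l 35)) (.l 38)) (.l 38)) (.l 38)) (.l 38)) (.l 38))) (.b 13 (.b 12 (.b 11 (.b 10 (.b 9 (.b 37 (.m 22 (.b 8 (.b 35 (.b 30 (.l 38) (.l 30)) (.l 35)) (.l 38))) (.l 37)) (.l 38)) (.l 38)) (.l 38)) (.l 38)) (.l 38))) (.b 14 (.b 13 (.b 12 (.b 11 (.b 10 (.b 9 (.b 8 (.b 35 (.b 37 (.m 21 (.b 29 (.l 38) (.l 29))) (.l 37))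 (.l 35)) (.l 38)) (.l 38)) (.l 38)) (.l 38)) (.l 38)) (.l 38)) (.l 38))) (.b 15 (.b 14 (.b 13 (.b 12 (.b 11 (.b 10 (.b 9 (.b 8 (.b 35 (.b 37 (.m 21 (.b 34 (.m 20 (.l 38)) (.l 34))) (.l 37)) (.l 35)) (.l 38)) (.l 38)) (.l 38)) (.l 38)) (.l 38)) (.l 38)) (.l 38)) (.l 38))) (.b 17 (.b 15 (.b 14 (.b 13 (.b 12 (.b 11 (.b 10 (.b 9 (.b 37 (.m 22 (.b 8 (.b 35 (.b 30 (.l 38) (.l 30)) (.l 35)) (.l 38))) (.l 37)) (.l 38)) (.l 38)) (.l 38)) (.l 38)) (.l 38)) (.l 38)) (.l 38)) (.l 38)))) (.b 20 (.b 19 (.b 17 (.b 15 (.b 14 (.b 13 (.b 12 (.b 11 (.b 10 (.b 9 (.b 37 (.m 22 (.b 34 (.b 30 (.l 38) (.l 30)) (.l 34))) (.l 37)) (.b 8 (.b 7 (.b 6 (.b 37 (.m 22 (.b 34 (.b 30 (.l 38) (.l 30)) (.l 34))) (.l 37)) (.l 38)) (.l 38)) (.l 38))) (.b 9 (.b 37 (.m 22 (.b 34 (.b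 30 (.l 38) (.l 30)) (.l 34))) (.l 37)) (.l 38))) (.b 10 (.b 9 (.b 8 (.b 7 (.b 6 (.b 37 (.m 22 (.b 35 (.b 30 (.l 38) (.l 30)) (.l 35))) (.l 37)) (.l 38)) (.l 38)) (.l 38)) (.l 38)) (.l 38))) (.b 11 (.b 10 (.b 9 (.b 37 (.m 22 (.b 34 (.b 30 (.l 38) (.l 30)) (.l 34))) (.l 37)) (.l 38)) (.l 38)) (.l 38))) (.b 12 (.b 11 (.b 10 (.b 9 (.b 8 (.b 7 (.b 6 (.b 37 (.m 22 (.b 34 (.b 30 (.l 38) (.l 30)) (.l 34))) (.l 37)) (.l 38)) (.l 38)) (.l 38)) (.l 38)) (.l 38)) (.l 38)) (.l 38))) (.b 13 (.b 12 (.b 11 (.b 10 (.b 9 (.b 37 (.m 22 (.b 34 (.b 30 (.l 38) (.l 30)) (.l 34))) (.l 37)) (.l 38)) (.l 38)) (.l 38)) (.l 38)) (.l 38))) (.b 14 (.b 13 (.b 12 (.b 11 (.b 10 (.b 9 (.b 8 (.b 7 (.b 6 (.b 37 (.m 22 (.b 35 (.b 30 (.l 38) (.l 30)) (.l 35))) (.l 37)) (.l 38)) (.l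 38)) (.l 38)) (.l 38)) (.l 38)) (.l 38)) (.l 38)) (.l 38)) (.l 38))) (.b 15 (.b 14 (.b 13 (.b 12 (.b 11 (.b 10 (.b 9 (.b 8 (.b 7 (.b 6 (.b 37 (.m 22 (.b 34 (.b 30 (.l 38) (.l 30)) (.l 34))) (.l 37)) (.l 38)) (.l 38)) (.l 38)) (.l 38)) (.l 38)) (.l 38)) (.l 38)) (.l 38)) (.l 38)) (.l 38))) (.b 17 (.b 15 (.b 14 (.b 13 (.b 12 (.b 11 (.b 10 (.b 9 (.b 37 (.m 22 (.b 34 (.b 30 (.l 38) (.l 30)) (.l 34))) (.l 37)) (.l 38)) (.l 38)) (.l 38)) (.l 38)) (.l 38)) (.l 38)) (.l 38)) (.l 38))) (.b 19 (.b 17 (.b 15 (.b 14 (.b 13 (.b 12 (.b 11 (.b 10 (.b 9 (.b 8 (.b 7 (.b 6 (.b 37 (.m 22 (.b 35 (.b 30 (.l 38) (.l 30)) (.l 35))) (.l 37)) (.l 38)) (.l 38)) (.l 38)) (.l 38)) (.l 38)) (.l 38)) (.l 38)) (.l 38)) (.l 38)) (.l 38)) (.l 38)) (.l 38)))) (.b 22 (.b 20 (.b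 19 (.b 17 (.b 15 (.b 14 (.b 13 (.b 12 (.b 11 (.b 10 (.b 9 (.b 37 (.m 22 (.b 35 (.b 30 (.l 38) (.l 30)) (.l 35))) (.l 37)) (.b 8 (.b 35 (.b 37 (.m 21 (.b 34 (.m 20 (.l 38)) (.l 34))) (.l 37)) (.l 35)) (.l 38))) (.b 9 (.b 37 (.m 22 (.b 35 (.b 30 (.l 38) (.l 30)) (.l 35))) (.l 37)) (.l 38))) (.b 10 (.b 9 (.b 8 (.b 35 (.b 37 (.m 21 (.b 7 (.b 6 (.b 30 (.l 38) (.l 30)) (.l 38)) (.l 38))) (.l 37)) (.l 35)) (.l 38)) (.l 38)) (.l 38))) (.b 11 (.b 10 (.b 9 (.b 37 (.m 22 (.b 8 (.b 35 (.b 30 (.l 38) (.l 30)) (.l 35)) (.l 38))) (.l 37)) (.l 38)) (.l 38)) (.l 38))) (.b 12 (.b 11 (.b 10 (.b 9 (.b 8 (.b 35 (.b 37 (.m 21 (.b 34 (.m 20 (.l 38)) (.l 34))) (.l 37)) (.l 35)) (.l 38)) (.l 38)) (.l 38)) (.l 38)) (.l 38))) (.b 13 (.b 12 (.b 11 (.b 10 (.b 9 (.b 37 (.m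 22 (.b 8 (.b 35 (.b 30 (.l 38) (.l 30)) (.l 35)) (.l 38))) (.l 37)) (.l 38)) (.l 38)) (.l 38)) (.l 38)) (.l 38))) (.b 14 (.b 13 (.b 12 (.b 11 (.b 10 (.b 9 (.b 8 (.b 35 (.b 37 (.m 21 (.b 7 (.b 6 (.b 30 (.l 38) (.l 30)) (.l 38)) (.l 38))) (.l 37)) (.l 35)) (.l 38)) (.l 38)) (.l 38)) (.l 38)) (.l 38)) (.l 38)) (.l 38))) (.b 15 (.b 14 (.b 13 (.b 12 (.b 11 (.b 10 (.b 9 (.b 8 (.b 35 (.b 37 (.m 21 (.b 34 (.m 20 (.l 38)) (.l 34))) (.l 37)) (.l 35)) (.l 38)) (.l 38)) (.l 38)) (.l 38)) (.l 38)) (.l 38)) (.l 38)) (.l 38))) (.b 17 (.b 15 (.b 14 (.b 13 (.b 12 (.b 11 (.b 10 (.b 9 (.b 37 (.m 22 (.b 8 (.b 35 (.b 30 (.l 38) (.l 30)) (.l 35)) (.l 38))) (.l 37)) (.l 38)) (.l 38)) (.l 38)) (.l 38)) (.l 38)) (.l 38)) (.l 38)) (.l 38))) (.b 19 (.b 17 (.b 15 (.b 14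 (.b 13 (.b 12 (.b 11 (.b 10 (.b 9 (.b 8 (.b 35 (.b 37 (.m 21 (.b 7 (.b 6 (.b 30 (.l 38) (.l 30)) (.l 38)) (.l 38))) (.l 37)) (.l 35)) (.l 38)) (.l 38)) (.l 38)) (.l 38)) (.l 38)) (.l 38)) (.l 38)) (.l 38)) (.l 38)) (.l 38))) (.b 20 (.b 19 (.b 17 (.b 15 (.b 14 (.b 13 (.b 12 (.b 11 (.b 10 (.b 9 (.b 8 (.b 7 (.b 6 (.b 37 (.m 22 (.b 35 (.b 30 (.l 38) (.l 30)) (.l 35))) (.l 37)) (.l 38)) (.l 38)) (.l 38)) (.l 38)) (.l 38)) (.l 38)) (.l 38)) (.l 38)) (.l 38)) (.l 38)) (.l 38)) (.l 38)) (.l 38)))) (.b 25 (.b 22 (.b 20 (.b 19 (.b 17 (.b 15 (.b 14 (.b 13 (.b 12 (.b 11 (.b 10 (.b 9 (.b 37 (.m 22 (.b 34 (.b 30 (.l 38) (.l 30)) (.l 34))) (.l 37)) (.b 8 (.b 7 (.b 6 (.b 37 (.m 22 (.b 34 (.b 30 (.l 38) (.l 30)) (.l 34))) (.l 37)) (.l 38)) (.l 38)) (.l 38))) (.b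 9 (.b 37 (.m 22 (.b 34 (.b 30 (.l 38) (.l 30)) (.l 34))) (.l 37)) (.l 38))) (.b 10 (.b 9 (.b 8 (.b 7 (.b 6 (.b 37 (.m 22 (.b 35 (.b 30 (.l 38) (.l 30)) (.l 35))) (.l 37)) (.l 38)) (.l 38)) (.l 38)) (.l 38)) (.l 38))) (.b 11 (.b 10 (.b 9 (.b 37 (.m 22 (.b 34 (.b 30 (.l 38) (.l 30)) (.l 34))) (.l 37)) (.l 38)) (.l 38)) (.l 38))) (.b 12 (.b 11 (.b 10 (.b 9 (.b 8 (.b 7 (.b 6 (.b 37 (.m 22 (.b 34 (.b 30 (.l 38) (.l 30)) (.l 34))) (.l 37)) (.l 38)) (.l 38)) (.l 38)) (.l 38)) (.l 38)) (.l 38)) (.l 38))) (.b 13 (.b 12 (.b 11 (.b 10 (.b 9 (.b 37 (.m 22 (.b 34 (.b 30 (.l 38) (.l 30)) (.l 34))) (.l 37)) (.l 38)) (.l 38)) (.l 38)) (.l 38)) (.l 38))) (.b 14 (.b 13 (.b 12 (.b 11 (.b 10 (.b 9 (.b 8 (.b 7 (.b 6 (.b 37 (.m 22 (.b 35 (.b 30 (.l 38) (.l 30)) (.l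 35))) (.l 37)) (.l 38)) (.l 38)) (.l 38)) (.l 38)) (.l 38)) (.l 38)) (.l 38)) (.l 38)) (.l 38))) (.b 15 (.b 14 (.b 13 (.b 12 (.b 11 (.b 10 (.b 9 (.b 8 (.b 7 (.b 6 (.b 37 (.m 22 (.b 34 (.b 30 (.l 38) (.l 30)) (.l 34))) (.l 37)) (.l 38)) (.l 38)) (.l 38)) (.l 38)) (.l 38)) (.l 38)) (.l 38)) (.l 38)) (.l 38)) (.l 38))) (.b 17 (.b 15 (.b 14 (.b 13 (.b 12 (.b 11 (.b 10 (.b 9 (.b 37 (.m 22 (.b 34 (.b 30 (.l 38) (.l 30)) (.l 34))) (.l 37)) (.l 38)) (.l 38)) (.l 38)) (.l 38)) (.l 38)) (.l 38)) (.l 38)) (.l 38))) (.b 19 (.b 17 (.b 15 (.b 14 (.b 13 (.b 12 (.b 11 (.b 10 (.b 9 (.b 8 (.b 7 (.b 6 (.b 37 (.m 22 (.b 35 (.b 30 (.l 38) (.l 30)) (.l 35))) (.l 37)) (.l 38)) (.l 38)) (.l 38)) (.l 38)) (.l 38)) (.l 38)) (.l 38)) (.l 38)) (.l 38)) (.l 38)) (.l 38))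 (.l 38))) (.b 20 (.b 19 (.b 17 (.b 15 (.b 14 (.b 13 (.b 12 (.b 11 (.b 10 (.b 9 (.b 8 (.b 7 (.b 6 (.b 37 (.m 22 (.b 34 (.b 30 (.l 38) (.l 30)) (.l 34))) (.l 37)) (.l 38)) (.l 38)) (.l 38)) (.l 38)) (.l 38)) (.l 38)) (.l 38)) (.l 38)) (.l 38)) (.l 38)) (.l 38)) (.l 38)) (.l 38))) (.b 22 (.b 20 (.b 19 (.b 17 (.b 15 (.b 14 (.b 13 (.b 12 (.b 11 (.b 10 (.b 9 (.b 8 (.b 7 (.b 6 (.b 37 (.m 22 (.b 35 (.b 30 (.l 38) (.l 30)) (.l 35))) (.l 37)) (.l 38)) (.l 38)) (.l 38)) (.l 38)) (.l 38)) (.l 38)) (.l 38)) (.l 38)) (.l 38)) (.l 38)) (.l 38)) (.l 38)) (.l 38)) (.l 38)))) (.b 28 (.b 25 (.b 22 (.b 20 (.b 19 (.b 17 (.b 15 (.b 14 (.b 13 (.b 12 (.b 11 (.b 10 (.b 9 (.b 37 (.m 22 (.b 8 (.b 35 (.b 30 (.l 38) (.l 30)) (.l 35)) (.b 7 (.b 6 (.b 30 (.b 34 (.l 38) (.l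 34)) (.l 30)) (.l 38)) (.l 38)))) (.l 37)) (.b 8 (.b 7 (.b 6 (.b 37 (.m 22 (.b 35 (.b 30 (.l 38) (.l 30)) (.l 35))) (.l 37)) (.l 38)) (.l 38)) (.l 38))) (.b 9 (.b 37 (.m 22 (.b 8 (.b 35 (.b 30 (.l 38) (.l 30)) (.l 35)) (.l 38))) (.l 37)) (.l 38))) (.b 10 (.b 9 (.b 8 (.b 7 (.b 6 (.b 37 (.m 22 (.b 35 (.b 30 (.l 38) (.l 30)) (.l 35))) (.l 37)) (.l 38)) (.l 38)) (.l 38)) (.l 38)) (.l 38))) (.b 11 (.b 10 (.b 9 (.b 37 (.m 22 (.b 8 (.b 7 (.b 6 (.b 30 (.b 34 (.l 38) (.l 34)) (.l 30)) (.l 38)) (.l 38)) (.l 38))) (.l 37)) (.l 38)) (.l 38)) (.l 38))) (.b 12 (.b 11 (.b 10 (.b 9 (.b 8 (.b 7 (.b 6 (.b 37 (.m 22 (.b 35 (.b 30 (.l 38) (.l 30)) (.l 35))) (.l 37)) (.l 38)) (.l 38)) (.l 38)) (.l 38)) (.l 38)) (.l 38)) (.l 38))) (.b 13 (.b 12 (.b 11 (.b 10 (.b 9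 (.b 37 (.m 22 (.b 8 (.b 7 (.b 6 (.b 30 (.b 34 (.l 38) (.l 34)) (.l 30)) (.l 38)) (.l 38)) (.l 38))) (.l 37)) (.l 38)) (.l 38)) (.l 38)) (.l 38)) (.l 38))) (.b 14 (.b 13 (.b 12 (.b 11 (.b 10 (.b 9 (.b 8 (.b 7 (.b 6 (.b 37 (.m 22 (.b 35 (.b 30 (.l 38) (.l 30)) (.l 35))) (.l 37)) (.l 38)) (.l 38)) (.l 38)) (.l 38)) (.l 38)) (.l 38)) (.l 38)) (.l 38)) (.l 38))) (.b 15 (.b 14 (.b 13 (.b 12 (.b 11 (.b 10 (.b 9 (.b 8 (.b 7 (.b 6 (.b 37 (.m 22 (.b 35 (.b 30 (.l 38) (.l 30)) (.l 35))) (.l 37)) (.l 38)) (.l 38)) (.l 38)) (.l 38)) (.l 38)) (.l 38)) (.l 38)) (.l 38)) (.l 38)) (.l 38))) (.b 17 (.b 15 (.b 14 (.b 13 (.b 12 (.b 11 (.b 10 (.b 9 (.b 37 (.m 22 (.b 8 (.b 7 (.b 6 (.b 30 (.b 34 (.l 38) (.l 34)) (.l 30)) (.l 38)) (.l 38)) (.l 38))) (.l 37)) (.l 38))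 (.l 38)) (.l 38)) (.l 38)) (.l 38)) (.l 38)) (.l 38)) (.l 38))) (.b 19 (.b 17 (.b 15 (.b 14 (.b 13 (.b 12 (.b 11 (.b 10 (.b 9 (.b 8 (.b 7 (.b 6 (.b 37 (.m 22 (.b 35 (.b 30 (.l 38) (.l 30)) (.l 35))) (.l 37)) (.l 38)) (.l 38)) (.l 38)) (.l 38)) (.l 38)) (.l 38)) (.l 38)) (.l 38)) (.l 38)) (.l 38)) (.l 38)) (.l 38))) (.b 20 (.b 19 (.b 17 (.b 15 (.b 14 (.b 13 (.b 12 (.b 11 (.b 10 (.b 9 (.b 8 (.b 7 (.b 6 (.b 37 (.m 22 (.b 5 (.b 4 (.b 3 (.b 2 (.b 1 (.b 0 (.b 34 (.m 0 (.l 35)) (.b 24 (.m 0 (.l 35)) (.b 16 (.m 0 (.l 35)) (.l 34)))) (.l 38)) (.l 38)) (.l 38)) (.l 38)) (.l 38)) (.l 38))) (.l 37)) (.l 38)) (.l 38)) (.l 38)) (.l 38)) (.l 38)) (.l 38)) (.l 38)) (.l 38)) (.l 38)) (.l 38)) (.l 38)) (.l 38)) (.l 38))) (.b 22 (.b 20 (.b 19 (.b 17 (.b 15 (.b 14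 (.b 13 (.b 12 (.b 11 (.b 10 (.b 9 (.b 8 (.b 7 (.b 6 (.b 37 (.m 22 (.b 35 (.b 30 (.l 38) (.l 30)) (.l 35))) (.l 37)) (.l 38)) (.l 38)) (.l 38)) (.l 38)) (.l 38)) (.l 38)) (.l 38)) (.l 38)) (.l 38)) (.l 38)) (.l 38)) (.l 38)) (.l 38)) (.l 38))) (.b 25 (.b 22 (.b 20 (.b 19 (.b 17 (.b 15 (.b 14 (.b 13 (.b 12 (.b 11 (.b 10 (.b 9 (.b 8 (.b 7 (.b 6 (.b 37 (.m 22 (.b 5 (.b 4 (.b 3 (.b 2 (.b 1 (.b 0 (.b 34 (.m 0 (.l 35)) (.b 24 (.m 0 (.l 35)) (.b 16 (.m 0 (.l 35)) (.l 34)))) (.l 38)) (.l 38)) (.l 38)) (.l 38)) (.l 38)) (.l 38))) (.l 37)) (.l 38)) (.l 38)) (.l 38)) (.l 38)) (.l 38)) (.l 38)) (.l 38)) (.l 38)) (.l 38)) (.l 38)) (.l 38)) (.l 38)) (.l 38)) (.l 38)) (.l 38)))))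

private lemma k24 : chk dm3 (PLf PL3 24) 39 23 c24 0 0 = true := by decide +kernel

private def c25 : Cert := (.m 24 (.b 32 (.b 29 (.b 26 (.b 23 (.b 38 (.b 20 (.b 18 (.b 34 (.b 15 (.b 13 (.b 37 (.m 22 (.b 28 (.b 30 (.b 31 (.m 15 (.l 35)) (.l 31)) (.l 30)) (.l 28))) (.l 37)) (.b 11 (.b 28 (.b 31 (.b 30 (.b 22 (.b 24 (.b 25 (.b 17 (.b 19 (.m 7 (.l 39)) (.l 19)) (.l 17)) (.l 25)) (.l 24)) (.l 22)) (.l 30)) (.l 31)) (.l 28)) (.b 9 (.b 37 (.m 22 (.b 28 (.b 30 (.b 31 (.m 15 (.l 35)) (.l 31)) (.l 30)) (.l 28))) (.l 37)) (.l 39)))) (.b 13 (.b 11 (.b 37 (.m 22 (.b 28 (.b 30 (.b 31 (.m 15 (.l 35)) (.l 31)) (.l 30)) (.l 28))) (.l 37)) (.b 9 (.b 37 (.m 22 (.b 31 (.b 28 (.b 30 (.m 15 (.l 35)) (.l 30)) (.l 28)) (.l 31))) (.l 37)) (.l 39))) (.b 11 (.b 9 (.b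 37 (.m 22 (.b 28 (.b 30 (.b 31 (.m 15 (.l 35)) (.l 31)) (.l 30)) (.l 28))) (.l 37)) (.l 39)) (.l 39)))) (.l 34)) (.b 15 (.b 34 (.b 13 (.b 11 (.b 37 (.m 22 (.b 28 (.b 30 (.b 31 (.m 15 (.l 35)) (.l 31)) (.l 30)) (.l 28))) (.l 37)) (.b 9 (.b 37 (.m 22 (.b 7 (.b 6 (.b 30 (.b 28 (.b 24 (.b 31 (.m 15 (.l 35)) (.l 31)) (.l 24)) (.l 28)) (.l 30)) (.l 39)) (.l 39))) (.l 37)) (.l 39))) (.b 11 (.b 9 (.b 37 (.m 22 (.b 28 (.b 30 (.b 31 (.m 15 (.l 35)) (.l 31)) (.l 30)) (.l 28))) (.l 37)) (.l 39)) (.l 39))) (.l 34)) (.b 13 (.b 11 (.b 34 (.b 9 (.b 37 (.m 22 (.b 7 (.b 6 (.b 30 (.b 28 (.b 24 (.b 31 (.m 15 (.l 35)) (.l 31)) (.l 24)) (.l 28)) (.l 30)) (.l 39)) (.l 39))) (.l 37)) (.l 39)) (.l 34)) (.l 39)) (.l 39)))) (.b 18 (.b 15 (.b 34 (.b 13 (.b 11 (.b 37 (.m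 22 (.b 28 (.b 30 (.b 31 (.m 15 (.l 35)) (.l 31)) (.l 30)) (.l 28))) (.l 37)) (.b 9 (.b 37 (.m 22 (.b 31 (.b 28 (.b 30 (.m 15 (.l 35)) (.l 30)) (.l 28)) (.l 31))) (.l 37)) (.l 39))) (.b 11 (.b 9 (.b 37 (.m 22 (.b 28 (.b 30 (.b 31 (.m 15 (.l 35)) (.l 31)) (.l 30)) (.l 28))) (.l 37)) (.l 39)) (.l 39))) (.l 34)) (.b 13 (.b 11 (.b 34 (.b 9 (.b 37 (.m 22 (.b 31 (.b 28 (.b 30 (.m 15 (.l 35)) (.l 30)) (.l 28)) (.l 31))) (.l 37)) (.l 39)) (.l 34)) (.l 39)) (.l 39))) (.b 15 (.b 13 (.b 11 (.b 34 (.b 9 (.b 37 (.m 22 (.b 7 (.b 6 (.b 30 (.b 28 (.b 24 (.b 31 (.m 15 (.l 35)) (.l 31)) (.l 24)) (.l 28)) (.l 30)) (.l 39)) (.l 39))) (.l 37)) (.l 39)) (.l 34)) (.l 39)) (.l 39)) (.l 39)))) (.l 38)) (.b 20 (.b 18 (.b 38 (.b 15 (.b 34 (.b 13 (.b 11 (.b 37 (.m 22 (.b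 28 (.b 30 (.b 31 (.m 15 (.l 35)) (.l 31)) (.l 30)) (.l 28))) (.l 37)) (.b 9 (.b 37 (.m 22 (.b 7 (.b 6 (.b 30 (.b 28 (.b 24 (.b 31 (.m 15 (.l 35)) (.l 31)) (.l 24)) (.l 28)) (.l 30)) (.l 39)) (.l 39))) (.l 37)) (.l 39))) (.b 11 (.b 9 (.b 37 (.m 22 (.b 28 (.b 30 (.b 31 (.m 15 (.l 35)) (.l 31)) (.l 30)) (.l 28))) (.l 37)) (.l 39)) (.l 39))) (.l 34)) (.b 13 (.b 11 (.b 34 (.b 9 (.b 37 (.m 22 (.b 7 (.b 6 (.b 30 (.b 28 (.b 24 (.b 31 (.m 15 (.l 35)) (.l 31)) (.l 24)) (.l 28)) (.l 30)) (.l 39)) (.l 39))) (.l 37)) (.l 39)) (.l 34)) (.l 39)) (.l 39))) (.l 38)) (.b 15 (.b 13 (.b 11 (.b 9 (.b 7 (.b 6 (.b 4 (.b 3 (.b 2 (.b 1 (.b 0 (.b 35 (.b 34 (.b 37 (.b 30 (.b 28 (.b 24 (.b 31 (.m 15 (.l 38)) (.l 31)) (.l 24)) (.l 28)) (.l 30)) (.l 37)) (.l 34)) (.b 25 (.b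 34 (.b 37 (.b 30 (.b 28 (.b 24 (.b 31 (.l 35) (.l 31)) (.l 24)) (.l 28)) (.l 30)) (.l 37)) (.l 34)) (.l 35))) (.l 39)) (.l 39)) (.l 39)) (.l 39)) (.l 39)) (.l 39)) (.l 39)) (.l 39)) (.l 39)) (.l 39)) (.l 39))) (.b 18 (.b 38 (.b 15 (.b 13 (.b 11 (.b 34 (.b 9 (.b 37 (.m 22 (.b 7 (.b 6 (.b 30 (.b 28 (.b 24 (.b 31 (.m 15 (.l 35)) (.l 31)) (.l 24)) (.l 28)) (.l 30)) (.l 39)) (.l 39))) (.l 37)) (.l 39)) (.l 34)) (.l 39)) (.l 39)) (.l 39)) (.l 38)) (.l 39)))) (.b 23 (.b 20 (.b 18 (.b 38 (.b 15 (.b 34 (.b 13 (.b 11 (.b 37 (.m 22 (.b 28 (.b 30 (.b 31 (.b 22 (.b 24 (.b 19 (.b 17 (.l 39) (.l 17)) (.l 19)) (.l 24)) (.l 22)) (.l 31)) (.l 30)) (.l 28))) (.l 37)) (.b 9 (.b 37 (.m 22 (.b 7 (.b 6 (.b 30 (.b 28 (.b 24 (.b 31 (.b 19 (.b 22 (.b 14 (.l 39) (.l 14))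 (.l 22)) (.l 19)) (.l 31)) (.l 24)) (.l 28)) (.l 30)) (.l 39)) (.l 39))) (.l 37)) (.l 39))) (.b 11 (.b 9 (.b 37 (.m 22 (.b 28 (.b 30 (.b 31 (.b 22 (.b 24 (.b 19 (.b 17 (.l 39) (.l 17)) (.l 19)) (.l 24)) (.l 22)) (.l 31)) (.l 30)) (.l 28))) (.l 37)) (.l 39)) (.l 39))) (.l 34)) (.b 13 (.b 11 (.b 34 (.b 9 (.b 37 (.m 22 (.b 7 (.b 6 (.b 30 (.b 28 (.b 24 (.b 31 (.b 19 (.b 22 (.b 14 (.l 39) (.l 14)) (.l 22)) (.l 19)) (.l 31)) (.l 24)) (.l 28)) (.l 30)) (.l 39)) (.l 39))) (.l 37)) (.l 39)) (.l 34)) (.l 39)) (.l 39))) (.l 38)) (.b 15 (.b 13 (.b 11 (.b 9 (.b 7 (.b 6 (.b 4 (.b 3 (.b 2 (.b 1 (.b 0 (.b 35 (.b 34 (.b 37 (.b 30 (.b 28 (.b 24 (.b 31 (.b 19 (.b 21 (.m 0 (.l 38)) (.l 21)) (.l 19)) (.l 31)) (.l 24)) (.l 28)) (.l 30)) (.l 37)) (.l 34)) (.b 25 (.b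 34 (.b 37 (.b 30 (.b 28 (.b 24 (.b 31 (.b 19 (.l 35) (.l 19)) (.l 31)) (.l 24)) (.l 28)) (.l 30)) (.l 37)) (.l 34)) (.b 17 (.b 37 (.b 34 (.b 30 (.b 38 (.m 22 (.b 24 (.b 28 (.b 19 (.l 35) (.l 19)) (.l 28)) (.l 24))) (.l 38)) (.l 30)) (.l 34)) (.l 37)) (.l 35)))) (.l 39)) (.l 39)) (.l 39)) (.l 39)) (.l 39)) (.l 39)) (.l 39)) (.l 39)) (.l 39)) (.l 39)) (.l 39))) (.b 18 (.b 38 (.b 15 (.b 13 (.b 11 (.b 34 (.b 9 (.b 37 (.m 22 (.b 7 (.b 6 (.b 30 (.b 28 (.b 24 (.b 31 (.b 19 (.b 22 (.b 14 (.l 39) (.l 14)) (.l 22)) (.l 19)) (.l 31)) (.l 24)) (.l 28)) (.l 30)) (.l 39)) (.l 39))) (.l 37)) (.l 39)) (.l 34)) (.l 39)) (.l 39)) (.l 39)) (.l 38)) (.l 39))) (.b 20 (.b 18 (.b 15 (.b 13 (.b 11 (.b 9 (.b 7 (.b 6 (.b 4 (.b 3 (.b 2 (.b 1 (.b 0 (.b 35 (.b 34 (.b 37 (.b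 30 (.b 28 (.b 24 (.b 31 (.b 19 (.b 21 (.m 0 (.l 38)) (.l 21)) (.l 19)) (.l 31)) (.l 24)) (.l 28)) (.l 30)) (.l 37)) (.l 34)) (.b 25 (.b 34 (.b 37 (.b 30 (.b 28 (.b 24 (.b 31 (.b 19 (.l 35) (.l 19)) (.l 31)) (.l 24)) (.l 28)) (.l 30)) (.l 37)) (.l 34)) (.b 17 (.b 37 (.b 34 (.b 30 (.b 38 (.m 22 (.b 24 (.b 28 (.b 19 (.l 35) (.l 19)) (.l 28)) (.l 24))) (.l 38)) (.l 30)) (.l 34)) (.l 37)) (.l 35)))) (.l 39)) (.l 39)) (.l 39)) (.l 39)) (.l 39)) (.l 39)) (.l 39)) (.l 39)) (.l 39)) (.l 39)) (.l 39)) (.l 39)) (.l 39)))) (.b 26 (.b 23 (.b 20 (.b 18 (.b 38 (.b 15 (.b 34 (.b 13 (.b 11 (.b 37 (.m 22 (.b 28 (.b 30 (.b 31 (.b 22 (.b 24 (.b 19 (.b 17 (.l 39) (.l 17)) (.l 19)) (.l 24)) (.l 22)) (.l 31)) (.l 30)) (.l 28))) (.l 37)) (.b 9 (.b 37 (.m 22 (.b 7 (.b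 6 (.b 30 (.b 28 (.b 24 (.b 31 (.b 19 (.b 22 (.b 14 (.l 39) (.l 14)) (.l 22)) (.l 19)) (.l 31)) (.l 24)) (.l 28)) (.l 30)) (.l 39)) (.l 39))) (.l 37)) (.l 39))) (.b 11 (.b 9 (.b 37 (.m 22 (.b 28 (.b 30 (.b 31 (.b 22 (.b 24 (.b 19 (.b 17 (.l 39) (.l 17)) (.l 19)) (.l 24)) (.l 22)) (.l 31)) (.l 30)) (.l 28))) (.l 37)) (.l 39)) (.l 39))) (.l 34)) (.b 13 (.b 11 (.b 34 (.b 9 (.b 37 (.m 22 (.b 7 (.b 6 (.b 30 (.b 28 (.b 24 (.b 31 (.b 19 (.b 22 (.b 14 (.l 39) (.l 14)) (.l 22)) (.l 19)) (.l 31)) (.l 24)) (.l 28)) (.l 30)) (.l 39)) (.l 39))) (.l 37)) (.l 39)) (.l 34)) (.l 39)) (.l 39))) (.l 38)) (.b 15 (.b 13 (.b 11 (.b 9 (.b 7 (.b 6 (.b 4 (.b 3 (.b 2 (.b 1 (.b 0 (.b 35 (.b 34 (.b 37 (.b 30 (.b 28 (.b 24 (.b 31 (.b 19 (.b 21 (.m 0 (.l 38)) (.l 21)) (.l 19))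 (.l 31)) (.l 24)) (.l 28)) (.l 30)) (.l 37)) (.l 34)) (.b 25 (.b 34 (.b 37 (.b 30 (.b 28 (.b 24 (.b 31 (.l 35) (.l 31)) (.l 24)) (.l 28)) (.l 30)) (.l 37)) (.l 34)) (.l 35))) (.l 39)) (.l 39)) (.l 39)) (.l 39)) (.l 39)) (.l 39)) (.l 39)) (.l 39)) (.l 39)) (.l 39)) (.l 39))) (.b 18 (.b 38 (.b 15 (.b 13 (.b 11 (.b 34 (.b 9 (.b 37 (.m 22 (.b 7 (.b 6 (.b 30 (.b 28 (.b 24 (.b 31 (.b 19 (.b 22 (.b 14 (.l 39) (.l 14)) (.l 22)) (.l 19)) (.l 31)) (.l 24)) (.l 28)) (.l 30)) (.l 39)) (.l 39))) (.l 37)) (.l 39)) (.l 34)) (.l 39)) (.l 39)) (.l 39)) (.l 38)) (.l 39))) (.b 20 (.b 18 (.b 15 (.b 13 (.b 11 (.b 9 (.b 7 (.b 6 (.b 4 (.b 3 (.b 2 (.b 1 (.b 0 (.b 35 (.b 34 (.b 37 (.b 30 (.b 28 (.b 24 (.b 31 (.b 19 (.b 21 (.m 0 (.l 38)) (.l 21)) (.l 19)) (.l 31)) (.l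 24)) (.l 28)) (.l 30)) (.l 37)) (.l 34)) (.b 25 (.b 34 (.b 37 (.b 30 (.b 28 (.b 24 (.b 31 (.l 35) (.l 31)) (.l 24)) (.l 28)) (.l 30)) (.l 37)) (.l 34)) (.l 35))) (.l 39)) (.l 39)) (.l 39)) (.l 39)) (.l 39)) (.l 39)) (.l 39)) (.l 39)) (.l 39)) (.l 39)) (.l 39)) (.l 39)) (.l 39))) (.b 23 (.b 20 (.b 18 (.b 15 (.b 13 (.b 11 (.b 9 (.b 7 (.b 6 (.b 4 (.b 3 (.b 2 (.b 1 (.b 0 (.b 35 (.b 34 (.b 37 (.b 30 (.b 28 (.b 24 (.b 31 (.b 19 (.b 21 (.m 0 (.l 38)) (.l 21)) (.l 19)) (.l 31)) (.l 24)) (.l 28)) (.l 30)) (.l 37)) (.l 34)) (.b 25 (.b 34 (.b 37 (.b 30 (.b 28 (.b 24 (.b 31 (.b 19 (.l 35) (.l 19)) (.l 31)) (.l 24)) (.l 28)) (.l 30)) (.l 37)) (.l 34)) (.b 17 (.b 37 (.b 34 (.b 30 (.b 38 (.m 22 (.b 24 (.b 28 (.b 19 (.l 35) (.l 19)) (.l 28)) (.l 24))) (.l 38))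 (.l 30)) (.l 34)) (.l 37)) (.l 35)))) (.l 39)) (.l 39)) (.l 39)) (.l 39)) (.l 39)) (.l 39)) (.l 39)) (.l 39)) (.l 39)) (.l 39)) (.l 39)) (.l 39)) (.l 39)) (.l 39)))) (.b 29 (.b 26 (.b 23 (.b 20 (.b 18 (.b 38 (.b 15 (.b 34 (.b 13 (.b 11 (.b 37 (.m 22 (.b 28 (.b 30 (.b 31 (.b 22 (.b 24 (.b 19 (.b 17 (.l 39) (.l 17)) (.l 19)) (.l 24)) (.l 22)) (.l 31)) (.l 30)) (.l 28))) (.l 37)) (.b 9 (.b 37 (.m 22 (.b 7 (.b 6 (.b 30 (.b 28 (.b 24 (.b 31 (.b 19 (.b 22 (.b 14 (.l 39) (.l 14)) (.l 22)) (.l 19)) (.l 31)) (.l 24)) (.l 28)) (.l 30)) (.l 39)) (.l 39))) (.l 37)) (.l 39))) (.b 11 (.b 9 (.b 37 (.m 22 (.b 28 (.b 30 (.b 31 (.b 22 (.b 24 (.b 19 (.b 17 (.l 39) (.l 17)) (.l 19)) (.l 24)) (.l 22)) (.l 31)) (.l 30)) (.l 28))) (.l 37)) (.l 39)) (.l 39))) (.l 34))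 (.b 13 (.b 11 (.b 34 (.b 9 (.b 37 (.m 22 (.b 7 (.b 6 (.b 30 (.b 28 (.b 24 (.b 31 (.b 19 (.b 22 (.b 14 (.l 39) (.l 14)) (.l 22)) (.l 19)) (.l 31)) (.l 24)) (.l 28)) (.l 30)) (.l 39)) (.l 39))) (.l 37)) (.l 39)) (.l 34)) (.l 39)) (.l 39))) (.l 38)) (.b 15 (.b 13 (.b 11 (.b 9 (.b 7 (.b 6 (.b 4 (.b 3 (.b 2 (.b 1 (.b 0 (.b 35 (.b 34 (.b 37 (.b 30 (.b 28 (.b 24 (.b 31 (.b 19 (.b 21 (.m 0 (.l 38)) (.l 21)) (.l 19)) (.l 31)) (.l 24)) (.l 28)) (.l 30)) (.l 37)) (.l 34)) (.b 25 (.b 34 (.b 37 (.b 30 (.b 28 (.b 24 (.b 31 (.b 19 (.l 35) (.l 19)) (.l 31)) (.l 24)) (.l 28)) (.l 30)) (.l 37)) (.l 34)) (.b 17 (.b 37 (.b 34 (.b 30 (.b 38 (.m 22 (.b 24 (.b 28 (.b 19 (.l 35) (.l 19)) (.l 28)) (.l 24))) (.l 38)) (.l 30)) (.l 34)) (.l 37)) (.l 35)))) (.l 39)) (.l 39))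 (.l 39)) (.l 39)) (.l 39)) (.l 39)) (.l 39)) (.l 39)) (.l 39)) (.l 39)) (.l 39))) (.b 18 (.b 38 (.b 15 (.b 13 (.b 11 (.b 34 (.b 9 (.b 37 (.m 22 (.b 7 (.b 6 (.b 30 (.b 28 (.b 24 (.b 31 (.b 19 (.b 22 (.b 14 (.l 39) (.l 14)) (.l 22)) (.l 19)) (.l 31)) (.l 24)) (.l 28)) (.l 30)) (.l 39)) (.l 39))) (.l 37)) (.l 39)) (.l 34)) (.l 39)) (.l 39)) (.l 39)) (.l 38)) (.l 39))) (.b 20 (.b 18 (.b 15 (.b 13 (.b 11 (.b 9 (.b 7 (.b 6 (.b 4 (.b 3 (.b 2 (.b 1 (.b 0 (.b 35 (.b 34 (.b 37 (.b 30 (.b 28 (.b 24 (.b 31 (.b 19 (.b 21 (.m 0 (.l 38)) (.l 21)) (.l 19)) (.l 31)) (.l 24)) (.l 28)) (.l 30)) (.l 37)) (.l 34)) (.b 25 (.b 34 (.b 37 (.b 30 (.b 28 (.b 24 (.b 31 (.b 19 (.l 35) (.l 19)) (.l 31)) (.l 24)) (.l 28)) (.l 30)) (.l 37)) (.l 34)) (.b 17 (.b 37 (.b 34 (.b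 30 (.b 38 (.m 22 (.b 24 (.b 28 (.b 19 (.l 35) (.l 19)) (.l 28)) (.l 24))) (.l 38)) (.l 30)) (.l 34)) (.l 37)) (.l 35)))) (.l 39)) (.l 39)) (.l 39)) (.l 39)) (.l 39)) (.l 39)) (.l 39)) (.l 39)) (.l 39)) (.l 39)) (.l 39)) (.l 39)) (.l 39))) (.b 23 (.b 20 (.b 18 (.b 15 (.b 13 (.b 11 (.b 9 (.b 7 (.b 6 (.b 4 (.b 3 (.b 2 (.b 1 (.b 0 (.b 38 (.b 34 (.b 37 (.m 22 (.b 30 (.b 28 (.b 24 (.b 31 (.b 19 (.b 21 (.m 0 (.l 35)) (.l 21)) (.l 19)) (.l 31)) (.l 24)) (.l 28)) (.l 30))) (.l 37)) (.l 34)) (.b 31 (.b 34 (.l 38) (.l 34)) (.b 28 (.b 37 (.l 38) (.l 37)) (.b 25 (.b 34 (.l 38) (.l 34)) (.l 38))))) (.l 39)) (.l 39)) (.l 39)) (.l 39)) (.l 39)) (.l 39)) (.l 39)) (.l 39)) (.l 39)) (.l 39)) (.l 39)) (.l 39)) (.l 39)) (.l 39))) (.b 26 (.b 23 (.b 20 (.b 18 (.b 15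 (.b 13 (.b 11 (.b 9 (.b 7 (.b 6 (.b 4 (.b 3 (.b 2 (.b 1 (.b 0 (.b 35 (.b 34 (.b 37 (.b 30 (.b 28 (.b 24 (.b 31 (.b 19 (.b 21 (.m 0 (.l 38)) (.l 21)) (.l 19)) (.l 31)) (.l 24)) (.l 28)) (.l 30)) (.l 37)) (.l 34)) (.b 25 (.b 34 (.b 37 (.b 30 (.b 28 (.b 24 (.b 31 (.b 19 (.l 35) (.l 19)) (.l 31)) (.l 24)) (.l 28)) (.l 30)) (.l 37)) (.l 34)) (.b 17 (.b 37 (.b 34 (.b 30 (.b 38 (.m 22 (.b 24 (.b 28 (.b 19 (.l 35) (.l 19)) (.l 28)) (.l 24))) (.l 38)) (.l 30)) (.l 34)) (.l 37)) (.l 35)))) (.l 39)) (.l 39)) (.l 39)) (.l 39)) (.l 39)) (.l 39)) (.l 39)) (.l 39)) (.l 39)) (.l 39)) (.l 39)) (.l 39)) (.l 39)) (.l 39)) (.l 39)))))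

private lemma k25 : chk dm3 (PLf PL3 25) 40 24 c25 0 0 = true := by decide +kernel

/-- the certificates for the levels 1 to 25 -/
theorem certs3A : ∀ j, 1 ≤ j → j ≤ 25 →
    ∃ c, chk dm3 (PLf PL3 j) (PL3.getD j 100) (j - 1) c 0 0 = true := by
  intro j h1 h2
  interval_cases j
  · exact ⟨c1, k1⟩
  · exact ⟨c2, k2⟩
  · exact ⟨c3, k3⟩
  · exact ⟨c4, k4⟩
  · exact ⟨c5, k5⟩
  · exact ⟨c6, k6⟩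
  · exact ⟨c7, k7⟩
  · exact ⟨c8, k8⟩
  · exact ⟨c9, k9⟩
  · exact ⟨c10, k10⟩
  · exact ⟨c11, k11⟩
  · exact ⟨c12, k12⟩
  · exact ⟨c13, k13⟩
  · exact ⟨c14, k14⟩
  · exact ⟨c15, k15⟩
  · exact ⟨c16, k16⟩
  · exact ⟨c17, k17⟩
  · exact ⟨c18, k18⟩
  · exact ⟨c19, k19⟩
  · exact ⟨c20, k20⟩
  · exact ⟨c21, k21⟩
  · exact ⟨c22, k22⟩
  · exact ⟨c23, k23⟩
  · exact ⟨c24, k24⟩
  · exact ⟨c25, k25⟩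

end Pool.Agent.Lib.MP_573265_nt.H31
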