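import Pool.Agent.Lib.MP_573265_nt.H31DataA

/-! Certificates: 3-smooth numbers, levels 26 to 28 (helper31, MP_573265_nt, k = 3). -/

namespace Pool.Agent.Lib.MP_573265_nt.H31

set_option maxRecDepth 100000

private def c26 : Cert := (.m 25 (.b 33 (.b 27 (.b 21 (.b 16 (.b 12 (.b 8 (.b 5 (.b 3 (.b 39 (.b 38 (.b 37 (.m 22 (.b 35 (.m 20 (.b 31 (.l 34) (.l 31))) (.l 35))) (.b 30 (.b 35 (.b 31 (.b 34 (.m 20 (.b 24 (.b 25 (.b 28 (.b 22 (.b 20 (.b 17 (.l 37) (.l 17)) (.l 20)) (.l 22)) (.l 28)) (.l 25)) (.b 19 (.b 25 (.b 28 (.b 22 (.b 20 (.b 17 (.l 37) (.l 17)) (.l 20)) (.l 22)) (.l 28)) (.l 25)) (.b 14 (.b 25 (.b 28 (.b 29 (.m 14 (.l 32)) (.l 29)) (.l 28)) (.l 25)) (.l 37))))) (.l 34)) (.l 31)) (.l 35)) (.b 24 (.b 35 (.b 31 (.b 19 (.b 14 (.b 25 (.b 29 (.b 28 (.b 20 (.b 17 (.b 22 (.l 37) (.l 22)) (.l 17)) (.l 20)) (.l 28)) (.l 29)) (.l 25)) (.b 10 (.b 29 (.b 25 (.b 28 (.b 20 (.b 22 (.b 17 (.l 37) (.l 17)) (.l 22)) (.l 20)) (.l 28)) (.l 25)) (.l 29)) (.l 37))) (.b 14 (.b 10 (.b 29 (.b 25 (.b 28 (.b 20 (.b 22 (.b 17 (.l 37) (.l 17)) (.l 22)) (.l 20)) (.l 28)) (.l 25)) (.l 29)) (.l 37)) (.l 37))) (.l 31)) (.l 35)) (.b 19 (.b 35 (.b 31 (.b 14 (.b 10 (.b 29 (.b 25 (.b 32 (.b 20 (.b 22 (.b 17 (.l 37) (.l 17)) (.l 22)) (.l 20)) (.l 32)) (.l 25)) (.l 29)) (.l 37)) (.l 37)) (.l 31)) (.l 35)) (.l 37))))) (.l 38)) (.b 32 (.b 38 (.b 29 (.b 26 (.b 31 (.b 34 (.b 35 (.l 39) (.l 35)) (.l 34)) (.l 31)) (.b 23 (.b 31 (.b 34 (.b 35 (.l 39) (.l 35)) (.l 34)) (.l 31)) (.b 20 (.b 18 (.b 31 (.b 34 (.b 28 (.l 39) (.l 28)) (.l 34)) (.l 31)) (.l 39)) (.l 39)))) (.b 26 (.b 35 (.b 31 (.b 34 (.l 39) (.l 34)) (.l 31)) (.l 35)) (.b 23 (.b 20 (.b 18 (.b 31 (.b 34 (.b 28 (.l 39) (.l 28)) (.l 34)) (.l 31)) (.l 39)) (.l 39)) (.l 39)))) (.l 38)) (.b 29 (.b 38 (.b 26 (.b 23 (.b 31 (.b 34 (.b 35 (.l 39) (.l 35)) (.l 34)) (.l 31)) (.b 20 (.b 18 (.b 31 (.b 34 (.b 28 (.l 39) (.l 28)) (.l 34)) (.l 31)) (.l 39)) (.l 39))) (.b 23 (.b 20 (.b 18 (.b 31 (.b 34 (.b 28 (.l 39) (.l 28)) (.l 34)) (.l 31)) (.l 39)) (.l 39)) (.l 39))) (.l 38)) (.b 26 (.b 38 (.b 23 (.b 20 (.b 18 (.b 31 (.b 34 (.b 28 (.l 39) (.l 28)) (.l 34)) (.l 31)) (.l 39)) (.l 39)) (.l 39)) (.l 38)) (.l 39))))) (.b 1 (.b 39 (.b 38 (.b 37 (.m 22 (.b 35 (.m 20 (.b 31 (.l 34) (.l 31))) (.l 35))) (.b 30 (.b 35 (.b 31 (.b 34 (.m 20 (.b 24 (.b 25 (.b 28 (.b 22 (.b 20 (.b 17 (.l 37) (.l 17)) (.l 20)) (.l 22)) (.l 28)) (.l 25)) (.b 19 (.b 25 (.b 28 (.b 22 (.b 20 (.b 17 (.l 37) (.l 17)) (.l 20)) (.l 22)) (.l 28)) (.l 25)) (.l 37)))) (.l 34)) (.l 31)) (.l 35)) (.b 24 (.b 35 (.b 31 (.b 19 (.b 14 (.b 25 (.b 29 (.b 28 (.b 20 (.b 17 (.b 22 (.l 37) (.l 22)) (.l 17)) (.l 20)) (.l 28)) (.l 29)) (.l 25)) (.l 37)) (.l 37)) (.l 31)) (.l 35)) (.l 37)))) (.l 38)) (.b 32 (.b 38 (.b 29 (.b 26 (.b 31 (.b 34 (.b 35 (.l 39) (.l 35)) (.l 34)) (.l 31)) (.b 23 (.b 31 (.b 34 (.b 35 (.l 39) (.l 35)) (.l 34)) (.l 31)) (.l 39))) (.b 26 (.b 35 (.b 31 (.b 34 (.l 39) (.l 34)) (.l 31)) (.l 35)) (.l 39))) (.l 38)) (.b 29 (.b 38 (.b 26 (.b 23 (.b 31 (.b 34 (.b 35 (.l 39) (.l 35)) (.l 34)) (.l 31)) (.l 39)) (.l 39)) (.l 38)) (.l 39)))) (.b 0 (.b 39 (.b 38 (.b 37 (.m 22 (.b 35 (.m 20 (.b 31 (.l 34) (.l 31))) (.l 35))) (.b 30 (.b 35 (.b 31 (.b 34 (.m 20 (.b 24 (.b 25 (.b 28 (.b 22 (.b 20 (.b 17 (.l 37) (.l 17)) (.l 20)) (.l 22)) (.l 28)) (.l 25)) (.l 37))) (.l 34)) (.l 31)) (.l 35)) (.l 37))) (.l 38)) (.b 32 (.b 38 (.b 29 (.b 26 (.b 31 (.b 34 (.b 35 (.l 39) (.l 35)) (.l 34)) (.l 31)) (.l 39)) (.l 39)) (.l 38)) (.l 39))) (.l 40)))) (.b 3 (.b 1 (.b 38 (.b 37 (.b 35 (.b 34 (.m 20 (.b 31 (.l 39) (.l 31))) (.b 28 (.b 31 (.b 39 (.m 20 (.l 34)) (.l 39)) (.l 31)) (.b 24 (.b 31 (.b 39 (.m 20 (.l 34)) (.l 39)) (.l 31)) (.l 34)))) (.b 29 (.b 25 (.b 23 (.b 31 (.l 35) (.l 31)) (.b 20 (.b 34 (.l 35) (.l 34)) (.l 35))) (.b 23 (.b 31 (.l 35) (.l 31)) (.l 35))) (.b 25 (.b 23 (.b 20 (.b 34 (.l 35) (.l 34)) (.l 35)) (.l 35)) (.l 35)))) (.b 30 (.b 24 (.b 35 (.b 31 (.b 39 (.b 34 (.m 20 (.b 25 (.b 28 (.b 22 (.b 29 (.m 11 (.l 32)) (.l 29)) (.l 22)) (.l 28)) (.l 25))) (.l 34)) (.l 39)) (.l 31)) (.l 35)) (.b 19 (.b 35 (.b 31 (.b 39 (.b 34 (.m 20 (.b 25 (.b 28 (.b 22 (.b 29 (.m 14 (.l 32)) (.l 29)) (.l 22)) (.l 28)) (.l 25))) (.l 34)) (.l 39)) (.l 31)) (.l 35)) (.l 37))) (.b 24 (.b 19 (.b 35 (.b 31 (.b 39 (.b 14 (.b 25 (.b 29 (.b 28 (.b 22 (.b 17 (.b 20 (.l 37) (.l 20)) (.l 17)) (.l 22)) (.l 28)) (.l 29)) (.l 25)) (.l 37)) (.l 39)) (.l 31)) (.l 35)) (.l 37)) (.l 37)))) (.b 31 (.b 28 (.b 25 (.b 22 (.b 35 (.l 38) (.l 35)) (.b 20 (.b 19 (.b 35 (.l 38) (.l 35)) (.l 38)) (.l 38))) (.b 22 (.b 35 (.l 38) (.l 35)) (.l 38))) (.b 25 (.b 22 (.b 20 (.b 19 (.b 35 (.l 38) (.l 35)) (.l 38)) (.l 38)) (.l 38)) (.l 38))) (.b 28 (.b 25 (.b 22 (.b 20 (.b 19 (.b 35 (.l 38) (.l 35)) (.l 38)) (.l 38)) (.l 38)) (.l 38)) (.l 38)))) (.b 0 (.b 38 (.b 37 (.b 35 (.b 34 (.m 20 (.b 31 (.l 39) (.l 31))) (.b 28 (.b 31 (.b 39 (.m 20 (.l 34)) (.l 39)) (.l 31)) (.l 34))) (.b 29 (.b 25 (.b 23 (.b 31 (.l 35) (.l 31)) (.l 35)) (.l 35)) (.l 35))) (.b 30 (.b 24 (.b 35 (.b 31 (.b 39 (.b 34 (.m 20 (.b 25 (.b 28 (.b 22 (.b 29 (.m 11 (.l 32)) (.l 29)) (.l 22)) (.l 28)) (.l 25))) (.l 34)) (.l 39)) (.l 31)) (.l 35)) (.l 37)) (.l 37))) (.b 31 (.b 28 (.b 25 (.b 22 (.b 35 (.l 38) (.l 35)) (.l 38)) (.l 38)) (.l 38)) (.l 38))) (.l 40))) (.b 1 (.b 0 (.b 38 (.b 37 (.b 35 (.b 34 (.m 20 (.b 31 (.l 39) (.l 31))) (.b 28 (.b 31 (.b 39 (.m 20 (.l 34)) (.l 39)) (.l 31)) (.l 34))) (.b 29 (.b 25 (.b 23 (.b 31 (.l 35) (.l 31)) (.l 35)) (.l 35)) (.l 35))) (.b 30 (.b 24 (.b 35 (.b 31 (.b 39 (.b 34 (.m 20 (.b 25 (.b 28 (.b 22 (.b 29 (.m 11 (.l 32)) (.l 29)) (.l 22)) (.l 28)) (.l 25))) (.l 34)) (.l 39)) (.l 31)) (.l 35)) (.l 37)) (.l 37))) (.b 31 (.b 28 (.b 25 (.b 22 (.b 35 (.l 38) (.l 35)) (.l 38)) (.l 38)) (.l 38)) (.l 38))) (.l 40)) (.l 40)))) (.b 5 (.b 3 (.b 1 (.b 38 (.b 37 (.b 34 (.b 31 (.b 35 (.m 20 (.l 39)) (.l 35)) (.b 25 (.b 22 (.b 35 (.m 20 (.l 39)) (.l 35)) (.b 20 (.b 17 (.b 39 (.m 20 (.l 35)) (.l 39)) (.l 31)) (.l 31))) (.b 22 (.b 35 (.m 20 (.l 39)) (.l 35)) (.l 31)))) (.b 28 (.b 24 (.b 31 (.b 35 (.b 39 (.m 20 (.l 34)) (.l 39)) (.l 35)) (.l 31)) (.b 22 (.b 35 (.b 31 (.b 39 (.m 20 (.l 34)) (.l 39)) (.l 31)) (.l 35)) (.l 34))) (.b 24 (.b 22 (.b 35 (.b 31 (.b 39 (.m 20 (.l 34)) (.l 39)) (.l 31)) (.l 35)) (.l 34)) (.l 34)))) (.b 30 (.b 24 (.b 19 (.b 31 (.b 35 (.b 39 (.b 34 (.m 20 (.b 25 (.b 22 (.b 28 (.b 20 (.b 17 (.l 37) (.l 17)) (.l 20)) (.l 28)) (.l 22)) (.l 25))) (.l 34)) (.l 39)) (.l 35)) (.l 31)) (.b 14 (.b 35 (.b 31 (.b 39 (.b 34 (.m 20 (.b 25 (.b 28 (.b 22 (.b 20 (.b 17 (.l 37) (.l 17)) (.l 20)) (.l 22)) (.l 28)) (.l 25))) (.l 34)) (.l 39)) (.l 31)) (.l 35)) (.l 37))) (.b 19 (.b 14 (.b 35 (.b 31 (.b 39 (.b 34 (.m 20 (.b 25 (.b 28 (.b 22 (.b 20 (.b 17 (.l 37) (.l 17)) (.l 20)) (.l 22)) (.l 28)) (.l 25))) (.l 34)) (.l 39)) (.l 31)) (.l 35)) (.l 37)) (.l 37))) (.b 24 (.b 19 (.b 14 (.b 35 (.b 31 (.b 39 (.b 10 (.b 29 (.b 25 (.b 28 (.b 20 (.b 22 (.b 17 (.l 37) (.l 17)) (.l 22)) (.l 20)) (.l 28)) (.l 25)) (.l 29)) (.l 37)) (.l 39)) (.l 31)) (.l 35)) (.l 37)) (.l 37)) (.l 37)))) (.b 31 (.b 28 (.b 25 (.b 22 (.b 20 (.b 19 (.b 35 (.l 38) (.l 35)) (.b 17 (.b 39 (.l 38) (.l 39)) (.l 38))) (.b 19 (.b 35 (.l 38) (.l 35)) (.l 38))) (.b 20 (.b 19 (.b 17 (.b 39 (.l 38) (.l 39)) (.l 38)) (.l 38)) (.l 38))) (.b 22 (.b 20 (.b 19 (.b 35 (.l 38) (.l 35)) (.l 38)) (.l 38)) (.l 38))) (.b 25 (.b 22 (.b 20 (.b 19 (.b 17 (.b 39 (.l 38) (.l 39)) (.l 38)) (.l 38)) (.l 38)) (.l 38)) (.l 38))) (.b 28 (.b 25 (.b 22 (.b 20 (.b 19 (.b 17 (.b 39 (.l 38) (.l 39)) (.l 38)) (.l 38)) (.l 38)) (.l 38)) (.l 38)) (.l 38)))) (.b 0 (.b 38 (.b 37 (.b 34 (.b 31 (.b 35 (.m 20 (.l 39)) (.l 35)) (.b 25 (.b 22 (.b 35 (.m 20 (.l 39)) (.l 35)) (.l 31)) (.l 31))) (.b 28 (.b 24 (.b 31 (.b 35 (.b 39 (.m 20 (.l 34)) (.l 39)) (.l 35)) (.l 31)) (.l 34)) (.l 34))) (.b 30 (.b 24 (.b 19 (.b 31 (.b 35 (.b 39 (.b 34 (.m 20 (.b 25 (.b 22 (.b 28 (.b 20 (.b 17 (.l 37) (.l 17)) (.l 20)) (.l 28)) (.l 22)) (.l 25))) (.l 34)) (.l 39)) (.l 35)) (.l 31)) (.l 37)) (.l 37)) (.l 37))) (.b 31 (.b 28 (.b 25 (.b 22 (.b 20 (.b 19 (.b 35 (.l 38) (.l 35)) (.l 38)) (.l 38)) (.l 38)) (.l 38)) (.l 38)) (.l 38))) (.l 40))) (.b 1 (.b 0 (.b 38 (.b 37 (.b 34 (.b 31 (.b 35 (.m 20 (.l 39)) (.l 35)) (.b 25 (.b 22 (.b 35 (.m 20 (.l 39)) (.l 35)) (.l 31)) (.l 31))) (.b 28 (.b 24 (.b 31 (.b 35 (.b 39 (.m 20 (.l 34)) (.l 39)) (.l 35)) (.l 31)) (.l 34)) (.l 34))) (.b 30 (.b 24 (.b 19 (.b 31 (.b 35 (.b 39 (.b 34 (.m 20 (.b 25 (.b 22 (.b 28 (.b 20 (.b 17 (.l 37) (.l 17)) (.l 20)) (.l 28)) (.l 22)) (.l 25))) (.l 34)) (.l 39)) (.l 35)) (.l 31)) (.l 37)) (.l 37)) (.l 37))) (.b 31 (.b 28 (.b 25 (.b 22 (.b 20 (.b 19 (.b 35 (.l 38) (.l 35)) (.l 38)) (.l 38)) (.l 38)) (.l 38)) (.l 38)) (.l 38))) (.l 40)) (.l 40))) (.b 3 (.b 1 (.b 0 (.b 38 (.b 37 (.b 34 (.b 31 (.b 35 (.m 20 (.b 30 (.l 39) (.b 24 (.l 39) (.l 30)))) (.l 35)) (.b 25 (.b 22 (.b 35 (.m 20 (.l 39)) (.l 35)) (.l 31)) (.l 31))) (.b 28 (.b 24 (.b 31 (.b 35 (.b 39 (.m 20 (.l 34)) (.l 39)) (.l 35)) (.l 31)) (.l 34)) (.l 34))) (.b 30 (.b 24 (.b 19 (.b 31 (.b 35 (.b 39 (.b 34 (.m 20 (.b 25 (.b 22 (.b 28 (.b 29 (.m 11 (.l 32)) (.l 29)) (.l 28)) (.l 22)) (.l 25))) (.l 34)) (.l 39)) (.l 35)) (.l 31)) (.l 37)) (.l 37)) (.l 37))) (.b 31 (.b 28 (.b 25 (.b 22 (.b 20 (.b 19 (.b 35 (.l 38) (.l 35)) (.l 38)) (.l 38)) (.l 38)) (.l 38)) (.l 38)) (.l 38))) (.l 40)) (.l 40)) (.l 40)))) (.b 8 (.b 5 (.b 3 (.b 1 (.b 38 (.b 37 (.b 34 (.b 30 (.b 35 (.m 20 (.l 39)) (.l 35)) (.b 24 (.b 35 (.m 20 (.l 39)) (.l 35)) (.b 19 (.b 35 (.m 20 (.l 39)) (.l 35)) (.l 30)))) (.b 28 (.b 24 (.b 35 (.b 31 (.b 39 (.m 20 (.l 34)) (.l 39)) (.l 31)) (.l 35)) (.b 22 (.b 35 (.b 39 (.m 20 (.b 31 (.l 34) (.l 31))) (.l 39)) (.l 35)) (.l 34))) (.b 24 (.b 22 (.b 35 (.b 39 (.m 20 (.b 31 (.l 34) (.l 31))) (.l 39)) (.l 35)) (.l 34)) (.l 34)))) (.b 30 (.b 24 (.b 19 (.b 35 (.b 31 (.b 39 (.b 34 (.m 20 (.b 25 (.b 28 (.b 22 (.b 20 (.b 17 (.l 37) (.l 17)) (.l 20)) (.l 22)) (.l 28)) (.l 25))) (.l 34)) (.l 39)) (.l 31)) (.l 35)) (.b 14 (.b 35 (.b 39 (.b 31 (.b 34 (.m 20 (.b 25 (.b 28 (.b 29 (.m 13 (.l 32)) (.l 29)) (.l 28)) (.l 25))) (.l 34)) (.l 31)) (.l 39)) (.l 35)) (.l 37))) (.b 19 (.b 14 (.b 35 (.b 39 (.b 31 (.b 34 (.m 20 (.b 25 (.b 28 (.b 29 (.m 14 (.l 32)) (.l 29)) (.l 28)) (.l 25))) (.l 34)) (.l 31)) (.l 39)) (.l 35)) (.l 37)) (.l 37))) (.b 24 (.b 19 (.b 14 (.b 35 (.b 39 (.b 31 (.b 10 (.b 29 (.b 25 (.b 28 (.b 20 (.b 22 (.b 17 (.l 37) (.l 17)) (.l 22)) (.l 20)) (.l 28)) (.l 25)) (.l 29)) (.l 37)) (.l 31)) (.l 39)) (.l 35)) (.l 37)) (.l 37)) (.l 37)))) (.b 31 (.b 28 (.b 25 (.b 22 (.b 20 (.b 19 (.b 35 (.l 38) (.l 35)) (.b 17 (.b 39 (.l 38) (.l 39)) (.l 38))) (.b 19 (.b 35 (.l 38) (.l 35)) (.l 38))) (.b 20 (.b 19 (.b 17 (.b 39 (.l 38) (.l 39)) (.l 38)) (.l 38)) (.l 38))) (.b 22 (.b 20 (.b 19 (.b 35 (.l 38) (.l 35)) (.l 38)) (.l 38)) (.l 38))) (.b 25 (.b 22 (.b 20 (.b 19 (.b 17 (.b 39 (.l 38) (.l 39)) (.l 38)) (.l 38)) (.l 38)) (.l 38)) (.l 38))) (.b 28 (.b 25 (.b 22 (.b 20 (.b 19 (.b 17 (.b 39 (.l 38) (.l 39)) (.l 38)) (.l 38)) (.l 38)) (.l 38)) (.l 38)) (.l 38)))) (.b 0 (.b 38 (.b 37 (.b 34 (.b 30 (.b 35 (.m 20 (.l 39)) (.l 35)) (.b 24 (.b 35 (.m 20 (.l 39)) (.l 35)) (.l 30))) (.b 28 (.b 24 (.b 35 (.b 31 (.b 39 (.m 20 (.l 34)) (.l 39)) (.l 31)) (.l 35)) (.l 34)) (.l 34))) (.b 30 (.b 24 (.b 19 (.b 35 (.b 31 (.b 39 (.b 34 (.m 20 (.b 25 (.b 28 (.b 22 (.b 20 (.b 17 (.l 37) (.l 17)) (.l 20)) (.l 22)) (.l 28)) (.l 25))) (.l 34)) (.l 39)) (.l 31)) (.l 35)) (.l 37)) (.l 37)) (.l 37))) (.b 31 (.b 28 (.b 25 (.b 22 (.b 20 (.b 19 (.b 35 (.l 38) (.l 35)) (.l 38)) (.l 38)) (.l 38)) (.l 38)) (.l 38)) (.l 38))) (.l 40))) (.b 1 (.b 0 (.b 38 (.b 37 (.b 34 (.b 30 (.b 35 (.m 20 (.l 39)) (.l 35)) (.b 24 (.b 35 (.m 20 (.l 39)) (.l 35)) (.l 30))) (.b 28 (.b 24 (.b 35 (.b 31 (.b 39 (.m 20 (.l 34)) (.l 39)) (.l 31)) (.l 35)) (.l 34)) (.l 34))) (.b 30 (.b 24 (.b 19 (.b 35 (.b 31 (.b 39 (.b 34 (.m 20 (.b 25 (.b 28 (.b 22 (.b 20 (.b 17 (.l 37) (.l 17)) (.l 20)) (.l 22)) (.l 28)) (.l 25))) (.l 34)) (.l 39)) (.l 31)) (.l 35)) (.l 37)) (.l 37)) (.l 37))) (.b 31 (.b 28 (.b 25 (.b 22 (.b 20 (.b 19 (.b 35 (.l 38) (.l 35)) (.l 38)) (.l 38)) (.l 38)) (.l 38)) (.l 38)) (.l 38))) (.l 40)) (.l 40))) (.b 3 (.b 1 (.b 0 (.b 38 (.b 37 (.b 34 (.b 30 (.b 35 (.m 20 (.b 31 (.l 39) (.l 31))) (.l 35)) (.b 24 (.b 35 (.m 20 (.b 31 (.l 39) (.l 31))) (.l 35)) (.l 30))) (.b 28 (.b 24 (.b 35 (.b 31 (.b 39 (.m 20 (.l 34)) (.l 39)) (.l 31)) (.l 35)) (.l 34)) (.l 34))) (.b 30 (.b 24 (.b 19 (.b 35 (.b 31 (.b 39 (.b 34 (.m 20 (.b 25 (.b 28 (.b 22 (.b 29 (.m 11 (.l 32)) (.l 29)) (.l 22)) (.l 28)) (.l 25))) (.l 34)) (.l 39)) (.l 31)) (.l 35)) (.l 37)) (.l 37)) (.l 37))) (.b 31 (.b 28 (.b 25 (.b 22 (.b 20 (.b 19 (.b 35 (.l 38) (.l 35)) (.l 38)) (.l 38)) (.l 38)) (.l 38)) (.l 38)) (.l 38))) (.l 40)) (.l 40)) (.l 40))) (.b 5 (.b 3 (.b 1 (.b 0 (.b 38 (.b 37 (.b 34 (.b 30 (.b 28 (.b 31 (.b 35 (.m 20 (.l 39)) (.l 35)) (.l 31)) (.b 22 (.b 35 (.m 20 (.l 39)) (.l 35)) (.l 28))) (.b 24 (.b 19 (.b 31 (.b 35 (.m 20 (.l 39)) (.l 35)) (.l 31)) (.l 30)) (.l 30))) (.b 28 (.b 24 (.b 22 (.b 35 (.b 31 (.b 39 (.m 20 (.l 34)) (.l 39)) (.l 31)) (.l 35)) (.l 34)) (.l 34)) (.l 34))) (.b 30 (.b 24 (.b 19 (.b 14 (.b 35 (.b 31 (.b 39 (.b 34 (.m 20 (.b 25 (.b 28 (.b 22 (.b 20 (.b 17 (.l 37) (.l 17)) (.l 20)) (.l 22)) (.l 28)) (.l 25))) (.l 34)) (.l 39)) (.l 31)) (.l 35)) (.l 37)) (.l 37)) (.l 37)) (.l 37))) (.b 31 (.b 28 (.b 25 (.b 22 (.b 20 (.b 19 (.b 17 (.b 39 (.l 38) (.l 39)) (.l 38)) (.l 38)) (.l 38)) (.l 38)) (.l 38)) (.l 38)) (.l 38))) (.l 40)) (.l 40)) (.l 40)) (.l 40)))) (.b 12 (.b 8 (.b 5 (.b 3 (.b 1 (.b 37 (.b 34 (.b 38 (.b 30 (.b 35 (.m 20 (.l 39)) (.l 35)) (.b 24 (.b 35 (.m 20 (.l 39)) (.l 35)) (.b 19 (.b 35 (.m 20 (.l 39)) (.l 35)) (.l 30)))) (.l 38)) (.b 28 (.b 24 (.b 38 (.b 35 (.b 31 (.b 39 (.m 20 (.l 34)) (.l 39)) (.l 31)) (.l 35)) (.l 38)) (.b 22 (.b 19 (.b 35 (.b 38 (.b 31 (.b 39 (.m 20 (.l 34)) (.l 39)) (.l 31)) (.l 38)) (.l 35)) (.l 34)) (.l 34))) (.b 24 (.b 38 (.b 22 (.b 35 (.b 39 (.m 20 (.b 31 (.l 34) (.l 31))) (.l 39)) (.l 35)) (.l 34)) (.l 38)) (.l 34)))) (.b 30 (.b 24 (.b 38 (.b 19 (.b 35 (.b 31 (.b 39 (.b 34 (.m 20 (.b 25 (.b 28 (.b 22 (.b 20 (.b 17 (.l 37) (.l 17)) (.l 20)) (.l 22)) (.l 28)) (.l 25))) (.l 34)) (.l 39)) (.l 31)) (.l 35)) (.b 14 (.b 35 (.b 39 (.b 31 (.b 34 (.m 20 (.b 25 (.b 28 (.b 29 (.m 13 (.l 32)) (.l 29)) (.l 28)) (.l 25))) (.l 34)) (.l 31)) (.l 39)) (.l 35)) (.l 37))) (.l 38)) (.b 19 (.b 14 (.b 10 (.b 7 (.b 4 (.b 2 (.b 0 (.b 34 (.b 35 (.b 38 (.b 31 (.b 29 (.b 25 (.b 32 (.b 20 (.b 22 (.m 0 (.l 39)) (.l 22)) (.l 20)) (.l 32)) (.l 25)) (.l 29)) (.l 31)) (.l 38)) (.l 35)) (.b 28 (.b 35 (.b 38 (.b 31 (.b 29 (.l 34) (.l 29)) (.l 31)) (.l 38)) (.l 35)) (.l 34))) (.l 37)) (.l 37)) (.l 37)) (.l 37)) (.l 37)) (.l 37)) (.l 37))) (.b 24 (.b 19 (.b 14 (.b 10 (.b 7 (.b 4 (.b 2 (.b 0 (.b 34 (.b 35 (.b 38 (.b 31 (.b 29 (.b 25 (.b 32 (.b 20 (.b 22 (.m 0 (.l 39)) (.l 22)) (.l 20)) (.l 32)) (.l 25)) (.l 29)) (.l 31)) (.l 38)) (.l 35)) (.b 28 (.b 35 (.b 38 (.b 31 (.b 29 (.b 25 (.l 34) (.l 25)) (.l 29)) (.l 31)) (.l 38)) (.l 35)) (.b 22 (.b 35 (.b 38 (.b 39 (.b 29 (.b 25 (.l 34) (.l 25)) (.l 29)) (.l 39)) (.l 38)) (.l 35)) (.l 34)))) (.l 37)) (.l 37)) (.l 37)) (.l 37)) (.l 37)) (.l 37)) (.l 37)) (.l 37)))) (.b 0 (.b 37 (.b 34 (.b 38 (.b 30 (.b 35 (.m 20 (.l 39)) (.l 35)) (.b 24 (.b 35 (.m 20 (.l 39)) (.l 35)) (.l 30))) (.l 38)) (.b 28 (.b 24 (.b 38 (.b 35 (.b 31 (.b 39 (.m 20 (.l 34)) (.l 39)) (.l 31)) (.l 35)) (.l 38)) (.l 34)) (.l 34))) (.b 30 (.b 24 (.b 38 (.b 19 (.b 35 (.b 31 (.b 39 (.b 34 (.m 20 (.b 25 (.b 28 (.b 22 (.b 20 (.b 17 (.l 37) (.l 17)) (.l 20)) (.l 22)) (.l 28)) (.l 25))) (.l 34)) (.l 39)) (.l 31)) (.l 35)) (.l 37)) (.l 38)) (.l 37)) (.l 37))) (.l 40))) (.b 1 (.b 0 (.b 37 (.b 34 (.b 38 (.b 30 (.b 35 (.m 20 (.l 39)) (.l 35)) (.b 24 (.b 35 (.m 20 (.l 39)) (.l 35)) (.l 30))) (.l 38)) (.b 28 (.b 24 (.b 38 (.b 35 (.b 31 (.b 39 (.m 20 (.l 34)) (.l 39)) (.l 31)) (.l 35)) (.l 38)) (.l 34)) (.l 34))) (.b 30 (.b 24 (.b 38 (.b 19 (.b 35 (.b 31 (.b 39 (.b 34 (.m 20 (.b 25 (.b 28 (.b 22 (.b 20 (.b 17 (.l 37) (.l 17)) (.l 20)) (.l 22)) (.l 28)) (.l 25))) (.l 34)) (.l 39)) (.l 31)) (.l 35)) (.l 37)) (.l 38)) (.l 37)) (.l 37))) (.l 40)) (.l 40))) (.b 3 (.b 1 (.b 0 (.b 37 (.b 34 (.b 38 (.b 30 (.b 35 (.m 20 (.b 31 (.l 39) (.l 31))) (.l 35)) (.b 24 (.b 35 (.m 20 (.b 31 (.l 39) (.l 31))) (.l 35)) (.l 30))) (.l 38)) (.b 28 (.b 24 (.b 38 (.b 35 (.b 31 (.b 39 (.m 20 (.l 34)) (.l 39)) (.l 31)) (.l 35)) (.l 38)) (.l 34)) (.l 34))) (.b 30 (.b 24 (.b 38 (.b 19 (.b 35 (.b 31 (.b 39 (.b 34 (.m 20 (.b 25 (.b 28 (.b 22 (.b 29 (.m 11 (.l 32)) (.l 29)) (.l 22)) (.l 28)) (.l 25))) (.l 34)) (.l 39)) (.l 31)) (.l 35)) (.l 37)) (.l 38)) (.l 37)) (.l 37))) (.l 40)) (.l 40)) (.l 40))) (.b 5 (.b 3 (.b 1 (.b 0 (.b 37 (.b 34 (.b 38 (.b 30 (.b 24 (.b 31 (.b 35 (.m 20 (.l 39)) (.l 35)) (.l 31)) (.b 19 (.b 31 (.b 35 (.m 20 (.l 39)) (.l 35)) (.l 31)) (.l 24))) (.b 24 (.b 19 (.b 31 (.b 35 (.m 20 (.l 39)) (.l 35)) (.l 31)) (.l 30)) (.l 30))) (.l 38)) (.b 28 (.b 24 (.b 38 (.b 22 (.b 35 (.b 31 (.b 39 (.m 20 (.l 34)) (.l 39)) (.l 31)) (.l 35)) (.l 34)) (.l 38)) (.l 34)) (.l 34))) (.b 30 (.b 24 (.b 38 (.b 19 (.b 14 (.b 35 (.b 31 (.b 39 (.b 34 (.m 20 (.b 25 (.b 28 (.b 22 (.b 20 (.b 17 (.l 37) (.l 17)) (.l 20)) (.l 22)) (.l 28)) (.l 25))) (.l 34)) (.l 39)) (.l 31)) (.l 35)) (.l 37)) (.l 37)) (.l 38)) (.l 37)) (.l 37))) (.l 40)) (.l 40)) (.l 40)) (.l 40))) (.b 8 (.b 5 (.b 3 (.b 1 (.b 0 (.b 37 (.b 34 (.b 38 (.b 30 (.b 24 (.b 35 (.m 20 (.l 39)) (.l 35)) (.b 19 (.b 35 (.m 20 (.l 39)) (.l 35)) (.l 24))) (.b 24 (.b 19 (.b 35 (.m 20 (.l 39)) (.l 35)) (.l 30)) (.l 30))) (.l 38)) (.b 28 (.b 24 (.b 38 (.b 22 (.b 35 (.b 39 (.m 20 (.b 31 (.l 34) (.l 31))) (.l 39)) (.l 35)) (.l 34)) (.l 38)) (.l 34)) (.l 34))) (.b 30 (.b 24 (.b 38 (.b 19 (.b 14 (.b 35 (.b 39 (.b 31 (.b 34 (.m 20 (.b 25 (.b 28 (.b 29 (.m 13 (.l 32)) (.l 29)) (.l 28)) (.l 25))) (.l 34)) (.l 31)) (.l 39)) (.l 35)) (.l 37)) (.l 37)) (.l 38)) (.l 37)) (.l 37))) (.l 40)) (.l 40)) (.l 40)) (.l 40)) (.l 40)))) (.b 16 (.b 12 (.b 8 (.b 5 (.b 3 (.b 1 (.b 37 (.b 30 (.b 38 (.b 39 (.m 22 (.b 35 (.m 20 (.b 31 (.l 34) (.l 31))) (.l 35))) (.b 32 (.b 35 (.b 31 (.l 39) (.l 31)) (.l 35)) (.b 29 (.b 26 (.b 31 (.b 34 (.l 39) (.l 34)) (.l 31)) (.b 23 (.b 31 (.b 34 (.l 39) (.l 34)) (.l 31)) (.l 39))) (.b 26 (.b 35 (.b 31 (.l 39) (.l 31)) (.l 35)) (.l 39))))) (.l 38)) (.b 24 (.b 38 (.b 19 (.b 35 (.b 31 (.b 39 (.m 20 (.b 14 (.b 25 (.l 34) (.l 25)) (.b 10 (.b 29 (.l 34) (.l 29)) (.l 30)))) (.l 39)) (.l 31)) (.l 35)) (.b 14 (.b 35 (.b 39 (.m 20 (.b 31 (.b 10 (.b 29 (.l 34) (.l 29)) (.l 30)) (.l 31))) (.l 39)) (.l 35)) (.l 30))) (.l 38)) (.b 19 (.b 14 (.b 10 (.b 7 (.b 4 (.b 2 (.b 0 (.b 34 (.b 35 (.b 38 (.m 20 (.l 39)) (.l 38)) (.l 35)) (.b 28 (.b 35 (.b 38 (.b 31 (.b 29 (.b 25 (.l 34) (.l 25)) (.l 29)) (.l 31)) (.l 38)) (.l 35)) (.b 22 (.b 35 (.b 38 (.b 39 (.m 20 (.b 29 (.b 25 (.l 34) (.l 25)) (.l 29))) (.l 39)) (.l 38)) (.l 35)) (.l 34)))) (.l 30)) (.l 30)) (.l 30)) (.l 30)) (.l 30)) (.l 30)) (.l 30)))) (.b 30 (.b 24 (.b 38 (.b 19 (.b 35 (.b 31 (.b 39 (.b 14 (.b 25 (.b 29 (.b 28 (.b 20 (.b 17 (.b 22 (.l 37) (.l 22)) (.l 17)) (.l 20)) (.l 28)) (.l 29)) (.l 25)) (.b 10 (.b 29 (.b 25 (.b 28 (.b 20 (.b 22 (.b 17 (.l 37) (.l 17)) (.l 22)) (.l 20)) (.l 28)) (.l 25)) (.l 29)) (.l 37))) (.l 39)) (.l 31)) (.l 35)) (.b 14 (.b 35 (.b 39 (.b 31 (.b 10 (.b 29 (.b 25 (.b 28 (.b 20 (.b 22 (.b 17 (.l 37) (.l 17)) (.l 22)) (.l 20)) (.l 28)) (.l 25)) (.l 29)) (.l 37)) (.l 31)) (.l 39)) (.l 35)) (.l 37))) (.l 38)) (.b 19 (.b 14 (.b 10 (.b 7 (.b 4 (.b 2 (.b 0 (.b 34 (.b 35 (.b 38 (.b 31 (.b 29 (.b 25 (.b 32 (.b 20 (.b 22 (.m 0 (.l 39)) (.l 22)) (.l 20)) (.l 32)) (.l 25)) (.l 29)) (.l 31)) (.l 38)) (.l 35)) (.b 28 (.b 35 (.b 38 (.b 31 (.b 29 (.b 25 (.l 34) (.l 25)) (.l 29)) (.l 31)) (.l 38)) (.l 35)) (.b 22 (.b 35 (.b 38 (.b 39 (.b 29 (.b 25 (.l 34) (.l 25)) (.l 29)) (.l 39)) (.l 38)) (.l 35)) (.l 34)))) (.l 37)) (.l 37)) (.l 37)) (.l 37)) (.l 37)) (.l 37)) (.l 37))) (.b 24 (.b 19 (.b 14 (.b 10 (.b 7 (.b 4 (.b 2 (.b 0 (.b 39 (.b 35 (.b 38 (.b 31 (.b 29 (.b 25 (.b 32 (.b 20 (.b 22 (.m 0 (.l 36)) (.l 22)) (.l 20)) (.l 32)) (.l 25)) (.l 29)) (.l 31)) (.l 38)) (.l 35)) (.b 32 (.b 35 (.l 39) (.l 35)) (.b 29 (.b 38 (.l 39) (.l 38)) (.b 26 (.b 35 (.l 39) (.l 35)) (.l 39))))) (.l 37)) (.l 37)) (.l 37)) (.l 37)) (.l 37)) (.l 37)) (.l 37)) (.l 37)))) (.b 0 (.b 37 (.b 30 (.b 38 (.b 39 (.m 22 (.b 35 (.m 20 (.b 31 (.l 34) (.l 31))) (.l 35))) (.b 32 (.b 35 (.b 31 (.l 39) (.l 31)) (.l 35)) (.b 29 (.b 26 (.b 31 (.b 34 (.l 39) (.l 34)) (.l 31)) (.l 39)) (.l 39)))) (.l 38)) (.b 24 (.b 38 (.b 19 (.b 35 (.b 31 (.b 39 (.m 20 (.b 14 (.b 25 (.l 34) (.l 25)) (.l 30))) (.l 39)) (.l 31)) (.l 35)) (.l 30)) (.l 38)) (.l 30))) (.b 30 (.b 24 (.b 38 (.b 19 (.b 35 (.b 31 (.b 39 (.b 14 (.b 25 (.b 29 (.b 28 (.b 20 (.b 17 (.b 22 (.l 37) (.l 22)) (.l 17)) (.l 20)) (.l 28)) (.l 29)) (.l 25)) (.l 37)) (.l 39)) (.l 31)) (.l 35)) (.l 37)) (.l 38)) (.l 37)) (.l 37))) (.l 40))) (.b 1 (.b 0 (.b 37 (.b 30 (.b 38 (.b 39 (.m 22 (.b 35 (.m 20 (.b 31 (.l 34) (.l 31))) (.l 35))) (.b 32 (.b 35 (.b 31 (.l 39) (.l 31)) (.l 35)) (.b 29 (.b 26 (.b 31 (.b 34 (.l 39) (.l 34)) (.l 31)) (.l 39)) (.l 39)))) (.l 38)) (.b 24 (.b 38 (.b 19 (.b 35 (.b 31 (.b 39 (.m 20 (.b 14 (.b 25 (.l 34) (.l 25)) (.l 30))) (.l 39)) (.l 31)) (.l 35)) (.l 30)) (.l 38)) (.l 30))) (.b 30 (.b 24 (.b 38 (.b 19 (.b 35 (.b 31 (.b 39 (.b 14 (.b 25 (.b 29 (.b 28 (.b 20 (.b 17 (.b 22 (.l 37) (.l 22)) (.l 17)) (.l 20)) (.l 28)) (.l 29)) (.l 25)) (.l 37)) (.l 39)) (.l 31)) (.l 35)) (.l 37)) (.l 38)) (.l 37)) (.l 37))) (.l 40)) (.l 40))) (.b 3 (.b 1 (.b 0 (.b 37 (.b 30 (.b 38 (.b 35 (.b 34 (.m 20 (.b 31 (.l 39) (.l 31))) (.b 28 (.b 31 (.b 39 (.m 20 (.l 34)) (.l 39)) (.l 31)) (.b 24 (.b 31 (.b 39 (.m 20 (.l 34)) (.l 39)) (.l 31)) (.l 34)))) (.b 29 (.b 25 (.b 23 (.b 31 (.l 35) (.l 31)) (.b 20 (.b 34 (.l 35) (.l 34)) (.l 35))) (.b 23 (.b 31 (.l 35) (.l 31)) (.l 35))) (.b 25 (.b 23 (.b 20 (.b 34 (.l 35) (.l 34)) (.l 35)) (.l 35)) (.l 35)))) (.l 38)) (.b 24 (.b 38 (.b 19 (.b 35 (.b 31 (.b 39 (.m 20 (.b 14 (.b 25 (.l 34) (.l 25)) (.l 30))) (.l 39)) (.l 31)) (.l 35)) (.l 30)) (.l 38)) (.l 30))) (.b 30 (.b 24 (.b 38 (.b 19 (.b 35 (.b 31 (.b 39 (.b 14 (.b 25 (.b 29 (.b 28 (.b 22 (.b 17 (.b 20 (.l 37) (.l 20)) (.l 17)) (.l 22)) (.l 28)) (.l 29)) (.l 25)) (.l 37)) (.l 39)) (.l 31)) (.l 35)) (.l 37)) (.l 38)) (.l 37)) (.l 37))) (.l 40)) (.l 40)) (.l 40))) (.b 5 (.b 3 (.b 1 (.b 0 (.b 37 (.b 30 (.b 38 (.b 34 (.b 31 (.b 35 (.m 20 (.l 39)) (.l 35)) (.b 25 (.b 22 (.b 35 (.m 20 (.l 39)) (.l 35)) (.b 20 (.b 17 (.b 39 (.m 20 (.l 35)) (.l 39)) (.l 31)) (.l 31))) (.b 22 (.b 35 (.m 20 (.l 39)) (.l 35)) (.l 31)))) (.b 28 (.b 24 (.b 31 (.b 35 (.b 39 (.m 20 (.l 34)) (.l 39)) (.l 35)) (.l 31)) (.b 22 (.b 35 (.b 31 (.b 39 (.m 20 (.l 34)) (.l 39)) (.l 31)) (.l 35)) (.l 34))) (.b 24 (.b 22 (.b 35 (.b 31 (.b 39 (.m 20 (.l 34)) (.l 39)) (.l 31)) (.l 35)) (.l 34)) (.l 34)))) (.l 38)) (.b 24 (.b 38 (.b 19 (.b 14 (.b 35 (.b 31 (.b 39 (.m 20 (.b 10 (.b 29 (.l 34) (.l 29)) (.l 30))) (.l 39)) (.l 31)) (.l 35)) (.l 30)) (.l 30)) (.l 38)) (.l 30))) (.b 30 (.b 24 (.b 38 (.b 19 (.b 14 (.b 35 (.b 31 (.b 39 (.b 10 (.b 29 (.b 25 (.b 28 (.b 20 (.b 22 (.b 17 (.l 37) (.l 17)) (.l 22)) (.l 20)) (.l 28)) (.l 25)) (.l 29)) (.l 37)) (.l 39)) (.l 31)) (.l 35)) (.l 37)) (.l 37)) (.l 38)) (.l 37)) (.l 37))) (.l 40)) (.l 40)) (.l 40)) (.l 40))) (.b 8 (.b 5 (.b 3 (.b 1 (.b 0 (.b 37 (.b 30 (.b 38 (.b 34 (.b 28 (.b 35 (.m 20 (.l 39)) (.l 35)) (.b 22 (.b 35 (.m 20 (.l 39)) (.l 35)) (.b 19 (.b 35 (.m 20 (.l 39)) (.l 35)) (.l 28)))) (.b 28 (.b 24 (.b 35 (.b 31 (.b 39 (.m 20 (.l 34)) (.l 39)) (.l 31)) (.l 35)) (.b 22 (.b 35 (.b 39 (.m 20 (.b 31 (.l 34) (.l 31))) (.l 39)) (.l 35)) (.l 34))) (.b 24 (.b 22 (.b 35 (.b 39 (.m 20 (.b 31 (.l 34) (.l 31))) (.l 39)) (.l 35)) (.l 34)) (.l 34)))) (.l 38)) (.b 24 (.b 38 (.b 19 (.b 14 (.b 35 (.b 39 (.m 20 (.b 31 (.b 10 (.b 29 (.l 34) (.l 29)) (.l 30)) (.l 31))) (.l 39)) (.l 35)) (.l 30)) (.l 30)) (.l 38)) (.l 30))) (.b 30 (.b 24 (.b 38 (.b 19 (.b 14 (.b 35 (.b 39 (.b 31 (.b 10 (.b 29 (.b 25 (.b 28 (.b 20 (.b 22 (.b 17 (.l 37) (.l 17)) (.l 22)) (.l 20)) (.l 28)) (.l 25)) (.l 29)) (.l 37)) (.l 31)) (.l 39)) (.l 35)) (.l 37)) (.l 37)) (.l 38)) (.l 37)) (.l 37))) (.l 40)) (.l 40)) (.l 40)) (.l 40)) (.l 40))) (.b 12 (.b 8 (.b 5 (.b 3 (.b 1 (.b 0 (.b 37 (.b 30 (.b 34 (.b 38 (.b 24 (.b 35 (.m 20 (.l 39)) (.l 35)) (.b 19 (.b 35 (.m 20 (.l 39)) (.l 35)) (.b 14 (.b 35 (.m 20 (.l 39)) (.l 35)) (.l 24)))) (.l 38)) (.b 28 (.b 24 (.b 38 (.b 35 (.b 31 (.b 39 (.m 20 (.l 34)) (.l 39)) (.l 31)) (.l 35)) (.l 38)) (.b 22 (.b 19 (.b 35 (.b 38 (.b 31 (.b 39 (.m 20 (.l 34)) (.l 39)) (.l 31)) (.l 38)) (.l 35)) (.l 34)) (.l 34))) (.b 24 (.b 38 (.b 22 (.b 35 (.b 39 (.m 20 (.b 31 (.l 34) (.l 31))) (.l 39)) (.l 35)) (.l 34)) (.l 38)) (.l 34)))) (.b 24 (.b 19 (.b 14 (.b 10 (.b 7 (.b 4 (.b 2 (.b 34 (.b 35 (.b 38 (.m 20 (.l 39)) (.l 38)) (.l 35)) (.b 28 (.b 35 (.b 38 (.b 31 (.b 29 (.b 25 (.l 34) (.l 25)) (.l 29)) (.l 31)) (.l 38)) (.l 35)) (.b 22 (.b 35 (.b 38 (.b 39 (.m 20 (.b 29 (.b 25 (.l 34) (.l 25)) (.l 29))) (.l 39)) (.l 38)) (.l 35)) (.l 34)))) (.l 30)) (.l 30)) (.l 30)) (.l 30)) (.l 30)) (.l 30)) (.l 30))) (.b 30 (.b 24 (.b 19 (.b 14 (.b 10 (.b 7 (.b 4 (.b 2 (.b 34 (.b 35 (.b 38 (.b 31 (.b 29 (.b 25 (.b 32 (.b 20 (.b 22 (.m 0 (.l 39)) (.l 22)) (.l 20)) (.l 32)) (.l 25)) (.l 29)) (.l 31)) (.l 38)) (.l 35)) (.b 28 (.b 35 (.b 38 (.b 31 (.b 29 (.b 25 (.l 34) (.l 25)) (.l 29)) (.l 31)) (.l 38)) (.l 35)) (.b 22 (.b 35 (.b 38 (.b 39 (.b 29 (.b 25 (.l 34) (.l 25)) (.l 29)) (.l 39)) (.l 38)) (.l 35)) (.l 34)))) (.l 37)) (.l 37)) (.l 37)) (.l 37)) (.l 37)) (.l 37)) (.l 37)) (.l 37))) (.l 40)) (.l 40)) (.l 40)) (.l 40)) (.l 40)) (.l 40)))) (.b 21 (.b 16 (.b 12 (.b 8 (.b 5 (.b 3 (.b 1 (.b 37 (.b 39 (.b 38 (.m 22 (.b 26 (.b 35 (.m 20 (.b 31 (.l 34) (.l 31))) (.l 35)) (.b 18 (.b 11 (.b 6 (.b 2 (.b 32 (.b 31 (.b 34 (.m 18 (.l 35)) (.l 34)) (.l 31)) (.b 23 (.b 31 (.b 34 (.m 20 (.l 35)) (.l 34)) (.l 31)) (.b 15 (.b 34 (.m 20 (.l 35)) (.l 34)) (.l 32)))) (.b 0 (.b 32 (.b 31 (.b 34 (.m 18 (.l 35)) (.l 34)) (.l 31)) (.b 23 (.b 31 (.b 34 (.m 20 (.l 35)) (.l 34)) (.l 31)) (.l 32))) (.l 36))) (.b 2 (.b 0 (.b 32 (.b 31 (.b 34 (.m 18 (.l 35)) (.l 34)) (.l 31)) (.b 23 (.b 31 (.b 34 (.m 20 (.l 35)) (.l 34)) (.l 31)) (.l 32))) (.l 36)) (.l 36))) (.b 6 (.b 2 (.b 0 (.b 32 (.b 31 (.b 34 (.m 18 (.l 35)) (.l 34)) (.l 31)) (.b 23 (.b 31 (.b 34 (.m 20 (.l 35)) (.l 34)) (.l 31)) (.l 32))) (.l 36)) (.l 36)) (.l 36))) (.b 11 (.b 6 (.b 2 (.b 0 (.b 32 (.b 35 (.m 19 (.l 34)) (.l 35)) (.b 23 (.b 15 (.b 34 (.m 20 (.l 35)) (.l 34)) (.l 32)) (.l 32))) (.l 36)) (.l 36)) (.l 36)) (.l 36))))) (.l 38)) (.b 32 (.b 38 (.b 29 (.b 26 (.b 31 (.b 34 (.b 35 (.m 18 (.l 39)) (.l 35)) (.l 34)) (.l 31)) (.b 23 (.b 31 (.b 34 (.b 35 (.m 18 (.l 39)) (.l 35)) (.l 34)) (.l 31)) (.b 20 (.b 18 (.b 31 (.b 34 (.b 28 (.l 39) (.l 28)) (.l 34)) (.l 31)) (.l 39)) (.l 39)))) (.b 26 (.b 35 (.b 31 (.b 34 (.m 18 (.l 39)) (.l 34)) (.l 31)) (.l 35)) (.b 23 (.b 20 (.b 18 (.b 31 (.b 34 (.b 28 (.l 39) (.l 28)) (.l 34)) (.l 31)) (.l 39)) (.l 39)) (.l 39)))) (.l 38)) (.b 29 (.b 38 (.b 26 (.b 23 (.b 31 (.b 34 (.b 35 (.m 20 (.l 39)) (.l 35)) (.l 34)) (.l 31)) (.b 20 (.b 18 (.b 31 (.b 34 (.b 28 (.l 39) (.l 28)) (.l 34)) (.l 31)) (.l 39)) (.l 39))) (.b 23 (.b 20 (.b 18 (.b 31 (.b 34 (.b 28 (.l 39) (.l 28)) (.l 34)) (.l 31)) (.l 39)) (.l 39)) (.l 39))) (.l 38)) (.b 26 (.b 38 (.b 23 (.b 20 (.b 18 (.b 31 (.b 34 (.b 28 (.l 39) (.l 28)) (.l 34)) (.l 31)) (.l 39)) (.l 39)) (.l 39)) (.l 38)) (.l 39))))) (.b 30 (.b 24 (.b 38 (.b 19 (.b 35 (.b 31 (.b 39 (.b 14 (.b 25 (.b 29 (.b 28 (.b 20 (.b 17 (.b 22 (.l 37) (.l 22)) (.l 17)) (.l 20)) (.l 28)) (.l 29)) (.l 25)) (.b 10 (.b 29 (.b 25 (.b 28 (.b 20 (.b 22 (.b 17 (.l 37) (.l 17)) (.l 22)) (.l 20)) (.l 28)) (.l 25)) (.l 29)) (.l 37))) (.l 39)) (.l 31)) (.l 35)) (.b 14 (.b 35 (.b 39 (.b 31 (.b 10 (.b 29 (.b 25 (.b 28 (.b 20 (.b 22 (.b 17 (.l 37) (.l 17)) (.l 22)) (.l 20)) (.l 28)) (.l 25)) (.l 29)) (.l 37)) (.l 31)) (.l 39)) (.l 35)) (.l 37))) (.l 38)) (.b 19 (.b 14 (.b 10 (.b 7 (.b 4 (.b 2 (.b 0 (.b 34 (.b 35 (.b 38 (.b 31 (.b 29 (.b 25 (.b 32 (.b 20 (.b 22 (.m 0 (.l 39)) (.l 22)) (.l 20)) (.l 32)) (.l 25)) (.l 29)) (.l 31)) (.l 38)) (.l 35)) (.b 28 (.b 35 (.b 38 (.b 31 (.b 29 (.b 25 (.l 34) (.l 25)) (.l 29)) (.l 31)) (.l 38)) (.l 35)) (.b 22 (.b 35 (.b 38 (.b 39 (.b 29 (.b 25 (.l 34) (.l 25)) (.l 29)) (.l 39)) (.l 38)) (.l 35)) (.l 34)))) (.l 37)) (.l 37)) (.l 37)) (.l 37)) (.l 37)) (.l 37)) (.l 37))) (.b 24 (.b 19 (.b 14 (.b 10 (.b 7 (.b 4 (.b 2 (.b 0 (.b 39 (.b 35 (.b 38 (.b 31 (.b 29 (.b 25 (.b 32 (.b 20 (.b 22 (.m 0 (.l 36)) (.l 22)) (.l 20)) (.l 32)) (.l 25)) (.l 29)) (.l 31)) (.l 38)) (.l 35)) (.b 32 (.b 35 (.l 39) (.l 35)) (.b 29 (.b 38 (.l 39) (.l 38)) (.b 26 (.b 35 (.l 39) (.l 35)) (.l 39))))) (.l 37)) (.l 37)) (.l 37)) (.l 37)) (.l 37)) (.l 37)) (.l 37)) (.l 37)))) (.b 0 (.b 37 (.b 39 (.b 38 (.m 22 (.b 26 (.b 35 (.m 20 (.b 31 (.l 34) (.l 31))) (.l 35)) (.b 18 (.b 11 (.b 6 (.b 32 (.b 31 (.b 34 (.m 18 (.l 35)) (.l 34)) (.l 31)) (.b 23 (.b 31 (.b 34 (.m 20 (.l 35)) (.l 34)) (.l 31)) (.l 32))) (.b 32 (.b 31 (.b 34 (.m 18 (.l 35)) (.l 34)) (.l 31)) (.l 32))) (.b 32 (.b 31 (.b 34 (.m 18 (.l 35)) (.l 34)) (.l 31)) (.l 32))) (.b 32 (.b 35 (.m 19 (.b 31 (.l 34) (.l 31))) (.l 35)) (.l 32))))) (.l 38)) (.b 32 (.b 38 (.b 29 (.b 26 (.b 31 (.b 34 (.b 35 (.m 18 (.l 39)) (.l 35)) (.l 34)) (.l 31)) (.b 23 (.b 31 (.b 34 (.b 35 (.m 18 (.l 39)) (.l 35)) (.l 34)) (.l 31)) (.l 39))) (.b 26 (.b 35 (.b 31 (.b 34 (.m 18 (.l 39)) (.l 34)) (.l 31)) (.l 35)) (.l 39))) (.l 38)) (.b 29 (.b 38 (.b 26 (.b 23 (.b 31 (.b 34 (.b 35 (.m 20 (.l 39)) (.l 35)) (.l 34)) (.l 31)) (.l 39)) (.l 39)) (.l 38)) (.l 39)))) (.b 30 (.b 24 (.b 38 (.b 19 (.b 35 (.b 31 (.b 39 (.b 14 (.b 25 (.b 29 (.b 28 (.b 20 (.b 17 (.b 22 (.l 37) (.l 22)) (.l 17)) (.l 20)) (.l 28)) (.l 29)) (.l 25)) (.l 37)) (.l 39)) (.l 31)) (.l 35)) (.l 37)) (.l 38)) (.l 37)) (.l 37))) (.l 40))) (.b 1 (.b 0 (.b 37 (.b 39 (.b 38 (.m 22 (.b 26 (.b 35 (.m 20 (.b 31 (.l 34) (.l 31))) (.l 35)) (.b 18 (.b 11 (.b 6 (.b 35 (.m 20 (.l 34)) (.b 29 (.b 31 (.l 35) (.l 31)) (.b 25 (.b 34 (.l 35) (.l 34)) (.l 35)))) (.b 2 (.b 35 (.m 20 (.l 34)) (.b 29 (.b 31 (.l 35) (.l 31)) (.l 35))) (.l 36))) (.b 6 (.b 2 (.b 35 (.m 20 (.b 31 (.l 34) (.l 31))) (.b 29 (.b 31 (.l 35) (.l 31)) (.l 35))) (.l 36)) (.l 36))) (.b 11 (.b 6 (.b 2 (.b 35 (.m 20 (.b 28 (.b 31 (.l 34) (.l 31)) (.b 24 (.b 31 (.l 34) (.l 31)) (.l 34)))) (.b 29 (.b 25 (.b 34 (.l 35) (.l 34)) (.l 35)) (.l 35))) (.l 36)) (.l 36)) (.l 36))))) (.l 38)) (.b 32 (.b 38 (.b 29 (.b 26 (.b 31 (.b 34 (.b 35 (.m 18 (.l 39)) (.l 35)) (.l 34)) (.l 31)) (.b 23 (.b 31 (.b 34 (.b 35 (.m 18 (.l 39)) (.l 35)) (.l 34)) (.l 31)) (.l 39))) (.b 26 (.b 35 (.b 31 (.b 34 (.m 18 (.l 39)) (.l 34)) (.l 31)) (.l 35)) (.l 39))) (.l 38)) (.b 29 (.b 38 (.b 26 (.b 23 (.b 31 (.b 34 (.b 35 (.m 20 (.l 39)) (.l 35)) (.l 34)) (.l 31)) (.l 39)) (.l 39)) (.l 38)) (.l 39)))) (.b 30 (.b 24 (.b 38 (.b 19 (.b 35 (.b 31 (.b 39 (.b 14 (.b 25 (.b 29 (.b 28 (.b 20 (.b 17 (.b 22 (.l 37) (.l 22)) (.l 17)) (.l 20)) (.l 28)) (.l 29)) (.l 25)) (.l 37)) (.l 39)) (.l 31)) (.l 35)) (.l 37)) (.l 38)) (.l 37)) (.l 37))) (.l 40)) (.l 40))) (.b 3 (.b 1 (.b 0 (.b 37 (.b 38 (.b 35 (.b 34 (.m 20 (.b 32 (.b 31 (.b 29 (.b 26 (.b 25 (.l 39) (.l 25)) (.b 23 (.b 25 (.l 39) (.l 25)) (.b 20 (.b 28 (.l 39) (.l 28)) (.l 39)))) (.b 26 (.b 23 (.b 25 (.l 39) (.l 25)) (.b 20 (.b 28 (.l 39) (.l 28)) (.l 39))) (.b 23 (.b 20 (.b 28 (.l 39) (.l 28)) (.l 39)) (.l 39)))) (.l 31)) (.b 29 (.b 31 (.b 26 (.b 23 (.b 25 (.l 39) (.l 25)) (.b 20 (.b 28 (.l 39) (.l 28)) (.l 39))) (.b 23 (.b 20 (.b 28 (.l 39) (.l 28)) (.l 39)) (.l 39))) (.l 31)) (.b 26 (.b 31 (.b 23 (.b 20 (.b 28 (.l 39) (.l 28)) (.l 39)) (.l 39)) (.l 31)) (.l 39))))) (.b 28 (.b 24 (.b 31 (.b 39 (.m 20 (.b 22 (.b 25 (.l 34) (.l 25)) (.b 19 (.b 25 (.l 34) (.l 25)) (.l 34)))) (.l 39)) (.l 31)) (.b 22 (.b 19 (.b 31 (.b 39 (.m 20 (.b 25 (.l 34) (.l 25))) (.l 39)) (.l 31)) (.l 34)) (.l 34))) (.b 24 (.b 22 (.b 19 (.b 31 (.b 39 (.m 20 (.b 25 (.l 34) (.l 25))) (.l 39)) (.l 31)) (.l 34)) (.l 34)) (.l 34)))) (.b 29 (.b 25 (.b 23 (.b 20 (.b 34 (.b 31 (.l 35) (.l 31)) (.l 34)) (.b 18 (.b 31 (.b 34 (.l 35) (.l 34)) (.l 31)) (.l 35))) (.b 20 (.b 18 (.b 34 (.b 31 (.l 35) (.l 31)) (.l 34)) (.l 35)) (.l 35))) (.b 23 (.b 20 (.b 18 (.b 31 (.b 34 (.l 35) (.l 34)) (.l 31)) (.l 35)) (.l 35)) (.l 35))) (.b 25 (.b 23 (.b 20 (.b 18 (.b 34 (.b 31 (.l 35) (.l 31)) (.l 34)) (.l 35)) (.l 35)) (.l 35)) (.l 35)))) (.b 31 (.b 28 (.b 25 (.b 22 (.b 35 (.l 38) (.l 35)) (.b 20 (.b 19 (.b 35 (.l 38) (.l 35)) (.l 38)) (.l 38))) (.b 22 (.b 35 (.l 38) (.l 35)) (.l 38))) (.b 25 (.b 22 (.b 20 (.b 19 (.b 35 (.l 38) (.l 35)) (.l 38)) (.l 38)) (.l 38)) (.l 38))) (.b 28 (.b 25 (.b 22 (.b 20 (.b 19 (.b 35 (.l 38) (.l 35)) (.l 38)) (.l 38)) (.l 38)) (.l 38)) (.l 38)))) (.b 30 (.b 24 (.b 38 (.b 19 (.b 35 (.b 31 (.b 39 (.b 14 (.b 25 (.b 29 (.b 28 (.b 22 (.b 17 (.b 20 (.l 37) (.l 20)) (.l 17)) (.l 22)) (.l 28)) (.l 29)) (.l 25)) (.l 37)) (.l 39)) (.l 31)) (.l 35)) (.l 37)) (.l 38)) (.l 37)) (.l 37))) (.l 40)) (.l 40)) (.l 40))) (.b 5 (.b 3 (.b 1 (.b 0 (.b 37 (.b 38 (.b 34 (.b 31 (.b 30 (.b 35 (.m 20 (.l 39)) (.l 35)) (.b 24 (.b 35 (.m 20 (.l 39)) (.l 35)) (.b 19 (.b 35 (.m 20 (.l 39)) (.l 35)) (.l 30)))) (.b 25 (.b 22 (.b 20 (.b 17 (.b 39 (.m 20 (.l 35)) (.l 39)) (.b 15 (.b 14 (.b 35 (.m 20 (.l 39)) (.l 35)) (.l 31)) (.l 31))) (.b 17 (.b 39 (.m 20 (.l 35)) (.l 39)) (.l 31))) (.b 20 (.b 17 (.b 15 (.b 14 (.b 39 (.m 20 (.l 35)) (.l 39)) (.l 31)) (.l 31)) (.l 31)) (.l 31))) (.b 22 (.b 20 (.b 17 (.b 15 (.b 14 (.b 35 (.m 20 (.l 39)) (.l 35)) (.l 31)) (.l 31)) (.l 31)) (.l 31)) (.l 31)))) (.b 28 (.b 24 (.b 22 (.b 35 (.b 31 (.b 39 (.m 20 (.b 19 (.b 25 (.l 34) (.l 25)) (.b 17 (.b 29 (.l 34) (.l 29)) (.l 34)))) (.l 39)) (.l 31)) (.l 35)) (.b 19 (.b 31 (.b 35 (.b 39 (.m 20 (.b 17 (.b 29 (.l 34) (.l 29)) (.l 34))) (.l 39)) (.l 35)) (.l 31)) (.l 34))) (.b 22 (.b 19 (.b 35 (.b 31 (.b 39 (.m 20 (.b 17 (.b 29 (.l 34) (.l 29)) (.l 34))) (.l 39)) (.l 31)) (.l 35)) (.l 34)) (.l 34))) (.b 24 (.b 22 (.b 19 (.b 35 (.b 31 (.b 39 (.m 20 (.b 17 (.b 29 (.l 34) (.l 29)) (.l 34))) (.l 39)) (.l 31)) (.l 35)) (.l 34)) (.l 34)) (.l 34)))) (.b 31 (.b 28 (.b 25 (.b 22 (.b 20 (.b 19 (.b 35 (.l 38) (.l 35)) (.b 17 (.b 39 (.l 38) (.l 39)) (.l 38))) (.b 19 (.b 35 (.l 38) (.l 35)) (.l 38))) (.b 20 (.b 19 (.b 17 (.b 39 (.l 38) (.l 39)) (.l 38)) (.l 38)) (.l 38))) (.b 22 (.b 20 (.b 19 (.b 35 (.l 38) (.l 35)) (.l 38)) (.l 38)) (.l 38))) (.b 25 (.b 22 (.b 20 (.b 19 (.b 17 (.b 39 (.l 38) (.l 39)) (.l 38)) (.l 38)) (.l 38)) (.l 38)) (.l 38))) (.b 28 (.b 25 (.b 22 (.b 20 (.b 19 (.b 17 (.b 39 (.l 38) (.l 39)) (.l 38)) (.l 38)) (.l 38)) (.l 38)) (.l 38)) (.l 38)))) (.b 30 (.b 24 (.b 38 (.b 19 (.b 14 (.b 35 (.b 31 (.b 39 (.b 10 (.b 29 (.b 25 (.b 28 (.b 20 (.b 22 (.b 17 (.l 37) (.l 17)) (.l 22)) (.l 20)) (.l 28)) (.l 25)) (.l 29)) (.l 37)) (.l 39)) (.l 31)) (.l 35)) (.l 37)) (.l 37)) (.l 38)) (.l 37)) (.l 37))) (.l 40)) (.l 40)) (.l 40)) (.l 40))) (.b 8 (.b 5 (.b 3 (.b 1 (.b 0 (.b 37 (.b 38 (.b 34 (.b 30 (.b 28 (.b 35 (.m 20 (.l 39)) (.l 35)) (.b 22 (.b 35 (.m 20 (.l 39)) (.l 35)) (.b 19 (.b 35 (.m 20 (.l 39)) (.l 35)) (.l 28)))) (.b 24 (.b 19 (.b 35 (.m 20 (.l 39)) (.l 35)) (.b 14 (.b 35 (.m 20 (.l 39)) (.l 35)) (.l 30))) (.b 19 (.b 14 (.b 35 (.m 20 (.l 39)) (.l 35)) (.l 30)) (.l 30)))) (.b 28 (.b 24 (.b 22 (.b 35 (.b 39 (.m 20 (.b 31 (.b 19 (.b 25 (.l 34) (.l 25)) (.b 17 (.b 29 (.l 34) (.l 29)) (.l 34))) (.l 31))) (.l 39)) (.l 35)) (.b 19 (.b 35 (.b 31 (.b 39 (.m 20 (.b 17 (.b 29 (.l 34) (.l 29)) (.l 34))) (.l 39)) (.l 31)) (.l 35)) (.l 34))) (.b 22 (.b 19 (.b 35 (.b 39 (.m 20 (.b 31 (.b 17 (.b 29 (.l 34) (.l 29)) (.l 34)) (.l 31))) (.l 39)) (.l 35)) (.l 34)) (.l 34))) (.b 24 (.b 22 (.b 19 (.b 35 (.b 39 (.m 20 (.b 31 (.b 17 (.b 29 (.l 34) (.l 29)) (.l 34)) (.l 31))) (.l 39)) (.l 35)) (.l 34)) (.l 34)) (.l 34)))) (.b 31 (.b 28 (.b 25 (.b 22 (.b 20 (.b 19 (.b 35 (.l 38) (.l 35)) (.b 17 (.b 39 (.l 38) (.l 39)) (.l 38))) (.b 19 (.b 35 (.l 38) (.l 35)) (.l 38))) (.b 20 (.b 19 (.b 17 (.b 39 (.l 38) (.l 39)) (.l 38)) (.l 38)) (.l 38))) (.b 22 (.b 20 (.b 19 (.b 35 (.l 38) (.l 35)) (.l 38)) (.l 38)) (.l 38))) (.b 25 (.b 22 (.b 20 (.b 19 (.b 17 (.b 39 (.l 38) (.l 39)) (.l 38)) (.l 38)) (.l 38)) (.l 38)) (.l 38))) (.b 28 (.b 25 (.b 22 (.b 20 (.b 19 (.b 17 (.b 39 (.l 38) (.l 39)) (.l 38)) (.l 38)) (.l 38)) (.l 38)) (.l 38)) (.l 38)))) (.b 30 (.b 24 (.b 38 (.b 19 (.b 14 (.b 35 (.b 39 (.b 31 (.b 10 (.b 29 (.b 25 (.b 28 (.b 20 (.b 22 (.b 17 (.l 37) (.l 17)) (.l 22)) (.l 20)) (.l 28)) (.l 25)) (.l 29)) (.l 37)) (.l 31)) (.l 39)) (.l 35)) (.l 37)) (.l 37)) (.l 38)) (.l 37)) (.l 37))) (.l 40)) (.l 40)) (.l 40)) (.l 40)) (.l 40))) (.b 12 (.b 8 (.b 5 (.b 3 (.b 1 (.b 0 (.b 37 (.b 34 (.b 30 (.b 38 (.b 24 (.b 35 (.m 20 (.l 39)) (.l 35)) (.b 19 (.b 35 (.m 20 (.l 39)) (.l 35)) (.b 14 (.b 35 (.m 20 (.l 39)) (.l 35)) (.l 24)))) (.l 38)) (.b 24 (.b 38 (.b 19 (.b 35 (.m 20 (.l 39)) (.l 35)) (.b 14 (.b 35 (.m 20 (.l 39)) (.l 35)) (.l 30))) (.l 38)) (.b 19 (.b 14 (.b 10 (.b 7 (.b 4 (.b 2 (.b 39 (.b 35 (.m 20 (.l 38)) (.l 35)) (.b 32 (.b 35 (.l 39) (.l 35)) (.b 29 (.b 38 (.l 39) (.l 38)) (.b 26 (.b 35 (.l 39) (.l 35)) (.l 39))))) (.l 30)) (.l 30)) (.l 30)) (.l 30)) (.l 30)) (.l 30)))) (.b 28 (.b 24 (.b 22 (.b 19 (.b 35 (.b 38 (.b 31 (.b 39 (.m 20 (.b 25 (.l 34) (.l 25))) (.l 39)) (.l 31)) (.l 38)) (.l 35)) (.b 17 (.b 14 (.b 35 (.b 38 (.b 39 (.m 20 (.b 29 (.b 25 (.l 34) (.l 25)) (.l 29))) (.l 39)) (.l 38)) (.l 35)) (.l 34)) (.l 34))) (.b 19 (.b 17 (.b 14 (.b 35 (.b 38 (.b 31 (.b 29 (.b 25 (.l 34) (.l 25)) (.l 29)) (.l 31)) (.l 38)) (.l 35)) (.l 34)) (.l 34)) (.l 34))) (.b 22 (.b 19 (.b 17 (.b 14 (.b 35 (.b 39 (.b 38 (.m 20 (.b 29 (.b 25 (.l 34) (.l 25)) (.l 29))) (.l 38)) (.l 39)) (.l 35)) (.l 34)) (.l 34)) (.l 34)) (.l 34))) (.b 24 (.b 22 (.b 19 (.b 17 (.b 14 (.b 35 (.b 38 (.b 39 (.m 20 (.b 29 (.b 25 (.l 34) (.l 25)) (.l 29))) (.l 39)) (.l 38)) (.l 35)) (.l 34)) (.l 34)) (.l 34)) (.l 34)) (.l 34)))) (.b 30 (.b 24 (.b 19 (.b 14 (.b 10 (.b 7 (.b 4 (.b 2 (.b 34 (.b 35 (.b 38 (.b 31 (.b 29 (.b 25 (.b 32 (.b 20 (.b 22 (.m 0 (.l 39)) (.l 22)) (.l 20)) (.l 32)) (.l 25)) (.l 29)) (.l 31)) (.l 38)) (.l 35)) (.b 28 (.b 35 (.b 38 (.b 31 (.b 29 (.b 25 (.l 34) (.l 25)) (.l 29)) (.l 31)) (.l 38)) (.l 35)) (.b 22 (.b 35 (.b 38 (.b 39 (.b 29 (.b 25 (.l 34) (.l 25)) (.l 29)) (.l 39)) (.l 38)) (.l 35)) (.l 34)))) (.l 37)) (.l 37)) (.l 37)) (.l 37)) (.l 37)) (.l 37)) (.l 37)) (.l 37))) (.l 40)) (.l 40)) (.l 40)) (.l 40)) (.l 40)) (.l 40))) (.b 16 (.b 12 (.b 8 (.b 5 (.b 3 (.b 1 (.b 0 (.b 37 (.b 30 (.b 39 (.b 38 (.m 22 (.b 26 (.b 35 (.m 20 (.b 31 (.l 34) (.l 31))) (.l 35)) (.b 18 (.b 11 (.b 6 (.b 32 (.b 31 (.b 34 (.m 17 (.l 35)) (.l 34)) (.l 31)) (.b 23 (.b 31 (.b 34 (.m 20 (.l 35)) (.l 34)) (.l 31)) (.b 15 (.b 34 (.m 20 (.l 35)) (.l 34)) (.l 32)))) (.b 2 (.b 32 (.b 31 (.b 34 (.m 17 (.l 35)) (.l 34)) (.l 31)) (.b 23 (.b 31 (.b 34 (.m 20 (.l 35)) (.l 34)) (.l 31)) (.l 32))) (.l 36))) (.b 6 (.b 2 (.b 32 (.b 31 (.b 34 (.m 17 (.l 35)) (.l 34)) (.l 31)) (.b 23 (.b 31 (.b 34 (.m 20 (.l 35)) (.l 34)) (.l 31)) (.l 32))) (.l 36)) (.l 36))) (.b 11 (.b 6 (.b 2 (.b 32 (.b 35 (.m 19 (.l 34)) (.l 35)) (.b 23 (.b 15 (.b 34 (.m 20 (.l 35)) (.l 34)) (.l 32)) (.l 32))) (.l 36)) (.l 36)) (.l 36))))) (.l 38)) (.b 32 (.b 38 (.b 29 (.b 26 (.b 31 (.b 34 (.b 35 (.m 15 (.l 39)) (.l 35)) (.l 34)) (.l 31)) (.b 23 (.b 31 (.b 34 (.b 35 (.m 16 (.l 39)) (.l 35)) (.l 34)) (.l 31)) (.b 20 (.b 18 (.b 31 (.b 34 (.b 28 (.l 39) (.l 28)) (.l 34)) (.l 31)) (.l 39)) (.l 39)))) (.b 26 (.b 35 (.b 31 (.b 34 (.m 17 (.l 39)) (.l 34)) (.l 31)) (.l 35)) (.b 23 (.b 20 (.b 18 (.b 31 (.b 34 (.b 28 (.l 39) (.l 28)) (.l 34)) (.l 31)) (.l 39)) (.l 39)) (.l 39)))) (.l 38)) (.b 29 (.b 38 (.b 26 (.b 23 (.b 31 (.b 34 (.b 35 (.m 20 (.l 39)) (.l 35)) (.l 34)) (.l 31)) (.b 20 (.b 18 (.b 31 (.b 34 (.b 28 (.l 39) (.l 28)) (.l 34)) (.l 31)) (.l 39)) (.l 39))) (.b 23 (.b 20 (.b 18 (.b 31 (.b 34 (.b 28 (.l 39) (.l 28)) (.l 34)) (.l 31)) (.l 39)) (.l 39)) (.l 39))) (.l 38)) (.b 26 (.b 38 (.b 23 (.b 20 (.b 18 (.b 31 (.b 34 (.b 28 (.l 39) (.l 28)) (.l 34)) (.l 31)) (.l 39)) (.l 39)) (.l 39)) (.l 38)) (.l 39))))) (.b 24 (.b 19 (.b 14 (.b 10 (.b 7 (.b 4 (.b 39 (.b 35 (.b 38 (.m 20 (.b 31 (.b 29 (.b 25 (.l 34) (.l 25)) (.l 29)) (.l 31))) (.l 38)) (.l 35)) (.b 32 (.b 35 (.l 39) (.l 35)) (.b 29 (.b 38 (.l 39) (.l 38)) (.b 26 (.b 35 (.l 39) (.l 35)) (.l 39))))) (.b 2 (.b 39 (.b 35 (.b 38 (.m 20 (.b 31 (.b 29 (.b 25 (.l 34) (.l 25)) (.l 29)) (.l 31))) (.l 38)) (.l 35)) (.b 32 (.b 35 (.l 39) (.l 35)) (.b 29 (.b 38 (.l 39) (.l 38)) (.l 39)))) (.l 30))) (.b 4 (.b 2 (.b 39 (.b 35 (.b 38 (.m 20 (.b 31 (.b 29 (.b 25 (.l 34) (.l 25)) (.l 29)) (.l 31))) (.l 38)) (.l 35)) (.b 32 (.b 35 (.l 39) (.l 35)) (.b 29 (.b 38 (.l 39) (.l 38)) (.l 39)))) (.l 30)) (.l 30))) (.b 7 (.b 4 (.b 2 (.b 38 (.b 35 (.b 39 (.m 20 (.b 31 (.b 28 (.b 25 (.b 29 (.l 34) (.l 29)) (.l 25)) (.b 22 (.b 25 (.b 29 (.l 34) (.l 29)) (.l 25)) (.l 34))) (.l 31))) (.l 39)) (.l 35)) (.b 31 (.b 35 (.l 38) (.l 35)) (.b 28 (.b 35 (.l 38) (.l 35)) (.l 38)))) (.l 30)) (.l 30)) (.l 30))) (.b 10 (.b 7 (.b 4 (.b 2 (.b 38 (.b 34 (.b 35 (.m 20 (.l 39)) (.l 35)) (.b 28 (.b 35 (.b 31 (.b 39 (.m 20 (.b 29 (.b 25 (.l 34) (.l 25)) (.l 29))) (.l 39)) (.l 31)) (.l 35)) (.b 22 (.b 35 (.b 39 (.m 20 (.b 31 (.b 29 (.b 25 (.l 34) (.l 25)) (.l 29)) (.l 31))) (.l 39)) (.l 35)) (.l 34)))) (.b 31 (.b 28 (.b 35 (.l 38) (.l 35)) (.b 25 (.b 39 (.l 38) (.l 39)) (.l 38))) (.b 28 (.b 25 (.b 39 (.l 38) (.l 39)) (.l 38)) (.l 38)))) (.l 30)) (.l 30)) (.l 30)) (.l 30))) (.b 14 (.b 10 (.b 7 (.b 4 (.b 2 (.b 38 (.b 34 (.b 35 (.m 20 (.l 39)) (.l 35)) (.b 28 (.b 35 (.b 39 (.m 20 (.b 31 (.b 29 (.b 25 (.l 34) (.l 25)) (.l 29)) (.l 31))) (.l 39)) (.l 35)) (.b 22 (.b 35 (.b 39 (.m 20 (.b 17 (.b 29 (.b 31 (.b 25 (.l 34) (.l 25)) (.l 31)) (.l 29)) (.l 34))) (.l 39)) (.l 35)) (.l 34)))) (.b 31 (.b 28 (.b 35 (.l 38) (.l 35)) (.b 25 (.b 39 (.l 38) (.l 39)) (.l 38))) (.b 28 (.b 25 (.b 39 (.l 38) (.l 39)) (.l 38)) (.l 38)))) (.l 30)) (.l 30)) (.l 30)) (.l 30)) (.l 30))) (.b 19 (.b 14 (.b 10 (.b 7 (.b 4 (.b 2 (.b 34 (.b 39 (.b 35 (.m 20 (.l 38)) (.l 35)) (.b 32 (.b 35 (.l 39) (.l 35)) (.b 29 (.b 38 (.l 39) (.l 38)) (.b 26 (.b 35 (.l 39) (.l 35)) (.l 39))))) (.b 28 (.b 22 (.b 35 (.b 39 (.b 38 (.m 20 (.b 29 (.b 25 (.b 31 (.l 34) (.l 31)) (.l 25)) (.l 29))) (.l 38)) (.l 39)) (.l 35)) (.b 17 (.b 39 (.b 35 (.b 38 (.m 20 (.b 29 (.b 31 (.b 25 (.l 34) (.l 25)) (.l 31)) (.l 29))) (.l 38)) (.l 35)) (.l 39)) (.l 34))) (.b 22 (.b 17 (.b 39 (.b 35 (.b 38 (.m 20 (.b 29 (.b 31 (.b 25 (.l 34) (.l 25)) (.l 31)) (.l 29))) (.l 38)) (.l 35)) (.l 39)) (.l 34)) (.l 34)))) (.l 30)) (.l 30)) (.l 30)) (.l 30)) (.l 30)) (.l 30)))) (.b 30 (.b 24 (.b 19 (.b 14 (.b 10 (.b 7 (.b 4 (.b 2 (.b 39 (.b 35 (.b 38 (.b 31 (.b 29 (.b 25 (.b 32 (.b 20 (.b 22 (.m 0 (.l 36)) (.l 22)) (.l 20)) (.l 32)) (.l 25)) (.l 29)) (.l 31)) (.l 38)) (.l 35)) (.b 32 (.b 35 (.l 39) (.l 35)) (.b 29 (.b 38 (.l 39) (.l 38)) (.b 26 (.b 35 (.l 39) (.l 35)) (.l 39))))) (.l 37)) (.l 37)) (.l 37)) (.l 37)) (.l 37)) (.l 37)) (.l 37)) (.l 37))) (.l 40)) (.l 40)) (.l 40)) (.l 40)) (.l 40)) (.l 40)) (.l 40)))) (.b 27 (.b 21 (.b 16 (.b 12 (.b 8 (.b 5 (.b 3 (.b 1 (.b 39 (.b 38 (.b 37 (.m 22 (.b 26 (.b 35 (.b 31 (.b 34 (.b 18 (.b 25 (.b 28 (.b 22 (.b 20 (.b 17 (.b 23 (.b 13 (.b 14 (.l 36) (.l 14)) (.l 13)) (.l 23)) (.l 17)) (.l 20)) (.l 22)) (.l 28)) (.l 25)) (.b 11 (.b 28 (.b 25 (.b 22 (.b 29 (.m 14 (.l 32)) (.l 29)) (.l 22)) (.l 25)) (.l 28)) (.b 6 (.b 2 (.b 0 (.b 32 (.b 25 (.b 28 (.m 14 (.l 29)) (.l 28)) (.l 25)) (.b 23 (.b 25 (.b 28 (.b 22 (.b 20 (.l 32) (.l 20)) (.l 22)) (.l 28)) (.l 25)) (.l 32))) (.l 36)) (.l 36)) (.l 36)))) (.l 34)) (.l 31)) (.l 35)) (.b 18 (.b 11 (.b 6 (.b 2 (.b 32 (.b 31 (.b 34 (.b 28 (.b 25 (.b 22 (.b 29 (.b 17 (.b 19 (.b 13 (.m 0 (.l 35)) (.l 13)) (.l 19)) (.l 17)) (.l 29)) (.l 22)) (.l 25)) (.l 28)) (.l 34)) (.l 31)) (.b 23 (.b 31 (.b 34 (.b 28 (.b 25 (.b 22 (.b 29 (.b 17 (.l 32) (.l 17)) (.l 29)) (.l 22)) (.l 25)) (.l 28)) (.l 34)) (.l 31)) (.b 15 (.b 34 (.b 31 (.b 28 (.b 35 (.b 22 (.b 25 (.b 17 (.l 32) (.l 17)) (.l 25)) (.l 22)) (.l 35)) (.l 28)) (.l 31)) (.l 34)) (.l 32)))) (.b 0 (.b 32 (.b 31 (.b 34 (.b 28 (.b 25 (.b 22 (.b 29 (.b 17 (.b 19 (.b 13 (.m 0 (.l 35)) (.l 13)) (.l 19)) (.l 17)) (.l 29)) (.l 22)) (.l 25)) (.l 28)) (.l 34)) (.l 31)) (.b 23 (.b 31 (.b 34 (.b 28 (.b 25 (.b 22 (.b 29 (.b 17 (.l 32) (.l 17)) (.l 29)) (.l 22)) (.l 25)) (.l 28)) (.l 34)) (.l 31)) (.l 32))) (.l 36))) (.b 2 (.b 0 (.b 32 (.b 31 (.b 34 (.b 28 (.b 25 (.b 22 (.b 29 (.b 17 (.b 20 (.b 13 (.m 0 (.l 35)) (.l 13)) (.l 20)) (.l 17)) (.l 29)) (.l 22)) (.l 25)) (.l 28)) (.l 34)) (.l 31)) (.b 23 (.b 31 (.b 34 (.b 28 (.b 25 (.b 22 (.b 29 (.b 17 (.l 32) (.l 17)) (.l 29)) (.l 22)) (.l 25)) (.l 28)) (.l 34)) (.l 31)) (.l 32))) (.l 36)) (.l 36))) (.b 6 (.b 2 (.b 0 (.b 32 (.b 31 (.b 34 (.b 35 (.b 25 (.b 28 (.b 22 (.b 20 (.b 17 (.b 19 (.m 0 (.l 30)) (.l 19)) (.l 17)) (.l 20)) (.l 22)) (.l 28)) (.l 25)) (.l 35)) (.l 34)) (.l 31)) (.b 23 (.b 31 (.b 34 (.b 35 (.b 25 (.b 28 (.b 22 (.b 20 (.l 32) (.l 20)) (.l 22)) (.l 28)) (.l 25)) (.l 35)) (.l 34)) (.l 31)) (.l 32))) (.l 36)) (.l 36)) (.l 36))) (.b 11 (.b 6 (.b 2 (.b 0 (.b 32 (.b 35 (.b 31 (.b 34 (.b 28 (.b 25 (.b 22 (.b 29 (.m 14 (.l 30)) (.l 29)) (.l 22)) (.l 25)) (.l 28)) (.l 34)) (.l 31)) (.l 35)) (.b 23 (.b 15 (.b 34 (.b 31 (.b 28 (.b 35 (.b 22 (.b 25 (.b 17 (.l 32) (.l 17)) (.l 25)) (.l 22)) (.l 35)) (.l 28)) (.l 31)) (.l 34)) (.l 32)) (.l 32))) (.l 36)) (.l 36)) (.l 36)) (.l 36))))) (.b 30 (.b 24 (.b 35 (.b 31 (.b 19 (.b 14 (.b 25 (.b 29 (.b 28 (.b 20 (.b 17 (.b 22 (.b 13 (.l 37) (.l 13)) (.l 22)) (.l 17)) (.l 20)) (.l 28)) (.l 29)) (.l 25)) (.b 10 (.b 29 (.b 25 (.b 28 (.b 20 (.b 22 (.b 17 (.b 13 (.l 37) (.l 13)) (.l 17)) (.l 22)) (.l 20)) (.l 28)) (.l 25)) (.l 29)) (.b 7 (.b 4 (.b 2 (.b 0 (.b 34 (.b 25 (.b 28 (.b 22 (.b 20 (.b 17 (.m 0 (.l 36)) (.l 17)) (.l 20)) (.l 22)) (.l 28)) (.l 25)) (.b 28 (.b 25 (.l 34) (.l 25)) (.l 34))) (.l 37)) (.l 37)) (.l 37)) (.l 37)))) (.b 14 (.b 10 (.b 29 (.b 25 (.b 28 (.b 20 (.b 22 (.b 17 (.b 13 (.l 37) (.l 13)) (.l 17)) (.l 22)) (.l 20)) (.l 28)) (.l 25)) (.l 29)) (.b 7 (.b 4 (.b 2 (.b 0 (.b 34 (.b 25 (.b 28 (.b 29 (.b 20 (.b 17 (.m 0 (.l 36)) (.l 17)) (.l 20)) (.l 29)) (.l 28)) (.l 25)) (.b 28 (.b 25 (.l 34) (.l 25)) (.l 34))) (.l 37)) (.l 37)) (.l 37)) (.l 37))) (.b 10 (.b 7 (.b 4 (.b 2 (.b 0 (.b 34 (.b 29 (.b 25 (.b 28 (.b 20 (.b 22 (.m 0 (.l 36)) (.l 22)) (.l 20)) (.l 28)) (.l 25)) (.l 29)) (.b 28 (.b 29 (.l 34) (.l 29)) (.l 34))) (.l 37)) (.l 37)) (.l 37)) (.l 37)) (.l 37)))) (.l 31)) (.l 35)) (.b 19 (.b 35 (.b 31 (.b 14 (.b 10 (.b 29 (.b 25 (.b 32 (.b 20 (.b 22 (.b 17 (.b 13 (.l 37) (.l 13)) (.l 17)) (.l 22)) (.l 20)) (.l 32)) (.l 25)) (.l 29)) (.b 7 (.b 4 (.b 2 (.b 0 (.b 34 (.b 25 (.b 29 (.b 28 (.b 20 (.b 17 (.m 0 (.l 36)) (.l 17)) (.l 20)) (.l 28)) (.l 29)) (.l 25)) (.b 28 (.b 25 (.l 34) (.l 25)) (.l 34))) (.l 37)) (.l 37)) (.l 37)) (.l 37))) (.b 10 (.b 7 (.b 4 (.b 2 (.b 0 (.b 34 (.b 29 (.b 25 (.b 28 (.b 20 (.b 22 (.m 0 (.l 36)) (.l 22)) (.l 20)) (.l 28)) (.l 25)) (.l 29)) (.b 28 (.b 29 (.l 34) (.l 29)) (.l 34))) (.l 37)) (.l 37)) (.l 37)) (.l 37)) (.l 37))) (.l 31)) (.l 35)) (.b 14 (.b 35 (.b 10 (.b 7 (.b 4 (.b 2 (.b 0 (.b 34 (.b 31 (.b 29 (.b 25 (.b 28 (.b 20 (.b 22 (.m 0 (.l 36)) (.l 22)) (.l 20)) (.l 28)) (.l 25)) (.l 29)) (.l 31)) (.b 28 (.b 31 (.b 29 (.l 34) (.l 29)) (.l 31)) (.l 34))) (.l 37)) (.l 37)) (.l 37)) (.l 37)) (.l 37)) (.l 35)) (.l 37)))) (.b 24 (.b 19 (.b 35 (.b 31 (.b 14 (.b 10 (.b 29 (.b 25 (.b 32 (.b 20 (.b 22 (.b 17 (.b 13 (.l 37) (.l 13)) (.l 17)) (.l 22)) (.l 20)) (.l 32)) (.l 25)) (.l 29)) (.b 7 (.b 4 (.b 2 (.b 0 (.b 34 (.b 25 (.b 29 (.b 28 (.b 20 (.b 17 (.m 0 (.l 36)) (.l 17)) (.l 20)) (.l 28)) (.l 29)) (.l 25)) (.b 28 (.b 25 (.b 29 (.l 34) (.l 29)) (.l 25)) (.b 22 (.b 25 (.b 29 (.l 34) (.l 29)) (.l 25)) (.l 34)))) (.l 37)) (.l 37)) (.l 37)) (.l 37))) (.b 10 (.b 7 (.b 4 (.b 2 (.b 0 (.b 34 (.b 29 (.b 25 (.b 28 (.b 20 (.b 22 (.m 0 (.l 36)) (.l 22)) (.l 20)) (.l 28)) (.l 25)) (.l 29)) (.b 28 (.b 29 (.b 25 (.l 34) (.l 25)) (.l 29)) (.b 22 (.b 29 (.b 25 (.l 34) (.l 25)) (.l 29)) (.l 34)))) (.l 37)) (.l 37)) (.l 37)) (.l 37)) (.l 37))) (.l 31)) (.l 35)) (.b 14 (.b 35 (.b 10 (.b 7 (.b 4 (.b 2 (.b 0 (.b 34 (.b 31 (.b 29 (.b 25 (.b 28 (.b 20 (.b 22 (.m 0 (.l 36)) (.l 22)) (.l 20)) (.l 28)) (.l 25)) (.l 29)) (.l 31)) (.b 28 (.b 31 (.b 29 (.b 25 (.l 34) (.l 25)) (.l 29)) (.l 31)) (.b 22 (.b 17 (.b 29 (.b 31 (.b 25 (.l 34) (.l 25)) (.l 31)) (.l 29)) (.l 34)) (.l 34)))) (.l 37)) (.l 37)) (.l 37)) (.l 37)) (.l 37)) (.l 35)) (.l 37))) (.b 19 (.b 14 (.b 35 (.b 10 (.b 7 (.b 4 (.b 2 (.b 0 (.b 34 (.b 31 (.b 29 (.b 25 (.b 32 (.b 20 (.b 22 (.m 0 (.l 36)) (.l 22)) (.l 20)) (.l 32)) (.l 25)) (.l 29)) (.l 31)) (.b 28 (.b 31 (.b 29 (.b 25 (.l 34) (.l 25)) (.l 29)) (.l 31)) (.b 22 (.b 17 (.b 29 (.b 31 (.b 25 (.l 34) (.l 25)) (.l 31)) (.l 29)) (.l 34)) (.l 34)))) (.l 37)) (.l 37)) (.l 37)) (.l 37)) (.l 37)) (.l 35)) (.l 37)) (.l 37))))) (.b 31 (.b 28 (.b 25 (.b 22 (.b 35 (.l 38) (.l 35)) (.b 20 (.b 19 (.b 35 (.l 38) (.l 35)) (.b 17 (.b 15 (.b 14 (.b 35 (.l 38) (.l 35)) (.l 38)) (.l 38)) (.l 38))) (.b 19 (.b 35 (.l 38) (.l 35)) (.l 38)))) (.b 22 (.b 35 (.l 38) (.l 35)) (.b 20 (.b 19 (.b 35 (.l 38) (.l 35)) (.l 38)) (.l 38)))) (.b 25 (.b 22 (.b 20 (.b 19 (.b 35 (.l 38) (.l 35)) (.b 17 (.b 15 (.b 14 (.b 35 (.l 38) (.l 35)) (.l 38)) (.l 38)) (.l 38))) (.b 19 (.b 35 (.l 38) (.l 35)) (.l 38))) (.b 20 (.b 19 (.b 17 (.b 15 (.b 14 (.b 35 (.l 38) (.l 35)) (.l 38)) (.l 38)) (.l 38)) (.l 38)) (.l 38))) (.b 22 (.b 20 (.b 19 (.b 35 (.l 38) (.l 35)) (.l 38)) (.l 38)) (.l 38)))) (.b 28 (.b 25 (.b 22 (.b 20 (.b 19 (.b 35 (.l 38) (.l 35)) (.b 17 (.b 15 (.b 14 (.b 35 (.l 38) (.l 35)) (.l 38)) (.l 38)) (.l 38))) (.b 19 (.b 35 (.l 38) (.l 35)) (.l 38))) (.b 20 (.b 19 (.b 17 (.b 15 (.b 14 (.b 35 (.l 38) (.l 35)) (.l 38)) (.l 38)) (.l 38)) (.l 38)) (.l 38))) (.b 22 (.b 20 (.b 19 (.b 35 (.l 38) (.l 35)) (.l 38)) (.l 38)) (.l 38))) (.b 25 (.b 22 (.b 20 (.b 19 (.b 17 (.b 15 (.b 14 (.b 35 (.l 38) (.l 35)) (.l 38)) (.l 38)) (.l 38)) (.l 38)) (.l 38)) (.l 38)) (.l 38))))) (.b 32 (.b 29 (.b 38 (.b 26 (.b 23 (.b 31 (.b 34 (.b 35 (.b 25 (.l 39) (.l 25)) (.l 35)) (.l 34)) (.l 31)) (.b 20 (.b 18 (.b 31 (.b 34 (.b 28 (.b 25 (.l 39) (.l 25)) (.l 28)) (.l 34)) (.l 31)) (.b 15 (.b 34 (.b 31 (.b 28 (.b 35 (.l 39) (.l 35)) (.l 28)) (.l 31)) (.l 34)) (.l 39))) (.b 18 (.b 31 (.b 34 (.b 35 (.b 25 (.l 39) (.l 25)) (.l 35)) (.l 34)) (.l 31)) (.l 39)))) (.b 23 (.b 20 (.b 18 (.b 31 (.b 34 (.b 28 (.b 25 (.l 39) (.l 25)) (.l 28)) (.l 34)) (.l 31)) (.b 15 (.b 34 (.b 31 (.b 28 (.b 35 (.l 39) (.l 35)) (.l 28)) (.l 31)) (.l 34)) (.l 39))) (.b 18 (.b 31 (.b 34 (.b 35 (.b 25 (.l 39) (.l 25)) (.l 35)) (.l 34)) (.l 31)) (.l 39))) (.b 20 (.b 18 (.b 15 (.b 34 (.b 31 (.b 28 (.b 35 (.l 39) (.l 35)) (.l 28)) (.l 31)) (.l 34)) (.l 39)) (.l 39)) (.l 39)))) (.l 38)) (.b 26 (.b 38 (.b 23 (.b 20 (.b 18 (.b 31 (.b 34 (.b 28 (.b 25 (.l 39) (.l 25)) (.l 28)) (.l 34)) (.l 31)) (.b 15 (.b 34 (.b 31 (.b 28 (.b 35 (.l 39) (.l 35)) (.l 28)) (.l 31)) (.l 34)) (.l 39))) (.b 18 (.b 31 (.b 34 (.b 35 (.b 25 (.l 39) (.l 25)) (.l 35)) (.l 34)) (.l 31)) (.l 39))) (.b 20 (.b 18 (.b 15 (.b 34 (.b 31 (.b 28 (.b 35 (.l 39) (.l 35)) (.l 28)) (.l 31)) (.l 34)) (.l 39)) (.l 39)) (.l 39))) (.l 38)) (.b 23 (.b 38 (.b 20 (.b 18 (.b 15 (.b 34 (.b 31 (.b 28 (.b 35 (.l 39) (.l 35)) (.l 28)) (.l 31)) (.l 34)) (.l 39)) (.l 39)) (.l 39)) (.l 38)) (.l 39)))) (.b 29 (.b 26 (.b 38 (.b 23 (.b 20 (.b 18 (.b 31 (.b 34 (.b 28 (.b 25 (.l 39) (.l 25)) (.l 28)) (.l 34)) (.l 31)) (.b 15 (.b 34 (.b 31 (.b 28 (.b 35 (.l 39) (.l 35)) (.l 28)) (.l 31)) (.l 34)) (.l 39))) (.b 18 (.b 31 (.b 34 (.b 35 (.b 25 (.l 39) (.l 25)) (.l 35)) (.l 34)) (.l 31)) (.l 39))) (.b 20 (.b 18 (.b 15 (.b 34 (.b 31 (.b 28 (.b 35 (.l 39) (.l 35)) (.l 28)) (.l 31)) (.l 34)) (.l 39)) (.l 39)) (.l 39))) (.l 38)) (.b 23 (.b 38 (.b 20 (.b 18 (.b 15 (.b 34 (.b 31 (.b 28 (.b 35 (.l 39) (.l 35)) (.l 28)) (.l 31)) (.l 34)) (.l 39)) (.l 39)) (.l 39)) (.l 38)) (.l 39))) (.b 26 (.b 23 (.b 38 (.b 20 (.b 18 (.b 15 (.b 34 (.b 31 (.b 28 (.b 35 (.l 39) (.l 35)) (.l 28)) (.l 31)) (.l 34)) (.l 39)) (.l 39)) (.l 39)) (.l 38)) (.l 39)) (.l 39))))) (.b 0 (.b 39 (.b 38 (.b 37 (.m 22 (.b 26 (.b 35 (.b 31 (.b 34 (.b 18 (.b 25 (.b 28 (.b 22 (.b 20 (.b 17 (.b 23 (.b 13 (.b 14 (.b 9 (.m 0 (.l 36)) (.l 9)) (.l 14)) (.l 13)) (.l 23)) (.l 17)) (.l 20)) (.l 22)) (.l 28)) (.l 25)) (.b 11 (.b 28 (.b 25 (.b 22 (.b 29 (.m 14 (.l 32)) (.l 29)) (.l 22)) (.l 25)) (.l 28)) (.b 23 (.b 25 (.b 28 (.b 22 (.b 20 (.b 17 (.b 24 (.m 10 (.l 32)) (.l 24)) (.l 17)) (.l 20)) (.l 22)) (.l 28)) (.l 25)) (.l 23)))) (.l 34)) (.l 31)) (.l 35)) (.b 18 (.b 11 (.b 6 (.b 32 (.b 31 (.b 34 (.b 28 (.b 25 (.b 22 (.b 29 (.b 17 (.b 19 (.b 13 (.b 10 (.m 0 (.l 35)) (.l 10)) (.l 13)) (.l 19)) (.l 17)) (.l 29)) (.l 22)) (.l 25)) (.l 28)) (.l 34)) (.l 31)) (.b 23 (.b 31 (.b 34 (.b 28 (.b 25 (.b 22 (.b 29 (.b 17 (.l 32) (.l 17)) (.l 29)) (.l 22)) (.l 25)) (.l 28)) (.l 34)) (.l 31)) (.l 32))) (.b 32 (.b 31 (.b 34 (.b 28 (.b 25 (.b 22 (.b 29 (.b 17 (.b 20 (.b 13 (.b 14 (.b 9 (.m 0 (.l 36)) (.l 9)) (.l 14)) (.l 13)) (.l 20)) (.l 17)) (.l 29)) (.l 22)) (.l 25)) (.l 28)) (.l 34)) (.l 31)) (.l 32))) (.b 32 (.b 31 (.b 34 (.b 35 (.b 25 (.b 28 (.b 22 (.b 20 (.b 17 (.b 23 (.b 13 (.b 14 (.l 36) (.l 14)) (.l 13)) (.l 23)) (.l 17)) (.l 20)) (.l 22)) (.l 28)) (.l 25)) (.l 35)) (.l 34)) (.l 31)) (.l 32))) (.b 32 (.b 35 (.b 31 (.b 34 (.b 11 (.b 28 (.b 25 (.b 22 (.b 29 (.m 14 (.l 30)) (.l 29)) (.l 22)) (.l 25)) (.l 28)) (.l 36)) (.l 34)) (.l 31)) (.l 35)) (.l 32))))) (.b 30 (.b 24 (.b 35 (.b 31 (.b 19 (.b 14 (.b 25 (.b 29 (.b 28 (.b 20 (.b 17 (.b 22 (.b 13 (.l 37) (.l 13)) (.l 22)) (.l 17)) (.l 20)) (.l 28)) (.l 29)) (.l 25)) (.b 10 (.b 29 (.b 25 (.b 28 (.b 20 (.b 22 (.b 17 (.b 13 (.l 37) (.l 13)) (.l 17)) (.l 22)) (.l 20)) (.l 28)) (.l 25)) (.l 29)) (.l 37))) (.b 14 (.b 10 (.b 29 (.b 25 (.b 28 (.b 20 (.b 22 (.b 17 (.b 13 (.l 37) (.l 13)) (.l 17)) (.l 22)) (.l 20)) (.l 28)) (.l 25)) (.l 29)) (.l 37)) (.l 37))) (.l 31)) (.l 35)) (.b 19 (.b 35 (.b 31 (.b 14 (.b 10 (.b 29 (.b 25 (.b 32 (.b 20 (.b 22 (.b 17 (.b 13 (.l 37) (.l 13)) (.l 17)) (.l 22)) (.l 20)) (.l 32)) (.l 25)) (.l 29)) (.l 37)) (.l 37)) (.l 31)) (.l 35)) (.l 37))) (.b 24 (.b 19 (.b 35 (.b 31 (.b 14 (.b 10 (.b 29 (.b 25 (.b 32 (.b 20 (.b 22 (.b 17 (.b 13 (.l 37) (.l 13)) (.l 17)) (.l 22)) (.l 20)) (.l 32)) (.l 25)) (.l 29)) (.l 37)) (.l 37)) (.l 31)) (.l 35)) (.l 37)) (.l 37)))) (.b 31 (.b 28 (.b 25 (.b 22 (.b 35 (.l 38) (.l 35)) (.b 20 (.b 19 (.b 35 (.l 38) (.l 35)) (.l 38)) (.l 38))) (.b 22 (.b 35 (.l 38) (.l 35)) (.l 38))) (.b 25 (.b 22 (.b 20 (.b 19 (.b 35 (.l 38) (.l 35)) (.l 38)) (.l 38)) (.l 38)) (.l 38))) (.b 28 (.b 25 (.b 22 (.b 20 (.b 19 (.b 35 (.l 38) (.l 35)) (.l 38)) (.l 38)) (.l 38)) (.l 38)) (.l 38)))) (.b 32 (.b 29 (.b 38 (.b 26 (.b 23 (.b 31 (.b 34 (.b 35 (.b 25 (.l 39) (.l 25)) (.l 35)) (.l 34)) (.l 31)) (.b 20 (.b 18 (.b 31 (.b 34 (.b 28 (.b 25 (.l 39) (.l 25)) (.l 28)) (.l 34)) (.l 31)) (.l 39)) (.l 39))) (.b 23 (.b 20 (.b 18 (.b 31 (.b 34 (.b 28 (.b 25 (.l 39) (.l 25)) (.l 28)) (.l 34)) (.l 31)) (.l 39)) (.l 39)) (.l 39))) (.l 38)) (.b 26 (.b 38 (.b 23 (.b 20 (.b 18 (.b 31 (.b 34 (.b 28 (.b 25 (.l 39) (.l 25)) (.l 28)) (.l 34)) (.l 31)) (.l 39)) (.l 39)) (.l 39)) (.l 38)) (.l 39))) (.b 29 (.b 26 (.b 38 (.b 23 (.b 20 (.b 18 (.b 31 (.b 34 (.b 28 (.b 25 (.l 39) (.l 25)) (.l 28)) (.l 34)) (.l 31)) (.l 39)) (.l 39)) (.l 39)) (.l 38)) (.l 39)) (.l 39)))) (.l 40))) (.b 1 (.b 0 (.b 39 (.b 38 (.b 37 (.m 22 (.b 26 (.b 35 (.b 31 (.b 34 (.b 18 (.b 25 (.b 28 (.b 22 (.b 20 (.b 17 (.b 24 (.b 13 (.b 14 (.b 10 (.m 0 (.l 36)) (.l 10)) (.l 14)) (.l 13)) (.l 24)) (.l 17)) (.l 20)) (.l 22)) (.l 28)) (.l 25)) (.b 11 (.b 28 (.b 25 (.b 22 (.b 29 (.m 14 (.l 30)) (.l 29)) (.l 22)) (.l 25)) (.l 28)) (.b 29 (.b 25 (.b 28 (.m 14 (.b 22 (.b 20 (.l 32) (.l 20)) (.l 22))) (.l 28)) (.l 25)) (.l 29)))) (.l 34)) (.l 31)) (.l 35)) (.b 18 (.b 11 (.b 6 (.b 35 (.b 31 (.b 34 (.b 28 (.b 25 (.b 22 (.b 29 (.b 17 (.b 19 (.b 13 (.b 10 (.m 0 (.l 32)) (.l 10)) (.l 13)) (.l 19)) (.l 17)) (.l 29)) (.l 22)) (.l 25)) (.l 28)) (.l 34)) (.l 31)) (.b 29 (.b 31 (.l 35) (.l 31)) (.b 25 (.b 34 (.l 35) (.l 34)) (.l 35)))) (.b 2 (.b 35 (.b 31 (.b 34 (.b 28 (.b 25 (.b 22 (.b 29 (.b 17 (.b 20 (.b 13 (.b 14 (.m 0 (.l 32)) (.l 14)) (.l 13)) (.l 20)) (.l 17)) (.l 29)) (.l 22)) (.l 25)) (.l 28)) (.l 34)) (.l 31)) (.b 29 (.b 31 (.l 35) (.l 31)) (.l 35))) (.l 36))) (.b 6 (.b 2 (.b 35 (.b 31 (.b 34 (.b 32 (.b 25 (.b 28 (.b 22 (.b 20 (.b 17 (.b 19 (.b 13 (.m 0 (.l 30)) (.l 13)) (.l 19)) (.l 17)) (.l 20)) (.l 22)) (.l 28)) (.l 25)) (.b 23 (.b 25 (.b 28 (.b 22 (.b 20 (.b 17 (.l 32) (.l 17)) (.l 20)) (.l 22)) (.l 28)) (.l 25)) (.l 32))) (.l 34)) (.l 31)) (.b 29 (.b 31 (.l 35) (.l 31)) (.l 35))) (.l 36)) (.l 36))) (.b 11 (.b 6 (.b 2 (.b 35 (.b 32 (.b 31 (.b 34 (.b 28 (.b 25 (.b 22 (.b 29 (.m 14 (.l 30)) (.l 29)) (.l 22)) (.l 25)) (.l 28)) (.l 34)) (.l 31)) (.b 23 (.b 31 (.b 34 (.b 28 (.b 25 (.b 22 (.b 29 (.b 17 (.l 32) (.l 17)) (.l 29)) (.l 22)) (.l 25)) (.l 28)) (.l 34)) (.l 31)) (.l 32))) (.b 29 (.b 25 (.b 34 (.l 35) (.l 34)) (.l 35)) (.l 35))) (.l 36)) (.l 36)) (.l 36))))) (.b 30 (.b 24 (.b 35 (.b 31 (.b 19 (.b 14 (.b 25 (.b 29 (.b 28 (.b 20 (.b 17 (.b 22 (.b 13 (.l 37) (.l 13)) (.l 22)) (.l 17)) (.l 20)) (.l 28)) (.l 29)) (.l 25)) (.b 10 (.b 29 (.b 25 (.b 28 (.b 20 (.b 22 (.b 17 (.b 13 (.l 37) (.l 13)) (.l 17)) (.l 22)) (.l 20)) (.l 28)) (.l 25)) (.l 29)) (.l 37))) (.b 14 (.b 10 (.b 29 (.b 25 (.b 28 (.b 20 (.b 22 (.b 17 (.b 13 (.l 37) (.l 13)) (.l 17)) (.l 22)) (.l 20)) (.l 28)) (.l 25)) (.l 29)) (.l 37)) (.l 37))) (.l 31)) (.l 35)) (.b 19 (.b 35 (.b 31 (.b 14 (.b 10 (.b 29 (.b 25 (.b 34 (.b 20 (.b 22 (.b 17 (.b 13 (.l 37) (.l 13)) (.l 17)) (.l 22)) (.l 20)) (.l 34)) (.l 25)) (.l 29)) (.l 37)) (.l 37)) (.l 31)) (.l 35)) (.l 37))) (.b 24 (.b 19 (.b 35 (.b 31 (.b 14 (.b 10 (.b 29 (.b 25 (.b 34 (.b 20 (.b 22 (.b 17 (.b 13 (.l 37) (.l 13)) (.l 17)) (.l 22)) (.l 20)) (.l 34)) (.l 25)) (.l 29)) (.l 37)) (.l 37)) (.l 31)) (.l 35)) (.l 37)) (.l 37)))) (.b 31 (.b 28 (.b 25 (.b 22 (.b 35 (.l 38) (.l 35)) (.b 20 (.b 19 (.b 35 (.l 38) (.l 35)) (.l 38)) (.l 38))) (.b 22 (.b 35 (.l 38) (.l 35)) (.l 38))) (.b 25 (.b 22 (.b 20 (.b 19 (.b 35 (.l 38) (.l 35)) (.l 38)) (.l 38)) (.l 38)) (.l 38))) (.b 28 (.b 25 (.b 22 (.b 20 (.b 19 (.b 35 (.l 38) (.l 35)) (.l 38)) (.l 38)) (.l 38)) (.l 38)) (.l 38)))) (.b 32 (.b 29 (.b 38 (.b 26 (.b 23 (.b 31 (.b 34 (.b 35 (.b 25 (.l 39) (.l 25)) (.l 35)) (.l 34)) (.l 31)) (.b 20 (.b 18 (.b 31 (.b 34 (.b 28 (.b 25 (.l 39) (.l 25)) (.l 28)) (.l 34)) (.l 31)) (.l 39)) (.l 39))) (.b 23 (.b 20 (.b 18 (.b 31 (.b 34 (.b 28 (.b 25 (.l 39) (.l 25)) (.l 28)) (.l 34)) (.l 31)) (.l 39)) (.l 39)) (.l 39))) (.l 38)) (.b 26 (.b 38 (.b 23 (.b 20 (.b 18 (.b 31 (.b 34 (.b 28 (.b 25 (.l 39) (.l 25)) (.l 28)) (.l 34)) (.l 31)) (.l 39)) (.l 39)) (.l 39)) (.l 38)) (.l 39))) (.b 29 (.b 26 (.b 38 (.b 23 (.b 20 (.b 18 (.b 31 (.b 34 (.b 28 (.b 25 (.l 39) (.l 25)) (.l 28)) (.l 34)) (.l 31)) (.l 39)) (.l 39)) (.l 39)) (.l 38)) (.l 39)) (.l 39)))) (.l 40)) (.l 40))) (.b 3 (.b 1 (.b 0 (.b 38 (.b 37 (.b 35 (.b 34 (.b 31 (.b 30 (.b 39 (.m 20 (.b 26 (.b 25 (.b 28 (.m 14 (.l 29)) (.l 28)) (.l 25)) (.b 18 (.b 25 (.b 28 (.b 22 (.b 29 (.m 14 (.l 32)) (.l 29)) (.l 22)) (.l 28)) (.l 25)) (.b 11 (.b 28 (.b 25 (.b 22 (.b 29 (.m 14 (.l 32)) (.l 29)) (.l 22)) (.l 25)) (.l 28)) (.l 36))))) (.l 39)) (.b 24 (.b 39 (.m 20 (.b 19 (.b 25 (.b 28 (.b 22 (.b 29 (.b 17 (.b 20 (.l 30) (.l 20)) (.l 17)) (.l 29)) (.l 22)) (.l 28)) (.l 25)) (.b 14 (.b 25 (.b 28 (.b 29 (.b 22 (.b 17 (.b 20 (.l 30) (.l 20)) (.l 17)) (.l 22)) (.l 29)) (.l 28)) (.l 25)) (.l 30)))) (.l 39)) (.b 19 (.b 39 (.m 20 (.b 14 (.b 25 (.b 29 (.b 28 (.b 22 (.b 17 (.b 20 (.l 30) (.l 20)) (.l 17)) (.l 22)) (.l 28)) (.l 29)) (.l 25)) (.l 30))) (.l 39)) (.l 30)))) (.b 25 (.b 22 (.b 39 (.m 20 (.l 31)) (.l 39)) (.b 20 (.b 17 (.b 39 (.m 20 (.l 31)) (.l 39)) (.l 31)) (.l 31))) (.b 22 (.b 20 (.b 17 (.b 39 (.m 20 (.l 31)) (.l 39)) (.l 31)) (.l 31)) (.l 31)))) (.b 28 (.b 24 (.b 31 (.b 39 (.m 21 (.b 22 (.b 25 (.l 34) (.l 25)) (.b 19 (.b 25 (.l 34) (.l 25)) (.l 34)))) (.l 39)) (.l 31)) (.b 22 (.b 19 (.b 31 (.b 39 (.m 21 (.b 25 (.l 34) (.l 25))) (.l 39)) (.l 31)) (.l 34)) (.l 34))) (.b 24 (.b 22 (.b 19 (.b 31 (.b 39 (.m 21 (.b 25 (.l 34) (.l 25))) (.l 39)) (.l 31)) (.l 34)) (.l 34)) (.l 34)))) (.b 29 (.b 25 (.b 23 (.b 20 (.b 34 (.b 31 (.l 35) (.l 31)) (.l 34)) (.b 18 (.b 31 (.b 34 (.l 35) (.l 34)) (.l 31)) (.l 35))) (.b 20 (.b 18 (.b 34 (.b 31 (.l 35) (.l 31)) (.l 34)) (.l 35)) (.l 35))) (.b 23 (.b 20 (.b 18 (.b 31 (.b 34 (.l 35) (.l 34)) (.l 31)) (.l 35)) (.l 35)) (.l 35))) (.b 25 (.b 23 (.b 20 (.b 18 (.b 34 (.b 31 (.l 35) (.l 31)) (.l 34)) (.l 35)) (.l 35)) (.l 35)) (.l 35)))) (.b 30 (.b 24 (.b 19 (.b 35 (.b 31 (.b 39 (.b 14 (.b 25 (.b 29 (.b 28 (.b 22 (.b 17 (.b 20 (.b 23 (.l 37) (.l 23)) (.l 20)) (.l 17)) (.l 22)) (.l 28)) (.l 29)) (.l 25)) (.b 10 (.b 7 (.b 4 (.b 2 (.b 34 (.b 25 (.b 28 (.b 22 (.b 20 (.b 17 (.m 0 (.l 36)) (.l 17)) (.l 20)) (.l 22)) (.l 28)) (.l 25)) (.b 28 (.b 25 (.l 34) (.l 25)) (.l 34))) (.l 37)) (.l 37)) (.l 37)) (.l 37))) (.l 39)) (.l 31)) (.l 35)) (.b 14 (.b 35 (.b 10 (.b 39 (.b 31 (.b 7 (.b 4 (.b 2 (.b 34 (.b 25 (.b 28 (.b 29 (.b 20 (.b 17 (.m 0 (.l 36)) (.l 17)) (.l 20)) (.l 29)) (.l 28)) (.l 25)) (.b 28 (.b 25 (.l 34) (.l 25)) (.l 34))) (.l 37)) (.l 37)) (.l 37)) (.l 31)) (.l 39)) (.l 37)) (.l 35)) (.l 37))) (.b 19 (.b 14 (.b 35 (.b 10 (.b 39 (.b 31 (.b 7 (.b 4 (.b 2 (.b 34 (.b 25 (.b 29 (.b 28 (.b 20 (.b 17 (.m 0 (.l 36)) (.l 17)) (.l 20)) (.l 28)) (.l 29)) (.l 25)) (.b 28 (.b 25 (.l 34) (.l 25)) (.l 34))) (.l 37)) (.l 37)) (.l 37)) (.l 31)) (.l 39)) (.l 37)) (.l 35)) (.l 37)) (.l 37))) (.b 24 (.b 19 (.b 14 (.b 35 (.b 10 (.b 39 (.b 31 (.b 7 (.b 4 (.b 2 (.b 34 (.b 25 (.b 29 (.b 28 (.b 20 (.b 17 (.m 0 (.l 36)) (.l 17)) (.l 20)) (.l 28)) (.l 29)) (.l 25)) (.b 28 (.b 25 (.b 29 (.l 34) (.l 29)) (.l 25)) (.b 22 (.b 25 (.b 29 (.l 34) (.l 29)) (.l 25)) (.l 34)))) (.l 37)) (.l 37)) (.l 37)) (.l 31)) (.l 39)) (.l 37)) (.l 35)) (.l 37)) (.l 37)) (.l 37)))) (.b 31 (.b 28 (.b 25 (.b 22 (.b 20 (.b 19 (.b 35 (.b 39 (.l 38) (.l 39)) (.l 35)) (.b 17 (.b 15 (.b 14 (.b 35 (.b 39 (.l 38) (.l 39)) (.l 35)) (.l 38)) (.l 38)) (.l 38))) (.b 19 (.b 35 (.b 39 (.l 38) (.l 39)) (.l 35)) (.l 38))) (.b 20 (.b 19 (.b 17 (.b 15 (.b 14 (.b 35 (.b 39 (.l 38) (.l 39)) (.l 35)) (.l 38)) (.l 38)) (.l 38)) (.l 38)) (.l 38))) (.b 22 (.b 20 (.b 19 (.b 35 (.b 17 (.b 39 (.l 38) (.l 39)) (.l 38)) (.l 35)) (.l 38)) (.l 38)) (.l 38))) (.b 25 (.b 22 (.b 20 (.b 19 (.b 17 (.b 15 (.b 14 (.b 35 (.b 39 (.l 38) (.l 39)) (.l 35)) (.l 38)) (.l 38)) (.l 38)) (.l 38)) (.l 38)) (.l 38)) (.l 38))) (.b 28 (.b 25 (.b 22 (.b 20 (.b 19 (.b 17 (.b 15 (.b 14 (.b 35 (.b 39 (.l 38) (.l 39)) (.l 35)) (.l 38)) (.l 38)) (.l 38)) (.l 38)) (.l 38)) (.l 38)) (.l 38)) (.l 38)))) (.l 40)) (.l 40)) (.l 40))) (.b 5 (.b 3 (.b 1 (.b 0 (.b 38 (.b 37 (.b 34 (.b 31 (.b 30 (.b 35 (.b 39 (.m 20 (.b 26 (.b 28 (.m 15 (.l 29)) (.l 28)) (.b 18 (.b 28 (.b 25 (.b 22 (.b 29 (.m 14 (.l 32)) (.l 29)) (.l 22)) (.l 25)) (.l 28)) (.b 11 (.b 28 (.b 6 (.b 2 (.b 32 (.m 15 (.l 29)) (.b 23 (.b 22 (.b 25 (.b 24 (.m 11 (.l 32)) (.l 24)) (.l 25)) (.l 22)) (.l 32))) (.l 36)) (.l 36)) (.l 28)) (.l 36))))) (.l 39)) (.l 35)) (.b 24 (.b 35 (.b 39 (.m 20 (.b 19 (.b 14 (.b 25 (.b 28 (.b 22 (.b 20 (.b 17 (.b 23 (.l 36) (.l 23)) (.l 17)) (.l 20)) (.l 22)) (.l 28)) (.l 25)) (.b 10 (.b 29 (.b 25 (.b 22 (.b 20 (.b 23 (.b 17 (.l 36) (.l 17)) (.l 23)) (.l 20)) (.l 22)) (.l 25)) (.l 29)) (.l 30))) (.b 14 (.b 10 (.b 29 (.b 25 (.b 28 (.b 20 (.b 22 (.b 17 (.l 36) (.l 17)) (.l 22)) (.l 20)) (.l 28)) (.l 25)) (.l 29)) (.l 30)) (.l 30)))) (.l 39)) (.l 35)) (.b 19 (.b 35 (.b 39 (.m 20 (.b 14 (.b 10 (.b 29 (.b 25 (.b 28 (.b 20 (.b 22 (.b 17 (.l 36) (.l 17)) (.l 22)) (.l 20)) (.l 28)) (.l 25)) (.l 29)) (.l 30)) (.l 30))) (.l 39)) (.l 35)) (.l 30)))) (.b 25 (.b 22 (.b 20 (.b 17 (.b 39 (.m 22 (.b 35 (.l 31) (.l 35))) (.l 39)) (.b 15 (.b 14 (.b 35 (.b 39 (.m 20 (.l 31)) (.l 39)) (.l 35)) (.l 31)) (.l 31))) (.b 17 (.b 39 (.m 22 (.b 35 (.l 31) (.l 35))) (.l 39)) (.l 31))) (.b 20 (.b 17 (.b 15 (.b 14 (.b 39 (.m 22 (.b 35 (.l 31) (.l 35))) (.l 39)) (.l 31)) (.l 31)) (.l 31)) (.l 31))) (.b 22 (.b 20 (.b 17 (.b 15 (.b 14 (.b 35 (.b 39 (.m 20 (.l 31)) (.l 39)) (.l 35)) (.l 31)) (.l 31)) (.l 31)) (.l 31)) (.l 31)))) (.b 28 (.b 24 (.b 22 (.b 35 (.b 31 (.b 39 (.m 21 (.b 19 (.b 25 (.l 34) (.l 25)) (.b 17 (.b 29 (.l 34) (.l 29)) (.l 34)))) (.l 39)) (.l 31)) (.l 35)) (.b 19 (.b 31 (.b 35 (.b 39 (.m 21 (.b 17 (.b 29 (.l 34) (.l 29)) (.l 34))) (.l 39)) (.l 35)) (.l 31)) (.l 34))) (.b 22 (.b 19 (.b 35 (.b 31 (.b 39 (.m 21 (.b 17 (.b 29 (.l 34) (.l 29)) (.l 34))) (.l 39)) (.l 31)) (.l 35)) (.l 34)) (.l 34))) (.b 24 (.b 22 (.b 19 (.b 35 (.b 31 (.b 39 (.m 21 (.b 17 (.b 29 (.l 34) (.l 29)) (.l 34))) (.l 39)) (.l 31)) (.l 35)) (.l 34)) (.l 34)) (.l 34)))) (.b 30 (.b 24 (.b 19 (.b 14 (.b 35 (.b 31 (.b 39 (.b 10 (.b 29 (.b 25 (.b 28 (.b 20 (.b 22 (.b 17 (.b 13 (.l 37) (.l 13)) (.l 17)) (.l 22)) (.l 20)) (.l 28)) (.l 25)) (.l 29)) (.b 7 (.b 4 (.b 2 (.b 34 (.b 25 (.b 28 (.b 22 (.b 20 (.b 17 (.m 0 (.l 36)) (.l 17)) (.l 20)) (.l 22)) (.l 28)) (.l 25)) (.b 28 (.b 25 (.l 34) (.l 25)) (.l 34))) (.l 37)) (.l 37)) (.l 37))) (.l 39)) (.l 31)) (.l 35)) (.b 10 (.b 7 (.b 4 (.b 2 (.b 34 (.b 31 (.b 35 (.b 39 (.b 29 (.b 25 (.b 22 (.b 20 (.b 23 (.m 0 (.l 36)) (.l 23)) (.l 20)) (.l 22)) (.l 25)) (.l 29)) (.l 39)) (.l 35)) (.l 31)) (.b 28 (.b 31 (.b 35 (.b 39 (.b 29 (.l 34) (.l 29)) (.l 39)) (.l 35)) (.l 31)) (.l 34))) (.l 37)) (.l 37)) (.l 37)) (.l 37))) (.b 14 (.b 10 (.b 7 (.b 4 (.b 2 (.b 34 (.b 35 (.b 31 (.b 39 (.b 29 (.b 25 (.b 28 (.b 20 (.b 22 (.m 0 (.l 36)) (.l 22)) (.l 20)) (.l 28)) (.l 25)) (.l 29)) (.l 39)) (.l 31)) (.l 35)) (.b 28 (.b 35 (.b 31 (.b 39 (.b 29 (.l 34) (.l 29)) (.l 39)) (.l 31)) (.l 35)) (.l 34))) (.l 37)) (.l 37)) (.l 37)) (.l 37)) (.l 37))) (.b 19 (.b 14 (.b 10 (.b 7 (.b 4 (.b 2 (.b 34 (.b 35 (.b 31 (.b 39 (.b 29 (.b 25 (.b 28 (.b 20 (.b 22 (.m 0 (.l 36)) (.l 22)) (.l 20)) (.l 28)) (.l 25)) (.l 29)) (.l 39)) (.l 31)) (.l 35)) (.b 28 (.b 35 (.b 31 (.b 39 (.b 29 (.l 34) (.l 29)) (.l 39)) (.l 31)) (.l 35)) (.l 34))) (.l 37)) (.l 37)) (.l 37)) (.l 37)) (.l 37)) (.l 37))) (.b 24 (.b 19 (.b 14 (.b 10 (.b 7 (.b 4 (.b 2 (.b 34 (.b 35 (.b 31 (.b 39 (.b 29 (.b 25 (.b 28 (.b 20 (.b 22 (.m 0 (.l 36)) (.l 22)) (.l 20)) (.l 28)) (.l 25)) (.l 29)) (.l 39)) (.l 31)) (.l 35)) (.b 28 (.b 35 (.b 31 (.b 39 (.b 29 (.b 25 (.l 34) (.l 25)) (.l 29)) (.l 39)) (.l 31)) (.l 35)) (.b 22 (.b 35 (.b 39 (.b 31 (.b 29 (.b 25 (.l 34) (.l 25)) (.l 29)) (.l 31)) (.l 39)) (.l 35)) (.l 34)))) (.l 37)) (.l 37)) (.l 37)) (.l 37)) (.l 37)) (.l 37)) (.l 37)))) (.b 31 (.b 28 (.b 25 (.b 22 (.b 20 (.b 19 (.b 17 (.b 39 (.b 35 (.l 38) (.l 35)) (.l 39)) (.b 15 (.b 14 (.b 35 (.b 39 (.l 38) (.l 39)) (.l 35)) (.l 38)) (.l 38))) (.b 17 (.b 15 (.b 14 (.b 39 (.b 35 (.l 38) (.l 35)) (.l 39)) (.l 38)) (.l 38)) (.l 38))) (.b 19 (.b 17 (.b 39 (.b 35 (.l 38) (.l 35)) (.l 39)) (.l 38)) (.l 38))) (.b 20 (.b 19 (.b 17 (.b 15 (.b 14 (.b 39 (.b 35 (.l 38) (.l 35)) (.l 39)) (.l 38)) (.l 38)) (.l 38)) (.l 38)) (.l 38))) (.b 22 (.b 20 (.b 19 (.b 17 (.b 15 (.b 14 (.b 35 (.b 39 (.l 38) (.l 39)) (.l 35)) (.l 38)) (.l 38)) (.l 38)) (.l 38)) (.l 38)) (.l 38))) (.b 25 (.b 22 (.b 20 (.b 19 (.b 17 (.b 15 (.b 14 (.b 39 (.b 35 (.l 38) (.l 35)) (.l 39)) (.l 38)) (.l 38)) (.l 38)) (.l 38)) (.l 38)) (.l 38)) (.l 38))) (.b 28 (.b 25 (.b 22 (.b 20 (.b 19 (.b 17 (.b 15 (.b 14 (.b 39 (.b 35 (.l 38) (.l 35)) (.l 39)) (.l 38)) (.l 38)) (.l 38)) (.l 38)) (.l 38)) (.l 38)) (.l 38)) (.l 38)))) (.l 40)) (.l 40)) (.l 40)) (.l 40))) (.b 8 (.b 5 (.b 3 (.b 1 (.b 0 (.b 38 (.b 37 (.b 34 (.b 30 (.b 28 (.b 35 (.b 31 (.b 39 (.m 20 (.b 26 (.m 15 (.l 29)) (.b 18 (.b 25 (.b 29 (.m 14 (.b 22 (.l 32) (.l 22))) (.l 29)) (.l 25)) (.b 11 (.b 6 (.b 2 (.b 32 (.m 15 (.l 29)) (.b 23 (.b 25 (.b 22 (.b 24 (.m 11 (.l 32)) (.l 24)) (.l 22)) (.l 25)) (.l 32))) (.l 36)) (.l 36)) (.l 36))))) (.l 39)) (.l 31)) (.l 35)) (.b 22 (.b 35 (.b 39 (.m 20 (.b 31 (.b 19 (.b 25 (.l 28) (.l 25)) (.b 17 (.b 29 (.l 28) (.l 29)) (.l 28))) (.l 31))) (.l 39)) (.l 35)) (.b 19 (.b 35 (.b 31 (.b 39 (.m 20 (.b 17 (.b 29 (.l 28) (.l 29)) (.l 28))) (.l 39)) (.l 31)) (.l 35)) (.l 28)))) (.b 24 (.b 19 (.b 35 (.b 31 (.b 39 (.m 20 (.b 14 (.b 25 (.b 28 (.b 29 (.b 20 (.b 17 (.b 22 (.l 36) (.l 22)) (.l 17)) (.l 20)) (.l 29)) (.l 28)) (.l 25)) (.b 10 (.b 29 (.b 25 (.b 28 (.b 20 (.b 22 (.b 17 (.l 36) (.l 17)) (.l 22)) (.l 20)) (.l 28)) (.l 25)) (.l 29)) (.l 30)))) (.l 39)) (.l 31)) (.l 35)) (.b 14 (.b 35 (.b 39 (.m 20 (.b 31 (.b 10 (.b 29 (.b 25 (.b 28 (.b 20 (.b 22 (.b 17 (.l 36) (.l 17)) (.l 22)) (.l 20)) (.l 28)) (.l 25)) (.l 29)) (.l 30)) (.l 31))) (.l 39)) (.l 35)) (.l 30))) (.b 19 (.b 14 (.b 35 (.b 39 (.m 20 (.b 31 (.b 10 (.b 29 (.b 25 (.b 28 (.b 20 (.b 22 (.b 17 (.l 36) (.l 17)) (.l 22)) (.l 20)) (.l 28)) (.l 25)) (.l 29)) (.l 30)) (.l 31))) (.l 39)) (.l 35)) (.l 30)) (.l 30)))) (.b 28 (.b 24 (.b 22 (.b 35 (.b 39 (.m 21 (.b 31 (.b 19 (.b 25 (.l 34) (.l 25)) (.b 17 (.b 29 (.l 34) (.l 29)) (.l 34))) (.l 31))) (.l 39)) (.l 35)) (.b 19 (.b 35 (.b 31 (.b 39 (.m 21 (.b 17 (.b 29 (.l 34) (.l 29)) (.l 34))) (.l 39)) (.l 31)) (.l 35)) (.l 34))) (.b 22 (.b 19 (.b 35 (.b 39 (.m 21 (.b 31 (.b 17 (.b 29 (.l 34) (.l 29)) (.l 34)) (.l 31))) (.l 39)) (.l 35)) (.l 34)) (.l 34))) (.b 24 (.b 22 (.b 19 (.b 35 (.b 39 (.m 21 (.b 31 (.b 17 (.b 29 (.l 34) (.l 29)) (.l 34)) (.l 31))) (.l 39)) (.l 35)) (.l 34)) (.l 34)) (.l 34)))) (.b 30 (.b 24 (.b 19 (.b 14 (.b 35 (.b 39 (.b 31 (.b 10 (.b 29 (.b 25 (.b 28 (.b 20 (.b 22 (.b 17 (.b 13 (.l 37) (.l 13)) (.l 17)) (.l 22)) (.l 20)) (.l 28)) (.l 25)) (.l 29)) (.b 7 (.b 4 (.b 2 (.b 34 (.b 25 (.b 28 (.b 29 (.b 20 (.b 17 (.m 0 (.l 36)) (.l 17)) (.l 20)) (.l 29)) (.l 28)) (.l 25)) (.b 28 (.b 25 (.l 34) (.l 25)) (.l 34))) (.l 37)) (.l 37)) (.l 37))) (.l 31)) (.l 39)) (.l 35)) (.b 10 (.b 7 (.b 4 (.b 2 (.b 34 (.b 35 (.b 31 (.b 39 (.b 29 (.b 25 (.b 28 (.b 20 (.b 22 (.m 0 (.l 36)) (.l 22)) (.l 20)) (.l 28)) (.l 25)) (.l 29)) (.l 39)) (.l 31)) (.l 35)) (.b 28 (.b 35 (.b 31 (.b 39 (.b 29 (.l 34) (.l 29)) (.l 39)) (.l 31)) (.l 35)) (.l 34))) (.l 37)) (.l 37)) (.l 37)) (.l 37))) (.b 14 (.b 10 (.b 7 (.b 4 (.b 2 (.b 34 (.b 35 (.b 39 (.b 31 (.b 29 (.b 25 (.b 28 (.b 20 (.b 22 (.m 0 (.l 36)) (.l 22)) (.l 20)) (.l 28)) (.l 25)) (.l 29)) (.l 31)) (.l 39)) (.l 35)) (.b 28 (.b 35 (.b 39 (.b 31 (.b 29 (.l 34) (.l 29)) (.l 31)) (.l 39)) (.l 35)) (.l 34))) (.l 37)) (.l 37)) (.l 37)) (.l 37)) (.l 37))) (.b 19 (.b 14 (.b 10 (.b 7 (.b 4 (.b 2 (.b 34 (.b 35 (.b 39 (.b 31 (.b 29 (.b 25 (.b 28 (.b 20 (.b 22 (.m 0 (.l 36)) (.l 22)) (.l 20)) (.l 28)) (.l 25)) (.l 29)) (.l 31)) (.l 39)) (.l 35)) (.b 28 (.b 35 (.b 39 (.b 31 (.b 29 (.l 34) (.l 29)) (.l 31)) (.l 39)) (.l 35)) (.l 34))) (.l 37)) (.l 37)) (.l 37)) (.l 37)) (.l 37)) (.l 37))) (.b 24 (.b 19 (.b 14 (.b 10 (.b 7 (.b 4 (.b 2 (.b 34 (.b 35 (.b 39 (.b 31 (.b 29 (.b 25 (.b 28 (.b 20 (.b 22 (.m 0 (.l 36)) (.l 22)) (.l 20)) (.l 28)) (.l 25)) (.l 29)) (.l 31)) (.l 39)) (.l 35)) (.b 28 (.b 35 (.b 39 (.b 31 (.b 29 (.b 25 (.l 34) (.l 25)) (.l 29)) (.l 31)) (.l 39)) (.l 35)) (.b 22 (.b 35 (.b 39 (.b 17 (.b 29 (.b 31 (.b 25 (.l 34) (.l 25)) (.l 31)) (.l 29)) (.l 34)) (.l 39)) (.l 35)) (.l 34)))) (.l 37)) (.l 37)) (.l 37)) (.l 37)) (.l 37)) (.l 37)) (.l 37)))) (.b 31 (.b 28 (.b 25 (.b 22 (.b 20 (.b 19 (.b 17 (.b 39 (.b 35 (.l 38) (.l 35)) (.l 39)) (.b 15 (.b 14 (.b 35 (.b 39 (.l 38) (.l 39)) (.l 35)) (.l 38)) (.l 38))) (.b 17 (.b 15 (.b 14 (.b 39 (.b 35 (.l 38) (.l 35)) (.l 39)) (.l 38)) (.l 38)) (.l 38))) (.b 19 (.b 17 (.b 39 (.b 35 (.l 38) (.l 35)) (.l 39)) (.l 38)) (.l 38))) (.b 20 (.b 19 (.b 17 (.b 15 (.b 14 (.b 39 (.b 35 (.l 38) (.l 35)) (.l 39)) (.l 38)) (.l 38)) (.l 38)) (.l 38)) (.l 38))) (.b 22 (.b 20 (.b 19 (.b 17 (.b 15 (.b 14 (.b 35 (.b 39 (.l 38) (.l 39)) (.l 35)) (.l 38)) (.l 38)) (.l 38)) (.l 38)) (.l 38)) (.l 38))) (.b 25 (.b 22 (.b 20 (.b 19 (.b 17 (.b 15 (.b 14 (.b 39 (.b 35 (.l 38) (.l 35)) (.l 39)) (.l 38)) (.l 38)) (.l 38)) (.l 38)) (.l 38)) (.l 38)) (.l 38))) (.b 28 (.b 25 (.b 22 (.b 20 (.b 19 (.b 17 (.b 15 (.b 14 (.b 39 (.b 35 (.l 38) (.l 35)) (.l 39)) (.l 38)) (.l 38)) (.l 38)) (.l 38)) (.l 38)) (.l 38)) (.l 38)) (.l 38)))) (.l 40)) (.l 40)) (.l 40)) (.l 40)) (.l 40))) (.b 12 (.b 8 (.b 5 (.b 3 (.b 1 (.b 0 (.b 37 (.b 34 (.b 30 (.b 38 (.b 24 (.b 35 (.b 31 (.b 39 (.m 20 (.b 26 (.b 25 (.b 28 (.m 13 (.l 29)) (.l 28)) (.l 25)) (.b 18 (.b 25 (.b 28 (.b 22 (.b 20 (.b 17 (.b 23 (.m 8 (.l 32)) (.l 23)) (.l 17)) (.l 20)) (.l 22)) (.l 28)) (.l 25)) (.b 11 (.b 28 (.b 25 (.b 22 (.b 29 (.m 11 (.l 32)) (.l 29)) (.l 22)) (.l 25)) (.l 28)) (.l 36))))) (.l 39)) (.l 31)) (.l 35)) (.b 19 (.b 35 (.b 31 (.b 39 (.m 20 (.b 14 (.b 25 (.b 29 (.b 28 (.m 14 (.l 32)) (.l 28)) (.l 29)) (.l 25)) (.b 10 (.b 29 (.b 25 (.b 28 (.m 14 (.l 32)) (.l 28)) (.l 25)) (.l 29)) (.l 24)))) (.l 39)) (.l 31)) (.l 35)) (.b 14 (.b 35 (.b 39 (.m 20 (.b 31 (.b 10 (.b 29 (.b 25 (.b 28 (.m 14 (.l 32)) (.l 28)) (.l 25)) (.l 29)) (.l 24)) (.l 31))) (.l 39)) (.l 35)) (.l 24)))) (.l 38)) (.b 24 (.b 38 (.b 19 (.b 35 (.b 31 (.b 39 (.m 20 (.b 14 (.b 25 (.b 29 (.b 28 (.b 20 (.b 17 (.b 22 (.l 36) (.l 22)) (.l 17)) (.l 20)) (.l 28)) (.l 29)) (.l 25)) (.b 10 (.b 29 (.b 25 (.b 28 (.b 20 (.b 22 (.b 17 (.l 36) (.l 17)) (.l 22)) (.l 20)) (.l 28)) (.l 25)) (.l 29)) (.l 30)))) (.l 39)) (.l 31)) (.l 35)) (.b 14 (.b 35 (.b 39 (.m 20 (.b 31 (.b 10 (.b 29 (.b 25 (.b 28 (.b 20 (.b 22 (.b 17 (.l 36) (.l 17)) (.l 22)) (.l 20)) (.l 28)) (.l 25)) (.l 29)) (.l 30)) (.l 31))) (.l 39)) (.l 35)) (.l 30))) (.l 38)) (.b 19 (.b 14 (.b 10 (.b 7 (.b 4 (.b 2 (.b 39 (.b 35 (.b 38 (.m 20 (.b 31 (.b 29 (.b 25 (.b 32 (.b 20 (.l 36) (.l 20)) (.l 32)) (.l 25)) (.l 29)) (.l 31))) (.l 38)) (.l 35)) (.b 32 (.b 35 (.l 39) (.l 35)) (.b 29 (.b 38 (.l 39) (.l 38)) (.b 26 (.b 35 (.l 39) (.l 35)) (.l 39))))) (.l 30)) (.l 30)) (.l 30)) (.l 30)) (.l 30)) (.l 30)))) (.b 28 (.b 24 (.b 22 (.b 19 (.b 35 (.b 38 (.b 31 (.b 39 (.m 21 (.b 25 (.l 34) (.l 25))) (.l 39)) (.l 31)) (.l 38)) (.l 35)) (.b 17 (.b 14 (.b 35 (.b 38 (.b 39 (.m 21 (.b 29 (.b 25 (.l 34) (.l 25)) (.l 29))) (.l 39)) (.l 38)) (.l 35)) (.l 34)) (.l 34))) (.b 19 (.b 17 (.b 14 (.b 35 (.b 38 (.b 31 (.b 29 (.b 25 (.l 34) (.l 25)) (.l 29)) (.l 31)) (.l 38)) (.l 35)) (.l 34)) (.l 34)) (.l 34))) (.b 22 (.b 19 (.b 17 (.b 14 (.b 35 (.b 39 (.b 38 (.m 21 (.b 29 (.b 25 (.l 34) (.l 25)) (.l 29))) (.l 38)) (.l 39)) (.l 35)) (.l 34)) (.l 34)) (.l 34)) (.l 34))) (.b 24 (.b 22 (.b 19 (.b 17 (.b 14 (.b 35 (.b 38 (.b 39 (.m 21 (.b 29 (.b 25 (.l 34) (.l 25)) (.l 29))) (.l 39)) (.l 38)) (.l 35)) (.l 34)) (.l 34)) (.l 34)) (.l 34)) (.l 34)))) (.b 30 (.b 24 (.b 19 (.b 14 (.b 10 (.b 7 (.b 4 (.b 34 (.b 35 (.b 38 (.b 31 (.b 29 (.b 25 (.b 32 (.b 20 (.b 22 (.b 15 (.m 0 (.l 39)) (.l 15)) (.l 22)) (.l 20)) (.l 32)) (.l 25)) (.l 29)) (.l 31)) (.l 38)) (.l 35)) (.b 28 (.b 35 (.b 38 (.b 31 (.b 29 (.b 25 (.l 34) (.l 25)) (.l 29)) (.l 31)) (.l 38)) (.l 35)) (.b 22 (.b 35 (.b 38 (.b 39 (.b 29 (.b 25 (.l 34) (.l 25)) (.l 29)) (.l 39)) (.l 38)) (.l 35)) (.l 34)))) (.b 2 (.b 34 (.b 35 (.b 38 (.b 31 (.b 29 (.b 25 (.b 32 (.b 20 (.b 22 (.b 15 (.m 0 (.l 39)) (.l 15)) (.l 22)) (.l 20)) (.l 32)) (.l 25)) (.l 29)) (.l 31)) (.l 38)) (.l 35)) (.b 28 (.b 35 (.b 38 (.b 31 (.b 29 (.b 25 (.l 34) (.l 25)) (.l 29)) (.l 31)) (.l 38)) (.l 35)) (.l 34))) (.l 37))) (.b 4 (.b 2 (.b 34 (.b 35 (.b 38 (.b 31 (.b 29 (.b 25 (.b 32 (.b 20 (.b 22 (.b 17 (.m 0 (.l 39)) (.l 17)) (.l 22)) (.l 20)) (.l 32)) (.l 25)) (.l 29)) (.l 31)) (.l 38)) (.l 35)) (.b 28 (.b 35 (.b 38 (.b 31 (.b 29 (.b 25 (.l 34) (.l 25)) (.l 29)) (.l 31)) (.l 38)) (.l 35)) (.l 34))) (.l 37)) (.l 37))) (.b 7 (.b 4 (.b 2 (.b 34 (.b 35 (.b 38 (.b 31 (.b 39 (.b 25 (.b 29 (.b 28 (.b 20 (.b 17 (.m 0 (.l 36)) (.l 17)) (.l 20)) (.l 28)) (.l 29)) (.l 25)) (.l 39)) (.l 31)) (.l 38)) (.l 35)) (.b 28 (.b 35 (.b 38 (.b 31 (.b 39 (.b 25 (.l 34) (.l 25)) (.l 39)) (.l 31)) (.l 38)) (.l 35)) (.l 34))) (.l 37)) (.l 37)) (.l 37))) (.b 10 (.b 7 (.b 4 (.b 2 (.b 34 (.b 38 (.b 35 (.b 31 (.b 39 (.b 29 (.b 25 (.b 28 (.b 20 (.b 22 (.m 0 (.l 36)) (.l 22)) (.l 20)) (.l 28)) (.l 25)) (.l 29)) (.l 39)) (.l 31)) (.l 35)) (.l 38)) (.b 28 (.b 22 (.b 35 (.b 38 (.b 31 (.b 29 (.b 25 (.l 34) (.l 25)) (.l 29)) (.l 31)) (.l 38)) (.l 35)) (.l 34)) (.l 34))) (.l 37)) (.l 37)) (.l 37)) (.l 37))) (.b 14 (.b 10 (.b 7 (.b 4 (.b 2 (.b 34 (.b 38 (.b 35 (.b 39 (.b 31 (.b 29 (.b 25 (.b 28 (.b 20 (.b 22 (.m 0 (.l 36)) (.l 22)) (.l 20)) (.l 28)) (.l 25)) (.l 29)) (.l 31)) (.l 39)) (.l 35)) (.l 38)) (.b 28 (.b 22 (.b 35 (.b 38 (.b 39 (.b 29 (.b 25 (.l 34) (.l 25)) (.l 29)) (.l 39)) (.l 38)) (.l 35)) (.l 34)) (.l 34))) (.l 37)) (.l 37)) (.l 37)) (.l 37)) (.l 37))) (.b 19 (.b 14 (.b 10 (.b 7 (.b 4 (.b 2 (.b 34 (.b 39 (.b 35 (.b 38 (.b 31 (.b 29 (.b 25 (.b 32 (.b 20 (.b 22 (.m 0 (.l 36)) (.l 22)) (.l 20)) (.l 32)) (.l 25)) (.l 29)) (.l 31)) (.l 38)) (.l 35)) (.b 32 (.b 35 (.l 39) (.l 35)) (.b 29 (.b 38 (.l 39) (.l 38)) (.b 26 (.b 35 (.l 39) (.l 35)) (.l 39))))) (.b 28 (.b 22 (.b 35 (.b 39 (.b 38 (.b 29 (.b 25 (.l 34) (.l 25)) (.l 29)) (.l 38)) (.l 39)) (.l 35)) (.l 34)) (.l 34))) (.l 37)) (.l 37)) (.l 37)) (.l 37)) (.l 37)) (.l 37))) (.b 24 (.b 19 (.b 14 (.b 10 (.b 7 (.b 4 (.b 2 (.b 34 (.b 39 (.b 35 (.b 38 (.b 31 (.b 29 (.b 25 (.b 32 (.b 20 (.b 22 (.m 0 (.l 36)) (.l 22)) (.l 20)) (.l 32)) (.l 25)) (.l 29)) (.l 31)) (.l 38)) (.l 35)) (.b 32 (.b 35 (.l 39) (.l 35)) (.b 29 (.b 38 (.l 39) (.l 38)) (.b 26 (.b 35 (.l 39) (.l 35)) (.l 39))))) (.b 28 (.b 22 (.b 35 (.b 39 (.b 38 (.b 29 (.b 25 (.b 31 (.l 34) (.l 31)) (.l 25)) (.l 29)) (.l 38)) (.l 39)) (.l 35)) (.b 17 (.b 39 (.b 35 (.b 38 (.b 29 (.b 31 (.b 25 (.l 34) (.l 25)) (.l 31)) (.l 29)) (.l 38)) (.l 35)) (.l 39)) (.l 34))) (.b 22 (.b 17 (.b 39 (.b 35 (.b 38 (.b 29 (.b 31 (.b 25 (.l 34) (.l 25)) (.l 31)) (.l 29)) (.l 38)) (.l 35)) (.l 39)) (.l 34)) (.l 34)))) (.l 37)) (.l 37)) (.l 37)) (.l 37)) (.l 37)) (.l 37)) (.l 37)))) (.l 40)) (.l 40)) (.l 40)) (.l 40)) (.l 40)) (.l 40))) (.b 16 (.b 12 (.b 8 (.b 5 (.b 3 (.b 1 (.b 0 (.b 37 (.b 30 (.b 39 (.b 38 (.m 22 (.b 26 (.b 35 (.b 31 (.b 34 (.b 18 (.b 25 (.b 28 (.m 14 (.l 29)) (.l 28)) (.l 25)) (.b 11 (.b 28 (.m 15 (.l 29)) (.l 28)) (.b 6 (.b 2 (.b 32 (.m 15 (.l 29)) (.b 23 (.b 25 (.b 28 (.m 14 (.l 29)) (.l 28)) (.l 25)) (.l 32))) (.l 36)) (.l 36)))) (.l 34)) (.l 31)) (.l 35)) (.b 18 (.b 11 (.b 6 (.b 32 (.b 31 (.b 34 (.b 28 (.b 25 (.b 22 (.b 29 (.m 14 (.l 35)) (.l 29)) (.l 22)) (.l 25)) (.l 28)) (.l 34)) (.l 31)) (.b 23 (.b 31 (.b 34 (.b 28 (.b 25 (.b 22 (.b 29 (.b 17 (.l 32) (.l 17)) (.l 29)) (.l 22)) (.l 25)) (.l 28)) (.l 34)) (.l 31)) (.b 15 (.b 34 (.b 31 (.b 28 (.b 35 (.b 22 (.b 25 (.b 17 (.l 32) (.l 17)) (.l 25)) (.l 22)) (.l 35)) (.l 28)) (.l 31)) (.l 34)) (.l 32)))) (.b 2 (.b 32 (.b 31 (.b 34 (.b 28 (.b 25 (.b 22 (.b 29 (.m 14 (.l 35)) (.l 29)) (.l 22)) (.l 25)) (.l 28)) (.l 34)) (.l 31)) (.b 23 (.b 31 (.b 34 (.b 28 (.b 25 (.b 22 (.b 29 (.b 17 (.l 32) (.l 17)) (.l 29)) (.l 22)) (.l 25)) (.l 28)) (.l 34)) (.l 31)) (.l 32))) (.l 36))) (.b 6 (.b 2 (.b 32 (.b 31 (.b 34 (.b 35 (.b 25 (.b 28 (.m 14 (.l 29)) (.l 28)) (.l 25)) (.l 35)) (.l 34)) (.l 31)) (.b 23 (.b 31 (.b 34 (.b 35 (.b 25 (.b 28 (.b 22 (.b 20 (.l 32) (.l 20)) (.l 22)) (.l 28)) (.l 25)) (.l 35)) (.l 34)) (.l 31)) (.l 32))) (.l 36)) (.l 36))) (.b 11 (.b 6 (.b 2 (.b 32 (.b 35 (.b 31 (.b 34 (.b 28 (.m 15 (.l 29)) (.l 28)) (.l 34)) (.l 31)) (.l 35)) (.b 23 (.b 15 (.b 34 (.b 31 (.b 28 (.b 35 (.b 22 (.b 25 (.b 17 (.l 32) (.l 17)) (.l 25)) (.l 22)) (.l 35)) (.l 28)) (.l 31)) (.l 34)) (.l 32)) (.l 32))) (.l 36)) (.l 36)) (.l 36))))) (.l 38)) (.b 32 (.b 38 (.b 29 (.b 26 (.b 31 (.b 34 (.b 35 (.m 15 (.l 39)) (.l 35)) (.l 34)) (.l 31)) (.b 23 (.b 31 (.b 34 (.b 35 (.l 39) (.l 35)) (.l 34)) (.l 31)) (.b 20 (.b 18 (.b 31 (.b 34 (.b 28 (.l 39) (.l 28)) (.l 34)) (.l 31)) (.l 39)) (.l 39)))) (.b 26 (.b 35 (.b 31 (.b 34 (.l 39) (.l 34)) (.l 31)) (.l 35)) (.b 23 (.b 20 (.b 18 (.b 31 (.b 34 (.b 28 (.l 39) (.l 28)) (.l 34)) (.l 31)) (.l 39)) (.l 39)) (.l 39)))) (.l 38)) (.b 29 (.b 38 (.b 26 (.b 23 (.b 31 (.b 34 (.b 35 (.l 39) (.l 35)) (.l 34)) (.l 31)) (.b 20 (.b 18 (.b 31 (.b 34 (.b 28 (.l 39) (.l 28)) (.l 34)) (.l 31)) (.l 39)) (.l 39))) (.b 23 (.b 20 (.b 18 (.b 31 (.b 34 (.b 28 (.l 39) (.l 28)) (.l 34)) (.l 31)) (.l 39)) (.l 39)) (.l 39))) (.l 38)) (.b 26 (.b 38 (.b 23 (.b 20 (.b 18 (.b 31 (.b 34 (.b 28 (.l 39) (.l 28)) (.l 34)) (.l 31)) (.l 39)) (.l 39)) (.l 39)) (.l 38)) (.l 39))))) (.b 24 (.b 19 (.b 14 (.b 10 (.b 7 (.b 4 (.b 39 (.b 35 (.b 38 (.m 21 (.b 31 (.b 29 (.b 25 (.b 32 (.b 20 (.l 36) (.l 20)) (.l 32)) (.l 25)) (.l 29)) (.l 31))) (.l 38)) (.l 35)) (.b 32 (.b 35 (.l 39) (.l 35)) (.b 29 (.b 38 (.l 39) (.l 38)) (.b 26 (.b 35 (.l 39) (.l 35)) (.l 39))))) (.b 2 (.b 39 (.b 35 (.b 38 (.m 21 (.b 31 (.b 29 (.b 25 (.b 32 (.b 20 (.b 22 (.l 36) (.l 22)) (.l 20)) (.l 32)) (.l 25)) (.l 29)) (.l 31))) (.l 38)) (.l 35)) (.b 32 (.b 35 (.l 39) (.l 35)) (.b 29 (.b 38 (.l 39) (.l 38)) (.l 39)))) (.l 30))) (.b 4 (.b 2 (.b 39 (.b 35 (.b 38 (.m 21 (.b 31 (.b 29 (.b 25 (.b 32 (.b 20 (.b 22 (.l 36) (.l 22)) (.l 20)) (.l 32)) (.l 25)) (.l 29)) (.l 31))) (.l 38)) (.l 35)) (.b 32 (.b 35 (.l 39) (.l 35)) (.b 29 (.b 38 (.l 39) (.l 38)) (.l 39)))) (.l 30)) (.l 30))) (.b 7 (.b 4 (.b 2 (.b 38 (.b 35 (.b 39 (.m 21 (.b 31 (.b 26 (.b 25 (.b 29 (.b 28 (.b 20 (.b 17 (.m 0 (.l 36)) (.l 17)) (.l 20)) (.l 28)) (.l 29)) (.l 25)) (.b 18 (.b 25 (.b 29 (.b 28 (.b 20 (.b 17 (.m 0 (.l 36)) (.l 17)) (.l 20)) (.l 28)) (.l 29)) (.l 25)) (.b 11 (.b 6 (.b 32 (.b 25 (.b 28 (.b 22 (.m 0 (.l 34)) (.l 22)) (.l 28)) (.l 25)) (.b 23 (.b 25 (.b 28 (.l 32) (.l 28)) (.l 25)) (.l 32))) (.l 36)) (.l 36)))) (.l 31))) (.l 39)) (.l 35)) (.b 31 (.b 35 (.l 38) (.l 35)) (.b 28 (.b 35 (.l 38) (.l 35)) (.l 38)))) (.l 30)) (.l 30)) (.l 30))) (.b 10 (.b 7 (.b 4 (.b 2 (.b 38 (.b 34 (.b 35 (.b 31 (.b 39 (.m 20 (.b 29 (.b 25 (.b 28 (.b 20 (.l 36) (.l 20)) (.l 28)) (.l 25)) (.l 29))) (.l 39)) (.l 31)) (.l 35)) (.b 28 (.b 35 (.b 31 (.b 39 (.m 21 (.b 29 (.b 25 (.l 34) (.l 25)) (.l 29))) (.l 39)) (.l 31)) (.l 35)) (.b 22 (.b 35 (.b 39 (.m 21 (.b 31 (.b 29 (.b 25 (.l 34) (.l 25)) (.l 29)) (.l 31))) (.l 39)) (.l 35)) (.l 34)))) (.b 31 (.b 28 (.b 35 (.l 38) (.l 35)) (.b 25 (.b 39 (.l 38) (.l 39)) (.l 38))) (.b 28 (.b 25 (.b 39 (.l 38) (.l 39)) (.l 38)) (.l 38)))) (.l 30)) (.l 30)) (.l 30)) (.l 30))) (.b 14 (.b 10 (.b 7 (.b 4 (.b 2 (.b 38 (.b 34 (.b 35 (.b 39 (.m 20 (.b 31 (.b 29 (.b 25 (.b 28 (.b 20 (.l 36) (.l 20)) (.l 28)) (.l 25)) (.l 29)) (.l 31))) (.l 39)) (.l 35)) (.b 28 (.b 35 (.b 39 (.m 21 (.b 31 (.b 29 (.b 25 (.l 34) (.l 25)) (.l 29)) (.l 31))) (.l 39)) (.l 35)) (.b 22 (.b 35 (.b 39 (.m 21 (.b 17 (.b 29 (.b 31 (.b 25 (.l 34) (.l 25)) (.l 31)) (.l 29)) (.l 34))) (.l 39)) (.l 35)) (.l 34)))) (.b 31 (.b 28 (.b 35 (.l 38) (.l 35)) (.b 25 (.b 39 (.l 38) (.l 39)) (.l 38))) (.b 28 (.b 25 (.b 39 (.l 38) (.l 39)) (.l 38)) (.l 38)))) (.l 30)) (.l 30)) (.l 30)) (.l 30)) (.l 30))) (.b 19 (.b 14 (.b 10 (.b 7 (.b 4 (.b 2 (.b 34 (.b 39 (.b 35 (.b 38 (.m 20 (.b 31 (.b 29 (.b 25 (.b 32 (.b 20 (.l 36) (.l 20)) (.l 32)) (.l 25)) (.l 29)) (.l 31))) (.l 38)) (.l 35)) (.b 32 (.b 35 (.l 39) (.l 35)) (.b 29 (.b 38 (.l 39) (.l 38)) (.b 26 (.b 35 (.l 39) (.l 35)) (.l 39))))) (.b 28 (.b 22 (.b 35 (.b 39 (.b 38 (.m 21 (.b 29 (.b 25 (.b 31 (.l 34) (.l 31)) (.l 25)) (.l 29))) (.l 38)) (.l 39)) (.l 35)) (.b 17 (.b 39 (.b 35 (.b 38 (.m 21 (.b 29 (.b 31 (.b 25 (.l 34) (.l 25)) (.l 31)) (.l 29))) (.l 38)) (.l 35)) (.l 39)) (.l 34))) (.b 22 (.b 17 (.b 39 (.b 35 (.b 38 (.m 21 (.b 29 (.b 31 (.b 25 (.l 34) (.l 25)) (.l 31)) (.l 29))) (.l 38)) (.l 35)) (.l 39)) (.l 34)) (.l 34)))) (.l 30)) (.l 30)) (.l 30)) (.l 30)) (.l 30)) (.l 30)))) (.b 30 (.b 24 (.b 19 (.b 14 (.b 10 (.b 7 (.b 4 (.b 39 (.b 35 (.b 38 (.b 31 (.b 29 (.b 25 (.b 32 (.b 20 (.b 22 (.b 15 (.m 0 (.l 36)) (.l 15)) (.l 22)) (.l 20)) (.l 32)) (.l 25)) (.l 29)) (.l 31)) (.l 38)) (.l 35)) (.b 32 (.b 35 (.l 39) (.l 35)) (.b 29 (.b 38 (.l 39) (.l 38)) (.b 26 (.b 35 (.l 39) (.l 35)) (.l 39))))) (.b 2 (.b 39 (.b 35 (.b 38 (.b 31 (.b 29 (.b 25 (.b 32 (.b 20 (.b 22 (.b 15 (.m 0 (.l 36)) (.l 15)) (.l 22)) (.l 20)) (.l 32)) (.l 25)) (.l 29)) (.l 31)) (.l 38)) (.l 35)) (.b 32 (.b 35 (.l 39) (.l 35)) (.b 29 (.b 38 (.l 39) (.l 38)) (.l 39)))) (.l 37))) (.b 4 (.b 2 (.b 39 (.b 35 (.b 38 (.b 31 (.b 29 (.b 25 (.b 32 (.b 20 (.b 22 (.b 17 (.m 0 (.l 36)) (.l 17)) (.l 22)) (.l 20)) (.l 32)) (.l 25)) (.l 29)) (.l 31)) (.l 38)) (.l 35)) (.b 32 (.b 35 (.l 39) (.l 35)) (.b 29 (.b 38 (.l 39) (.l 38)) (.l 39)))) (.l 37)) (.l 37))) (.b 7 (.b 4 (.b 2 (.b 38 (.b 35 (.b 39 (.b 31 (.b 34 (.b 25 (.b 29 (.b 28 (.b 20 (.b 17 (.m 0 (.l 36)) (.l 17)) (.l 20)) (.l 28)) (.l 29)) (.l 25)) (.b 28 (.b 25 (.b 29 (.l 34) (.l 29)) (.l 25)) (.b 22 (.b 25 (.b 29 (.l 34) (.l 29)) (.l 25)) (.l 34)))) (.l 31)) (.l 39)) (.l 35)) (.b 31 (.b 35 (.l 38) (.l 35)) (.b 28 (.b 35 (.l 38) (.l 35)) (.l 38)))) (.l 37)) (.l 37)) (.l 37))) (.b 10 (.b 7 (.b 4 (.b 2 (.b 38 (.b 34 (.b 35 (.b 31 (.b 39 (.b 29 (.b 25 (.b 28 (.b 20 (.b 22 (.m 0 (.l 36)) (.l 22)) (.l 20)) (.l 28)) (.l 25)) (.l 29)) (.l 39)) (.l 31)) (.l 35)) (.b 28 (.b 35 (.b 31 (.b 39 (.b 29 (.b 25 (.l 34) (.l 25)) (.l 29)) (.l 39)) (.l 31)) (.l 35)) (.b 22 (.b 35 (.b 39 (.b 31 (.b 29 (.b 25 (.l 34) (.l 25)) (.l 29)) (.l 31)) (.l 39)) (.l 35)) (.l 34)))) (.b 31 (.b 28 (.b 35 (.l 38) (.l 35)) (.b 25 (.b 39 (.l 38) (.l 39)) (.l 38))) (.b 28 (.b 25 (.b 39 (.l 38) (.l 39)) (.l 38)) (.l 38)))) (.l 37)) (.l 37)) (.l 37)) (.l 37))) (.b 14 (.b 10 (.b 7 (.b 4 (.b 2 (.b 38 (.b 34 (.b 35 (.b 39 (.b 31 (.b 29 (.b 25 (.b 28 (.b 20 (.b 22 (.m 0 (.l 36)) (.l 22)) (.l 20)) (.l 28)) (.l 25)) (.l 29)) (.l 31)) (.l 39)) (.l 35)) (.b 28 (.b 35 (.b 39 (.b 31 (.b 29 (.b 25 (.l 34) (.l 25)) (.l 29)) (.l 31)) (.l 39)) (.l 35)) (.b 22 (.b 35 (.b 39 (.b 17 (.b 29 (.b 31 (.b 25 (.l 34) (.l 25)) (.l 31)) (.l 29)) (.l 34)) (.l 39)) (.l 35)) (.l 34)))) (.b 31 (.b 28 (.b 35 (.l 38) (.l 35)) (.b 25 (.b 39 (.l 38) (.l 39)) (.l 38))) (.b 28 (.b 25 (.b 39 (.l 38) (.l 39)) (.l 38)) (.l 38)))) (.l 37)) (.l 37)) (.l 37)) (.l 37)) (.l 37))) (.b 19 (.b 14 (.b 10 (.b 7 (.b 4 (.b 2 (.b 34 (.b 39 (.b 35 (.b 38 (.b 31 (.b 29 (.b 25 (.b 32 (.b 20 (.b 22 (.m 0 (.l 36)) (.l 22)) (.l 20)) (.l 32)) (.l 25)) (.l 29)) (.l 31)) (.l 38)) (.l 35)) (.b 32 (.b 35 (.l 39) (.l 35)) (.b 29 (.b 38 (.l 39) (.l 38)) (.b 26 (.b 35 (.l 39) (.l 35)) (.l 39))))) (.b 28 (.b 22 (.b 35 (.b 39 (.b 38 (.b 29 (.b 25 (.b 31 (.l 34) (.l 31)) (.l 25)) (.l 29)) (.l 38)) (.l 39)) (.l 35)) (.b 17 (.b 39 (.b 35 (.b 38 (.b 29 (.b 31 (.b 25 (.l 34) (.l 25)) (.l 31)) (.l 29)) (.l 38)) (.l 35)) (.l 39)) (.l 34))) (.b 22 (.b 17 (.b 39 (.b 35 (.b 38 (.b 29 (.b 31 (.b 25 (.l 34) (.l 25)) (.l 31)) (.l 29)) (.l 38)) (.l 35)) (.l 39)) (.l 34)) (.l 34)))) (.l 37)) (.l 37)) (.l 37)) (.l 37)) (.l 37)) (.l 37))) (.b 24 (.b 19 (.b 14 (.b 10 (.b 7 (.b 4 (.b 2 (.b 39 (.b 38 (.b 35 (.b 36 (.b 31 (.b 29 (.b 25 (.b 32 (.b 20 (.b 22 (.m 0 (.l 34)) (.l 22)) (.l 20)) (.l 32)) (.l 25)) (.l 29)) (.l 31)) (.b 26 (.b 31 (.b 29 (.b 25 (.b 32 (.b 20 (.b 22 (.m 0 (.l 36)) (.l 22)) (.l 20)) (.l 32)) (.l 25)) (.l 29)) (.l 31)) (.b 18 (.b 31 (.b 11 (.b 32 (.b 25 (.b 28 (.b 20 (.m 0 (.l 34)) (.l 20)) (.l 28)) (.l 25)) (.b 23 (.b 25 (.b 28 (.l 32) (.l 28)) (.l 25)) (.b 15 (.b 34 (.b 25 (.l 32) (.l 25)) (.l 34)) (.l 32)))) (.b 6 (.b 32 (.b 25 (.b 29 (.b 20 (.m 0 (.l 34)) (.l 20)) (.l 29)) (.l 25)) (.b 23 (.b 25 (.b 29 (.l 32) (.l 29)) (.l 25)) (.l 32))) (.l 36))) (.l 31)) (.b 11 (.b 6 (.b 32 (.b 31 (.b 29 (.b 25 (.b 28 (.m 0 (.l 34)) (.l 28)) (.l 25)) (.l 29)) (.l 31)) (.b 23 (.b 31 (.b 15 (.b 34 (.b 25 (.m 0 (.l 32)) (.l 25)) (.l 34)) (.l 32)) (.l 31)) (.l 32))) (.l 36)) (.l 36))))) (.l 35)) (.b 31 (.b 35 (.l 38) (.l 35)) (.b 28 (.b 35 (.l 38) (.l 35)) (.b 25 (.b 22 (.b 35 (.l 38) (.l 35)) (.l 38)) (.l 38))))) (.b 32 (.b 29 (.b 38 (.b 35 (.l 39) (.l 35)) (.l 38)) (.b 26 (.b 35 (.b 38 (.l 39) (.l 38)) (.l 35)) (.b 23 (.b 38 (.b 35 (.l 39) (.l 35)) (.l 38)) (.l 39)))) (.b 29 (.b 26 (.b 38 (.b 35 (.l 39) (.l 35)) (.l 38)) (.b 23 (.b 38 (.b 20 (.b 18 (.b 31 (.l 39) (.l 31)) (.l 39)) (.l 39)) (.l 38)) (.l 39))) (.b 26 (.b 23 (.b 38 (.b 35 (.l 39) (.l 35)) (.l 38)) (.l 39)) (.l 39))))) (.l 37)) (.l 37)) (.l 37)) (.l 37)) (.l 37)) (.l 37)) (.l 37)))) (.l 40)) (.l 40)) (.l 40)) (.l 40)) (.l 40)) (.l 40)) (.l 40))) (.b 21 (.b 16 (.b 12 (.b 8 (.b 5 (.b 3 (.b 1 (.b 0 (.b 37 (.b 39 (.b 38 (.m 22 (.b 26 (.b 18 (.b 11 (.b 35 (.b 31 (.b 34 (.b 28 (.b 25 (.b 22 (.b 29 (.b 17 (.b 20 (.b 13 (.b 14 (.m 0 (.l 32)) (.l 14)) (.l 13)) (.l 20)) (.l 17)) (.l 29)) (.l 22)) (.l 25)) (.l 28)) (.l 34)) (.l 31)) (.b 29 (.b 31 (.l 35) (.l 31)) (.b 25 (.b 34 (.l 35) (.l 34)) (.b 23 (.b 31 (.l 35) (.l 31)) (.l 35))))) (.b 6 (.b 35 (.b 31 (.b 34 (.b 32 (.b 25 (.b 28 (.b 22 (.b 20 (.b 17 (.b 19 (.b 13 (.m 0 (.l 30)) (.l 13)) (.l 19)) (.l 17)) (.l 20)) (.l 22)) (.l 28)) (.l 25)) (.b 23 (.b 25 (.b 28 (.b 22 (.b 20 (.b 17 (.l 32) (.l 17)) (.l 20)) (.l 22)) (.l 28)) (.l 25)) (.b 15 (.b 28 (.b 25 (.b 22 (.b 29 (.b 17 (.l 32) (.l 17)) (.l 29)) (.l 22)) (.l 25)) (.l 28)) (.l 32)))) (.l 34)) (.l 31)) (.b 29 (.b 31 (.l 35) (.l 31)) (.b 25 (.b 23 (.b 31 (.l 35) (.l 31)) (.l 35)) (.l 35)))) (.b 2 (.b 35 (.b 31 (.b 34 (.b 32 (.b 25 (.b 28 (.b 22 (.b 20 (.b 17 (.b 23 (.b 13 (.m 0 (.l 30)) (.l 13)) (.l 23)) (.l 17)) (.l 20)) (.l 22)) (.l 28)) (.l 25)) (.b 23 (.b 25 (.b 28 (.b 22 (.b 20 (.b 17 (.l 32) (.l 17)) (.l 20)) (.l 22)) (.l 28)) (.l 25)) (.l 32))) (.l 34)) (.l 31)) (.b 29 (.b 31 (.l 35) (.l 31)) (.l 35))) (.l 36)))) (.b 11 (.b 6 (.b 35 (.b 32 (.b 31 (.b 34 (.b 28 (.b 25 (.b 22 (.b 29 (.m 14 (.l 30)) (.l 29)) (.l 22)) (.l 25)) (.l 28)) (.l 34)) (.l 31)) (.b 23 (.b 31 (.b 34 (.b 28 (.b 25 (.b 22 (.b 29 (.b 17 (.l 32) (.l 17)) (.l 29)) (.l 22)) (.l 25)) (.l 28)) (.l 34)) (.l 31)) (.b 15 (.b 34 (.b 31 (.b 28 (.b 9 (.b 4 (.b 2 (.b 29 (.b 22 (.b 24 (.m 0 (.l 30)) (.l 24)) (.l 22)) (.b 20 (.b 22 (.l 29) (.l 22)) (.l 29))) (.l 32)) (.l 32)) (.l 32)) (.l 28)) (.l 31)) (.l 34)) (.l 32)))) (.b 29 (.b 25 (.b 34 (.l 35) (.l 34)) (.b 23 (.b 31 (.l 35) (.l 31)) (.l 35))) (.b 25 (.b 23 (.b 34 (.l 35) (.l 34)) (.l 35)) (.l 35)))) (.b 2 (.b 35 (.b 32 (.b 31 (.b 34 (.b 28 (.b 25 (.b 22 (.b 29 (.m 14 (.l 30)) (.l 29)) (.l 22)) (.l 25)) (.l 28)) (.l 34)) (.l 31)) (.b 23 (.b 31 (.b 34 (.b 28 (.b 25 (.b 22 (.b 29 (.b 17 (.l 32) (.l 17)) (.l 29)) (.l 22)) (.l 25)) (.l 28)) (.l 34)) (.l 31)) (.l 32))) (.b 29 (.b 25 (.b 34 (.l 35) (.l 34)) (.l 35)) (.l 35))) (.l 36))) (.b 6 (.b 2 (.b 35 (.b 32 (.b 31 (.b 34 (.b 29 (.b 25 (.b 28 (.m 14 (.b 22 (.l 30) (.l 22))) (.l 28)) (.l 25)) (.b 23 (.b 25 (.l 29) (.l 25)) (.l 29))) (.l 34)) (.l 31)) (.b 23 (.b 31 (.b 34 (.b 15 (.b 28 (.b 25 (.b 22 (.b 29 (.b 17 (.l 32) (.l 17)) (.l 29)) (.l 22)) (.l 25)) (.l 28)) (.l 32)) (.l 34)) (.l 31)) (.l 32))) (.b 29 (.b 25 (.b 23 (.b 31 (.l 35) (.l 31)) (.l 35)) (.l 35)) (.l 35))) (.l 36)) (.l 36)))) (.b 18 (.b 11 (.b 6 (.b 32 (.b 35 (.b 31 (.b 34 (.b 28 (.b 25 (.b 22 (.b 29 (.b 17 (.b 19 (.b 13 (.m 0 (.l 30)) (.l 13)) (.l 19)) (.l 17)) (.l 29)) (.l 22)) (.l 25)) (.l 28)) (.l 34)) (.l 31)) (.b 29 (.b 31 (.l 35) (.l 31)) (.b 25 (.b 34 (.l 35) (.l 34)) (.b 23 (.b 31 (.l 35) (.l 31)) (.l 35))))) (.b 23 (.b 15 (.b 34 (.b 31 (.b 28 (.b 35 (.b 22 (.b 25 (.b 17 (.b 19 (.l 32) (.l 19)) (.l 17)) (.l 25)) (.l 22)) (.l 35)) (.l 28)) (.l 31)) (.l 34)) (.b 9 (.b 4 (.b 2 (.b 35 (.b 31 (.b 34 (.b 28 (.b 25 (.b 22 (.b 24 (.m 0 (.l 30)) (.l 24)) (.l 22)) (.l 25)) (.l 28)) (.l 34)) (.l 31)) (.b 29 (.b 31 (.b 34 (.l 35) (.l 34)) (.l 31)) (.b 25 (.b 34 (.b 31 (.l 35) (.l 31)) (.l 34)) (.l 35)))) (.l 32)) (.l 32)) (.l 32))) (.b 15 (.b 9 (.b 4 (.b 2 (.b 35 (.b 34 (.b 31 (.b 28 (.b 29 (.b 22 (.b 24 (.m 0 (.l 30)) (.l 24)) (.l 22)) (.b 20 (.b 22 (.b 24 (.m 0 (.l 30)) (.l 24)) (.l 22)) (.b 13 (.b 30 (.b 22 (.m 0 (.l 29)) (.l 22)) (.l 30)) (.l 29)))) (.l 28)) (.l 31)) (.l 34)) (.b 29 (.b 34 (.b 31 (.l 35) (.l 31)) (.l 34)) (.b 25 (.b 34 (.b 20 (.b 28 (.l 35) (.l 28)) (.l 35)) (.l 34)) (.l 35)))) (.l 32)) (.l 32)) (.l 32)) (.l 32)))) (.b 2 (.b 32 (.b 35 (.b 31 (.b 34 (.b 28 (.b 25 (.b 22 (.b 29 (.b 17 (.b 20 (.b 13 (.m 0 (.l 30)) (.l 13)) (.l 20)) (.l 17)) (.l 29)) (.l 22)) (.l 25)) (.l 28)) (.l 34)) (.l 31)) (.b 29 (.b 31 (.l 35) (.l 31)) (.b 25 (.b 34 (.l 35) (.l 34)) (.l 35)))) (.b 23 (.b 15 (.b 34 (.b 31 (.b 28 (.b 35 (.b 22 (.b 25 (.b 17 (.b 20 (.l 32) (.l 20)) (.l 17)) (.l 25)) (.l 22)) (.l 35)) (.l 28)) (.l 31)) (.l 34)) (.l 32)) (.l 32))) (.l 36))) (.b 6 (.b 2 (.b 32 (.b 35 (.b 31 (.b 34 (.b 29 (.b 25 (.b 28 (.b 22 (.b 20 (.b 17 (.b 19 (.m 0 (.l 30)) (.l 19)) (.l 17)) (.l 20)) (.l 22)) (.l 28)) (.l 25)) (.b 23 (.b 25 (.b 28 (.l 29) (.l 28)) (.l 25)) (.b 20 (.b 28 (.b 25 (.l 29) (.l 25)) (.l 28)) (.l 29)))) (.l 34)) (.l 31)) (.b 29 (.b 31 (.l 35) (.l 31)) (.b 25 (.b 23 (.b 31 (.l 35) (.l 31)) (.l 35)) (.l 35)))) (.b 23 (.b 15 (.b 9 (.b 4 (.b 35 (.b 31 (.b 34 (.b 28 (.b 25 (.b 22 (.b 24 (.m 0 (.l 30)) (.l 24)) (.l 22)) (.l 25)) (.l 28)) (.l 34)) (.l 31)) (.b 29 (.b 31 (.b 34 (.l 35) (.l 34)) (.l 31)) (.b 25 (.b 34 (.b 31 (.l 35) (.l 31)) (.l 34)) (.l 35)))) (.l 32)) (.l 32)) (.l 32)) (.l 32))) (.l 36)) (.l 36))) (.b 11 (.b 6 (.b 2 (.b 32 (.b 35 (.b 29 (.b 31 (.b 34 (.b 28 (.b 25 (.b 22 (.b 30 (.b 17 (.b 19 (.m 0 (.l 24)) (.l 19)) (.l 17)) (.l 30)) (.l 22)) (.l 25)) (.l 28)) (.l 34)) (.l 31)) (.b 23 (.b 31 (.b 34 (.b 28 (.b 25 (.l 29) (.l 25)) (.l 28)) (.l 34)) (.l 31)) (.b 20 (.b 34 (.b 31 (.b 28 (.b 15 (.b 22 (.l 29) (.l 22)) (.l 29)) (.l 28)) (.l 31)) (.l 34)) (.l 29)))) (.b 29 (.b 25 (.b 34 (.l 35) (.l 34)) (.b 23 (.b 31 (.l 35) (.l 31)) (.l 35))) (.b 25 (.b 23 (.b 34 (.l 35) (.l 34)) (.l 35)) (.l 35)))) (.b 23 (.b 15 (.b 9 (.b 4 (.b 35 (.b 34 (.b 31 (.b 28 (.b 29 (.b 22 (.b 24 (.m 0 (.l 30)) (.l 24)) (.l 22)) (.b 20 (.b 22 (.b 24 (.m 0 (.l 30)) (.l 24)) (.l 22)) (.b 13 (.b 30 (.b 22 (.m 0 (.l 29)) (.l 22)) (.l 30)) (.l 29)))) (.l 28)) (.l 31)) (.l 34)) (.b 29 (.b 34 (.b 31 (.l 35) (.l 31)) (.l 34)) (.b 25 (.b 34 (.b 20 (.b 28 (.l 35) (.l 28)) (.l 35)) (.l 34)) (.l 35)))) (.l 32)) (.l 32)) (.l 32)) (.l 32))) (.l 36)) (.l 36)) (.l 36))))) (.b 31 (.b 28 (.b 25 (.b 22 (.b 35 (.l 38) (.l 35)) (.b 20 (.b 19 (.b 35 (.l 38) (.l 35)) (.b 17 (.b 15 (.b 14 (.b 35 (.l 38) (.l 35)) (.l 38)) (.l 38)) (.l 38))) (.b 19 (.b 35 (.l 38) (.l 35)) (.l 38)))) (.b 22 (.b 35 (.l 38) (.l 35)) (.b 20 (.b 19 (.b 35 (.l 38) (.l 35)) (.l 38)) (.l 38)))) (.b 25 (.b 22 (.b 20 (.b 19 (.b 35 (.l 38) (.l 35)) (.b 17 (.b 15 (.b 14 (.b 35 (.l 38) (.l 35)) (.l 38)) (.l 38)) (.l 38))) (.b 19 (.b 35 (.l 38) (.l 35)) (.l 38))) (.b 20 (.b 19 (.b 17 (.b 15 (.b 14 (.b 35 (.l 38) (.l 35)) (.l 38)) (.l 38)) (.l 38)) (.l 38)) (.l 38))) (.b 22 (.b 20 (.b 19 (.b 35 (.l 38) (.l 35)) (.l 38)) (.l 38)) (.l 38)))) (.b 28 (.b 25 (.b 22 (.b 20 (.b 19 (.b 35 (.l 38) (.l 35)) (.b 17 (.b 15 (.b 14 (.b 35 (.l 38) (.l 35)) (.l 38)) (.l 38)) (.l 38))) (.b 19 (.b 35 (.l 38) (.l 35)) (.l 38))) (.b 20 (.b 19 (.b 17 (.b 15 (.b 14 (.b 35 (.l 38) (.l 35)) (.l 38)) (.l 38)) (.l 38)) (.l 38)) (.l 38))) (.b 22 (.b 20 (.b 19 (.b 35 (.l 38) (.l 35)) (.l 38)) (.l 38)) (.l 38))) (.b 25 (.b 22 (.b 20 (.b 19 (.b 17 (.b 15 (.b 14 (.b 35 (.l 38) (.l 35)) (.l 38)) (.l 38)) (.l 38)) (.l 38)) (.l 38)) (.l 38)) (.l 38))))) (.b 32 (.b 29 (.b 38 (.b 26 (.b 23 (.b 31 (.b 34 (.b 35 (.b 25 (.l 39) (.l 25)) (.l 35)) (.l 34)) (.l 31)) (.b 20 (.b 18 (.b 31 (.b 34 (.b 28 (.b 25 (.l 39) (.l 25)) (.l 28)) (.l 34)) (.l 31)) (.b 15 (.b 34 (.b 31 (.b 28 (.b 35 (.l 39) (.l 35)) (.l 28)) (.l 31)) (.l 34)) (.l 39))) (.b 18 (.b 31 (.b 34 (.b 35 (.b 25 (.l 39) (.l 25)) (.l 35)) (.l 34)) (.l 31)) (.l 39)))) (.b 23 (.b 20 (.b 18 (.b 31 (.b 34 (.b 28 (.b 25 (.l 39) (.l 25)) (.l 28)) (.l 34)) (.l 31)) (.b 15 (.b 34 (.b 31 (.b 28 (.b 35 (.l 39) (.l 35)) (.l 28)) (.l 31)) (.l 34)) (.l 39))) (.b 18 (.b 31 (.b 34 (.b 35 (.b 25 (.l 39) (.l 25)) (.l 35)) (.l 34)) (.l 31)) (.l 39))) (.b 20 (.b 18 (.b 15 (.b 34 (.b 31 (.b 28 (.b 35 (.l 39) (.l 35)) (.l 28)) (.l 31)) (.l 34)) (.l 39)) (.l 39)) (.l 39)))) (.l 38)) (.b 26 (.b 38 (.b 23 (.b 20 (.b 18 (.b 31 (.b 34 (.b 28 (.b 25 (.l 39) (.l 25)) (.l 28)) (.l 34)) (.l 31)) (.b 15 (.b 34 (.b 31 (.b 28 (.b 35 (.l 39) (.l 35)) (.l 28)) (.l 31)) (.l 34)) (.l 39))) (.b 18 (.b 31 (.b 34 (.b 35 (.b 25 (.l 39) (.l 25)) (.l 35)) (.l 34)) (.l 31)) (.l 39))) (.b 20 (.b 18 (.b 15 (.b 34 (.b 31 (.b 28 (.b 35 (.l 39) (.l 35)) (.l 28)) (.l 31)) (.l 34)) (.l 39)) (.l 39)) (.l 39))) (.l 38)) (.b 23 (.b 38 (.b 20 (.b 18 (.b 15 (.b 34 (.b 31 (.b 28 (.b 35 (.l 39) (.l 35)) (.l 28)) (.l 31)) (.l 34)) (.l 39)) (.l 39)) (.l 39)) (.l 38)) (.l 39)))) (.b 29 (.b 26 (.b 38 (.b 23 (.b 20 (.b 18 (.b 31 (.b 34 (.b 28 (.b 25 (.l 39) (.l 25)) (.l 28)) (.l 34)) (.l 31)) (.b 15 (.b 34 (.b 31 (.b 28 (.b 35 (.l 39) (.l 35)) (.l 28)) (.l 31)) (.l 34)) (.l 39))) (.b 18 (.b 31 (.b 34 (.b 35 (.b 25 (.l 39) (.l 25)) (.l 35)) (.l 34)) (.l 31)) (.l 39))) (.b 20 (.b 18 (.b 15 (.b 34 (.b 31 (.b 28 (.b 35 (.l 39) (.l 35)) (.l 28)) (.l 31)) (.l 34)) (.l 39)) (.l 39)) (.l 39))) (.l 38)) (.b 23 (.b 38 (.b 20 (.b 18 (.b 15 (.b 34 (.b 31 (.b 28 (.b 35 (.l 39) (.l 35)) (.l 28)) (.l 31)) (.l 34)) (.l 39)) (.l 39)) (.l 39)) (.l 38)) (.l 39))) (.b 26 (.b 23 (.b 38 (.b 20 (.b 18 (.b 15 (.b 34 (.b 31 (.b 28 (.b 35 (.l 39) (.l 35)) (.l 28)) (.l 31)) (.l 34)) (.l 39)) (.l 39)) (.l 39)) (.l 38)) (.l 39)) (.l 39))))) (.b 30 (.b 24 (.b 19 (.b 14 (.b 10 (.b 7 (.b 4 (.b 39 (.b 35 (.b 38 (.b 31 (.b 29 (.b 25 (.b 32 (.b 20 (.b 22 (.b 15 (.m 0 (.l 36)) (.l 15)) (.l 22)) (.l 20)) (.l 32)) (.l 25)) (.l 29)) (.l 31)) (.l 38)) (.l 35)) (.b 32 (.b 35 (.l 39) (.l 35)) (.b 29 (.b 38 (.l 39) (.l 38)) (.b 26 (.b 35 (.l 39) (.l 35)) (.l 39))))) (.b 2 (.b 39 (.b 35 (.b 38 (.b 31 (.b 29 (.b 25 (.b 32 (.b 20 (.b 22 (.b 15 (.m 0 (.l 36)) (.l 15)) (.l 22)) (.l 20)) (.l 32)) (.l 25)) (.l 29)) (.l 31)) (.l 38)) (.l 35)) (.b 32 (.b 35 (.l 39) (.l 35)) (.b 29 (.b 38 (.l 39) (.l 38)) (.l 39)))) (.l 37))) (.b 4 (.b 2 (.b 39 (.b 35 (.b 38 (.b 31 (.b 29 (.b 25 (.b 32 (.b 20 (.b 22 (.b 17 (.m 0 (.l 36)) (.l 17)) (.l 22)) (.l 20)) (.l 32)) (.l 25)) (.l 29)) (.l 31)) (.l 38)) (.l 35)) (.b 32 (.b 35 (.l 39) (.l 35)) (.b 29 (.b 38 (.l 39) (.l 38)) (.l 39)))) (.l 37)) (.l 37))) (.b 7 (.b 4 (.b 2 (.b 38 (.b 35 (.b 39 (.b 31 (.b 34 (.b 25 (.b 29 (.b 28 (.b 20 (.b 17 (.m 0 (.l 36)) (.l 17)) (.l 20)) (.l 28)) (.l 29)) (.l 25)) (.b 28 (.b 25 (.b 29 (.l 34) (.l 29)) (.l 25)) (.b 22 (.b 25 (.b 29 (.l 34) (.l 29)) (.l 25)) (.l 34)))) (.l 31)) (.l 39)) (.l 35)) (.b 31 (.b 35 (.l 38) (.l 35)) (.b 28 (.b 35 (.l 38) (.l 35)) (.l 38)))) (.l 37)) (.l 37)) (.l 37))) (.b 10 (.b 7 (.b 4 (.b 2 (.b 38 (.b 34 (.b 35 (.b 31 (.b 39 (.b 29 (.b 25 (.b 28 (.b 20 (.b 22 (.m 0 (.l 36)) (.l 22)) (.l 20)) (.l 28)) (.l 25)) (.l 29)) (.l 39)) (.l 31)) (.l 35)) (.b 28 (.b 35 (.b 31 (.b 39 (.b 29 (.b 25 (.l 34) (.l 25)) (.l 29)) (.l 39)) (.l 31)) (.l 35)) (.b 22 (.b 35 (.b 39 (.b 31 (.b 29 (.b 25 (.l 34) (.l 25)) (.l 29)) (.l 31)) (.l 39)) (.l 35)) (.l 34)))) (.b 31 (.b 28 (.b 35 (.l 38) (.l 35)) (.b 25 (.b 39 (.l 38) (.l 39)) (.l 38))) (.b 28 (.b 25 (.b 39 (.l 38) (.l 39)) (.l 38)) (.l 38)))) (.l 37)) (.l 37)) (.l 37)) (.l 37))) (.b 14 (.b 10 (.b 7 (.b 4 (.b 2 (.b 38 (.b 34 (.b 35 (.b 39 (.b 31 (.b 29 (.b 25 (.b 28 (.b 20 (.b 22 (.m 0 (.l 36)) (.l 22)) (.l 20)) (.l 28)) (.l 25)) (.l 29)) (.l 31)) (.l 39)) (.l 35)) (.b 28 (.b 35 (.b 39 (.b 31 (.b 29 (.b 25 (.l 34) (.l 25)) (.l 29)) (.l 31)) (.l 39)) (.l 35)) (.b 22 (.b 35 (.b 39 (.b 17 (.b 29 (.b 31 (.b 25 (.l 34) (.l 25)) (.l 31)) (.l 29)) (.l 34)) (.l 39)) (.l 35)) (.l 34)))) (.b 31 (.b 28 (.b 35 (.l 38) (.l 35)) (.b 25 (.b 39 (.l 38) (.l 39)) (.l 38))) (.b 28 (.b 25 (.b 39 (.l 38) (.l 39)) (.l 38)) (.l 38)))) (.l 37)) (.l 37)) (.l 37)) (.l 37)) (.l 37))) (.b 19 (.b 14 (.b 10 (.b 7 (.b 4 (.b 2 (.b 34 (.b 39 (.b 35 (.b 38 (.b 31 (.b 29 (.b 25 (.b 32 (.b 20 (.b 22 (.m 0 (.l 36)) (.l 22)) (.l 20)) (.l 32)) (.l 25)) (.l 29)) (.l 31)) (.l 38)) (.l 35)) (.b 32 (.b 35 (.l 39) (.l 35)) (.b 29 (.b 38 (.l 39) (.l 38)) (.b 26 (.b 35 (.l 39) (.l 35)) (.l 39))))) (.b 28 (.b 22 (.b 35 (.b 39 (.b 38 (.b 29 (.b 25 (.b 31 (.l 34) (.l 31)) (.l 25)) (.l 29)) (.l 38)) (.l 39)) (.l 35)) (.b 17 (.b 39 (.b 35 (.b 38 (.b 29 (.b 31 (.b 25 (.l 34) (.l 25)) (.l 31)) (.l 29)) (.l 38)) (.l 35)) (.l 39)) (.l 34))) (.b 22 (.b 17 (.b 39 (.b 35 (.b 38 (.b 29 (.b 31 (.b 25 (.l 34) (.l 25)) (.l 31)) (.l 29)) (.l 38)) (.l 35)) (.l 39)) (.l 34)) (.l 34)))) (.l 37)) (.l 37)) (.l 37)) (.l 37)) (.l 37)) (.l 37))) (.b 24 (.b 19 (.b 14 (.b 10 (.b 7 (.b 4 (.b 2 (.b 39 (.b 38 (.b 35 (.b 36 (.b 31 (.b 29 (.b 25 (.b 32 (.b 20 (.b 22 (.m 0 (.l 34)) (.l 22)) (.l 20)) (.l 32)) (.l 25)) (.l 29)) (.l 31)) (.b 26 (.b 31 (.b 29 (.b 25 (.b 32 (.b 20 (.b 22 (.m 0 (.l 36)) (.l 22)) (.l 20)) (.l 32)) (.l 25)) (.l 29)) (.l 31)) (.b 18 (.b 31 (.b 11 (.b 32 (.b 25 (.b 28 (.b 20 (.m 0 (.l 34)) (.l 20)) (.l 28)) (.l 25)) (.b 23 (.b 25 (.b 28 (.l 32) (.l 28)) (.l 25)) (.b 15 (.b 34 (.b 25 (.l 32) (.l 25)) (.l 34)) (.l 32)))) (.b 6 (.b 32 (.b 25 (.b 29 (.b 20 (.m 0 (.l 34)) (.l 20)) (.l 29)) (.l 25)) (.b 23 (.b 25 (.b 29 (.l 32) (.l 29)) (.l 25)) (.l 32))) (.l 36))) (.l 31)) (.b 11 (.b 6 (.b 32 (.b 31 (.b 29 (.b 25 (.b 28 (.m 0 (.l 34)) (.l 28)) (.l 25)) (.l 29)) (.l 31)) (.b 23 (.b 31 (.b 15 (.b 34 (.b 25 (.m 0 (.l 32)) (.l 25)) (.l 34)) (.l 32)) (.l 31)) (.l 32))) (.l 36)) (.l 36))))) (.l 35)) (.b 31 (.b 35 (.l 38) (.l 35)) (.b 28 (.b 35 (.l 38) (.l 35)) (.b 25 (.b 22 (.b 35 (.l 38) (.l 35)) (.l 38)) (.l 38))))) (.b 32 (.b 29 (.b 38 (.b 35 (.l 39) (.l 35)) (.l 38)) (.b 26 (.b 35 (.b 38 (.l 39) (.l 38)) (.l 35)) (.b 23 (.b 38 (.b 35 (.l 39) (.l 35)) (.l 38)) (.l 39)))) (.b 29 (.b 26 (.b 38 (.b 35 (.l 39) (.l 35)) (.l 38)) (.b 23 (.b 38 (.b 20 (.b 18 (.b 31 (.l 39) (.l 31)) (.l 39)) (.l 39)) (.l 38)) (.l 39))) (.b 26 (.b 23 (.b 38 (.b 35 (.l 39) (.l 35)) (.l 38)) (.l 39)) (.l 39))))) (.l 37)) (.l 37)) (.l 37)) (.l 37)) (.l 37)) (.l 37)) (.l 37)))) (.l 40)) (.l 40)) (.l 40)) (.l 40)) (.l 40)) (.l 40)) (.l 40)) (.l 40)))))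

private lemma k26 : chk dm3 (PLf PL3 26) 41 25 c26 0 0 = true := by decide +kernel

private def c27 : Cert := (.m 26 (.b 34 (.b 30 (.b 28 (.b 24 (.b 22 (.b 21 (.b 19 (.b 17 (.b 16 (.b 14 (.b 13 (.b 12 (.b 35 (.b 38 (.b 31 (.b 39 (.b 25 (.b 29 (.l 41) (.l 29)) (.l 25)) (.l 39)) (.l 31)) (.l 38)) (.l 35)) (.b 10 (.b 9 (.b 8 (.b 35 (.b 38 (.b 39 (.b 29 (.b 25 (.b 31 (.l 41) (.l 31)) (.l 25)) (.l 29)) (.l 39)) (.l 38)) (.l 35)) (.b 7 (.b 6 (.b 5 (.b 39 (.b 35 (.b 38 (.b 29 (.b 31 (.b 25 (.l 41) (.l 25)) (.l 31)) (.l 29)) (.l 38)) (.l 35)) (.l 39)) (.l 41)) (.l 41)) (.l 41))) (.b 8 (.b 35 (.b 38 (.b 39 (.b 29 (.b 25 (.b 31 (.l 41) (.l 31)) (.l 25)) (.l 29)) (.l 39)) (.l 38)) (.l 35)) (.l 41))) (.b 9 (.b 8 (.b 35 (.b 38 (.b 39 (.b 31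 (.b 25 (.b 29 (.l 41) (.l 29)) (.l 25)) (.l 31)) (.l 39)) (.l 38)) (.l 35)) (.l 41)) (.l 41)))) (.b 12 (.b 35 (.b 38 (.b 31 (.b 39 (.b 25 (.b 29 (.l 41) (.l 29)) (.l 25)) (.l 39)) (.l 31)) (.l 38)) (.l 35)) (.b 10 (.b 9 (.b 8 (.b 35 (.b 38 (.b 39 (.b 29 (.b 25 (.b 31 (.l 41) (.l 31)) (.l 25)) (.l 29)) (.l 39)) (.l 38)) (.l 35)) (.l 41)) (.l 41)) (.l 41)))) (.b 13 (.b 12 (.b 10 (.b 9 (.b 8 (.b 35 (.b 38 (.b 31 (.b 29 (.b 25 (.b 32 (.l 41) (.l 32)) (.l 25)) (.l 29)) (.l 31)) (.l 38)) (.l 35)) (.b 7 (.b 6 (.b 5 (.b 39 (.b 35 (.b 31 (.b 29 (.b 32 (.b 25 (.l 41) (.l 25)) (.l 32)) (.l 29)) (.l 31)) (.l 35)) (.l 39)) (.l 41)) (.l 41)) (.l 41))) (.b 8 (.b 35 (.b 38 (.b 31 (.b 29 (.b 25 (.b 32 (.l 41) (.l 32)) (.l 25)) (.l 29)) (.l 31))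 (.l 38)) (.l 35)) (.l 41))) (.b 9 (.b 8 (.b 35 (.b 38 (.b 31 (.b 39 (.b 25 (.b 29 (.l 41) (.l 29)) (.l 25)) (.l 39)) (.l 31)) (.l 38)) (.l 35)) (.l 41)) (.l 41))) (.b 10 (.b 9 (.b 8 (.b 7 (.b 6 (.b 5 (.b 39 (.b 35 (.b 38 (.b 29 (.b 31 (.b 25 (.l 41) (.l 25)) (.l 31)) (.l 29)) (.l 38)) (.l 35)) (.l 39)) (.l 41)) (.l 41)) (.l 41)) (.l 41)) (.l 41)) (.l 41))) (.b 12 (.b 10 (.b 9 (.b 8 (.b 35 (.b 38 (.b 31 (.b 29 (.b 25 (.b 39 (.l 41) (.l 39)) (.l 25)) (.l 29)) (.l 31)) (.l 38)) (.l 35)) (.l 41)) (.l 41)) (.l 41)) (.l 41)))) (.b 14 (.b 13 (.b 12 (.b 10 (.b 9 (.b 8 (.b 35 (.b 39 (.b 38 (.b 29 (.b 25 (.b 31 (.l 41) (.l 31)) (.l 25)) (.l 29)) (.l 38)) (.l 39)) (.l 35)) (.b 7 (.b 6 (.b 5 (.b 39 (.b 35 (.b 38 (.b 29 (.b 31 (.b 25 (.l 41)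 (.l 25)) (.l 31)) (.l 29)) (.l 38)) (.l 35)) (.l 39)) (.l 41)) (.l 41)) (.l 41))) (.b 8 (.b 35 (.b 39 (.b 38 (.b 29 (.b 25 (.b 31 (.l 41) (.l 31)) (.l 25)) (.l 29)) (.l 38)) (.l 39)) (.l 35)) (.l 41))) (.b 9 (.b 8 (.b 35 (.b 39 (.b 38 (.b 31 (.b 25 (.b 29 (.l 41) (.l 29)) (.l 25)) (.l 31)) (.l 38)) (.l 39)) (.l 35)) (.l 41)) (.l 41))) (.b 10 (.b 9 (.b 8 (.b 7 (.b 6 (.b 5 (.b 39 (.b 35 (.b 38 (.b 29 (.b 31 (.b 25 (.l 41) (.l 25)) (.l 31)) (.l 29)) (.l 38)) (.l 35)) (.l 39)) (.l 41)) (.l 41)) (.l 41)) (.l 41)) (.l 41)) (.l 41))) (.b 12 (.b 10 (.b 9 (.b 8 (.b 35 (.b 39 (.b 38 (.b 29 (.b 25 (.b 31 (.l 41) (.l 31)) (.l 25)) (.l 29)) (.l 38)) (.l 39)) (.l 35)) (.l 41)) (.l 41)) (.l 41)) (.l 41))) (.b 13 (.b 12 (.b 10 (.b 9 (.b 8 (.b 7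 (.b 6 (.b 5 (.b 39 (.b 35 (.b 38 (.b 29 (.b 31 (.b 25 (.l 41) (.l 25)) (.l 31)) (.l 29)) (.l 38)) (.l 35)) (.l 39)) (.l 41)) (.l 41)) (.l 41)) (.l 41)) (.l 41)) (.l 41)) (.l 41)) (.l 41)))) (.b 16 (.b 14 (.b 13 (.b 12 (.b 35 (.b 38 (.b 31 (.b 39 (.b 25 (.b 29 (.l 41) (.l 29)) (.l 25)) (.l 39)) (.l 31)) (.l 38)) (.l 35)) (.b 10 (.b 9 (.b 8 (.b 35 (.b 38 (.b 39 (.b 31 (.b 25 (.b 29 (.l 41) (.l 29)) (.l 25)) (.l 31)) (.l 39)) (.l 38)) (.l 35)) (.l 41)) (.l 41)) (.l 41))) (.b 12 (.b 35 (.b 38 (.b 31 (.b 39 (.b 25 (.b 29 (.l 41) (.l 29)) (.l 25)) (.l 39)) (.l 31)) (.l 38)) (.l 35)) (.l 41))) (.b 13 (.b 12 (.b 10 (.b 9 (.b 8 (.b 35 (.b 38 (.b 31 (.b 39 (.b 25 (.b 29 (.l 41) (.l 29)) (.l 25)) (.l 39)) (.l 31)) (.l 38)) (.l 35)) (.l 41))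 (.l 41)) (.l 41)) (.l 41)) (.l 41))) (.b 14 (.b 13 (.b 12 (.b 10 (.b 9 (.b 8 (.b 35 (.b 39 (.b 38 (.b 31 (.b 25 (.b 29 (.l 41) (.l 29)) (.l 25)) (.l 31)) (.l 38)) (.l 39)) (.l 35)) (.l 41)) (.l 41)) (.l 41)) (.l 41)) (.l 41)) (.l 41)))) (.b 17 (.b 16 (.b 14 (.b 13 (.b 12 (.b 10 (.b 9 (.b 8 (.b 35 (.b 38 (.b 39 (.b 29 (.b 25 (.b 31 (.l 41) (.l 31)) (.l 25)) (.l 29)) (.l 39)) (.l 38)) (.l 35)) (.b 7 (.b 6 (.b 5 (.b 39 (.b 35 (.b 38 (.b 29 (.b 31 (.b 25 (.l 41) (.l 25)) (.l 31)) (.l 29)) (.l 38)) (.l 35)) (.l 39)) (.l 41)) (.l 41)) (.l 41))) (.b 8 (.b 35 (.b 38 (.b 39 (.b 29 (.b 25 (.b 31 (.l 41) (.l 31)) (.l 25)) (.l 29)) (.l 39)) (.l 38)) (.l 35)) (.l 41))) (.b 9 (.b 8 (.b 35 (.b 38 (.b 39 (.b 31 (.b 25 (.b 29 (.l 41) (.l 29)) (.l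 25)) (.l 31)) (.l 39)) (.l 38)) (.l 35)) (.l 41)) (.l 41))) (.b 10 (.b 9 (.b 8 (.b 7 (.b 6 (.b 5 (.b 39 (.b 35 (.b 38 (.b 29 (.b 31 (.b 25 (.l 41) (.l 25)) (.l 31)) (.l 29)) (.l 38)) (.l 35)) (.l 39)) (.l 41)) (.l 41)) (.l 41)) (.l 41)) (.l 41)) (.l 41))) (.b 12 (.b 10 (.b 9 (.b 8 (.b 35 (.b 38 (.b 39 (.b 29 (.b 25 (.b 31 (.l 41) (.l 31)) (.l 25)) (.l 29)) (.l 39)) (.l 38)) (.l 35)) (.l 41)) (.l 41)) (.l 41)) (.l 41))) (.b 13 (.b 12 (.b 10 (.b 9 (.b 8 (.b 7 (.b 6 (.b 5 (.b 39 (.b 35 (.b 38 (.b 29 (.b 31 (.b 25 (.l 41) (.l 25)) (.l 31)) (.l 29)) (.l 38)) (.l 35)) (.l 39)) (.l 41)) (.l 41)) (.l 41)) (.l 41)) (.l 41)) (.l 41)) (.l 41)) (.l 41))) (.b 14 (.b 13 (.b 12 (.b 10 (.b 9 (.b 8 (.b 7 (.b 6 (.b 5 (.b 39 (.b 35 (.b 38 (.b 29 (.b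 31 (.b 25 (.l 41) (.l 25)) (.l 31)) (.l 29)) (.l 38)) (.l 35)) (.l 39)) (.l 41)) (.l 41)) (.l 41)) (.l 41)) (.l 41)) (.l 41)) (.l 41)) (.l 41)) (.l 41))) (.b 16 (.b 14 (.b 13 (.b 12 (.b 10 (.b 9 (.b 8 (.b 35 (.b 38 (.b 39 (.b 31 (.b 25 (.b 29 (.l 41) (.l 29)) (.l 25)) (.l 31)) (.l 39)) (.l 38)) (.l 35)) (.l 41)) (.l 41)) (.l 41)) (.l 41)) (.l 41)) (.l 41)) (.l 41)))) (.b 19 (.b 17 (.b 16 (.b 14 (.b 13 (.b 12 (.b 10 (.b 9 (.b 8 (.b 35 (.b 39 (.b 38 (.b 29 (.b 25 (.b 31 (.l 41) (.l 31)) (.l 25)) (.l 29)) (.l 38)) (.l 39)) (.l 35)) (.b 7 (.b 6 (.b 5 (.b 39 (.b 35 (.b 38 (.b 29 (.b 31 (.b 25 (.l 41) (.l 25)) (.l 31)) (.l 29)) (.l 38)) (.l 35)) (.l 39)) (.l 41)) (.l 41)) (.l 41))) (.b 8 (.b 35 (.b 39 (.b 38 (.b 29 (.b 25 (.b 31 (.l 41)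 (.l 31)) (.l 25)) (.l 29)) (.l 38)) (.l 39)) (.l 35)) (.l 41))) (.b 9 (.b 8 (.b 35 (.b 39 (.b 38 (.b 31 (.b 25 (.b 29 (.l 41) (.l 29)) (.l 25)) (.l 31)) (.l 38)) (.l 39)) (.l 35)) (.l 41)) (.l 41))) (.b 10 (.b 9 (.b 8 (.b 7 (.b 6 (.b 5 (.b 39 (.b 35 (.b 38 (.b 29 (.b 31 (.b 25 (.l 41) (.l 25)) (.l 31)) (.l 29)) (.l 38)) (.l 35)) (.l 39)) (.l 41)) (.l 41)) (.l 41)) (.l 41)) (.l 41)) (.l 41))) (.b 12 (.b 10 (.b 9 (.b 8 (.b 35 (.b 39 (.b 38 (.b 29 (.b 25 (.b 31 (.l 41) (.l 31)) (.l 25)) (.l 29)) (.l 38)) (.l 39)) (.l 35)) (.l 41)) (.l 41)) (.l 41)) (.l 41))) (.b 13 (.b 12 (.b 10 (.b 9 (.b 8 (.b 7 (.b 6 (.b 5 (.b 39 (.b 35 (.b 38 (.b 29 (.b 31 (.b 25 (.l 41) (.l 25)) (.l 31)) (.l 29)) (.l 38)) (.l 35)) (.l 39)) (.l 41)) (.l 41)) (.l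 41)) (.l 41)) (.l 41)) (.l 41)) (.l 41)) (.l 41))) (.b 14 (.b 13 (.b 12 (.b 10 (.b 9 (.b 8 (.b 7 (.b 6 (.b 5 (.b 39 (.b 35 (.b 4 (.b 3 (.b 2 (.b 1 (.b 0 (.b 40 (.b 29 (.b 31 (.m 0 (.l 38)) (.l 31)) (.l 29)) (.b 33 (.b 29 (.b 31 (.m 0 (.l 40)) (.l 31)) (.l 29)) (.l 40))) (.l 41)) (.l 41)) (.l 41)) (.l 41)) (.l 41)) (.l 35)) (.l 39)) (.l 41)) (.l 41)) (.l 41)) (.l 41)) (.l 41)) (.l 41)) (.l 41)) (.l 41)) (.l 41))) (.b 16 (.b 14 (.b 13 (.b 12 (.b 10 (.b 9 (.b 8 (.b 35 (.b 39 (.b 38 (.b 31 (.b 25 (.b 29 (.l 41) (.l 29)) (.l 25)) (.l 31)) (.l 38)) (.l 39)) (.l 35)) (.l 41)) (.l 41)) (.l 41)) (.l 41)) (.l 41)) (.l 41)) (.l 41))) (.b 17 (.b 16 (.b 14 (.b 13 (.b 12 (.b 10 (.b 9 (.b 8 (.b 7 (.b 6 (.b 5 (.b 39 (.b 35 (.b 38 (.b 29 (.b 31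 (.b 25 (.l 41) (.l 25)) (.l 31)) (.l 29)) (.l 38)) (.l 35)) (.l 39)) (.l 41)) (.l 41)) (.l 41)) (.l 41)) (.l 41)) (.l 41)) (.l 41)) (.l 41)) (.l 41)) (.l 41)) (.l 41)))) (.b 21 (.b 19 (.b 17 (.b 16 (.b 14 (.b 13 (.b 12 (.b 10 (.b 9 (.b 8 (.b 35 (.b 38 (.b 31 (.b 29 (.b 25 (.b 32 (.l 41) (.l 32)) (.l 25)) (.l 29)) (.l 31)) (.l 38)) (.l 35)) (.b 7 (.b 6 (.b 5 (.b 39 (.b 35 (.b 31 (.b 29 (.b 32 (.b 25 (.l 41) (.l 25)) (.l 32)) (.l 29)) (.l 31)) (.l 35)) (.l 39)) (.l 41)) (.l 41)) (.l 41))) (.b 8 (.b 35 (.b 38 (.b 31 (.b 29 (.b 25 (.b 32 (.l 41) (.l 32)) (.l 25)) (.l 29)) (.l 31)) (.l 38)) (.l 35)) (.l 41))) (.b 9 (.b 8 (.b 35 (.b 38 (.b 31 (.b 39 (.b 25 (.b 29 (.l 41) (.l 29)) (.l 25)) (.l 39)) (.l 31)) (.l 38)) (.l 35)) (.l 41)) (.l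 41))) (.b 10 (.b 9 (.b 8 (.b 7 (.b 6 (.b 5 (.b 39 (.b 35 (.b 38 (.b 29 (.b 31 (.b 25 (.l 41) (.l 25)) (.l 31)) (.l 29)) (.l 38)) (.l 35)) (.l 39)) (.l 41)) (.l 41)) (.l 41)) (.l 41)) (.l 41)) (.l 41))) (.b 12 (.b 10 (.b 9 (.b 8 (.b 35 (.b 38 (.b 31 (.b 29 (.b 25 (.b 39 (.l 41) (.l 39)) (.l 25)) (.l 29)) (.l 31)) (.l 38)) (.l 35)) (.l 41)) (.l 41)) (.l 41)) (.l 41))) (.b 13 (.b 12 (.b 10 (.b 9 (.b 8 (.b 7 (.b 6 (.b 5 (.b 39 (.b 35 (.b 31 (.b 29 (.b 32 (.b 25 (.l 41) (.l 25)) (.l 32)) (.l 29)) (.l 31)) (.l 35)) (.l 39)) (.l 41)) (.l 41)) (.l 41)) (.l 41)) (.l 41)) (.l 41)) (.l 41)) (.l 41))) (.b 14 (.b 13 (.b 12 (.b 10 (.b 9 (.b 8 (.b 7 (.b 6 (.b 5 (.b 39 (.b 35 (.b 38 (.b 29 (.b 31 (.b 25 (.l 41) (.l 25)) (.l 31)) (.l 29)) (.l 38))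 (.l 35)) (.l 39)) (.l 41)) (.l 41)) (.l 41)) (.l 41)) (.l 41)) (.l 41)) (.l 41)) (.l 41)) (.l 41))) (.b 16 (.b 14 (.b 13 (.b 12 (.b 10 (.b 9 (.b 8 (.b 35 (.b 38 (.b 31 (.b 39 (.b 25 (.b 29 (.l 41) (.l 29)) (.l 25)) (.l 39)) (.l 31)) (.l 38)) (.l 35)) (.l 41)) (.l 41)) (.l 41)) (.l 41)) (.l 41)) (.l 41)) (.l 41))) (.b 17 (.b 16 (.b 14 (.b 13 (.b 12 (.b 10 (.b 9 (.b 8 (.b 7 (.b 6 (.b 5 (.b 39 (.b 35 (.b 38 (.b 29 (.b 31 (.b 25 (.l 41) (.l 25)) (.l 31)) (.l 29)) (.l 38)) (.l 35)) (.l 39)) (.l 41)) (.l 41)) (.l 41)) (.l 41)) (.l 41)) (.l 41)) (.l 41)) (.l 41)) (.l 41)) (.l 41)) (.l 41))) (.b 19 (.b 17 (.b 16 (.b 14 (.b 13 (.b 12 (.b 10 (.b 9 (.b 8 (.b 7 (.b 6 (.b 5 (.b 39 (.b 35 (.b 38 (.b 29 (.b 31 (.b 25 (.l 41) (.l 25)) (.l 31))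 (.l 29)) (.l 38)) (.l 35)) (.l 39)) (.l 41)) (.l 41)) (.l 41)) (.l 41)) (.l 41)) (.l 41)) (.l 41)) (.l 41)) (.l 41)) (.l 41)) (.l 41)) (.l 41)))) (.b 22 (.b 21 (.b 19 (.b 17 (.b 16 (.b 14 (.b 13 (.b 12 (.b 10 (.b 9 (.b 8 (.b 35 (.b 39 (.b 38 (.b 29 (.b 25 (.b 31 (.l 41) (.l 31)) (.l 25)) (.l 29)) (.l 38)) (.l 39)) (.l 35)) (.b 7 (.b 6 (.b 5 (.b 39 (.b 35 (.b 38 (.b 29 (.b 31 (.b 25 (.l 41) (.l 25)) (.l 31)) (.l 29)) (.l 38)) (.l 35)) (.l 39)) (.l 41)) (.l 41)) (.l 41))) (.b 8 (.b 35 (.b 39 (.b 38 (.b 29 (.b 25 (.b 31 (.l 41) (.l 31)) (.l 25)) (.l 29)) (.l 38)) (.l 39)) (.l 35)) (.l 41))) (.b 9 (.b 8 (.b 35 (.b 39 (.b 38 (.b 31 (.b 25 (.b 29 (.l 41) (.l 29)) (.l 25)) (.l 31)) (.l 38)) (.l 39)) (.l 35)) (.l 41)) (.l 41))) (.b 10 (.b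 9 (.b 8 (.b 7 (.b 6 (.b 5 (.b 39 (.b 35 (.b 38 (.b 29 (.b 31 (.b 25 (.l 41) (.l 25)) (.l 31)) (.l 29)) (.l 38)) (.l 35)) (.l 39)) (.l 41)) (.l 41)) (.l 41)) (.l 41)) (.l 41)) (.l 41))) (.b 12 (.b 10 (.b 9 (.b 8 (.b 35 (.b 39 (.b 38 (.b 29 (.b 25 (.b 31 (.l 41) (.l 31)) (.l 25)) (.l 29)) (.l 38)) (.l 39)) (.l 35)) (.l 41)) (.l 41)) (.l 41)) (.l 41))) (.b 13 (.b 12 (.b 10 (.b 9 (.b 8 (.b 7 (.b 6 (.b 5 (.b 39 (.b 35 (.b 38 (.b 29 (.b 31 (.b 25 (.l 41) (.l 25)) (.l 31)) (.l 29)) (.l 38)) (.l 35)) (.l 39)) (.l 41)) (.l 41)) (.l 41)) (.l 41)) (.l 41)) (.l 41)) (.l 41)) (.l 41))) (.b 14 (.b 13 (.b 12 (.b 10 (.b 9 (.b 8 (.b 7 (.b 6 (.b 5 (.b 39 (.b 35 (.b 4 (.b 3 (.b 2 (.b 1 (.b 0 (.b 37 (.b 29 (.b 31 (.m 0 (.l 40)) (.l 31)) (.l 29)) (.b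 27 (.b 29 (.b 31 (.m 0 (.l 38)) (.l 31)) (.l 29)) (.l 37))) (.l 41)) (.l 41)) (.l 41)) (.l 41)) (.l 41)) (.l 35)) (.l 39)) (.l 41)) (.l 41)) (.l 41)) (.l 41)) (.l 41)) (.l 41)) (.l 41)) (.l 41)) (.l 41))) (.b 16 (.b 14 (.b 13 (.b 12 (.b 10 (.b 9 (.b 8 (.b 35 (.b 39 (.b 38 (.b 31 (.b 25 (.b 29 (.l 41) (.l 29)) (.l 25)) (.l 31)) (.l 38)) (.l 39)) (.l 35)) (.l 41)) (.l 41)) (.l 41)) (.l 41)) (.l 41)) (.l 41)) (.l 41))) (.b 17 (.b 16 (.b 14 (.b 13 (.b 12 (.b 10 (.b 9 (.b 8 (.b 7 (.b 6 (.b 5 (.b 39 (.b 35 (.b 38 (.b 29 (.b 31 (.b 25 (.l 41) (.l 25)) (.l 31)) (.l 29)) (.l 38)) (.l 35)) (.l 39)) (.l 41)) (.l 41)) (.l 41)) (.l 41)) (.l 41)) (.l 41)) (.l 41)) (.l 41)) (.l 41)) (.l 41)) (.l 41))) (.b 19 (.b 17 (.b 16 (.b 14 (.b 13 (.b 12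 (.b 10 (.b 9 (.b 8 (.b 7 (.b 6 (.b 5 (.b 39 (.b 35 (.b 4 (.b 3 (.b 2 (.b 1 (.b 0 (.b 37 (.b 29 (.b 31 (.m 0 (.l 40)) (.l 31)) (.l 29)) (.b 27 (.b 29 (.b 31 (.m 0 (.l 38)) (.l 31)) (.l 29)) (.l 37))) (.l 41)) (.l 41)) (.l 41)) (.l 41)) (.l 41)) (.l 35)) (.l 39)) (.l 41)) (.l 41)) (.l 41)) (.l 41)) (.l 41)) (.l 41)) (.l 41)) (.l 41)) (.l 41)) (.l 41)) (.l 41)) (.l 41))) (.b 21 (.b 19 (.b 17 (.b 16 (.b 14 (.b 13 (.b 12 (.b 10 (.b 9 (.b 8 (.b 7 (.b 6 (.b 5 (.b 39 (.b 35 (.b 38 (.b 29 (.b 31 (.b 25 (.l 41) (.l 25)) (.l 31)) (.l 29)) (.l 38)) (.l 35)) (.l 39)) (.l 41)) (.l 41)) (.l 41)) (.l 41)) (.l 41)) (.l 41)) (.l 41)) (.l 41)) (.l 41)) (.l 41)) (.l 41)) (.l 41)) (.l 41)))) (.b 24 (.b 22 (.b 21 (.b 19 (.b 17 (.b 16 (.b 14 (.b 13 (.b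 12 (.b 10 (.b 9 (.b 8 (.b 35 (.b 38 (.b 39 (.b 29 (.b 25 (.b 31 (.l 41) (.l 31)) (.l 25)) (.l 29)) (.l 39)) (.l 38)) (.l 35)) (.b 7 (.b 6 (.b 5 (.b 39 (.b 35 (.b 38 (.b 29 (.b 31 (.b 25 (.l 41) (.l 25)) (.l 31)) (.l 29)) (.l 38)) (.l 35)) (.l 39)) (.l 41)) (.l 41)) (.l 41))) (.b 8 (.b 35 (.b 38 (.b 39 (.b 29 (.b 25 (.b 31 (.l 41) (.l 31)) (.l 25)) (.l 29)) (.l 39)) (.l 38)) (.l 35)) (.l 41))) (.b 9 (.b 8 (.b 35 (.b 38 (.b 39 (.b 31 (.b 25 (.b 29 (.l 41) (.l 29)) (.l 25)) (.l 31)) (.l 39)) (.l 38)) (.l 35)) (.l 41)) (.l 41))) (.b 10 (.b 9 (.b 8 (.b 7 (.b 6 (.b 5 (.b 39 (.b 35 (.b 38 (.b 29 (.b 31 (.b 25 (.l 41) (.l 25)) (.l 31)) (.l 29)) (.l 38)) (.l 35)) (.l 39)) (.l 41)) (.l 41)) (.l 41)) (.l 41)) (.l 41)) (.l 41))) (.b 12 (.b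 10 (.b 9 (.b 8 (.b 35 (.b 38 (.b 39 (.b 29 (.b 25 (.b 31 (.l 41) (.l 31)) (.l 25)) (.l 29)) (.l 39)) (.l 38)) (.l 35)) (.l 41)) (.l 41)) (.l 41)) (.l 41))) (.b 13 (.b 12 (.b 10 (.b 9 (.b 8 (.b 7 (.b 6 (.b 5 (.b 39 (.b 35 (.b 38 (.b 29 (.b 31 (.b 25 (.l 41) (.l 25)) (.l 31)) (.l 29)) (.l 38)) (.l 35)) (.l 39)) (.l 41)) (.l 41)) (.l 41)) (.l 41)) (.l 41)) (.l 41)) (.l 41)) (.l 41))) (.b 14 (.b 13 (.b 12 (.b 10 (.b 9 (.b 8 (.b 7 (.b 6 (.b 5 (.b 39 (.b 35 (.b 38 (.b 29 (.b 31 (.b 25 (.l 41) (.l 25)) (.l 31)) (.l 29)) (.l 38)) (.l 35)) (.l 39)) (.l 41)) (.l 41)) (.l 41)) (.l 41)) (.l 41)) (.l 41)) (.l 41)) (.l 41)) (.l 41))) (.b 16 (.b 14 (.b 13 (.b 12 (.b 10 (.b 9 (.b 8 (.b 35 (.b 38 (.b 39 (.b 31 (.b 25 (.b 29 (.l 41) (.l 29)) (.l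 25)) (.l 31)) (.l 39)) (.l 38)) (.l 35)) (.l 41)) (.l 41)) (.l 41)) (.l 41)) (.l 41)) (.l 41)) (.l 41))) (.b 17 (.b 16 (.b 14 (.b 13 (.b 12 (.b 10 (.b 9 (.b 8 (.b 7 (.b 6 (.b 5 (.b 39 (.b 35 (.b 38 (.b 29 (.b 31 (.b 25 (.l 41) (.l 25)) (.l 31)) (.l 29)) (.l 38)) (.l 35)) (.l 39)) (.l 41)) (.l 41)) (.l 41)) (.l 41)) (.l 41)) (.l 41)) (.l 41)) (.l 41)) (.l 41)) (.l 41)) (.l 41))) (.b 19 (.b 17 (.b 16 (.b 14 (.b 13 (.b 12 (.b 10 (.b 9 (.b 8 (.b 7 (.b 6 (.b 5 (.b 39 (.b 35 (.b 38 (.b 29 (.b 31 (.b 25 (.l 41) (.l 25)) (.l 31)) (.l 29)) (.l 38)) (.l 35)) (.l 39)) (.l 41)) (.l 41)) (.l 41)) (.l 41)) (.l 41)) (.l 41)) (.l 41)) (.l 41)) (.l 41)) (.l 41)) (.l 41)) (.l 41))) (.b 21 (.b 19 (.b 17 (.b 16 (.b 14 (.b 13 (.b 12 (.b 10 (.b 9 (.b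 8 (.b 7 (.b 6 (.b 5 (.b 39 (.b 35 (.b 38 (.b 29 (.b 31 (.b 25 (.l 41) (.l 25)) (.l 31)) (.l 29)) (.l 38)) (.l 35)) (.l 39)) (.l 41)) (.l 41)) (.l 41)) (.l 41)) (.l 41)) (.l 41)) (.l 41)) (.l 41)) (.l 41)) (.l 41)) (.l 41)) (.l 41)) (.l 41))) (.b 22 (.b 21 (.b 19 (.b 17 (.b 16 (.b 14 (.b 13 (.b 12 (.b 10 (.b 9 (.b 8 (.b 7 (.b 6 (.b 5 (.b 39 (.b 35 (.b 38 (.b 29 (.b 31 (.b 25 (.l 41) (.l 25)) (.l 31)) (.l 29)) (.l 38)) (.l 35)) (.l 39)) (.l 41)) (.l 41)) (.l 41)) (.l 41)) (.l 41)) (.l 41)) (.l 41)) (.l 41)) (.l 41)) (.l 41)) (.l 41)) (.l 41)) (.l 41)) (.l 41)))) (.b 28 (.b 24 (.b 22 (.b 21 (.b 19 (.b 17 (.b 16 (.b 14 (.b 13 (.b 12 (.b 10 (.b 9 (.b 8 (.b 35 (.b 39 (.b 38 (.b 29 (.b 25 (.b 31 (.l 41) (.l 31)) (.l 25)) (.l 29)) (.l 38))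 (.l 39)) (.l 35)) (.b 7 (.b 6 (.b 5 (.b 39 (.b 35 (.b 38 (.b 29 (.b 31 (.b 25 (.l 41) (.l 25)) (.l 31)) (.l 29)) (.l 38)) (.l 35)) (.l 39)) (.l 41)) (.l 41)) (.l 41))) (.b 8 (.b 35 (.b 39 (.b 38 (.b 29 (.b 25 (.b 31 (.l 41) (.l 31)) (.l 25)) (.l 29)) (.l 38)) (.l 39)) (.l 35)) (.l 41))) (.b 9 (.b 8 (.b 35 (.b 39 (.b 38 (.b 31 (.b 25 (.b 29 (.l 41) (.l 29)) (.l 25)) (.l 31)) (.l 38)) (.l 39)) (.l 35)) (.l 41)) (.l 41))) (.b 10 (.b 9 (.b 8 (.b 7 (.b 6 (.b 5 (.b 39 (.b 35 (.b 38 (.b 29 (.b 31 (.b 25 (.l 41) (.l 25)) (.l 31)) (.l 29)) (.l 38)) (.l 35)) (.l 39)) (.l 41)) (.l 41)) (.l 41)) (.l 41)) (.l 41)) (.l 41))) (.b 12 (.b 10 (.b 9 (.b 8 (.b 35 (.b 39 (.b 38 (.b 29 (.b 25 (.b 31 (.l 41) (.l 31)) (.l 25)) (.l 29)) (.l 38)) (.l 39))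 (.l 35)) (.l 41)) (.l 41)) (.l 41)) (.l 41))) (.b 13 (.b 12 (.b 10 (.b 9 (.b 8 (.b 7 (.b 6 (.b 5 (.b 39 (.b 35 (.b 38 (.b 29 (.b 31 (.b 25 (.l 41) (.l 25)) (.l 31)) (.l 29)) (.l 38)) (.l 35)) (.l 39)) (.l 41)) (.l 41)) (.l 41)) (.l 41)) (.l 41)) (.l 41)) (.l 41)) (.l 41))) (.b 14 (.b 13 (.b 12 (.b 10 (.b 9 (.b 8 (.b 7 (.b 6 (.b 5 (.b 39 (.b 35 (.b 4 (.b 3 (.b 2 (.b 1 (.b 0 (.b 37 (.b 29 (.b 31 (.m 0 (.l 40)) (.l 31)) (.l 29)) (.b 27 (.b 29 (.b 31 (.m 0 (.l 38)) (.l 31)) (.l 29)) (.l 37))) (.l 41)) (.l 41)) (.l 41)) (.l 41)) (.l 41)) (.l 35)) (.l 39)) (.l 41)) (.l 41)) (.l 41)) (.l 41)) (.l 41)) (.l 41)) (.l 41)) (.l 41)) (.l 41))) (.b 16 (.b 14 (.b 13 (.b 12 (.b 10 (.b 9 (.b 8 (.b 35 (.b 39 (.b 38 (.b 31 (.b 25 (.b 29 (.l 41) (.l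 29)) (.l 25)) (.l 31)) (.l 38)) (.l 39)) (.l 35)) (.l 41)) (.l 41)) (.l 41)) (.l 41)) (.l 41)) (.l 41)) (.l 41))) (.b 17 (.b 16 (.b 14 (.b 13 (.b 12 (.b 10 (.b 9 (.b 8 (.b 7 (.b 6 (.b 5 (.b 39 (.b 35 (.b 38 (.b 29 (.b 31 (.b 25 (.l 41) (.l 25)) (.l 31)) (.l 29)) (.l 38)) (.l 35)) (.l 39)) (.l 41)) (.l 41)) (.l 41)) (.l 41)) (.l 41)) (.l 41)) (.l 41)) (.l 41)) (.l 41)) (.l 41)) (.l 41))) (.b 19 (.b 17 (.b 16 (.b 14 (.b 13 (.b 12 (.b 10 (.b 9 (.b 8 (.b 7 (.b 6 (.b 5 (.b 39 (.b 35 (.b 4 (.b 3 (.b 2 (.b 1 (.b 0 (.b 37 (.b 29 (.b 31 (.m 0 (.l 40)) (.l 31)) (.l 29)) (.b 27 (.b 29 (.b 31 (.m 0 (.l 38)) (.l 31)) (.l 29)) (.l 37))) (.l 41)) (.l 41)) (.l 41)) (.l 41)) (.l 41)) (.l 35)) (.l 39)) (.l 41)) (.l 41)) (.l 41)) (.l 41)) (.l 41))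 (.l 41)) (.l 41)) (.l 41)) (.l 41)) (.l 41)) (.l 41)) (.l 41))) (.b 21 (.b 19 (.b 17 (.b 16 (.b 14 (.b 13 (.b 12 (.b 10 (.b 9 (.b 8 (.b 7 (.b 6 (.b 5 (.b 39 (.b 35 (.b 38 (.b 29 (.b 31 (.b 25 (.l 41) (.l 25)) (.l 31)) (.l 29)) (.l 38)) (.l 35)) (.l 39)) (.l 41)) (.l 41)) (.l 41)) (.l 41)) (.l 41)) (.l 41)) (.l 41)) (.l 41)) (.l 41)) (.l 41)) (.l 41)) (.l 41)) (.l 41))) (.b 22 (.b 21 (.b 19 (.b 17 (.b 16 (.b 14 (.b 13 (.b 12 (.b 10 (.b 9 (.b 8 (.b 7 (.b 6 (.b 5 (.b 39 (.b 35 (.b 4 (.b 3 (.b 2 (.b 1 (.b 0 (.b 37 (.b 29 (.b 31 (.m 0 (.l 38)) (.l 31)) (.l 29)) (.b 27 (.b 29 (.b 31 (.m 0 (.l 38)) (.l 31)) (.l 29)) (.l 37))) (.l 41)) (.l 41)) (.l 41)) (.l 41)) (.l 41)) (.l 35)) (.l 39)) (.l 41)) (.l 41)) (.l 41)) (.l 41)) (.l 41)) (.l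 41)) (.l 41)) (.l 41)) (.l 41)) (.l 41)) (.l 41)) (.l 41)) (.l 41)) (.l 41))) (.b 24 (.b 22 (.b 21 (.b 19 (.b 17 (.b 16 (.b 14 (.b 13 (.b 12 (.b 10 (.b 9 (.b 8 (.b 7 (.b 6 (.b 5 (.b 39 (.b 35 (.b 38 (.b 29 (.b 31 (.b 25 (.l 41) (.l 25)) (.l 31)) (.l 29)) (.l 38)) (.l 35)) (.l 39)) (.l 41)) (.l 41)) (.l 41)) (.l 41)) (.l 41)) (.l 41)) (.l 41)) (.l 41)) (.l 41)) (.l 41)) (.l 41)) (.l 41)) (.l 41)) (.l 41)) (.l 41)))) (.b 30 (.b 28 (.b 24 (.b 22 (.b 21 (.b 19 (.b 17 (.b 16 (.b 14 (.b 13 (.b 12 (.b 10 (.b 9 (.b 8 (.b 35 (.b 39 (.b 38 (.b 29 (.b 25 (.b 31 (.l 41) (.l 31)) (.l 25)) (.l 29)) (.l 38)) (.l 39)) (.l 35)) (.b 7 (.b 6 (.b 5 (.b 39 (.b 35 (.b 38 (.b 29 (.b 31 (.b 25 (.l 41) (.l 25)) (.l 31)) (.l 29)) (.l 38)) (.l 35)) (.l 39))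 (.l 41)) (.l 41)) (.l 41))) (.b 8 (.b 35 (.b 39 (.b 38 (.b 29 (.b 25 (.b 31 (.l 41) (.l 31)) (.l 25)) (.l 29)) (.l 38)) (.l 39)) (.l 35)) (.l 41))) (.b 9 (.b 8 (.b 35 (.b 39 (.b 38 (.b 31 (.b 25 (.b 29 (.l 41) (.l 29)) (.l 25)) (.l 31)) (.l 38)) (.l 39)) (.l 35)) (.l 41)) (.l 41))) (.b 10 (.b 9 (.b 8 (.b 7 (.b 6 (.b 5 (.b 39 (.b 35 (.b 38 (.b 29 (.b 31 (.b 25 (.l 41) (.l 25)) (.l 31)) (.l 29)) (.l 38)) (.l 35)) (.l 39)) (.l 41)) (.l 41)) (.l 41)) (.l 41)) (.l 41)) (.l 41))) (.b 12 (.b 10 (.b 9 (.b 8 (.b 35 (.b 39 (.b 38 (.b 29 (.b 25 (.b 31 (.l 41) (.l 31)) (.l 25)) (.l 29)) (.l 38)) (.l 39)) (.l 35)) (.l 41)) (.l 41)) (.l 41)) (.l 41))) (.b 13 (.b 12 (.b 10 (.b 9 (.b 8 (.b 7 (.b 6 (.b 5 (.b 39 (.b 35 (.b 38 (.b 29 (.b 31 (.b 25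 (.l 41) (.l 25)) (.l 31)) (.l 29)) (.l 38)) (.l 35)) (.l 39)) (.l 41)) (.l 41)) (.l 41)) (.l 41)) (.l 41)) (.l 41)) (.l 41)) (.l 41))) (.b 14 (.b 13 (.b 12 (.b 10 (.b 9 (.b 8 (.b 7 (.b 6 (.b 5 (.b 39 (.b 35 (.b 4 (.b 3 (.b 2 (.b 1 (.b 0 (.b 40 (.b 29 (.b 31 (.m 0 (.l 38)) (.l 31)) (.l 29)) (.b 33 (.b 29 (.b 31 (.m 0 (.l 38)) (.l 31)) (.l 29)) (.b 27 (.b 29 (.b 31 (.m 0 (.l 38)) (.l 31)) (.l 29)) (.l 40)))) (.l 41)) (.l 41)) (.l 41)) (.l 41)) (.l 41)) (.l 35)) (.l 39)) (.l 41)) (.l 41)) (.l 41)) (.l 41)) (.l 41)) (.l 41)) (.l 41)) (.l 41)) (.l 41))) (.b 16 (.b 14 (.b 13 (.b 12 (.b 10 (.b 9 (.b 8 (.b 35 (.b 39 (.b 38 (.b 31 (.b 25 (.b 29 (.l 41) (.l 29)) (.l 25)) (.l 31)) (.l 38)) (.l 39)) (.l 35)) (.l 41)) (.l 41)) (.l 41)) (.l 41))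 (.l 41)) (.l 41)) (.l 41))) (.b 17 (.b 16 (.b 14 (.b 13 (.b 12 (.b 10 (.b 9 (.b 8 (.b 7 (.b 6 (.b 5 (.b 39 (.b 35 (.b 38 (.b 29 (.b 31 (.b 25 (.l 41) (.l 25)) (.l 31)) (.l 29)) (.l 38)) (.l 35)) (.l 39)) (.l 41)) (.l 41)) (.l 41)) (.l 41)) (.l 41)) (.l 41)) (.l 41)) (.l 41)) (.l 41)) (.l 41)) (.l 41))) (.b 19 (.b 17 (.b 16 (.b 14 (.b 13 (.b 12 (.b 10 (.b 9 (.b 8 (.b 7 (.b 6 (.b 5 (.b 39 (.b 35 (.b 4 (.b 3 (.b 2 (.b 1 (.b 0 (.b 40 (.b 29 (.b 31 (.m 0 (.l 38)) (.l 31)) (.l 29)) (.b 33 (.b 29 (.b 31 (.m 0 (.l 38)) (.l 31)) (.l 29)) (.b 27 (.b 29 (.b 31 (.m 0 (.l 38)) (.l 31)) (.l 29)) (.l 40)))) (.l 41)) (.l 41)) (.l 41)) (.l 41)) (.l 41)) (.l 35)) (.l 39)) (.l 41)) (.l 41)) (.l 41)) (.l 41)) (.l 41)) (.l 41)) (.l 41)) (.l 41)) (.l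 41)) (.l 41)) (.l 41)) (.l 41))) (.b 21 (.b 19 (.b 17 (.b 16 (.b 14 (.b 13 (.b 12 (.b 10 (.b 9 (.b 8 (.b 7 (.b 6 (.b 5 (.b 39 (.b 35 (.b 38 (.b 29 (.b 31 (.b 25 (.l 41) (.l 25)) (.l 31)) (.l 29)) (.l 38)) (.l 35)) (.l 39)) (.l 41)) (.l 41)) (.l 41)) (.l 41)) (.l 41)) (.l 41)) (.l 41)) (.l 41)) (.l 41)) (.l 41)) (.l 41)) (.l 41)) (.l 41))) (.b 22 (.b 21 (.b 19 (.b 17 (.b 16 (.b 14 (.b 13 (.b 12 (.b 10 (.b 9 (.b 8 (.b 7 (.b 6 (.b 5 (.b 39 (.b 35 (.b 4 (.b 3 (.b 2 (.b 1 (.b 0 (.b 38 (.b 29 (.b 31 (.m 0 (.l 36)) (.l 31)) (.l 29)) (.b 31 (.b 29 (.l 38) (.l 29)) (.b 25 (.b 29 (.l 38) (.l 29)) (.b 20 (.b 32 (.l 38) (.l 32)) (.l 38))))) (.l 41)) (.l 41)) (.l 41)) (.l 41)) (.l 41)) (.l 35)) (.l 39)) (.l 41)) (.l 41)) (.l 41)) (.l 41)) (.l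 41)) (.l 41)) (.l 41)) (.l 41)) (.l 41)) (.l 41)) (.l 41)) (.l 41)) (.l 41)) (.l 41))) (.b 24 (.b 22 (.b 21 (.b 19 (.b 17 (.b 16 (.b 14 (.b 13 (.b 12 (.b 10 (.b 9 (.b 8 (.b 7 (.b 6 (.b 5 (.b 39 (.b 35 (.b 38 (.b 29 (.b 31 (.b 25 (.l 41) (.l 25)) (.l 31)) (.l 29)) (.l 38)) (.l 35)) (.l 39)) (.l 41)) (.l 41)) (.l 41)) (.l 41)) (.l 41)) (.l 41)) (.l 41)) (.l 41)) (.l 41)) (.l 41)) (.l 41)) (.l 41)) (.l 41)) (.l 41)) (.l 41))) (.b 28 (.b 24 (.b 22 (.b 21 (.b 19 (.b 17 (.b 16 (.b 14 (.b 13 (.b 12 (.b 10 (.b 9 (.b 8 (.b 7 (.b 6 (.b 5 (.b 39 (.b 35 (.b 4 (.b 3 (.b 2 (.b 1 (.b 0 (.b 38 (.b 29 (.b 31 (.m 0 (.l 36)) (.l 31)) (.l 29)) (.b 31 (.b 29 (.l 38) (.l 29)) (.b 25 (.b 29 (.l 38) (.l 29)) (.b 20 (.b 32 (.l 38) (.l 32)) (.l 38))))) (.l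 41)) (.l 41)) (.l 41)) (.l 41)) (.l 41)) (.l 35)) (.l 39)) (.l 41)) (.l 41)) (.l 41)) (.l 41)) (.l 41)) (.l 41)) (.l 41)) (.l 41)) (.l 41)) (.l 41)) (.l 41)) (.l 41)) (.l 41)) (.l 41)) (.l 41)) (.l 41)))))

private lemma k27 : chk dm3 (PLf PL3 27) 42 26 c27 0 0 = true := by decide +kernel

private def c28 : Cert := (.m 27 (.b 35 (.b 31 (.b 29 (.b 25 (.b 23 (.b 22 (.b 20 (.b 18 (.b 41 (.b 17 (.b 15 (.b 14 (.b 13 (.b 11 (.b 34 (.b 37 (.b 30 (.b 28 (.b 24 (.l 42) (.l 24)) (.l 28)) (.l 30)) (.l 37)) (.l 34)) (.b 10 (.b 9 (.b 37 (.b 34 (.b 30 (.b 38 (.b 24 (.l 42) (.l 24)) (.l 38)) (.l 30)) (.l 34)) (.l 37)) (.b 8 (.b 7 (.b 6 (.b 37 (.b 34 (.b 30 (.b 38 (.b 24 (.l 42) (.l 24)) (.l 38)) (.l 30)) (.l 34)) (.l 37)) (.l 42)) (.l 42)) (.l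 42))) (.b 9 (.b 37 (.b 34 (.b 30 (.b 38 (.b 24 (.l 42) (.l 24)) (.l 38)) (.l 30)) (.l 34)) (.l 37)) (.l 42)))) (.b 11 (.b 34 (.b 37 (.b 38 (.b 28 (.b 30 (.l 42) (.l 30)) (.l 28)) (.l 38)) (.l 37)) (.l 34)) (.b 10 (.b 9 (.b 8 (.b 7 (.b 6 (.b 37 (.b 34 (.b 30 (.b 38 (.b 24 (.l 42) (.l 24)) (.l 38)) (.l 30)) (.l 34)) (.l 37)) (.l 42)) (.l 42)) (.l 42)) (.l 42)) (.l 42)))) (.b 13 (.b 11 (.b 34 (.b 37 (.b 30 (.b 28 (.b 24 (.l 42) (.l 24)) (.l 28)) (.l 30)) (.l 37)) (.l 34)) (.b 10 (.b 9 (.b 37 (.b 34 (.b 30 (.b 38 (.b 24 (.l 42) (.l 24)) (.l 38)) (.l 30)) (.l 34)) (.l 37)) (.l 42)) (.l 42))) (.b 11 (.b 34 (.b 37 (.b 38 (.b 28 (.b 30 (.l 42) (.l 30)) (.l 28)) (.l 38)) (.l 37)) (.l 34)) (.l 42)))) (.b 14 (.b 13 (.b 11 (.b 10 (.b 9 (.b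 37 (.b 34 (.b 30 (.b 38 (.b 24 (.l 42) (.l 24)) (.l 38)) (.l 30)) (.l 34)) (.l 37)) (.b 8 (.b 7 (.b 6 (.b 37 (.b 34 (.b 30 (.b 38 (.b 24 (.l 42) (.l 24)) (.l 38)) (.l 30)) (.l 34)) (.l 37)) (.l 42)) (.l 42)) (.l 42))) (.b 9 (.b 37 (.b 34 (.b 30 (.b 38 (.b 24 (.l 42) (.l 24)) (.l 38)) (.l 30)) (.l 34)) (.l 37)) (.l 42))) (.b 10 (.b 9 (.b 8 (.b 7 (.b 6 (.b 37 (.b 5 (.b 4 (.b 3 (.b 2 (.b 1 (.b 0 (.b 39 (.b 30 (.b 33 (.m 0 (.l 40)) (.l 33)) (.l 30)) (.b 32 (.b 30 (.b 33 (.m 0 (.l 40)) (.l 33)) (.l 30)) (.l 39))) (.l 42)) (.l 42)) (.l 42)) (.l 42)) (.l 42)) (.l 42)) (.l 37)) (.l 42)) (.l 42)) (.l 42)) (.l 42)) (.l 42))) (.b 11 (.b 10 (.b 9 (.b 8 (.b 7 (.b 6 (.b 37 (.b 34 (.b 30 (.b 38 (.b 24 (.l 42) (.l 24)) (.l 38)) (.l 30)) (.l 34))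 (.l 37)) (.l 42)) (.l 42)) (.l 42)) (.l 42)) (.l 42)) (.l 42))) (.b 13 (.b 11 (.b 10 (.b 9 (.b 37 (.b 34 (.b 30 (.b 38 (.b 24 (.l 42) (.l 24)) (.l 38)) (.l 30)) (.l 34)) (.l 37)) (.l 42)) (.l 42)) (.l 42)) (.l 42)))) (.b 15 (.b 14 (.b 13 (.b 11 (.b 34 (.b 37 (.b 38 (.b 28 (.b 30 (.l 42) (.l 30)) (.l 28)) (.l 38)) (.l 37)) (.l 34)) (.b 10 (.b 9 (.b 8 (.b 7 (.b 6 (.b 37 (.b 34 (.b 30 (.b 38 (.b 24 (.l 42) (.l 24)) (.l 38)) (.l 30)) (.l 34)) (.l 37)) (.l 42)) (.l 42)) (.l 42)) (.l 42)) (.l 42))) (.b 11 (.b 34 (.b 10 (.b 9 (.b 37 (.b 38 (.b 28 (.b 30 (.l 42) (.l 30)) (.l 28)) (.l 38)) (.l 37)) (.l 42)) (.l 42)) (.l 34)) (.l 42))) (.b 13 (.b 11 (.b 34 (.b 37 (.b 38 (.b 28 (.b 30 (.l 42) (.l 30)) (.l 28)) (.l 38)) (.l 37)) (.l 34)) (.l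 42)) (.l 42))) (.b 14 (.b 13 (.b 11 (.b 10 (.b 9 (.b 8 (.b 7 (.b 6 (.b 37 (.b 34 (.b 30 (.b 38 (.b 24 (.l 42) (.l 24)) (.l 38)) (.l 30)) (.l 34)) (.l 37)) (.l 42)) (.l 42)) (.l 42)) (.l 42)) (.l 42)) (.l 42)) (.l 42)) (.l 42)))) (.l 41)) (.b 17 (.b 15 (.b 41 (.b 14 (.b 13 (.b 11 (.b 10 (.b 9 (.b 37 (.b 34 (.b 30 (.b 38 (.b 24 (.l 42) (.l 24)) (.l 38)) (.l 30)) (.l 34)) (.l 37)) (.b 8 (.b 7 (.b 6 (.b 37 (.b 34 (.b 30 (.b 38 (.b 24 (.l 42) (.l 24)) (.l 38)) (.l 30)) (.l 34)) (.l 37)) (.l 42)) (.l 42)) (.l 42))) (.b 9 (.b 37 (.b 34 (.b 30 (.b 38 (.b 24 (.l 42) (.l 24)) (.l 38)) (.l 30)) (.l 34)) (.l 37)) (.l 42))) (.b 10 (.b 9 (.b 8 (.b 7 (.b 6 (.b 37 (.b 5 (.b 4 (.b 3 (.b 2 (.b 1 (.b 0 (.b 39 (.b 30 (.b 33 (.m 0 (.l 40)) (.l 33))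 (.l 30)) (.b 32 (.b 30 (.b 33 (.m 0 (.l 40)) (.l 33)) (.l 30)) (.l 39))) (.l 42)) (.l 42)) (.l 42)) (.l 42)) (.l 42)) (.l 42)) (.l 37)) (.l 42)) (.l 42)) (.l 42)) (.l 42)) (.l 42))) (.b 11 (.b 10 (.b 9 (.b 8 (.b 7 (.b 6 (.b 37 (.b 34 (.b 30 (.b 38 (.b 24 (.l 42) (.l 24)) (.l 38)) (.l 30)) (.l 34)) (.l 37)) (.l 42)) (.l 42)) (.l 42)) (.l 42)) (.l 42)) (.l 42))) (.b 13 (.b 11 (.b 10 (.b 9 (.b 37 (.b 34 (.b 30 (.b 38 (.b 24 (.l 42) (.l 24)) (.l 38)) (.l 30)) (.l 34)) (.l 37)) (.l 42)) (.l 42)) (.l 42)) (.l 42))) (.l 41)) (.b 14 (.b 13 (.b 11 (.b 41 (.b 10 (.b 9 (.b 8 (.b 7 (.b 6 (.b 37 (.b 5 (.b 4 (.b 3 (.b 2 (.b 1 (.b 0 (.b 39 (.b 30 (.b 33 (.m 0 (.l 40)) (.l 33)) (.l 30)) (.b 32 (.b 30 (.b 33 (.m 0 (.l 40)) (.l 33)) (.l 30)) (.l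 39))) (.l 42)) (.l 42)) (.l 42)) (.l 42)) (.l 42)) (.l 42)) (.l 37)) (.l 42)) (.l 42)) (.l 42)) (.l 42)) (.l 42)) (.l 41)) (.l 42)) (.l 42)) (.l 42))) (.b 15 (.b 41 (.b 14 (.b 13 (.b 11 (.b 10 (.b 9 (.b 8 (.b 7 (.b 6 (.b 37 (.b 34 (.b 30 (.b 38 (.b 24 (.l 42) (.l 24)) (.l 38)) (.l 30)) (.l 34)) (.l 37)) (.l 42)) (.l 42)) (.l 42)) (.l 42)) (.l 42)) (.l 42)) (.l 42)) (.l 42)) (.l 41)) (.l 42)))) (.b 18 (.b 17 (.b 15 (.b 41 (.b 14 (.b 13 (.b 11 (.b 10 (.b 9 (.b 37 (.b 34 (.b 30 (.b 38 (.b 24 (.l 42) (.l 24)) (.l 38)) (.l 30)) (.l 34)) (.l 37)) (.b 8 (.b 7 (.b 6 (.b 37 (.b 34 (.b 30 (.b 38 (.b 24 (.l 42) (.l 24)) (.l 38)) (.l 30)) (.l 34)) (.l 37)) (.l 42)) (.l 42)) (.l 42))) (.b 9 (.b 37 (.b 34 (.b 30 (.b 38 (.b 24 (.l 42) (.l 24))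 (.l 38)) (.l 30)) (.l 34)) (.l 37)) (.l 42))) (.b 10 (.b 9 (.b 8 (.b 7 (.b 6 (.b 37 (.b 5 (.b 4 (.b 3 (.b 2 (.b 1 (.b 0 (.b 39 (.b 30 (.b 33 (.m 0 (.l 40)) (.l 33)) (.l 30)) (.b 32 (.b 30 (.b 33 (.m 0 (.l 40)) (.l 33)) (.l 30)) (.l 39))) (.l 42)) (.l 42)) (.l 42)) (.l 42)) (.l 42)) (.l 42)) (.l 37)) (.l 42)) (.l 42)) (.l 42)) (.l 42)) (.l 42))) (.b 11 (.b 10 (.b 9 (.b 8 (.b 7 (.b 6 (.b 37 (.b 34 (.b 30 (.b 38 (.b 24 (.l 42) (.l 24)) (.l 38)) (.l 30)) (.l 34)) (.l 37)) (.l 42)) (.l 42)) (.l 42)) (.l 42)) (.l 42)) (.l 42))) (.b 13 (.b 11 (.b 10 (.b 9 (.b 37 (.b 34 (.b 30 (.b 38 (.b 24 (.l 42) (.l 24)) (.l 38)) (.l 30)) (.l 34)) (.l 37)) (.l 42)) (.l 42)) (.l 42)) (.l 42))) (.l 41)) (.b 14 (.b 13 (.b 11 (.b 41 (.b 10 (.b 9 (.b 8 (.b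 7 (.b 6 (.b 37 (.b 5 (.b 4 (.b 3 (.b 2 (.b 1 (.b 0 (.b 39 (.b 30 (.b 33 (.m 0 (.l 40)) (.l 33)) (.l 30)) (.b 32 (.b 30 (.b 33 (.m 0 (.l 40)) (.l 33)) (.l 30)) (.l 39))) (.l 42)) (.l 42)) (.l 42)) (.l 42)) (.l 42)) (.l 42)) (.l 37)) (.l 42)) (.l 42)) (.l 42)) (.l 42)) (.l 42)) (.l 41)) (.l 42)) (.l 42)) (.l 42))) (.b 15 (.b 41 (.b 14 (.b 13 (.b 11 (.b 10 (.b 9 (.b 8 (.b 7 (.b 6 (.b 37 (.b 34 (.b 30 (.b 38 (.b 24 (.l 42) (.l 24)) (.l 38)) (.l 30)) (.l 34)) (.l 37)) (.l 42)) (.l 42)) (.l 42)) (.l 42)) (.l 42)) (.l 42)) (.l 42)) (.l 42)) (.l 41)) (.l 42))) (.b 17 (.b 15 (.b 14 (.b 13 (.b 11 (.b 41 (.b 10 (.b 9 (.b 8 (.b 7 (.b 6 (.b 37 (.b 5 (.b 4 (.b 3 (.b 2 (.b 1 (.b 0 (.b 39 (.b 30 (.b 33 (.m 0 (.l 40)) (.l 33)) (.l 30)) (.b 32 (.b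 30 (.b 33 (.m 0 (.l 40)) (.l 33)) (.l 30)) (.l 39))) (.l 42)) (.l 42)) (.l 42)) (.l 42)) (.l 42)) (.l 42)) (.l 37)) (.l 42)) (.l 42)) (.l 42)) (.l 42)) (.l 42)) (.l 41)) (.l 42)) (.l 42)) (.l 42)) (.l 42)) (.l 42)))) (.b 20 (.b 18 (.b 41 (.b 17 (.b 15 (.b 14 (.b 13 (.b 11 (.b 34 (.b 37 (.b 38 (.b 28 (.b 30 (.l 42) (.l 30)) (.l 28)) (.l 38)) (.l 37)) (.l 34)) (.b 10 (.b 9 (.b 8 (.b 7 (.b 6 (.b 37 (.b 34 (.b 30 (.b 38 (.b 24 (.l 42) (.l 24)) (.l 38)) (.l 30)) (.l 34)) (.l 37)) (.l 42)) (.l 42)) (.l 42)) (.l 42)) (.l 42))) (.b 11 (.b 34 (.b 10 (.b 9 (.b 37 (.b 38 (.b 28 (.b 30 (.l 42) (.l 30)) (.l 28)) (.l 38)) (.l 37)) (.l 42)) (.l 42)) (.l 34)) (.l 42))) (.b 13 (.b 11 (.b 34 (.b 37 (.b 38 (.b 28 (.b 30 (.l 42) (.l 30)) (.l 28)) (.l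 38)) (.l 37)) (.l 34)) (.l 42)) (.l 42))) (.b 14 (.b 13 (.b 11 (.b 10 (.b 9 (.b 8 (.b 7 (.b 6 (.b 37 (.b 34 (.b 30 (.b 38 (.b 24 (.l 42) (.l 24)) (.l 38)) (.l 30)) (.l 34)) (.l 37)) (.l 42)) (.l 42)) (.l 42)) (.l 42)) (.l 42)) (.l 42)) (.l 42)) (.l 42))) (.b 15 (.b 14 (.b 13 (.b 11 (.b 34 (.b 10 (.b 9 (.b 37 (.b 38 (.b 28 (.b 30 (.l 42) (.l 30)) (.l 28)) (.l 38)) (.l 37)) (.l 42)) (.l 42)) (.l 34)) (.l 42)) (.l 42)) (.l 42)) (.l 42))) (.l 41)) (.b 17 (.b 15 (.b 41 (.b 14 (.b 13 (.b 11 (.b 10 (.b 9 (.b 8 (.b 7 (.b 6 (.b 37 (.b 34 (.b 30 (.b 38 (.b 24 (.l 42) (.l 24)) (.l 38)) (.l 30)) (.l 34)) (.l 37)) (.l 42)) (.l 42)) (.l 42)) (.l 42)) (.l 42)) (.l 42)) (.l 42)) (.l 42)) (.l 41)) (.l 42)) (.l 42))) (.b 18 (.b 17 (.b 15 (.b 41 (.b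 14 (.b 13 (.b 11 (.b 10 (.b 9 (.b 8 (.b 7 (.b 6 (.b 37 (.b 34 (.b 30 (.b 38 (.b 24 (.l 42) (.l 24)) (.l 38)) (.l 30)) (.l 34)) (.l 37)) (.l 42)) (.l 42)) (.l 42)) (.l 42)) (.l 42)) (.l 42)) (.l 42)) (.l 42)) (.l 41)) (.l 42)) (.l 42)) (.l 42)))) (.b 22 (.b 20 (.b 18 (.b 17 (.b 15 (.b 41 (.b 14 (.b 13 (.b 11 (.b 10 (.b 9 (.b 37 (.b 34 (.b 30 (.b 38 (.b 24 (.l 42) (.l 24)) (.l 38)) (.l 30)) (.l 34)) (.l 37)) (.b 8 (.b 7 (.b 6 (.b 37 (.b 34 (.b 30 (.b 38 (.b 24 (.l 42) (.l 24)) (.l 38)) (.l 30)) (.l 34)) (.l 37)) (.l 42)) (.l 42)) (.l 42))) (.b 9 (.b 37 (.b 34 (.b 30 (.b 38 (.b 24 (.l 42) (.l 24)) (.l 38)) (.l 30)) (.l 34)) (.l 37)) (.l 42))) (.b 10 (.b 9 (.b 8 (.b 7 (.b 6 (.b 37 (.b 5 (.b 4 (.b 3 (.b 2 (.b 1 (.b 0 (.b 39 (.b 30 (.b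 33 (.m 0 (.l 40)) (.l 33)) (.l 30)) (.b 32 (.b 30 (.b 33 (.m 0 (.l 40)) (.l 33)) (.l 30)) (.l 39))) (.l 42)) (.l 42)) (.l 42)) (.l 42)) (.l 42)) (.l 42)) (.l 37)) (.l 42)) (.l 42)) (.l 42)) (.l 42)) (.l 42))) (.b 11 (.b 10 (.b 9 (.b 8 (.b 7 (.b 6 (.b 37 (.b 34 (.b 30 (.b 38 (.b 24 (.l 42) (.l 24)) (.l 38)) (.l 30)) (.l 34)) (.l 37)) (.l 42)) (.l 42)) (.l 42)) (.l 42)) (.l 42)) (.l 42))) (.b 13 (.b 11 (.b 10 (.b 9 (.b 37 (.b 34 (.b 30 (.b 38 (.b 24 (.l 42) (.l 24)) (.l 38)) (.l 30)) (.l 34)) (.l 37)) (.l 42)) (.l 42)) (.l 42)) (.l 42))) (.l 41)) (.b 14 (.b 13 (.b 11 (.b 41 (.b 10 (.b 9 (.b 8 (.b 7 (.b 6 (.b 37 (.b 5 (.b 4 (.b 3 (.b 2 (.b 1 (.b 0 (.b 39 (.b 30 (.b 33 (.m 0 (.l 40)) (.l 33)) (.l 30)) (.b 32 (.b 30 (.b 33 (.m 0 (.l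 40)) (.l 33)) (.l 30)) (.l 39))) (.l 42)) (.l 42)) (.l 42)) (.l 42)) (.l 42)) (.l 42)) (.l 37)) (.l 42)) (.l 42)) (.l 42)) (.l 42)) (.l 42)) (.l 41)) (.l 42)) (.l 42)) (.l 42))) (.b 15 (.b 41 (.b 14 (.b 13 (.b 11 (.b 10 (.b 9 (.b 8 (.b 7 (.b 6 (.b 37 (.b 34 (.b 30 (.b 38 (.b 24 (.l 42) (.l 24)) (.l 38)) (.l 30)) (.l 34)) (.l 37)) (.l 42)) (.l 42)) (.l 42)) (.l 42)) (.l 42)) (.l 42)) (.l 42)) (.l 42)) (.l 41)) (.l 42))) (.b 17 (.b 15 (.b 14 (.b 13 (.b 11 (.b 41 (.b 10 (.b 9 (.b 8 (.b 7 (.b 6 (.b 37 (.b 5 (.b 4 (.b 3 (.b 2 (.b 1 (.b 0 (.b 39 (.b 30 (.b 33 (.m 0 (.l 40)) (.l 33)) (.l 30)) (.b 32 (.b 30 (.b 33 (.m 0 (.l 40)) (.l 33)) (.l 30)) (.l 39))) (.l 42)) (.l 42)) (.l 42)) (.l 42)) (.l 42)) (.l 42)) (.l 37)) (.l 42)) (.l 42))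 (.l 42)) (.l 42)) (.l 42)) (.l 41)) (.l 42)) (.l 42)) (.l 42)) (.l 42)) (.l 42))) (.b 18 (.b 17 (.b 15 (.b 14 (.b 13 (.b 11 (.b 41 (.b 10 (.b 9 (.b 8 (.b 7 (.b 6 (.b 37 (.b 5 (.b 4 (.b 3 (.b 2 (.b 1 (.b 0 (.b 39 (.b 30 (.b 33 (.m 0 (.l 40)) (.l 33)) (.l 30)) (.b 32 (.b 30 (.b 33 (.m 0 (.l 40)) (.l 33)) (.l 30)) (.l 39))) (.l 42)) (.l 42)) (.l 42)) (.l 42)) (.l 42)) (.l 42)) (.l 37)) (.l 42)) (.l 42)) (.l 42)) (.l 42)) (.l 42)) (.l 41)) (.l 42)) (.l 42)) (.l 42)) (.l 42)) (.l 42)) (.l 42))) (.b 20 (.b 18 (.b 17 (.b 15 (.b 41 (.b 14 (.b 13 (.b 11 (.b 10 (.b 9 (.b 8 (.b 7 (.b 6 (.b 37 (.b 34 (.b 30 (.b 38 (.b 24 (.l 42) (.l 24)) (.l 38)) (.l 30)) (.l 34)) (.l 37)) (.l 42)) (.l 42)) (.l 42)) (.l 42)) (.l 42)) (.l 42)) (.l 42)) (.l 42))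 (.l 41)) (.l 42)) (.l 42)) (.l 42)) (.l 42)))) (.b 23 (.b 22 (.b 20 (.b 18 (.b 17 (.b 15 (.b 41 (.b 14 (.b 13 (.b 11 (.b 10 (.b 9 (.b 37 (.b 34 (.b 30 (.b 38 (.b 24 (.l 42) (.l 24)) (.l 38)) (.l 30)) (.l 34)) (.l 37)) (.b 8 (.b 7 (.b 6 (.b 37 (.b 34 (.b 30 (.b 38 (.b 24 (.l 42) (.l 24)) (.l 38)) (.l 30)) (.l 34)) (.l 37)) (.l 42)) (.l 42)) (.l 42))) (.b 9 (.b 37 (.b 34 (.b 30 (.b 38 (.b 24 (.l 42) (.l 24)) (.l 38)) (.l 30)) (.l 34)) (.l 37)) (.l 42))) (.b 10 (.b 9 (.b 8 (.b 7 (.b 6 (.b 37 (.b 5 (.b 4 (.b 3 (.b 2 (.b 1 (.b 0 (.b 38 (.b 30 (.b 33 (.m 0 (.l 40)) (.l 33)) (.l 30)) (.b 28 (.b 30 (.l 38) (.l 30)) (.l 38))) (.l 42)) (.l 42)) (.l 42)) (.l 42)) (.l 42)) (.l 42)) (.l 37)) (.l 42)) (.l 42)) (.l 42)) (.l 42)) (.l 42))) (.b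 11 (.b 10 (.b 9 (.b 8 (.b 7 (.b 6 (.b 37 (.b 34 (.b 30 (.b 38 (.b 24 (.l 42) (.l 24)) (.l 38)) (.l 30)) (.l 34)) (.l 37)) (.l 42)) (.l 42)) (.l 42)) (.l 42)) (.l 42)) (.l 42))) (.b 13 (.b 11 (.b 10 (.b 9 (.b 37 (.b 34 (.b 30 (.b 38 (.b 24 (.l 42) (.l 24)) (.l 38)) (.l 30)) (.l 34)) (.l 37)) (.l 42)) (.l 42)) (.l 42)) (.l 42))) (.l 41)) (.b 14 (.b 13 (.b 11 (.b 41 (.b 10 (.b 9 (.b 8 (.b 7 (.b 6 (.b 37 (.b 5 (.b 4 (.b 3 (.b 2 (.b 1 (.b 0 (.b 38 (.b 30 (.b 33 (.m 0 (.l 40)) (.l 33)) (.l 30)) (.b 28 (.b 30 (.l 38) (.l 30)) (.l 38))) (.l 42)) (.l 42)) (.l 42)) (.l 42)) (.l 42)) (.l 42)) (.l 37)) (.l 42)) (.l 42)) (.l 42)) (.l 42)) (.l 42)) (.l 41)) (.l 42)) (.l 42)) (.l 42))) (.b 15 (.b 41 (.b 14 (.b 13 (.b 11 (.b 10 (.b 9 (.b 8 (.b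 7 (.b 6 (.b 37 (.b 34 (.b 30 (.b 38 (.b 24 (.l 42) (.l 24)) (.l 38)) (.l 30)) (.l 34)) (.l 37)) (.l 42)) (.l 42)) (.l 42)) (.l 42)) (.l 42)) (.l 42)) (.l 42)) (.l 42)) (.l 41)) (.l 42))) (.b 17 (.b 15 (.b 14 (.b 13 (.b 11 (.b 41 (.b 10 (.b 9 (.b 8 (.b 7 (.b 6 (.b 37 (.b 5 (.b 4 (.b 3 (.b 2 (.b 1 (.b 0 (.b 39 (.b 30 (.b 33 (.m 0 (.l 40)) (.l 33)) (.l 30)) (.b 32 (.b 30 (.b 33 (.m 0 (.l 40)) (.l 33)) (.l 30)) (.b 26 (.b 30 (.b 33 (.m 0 (.l 40)) (.l 33)) (.l 30)) (.l 39)))) (.l 42)) (.l 42)) (.l 42)) (.l 42)) (.l 42)) (.l 42)) (.l 37)) (.l 42)) (.l 42)) (.l 42)) (.l 42)) (.l 42)) (.l 41)) (.l 42)) (.l 42)) (.l 42)) (.l 42)) (.l 42))) (.b 18 (.b 17 (.b 15 (.b 14 (.b 13 (.b 11 (.b 41 (.b 10 (.b 9 (.b 8 (.b 7 (.b 6 (.b 37 (.b 5 (.b 4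 (.b 3 (.b 2 (.b 1 (.b 0 (.b 38 (.b 30 (.b 33 (.m 0 (.l 40)) (.l 33)) (.l 30)) (.b 28 (.b 30 (.l 38) (.l 30)) (.l 38))) (.l 42)) (.l 42)) (.l 42)) (.l 42)) (.l 42)) (.l 42)) (.l 37)) (.l 42)) (.l 42)) (.l 42)) (.l 42)) (.l 42)) (.l 41)) (.l 42)) (.l 42)) (.l 42)) (.l 42)) (.l 42)) (.l 42))) (.b 20 (.b 18 (.b 17 (.b 15 (.b 41 (.b 14 (.b 13 (.b 11 (.b 10 (.b 9 (.b 8 (.b 7 (.b 6 (.b 37 (.b 34 (.b 30 (.b 38 (.b 24 (.l 42) (.l 24)) (.l 38)) (.l 30)) (.l 34)) (.l 37)) (.l 42)) (.l 42)) (.l 42)) (.l 42)) (.l 42)) (.l 42)) (.l 42)) (.l 42)) (.l 41)) (.l 42)) (.l 42)) (.l 42)) (.l 42))) (.b 22 (.b 20 (.b 18 (.b 17 (.b 15 (.b 14 (.b 13 (.b 11 (.b 41 (.b 10 (.b 9 (.b 8 (.b 7 (.b 6 (.b 37 (.b 5 (.b 4 (.b 3 (.b 2 (.b 1 (.b 0 (.b 39 (.b 30 (.b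 33 (.m 0 (.l 40)) (.l 33)) (.l 30)) (.b 32 (.b 30 (.b 33 (.m 0 (.l 40)) (.l 33)) (.l 30)) (.b 26 (.b 30 (.b 33 (.m 0 (.l 40)) (.l 33)) (.l 30)) (.l 39)))) (.l 42)) (.l 42)) (.l 42)) (.l 42)) (.l 42)) (.l 42)) (.l 37)) (.l 42)) (.l 42)) (.l 42)) (.l 42)) (.l 42)) (.l 41)) (.l 42)) (.l 42)) (.l 42)) (.l 42)) (.l 42)) (.l 42)) (.l 42)) (.l 42)))) (.b 25 (.b 23 (.b 22 (.b 20 (.b 18 (.b 17 (.b 15 (.b 41 (.b 14 (.b 13 (.b 11 (.b 10 (.b 9 (.b 37 (.b 34 (.b 30 (.b 38 (.b 24 (.l 42) (.l 24)) (.l 38)) (.l 30)) (.l 34)) (.l 37)) (.b 8 (.b 7 (.b 6 (.b 37 (.b 34 (.b 30 (.b 38 (.b 24 (.l 42) (.l 24)) (.l 38)) (.l 30)) (.l 34)) (.l 37)) (.l 42)) (.l 42)) (.l 42))) (.b 9 (.b 37 (.b 34 (.b 30 (.b 38 (.b 24 (.l 42) (.l 24)) (.l 38)) (.l 30)) (.l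 34)) (.l 37)) (.l 42))) (.b 10 (.b 9 (.b 8 (.b 7 (.b 6 (.b 37 (.b 5 (.b 4 (.b 3 (.b 2 (.b 1 (.b 0 (.b 39 (.b 30 (.b 33 (.m 0 (.l 40)) (.l 33)) (.l 30)) (.b 32 (.b 30 (.b 33 (.m 0 (.l 40)) (.l 33)) (.l 30)) (.l 39))) (.l 42)) (.l 42)) (.l 42)) (.l 42)) (.l 42)) (.l 42)) (.l 37)) (.l 42)) (.l 42)) (.l 42)) (.l 42)) (.l 42))) (.b 11 (.b 10 (.b 9 (.b 8 (.b 7 (.b 6 (.b 37 (.b 34 (.b 30 (.b 38 (.b 24 (.l 42) (.l 24)) (.l 38)) (.l 30)) (.l 34)) (.l 37)) (.l 42)) (.l 42)) (.l 42)) (.l 42)) (.l 42)) (.l 42))) (.b 13 (.b 11 (.b 10 (.b 9 (.b 37 (.b 34 (.b 30 (.b 38 (.b 24 (.l 42) (.l 24)) (.l 38)) (.l 30)) (.l 34)) (.l 37)) (.l 42)) (.l 42)) (.l 42)) (.l 42))) (.l 41)) (.b 14 (.b 13 (.b 11 (.b 41 (.b 10 (.b 9 (.b 8 (.b 7 (.b 6 (.b 37 (.b 5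 (.b 4 (.b 3 (.b 2 (.b 1 (.b 0 (.b 39 (.b 30 (.b 33 (.m 0 (.l 40)) (.l 33)) (.l 30)) (.b 32 (.b 30 (.b 33 (.m 0 (.l 40)) (.l 33)) (.l 30)) (.l 39))) (.l 42)) (.l 42)) (.l 42)) (.l 42)) (.l 42)) (.l 42)) (.l 37)) (.l 42)) (.l 42)) (.l 42)) (.l 42)) (.l 42)) (.l 41)) (.l 42)) (.l 42)) (.l 42))) (.b 15 (.b 41 (.b 14 (.b 13 (.b 11 (.b 10 (.b 9 (.b 8 (.b 7 (.b 6 (.b 37 (.b 34 (.b 30 (.b 38 (.b 24 (.l 42) (.l 24)) (.l 38)) (.l 30)) (.l 34)) (.l 37)) (.l 42)) (.l 42)) (.l 42)) (.l 42)) (.l 42)) (.l 42)) (.l 42)) (.l 42)) (.l 41)) (.l 42))) (.b 17 (.b 15 (.b 14 (.b 13 (.b 11 (.b 41 (.b 10 (.b 9 (.b 8 (.b 7 (.b 6 (.b 37 (.b 5 (.b 4 (.b 3 (.b 2 (.b 1 (.b 0 (.b 39 (.b 30 (.b 33 (.m 0 (.l 40)) (.l 33)) (.l 30)) (.b 32 (.b 30 (.b 33 (.m 0 (.l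 40)) (.l 33)) (.l 30)) (.l 39))) (.l 42)) (.l 42)) (.l 42)) (.l 42)) (.l 42)) (.l 42)) (.l 37)) (.l 42)) (.l 42)) (.l 42)) (.l 42)) (.l 42)) (.l 41)) (.l 42)) (.l 42)) (.l 42)) (.l 42)) (.l 42))) (.b 18 (.b 17 (.b 15 (.b 14 (.b 13 (.b 11 (.b 41 (.b 10 (.b 9 (.b 8 (.b 7 (.b 6 (.b 37 (.b 5 (.b 4 (.b 3 (.b 2 (.b 1 (.b 0 (.b 39 (.b 30 (.b 33 (.m 0 (.l 40)) (.l 33)) (.l 30)) (.b 32 (.b 30 (.b 33 (.m 0 (.l 40)) (.l 33)) (.l 30)) (.l 39))) (.l 42)) (.l 42)) (.l 42)) (.l 42)) (.l 42)) (.l 42)) (.l 37)) (.l 42)) (.l 42)) (.l 42)) (.l 42)) (.l 42)) (.l 41)) (.l 42)) (.l 42)) (.l 42)) (.l 42)) (.l 42)) (.l 42))) (.b 20 (.b 18 (.b 17 (.b 15 (.b 41 (.b 14 (.b 13 (.b 11 (.b 10 (.b 9 (.b 8 (.b 7 (.b 6 (.b 37 (.b 34 (.b 30 (.b 38 (.b 24 (.l 42)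 (.l 24)) (.l 38)) (.l 30)) (.l 34)) (.l 37)) (.l 42)) (.l 42)) (.l 42)) (.l 42)) (.l 42)) (.l 42)) (.l 42)) (.l 42)) (.l 41)) (.l 42)) (.l 42)) (.l 42)) (.l 42))) (.b 22 (.b 20 (.b 18 (.b 17 (.b 15 (.b 14 (.b 13 (.b 11 (.b 41 (.b 10 (.b 9 (.b 8 (.b 7 (.b 6 (.b 37 (.b 5 (.b 4 (.b 3 (.b 2 (.b 1 (.b 0 (.b 39 (.b 30 (.b 33 (.m 0 (.l 40)) (.l 33)) (.l 30)) (.b 32 (.b 30 (.b 33 (.m 0 (.l 40)) (.l 33)) (.l 30)) (.l 39))) (.l 42)) (.l 42)) (.l 42)) (.l 42)) (.l 42)) (.l 42)) (.l 37)) (.l 42)) (.l 42)) (.l 42)) (.l 42)) (.l 42)) (.l 41)) (.l 42)) (.l 42)) (.l 42)) (.l 42)) (.l 42)) (.l 42)) (.l 42)) (.l 42))) (.b 23 (.b 22 (.b 20 (.b 18 (.b 17 (.b 15 (.b 14 (.b 13 (.b 11 (.b 41 (.b 10 (.b 9 (.b 8 (.b 7 (.b 6 (.b 37 (.b 5 (.b 4 (.b 3 (.b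 2 (.b 1 (.b 0 (.b 39 (.b 30 (.b 33 (.m 0 (.l 40)) (.l 33)) (.l 30)) (.b 32 (.b 30 (.b 33 (.m 0 (.l 40)) (.l 33)) (.l 30)) (.b 26 (.b 30 (.b 33 (.m 0 (.l 40)) (.l 33)) (.l 30)) (.l 39)))) (.l 42)) (.l 42)) (.l 42)) (.l 42)) (.l 42)) (.l 42)) (.l 37)) (.l 42)) (.l 42)) (.l 42)) (.l 42)) (.l 42)) (.l 41)) (.l 42)) (.l 42)) (.l 42)) (.l 42)) (.l 42)) (.l 42)) (.l 42)) (.l 42)) (.l 42)))) (.b 29 (.b 25 (.b 23 (.b 22 (.b 20 (.b 18 (.b 17 (.b 15 (.b 41 (.b 14 (.b 13 (.b 11 (.b 10 (.b 9 (.b 37 (.b 34 (.b 30 (.b 38 (.b 24 (.l 42) (.l 24)) (.l 38)) (.l 30)) (.l 34)) (.l 37)) (.b 8 (.b 7 (.b 6 (.b 37 (.b 34 (.b 30 (.b 38 (.b 24 (.l 42) (.l 24)) (.l 38)) (.l 30)) (.l 34)) (.l 37)) (.l 42)) (.l 42)) (.l 42))) (.b 9 (.b 37 (.b 34 (.b 30 (.b 38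 (.b 24 (.l 42) (.l 24)) (.l 38)) (.l 30)) (.l 34)) (.l 37)) (.l 42))) (.b 10 (.b 9 (.b 8 (.b 7 (.b 6 (.b 37 (.b 5 (.b 4 (.b 3 (.b 2 (.b 1 (.b 0 (.b 38 (.b 30 (.b 33 (.m 0 (.l 40)) (.l 33)) (.l 30)) (.b 28 (.b 30 (.l 38) (.l 30)) (.l 38))) (.l 42)) (.l 42)) (.l 42)) (.l 42)) (.l 42)) (.l 42)) (.l 37)) (.l 42)) (.l 42)) (.l 42)) (.l 42)) (.l 42))) (.b 11 (.b 10 (.b 9 (.b 8 (.b 7 (.b 6 (.b 37 (.b 34 (.b 30 (.b 38 (.b 24 (.l 42) (.l 24)) (.l 38)) (.l 30)) (.l 34)) (.l 37)) (.l 42)) (.l 42)) (.l 42)) (.l 42)) (.l 42)) (.l 42))) (.b 13 (.b 11 (.b 10 (.b 9 (.b 37 (.b 34 (.b 30 (.b 38 (.b 24 (.l 42) (.l 24)) (.l 38)) (.l 30)) (.l 34)) (.l 37)) (.l 42)) (.l 42)) (.l 42)) (.l 42))) (.l 41)) (.b 14 (.b 13 (.b 11 (.b 41 (.b 10 (.b 9 (.b 8 (.b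 7 (.b 6 (.b 37 (.b 5 (.b 4 (.b 3 (.b 2 (.b 1 (.b 0 (.b 38 (.b 30 (.b 33 (.m 0 (.l 40)) (.l 33)) (.l 30)) (.b 28 (.b 30 (.l 38) (.l 30)) (.l 38))) (.l 42)) (.l 42)) (.l 42)) (.l 42)) (.l 42)) (.l 42)) (.l 37)) (.l 42)) (.l 42)) (.l 42)) (.l 42)) (.l 42)) (.l 41)) (.l 42)) (.l 42)) (.l 42))) (.b 15 (.b 41 (.b 14 (.b 13 (.b 11 (.b 10 (.b 9 (.b 8 (.b 7 (.b 6 (.b 37 (.b 34 (.b 30 (.b 38 (.b 24 (.l 42) (.l 24)) (.l 38)) (.l 30)) (.l 34)) (.l 37)) (.l 42)) (.l 42)) (.l 42)) (.l 42)) (.l 42)) (.l 42)) (.l 42)) (.l 42)) (.l 41)) (.l 42))) (.b 17 (.b 15 (.b 14 (.b 13 (.b 11 (.b 41 (.b 10 (.b 9 (.b 8 (.b 7 (.b 6 (.b 37 (.b 5 (.b 4 (.b 3 (.b 2 (.b 1 (.b 0 (.b 39 (.b 30 (.b 33 (.m 0 (.l 40)) (.l 33)) (.l 30)) (.b 32 (.b 30 (.b 33 (.m 0 (.l 40))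 (.l 33)) (.l 30)) (.b 26 (.b 30 (.b 33 (.m 0 (.l 40)) (.l 33)) (.l 30)) (.l 39)))) (.l 42)) (.l 42)) (.l 42)) (.l 42)) (.l 42)) (.l 42)) (.l 37)) (.l 42)) (.l 42)) (.l 42)) (.l 42)) (.l 42)) (.l 41)) (.l 42)) (.l 42)) (.l 42)) (.l 42)) (.l 42))) (.b 18 (.b 17 (.b 15 (.b 14 (.b 13 (.b 11 (.b 41 (.b 10 (.b 9 (.b 8 (.b 7 (.b 6 (.b 37 (.b 5 (.b 4 (.b 3 (.b 2 (.b 1 (.b 0 (.b 38 (.b 30 (.b 33 (.m 0 (.l 40)) (.l 33)) (.l 30)) (.b 28 (.b 30 (.l 38) (.l 30)) (.l 38))) (.l 42)) (.l 42)) (.l 42)) (.l 42)) (.l 42)) (.l 42)) (.l 37)) (.l 42)) (.l 42)) (.l 42)) (.l 42)) (.l 42)) (.l 41)) (.l 42)) (.l 42)) (.l 42)) (.l 42)) (.l 42)) (.l 42))) (.b 20 (.b 18 (.b 17 (.b 15 (.b 41 (.b 14 (.b 13 (.b 11 (.b 10 (.b 9 (.b 8 (.b 7 (.b 6 (.b 37 (.b 34 (.b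 30 (.b 38 (.b 24 (.l 42) (.l 24)) (.l 38)) (.l 30)) (.l 34)) (.l 37)) (.l 42)) (.l 42)) (.l 42)) (.l 42)) (.l 42)) (.l 42)) (.l 42)) (.l 42)) (.l 41)) (.l 42)) (.l 42)) (.l 42)) (.l 42))) (.b 22 (.b 20 (.b 18 (.b 17 (.b 15 (.b 14 (.b 13 (.b 11 (.b 41 (.b 10 (.b 9 (.b 8 (.b 7 (.b 6 (.b 37 (.b 5 (.b 4 (.b 3 (.b 2 (.b 1 (.b 0 (.b 39 (.b 30 (.b 33 (.m 0 (.l 40)) (.l 33)) (.l 30)) (.b 32 (.b 30 (.b 33 (.m 0 (.l 40)) (.l 33)) (.l 30)) (.b 26 (.b 30 (.b 33 (.m 0 (.l 40)) (.l 33)) (.l 30)) (.l 39)))) (.l 42)) (.l 42)) (.l 42)) (.l 42)) (.l 42)) (.l 42)) (.l 37)) (.l 42)) (.l 42)) (.l 42)) (.l 42)) (.l 42)) (.l 41)) (.l 42)) (.l 42)) (.l 42)) (.l 42)) (.l 42)) (.l 42)) (.l 42)) (.l 42))) (.b 23 (.b 22 (.b 20 (.b 18 (.b 17 (.b 15 (.b 14 (.b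 13 (.b 11 (.b 41 (.b 10 (.b 9 (.b 8 (.b 7 (.b 6 (.b 37 (.b 5 (.b 4 (.b 3 (.b 2 (.b 1 (.b 0 (.b 38 (.b 30 (.b 33 (.m 0 (.l 40)) (.l 33)) (.l 30)) (.b 28 (.b 30 (.l 38) (.l 30)) (.l 38))) (.l 42)) (.l 42)) (.l 42)) (.l 42)) (.l 42)) (.l 42)) (.l 37)) (.l 42)) (.l 42)) (.l 42)) (.l 42)) (.l 42)) (.l 41)) (.l 42)) (.l 42)) (.l 42)) (.l 42)) (.l 42)) (.l 42)) (.l 42)) (.l 42)) (.l 42))) (.b 25 (.b 23 (.b 22 (.b 20 (.b 18 (.b 17 (.b 15 (.b 14 (.b 13 (.b 11 (.b 41 (.b 10 (.b 9 (.b 8 (.b 7 (.b 6 (.b 37 (.b 5 (.b 4 (.b 3 (.b 2 (.b 1 (.b 0 (.b 39 (.b 30 (.b 33 (.m 0 (.l 40)) (.l 33)) (.l 30)) (.b 32 (.b 30 (.b 33 (.m 0 (.l 40)) (.l 33)) (.l 30)) (.b 26 (.b 30 (.b 33 (.m 0 (.l 40)) (.l 33)) (.l 30)) (.l 39)))) (.l 42)) (.l 42)) (.l 42)) (.l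 42)) (.l 42)) (.l 42)) (.l 37)) (.l 42)) (.l 42)) (.l 42)) (.l 42)) (.l 42)) (.l 41)) (.l 42)) (.l 42)) (.l 42)) (.l 42)) (.l 42)) (.l 42)) (.l 42)) (.l 42)) (.l 42)) (.l 42)))) (.b 31 (.b 29 (.b 25 (.b 23 (.b 22 (.b 20 (.b 18 (.b 17 (.b 15 (.b 41 (.b 14 (.b 13 (.b 11 (.b 10 (.b 9 (.b 37 (.b 34 (.b 30 (.b 38 (.b 24 (.l 42) (.l 24)) (.l 38)) (.l 30)) (.l 34)) (.l 37)) (.b 8 (.b 7 (.b 6 (.b 37 (.b 34 (.b 30 (.b 38 (.b 24 (.l 42) (.l 24)) (.l 38)) (.l 30)) (.l 34)) (.l 37)) (.l 42)) (.l 42)) (.l 42))) (.b 9 (.b 37 (.b 34 (.b 30 (.b 38 (.b 24 (.l 42) (.l 24)) (.l 38)) (.l 30)) (.l 34)) (.l 37)) (.l 42))) (.b 10 (.b 9 (.b 8 (.b 7 (.b 6 (.b 37 (.b 5 (.b 4 (.b 3 (.b 2 (.b 1 (.b 0 (.b 39 (.b 30 (.b 33 (.m 0 (.l 40)) (.l 33)) (.l 30)) (.b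 32 (.b 30 (.b 33 (.m 0 (.l 40)) (.l 33)) (.l 30)) (.b 26 (.b 30 (.b 33 (.m 0 (.l 40)) (.l 33)) (.l 30)) (.l 39)))) (.l 42)) (.l 42)) (.l 42)) (.l 42)) (.l 42)) (.l 42)) (.l 37)) (.l 42)) (.l 42)) (.l 42)) (.l 42)) (.l 42))) (.b 11 (.b 10 (.b 9 (.b 8 (.b 7 (.b 6 (.b 37 (.b 34 (.b 30 (.b 38 (.b 24 (.l 42) (.l 24)) (.l 38)) (.l 30)) (.l 34)) (.l 37)) (.l 42)) (.l 42)) (.l 42)) (.l 42)) (.l 42)) (.l 42))) (.b 13 (.b 11 (.b 10 (.b 9 (.b 37 (.b 34 (.b 30 (.b 38 (.b 24 (.l 42) (.l 24)) (.l 38)) (.l 30)) (.l 34)) (.l 37)) (.l 42)) (.l 42)) (.l 42)) (.l 42))) (.l 41)) (.b 14 (.b 13 (.b 11 (.b 41 (.b 10 (.b 9 (.b 8 (.b 7 (.b 6 (.b 37 (.b 5 (.b 4 (.b 3 (.b 2 (.b 1 (.b 0 (.b 39 (.b 30 (.b 33 (.m 0 (.l 40)) (.l 33)) (.l 30)) (.b 32 (.b 30 (.b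 33 (.m 0 (.l 40)) (.l 33)) (.l 30)) (.b 26 (.b 30 (.b 33 (.m 0 (.l 40)) (.l 33)) (.l 30)) (.l 39)))) (.l 42)) (.l 42)) (.l 42)) (.l 42)) (.l 42)) (.l 42)) (.l 37)) (.l 42)) (.l 42)) (.l 42)) (.l 42)) (.l 42)) (.l 41)) (.l 42)) (.l 42)) (.l 42))) (.b 15 (.b 41 (.b 14 (.b 13 (.b 11 (.b 10 (.b 9 (.b 8 (.b 7 (.b 6 (.b 37 (.b 34 (.b 30 (.b 38 (.b 24 (.l 42) (.l 24)) (.l 38)) (.l 30)) (.l 34)) (.l 37)) (.l 42)) (.l 42)) (.l 42)) (.l 42)) (.l 42)) (.l 42)) (.l 42)) (.l 42)) (.l 41)) (.l 42))) (.b 17 (.b 15 (.b 14 (.b 13 (.b 11 (.b 41 (.b 10 (.b 9 (.b 8 (.b 7 (.b 6 (.b 37 (.b 5 (.b 4 (.b 3 (.b 2 (.b 1 (.b 0 (.b 39 (.b 30 (.b 33 (.m 0 (.l 40)) (.l 33)) (.l 30)) (.b 32 (.b 30 (.b 33 (.m 0 (.l 40)) (.l 33)) (.l 30)) (.b 26 (.b 30 (.b 33 (.m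 0 (.l 40)) (.l 33)) (.l 30)) (.l 39)))) (.l 42)) (.l 42)) (.l 42)) (.l 42)) (.l 42)) (.l 42)) (.l 37)) (.l 42)) (.l 42)) (.l 42)) (.l 42)) (.l 42)) (.l 41)) (.l 42)) (.l 42)) (.l 42)) (.l 42)) (.l 42))) (.b 18 (.b 17 (.b 15 (.b 14 (.b 13 (.b 11 (.b 41 (.b 10 (.b 9 (.b 8 (.b 7 (.b 6 (.b 37 (.b 5 (.b 4 (.b 3 (.b 2 (.b 1 (.b 0 (.b 39 (.b 30 (.b 33 (.m 0 (.l 40)) (.l 33)) (.l 30)) (.b 32 (.b 30 (.b 33 (.m 0 (.l 40)) (.l 33)) (.l 30)) (.b 26 (.b 30 (.b 33 (.m 0 (.l 40)) (.l 33)) (.l 30)) (.l 39)))) (.l 42)) (.l 42)) (.l 42)) (.l 42)) (.l 42)) (.l 42)) (.l 37)) (.l 42)) (.l 42)) (.l 42)) (.l 42)) (.l 42)) (.l 41)) (.l 42)) (.l 42)) (.l 42)) (.l 42)) (.l 42)) (.l 42))) (.b 20 (.b 18 (.b 17 (.b 15 (.b 41 (.b 14 (.b 13 (.b 11 (.b 10 (.b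 9 (.b 8 (.b 7 (.b 6 (.b 37 (.b 34 (.b 30 (.b 38 (.b 24 (.l 42) (.l 24)) (.l 38)) (.l 30)) (.l 34)) (.l 37)) (.l 42)) (.l 42)) (.l 42)) (.l 42)) (.l 42)) (.l 42)) (.l 42)) (.l 42)) (.l 41)) (.l 42)) (.l 42)) (.l 42)) (.l 42))) (.b 22 (.b 20 (.b 18 (.b 17 (.b 15 (.b 14 (.b 13 (.b 11 (.b 41 (.b 10 (.b 9 (.b 8 (.b 7 (.b 6 (.b 37 (.b 5 (.b 4 (.b 3 (.b 2 (.b 1 (.b 0 (.b 39 (.b 30 (.b 33 (.m 0 (.l 40)) (.l 33)) (.l 30)) (.b 32 (.b 30 (.b 33 (.m 0 (.l 40)) (.l 33)) (.l 30)) (.b 26 (.b 30 (.b 33 (.m 0 (.l 40)) (.l 33)) (.l 30)) (.l 39)))) (.l 42)) (.l 42)) (.l 42)) (.l 42)) (.l 42)) (.l 42)) (.l 37)) (.l 42)) (.l 42)) (.l 42)) (.l 42)) (.l 42)) (.l 41)) (.l 42)) (.l 42)) (.l 42)) (.l 42)) (.l 42)) (.l 42)) (.l 42)) (.l 42))) (.b 23 (.b 22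 (.b 20 (.b 18 (.b 17 (.b 15 (.b 14 (.b 13 (.b 11 (.b 41 (.b 10 (.b 9 (.b 8 (.b 7 (.b 6 (.b 37 (.b 5 (.b 4 (.b 3 (.b 2 (.b 1 (.b 0 (.b 38 (.b 30 (.b 33 (.m 0 (.l 40)) (.l 33)) (.l 30)) (.b 28 (.b 30 (.b 33 (.m 0 (.l 40)) (.l 33)) (.l 30)) (.b 19 (.b 40 (.b 30 (.m 0 (.l 38)) (.l 30)) (.l 40)) (.l 38)))) (.l 42)) (.l 42)) (.l 42)) (.l 42)) (.l 42)) (.l 42)) (.l 37)) (.l 42)) (.l 42)) (.l 42)) (.l 42)) (.l 42)) (.l 41)) (.l 42)) (.l 42)) (.l 42)) (.l 42)) (.l 42)) (.l 42)) (.l 42)) (.l 42)) (.l 42))) (.b 25 (.b 23 (.b 22 (.b 20 (.b 18 (.b 17 (.b 15 (.b 14 (.b 13 (.b 11 (.b 41 (.b 10 (.b 9 (.b 8 (.b 7 (.b 6 (.b 37 (.b 5 (.b 4 (.b 3 (.b 2 (.b 1 (.b 0 (.b 39 (.b 30 (.b 33 (.m 0 (.l 40)) (.l 33)) (.l 30)) (.b 32 (.b 30 (.b 33 (.m 0 (.l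 40)) (.l 33)) (.l 30)) (.b 26 (.b 30 (.b 33 (.m 0 (.l 40)) (.l 33)) (.l 30)) (.l 39)))) (.l 42)) (.l 42)) (.l 42)) (.l 42)) (.l 42)) (.l 42)) (.l 37)) (.l 42)) (.l 42)) (.l 42)) (.l 42)) (.l 42)) (.l 41)) (.l 42)) (.l 42)) (.l 42)) (.l 42)) (.l 42)) (.l 42)) (.l 42)) (.l 42)) (.l 42)) (.l 42))) (.b 29 (.b 25 (.b 23 (.b 22 (.b 20 (.b 18 (.b 17 (.b 15 (.b 14 (.b 13 (.b 11 (.b 41 (.b 10 (.b 9 (.b 8 (.b 7 (.b 6 (.b 37 (.b 5 (.b 4 (.b 3 (.b 2 (.b 1 (.b 0 (.b 38 (.b 30 (.b 33 (.m 0 (.l 40)) (.l 33)) (.l 30)) (.b 28 (.b 30 (.b 33 (.m 0 (.l 40)) (.l 33)) (.l 30)) (.b 19 (.b 40 (.b 30 (.m 0 (.l 38)) (.l 30)) (.l 40)) (.l 38)))) (.l 42)) (.l 42)) (.l 42)) (.l 42)) (.l 42)) (.l 42)) (.l 37)) (.l 42)) (.l 42)) (.l 42)) (.l 42)) (.l 42)) (.l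 41)) (.l 42)) (.l 42)) (.l 42)) (.l 42)) (.l 42)) (.l 42)) (.l 42)) (.l 42)) (.l 42)) (.l 42)) (.l 42)))))

private lemma k28 : chk dm3 (PLf PL3 28) 43 27 c28 0 0 = true := by decide +kernel

/-- the certificates for the levels 26 to 28 -/
theorem certs3B : ∀ j, 26 ≤ j → j ≤ 28 →
    ∃ c, chk dm3 (PLf PL3 j) (PL3.getD j 100) (j - 1) c 0 0 = true := by
  intro j h1 h2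
  interval_cases j
  · exact ⟨c26, k26⟩
  · exact ⟨c27, k27⟩
  · exact ⟨c28, k28⟩

end Pool.Agent.Lib.MP_573265_nt.H31
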