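import Pool.Agent.Lib.MP_573265_nt.H31DataA

/-! Certificates: 3-smooth numbers, levels 29 to 31 (helper31, MP_573265_nt, k = 3). -/

namespace Pool.Agent.Lib.MP_573265_nt.H31

set_option maxRecDepth 100000

private def c29 : Cert := (.m 28 (.b 37 (.b 33 (.b 30 (.b 27 (.b 24 (.b 21 (.b 19 (.b 42 (.b 16 (.b 38 (.b 14 (.b 12 (.b 35 (.b 31 (.b 39 (.b 41 (.b 25 (.b 28 (.l 43) (.l 28)) (.l 25)) (.l 41)) (.l 39)) (.l 31)) (.l 35)) (.b 10 (.b 8 (.b 35 (.b 39 (.b 31 (.b 41 (.b 25 (.l 43) (.l 25)) (.l 41)) (.l 31)) (.l 39)) (.l 35)) (.b 7 (.b 5 (.b 4 (.b 3 (.b 2 (.b 1 (.b 0 (.b 41 (.b 35 (.b 31 (.l 43) (.l 31)) (.l 35)) (.b 34 (.b 35 (.b 31 (.l 43) (.l 31)) (.l 35)) (.l 41))) (.l 44)) (.l 44)) (.l 44)) (.l 44)) (.l 44)) (.l 44))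 (.l 44))) (.b 8 (.b 35 (.b 7 (.b 5 (.b 39 (.b 31 (.b 41 (.l 43) (.l 41)) (.l 31)) (.l 39)) (.l 44)) (.l 44)) (.l 35)) (.l 44)))) (.b 12 (.b 10 (.b 8 (.b 35 (.b 31 (.b 39 (.b 41 (.b 25 (.l 43) (.l 25)) (.l 41)) (.l 39)) (.l 31)) (.l 35)) (.b 7 (.b 5 (.b 4 (.b 3 (.b 2 (.b 1 (.b 0 (.b 41 (.b 31 (.b 35 (.l 43) (.l 35)) (.l 31)) (.b 34 (.b 31 (.b 35 (.l 43) (.l 35)) (.l 31)) (.l 41))) (.l 44)) (.l 44)) (.l 44)) (.l 44)) (.l 44)) (.l 44)) (.l 44))) (.b 8 (.b 35 (.b 31 (.b 39 (.b 41 (.b 25 (.b 28 (.l 43) (.l 28)) (.l 25)) (.l 41)) (.l 39)) (.l 31)) (.l 35)) (.l 44))) (.b 10 (.b 8 (.b 7 (.b 5 (.b 4 (.b 3 (.b 2 (.b 1 (.b 0 (.b 41 (.b 35 (.b 31 (.l 43) (.l 31)) (.l 35)) (.b 34 (.b 35 (.b 31 (.l 43) (.l 31)) (.l 35)) (.l 41))) (.l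 44)) (.l 44)) (.l 44)) (.l 44)) (.l 44)) (.l 44)) (.l 44)) (.l 44)) (.l 44)))) (.l 38)) (.b 14 (.b 12 (.b 10 (.b 8 (.b 7 (.b 5 (.b 4 (.b 3 (.b 2 (.b 1 (.b 36 (.b 35 (.b 38 (.b 31 (.l 43) (.l 31)) (.l 38)) (.l 35)) (.b 32 (.b 35 (.b 38 (.b 31 (.l 43) (.l 31)) (.l 38)) (.l 35)) (.b 26 (.b 35 (.b 38 (.b 31 (.l 43) (.l 31)) (.l 38)) (.l 35)) (.l 43)))) (.b 0 (.b 36 (.b 35 (.b 38 (.b 31 (.l 43) (.l 31)) (.l 38)) (.l 35)) (.b 32 (.b 35 (.b 38 (.b 31 (.l 43) (.l 31)) (.l 38)) (.l 35)) (.l 43))) (.l 44))) (.b 1 (.b 0 (.b 36 (.b 35 (.b 38 (.b 31 (.l 43) (.l 31)) (.l 38)) (.l 35)) (.b 32 (.b 35 (.b 38 (.b 31 (.l 43) (.l 31)) (.l 38)) (.l 35)) (.l 43))) (.l 44)) (.l 44))) (.b 2 (.b 1 (.b 0 (.b 41 (.b 35 (.b 38 (.b 31 (.l 43) (.l 31))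 (.l 38)) (.l 35)) (.b 34 (.b 35 (.b 38 (.b 31 (.l 43) (.l 31)) (.l 38)) (.l 35)) (.l 41))) (.l 44)) (.l 44)) (.l 44))) (.b 3 (.b 2 (.b 1 (.b 0 (.b 36 (.b 35 (.b 38 (.b 31 (.l 43) (.l 31)) (.l 38)) (.l 35)) (.b 32 (.b 35 (.b 38 (.b 31 (.l 43) (.l 31)) (.l 38)) (.l 35)) (.l 43))) (.l 44)) (.l 44)) (.l 44)) (.l 44))) (.b 4 (.b 3 (.b 2 (.b 1 (.b 0 (.b 41 (.b 35 (.b 38 (.b 31 (.l 43) (.l 31)) (.l 38)) (.l 35)) (.b 34 (.b 35 (.b 38 (.b 31 (.l 43) (.l 31)) (.l 38)) (.l 35)) (.l 41))) (.l 44)) (.l 44)) (.l 44)) (.l 44)) (.l 44))) (.b 5 (.b 4 (.b 3 (.b 2 (.b 1 (.b 0 (.b 41 (.b 35 (.b 38 (.b 31 (.l 43) (.l 31)) (.l 38)) (.l 35)) (.b 34 (.b 35 (.b 38 (.b 31 (.l 43) (.l 31)) (.l 38)) (.l 35)) (.l 41))) (.l 44)) (.l 44)) (.l 44)) (.l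 44)) (.l 44)) (.l 44))) (.b 7 (.b 5 (.b 4 (.b 3 (.b 2 (.b 1 (.b 0 (.b 41 (.b 38 (.b 35 (.b 31 (.l 43) (.l 31)) (.l 35)) (.l 38)) (.b 34 (.b 38 (.b 35 (.b 31 (.l 43) (.l 31)) (.l 35)) (.l 38)) (.l 41))) (.l 44)) (.l 44)) (.l 44)) (.l 44)) (.l 44)) (.l 44)) (.l 44))) (.b 8 (.b 7 (.b 5 (.b 4 (.b 3 (.b 2 (.b 1 (.b 0 (.b 41 (.b 35 (.b 38 (.b 31 (.l 43) (.l 31)) (.l 38)) (.l 35)) (.b 34 (.b 35 (.b 38 (.b 31 (.l 43) (.l 31)) (.l 38)) (.l 35)) (.l 41))) (.l 44)) (.l 44)) (.l 44)) (.l 44)) (.l 44)) (.l 44)) (.l 44)) (.l 44))) (.b 10 (.b 8 (.b 7 (.b 5 (.b 4 (.b 3 (.b 2 (.b 1 (.b 0 (.b 41 (.b 38 (.b 35 (.b 39 (.l 43) (.l 39)) (.l 35)) (.l 38)) (.b 34 (.b 38 (.b 35 (.b 39 (.l 43) (.l 39)) (.l 35)) (.l 38)) (.l 41))) (.l 44)) (.l 44))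 (.l 44)) (.l 44)) (.l 44)) (.l 44)) (.l 44)) (.l 44)) (.l 44))) (.b 12 (.b 10 (.b 8 (.b 7 (.b 5 (.b 4 (.b 3 (.b 2 (.b 1 (.b 0 (.b 41 (.b 38 (.b 35 (.b 31 (.l 43) (.l 31)) (.l 35)) (.l 38)) (.b 34 (.b 38 (.b 35 (.b 31 (.l 43) (.l 31)) (.l 35)) (.l 38)) (.l 41))) (.l 44)) (.l 44)) (.l 44)) (.l 44)) (.l 44)) (.l 44)) (.l 44)) (.l 44)) (.l 44)) (.l 44)))) (.l 42)) (.b 16 (.b 42 (.b 38 (.b 14 (.b 12 (.b 10 (.b 8 (.b 35 (.b 39 (.b 31 (.b 41 (.b 25 (.l 43) (.l 25)) (.l 41)) (.l 31)) (.l 39)) (.l 35)) (.b 7 (.b 5 (.b 4 (.b 3 (.b 2 (.b 1 (.b 0 (.b 41 (.b 35 (.b 31 (.l 43) (.l 31)) (.l 35)) (.b 34 (.b 35 (.b 31 (.l 43) (.l 31)) (.l 35)) (.l 41))) (.l 44)) (.l 44)) (.l 44)) (.l 44)) (.l 44)) (.l 44)) (.l 44))) (.b 8 (.b 35 (.b 7 (.b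 5 (.b 39 (.b 31 (.b 41 (.l 43) (.l 41)) (.l 31)) (.l 39)) (.l 44)) (.l 44)) (.l 35)) (.l 44))) (.b 10 (.b 8 (.b 7 (.b 5 (.b 4 (.b 3 (.b 2 (.b 1 (.b 0 (.b 41 (.b 35 (.b 39 (.l 43) (.l 39)) (.l 35)) (.b 34 (.b 35 (.b 39 (.l 43) (.l 39)) (.l 35)) (.l 41))) (.l 44)) (.l 44)) (.l 44)) (.l 44)) (.l 44)) (.l 44)) (.l 44)) (.l 44)) (.l 44))) (.b 12 (.b 10 (.b 8 (.b 7 (.b 5 (.b 4 (.b 3 (.b 2 (.b 1 (.b 0 (.b 41 (.b 35 (.b 31 (.l 43) (.l 31)) (.l 35)) (.b 34 (.b 35 (.b 31 (.l 43) (.l 31)) (.l 35)) (.l 41))) (.l 44)) (.l 44)) (.l 44)) (.l 44)) (.l 44)) (.l 44)) (.l 44)) (.l 44)) (.l 44)) (.l 44))) (.l 38)) (.l 42)) (.b 14 (.b 12 (.b 42 (.b 10 (.b 8 (.b 7 (.b 5 (.b 4 (.b 3 (.b 2 (.b 1 (.b 0 (.b 41 (.b 38 (.b 35 (.b 39 (.l 43) (.l 39))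 (.l 35)) (.l 38)) (.b 34 (.b 38 (.b 35 (.b 39 (.l 43) (.l 39)) (.l 35)) (.l 38)) (.l 41))) (.l 44)) (.l 44)) (.l 44)) (.l 44)) (.l 44)) (.l 44)) (.l 44)) (.l 44)) (.l 44)) (.l 42)) (.l 44)) (.l 44)))) (.b 19 (.b 16 (.b 42 (.b 14 (.b 12 (.b 10 (.b 8 (.b 7 (.b 5 (.b 4 (.b 3 (.b 2 (.b 1 (.b 36 (.b 35 (.b 38 (.b 31 (.l 43) (.l 31)) (.l 38)) (.l 35)) (.b 32 (.b 35 (.b 38 (.b 31 (.l 43) (.l 31)) (.l 38)) (.l 35)) (.b 26 (.b 35 (.b 38 (.b 31 (.l 43) (.l 31)) (.l 38)) (.l 35)) (.l 43)))) (.b 0 (.b 36 (.b 35 (.b 38 (.b 31 (.l 43) (.l 31)) (.l 38)) (.l 35)) (.b 32 (.b 35 (.b 38 (.b 31 (.l 43) (.l 31)) (.l 38)) (.l 35)) (.l 43))) (.l 44))) (.b 1 (.b 0 (.b 36 (.b 35 (.b 38 (.b 31 (.l 43) (.l 31)) (.l 38)) (.l 35)) (.b 32 (.b 35 (.b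 38 (.b 31 (.l 43) (.l 31)) (.l 38)) (.l 35)) (.l 43))) (.l 44)) (.l 44))) (.b 2 (.b 1 (.b 0 (.b 41 (.b 35 (.b 38 (.b 31 (.l 43) (.l 31)) (.l 38)) (.l 35)) (.b 34 (.b 35 (.b 38 (.b 31 (.l 43) (.l 31)) (.l 38)) (.l 35)) (.l 41))) (.l 44)) (.l 44)) (.l 44))) (.b 3 (.b 2 (.b 1 (.b 0 (.b 36 (.b 35 (.b 38 (.b 31 (.l 43) (.l 31)) (.l 38)) (.l 35)) (.b 32 (.b 35 (.b 38 (.b 31 (.l 43) (.l 31)) (.l 38)) (.l 35)) (.l 43))) (.l 44)) (.l 44)) (.l 44)) (.l 44))) (.b 4 (.b 3 (.b 2 (.b 1 (.b 0 (.b 41 (.b 35 (.b 38 (.b 31 (.l 43) (.l 31)) (.l 38)) (.l 35)) (.b 34 (.b 35 (.b 38 (.b 31 (.l 43) (.l 31)) (.l 38)) (.l 35)) (.l 41))) (.l 44)) (.l 44)) (.l 44)) (.l 44)) (.l 44))) (.b 5 (.b 4 (.b 3 (.b 2 (.b 1 (.b 0 (.b 41 (.b 35 (.b 38 (.b 31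 (.l 43) (.l 31)) (.l 38)) (.l 35)) (.b 34 (.b 35 (.b 38 (.b 31 (.l 43) (.l 31)) (.l 38)) (.l 35)) (.l 41))) (.l 44)) (.l 44)) (.l 44)) (.l 44)) (.l 44)) (.l 44))) (.b 7 (.b 5 (.b 4 (.b 3 (.b 2 (.b 1 (.b 0 (.b 41 (.b 38 (.b 35 (.b 31 (.l 43) (.l 31)) (.l 35)) (.l 38)) (.b 34 (.b 38 (.b 35 (.b 31 (.l 43) (.l 31)) (.l 35)) (.l 38)) (.l 41))) (.l 44)) (.l 44)) (.l 44)) (.l 44)) (.l 44)) (.l 44)) (.l 44))) (.b 8 (.b 7 (.b 5 (.b 4 (.b 3 (.b 2 (.b 1 (.b 0 (.b 41 (.b 35 (.b 38 (.b 31 (.l 43) (.l 31)) (.l 38)) (.l 35)) (.b 34 (.b 35 (.b 38 (.b 31 (.l 43) (.l 31)) (.l 38)) (.l 35)) (.l 41))) (.l 44)) (.l 44)) (.l 44)) (.l 44)) (.l 44)) (.l 44)) (.l 44)) (.l 44))) (.b 10 (.b 8 (.b 7 (.b 5 (.b 4 (.b 3 (.b 2 (.b 1 (.b 0 (.b 41 (.b 38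 (.b 35 (.b 39 (.l 43) (.l 39)) (.l 35)) (.l 38)) (.b 34 (.b 38 (.b 35 (.b 39 (.l 43) (.l 39)) (.l 35)) (.l 38)) (.l 41))) (.l 44)) (.l 44)) (.l 44)) (.l 44)) (.l 44)) (.l 44)) (.l 44)) (.l 44)) (.l 44))) (.b 12 (.b 10 (.b 8 (.b 7 (.b 5 (.b 4 (.b 3 (.b 2 (.b 1 (.b 0 (.b 41 (.b 38 (.b 35 (.b 31 (.l 43) (.l 31)) (.l 35)) (.l 38)) (.b 34 (.b 38 (.b 35 (.b 31 (.l 43) (.l 31)) (.l 35)) (.l 38)) (.l 41))) (.l 44)) (.l 44)) (.l 44)) (.l 44)) (.l 44)) (.l 44)) (.l 44)) (.l 44)) (.l 44)) (.l 44))) (.l 42)) (.b 14 (.b 12 (.b 42 (.b 10 (.b 8 (.b 7 (.b 5 (.b 4 (.b 3 (.b 2 (.b 1 (.b 0 (.b 41 (.b 36 (.b 35 (.b 38 (.b 31 (.l 43) (.l 31)) (.l 38)) (.l 35)) (.b 32 (.b 35 (.b 38 (.b 31 (.l 43) (.l 31)) (.l 38)) (.l 35)) (.b 26 (.b 35 (.b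 38 (.b 31 (.l 43) (.l 31)) (.l 38)) (.l 35)) (.l 43)))) (.b 34 (.b 28 (.b 35 (.b 38 (.l 43) (.l 38)) (.l 35)) (.l 41)) (.l 41))) (.l 44)) (.l 44)) (.l 44)) (.l 44)) (.l 44)) (.l 44)) (.l 44)) (.l 44)) (.l 44)) (.l 42)) (.l 44)) (.l 44))) (.b 16 (.b 14 (.b 12 (.b 42 (.b 10 (.b 8 (.b 7 (.b 5 (.b 4 (.b 3 (.b 2 (.b 1 (.b 0 (.b 41 (.b 38 (.b 35 (.b 39 (.l 43) (.l 39)) (.l 35)) (.l 38)) (.b 34 (.b 38 (.b 35 (.b 39 (.l 43) (.l 39)) (.l 35)) (.l 38)) (.l 41))) (.l 44)) (.l 44)) (.l 44)) (.l 44)) (.l 44)) (.l 44)) (.l 44)) (.l 44)) (.l 44)) (.l 42)) (.l 44)) (.l 44)) (.l 44)))) (.b 21 (.b 19 (.b 16 (.b 42 (.b 14 (.b 12 (.b 10 (.b 8 (.b 7 (.b 5 (.b 4 (.b 3 (.b 2 (.b 1 (.b 36 (.b 35 (.b 38 (.b 31 (.l 43) (.l 31)) (.l 38)) (.l 35))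 (.b 32 (.b 35 (.b 38 (.b 31 (.l 43) (.l 31)) (.l 38)) (.l 35)) (.b 26 (.b 35 (.b 38 (.b 31 (.l 43) (.l 31)) (.l 38)) (.l 35)) (.l 43)))) (.b 0 (.b 36 (.b 35 (.b 38 (.b 31 (.l 43) (.l 31)) (.l 38)) (.l 35)) (.b 32 (.b 35 (.b 38 (.b 31 (.l 43) (.l 31)) (.l 38)) (.l 35)) (.l 43))) (.l 44))) (.b 1 (.b 0 (.b 36 (.b 35 (.b 38 (.b 31 (.l 43) (.l 31)) (.l 38)) (.l 35)) (.b 32 (.b 35 (.b 38 (.b 31 (.l 43) (.l 31)) (.l 38)) (.l 35)) (.l 43))) (.l 44)) (.l 44))) (.b 2 (.b 1 (.b 0 (.b 41 (.b 35 (.b 38 (.b 31 (.l 43) (.l 31)) (.l 38)) (.l 35)) (.b 34 (.b 35 (.b 38 (.b 31 (.l 43) (.l 31)) (.l 38)) (.l 35)) (.l 41))) (.l 44)) (.l 44)) (.l 44))) (.b 3 (.b 2 (.b 1 (.b 0 (.b 36 (.b 35 (.b 38 (.b 31 (.l 43) (.l 31)) (.l 38)) (.l 35)) (.b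 32 (.b 35 (.b 38 (.b 31 (.l 43) (.l 31)) (.l 38)) (.l 35)) (.l 43))) (.l 44)) (.l 44)) (.l 44)) (.l 44))) (.b 4 (.b 3 (.b 2 (.b 1 (.b 0 (.b 41 (.b 35 (.b 38 (.b 31 (.l 43) (.l 31)) (.l 38)) (.l 35)) (.b 34 (.b 35 (.b 38 (.b 31 (.l 43) (.l 31)) (.l 38)) (.l 35)) (.l 41))) (.l 44)) (.l 44)) (.l 44)) (.l 44)) (.l 44))) (.b 5 (.b 4 (.b 3 (.b 2 (.b 1 (.b 0 (.b 41 (.b 35 (.b 38 (.b 31 (.l 43) (.l 31)) (.l 38)) (.l 35)) (.b 34 (.b 35 (.b 38 (.b 31 (.l 43) (.l 31)) (.l 38)) (.l 35)) (.l 41))) (.l 44)) (.l 44)) (.l 44)) (.l 44)) (.l 44)) (.l 44))) (.b 7 (.b 5 (.b 4 (.b 3 (.b 2 (.b 1 (.b 0 (.b 41 (.b 38 (.b 35 (.b 31 (.l 43) (.l 31)) (.l 35)) (.l 38)) (.b 34 (.b 38 (.b 35 (.b 31 (.l 43) (.l 31)) (.l 35)) (.l 38)) (.l 41))) (.l 44))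 (.l 44)) (.l 44)) (.l 44)) (.l 44)) (.l 44)) (.l 44))) (.b 8 (.b 7 (.b 5 (.b 4 (.b 3 (.b 2 (.b 1 (.b 0 (.b 41 (.b 35 (.b 38 (.b 31 (.l 43) (.l 31)) (.l 38)) (.l 35)) (.b 34 (.b 35 (.b 38 (.b 31 (.l 43) (.l 31)) (.l 38)) (.l 35)) (.l 41))) (.l 44)) (.l 44)) (.l 44)) (.l 44)) (.l 44)) (.l 44)) (.l 44)) (.l 44))) (.b 10 (.b 8 (.b 7 (.b 5 (.b 4 (.b 3 (.b 2 (.b 1 (.b 0 (.b 41 (.b 38 (.b 35 (.b 39 (.l 43) (.l 39)) (.l 35)) (.l 38)) (.b 34 (.b 38 (.b 35 (.b 39 (.l 43) (.l 39)) (.l 35)) (.l 38)) (.l 41))) (.l 44)) (.l 44)) (.l 44)) (.l 44)) (.l 44)) (.l 44)) (.l 44)) (.l 44)) (.l 44))) (.b 12 (.b 10 (.b 8 (.b 7 (.b 5 (.b 4 (.b 3 (.b 2 (.b 1 (.b 0 (.b 41 (.b 38 (.b 35 (.b 31 (.l 43) (.l 31)) (.l 35)) (.l 38)) (.b 34 (.b 38 (.b 35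 (.b 31 (.l 43) (.l 31)) (.l 35)) (.l 38)) (.l 41))) (.l 44)) (.l 44)) (.l 44)) (.l 44)) (.l 44)) (.l 44)) (.l 44)) (.l 44)) (.l 44)) (.l 44))) (.l 42)) (.b 14 (.b 12 (.b 42 (.b 10 (.b 8 (.b 7 (.b 5 (.b 4 (.b 3 (.b 2 (.b 1 (.b 0 (.b 41 (.b 34 (.b 35 (.b 38 (.l 43) (.l 38)) (.l 35)) (.b 28 (.b 35 (.b 38 (.l 43) (.l 38)) (.l 35)) (.l 34))) (.b 34 (.b 28 (.b 35 (.b 38 (.l 43) (.l 38)) (.l 35)) (.l 41)) (.l 41))) (.l 44)) (.l 44)) (.l 44)) (.l 44)) (.l 44)) (.l 44)) (.l 44)) (.l 44)) (.l 44)) (.l 42)) (.l 44)) (.l 44))) (.b 16 (.b 14 (.b 12 (.b 42 (.b 10 (.b 8 (.b 7 (.b 5 (.b 4 (.b 3 (.b 2 (.b 1 (.b 0 (.b 41 (.b 38 (.b 35 (.b 39 (.l 43) (.l 39)) (.l 35)) (.l 38)) (.b 34 (.b 38 (.b 35 (.b 39 (.l 43) (.l 39)) (.l 35)) (.l 38))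 (.l 41))) (.l 44)) (.l 44)) (.l 44)) (.l 44)) (.l 44)) (.l 44)) (.l 44)) (.l 44)) (.l 44)) (.l 42)) (.l 44)) (.l 44)) (.l 44))) (.b 19 (.b 16 (.b 14 (.b 12 (.b 42 (.b 10 (.b 8 (.b 7 (.b 5 (.b 4 (.b 3 (.b 2 (.b 1 (.b 0 (.b 41 (.b 36 (.b 35 (.b 38 (.b 31 (.l 43) (.l 31)) (.l 38)) (.l 35)) (.b 32 (.b 35 (.b 38 (.b 31 (.l 43) (.l 31)) (.l 38)) (.l 35)) (.b 26 (.b 35 (.b 38 (.b 31 (.l 43) (.l 31)) (.l 38)) (.l 35)) (.l 43)))) (.b 34 (.b 28 (.b 35 (.b 38 (.l 43) (.l 38)) (.l 35)) (.l 41)) (.l 41))) (.l 44)) (.l 44)) (.l 44)) (.l 44)) (.l 44)) (.l 44)) (.l 44)) (.l 44)) (.l 44)) (.l 42)) (.l 44)) (.l 44)) (.l 44)) (.l 44)))) (.b 24 (.b 21 (.b 19 (.b 16 (.b 42 (.b 14 (.b 12 (.b 10 (.b 8 (.b 7 (.b 5 (.b 4 (.b 3 (.b 2 (.b 1 (.b 36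 (.b 35 (.b 38 (.b 31 (.l 43) (.l 31)) (.l 38)) (.l 35)) (.b 32 (.b 35 (.b 38 (.b 31 (.l 43) (.l 31)) (.l 38)) (.l 35)) (.b 26 (.b 35 (.b 38 (.b 31 (.l 43) (.l 31)) (.l 38)) (.l 35)) (.l 43)))) (.b 0 (.b 36 (.b 35 (.b 38 (.b 31 (.l 43) (.l 31)) (.l 38)) (.l 35)) (.b 32 (.b 35 (.b 38 (.b 31 (.l 43) (.l 31)) (.l 38)) (.l 35)) (.l 43))) (.l 44))) (.b 1 (.b 0 (.b 36 (.b 35 (.b 38 (.b 31 (.l 43) (.l 31)) (.l 38)) (.l 35)) (.b 32 (.b 35 (.b 38 (.b 31 (.l 43) (.l 31)) (.l 38)) (.l 35)) (.l 43))) (.l 44)) (.l 44))) (.b 2 (.b 1 (.b 0 (.b 36 (.b 35 (.b 38 (.b 31 (.b 29 (.l 43) (.l 29)) (.l 31)) (.l 38)) (.l 35)) (.b 32 (.b 35 (.b 38 (.b 31 (.b 29 (.l 43) (.l 29)) (.l 31)) (.l 38)) (.l 35)) (.b 26 (.b 35 (.b 38 (.b 31 (.b 29 (.l 43)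 (.l 29)) (.l 31)) (.l 38)) (.l 35)) (.l 43)))) (.l 44)) (.l 44)) (.l 44))) (.b 3 (.b 2 (.b 1 (.b 0 (.b 36 (.b 35 (.b 38 (.b 31 (.l 43) (.l 31)) (.l 38)) (.l 35)) (.b 32 (.b 35 (.b 38 (.b 31 (.l 43) (.l 31)) (.l 38)) (.l 35)) (.l 43))) (.l 44)) (.l 44)) (.l 44)) (.l 44))) (.b 4 (.b 3 (.b 2 (.b 1 (.b 0 (.b 36 (.b 35 (.b 38 (.b 31 (.b 39 (.l 43) (.l 39)) (.l 31)) (.l 38)) (.l 35)) (.b 32 (.b 35 (.b 38 (.b 31 (.b 39 (.l 43) (.l 39)) (.l 31)) (.l 38)) (.l 35)) (.b 26 (.b 35 (.b 38 (.b 31 (.b 39 (.l 43) (.l 39)) (.l 31)) (.l 38)) (.l 35)) (.l 43)))) (.l 44)) (.l 44)) (.l 44)) (.l 44)) (.l 44))) (.b 5 (.b 4 (.b 3 (.b 2 (.b 1 (.b 0 (.b 36 (.b 35 (.b 38 (.b 31 (.b 29 (.l 43) (.l 29)) (.l 31)) (.l 38)) (.l 35)) (.b 32 (.b 35 (.b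 38 (.b 31 (.b 29 (.l 43) (.l 29)) (.l 31)) (.l 38)) (.l 35)) (.b 26 (.b 35 (.b 38 (.b 31 (.b 29 (.l 43) (.l 29)) (.l 31)) (.l 38)) (.l 35)) (.l 43)))) (.l 44)) (.l 44)) (.l 44)) (.l 44)) (.l 44)) (.l 44))) (.b 7 (.b 5 (.b 4 (.b 3 (.b 2 (.b 1 (.b 0 (.b 36 (.b 38 (.b 35 (.b 31 (.b 39 (.l 43) (.l 39)) (.l 31)) (.l 35)) (.l 38)) (.b 32 (.b 38 (.b 35 (.b 31 (.b 39 (.l 43) (.l 39)) (.l 31)) (.l 35)) (.l 38)) (.b 26 (.b 38 (.b 35 (.b 31 (.b 39 (.l 43) (.l 39)) (.l 31)) (.l 35)) (.l 38)) (.l 43)))) (.l 44)) (.l 44)) (.l 44)) (.l 44)) (.l 44)) (.l 44)) (.l 44))) (.b 8 (.b 7 (.b 5 (.b 4 (.b 3 (.b 2 (.b 1 (.b 0 (.b 36 (.b 35 (.b 38 (.b 31 (.b 39 (.l 43) (.l 39)) (.l 31)) (.l 38)) (.l 35)) (.b 32 (.b 35 (.b 38 (.b 31 (.b 39 (.l 43)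 (.l 39)) (.l 31)) (.l 38)) (.l 35)) (.b 26 (.b 35 (.b 38 (.b 31 (.b 39 (.l 43) (.l 39)) (.l 31)) (.l 38)) (.l 35)) (.l 43)))) (.l 44)) (.l 44)) (.l 44)) (.l 44)) (.l 44)) (.l 44)) (.l 44)) (.l 44))) (.b 10 (.b 8 (.b 7 (.b 5 (.b 4 (.b 3 (.b 2 (.b 1 (.b 0 (.b 36 (.b 38 (.b 35 (.b 39 (.b 31 (.l 43) (.l 31)) (.l 39)) (.l 35)) (.l 38)) (.b 32 (.b 38 (.b 35 (.b 39 (.b 31 (.l 43) (.l 31)) (.l 39)) (.l 35)) (.l 38)) (.b 26 (.b 38 (.b 35 (.b 39 (.b 31 (.l 43) (.l 31)) (.l 39)) (.l 35)) (.l 38)) (.l 43)))) (.l 44)) (.l 44)) (.l 44)) (.l 44)) (.l 44)) (.l 44)) (.l 44)) (.l 44)) (.l 44))) (.b 12 (.b 10 (.b 8 (.b 7 (.b 5 (.b 4 (.b 3 (.b 2 (.b 1 (.b 0 (.b 36 (.b 38 (.b 35 (.b 31 (.b 39 (.l 43) (.l 39)) (.l 31)) (.l 35)) (.l 38)) (.b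 32 (.b 38 (.b 35 (.b 31 (.b 39 (.l 43) (.l 39)) (.l 31)) (.l 35)) (.l 38)) (.b 26 (.b 38 (.b 35 (.b 31 (.b 39 (.l 43) (.l 39)) (.l 31)) (.l 35)) (.l 38)) (.l 43)))) (.l 44)) (.l 44)) (.l 44)) (.l 44)) (.l 44)) (.l 44)) (.l 44)) (.l 44)) (.l 44)) (.l 44))) (.l 42)) (.b 14 (.b 12 (.b 42 (.b 10 (.b 8 (.b 7 (.b 5 (.b 4 (.b 3 (.b 2 (.b 1 (.b 0 (.b 36 (.b 32 (.b 35 (.b 38 (.b 31 (.b 29 (.l 43) (.l 29)) (.l 31)) (.l 38)) (.l 35)) (.b 26 (.b 35 (.b 38 (.b 31 (.b 29 (.l 43) (.l 29)) (.l 31)) (.l 38)) (.l 35)) (.b 23 (.b 38 (.b 35 (.b 31 (.b 39 (.l 43) (.l 39)) (.l 31)) (.l 35)) (.l 38)) (.l 43)))) (.b 32 (.b 26 (.b 35 (.b 38 (.b 31 (.b 29 (.l 43) (.l 29)) (.l 31)) (.l 38)) (.l 35)) (.b 23 (.b 38 (.b 35 (.b 31 (.b 39 (.l 43) (.l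 39)) (.l 31)) (.l 35)) (.l 38)) (.l 43))) (.b 26 (.b 23 (.b 38 (.b 35 (.b 31 (.b 39 (.l 43) (.l 39)) (.l 31)) (.l 35)) (.l 38)) (.l 43)) (.l 43)))) (.l 44)) (.l 44)) (.l 44)) (.l 44)) (.l 44)) (.l 44)) (.l 44)) (.l 44)) (.l 44)) (.l 42)) (.l 44)) (.l 44))) (.b 16 (.b 14 (.b 12 (.b 42 (.b 10 (.b 8 (.b 7 (.b 5 (.b 4 (.b 3 (.b 2 (.b 1 (.b 0 (.b 36 (.b 38 (.b 35 (.b 39 (.b 31 (.l 43) (.l 31)) (.l 39)) (.l 35)) (.l 38)) (.b 32 (.b 38 (.b 35 (.b 39 (.b 31 (.l 43) (.l 31)) (.l 39)) (.l 35)) (.l 38)) (.b 26 (.b 38 (.b 35 (.b 39 (.b 31 (.l 43) (.l 31)) (.l 39)) (.l 35)) (.l 38)) (.l 43)))) (.l 44)) (.l 44)) (.l 44)) (.l 44)) (.l 44)) (.l 44)) (.l 44)) (.l 44)) (.l 44)) (.l 42)) (.l 44)) (.l 44)) (.l 44))) (.b 19 (.b 16 (.b 14 (.b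 12 (.b 42 (.b 10 (.b 8 (.b 7 (.b 5 (.b 4 (.b 3 (.b 2 (.b 1 (.b 0 (.b 36 (.b 32 (.b 35 (.b 38 (.b 31 (.b 29 (.l 43) (.l 29)) (.l 31)) (.l 38)) (.l 35)) (.b 26 (.b 35 (.b 38 (.b 31 (.b 29 (.l 43) (.l 29)) (.l 31)) (.l 38)) (.l 35)) (.b 23 (.b 38 (.b 35 (.b 31 (.b 39 (.l 43) (.l 39)) (.l 31)) (.l 35)) (.l 38)) (.l 43)))) (.b 32 (.b 26 (.b 35 (.b 38 (.b 31 (.b 29 (.l 43) (.l 29)) (.l 31)) (.l 38)) (.l 35)) (.b 23 (.b 38 (.b 35 (.b 31 (.b 39 (.l 43) (.l 39)) (.l 31)) (.l 35)) (.l 38)) (.l 43))) (.b 26 (.b 23 (.b 38 (.b 35 (.b 31 (.b 39 (.l 43) (.l 39)) (.l 31)) (.l 35)) (.l 38)) (.l 43)) (.l 43)))) (.l 44)) (.l 44)) (.l 44)) (.l 44)) (.l 44)) (.l 44)) (.l 44)) (.l 44)) (.l 44)) (.l 42)) (.l 44)) (.l 44)) (.l 44)) (.l 44))) (.b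 21 (.b 19 (.b 16 (.b 14 (.b 12 (.b 42 (.b 10 (.b 8 (.b 7 (.b 5 (.b 4 (.b 3 (.b 2 (.b 1 (.b 0 (.b 36 (.b 32 (.b 35 (.b 38 (.b 31 (.b 29 (.l 43) (.l 29)) (.l 31)) (.l 38)) (.l 35)) (.b 26 (.b 35 (.b 38 (.b 31 (.b 29 (.l 43) (.l 29)) (.l 31)) (.l 38)) (.l 35)) (.b 23 (.b 38 (.b 35 (.b 31 (.b 39 (.l 43) (.l 39)) (.l 31)) (.l 35)) (.l 38)) (.l 43)))) (.b 32 (.b 26 (.b 35 (.b 38 (.b 31 (.b 29 (.l 43) (.l 29)) (.l 31)) (.l 38)) (.l 35)) (.b 23 (.b 38 (.b 35 (.b 31 (.b 39 (.l 43) (.l 39)) (.l 31)) (.l 35)) (.l 38)) (.l 43))) (.b 26 (.b 23 (.b 38 (.b 35 (.b 31 (.b 39 (.l 43) (.l 39)) (.l 31)) (.l 35)) (.l 38)) (.l 43)) (.l 43)))) (.l 44)) (.l 44)) (.l 44)) (.l 44)) (.l 44)) (.l 44)) (.l 44)) (.l 44)) (.l 44)) (.l 42)) (.l 44)) (.l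 44)) (.l 44)) (.l 44)) (.l 44)))) (.b 27 (.b 24 (.b 21 (.b 19 (.b 16 (.b 42 (.b 14 (.b 12 (.b 10 (.b 8 (.b 7 (.b 5 (.b 4 (.b 3 (.b 2 (.b 1 (.b 36 (.b 35 (.b 38 (.b 31 (.l 43) (.l 31)) (.l 38)) (.l 35)) (.b 32 (.b 35 (.b 38 (.b 31 (.l 43) (.l 31)) (.l 38)) (.l 35)) (.b 26 (.b 35 (.b 38 (.b 31 (.l 43) (.l 31)) (.l 38)) (.l 35)) (.l 43)))) (.b 0 (.b 36 (.b 35 (.b 38 (.b 31 (.l 43) (.l 31)) (.l 38)) (.l 35)) (.b 32 (.b 35 (.b 38 (.b 31 (.l 43) (.l 31)) (.l 38)) (.l 35)) (.l 43))) (.l 44))) (.b 1 (.b 0 (.b 36 (.b 35 (.b 38 (.b 31 (.l 43) (.l 31)) (.l 38)) (.l 35)) (.b 32 (.b 35 (.b 38 (.b 31 (.l 43) (.l 31)) (.l 38)) (.l 35)) (.l 43))) (.l 44)) (.l 44))) (.b 2 (.b 1 (.b 0 (.b 41 (.b 35 (.b 38 (.b 31 (.l 43) (.l 31)) (.l 38))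 (.l 35)) (.b 34 (.b 35 (.b 38 (.b 31 (.l 43) (.l 31)) (.l 38)) (.l 35)) (.l 41))) (.l 44)) (.l 44)) (.l 44))) (.b 3 (.b 2 (.b 1 (.b 0 (.b 36 (.b 35 (.b 38 (.b 31 (.l 43) (.l 31)) (.l 38)) (.l 35)) (.b 32 (.b 35 (.b 38 (.b 31 (.l 43) (.l 31)) (.l 38)) (.l 35)) (.l 43))) (.l 44)) (.l 44)) (.l 44)) (.l 44))) (.b 4 (.b 3 (.b 2 (.b 1 (.b 0 (.b 41 (.b 35 (.b 38 (.b 31 (.l 43) (.l 31)) (.l 38)) (.l 35)) (.b 34 (.b 35 (.b 38 (.b 31 (.l 43) (.l 31)) (.l 38)) (.l 35)) (.l 41))) (.l 44)) (.l 44)) (.l 44)) (.l 44)) (.l 44))) (.b 5 (.b 4 (.b 3 (.b 2 (.b 1 (.b 0 (.b 41 (.b 35 (.b 38 (.b 31 (.l 43) (.l 31)) (.l 38)) (.l 35)) (.b 34 (.b 35 (.b 38 (.b 31 (.l 43) (.l 31)) (.l 38)) (.l 35)) (.l 41))) (.l 44)) (.l 44)) (.l 44)) (.l 44)) (.l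 44)) (.l 44))) (.b 7 (.b 5 (.b 4 (.b 3 (.b 2 (.b 1 (.b 0 (.b 41 (.b 38 (.b 35 (.b 31 (.l 43) (.l 31)) (.l 35)) (.l 38)) (.b 34 (.b 38 (.b 35 (.b 31 (.l 43) (.l 31)) (.l 35)) (.l 38)) (.l 41))) (.l 44)) (.l 44)) (.l 44)) (.l 44)) (.l 44)) (.l 44)) (.l 44))) (.b 8 (.b 7 (.b 5 (.b 4 (.b 3 (.b 2 (.b 1 (.b 0 (.b 41 (.b 35 (.b 38 (.b 31 (.l 43) (.l 31)) (.l 38)) (.l 35)) (.b 34 (.b 35 (.b 38 (.b 31 (.l 43) (.l 31)) (.l 38)) (.l 35)) (.l 41))) (.l 44)) (.l 44)) (.l 44)) (.l 44)) (.l 44)) (.l 44)) (.l 44)) (.l 44))) (.b 10 (.b 8 (.b 7 (.b 5 (.b 4 (.b 3 (.b 2 (.b 1 (.b 0 (.b 41 (.b 38 (.b 35 (.b 39 (.l 43) (.l 39)) (.l 35)) (.l 38)) (.b 34 (.b 38 (.b 35 (.b 39 (.l 43) (.l 39)) (.l 35)) (.l 38)) (.l 41))) (.l 44)) (.l 44)) (.l 44))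 (.l 44)) (.l 44)) (.l 44)) (.l 44)) (.l 44)) (.l 44))) (.b 12 (.b 10 (.b 8 (.b 7 (.b 5 (.b 4 (.b 3 (.b 2 (.b 1 (.b 0 (.b 41 (.b 38 (.b 35 (.b 31 (.l 43) (.l 31)) (.l 35)) (.l 38)) (.b 34 (.b 38 (.b 35 (.b 31 (.l 43) (.l 31)) (.l 35)) (.l 38)) (.l 41))) (.l 44)) (.l 44)) (.l 44)) (.l 44)) (.l 44)) (.l 44)) (.l 44)) (.l 44)) (.l 44)) (.l 44))) (.l 42)) (.b 14 (.b 12 (.b 42 (.b 10 (.b 8 (.b 7 (.b 5 (.b 4 (.b 3 (.b 2 (.b 1 (.b 0 (.b 41 (.b 36 (.b 35 (.b 38 (.b 31 (.l 43) (.l 31)) (.l 38)) (.l 35)) (.b 32 (.b 35 (.b 38 (.b 31 (.l 43) (.l 31)) (.l 38)) (.l 35)) (.b 26 (.b 35 (.b 38 (.b 31 (.l 43) (.l 31)) (.l 38)) (.l 35)) (.l 43)))) (.b 34 (.b 28 (.b 35 (.b 38 (.l 43) (.l 38)) (.l 35)) (.l 41)) (.l 41))) (.l 44)) (.l 44)) (.l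 44)) (.l 44)) (.l 44)) (.l 44)) (.l 44)) (.l 44)) (.l 44)) (.l 42)) (.l 44)) (.l 44))) (.b 16 (.b 14 (.b 12 (.b 42 (.b 10 (.b 8 (.b 7 (.b 5 (.b 4 (.b 3 (.b 2 (.b 1 (.b 0 (.b 41 (.b 38 (.b 35 (.b 39 (.l 43) (.l 39)) (.l 35)) (.l 38)) (.b 34 (.b 38 (.b 35 (.b 39 (.l 43) (.l 39)) (.l 35)) (.l 38)) (.l 41))) (.l 44)) (.l 44)) (.l 44)) (.l 44)) (.l 44)) (.l 44)) (.l 44)) (.l 44)) (.l 44)) (.l 42)) (.l 44)) (.l 44)) (.l 44))) (.b 19 (.b 16 (.b 14 (.b 12 (.b 42 (.b 10 (.b 8 (.b 7 (.b 5 (.b 4 (.b 3 (.b 2 (.b 1 (.b 0 (.b 41 (.b 36 (.b 35 (.b 38 (.b 31 (.l 43) (.l 31)) (.l 38)) (.l 35)) (.b 32 (.b 35 (.b 38 (.b 31 (.l 43) (.l 31)) (.l 38)) (.l 35)) (.b 26 (.b 35 (.b 38 (.b 31 (.l 43) (.l 31)) (.l 38)) (.l 35)) (.l 43)))) (.b 34 (.b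 28 (.b 35 (.b 38 (.l 43) (.l 38)) (.l 35)) (.l 41)) (.l 41))) (.l 44)) (.l 44)) (.l 44)) (.l 44)) (.l 44)) (.l 44)) (.l 44)) (.l 44)) (.l 44)) (.l 42)) (.l 44)) (.l 44)) (.l 44)) (.l 44))) (.b 21 (.b 19 (.b 16 (.b 14 (.b 12 (.b 42 (.b 10 (.b 8 (.b 7 (.b 5 (.b 4 (.b 3 (.b 2 (.b 1 (.b 0 (.b 41 (.b 36 (.b 35 (.b 38 (.b 31 (.l 43) (.l 31)) (.l 38)) (.l 35)) (.b 32 (.b 35 (.b 38 (.b 31 (.l 43) (.l 31)) (.l 38)) (.l 35)) (.b 26 (.b 35 (.b 38 (.b 31 (.l 43) (.l 31)) (.l 38)) (.l 35)) (.l 43)))) (.b 34 (.b 28 (.b 35 (.b 38 (.l 43) (.l 38)) (.l 35)) (.l 41)) (.l 41))) (.l 44)) (.l 44)) (.l 44)) (.l 44)) (.l 44)) (.l 44)) (.l 44)) (.l 44)) (.l 44)) (.l 42)) (.l 44)) (.l 44)) (.l 44)) (.l 44)) (.l 44))) (.b 24 (.b 21 (.b 19 (.b 16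 (.b 14 (.b 12 (.b 42 (.b 10 (.b 8 (.b 7 (.b 5 (.b 4 (.b 3 (.b 2 (.b 1 (.b 0 (.b 36 (.b 32 (.b 35 (.b 38 (.b 31 (.b 29 (.l 43) (.l 29)) (.l 31)) (.l 38)) (.l 35)) (.b 26 (.b 35 (.b 38 (.b 31 (.b 29 (.l 43) (.l 29)) (.l 31)) (.l 38)) (.l 35)) (.b 23 (.b 38 (.b 35 (.b 31 (.b 39 (.l 43) (.l 39)) (.l 31)) (.l 35)) (.l 38)) (.l 43)))) (.b 32 (.b 26 (.b 35 (.b 38 (.b 31 (.b 29 (.l 43) (.l 29)) (.l 31)) (.l 38)) (.l 35)) (.b 23 (.b 38 (.b 35 (.b 31 (.b 39 (.l 43) (.l 39)) (.l 31)) (.l 35)) (.l 38)) (.l 43))) (.b 26 (.b 23 (.b 38 (.b 35 (.b 31 (.b 39 (.l 43) (.l 39)) (.l 31)) (.l 35)) (.l 38)) (.l 43)) (.l 43)))) (.l 44)) (.l 44)) (.l 44)) (.l 44)) (.l 44)) (.l 44)) (.l 44)) (.l 44)) (.l 44)) (.l 42)) (.l 44)) (.l 44)) (.l 44))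 (.l 44)) (.l 44)) (.l 44)))) (.b 30 (.b 27 (.b 24 (.b 21 (.b 19 (.b 16 (.b 42 (.b 14 (.b 12 (.b 10 (.b 8 (.b 7 (.b 5 (.b 4 (.b 3 (.b 2 (.b 1 (.b 36 (.b 35 (.b 38 (.b 31 (.l 43) (.l 31)) (.l 38)) (.l 35)) (.b 32 (.b 35 (.b 38 (.b 31 (.l 43) (.l 31)) (.l 38)) (.l 35)) (.b 26 (.b 35 (.b 38 (.b 31 (.l 43) (.l 31)) (.l 38)) (.l 35)) (.l 43)))) (.b 0 (.b 36 (.b 35 (.b 38 (.b 31 (.l 43) (.l 31)) (.l 38)) (.l 35)) (.b 32 (.b 35 (.b 38 (.b 31 (.l 43) (.l 31)) (.l 38)) (.l 35)) (.l 43))) (.l 44))) (.b 1 (.b 0 (.b 36 (.b 35 (.b 38 (.b 31 (.l 43) (.l 31)) (.l 38)) (.l 35)) (.b 32 (.b 35 (.b 38 (.b 31 (.l 43) (.l 31)) (.l 38)) (.l 35)) (.l 43))) (.l 44)) (.l 44))) (.b 2 (.b 1 (.b 0 (.b 36 (.b 35 (.b 38 (.b 31 (.b 29 (.l 43) (.l 29))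 (.l 31)) (.l 38)) (.l 35)) (.b 32 (.b 35 (.b 38 (.b 31 (.b 29 (.l 43) (.l 29)) (.l 31)) (.l 38)) (.l 35)) (.b 26 (.b 35 (.b 38 (.b 31 (.b 29 (.l 43) (.l 29)) (.l 31)) (.l 38)) (.l 35)) (.l 43)))) (.l 44)) (.l 44)) (.l 44))) (.b 3 (.b 2 (.b 1 (.b 0 (.b 36 (.b 35 (.b 38 (.b 31 (.l 43) (.l 31)) (.l 38)) (.l 35)) (.b 32 (.b 35 (.b 38 (.b 31 (.l 43) (.l 31)) (.l 38)) (.l 35)) (.l 43))) (.l 44)) (.l 44)) (.l 44)) (.l 44))) (.b 4 (.b 3 (.b 2 (.b 1 (.b 0 (.b 36 (.b 35 (.b 38 (.b 31 (.b 39 (.l 43) (.l 39)) (.l 31)) (.l 38)) (.l 35)) (.b 32 (.b 35 (.b 38 (.b 31 (.b 39 (.l 43) (.l 39)) (.l 31)) (.l 38)) (.l 35)) (.b 26 (.b 35 (.b 38 (.b 31 (.b 39 (.l 43) (.l 39)) (.l 31)) (.l 38)) (.l 35)) (.l 43)))) (.l 44)) (.l 44)) (.l 44)) (.l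 44)) (.l 44))) (.b 5 (.b 4 (.b 3 (.b 2 (.b 1 (.b 0 (.b 36 (.b 35 (.b 38 (.b 31 (.b 29 (.l 43) (.l 29)) (.l 31)) (.l 38)) (.l 35)) (.b 32 (.b 35 (.b 38 (.b 31 (.b 29 (.l 43) (.l 29)) (.l 31)) (.l 38)) (.l 35)) (.b 26 (.b 35 (.b 38 (.b 31 (.b 29 (.l 43) (.l 29)) (.l 31)) (.l 38)) (.l 35)) (.l 43)))) (.l 44)) (.l 44)) (.l 44)) (.l 44)) (.l 44)) (.l 44))) (.b 7 (.b 5 (.b 4 (.b 3 (.b 2 (.b 1 (.b 0 (.b 36 (.b 38 (.b 35 (.b 31 (.b 39 (.l 43) (.l 39)) (.l 31)) (.l 35)) (.l 38)) (.b 32 (.b 38 (.b 35 (.b 31 (.b 39 (.l 43) (.l 39)) (.l 31)) (.l 35)) (.l 38)) (.b 26 (.b 38 (.b 35 (.b 31 (.b 39 (.l 43) (.l 39)) (.l 31)) (.l 35)) (.l 38)) (.l 43)))) (.l 44)) (.l 44)) (.l 44)) (.l 44)) (.l 44)) (.l 44)) (.l 44))) (.b 8 (.b 7 (.b 5 (.b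 4 (.b 3 (.b 2 (.b 1 (.b 0 (.b 36 (.b 35 (.b 38 (.b 31 (.b 39 (.l 43) (.l 39)) (.l 31)) (.l 38)) (.l 35)) (.b 32 (.b 35 (.b 38 (.b 31 (.b 39 (.l 43) (.l 39)) (.l 31)) (.l 38)) (.l 35)) (.b 26 (.b 35 (.b 38 (.b 31 (.b 39 (.l 43) (.l 39)) (.l 31)) (.l 38)) (.l 35)) (.l 43)))) (.l 44)) (.l 44)) (.l 44)) (.l 44)) (.l 44)) (.l 44)) (.l 44)) (.l 44))) (.b 10 (.b 8 (.b 7 (.b 5 (.b 4 (.b 3 (.b 2 (.b 1 (.b 0 (.b 36 (.b 38 (.b 35 (.b 39 (.b 31 (.l 43) (.l 31)) (.l 39)) (.l 35)) (.l 38)) (.b 32 (.b 38 (.b 35 (.b 39 (.b 31 (.l 43) (.l 31)) (.l 39)) (.l 35)) (.l 38)) (.b 26 (.b 38 (.b 35 (.b 39 (.b 31 (.l 43) (.l 31)) (.l 39)) (.l 35)) (.l 38)) (.l 43)))) (.l 44)) (.l 44)) (.l 44)) (.l 44)) (.l 44)) (.l 44)) (.l 44)) (.l 44)) (.l 44)))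 (.b 12 (.b 10 (.b 8 (.b 7 (.b 5 (.b 4 (.b 3 (.b 2 (.b 1 (.b 0 (.b 36 (.b 38 (.b 35 (.b 31 (.b 39 (.l 43) (.l 39)) (.l 31)) (.l 35)) (.l 38)) (.b 32 (.b 38 (.b 35 (.b 31 (.b 39 (.l 43) (.l 39)) (.l 31)) (.l 35)) (.l 38)) (.b 26 (.b 38 (.b 35 (.b 31 (.b 39 (.l 43) (.l 39)) (.l 31)) (.l 35)) (.l 38)) (.l 43)))) (.l 44)) (.l 44)) (.l 44)) (.l 44)) (.l 44)) (.l 44)) (.l 44)) (.l 44)) (.l 44)) (.l 44))) (.l 42)) (.b 14 (.b 12 (.b 42 (.b 10 (.b 8 (.b 7 (.b 5 (.b 4 (.b 3 (.b 2 (.b 1 (.b 0 (.b 36 (.b 32 (.b 35 (.b 38 (.b 31 (.b 29 (.l 43) (.l 29)) (.l 31)) (.l 38)) (.l 35)) (.b 26 (.b 35 (.b 38 (.b 31 (.b 29 (.l 43) (.l 29)) (.l 31)) (.l 38)) (.l 35)) (.b 23 (.b 38 (.b 35 (.b 31 (.b 39 (.l 43) (.l 39)) (.l 31)) (.l 35)) (.l 38))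 (.l 43)))) (.b 32 (.b 26 (.b 35 (.b 38 (.b 31 (.b 29 (.l 43) (.l 29)) (.l 31)) (.l 38)) (.l 35)) (.b 23 (.b 38 (.b 35 (.b 31 (.b 39 (.l 43) (.l 39)) (.l 31)) (.l 35)) (.l 38)) (.l 43))) (.b 26 (.b 23 (.b 38 (.b 35 (.b 31 (.b 39 (.l 43) (.l 39)) (.l 31)) (.l 35)) (.l 38)) (.l 43)) (.l 43)))) (.l 44)) (.l 44)) (.l 44)) (.l 44)) (.l 44)) (.l 44)) (.l 44)) (.l 44)) (.l 44)) (.l 42)) (.l 44)) (.l 44))) (.b 16 (.b 14 (.b 12 (.b 42 (.b 10 (.b 8 (.b 7 (.b 5 (.b 4 (.b 3 (.b 2 (.b 1 (.b 0 (.b 36 (.b 38 (.b 35 (.b 39 (.b 31 (.l 43) (.l 31)) (.l 39)) (.l 35)) (.l 38)) (.b 32 (.b 38 (.b 35 (.b 39 (.b 31 (.l 43) (.l 31)) (.l 39)) (.l 35)) (.l 38)) (.b 26 (.b 38 (.b 35 (.b 39 (.b 31 (.l 43) (.l 31)) (.l 39)) (.l 35)) (.l 38)) (.l 43))))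 (.l 44)) (.l 44)) (.l 44)) (.l 44)) (.l 44)) (.l 44)) (.l 44)) (.l 44)) (.l 44)) (.l 42)) (.l 44)) (.l 44)) (.l 44))) (.b 19 (.b 16 (.b 14 (.b 12 (.b 42 (.b 10 (.b 8 (.b 7 (.b 5 (.b 4 (.b 3 (.b 2 (.b 1 (.b 0 (.b 36 (.b 32 (.b 35 (.b 38 (.b 31 (.b 29 (.l 43) (.l 29)) (.l 31)) (.l 38)) (.l 35)) (.b 26 (.b 35 (.b 38 (.b 31 (.b 29 (.l 43) (.l 29)) (.l 31)) (.l 38)) (.l 35)) (.b 23 (.b 38 (.b 35 (.b 31 (.b 39 (.l 43) (.l 39)) (.l 31)) (.l 35)) (.l 38)) (.l 43)))) (.b 32 (.b 26 (.b 35 (.b 38 (.b 31 (.b 29 (.l 43) (.l 29)) (.l 31)) (.l 38)) (.l 35)) (.b 23 (.b 38 (.b 35 (.b 31 (.b 39 (.l 43) (.l 39)) (.l 31)) (.l 35)) (.l 38)) (.l 43))) (.b 26 (.b 23 (.b 38 (.b 35 (.b 31 (.b 39 (.l 43) (.l 39)) (.l 31)) (.l 35)) (.l 38)) (.l 43))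 (.l 43)))) (.l 44)) (.l 44)) (.l 44)) (.l 44)) (.l 44)) (.l 44)) (.l 44)) (.l 44)) (.l 44)) (.l 42)) (.l 44)) (.l 44)) (.l 44)) (.l 44))) (.b 21 (.b 19 (.b 16 (.b 14 (.b 12 (.b 42 (.b 10 (.b 8 (.b 7 (.b 5 (.b 4 (.b 3 (.b 2 (.b 1 (.b 0 (.b 36 (.b 32 (.b 35 (.b 38 (.b 31 (.b 29 (.l 43) (.l 29)) (.l 31)) (.l 38)) (.l 35)) (.b 26 (.b 35 (.b 38 (.b 31 (.b 29 (.l 43) (.l 29)) (.l 31)) (.l 38)) (.l 35)) (.b 23 (.b 38 (.b 35 (.b 31 (.b 39 (.l 43) (.l 39)) (.l 31)) (.l 35)) (.l 38)) (.l 43)))) (.b 32 (.b 26 (.b 35 (.b 38 (.b 31 (.b 29 (.l 43) (.l 29)) (.l 31)) (.l 38)) (.l 35)) (.b 23 (.b 38 (.b 35 (.b 31 (.b 39 (.l 43) (.l 39)) (.l 31)) (.l 35)) (.l 38)) (.l 43))) (.b 26 (.b 23 (.b 38 (.b 35 (.b 31 (.b 39 (.l 43) (.l 39)) (.l 31))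 (.l 35)) (.l 38)) (.l 43)) (.l 43)))) (.l 44)) (.l 44)) (.l 44)) (.l 44)) (.l 44)) (.l 44)) (.l 44)) (.l 44)) (.l 44)) (.l 42)) (.l 44)) (.l 44)) (.l 44)) (.l 44)) (.l 44))) (.b 24 (.b 21 (.b 19 (.b 16 (.b 14 (.b 12 (.b 42 (.b 10 (.b 8 (.b 7 (.b 5 (.b 4 (.b 3 (.b 2 (.b 1 (.b 0 (.b 36 (.b 32 (.b 35 (.b 38 (.b 31 (.b 29 (.l 43) (.l 29)) (.l 31)) (.l 38)) (.l 35)) (.b 26 (.b 35 (.b 38 (.b 31 (.b 29 (.l 43) (.l 29)) (.l 31)) (.l 38)) (.l 35)) (.b 23 (.b 38 (.b 35 (.b 31 (.b 39 (.l 43) (.l 39)) (.l 31)) (.l 35)) (.l 38)) (.l 43)))) (.b 32 (.b 26 (.b 35 (.b 38 (.b 31 (.b 29 (.l 43) (.l 29)) (.l 31)) (.l 38)) (.l 35)) (.b 23 (.b 38 (.b 35 (.b 31 (.b 39 (.l 43) (.l 39)) (.l 31)) (.l 35)) (.l 38)) (.l 43))) (.b 26 (.b 23 (.b 38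 (.b 35 (.b 31 (.b 39 (.l 43) (.l 39)) (.l 31)) (.l 35)) (.l 38)) (.l 43)) (.l 43)))) (.l 44)) (.l 44)) (.l 44)) (.l 44)) (.l 44)) (.l 44)) (.l 44)) (.l 44)) (.l 44)) (.l 42)) (.l 44)) (.l 44)) (.l 44)) (.l 44)) (.l 44)) (.l 44))) (.b 27 (.b 24 (.b 21 (.b 19 (.b 16 (.b 14 (.b 12 (.b 42 (.b 10 (.b 8 (.b 7 (.b 5 (.b 4 (.b 3 (.b 2 (.b 1 (.b 0 (.b 36 (.b 32 (.b 35 (.b 38 (.b 31 (.b 29 (.l 43) (.l 29)) (.l 31)) (.l 38)) (.l 35)) (.b 26 (.b 35 (.b 38 (.b 31 (.b 29 (.l 43) (.l 29)) (.l 31)) (.l 38)) (.l 35)) (.b 23 (.b 38 (.b 35 (.b 31 (.b 39 (.l 43) (.l 39)) (.l 31)) (.l 35)) (.l 38)) (.l 43)))) (.b 32 (.b 26 (.b 35 (.b 38 (.b 31 (.b 29 (.l 43) (.l 29)) (.l 31)) (.l 38)) (.l 35)) (.b 23 (.b 38 (.b 35 (.b 31 (.b 39 (.l 43) (.l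 39)) (.l 31)) (.l 35)) (.l 38)) (.l 43))) (.b 26 (.b 23 (.b 38 (.b 35 (.b 31 (.b 39 (.l 43) (.l 39)) (.l 31)) (.l 35)) (.l 38)) (.l 43)) (.l 43)))) (.l 44)) (.l 44)) (.l 44)) (.l 44)) (.l 44)) (.l 44)) (.l 44)) (.l 44)) (.l 44)) (.l 42)) (.l 44)) (.l 44)) (.l 44)) (.l 44)) (.l 44)) (.l 44)) (.l 44)))) (.b 33 (.b 30 (.b 27 (.b 24 (.b 21 (.b 19 (.b 16 (.b 42 (.b 14 (.b 12 (.b 10 (.b 8 (.b 7 (.b 5 (.b 4 (.b 3 (.b 2 (.b 1 (.b 36 (.b 35 (.b 38 (.b 31 (.l 43) (.l 31)) (.l 38)) (.l 35)) (.b 32 (.b 35 (.b 38 (.b 31 (.l 43) (.l 31)) (.l 38)) (.l 35)) (.b 26 (.b 35 (.b 38 (.b 31 (.l 43) (.l 31)) (.l 38)) (.l 35)) (.l 43)))) (.b 0 (.b 36 (.b 35 (.b 38 (.b 31 (.l 43) (.l 31)) (.l 38)) (.l 35)) (.b 32 (.b 35 (.b 38 (.b 31 (.l 43) (.l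 31)) (.l 38)) (.l 35)) (.l 43))) (.l 44))) (.b 1 (.b 0 (.b 36 (.b 35 (.b 38 (.b 31 (.l 43) (.l 31)) (.l 38)) (.l 35)) (.b 32 (.b 35 (.b 38 (.b 31 (.l 43) (.l 31)) (.l 38)) (.l 35)) (.l 43))) (.l 44)) (.l 44))) (.b 2 (.b 1 (.b 0 (.b 36 (.b 35 (.b 38 (.b 31 (.b 29 (.l 43) (.l 29)) (.l 31)) (.l 38)) (.l 35)) (.b 32 (.b 35 (.b 38 (.b 31 (.b 29 (.l 43) (.l 29)) (.l 31)) (.l 38)) (.l 35)) (.b 26 (.b 35 (.b 38 (.b 31 (.b 29 (.l 43) (.l 29)) (.l 31)) (.l 38)) (.l 35)) (.l 43)))) (.l 44)) (.l 44)) (.l 44))) (.b 3 (.b 2 (.b 1 (.b 0 (.b 36 (.b 35 (.b 38 (.b 31 (.l 43) (.l 31)) (.l 38)) (.l 35)) (.b 32 (.b 35 (.b 38 (.b 31 (.l 43) (.l 31)) (.l 38)) (.l 35)) (.l 43))) (.l 44)) (.l 44)) (.l 44)) (.l 44))) (.b 4 (.b 3 (.b 2 (.b 1 (.b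 0 (.b 36 (.b 35 (.b 38 (.b 31 (.b 39 (.l 43) (.l 39)) (.l 31)) (.l 38)) (.l 35)) (.b 32 (.b 35 (.b 38 (.b 31 (.b 39 (.l 43) (.l 39)) (.l 31)) (.l 38)) (.l 35)) (.b 26 (.b 35 (.b 38 (.b 31 (.b 39 (.l 43) (.l 39)) (.l 31)) (.l 38)) (.l 35)) (.l 43)))) (.l 44)) (.l 44)) (.l 44)) (.l 44)) (.l 44))) (.b 5 (.b 4 (.b 3 (.b 2 (.b 1 (.b 0 (.b 36 (.b 35 (.b 38 (.b 31 (.b 29 (.l 43) (.l 29)) (.l 31)) (.l 38)) (.l 35)) (.b 32 (.b 35 (.b 38 (.b 31 (.b 29 (.l 43) (.l 29)) (.l 31)) (.l 38)) (.l 35)) (.b 26 (.b 35 (.b 38 (.b 31 (.b 29 (.l 43) (.l 29)) (.l 31)) (.l 38)) (.l 35)) (.l 43)))) (.l 44)) (.l 44)) (.l 44)) (.l 44)) (.l 44)) (.l 44))) (.b 7 (.b 5 (.b 4 (.b 3 (.b 2 (.b 1 (.b 0 (.b 36 (.b 38 (.b 35 (.b 31 (.b 39 (.l 43) (.l 39))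 (.l 31)) (.l 35)) (.l 38)) (.b 32 (.b 38 (.b 35 (.b 31 (.b 39 (.l 43) (.l 39)) (.l 31)) (.l 35)) (.l 38)) (.b 26 (.b 38 (.b 35 (.b 31 (.b 39 (.l 43) (.l 39)) (.l 31)) (.l 35)) (.l 38)) (.l 43)))) (.l 44)) (.l 44)) (.l 44)) (.l 44)) (.l 44)) (.l 44)) (.l 44))) (.b 8 (.b 7 (.b 5 (.b 4 (.b 3 (.b 2 (.b 1 (.b 0 (.b 36 (.b 35 (.b 38 (.b 31 (.b 39 (.l 43) (.l 39)) (.l 31)) (.l 38)) (.l 35)) (.b 32 (.b 35 (.b 38 (.b 31 (.b 39 (.l 43) (.l 39)) (.l 31)) (.l 38)) (.l 35)) (.b 26 (.b 35 (.b 38 (.b 31 (.b 39 (.l 43) (.l 39)) (.l 31)) (.l 38)) (.l 35)) (.l 43)))) (.l 44)) (.l 44)) (.l 44)) (.l 44)) (.l 44)) (.l 44)) (.l 44)) (.l 44))) (.b 10 (.b 8 (.b 7 (.b 5 (.b 4 (.b 3 (.b 2 (.b 1 (.b 0 (.b 36 (.b 38 (.b 35 (.b 39 (.b 31 (.l 43) (.l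 31)) (.l 39)) (.l 35)) (.l 38)) (.b 32 (.b 38 (.b 35 (.b 39 (.b 31 (.l 43) (.l 31)) (.l 39)) (.l 35)) (.l 38)) (.b 26 (.b 38 (.b 35 (.b 39 (.b 31 (.l 43) (.l 31)) (.l 39)) (.l 35)) (.l 38)) (.l 43)))) (.l 44)) (.l 44)) (.l 44)) (.l 44)) (.l 44)) (.l 44)) (.l 44)) (.l 44)) (.l 44))) (.b 12 (.b 10 (.b 8 (.b 7 (.b 5 (.b 4 (.b 3 (.b 2 (.b 1 (.b 0 (.b 36 (.b 38 (.b 35 (.b 31 (.b 39 (.l 43) (.l 39)) (.l 31)) (.l 35)) (.l 38)) (.b 32 (.b 38 (.b 35 (.b 31 (.b 39 (.l 43) (.l 39)) (.l 31)) (.l 35)) (.l 38)) (.b 26 (.b 38 (.b 35 (.b 31 (.b 39 (.l 43) (.l 39)) (.l 31)) (.l 35)) (.l 38)) (.l 43)))) (.l 44)) (.l 44)) (.l 44)) (.l 44)) (.l 44)) (.l 44)) (.l 44)) (.l 44)) (.l 44)) (.l 44))) (.l 42)) (.b 14 (.b 12 (.b 42 (.b 10 (.b 8 (.b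 7 (.b 5 (.b 4 (.b 3 (.b 2 (.b 1 (.b 0 (.b 36 (.b 32 (.b 35 (.b 38 (.b 31 (.b 29 (.l 43) (.l 29)) (.l 31)) (.l 38)) (.l 35)) (.b 26 (.b 35 (.b 38 (.b 31 (.b 29 (.l 43) (.l 29)) (.l 31)) (.l 38)) (.l 35)) (.b 23 (.b 38 (.b 35 (.b 31 (.b 39 (.l 43) (.l 39)) (.l 31)) (.l 35)) (.l 38)) (.l 43)))) (.b 32 (.b 26 (.b 35 (.b 38 (.b 31 (.b 29 (.l 43) (.l 29)) (.l 31)) (.l 38)) (.l 35)) (.b 23 (.b 38 (.b 35 (.b 31 (.b 39 (.l 43) (.l 39)) (.l 31)) (.l 35)) (.l 38)) (.l 43))) (.b 26 (.b 23 (.b 38 (.b 35 (.b 31 (.b 39 (.l 43) (.l 39)) (.l 31)) (.l 35)) (.l 38)) (.l 43)) (.l 43)))) (.l 44)) (.l 44)) (.l 44)) (.l 44)) (.l 44)) (.l 44)) (.l 44)) (.l 44)) (.l 44)) (.l 42)) (.l 44)) (.l 44))) (.b 16 (.b 14 (.b 12 (.b 42 (.b 10 (.b 8 (.b 7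 (.b 5 (.b 4 (.b 3 (.b 2 (.b 1 (.b 0 (.b 36 (.b 38 (.b 35 (.b 39 (.b 31 (.l 43) (.l 31)) (.l 39)) (.l 35)) (.l 38)) (.b 32 (.b 38 (.b 35 (.b 39 (.b 31 (.l 43) (.l 31)) (.l 39)) (.l 35)) (.l 38)) (.b 26 (.b 38 (.b 35 (.b 39 (.b 31 (.l 43) (.l 31)) (.l 39)) (.l 35)) (.l 38)) (.l 43)))) (.l 44)) (.l 44)) (.l 44)) (.l 44)) (.l 44)) (.l 44)) (.l 44)) (.l 44)) (.l 44)) (.l 42)) (.l 44)) (.l 44)) (.l 44))) (.b 19 (.b 16 (.b 14 (.b 12 (.b 42 (.b 10 (.b 8 (.b 7 (.b 5 (.b 4 (.b 3 (.b 2 (.b 1 (.b 0 (.b 36 (.b 32 (.b 35 (.b 38 (.b 31 (.b 29 (.l 43) (.l 29)) (.l 31)) (.l 38)) (.l 35)) (.b 26 (.b 35 (.b 38 (.b 31 (.b 29 (.l 43) (.l 29)) (.l 31)) (.l 38)) (.l 35)) (.b 23 (.b 38 (.b 35 (.b 31 (.b 39 (.l 43) (.l 39)) (.l 31)) (.l 35)) (.l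 38)) (.l 43)))) (.b 32 (.b 26 (.b 35 (.b 38 (.b 31 (.b 29 (.l 43) (.l 29)) (.l 31)) (.l 38)) (.l 35)) (.b 23 (.b 38 (.b 35 (.b 31 (.b 39 (.l 43) (.l 39)) (.l 31)) (.l 35)) (.l 38)) (.l 43))) (.b 26 (.b 23 (.b 38 (.b 35 (.b 31 (.b 39 (.l 43) (.l 39)) (.l 31)) (.l 35)) (.l 38)) (.l 43)) (.l 43)))) (.l 44)) (.l 44)) (.l 44)) (.l 44)) (.l 44)) (.l 44)) (.l 44)) (.l 44)) (.l 44)) (.l 42)) (.l 44)) (.l 44)) (.l 44)) (.l 44))) (.b 21 (.b 19 (.b 16 (.b 14 (.b 12 (.b 42 (.b 10 (.b 8 (.b 7 (.b 5 (.b 4 (.b 3 (.b 2 (.b 1 (.b 0 (.b 36 (.b 32 (.b 35 (.b 38 (.b 31 (.b 29 (.l 43) (.l 29)) (.l 31)) (.l 38)) (.l 35)) (.b 26 (.b 35 (.b 38 (.b 31 (.b 29 (.l 43) (.l 29)) (.l 31)) (.l 38)) (.l 35)) (.b 23 (.b 38 (.b 35 (.b 31 (.b 39 (.l 43)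 (.l 39)) (.l 31)) (.l 35)) (.l 38)) (.l 43)))) (.b 32 (.b 26 (.b 35 (.b 38 (.b 31 (.b 29 (.l 43) (.l 29)) (.l 31)) (.l 38)) (.l 35)) (.b 23 (.b 38 (.b 35 (.b 31 (.b 39 (.l 43) (.l 39)) (.l 31)) (.l 35)) (.l 38)) (.l 43))) (.b 26 (.b 23 (.b 38 (.b 35 (.b 31 (.b 39 (.l 43) (.l 39)) (.l 31)) (.l 35)) (.l 38)) (.l 43)) (.l 43)))) (.l 44)) (.l 44)) (.l 44)) (.l 44)) (.l 44)) (.l 44)) (.l 44)) (.l 44)) (.l 44)) (.l 42)) (.l 44)) (.l 44)) (.l 44)) (.l 44)) (.l 44))) (.b 24 (.b 21 (.b 19 (.b 16 (.b 14 (.b 12 (.b 42 (.b 10 (.b 8 (.b 7 (.b 5 (.b 4 (.b 3 (.b 2 (.b 1 (.b 0 (.b 36 (.b 32 (.b 35 (.b 38 (.b 31 (.b 29 (.l 43) (.l 29)) (.l 31)) (.l 38)) (.l 35)) (.b 26 (.b 35 (.b 38 (.b 31 (.b 29 (.l 43) (.l 29)) (.l 31)) (.l 38)) (.l 35))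 (.b 23 (.b 38 (.b 35 (.b 31 (.b 39 (.l 43) (.l 39)) (.l 31)) (.l 35)) (.l 38)) (.l 43)))) (.b 32 (.b 26 (.b 35 (.b 38 (.b 31 (.b 29 (.l 43) (.l 29)) (.l 31)) (.l 38)) (.l 35)) (.b 23 (.b 38 (.b 35 (.b 31 (.b 39 (.l 43) (.l 39)) (.l 31)) (.l 35)) (.l 38)) (.l 43))) (.b 26 (.b 23 (.b 38 (.b 35 (.b 31 (.b 39 (.l 43) (.l 39)) (.l 31)) (.l 35)) (.l 38)) (.l 43)) (.l 43)))) (.l 44)) (.l 44)) (.l 44)) (.l 44)) (.l 44)) (.l 44)) (.l 44)) (.l 44)) (.l 44)) (.l 42)) (.l 44)) (.l 44)) (.l 44)) (.l 44)) (.l 44)) (.l 44))) (.b 27 (.b 24 (.b 21 (.b 19 (.b 16 (.b 14 (.b 12 (.b 42 (.b 10 (.b 8 (.b 7 (.b 5 (.b 4 (.b 3 (.b 2 (.b 1 (.b 0 (.b 36 (.b 32 (.b 35 (.b 38 (.b 31 (.b 29 (.l 43) (.l 29)) (.l 31)) (.l 38)) (.l 35)) (.b 26 (.b 35 (.b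 38 (.b 31 (.b 29 (.l 43) (.l 29)) (.l 31)) (.l 38)) (.l 35)) (.b 23 (.b 38 (.b 35 (.b 31 (.b 39 (.l 43) (.l 39)) (.l 31)) (.l 35)) (.l 38)) (.l 43)))) (.b 32 (.b 26 (.b 35 (.b 38 (.b 31 (.b 29 (.l 43) (.l 29)) (.l 31)) (.l 38)) (.l 35)) (.b 23 (.b 38 (.b 35 (.b 31 (.b 39 (.l 43) (.l 39)) (.l 31)) (.l 35)) (.l 38)) (.l 43))) (.b 26 (.b 23 (.b 38 (.b 35 (.b 31 (.b 39 (.l 43) (.l 39)) (.l 31)) (.l 35)) (.l 38)) (.l 43)) (.l 43)))) (.l 44)) (.l 44)) (.l 44)) (.l 44)) (.l 44)) (.l 44)) (.l 44)) (.l 44)) (.l 44)) (.l 42)) (.l 44)) (.l 44)) (.l 44)) (.l 44)) (.l 44)) (.l 44)) (.l 44))) (.b 30 (.b 27 (.b 24 (.b 21 (.b 19 (.b 16 (.b 14 (.b 12 (.b 42 (.b 10 (.b 8 (.b 7 (.b 5 (.b 4 (.b 3 (.b 2 (.b 1 (.b 0 (.b 36 (.b 32 (.b 35 (.b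 38 (.b 31 (.b 29 (.l 43) (.l 29)) (.l 31)) (.l 38)) (.l 35)) (.b 26 (.b 35 (.b 38 (.b 31 (.b 29 (.l 43) (.l 29)) (.l 31)) (.l 38)) (.l 35)) (.b 23 (.b 38 (.b 35 (.b 31 (.b 39 (.l 43) (.l 39)) (.l 31)) (.l 35)) (.l 38)) (.l 43)))) (.b 32 (.b 26 (.b 35 (.b 38 (.b 31 (.b 29 (.l 43) (.l 29)) (.l 31)) (.l 38)) (.l 35)) (.b 23 (.b 38 (.b 35 (.b 31 (.b 39 (.l 43) (.l 39)) (.l 31)) (.l 35)) (.l 38)) (.l 43))) (.b 26 (.b 23 (.b 38 (.b 35 (.b 31 (.b 39 (.l 43) (.l 39)) (.l 31)) (.l 35)) (.l 38)) (.l 43)) (.l 43)))) (.l 44)) (.l 44)) (.l 44)) (.l 44)) (.l 44)) (.l 44)) (.l 44)) (.l 44)) (.l 44)) (.l 42)) (.l 44)) (.l 44)) (.l 44)) (.l 44)) (.l 44)) (.l 44)) (.l 44)) (.l 44)))))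

private lemma k29 : chk dm3 (PLf PL3 29) 45 28 c29 0 0 = true := by decide +kernel

private def c30 : Cert := (.m 29 (.b 38 (.b 34 (.b 31 (.b 28 (.b 25 (.b 24 (.b 22 (.b 20 (.b 19 (.b 17 (.b 16 (.b 15 (.b 14 (.b 13 (.b 12 (.b 11 (.b 10 (.b 9 (.b 8 (.b 7 (.b 6 (.b 44 (.m 28 (.b 39 (.l 43) (.l 39))) (.l 44)) (.b 5 (.b 39 (.b 42 (.b 35 (.b 29 (.b 32 (.l 45) (.l 32)) (.l 29)) (.l 35)) (.l 42)) (.l 39)) (.b 4 (.b 3 (.b 2 (.b 1 (.b 0 (.b 42 (.b 39 (.b 35 (.b 32 (.m 0 (.l 44)) (.l 32)) (.l 35)) (.l 39)) (.b 35 (.b 39 (.l 42) (.l 39)) (.l 42))) (.l 45)) (.l 45)) (.l 45)) (.l 45)) (.l 45)))) (.b 6 (.b 44 (.m 28 (.b 39 (.b 35 (.l 43) (.l 35)) (.l 39))) (.l 44)) (.b 5 (.b 39 (.b 42 (.b 35 (.b 29 (.b 32 (.l 45) (.l 32)) (.l 29)) (.l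 35)) (.l 42)) (.l 39)) (.l 45)))) (.b 7 (.b 6 (.b 44 (.m 28 (.b 42 (.b 37 (.l 43) (.l 37)) (.l 42))) (.l 44)) (.b 5 (.b 4 (.b 3 (.b 2 (.b 1 (.b 0 (.b 42 (.b 39 (.b 43 (.m 27 (.l 44)) (.l 43)) (.l 39)) (.b 35 (.b 39 (.l 42) (.l 39)) (.l 42))) (.l 45)) (.l 45)) (.l 45)) (.l 45)) (.l 45)) (.l 45))) (.b 6 (.b 44 (.m 28 (.b 42 (.b 37 (.b 35 (.l 43) (.l 35)) (.l 37)) (.l 42))) (.l 44)) (.l 45)))) (.b 8 (.b 7 (.b 6 (.b 5 (.b 39 (.b 42 (.b 35 (.b 29 (.b 32 (.l 45) (.l 32)) (.l 29)) (.l 35)) (.l 42)) (.l 39)) (.b 4 (.b 3 (.b 2 (.b 1 (.b 0 (.b 42 (.b 39 (.b 35 (.b 32 (.m 0 (.l 44)) (.l 32)) (.l 35)) (.l 39)) (.b 35 (.b 39 (.l 42) (.l 39)) (.l 42))) (.l 45)) (.l 45)) (.l 45)) (.l 45)) (.l 45))) (.b 5 (.b 39 (.b 42 (.b 35 (.b 29 (.b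 32 (.l 45) (.l 32)) (.l 29)) (.l 35)) (.l 42)) (.l 39)) (.l 45))) (.b 6 (.b 5 (.b 39 (.b 42 (.b 35 (.b 29 (.b 32 (.l 45) (.l 32)) (.l 29)) (.l 35)) (.l 42)) (.l 39)) (.l 45)) (.l 45))) (.b 7 (.b 6 (.b 5 (.b 4 (.b 3 (.b 2 (.b 1 (.b 0 (.b 42 (.b 39 (.b 43 (.m 27 (.l 44)) (.l 43)) (.l 39)) (.b 35 (.b 39 (.l 42) (.l 39)) (.l 42))) (.l 45)) (.l 45)) (.l 45)) (.l 45)) (.l 45)) (.l 45)) (.l 45)) (.l 45)))) (.b 9 (.b 8 (.b 7 (.b 6 (.b 44 (.m 28 (.b 42 (.b 35 (.l 43) (.l 35)) (.l 42))) (.l 44)) (.b 5 (.b 4 (.b 3 (.b 2 (.b 1 (.b 0 (.b 42 (.b 39 (.b 35 (.b 32 (.m 0 (.l 44)) (.l 32)) (.l 35)) (.l 39)) (.b 35 (.b 39 (.l 42) (.l 39)) (.l 42))) (.l 45)) (.l 45)) (.l 45)) (.l 45)) (.l 45)) (.l 45))) (.b 6 (.b 44 (.m 28 (.b 42 (.b 35 (.b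 37 (.l 43) (.l 37)) (.l 35)) (.l 42))) (.l 44)) (.l 45))) (.b 7 (.b 6 (.b 44 (.m 28 (.b 42 (.b 37 (.b 35 (.l 43) (.l 35)) (.l 37)) (.l 42))) (.l 44)) (.l 45)) (.l 45))) (.b 8 (.b 7 (.b 6 (.b 5 (.b 4 (.b 3 (.b 2 (.b 1 (.b 0 (.b 42 (.b 39 (.b 35 (.b 32 (.m 0 (.l 44)) (.l 32)) (.l 35)) (.l 39)) (.b 35 (.b 39 (.l 42) (.l 39)) (.l 42))) (.l 45)) (.l 45)) (.l 45)) (.l 45)) (.l 45)) (.l 45)) (.l 45)) (.l 45)) (.l 45)))) (.b 10 (.b 9 (.b 8 (.b 7 (.b 6 (.b 5 (.b 39 (.b 42 (.b 35 (.b 29 (.b 32 (.l 45) (.l 32)) (.l 29)) (.l 35)) (.l 42)) (.l 39)) (.b 4 (.b 3 (.b 2 (.b 1 (.b 0 (.b 42 (.b 39 (.b 35 (.b 32 (.m 0 (.l 44)) (.l 32)) (.l 35)) (.l 39)) (.b 35 (.b 39 (.l 42) (.l 39)) (.l 42))) (.l 45)) (.l 45)) (.l 45)) (.l 45)) (.l 45)))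 (.b 5 (.b 39 (.b 42 (.b 35 (.b 29 (.b 32 (.l 45) (.l 32)) (.l 29)) (.l 35)) (.l 42)) (.l 39)) (.l 45))) (.b 6 (.b 5 (.b 39 (.b 42 (.b 35 (.b 29 (.b 32 (.l 45) (.l 32)) (.l 29)) (.l 35)) (.l 42)) (.l 39)) (.l 45)) (.l 45))) (.b 7 (.b 6 (.b 5 (.b 4 (.b 3 (.b 2 (.b 1 (.b 0 (.b 42 (.b 39 (.b 43 (.m 27 (.l 44)) (.l 43)) (.l 39)) (.b 35 (.b 39 (.l 42) (.l 39)) (.l 42))) (.l 45)) (.l 45)) (.l 45)) (.l 45)) (.l 45)) (.l 45)) (.l 45)) (.l 45))) (.b 8 (.b 7 (.b 6 (.b 5 (.b 39 (.b 42 (.b 35 (.b 29 (.b 32 (.l 45) (.l 32)) (.l 29)) (.l 35)) (.l 42)) (.l 39)) (.l 45)) (.l 45)) (.l 45)) (.l 45))) (.b 9 (.b 8 (.b 7 (.b 6 (.b 5 (.b 4 (.b 3 (.b 2 (.b 1 (.b 0 (.b 42 (.b 39 (.b 35 (.b 32 (.m 0 (.l 44)) (.l 32)) (.l 35)) (.l 39)) (.b 35 (.b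 39 (.l 42) (.l 39)) (.l 42))) (.l 45)) (.l 45)) (.l 45)) (.l 45)) (.l 45)) (.l 45)) (.l 45)) (.l 45)) (.l 45)) (.l 45)))) (.b 11 (.b 10 (.b 9 (.b 8 (.b 7 (.b 6 (.b 44 (.m 28 (.b 5 (.b 39 (.l 43) (.l 39)) (.b 4 (.b 3 (.b 2 (.b 1 (.b 0 (.b 41 (.l 43) (.b 30 (.l 43) (.l 41))) (.l 45)) (.l 45)) (.l 45)) (.l 45)) (.l 45)))) (.l 44)) (.b 5 (.b 4 (.b 3 (.b 2 (.b 1 (.b 0 (.b 41 (.b 39 (.b 42 (.b 32 (.m 0 (.l 44)) (.l 32)) (.l 42)) (.l 39)) (.b 30 (.b 39 (.b 42 (.b 32 (.m 0 (.l 44)) (.l 32)) (.l 42)) (.l 39)) (.l 41))) (.l 45)) (.l 45)) (.l 45)) (.l 45)) (.l 45)) (.l 45))) (.b 6 (.b 44 (.m 28 (.b 5 (.b 39 (.b 37 (.l 43) (.l 37)) (.l 39)) (.l 45))) (.l 44)) (.l 45))) (.b 7 (.b 6 (.b 44 (.m 28 (.b 5 (.b 4 (.b 3 (.b 2 (.b 1 (.b 0 (.b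 41 (.l 43) (.b 30 (.l 43) (.l 41))) (.l 45)) (.l 45)) (.l 45)) (.l 45)) (.l 45)) (.l 45))) (.l 44)) (.l 45)) (.l 45))) (.b 8 (.b 7 (.b 6 (.b 5 (.b 4 (.b 3 (.b 2 (.b 1 (.b 0 (.b 41 (.b 39 (.b 42 (.b 32 (.m 0 (.l 44)) (.l 32)) (.l 42)) (.l 39)) (.b 30 (.b 39 (.b 42 (.b 32 (.m 0 (.l 44)) (.l 32)) (.l 42)) (.l 39)) (.l 41))) (.l 45)) (.l 45)) (.l 45)) (.l 45)) (.l 45)) (.l 45)) (.l 45)) (.l 45)) (.l 45))) (.b 9 (.b 8 (.b 7 (.b 6 (.b 44 (.m 28 (.b 5 (.b 4 (.b 3 (.b 2 (.b 1 (.b 0 (.b 41 (.l 43) (.b 30 (.l 43) (.l 41))) (.l 45)) (.l 45)) (.l 45)) (.l 45)) (.l 45)) (.l 45))) (.l 44)) (.l 45)) (.l 45)) (.l 45)) (.l 45))) (.b 10 (.b 9 (.b 8 (.b 7 (.b 6 (.b 5 (.b 4 (.b 3 (.b 2 (.b 1 (.b 0 (.b 44 (.m 28 (.l 43)) (.b 37 (.b 39 (.l 44)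 (.l 39)) (.b 33 (.b 39 (.l 44) (.l 39)) (.l 44)))) (.l 45)) (.l 45)) (.l 45)) (.l 45)) (.l 45)) (.l 45)) (.l 45)) (.l 45)) (.l 45)) (.l 45)) (.l 45)))) (.b 12 (.b 11 (.b 10 (.b 9 (.b 8 (.b 7 (.b 6 (.b 5 (.b 39 (.b 42 (.b 35 (.b 29 (.b 32 (.l 45) (.l 32)) (.l 29)) (.l 35)) (.l 42)) (.l 39)) (.b 4 (.b 3 (.b 2 (.b 1 (.b 0 (.b 42 (.b 39 (.b 35 (.b 37 (.m 0 (.l 44)) (.l 37)) (.l 35)) (.l 39)) (.b 35 (.b 39 (.l 42) (.l 39)) (.l 42))) (.l 45)) (.l 45)) (.l 45)) (.l 45)) (.l 45))) (.b 5 (.b 39 (.b 42 (.b 35 (.b 29 (.b 32 (.l 45) (.l 32)) (.l 29)) (.l 35)) (.l 42)) (.l 39)) (.l 45))) (.b 6 (.b 5 (.b 39 (.b 42 (.b 35 (.b 29 (.b 37 (.l 45) (.l 37)) (.l 29)) (.l 35)) (.l 42)) (.l 39)) (.l 45)) (.l 45))) (.b 7 (.b 6 (.b 5 (.b 4 (.b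 3 (.b 2 (.b 1 (.b 0 (.b 42 (.b 39 (.b 43 (.m 27 (.l 44)) (.l 43)) (.l 39)) (.b 35 (.b 39 (.l 42) (.l 39)) (.l 42))) (.l 45)) (.l 45)) (.l 45)) (.l 45)) (.l 45)) (.l 45)) (.l 45)) (.l 45))) (.b 8 (.b 7 (.b 6 (.b 5 (.b 39 (.b 42 (.b 35 (.b 29 (.b 32 (.l 45) (.l 32)) (.l 29)) (.l 35)) (.l 42)) (.l 39)) (.l 45)) (.l 45)) (.l 45)) (.l 45))) (.b 9 (.b 8 (.b 7 (.b 6 (.b 5 (.b 4 (.b 3 (.b 2 (.b 1 (.b 0 (.b 42 (.b 39 (.b 35 (.b 37 (.m 0 (.l 44)) (.l 37)) (.l 35)) (.l 39)) (.b 35 (.b 39 (.l 42) (.l 39)) (.l 42))) (.l 45)) (.l 45)) (.l 45)) (.l 45)) (.l 45)) (.l 45)) (.l 45)) (.l 45)) (.l 45)) (.l 45))) (.b 10 (.b 9 (.b 8 (.b 7 (.b 6 (.b 5 (.b 39 (.b 42 (.b 35 (.b 29 (.b 32 (.l 45) (.l 32)) (.l 29)) (.l 35)) (.l 42)) (.l 39)) (.l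 45)) (.l 45)) (.l 45)) (.l 45)) (.l 45)) (.l 45))) (.b 11 (.b 10 (.b 9 (.b 8 (.b 7 (.b 6 (.b 5 (.b 4 (.b 3 (.b 2 (.b 1 (.b 0 (.b 41 (.b 39 (.b 42 (.b 35 (.m 0 (.l 44)) (.l 35)) (.l 42)) (.l 39)) (.b 30 (.b 39 (.b 42 (.b 35 (.m 0 (.l 44)) (.l 35)) (.l 42)) (.l 39)) (.l 41))) (.l 45)) (.l 45)) (.l 45)) (.l 45)) (.l 45)) (.l 45)) (.l 45)) (.l 45)) (.l 45)) (.l 45)) (.l 45)) (.l 45)))) (.b 13 (.b 12 (.b 11 (.b 10 (.b 9 (.b 8 (.b 7 (.b 6 (.b 44 (.m 28 (.b 42 (.b 37 (.l 43) (.l 37)) (.l 42))) (.l 44)) (.b 5 (.b 4 (.b 3 (.b 2 (.b 1 (.b 0 (.b 42 (.b 39 (.b 43 (.m 27 (.l 44)) (.l 43)) (.l 39)) (.b 35 (.b 39 (.l 42) (.l 39)) (.l 42))) (.l 45)) (.l 45)) (.l 45)) (.l 45)) (.l 45)) (.l 45))) (.b 6 (.b 44 (.m 28 (.b 42 (.b 37 (.b 35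 (.l 43) (.l 35)) (.l 37)) (.l 42))) (.l 44)) (.l 45))) (.b 7 (.b 6 (.b 44 (.m 28 (.b 42 (.b 37 (.b 39 (.l 43) (.l 39)) (.l 37)) (.l 42))) (.l 44)) (.l 45)) (.l 45))) (.b 8 (.b 7 (.b 6 (.b 5 (.b 4 (.b 3 (.b 2 (.b 1 (.b 0 (.b 42 (.b 39 (.b 43 (.m 27 (.l 44)) (.l 43)) (.l 39)) (.b 35 (.b 39 (.l 42) (.l 39)) (.l 42))) (.l 45)) (.l 45)) (.l 45)) (.l 45)) (.l 45)) (.l 45)) (.l 45)) (.l 45)) (.l 45))) (.b 9 (.b 8 (.b 7 (.b 6 (.b 44 (.m 28 (.b 42 (.b 37 (.b 35 (.l 43) (.l 35)) (.l 37)) (.l 42))) (.l 44)) (.l 45)) (.l 45)) (.l 45)) (.l 45))) (.b 10 (.b 9 (.b 8 (.b 7 (.b 6 (.b 5 (.b 4 (.b 3 (.b 2 (.b 1 (.b 0 (.b 42 (.b 39 (.b 43 (.m 27 (.l 44)) (.l 43)) (.l 39)) (.b 35 (.b 39 (.l 42) (.l 39)) (.l 42))) (.l 45)) (.l 45)) (.l 45))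 (.l 45)) (.l 45)) (.l 45)) (.l 45)) (.l 45)) (.l 45)) (.l 45)) (.l 45))) (.b 11 (.b 10 (.b 9 (.b 8 (.b 7 (.b 6 (.b 44 (.m 28 (.b 5 (.b 4 (.b 3 (.b 2 (.b 1 (.b 0 (.b 41 (.l 43) (.b 30 (.l 43) (.l 41))) (.l 45)) (.l 45)) (.l 45)) (.l 45)) (.l 45)) (.l 45))) (.l 44)) (.l 45)) (.l 45)) (.l 45)) (.l 45)) (.l 45)) (.l 45))) (.b 12 (.b 11 (.b 10 (.b 9 (.b 8 (.b 7 (.b 6 (.b 5 (.b 4 (.b 3 (.b 2 (.b 1 (.b 0 (.b 42 (.b 39 (.b 43 (.m 27 (.l 44)) (.l 43)) (.l 39)) (.b 35 (.b 39 (.l 42) (.l 39)) (.l 42))) (.l 45)) (.l 45)) (.l 45)) (.l 45)) (.l 45)) (.l 45)) (.l 45)) (.l 45)) (.l 45)) (.l 45)) (.l 45)) (.l 45)) (.l 45)))) (.b 14 (.b 13 (.b 12 (.b 11 (.b 10 (.b 9 (.b 8 (.b 7 (.b 6 (.b 5 (.b 39 (.b 42 (.b 35 (.b 29 (.b 32 (.l 45) (.l 32))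 (.l 29)) (.l 35)) (.l 42)) (.l 39)) (.b 4 (.b 3 (.b 2 (.b 1 (.b 0 (.b 42 (.b 39 (.b 35 (.b 32 (.m 0 (.l 44)) (.l 32)) (.l 35)) (.l 39)) (.b 35 (.b 39 (.l 42) (.l 39)) (.l 42))) (.l 45)) (.l 45)) (.l 45)) (.l 45)) (.l 45))) (.b 5 (.b 39 (.b 42 (.b 35 (.b 29 (.b 32 (.l 45) (.l 32)) (.l 29)) (.l 35)) (.l 42)) (.l 39)) (.l 45))) (.b 6 (.b 5 (.b 39 (.b 42 (.b 35 (.b 29 (.b 32 (.l 45) (.l 32)) (.l 29)) (.l 35)) (.l 42)) (.l 39)) (.l 45)) (.l 45))) (.b 7 (.b 6 (.b 5 (.b 4 (.b 3 (.b 2 (.b 1 (.b 0 (.b 42 (.b 39 (.b 43 (.m 27 (.l 44)) (.l 43)) (.l 39)) (.b 35 (.b 39 (.l 42) (.l 39)) (.l 42))) (.l 45)) (.l 45)) (.l 45)) (.l 45)) (.l 45)) (.l 45)) (.l 45)) (.l 45))) (.b 8 (.b 7 (.b 6 (.b 5 (.b 39 (.b 42 (.b 35 (.b 29 (.b 32 (.l 45)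 (.l 32)) (.l 29)) (.l 35)) (.l 42)) (.l 39)) (.l 45)) (.l 45)) (.l 45)) (.l 45))) (.b 9 (.b 8 (.b 7 (.b 6 (.b 5 (.b 4 (.b 3 (.b 2 (.b 1 (.b 0 (.b 42 (.b 39 (.b 35 (.b 32 (.m 0 (.l 44)) (.l 32)) (.l 35)) (.l 39)) (.b 35 (.b 39 (.l 42) (.l 39)) (.l 42))) (.l 45)) (.l 45)) (.l 45)) (.l 45)) (.l 45)) (.l 45)) (.l 45)) (.l 45)) (.l 45)) (.l 45))) (.b 10 (.b 9 (.b 8 (.b 7 (.b 6 (.b 5 (.b 39 (.b 42 (.b 35 (.b 29 (.b 32 (.l 45) (.l 32)) (.l 29)) (.l 35)) (.l 42)) (.l 39)) (.l 45)) (.l 45)) (.l 45)) (.l 45)) (.l 45)) (.l 45))) (.b 11 (.b 10 (.b 9 (.b 8 (.b 7 (.b 6 (.b 5 (.b 4 (.b 3 (.b 2 (.b 1 (.b 0 (.b 44 (.m 28 (.l 43)) (.b 37 (.b 39 (.l 44) (.l 39)) (.b 33 (.b 39 (.l 44) (.l 39)) (.l 44)))) (.l 45)) (.l 45)) (.l 45)) (.l 45))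 (.l 45)) (.l 45)) (.l 45)) (.l 45)) (.l 45)) (.l 45)) (.l 45)) (.l 45))) (.b 12 (.b 11 (.b 10 (.b 9 (.b 8 (.b 7 (.b 6 (.b 5 (.b 39 (.b 42 (.b 35 (.b 29 (.b 32 (.l 45) (.l 32)) (.l 29)) (.l 35)) (.l 42)) (.l 39)) (.l 45)) (.l 45)) (.l 45)) (.l 45)) (.l 45)) (.l 45)) (.l 45)) (.l 45))) (.b 13 (.b 12 (.b 11 (.b 10 (.b 9 (.b 8 (.b 7 (.b 6 (.b 5 (.b 4 (.b 3 (.b 2 (.b 1 (.b 0 (.b 42 (.b 39 (.b 43 (.m 27 (.l 44)) (.l 43)) (.l 39)) (.b 35 (.b 39 (.l 42) (.l 39)) (.l 42))) (.l 45)) (.l 45)) (.l 45)) (.l 45)) (.l 45)) (.l 45)) (.l 45)) (.l 45)) (.l 45)) (.l 45)) (.l 45)) (.l 45)) (.l 45)) (.l 45)))) (.b 15 (.b 14 (.b 13 (.b 12 (.b 11 (.b 10 (.b 9 (.b 8 (.b 7 (.b 6 (.b 44 (.m 28 (.b 5 (.b 39 (.l 43) (.l 39)) (.b 4 (.b 3 (.b 2 (.b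 1 (.b 0 (.b 41 (.l 43) (.b 30 (.l 43) (.l 41))) (.l 45)) (.l 45)) (.l 45)) (.l 45)) (.l 45)))) (.l 44)) (.b 5 (.b 4 (.b 3 (.b 2 (.b 1 (.b 0 (.b 41 (.b 39 (.b 42 (.b 32 (.m 0 (.l 44)) (.l 32)) (.l 42)) (.l 39)) (.b 30 (.b 39 (.b 42 (.b 32 (.m 0 (.l 44)) (.l 32)) (.l 42)) (.l 39)) (.l 41))) (.l 45)) (.l 45)) (.l 45)) (.l 45)) (.l 45)) (.l 45))) (.b 6 (.b 44 (.m 28 (.b 5 (.b 39 (.b 37 (.l 43) (.l 37)) (.l 39)) (.l 45))) (.l 44)) (.l 45))) (.b 7 (.b 6 (.b 44 (.m 28 (.b 5 (.b 4 (.b 3 (.b 2 (.b 1 (.b 0 (.b 41 (.l 43) (.b 30 (.l 43) (.l 41))) (.l 45)) (.l 45)) (.l 45)) (.l 45)) (.l 45)) (.l 45))) (.l 44)) (.l 45)) (.l 45))) (.b 8 (.b 7 (.b 6 (.b 5 (.b 4 (.b 3 (.b 2 (.b 1 (.b 0 (.b 41 (.b 39 (.b 42 (.b 32 (.m 0 (.l 44)) (.l 32))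 (.l 42)) (.l 39)) (.b 30 (.b 39 (.b 42 (.b 32 (.m 0 (.l 44)) (.l 32)) (.l 42)) (.l 39)) (.l 41))) (.l 45)) (.l 45)) (.l 45)) (.l 45)) (.l 45)) (.l 45)) (.l 45)) (.l 45)) (.l 45))) (.b 9 (.b 8 (.b 7 (.b 6 (.b 44 (.m 28 (.b 5 (.b 4 (.b 3 (.b 2 (.b 1 (.b 0 (.b 41 (.l 43) (.b 30 (.l 43) (.l 41))) (.l 45)) (.l 45)) (.l 45)) (.l 45)) (.l 45)) (.l 45))) (.l 44)) (.l 45)) (.l 45)) (.l 45)) (.l 45))) (.b 10 (.b 9 (.b 8 (.b 7 (.b 6 (.b 5 (.b 4 (.b 3 (.b 2 (.b 1 (.b 0 (.b 44 (.m 28 (.l 43)) (.b 37 (.b 39 (.l 44) (.l 39)) (.b 33 (.b 39 (.l 44) (.l 39)) (.l 44)))) (.l 45)) (.l 45)) (.l 45)) (.l 45)) (.l 45)) (.l 45)) (.l 45)) (.l 45)) (.l 45)) (.l 45)) (.l 45))) (.b 11 (.b 10 (.b 9 (.b 8 (.b 7 (.b 6 (.b 44 (.m 28 (.b 5 (.b 4 (.b 3 (.b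 2 (.b 1 (.b 0 (.b 41 (.l 43) (.b 30 (.l 43) (.l 41))) (.l 45)) (.l 45)) (.l 45)) (.l 45)) (.l 45)) (.l 45))) (.l 44)) (.l 45)) (.l 45)) (.l 45)) (.l 45)) (.l 45)) (.l 45))) (.b 12 (.b 11 (.b 10 (.b 9 (.b 8 (.b 7 (.b 6 (.b 5 (.b 4 (.b 3 (.b 2 (.b 1 (.b 0 (.b 41 (.b 39 (.b 42 (.b 35 (.m 0 (.l 44)) (.l 35)) (.l 42)) (.l 39)) (.b 30 (.b 39 (.b 42 (.b 35 (.m 0 (.l 44)) (.l 35)) (.l 42)) (.l 39)) (.l 41))) (.l 45)) (.l 45)) (.l 45)) (.l 45)) (.l 45)) (.l 45)) (.l 45)) (.l 45)) (.l 45)) (.l 45)) (.l 45)) (.l 45)) (.l 45))) (.b 13 (.b 12 (.b 11 (.b 10 (.b 9 (.b 8 (.b 7 (.b 6 (.b 44 (.m 28 (.b 5 (.b 4 (.b 3 (.b 2 (.b 1 (.b 0 (.b 41 (.l 43) (.b 30 (.l 43) (.l 41))) (.l 45)) (.l 45)) (.l 45)) (.l 45)) (.l 45)) (.l 45))) (.l 44)) (.l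 45)) (.l 45)) (.l 45)) (.l 45)) (.l 45)) (.l 45)) (.l 45)) (.l 45))) (.b 14 (.b 13 (.b 12 (.b 11 (.b 10 (.b 9 (.b 8 (.b 7 (.b 6 (.b 5 (.b 4 (.b 3 (.b 2 (.b 1 (.b 0 (.b 44 (.m 28 (.l 43)) (.b 37 (.b 39 (.l 44) (.l 39)) (.b 33 (.b 39 (.l 44) (.l 39)) (.l 44)))) (.l 45)) (.l 45)) (.l 45)) (.l 45)) (.l 45)) (.l 45)) (.l 45)) (.l 45)) (.l 45)) (.l 45)) (.l 45)) (.l 45)) (.l 45)) (.l 45)) (.l 45)))) (.b 16 (.b 15 (.b 14 (.b 13 (.b 12 (.b 11 (.b 10 (.b 9 (.b 8 (.b 7 (.b 6 (.b 5 (.b 4 (.b 3 (.b 2 (.b 1 (.b 42 (.b 39 (.b 35 (.b 32 (.m 0 (.l 44)) (.l 32)) (.l 35)) (.l 39)) (.b 35 (.b 39 (.l 42) (.l 39)) (.b 29 (.b 43 (.m 28 (.l 44)) (.l 43)) (.l 42)))) (.b 0 (.b 42 (.b 39 (.b 35 (.b 32 (.m 0 (.l 44)) (.l 32)) (.l 35)) (.l 39)) (.b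 35 (.b 39 (.l 42) (.l 39)) (.l 42))) (.l 45))) (.b 1 (.b 0 (.b 42 (.b 39 (.b 35 (.b 32 (.m 0 (.l 44)) (.l 32)) (.l 35)) (.l 39)) (.b 35 (.b 39 (.l 42) (.l 39)) (.l 42))) (.l 45)) (.l 45))) (.b 2 (.b 1 (.b 0 (.b 42 (.b 39 (.b 35 (.b 37 (.m 0 (.l 44)) (.l 37)) (.l 35)) (.l 39)) (.b 35 (.b 39 (.l 42) (.l 39)) (.l 42))) (.l 45)) (.l 45)) (.l 45))) (.b 3 (.b 2 (.b 1 (.b 0 (.b 42 (.b 39 (.b 35 (.b 32 (.m 0 (.l 44)) (.l 32)) (.l 35)) (.l 39)) (.b 35 (.b 39 (.l 42) (.l 39)) (.l 42))) (.l 45)) (.l 45)) (.l 45)) (.l 45))) (.b 4 (.b 3 (.b 2 (.b 1 (.b 0 (.b 42 (.b 44 (.m 27 (.l 43)) (.l 44)) (.b 35 (.b 44 (.m 28 (.l 43)) (.l 44)) (.l 42))) (.l 45)) (.l 45)) (.l 45)) (.l 45)) (.l 45))) (.b 5 (.b 4 (.b 3 (.b 2 (.b 1 (.b 0 (.b 42 (.b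 39 (.b 35 (.b 32 (.m 0 (.l 44)) (.l 32)) (.l 35)) (.l 39)) (.b 35 (.b 39 (.l 42) (.l 39)) (.l 42))) (.l 45)) (.l 45)) (.l 45)) (.l 45)) (.l 45)) (.l 45))) (.b 6 (.b 5 (.b 4 (.b 3 (.b 2 (.b 1 (.b 0 (.b 42 (.b 39 (.b 35 (.b 37 (.m 0 (.l 44)) (.l 37)) (.l 35)) (.l 39)) (.b 35 (.b 39 (.l 42) (.l 39)) (.l 42))) (.l 45)) (.l 45)) (.l 45)) (.l 45)) (.l 45)) (.l 45)) (.l 45))) (.b 7 (.b 6 (.b 5 (.b 4 (.b 3 (.b 2 (.b 1 (.b 0 (.b 42 (.b 44 (.m 27 (.l 43)) (.l 44)) (.b 35 (.b 44 (.m 28 (.l 43)) (.l 44)) (.l 42))) (.l 45)) (.l 45)) (.l 45)) (.l 45)) (.l 45)) (.l 45)) (.l 45)) (.l 45))) (.b 8 (.b 7 (.b 6 (.b 5 (.b 4 (.b 3 (.b 2 (.b 1 (.b 0 (.b 42 (.b 39 (.b 35 (.b 32 (.m 0 (.l 44)) (.l 32)) (.l 35)) (.l 39)) (.b 35 (.b 39 (.l 42) (.l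 39)) (.l 42))) (.l 45)) (.l 45)) (.l 45)) (.l 45)) (.l 45)) (.l 45)) (.l 45)) (.l 45)) (.l 45))) (.b 9 (.b 8 (.b 7 (.b 6 (.b 5 (.b 4 (.b 3 (.b 2 (.b 1 (.b 0 (.b 42 (.b 44 (.m 27 (.l 43)) (.l 44)) (.b 35 (.b 44 (.m 28 (.l 43)) (.l 44)) (.l 42))) (.l 45)) (.l 45)) (.l 45)) (.l 45)) (.l 45)) (.l 45)) (.l 45)) (.l 45)) (.l 45)) (.l 45))) (.b 10 (.b 9 (.b 8 (.b 7 (.b 6 (.b 5 (.b 4 (.b 3 (.b 2 (.b 1 (.b 0 (.b 42 (.b 39 (.b 35 (.b 32 (.m 0 (.l 44)) (.l 32)) (.l 35)) (.l 39)) (.b 35 (.b 39 (.l 42) (.l 39)) (.l 42))) (.l 45)) (.l 45)) (.l 45)) (.l 45)) (.l 45)) (.l 45)) (.l 45)) (.l 45)) (.l 45)) (.l 45)) (.l 45))) (.b 11 (.b 10 (.b 9 (.b 8 (.b 7 (.b 6 (.b 5 (.b 4 (.b 3 (.b 2 (.b 1 (.b 0 (.b 41 (.b 44 (.m 28 (.l 43)) (.l 44)) (.b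 30 (.b 21 (.b 39 (.b 35 (.m 0 (.l 44)) (.l 35)) (.l 39)) (.l 41)) (.l 41))) (.l 45)) (.l 45)) (.l 45)) (.l 45)) (.l 45)) (.l 45)) (.l 45)) (.l 45)) (.l 45)) (.l 45)) (.l 45)) (.l 45))) (.b 12 (.b 11 (.b 10 (.b 9 (.b 8 (.b 7 (.b 6 (.b 5 (.b 4 (.b 3 (.b 2 (.b 1 (.b 0 (.b 42 (.b 39 (.b 35 (.b 41 (.m 0 (.l 44)) (.l 41)) (.l 35)) (.l 39)) (.b 35 (.b 39 (.l 42) (.l 39)) (.l 42))) (.l 45)) (.l 45)) (.l 45)) (.l 45)) (.l 45)) (.l 45)) (.l 45)) (.l 45)) (.l 45)) (.l 45)) (.l 45)) (.l 45)) (.l 45))) (.b 13 (.b 12 (.b 11 (.b 10 (.b 9 (.b 8 (.b 7 (.b 6 (.b 5 (.b 4 (.b 3 (.b 2 (.b 1 (.b 0 (.b 42 (.b 44 (.m 27 (.l 43)) (.l 44)) (.b 35 (.b 44 (.m 28 (.l 43)) (.l 44)) (.l 42))) (.l 45)) (.l 45)) (.l 45)) (.l 45)) (.l 45)) (.l 45)) (.l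 45)) (.l 45)) (.l 45)) (.l 45)) (.l 45)) (.l 45)) (.l 45)) (.l 45))) (.b 14 (.b 13 (.b 12 (.b 11 (.b 10 (.b 9 (.b 8 (.b 7 (.b 6 (.b 5 (.b 4 (.b 3 (.b 2 (.b 1 (.b 0 (.b 42 (.b 39 (.b 35 (.b 32 (.m 0 (.l 44)) (.l 32)) (.l 35)) (.l 39)) (.b 35 (.b 39 (.l 42) (.l 39)) (.l 42))) (.l 45)) (.l 45)) (.l 45)) (.l 45)) (.l 45)) (.l 45)) (.l 45)) (.l 45)) (.l 45)) (.l 45)) (.l 45)) (.l 45)) (.l 45)) (.l 45)) (.l 45))) (.b 15 (.b 14 (.b 13 (.b 12 (.b 11 (.b 10 (.b 9 (.b 8 (.b 7 (.b 6 (.b 5 (.b 4 (.b 3 (.b 2 (.b 1 (.b 0 (.b 41 (.b 44 (.m 28 (.l 43)) (.l 44)) (.b 30 (.b 21 (.b 39 (.b 35 (.m 0 (.l 44)) (.l 35)) (.l 39)) (.l 41)) (.l 41))) (.l 45)) (.l 45)) (.l 45)) (.l 45)) (.l 45)) (.l 45)) (.l 45)) (.l 45)) (.l 45)) (.l 45)) (.l 45))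 (.l 45)) (.l 45)) (.l 45)) (.l 45)) (.l 45)))) (.b 17 (.b 16 (.b 15 (.b 14 (.b 13 (.b 12 (.b 11 (.b 10 (.b 9 (.b 8 (.b 7 (.b 6 (.b 44 (.m 28 (.b 5 (.b 39 (.l 43) (.l 39)) (.b 4 (.b 3 (.b 2 (.b 1 (.b 0 (.b 41 (.l 43) (.b 30 (.l 43) (.l 41))) (.l 45)) (.l 45)) (.l 45)) (.l 45)) (.l 45)))) (.l 44)) (.b 5 (.b 4 (.b 3 (.b 2 (.b 1 (.b 0 (.b 41 (.b 39 (.b 42 (.b 32 (.m 0 (.l 44)) (.l 32)) (.l 42)) (.l 39)) (.b 30 (.b 39 (.b 42 (.b 32 (.m 0 (.l 44)) (.l 32)) (.l 42)) (.l 39)) (.l 41))) (.l 45)) (.l 45)) (.l 45)) (.l 45)) (.l 45)) (.l 45))) (.b 6 (.b 44 (.m 28 (.b 5 (.b 39 (.b 37 (.l 43) (.l 37)) (.l 39)) (.l 45))) (.l 44)) (.l 45))) (.b 7 (.b 6 (.b 44 (.m 28 (.b 5 (.b 4 (.b 3 (.b 2 (.b 1 (.b 0 (.b 41 (.l 43) (.b 30 (.l 43) (.l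 41))) (.l 45)) (.l 45)) (.l 45)) (.l 45)) (.l 45)) (.l 45))) (.l 44)) (.l 45)) (.l 45))) (.b 8 (.b 7 (.b 6 (.b 5 (.b 4 (.b 3 (.b 2 (.b 1 (.b 0 (.b 41 (.b 39 (.b 42 (.b 32 (.m 0 (.l 44)) (.l 32)) (.l 42)) (.l 39)) (.b 30 (.b 39 (.b 42 (.b 32 (.m 0 (.l 44)) (.l 32)) (.l 42)) (.l 39)) (.l 41))) (.l 45)) (.l 45)) (.l 45)) (.l 45)) (.l 45)) (.l 45)) (.l 45)) (.l 45)) (.l 45))) (.b 9 (.b 8 (.b 7 (.b 6 (.b 44 (.m 28 (.b 5 (.b 4 (.b 3 (.b 2 (.b 1 (.b 0 (.b 41 (.l 43) (.b 30 (.l 43) (.l 41))) (.l 45)) (.l 45)) (.l 45)) (.l 45)) (.l 45)) (.l 45))) (.l 44)) (.l 45)) (.l 45)) (.l 45)) (.l 45))) (.b 10 (.b 9 (.b 8 (.b 7 (.b 6 (.b 5 (.b 4 (.b 3 (.b 2 (.b 1 (.b 0 (.b 44 (.m 28 (.l 43)) (.b 37 (.b 39 (.l 44) (.l 39)) (.b 33 (.b 39 (.l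 44) (.l 39)) (.l 44)))) (.l 45)) (.l 45)) (.l 45)) (.l 45)) (.l 45)) (.l 45)) (.l 45)) (.l 45)) (.l 45)) (.l 45)) (.l 45))) (.b 11 (.b 10 (.b 9 (.b 8 (.b 7 (.b 6 (.b 44 (.m 28 (.b 5 (.b 4 (.b 3 (.b 2 (.b 1 (.b 0 (.b 41 (.l 43) (.b 30 (.l 43) (.l 41))) (.l 45)) (.l 45)) (.l 45)) (.l 45)) (.l 45)) (.l 45))) (.l 44)) (.l 45)) (.l 45)) (.l 45)) (.l 45)) (.l 45)) (.l 45))) (.b 12 (.b 11 (.b 10 (.b 9 (.b 8 (.b 7 (.b 6 (.b 5 (.b 4 (.b 3 (.b 2 (.b 1 (.b 0 (.b 41 (.b 39 (.b 42 (.b 35 (.m 0 (.l 44)) (.l 35)) (.l 42)) (.l 39)) (.b 30 (.b 39 (.b 42 (.b 35 (.m 0 (.l 44)) (.l 35)) (.l 42)) (.l 39)) (.l 41))) (.l 45)) (.l 45)) (.l 45)) (.l 45)) (.l 45)) (.l 45)) (.l 45)) (.l 45)) (.l 45)) (.l 45)) (.l 45)) (.l 45)) (.l 45))) (.b 13 (.b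 12 (.b 11 (.b 10 (.b 9 (.b 8 (.b 7 (.b 6 (.b 44 (.m 28 (.b 5 (.b 4 (.b 3 (.b 2 (.b 1 (.b 0 (.b 41 (.l 43) (.b 30 (.l 43) (.l 41))) (.l 45)) (.l 45)) (.l 45)) (.l 45)) (.l 45)) (.l 45))) (.l 44)) (.l 45)) (.l 45)) (.l 45)) (.l 45)) (.l 45)) (.l 45)) (.l 45)) (.l 45))) (.b 14 (.b 13 (.b 12 (.b 11 (.b 10 (.b 9 (.b 8 (.b 7 (.b 6 (.b 5 (.b 4 (.b 3 (.b 2 (.b 1 (.b 0 (.b 44 (.m 28 (.l 43)) (.b 37 (.b 39 (.l 44) (.l 39)) (.b 33 (.b 39 (.l 44) (.l 39)) (.l 44)))) (.l 45)) (.l 45)) (.l 45)) (.l 45)) (.l 45)) (.l 45)) (.l 45)) (.l 45)) (.l 45)) (.l 45)) (.l 45)) (.l 45)) (.l 45)) (.l 45)) (.l 45))) (.b 15 (.b 14 (.b 13 (.b 12 (.b 11 (.b 10 (.b 9 (.b 8 (.b 7 (.b 6 (.b 44 (.m 28 (.b 5 (.b 4 (.b 3 (.b 2 (.b 1 (.b 0 (.b 41 (.l 43) (.b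 30 (.l 43) (.l 41))) (.l 45)) (.l 45)) (.l 45)) (.l 45)) (.l 45)) (.l 45))) (.l 44)) (.l 45)) (.l 45)) (.l 45)) (.l 45)) (.l 45)) (.l 45)) (.l 45)) (.l 45)) (.l 45)) (.l 45))) (.b 16 (.b 15 (.b 14 (.b 13 (.b 12 (.b 11 (.b 10 (.b 9 (.b 8 (.b 7 (.b 6 (.b 5 (.b 4 (.b 3 (.b 2 (.b 1 (.b 0 (.b 41 (.b 44 (.m 28 (.l 43)) (.l 44)) (.b 30 (.b 21 (.b 39 (.b 35 (.m 0 (.l 44)) (.l 35)) (.l 39)) (.l 41)) (.l 41))) (.l 45)) (.l 45)) (.l 45)) (.l 45)) (.l 45)) (.l 45)) (.l 45)) (.l 45)) (.l 45)) (.l 45)) (.l 45)) (.l 45)) (.l 45)) (.l 45)) (.l 45)) (.l 45)) (.l 45)))) (.b 19 (.b 17 (.b 16 (.b 15 (.b 14 (.b 13 (.b 12 (.b 11 (.b 10 (.b 9 (.b 8 (.b 7 (.b 6 (.b 5 (.b 39 (.b 42 (.b 35 (.b 29 (.b 32 (.l 45) (.l 32)) (.l 29)) (.l 35)) (.l 42))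 (.l 39)) (.b 4 (.b 3 (.b 2 (.b 1 (.b 0 (.b 42 (.b 39 (.b 35 (.b 37 (.m 0 (.l 44)) (.l 37)) (.l 35)) (.l 39)) (.b 35 (.b 39 (.l 42) (.l 39)) (.l 42))) (.l 45)) (.l 45)) (.l 45)) (.l 45)) (.l 45))) (.b 5 (.b 39 (.b 42 (.b 35 (.b 29 (.b 32 (.l 45) (.l 32)) (.l 29)) (.l 35)) (.l 42)) (.l 39)) (.l 45))) (.b 6 (.b 5 (.b 39 (.b 42 (.b 35 (.b 29 (.b 37 (.l 45) (.l 37)) (.l 29)) (.l 35)) (.l 42)) (.l 39)) (.l 45)) (.l 45))) (.b 7 (.b 6 (.b 5 (.b 4 (.b 3 (.b 2 (.b 1 (.b 0 (.b 42 (.b 39 (.b 43 (.m 27 (.l 44)) (.l 43)) (.l 39)) (.b 35 (.b 39 (.l 42) (.l 39)) (.l 42))) (.l 45)) (.l 45)) (.l 45)) (.l 45)) (.l 45)) (.l 45)) (.l 45)) (.l 45))) (.b 8 (.b 7 (.b 6 (.b 5 (.b 39 (.b 42 (.b 35 (.b 29 (.b 32 (.l 45) (.l 32)) (.l 29)) (.l 35))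 (.l 42)) (.l 39)) (.l 45)) (.l 45)) (.l 45)) (.l 45))) (.b 9 (.b 8 (.b 7 (.b 6 (.b 5 (.b 4 (.b 3 (.b 2 (.b 1 (.b 0 (.b 42 (.b 39 (.b 35 (.b 37 (.m 0 (.l 44)) (.l 37)) (.l 35)) (.l 39)) (.b 35 (.b 39 (.l 42) (.l 39)) (.l 42))) (.l 45)) (.l 45)) (.l 45)) (.l 45)) (.l 45)) (.l 45)) (.l 45)) (.l 45)) (.l 45)) (.l 45))) (.b 10 (.b 9 (.b 8 (.b 7 (.b 6 (.b 5 (.b 39 (.b 42 (.b 35 (.b 29 (.b 32 (.l 45) (.l 32)) (.l 29)) (.l 35)) (.l 42)) (.l 39)) (.l 45)) (.l 45)) (.l 45)) (.l 45)) (.l 45)) (.l 45))) (.b 11 (.b 10 (.b 9 (.b 8 (.b 7 (.b 6 (.b 5 (.b 4 (.b 3 (.b 2 (.b 1 (.b 0 (.b 44 (.m 28 (.b 39 (.l 43) (.l 39))) (.b 37 (.b 39 (.l 44) (.l 39)) (.b 33 (.b 39 (.l 44) (.l 39)) (.l 44)))) (.l 45)) (.l 45)) (.l 45)) (.l 45)) (.l 45)) (.l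 45)) (.l 45)) (.l 45)) (.l 45)) (.l 45)) (.l 45)) (.l 45))) (.b 12 (.b 11 (.b 10 (.b 9 (.b 8 (.b 7 (.b 6 (.b 5 (.b 39 (.b 42 (.b 35 (.b 29 (.b 37 (.l 45) (.l 37)) (.l 29)) (.l 35)) (.l 42)) (.l 39)) (.l 45)) (.l 45)) (.l 45)) (.l 45)) (.l 45)) (.l 45)) (.l 45)) (.l 45))) (.b 13 (.b 12 (.b 11 (.b 10 (.b 9 (.b 8 (.b 7 (.b 6 (.b 5 (.b 4 (.b 3 (.b 2 (.b 1 (.b 0 (.b 42 (.b 39 (.b 43 (.m 27 (.l 44)) (.l 43)) (.l 39)) (.b 35 (.b 39 (.l 42) (.l 39)) (.l 42))) (.l 45)) (.l 45)) (.l 45)) (.l 45)) (.l 45)) (.l 45)) (.l 45)) (.l 45)) (.l 45)) (.l 45)) (.l 45)) (.l 45)) (.l 45)) (.l 45))) (.b 14 (.b 13 (.b 12 (.b 11 (.b 10 (.b 9 (.b 8 (.b 7 (.b 6 (.b 5 (.b 39 (.b 42 (.b 35 (.b 29 (.b 32 (.l 45) (.l 32)) (.l 29)) (.l 35)) (.l 42)) (.l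 39)) (.l 45)) (.l 45)) (.l 45)) (.l 45)) (.l 45)) (.l 45)) (.l 45)) (.l 45)) (.l 45)) (.l 45))) (.b 15 (.b 14 (.b 13 (.b 12 (.b 11 (.b 10 (.b 9 (.b 8 (.b 7 (.b 6 (.b 5 (.b 4 (.b 3 (.b 2 (.b 1 (.b 0 (.b 44 (.m 28 (.b 39 (.l 43) (.l 39))) (.b 37 (.b 39 (.l 44) (.l 39)) (.b 33 (.b 39 (.l 44) (.l 39)) (.l 44)))) (.l 45)) (.l 45)) (.l 45)) (.l 45)) (.l 45)) (.l 45)) (.l 45)) (.l 45)) (.l 45)) (.l 45)) (.l 45)) (.l 45)) (.l 45)) (.l 45)) (.l 45)) (.l 45))) (.b 16 (.b 15 (.b 14 (.b 13 (.b 12 (.b 11 (.b 10 (.b 9 (.b 8 (.b 7 (.b 6 (.b 5 (.b 4 (.b 3 (.b 2 (.b 1 (.b 0 (.b 42 (.b 39 (.b 35 (.b 43 (.m 0 (.l 44)) (.l 43)) (.l 35)) (.l 39)) (.b 35 (.b 39 (.l 42) (.l 39)) (.l 42))) (.l 45)) (.l 45)) (.l 45)) (.l 45)) (.l 45)) (.l 45))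 (.l 45)) (.l 45)) (.l 45)) (.l 45)) (.l 45)) (.l 45)) (.l 45)) (.l 45)) (.l 45)) (.l 45)) (.l 45))) (.b 17 (.b 16 (.b 15 (.b 14 (.b 13 (.b 12 (.b 11 (.b 10 (.b 9 (.b 8 (.b 7 (.b 6 (.b 5 (.b 4 (.b 3 (.b 2 (.b 1 (.b 0 (.b 44 (.m 28 (.b 39 (.l 43) (.l 39))) (.b 37 (.b 39 (.l 44) (.l 39)) (.b 33 (.b 39 (.l 44) (.l 39)) (.l 44)))) (.l 45)) (.l 45)) (.l 45)) (.l 45)) (.l 45)) (.l 45)) (.l 45)) (.l 45)) (.l 45)) (.l 45)) (.l 45)) (.l 45)) (.l 45)) (.l 45)) (.l 45)) (.l 45)) (.l 45)) (.l 45)))) (.b 20 (.b 19 (.b 17 (.b 16 (.b 15 (.b 14 (.b 13 (.b 12 (.b 11 (.b 10 (.b 9 (.b 8 (.b 7 (.b 6 (.b 5 (.b 4 (.b 3 (.b 2 (.b 1 (.b 42 (.b 39 (.b 43 (.m 27 (.l 44)) (.l 43)) (.l 39)) (.b 35 (.b 39 (.l 42) (.l 39)) (.b 29 (.b 43 (.m 28 (.l 44))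 (.l 43)) (.l 42)))) (.b 0 (.b 42 (.b 39 (.b 43 (.m 27 (.l 44)) (.l 43)) (.l 39)) (.b 35 (.b 39 (.l 42) (.l 39)) (.l 42))) (.l 45))) (.b 1 (.b 0 (.b 42 (.b 39 (.b 43 (.m 27 (.l 44)) (.l 43)) (.l 39)) (.b 35 (.b 39 (.l 42) (.l 39)) (.l 42))) (.l 45)) (.l 45))) (.b 2 (.b 1 (.b 0 (.b 42 (.b 39 (.b 43 (.m 27 (.l 44)) (.l 43)) (.l 39)) (.b 35 (.b 39 (.l 42) (.l 39)) (.l 42))) (.l 45)) (.l 45)) (.l 45))) (.b 3 (.b 2 (.b 1 (.b 0 (.b 42 (.b 39 (.b 43 (.m 27 (.l 44)) (.l 43)) (.l 39)) (.b 35 (.b 39 (.l 42) (.l 39)) (.l 42))) (.l 45)) (.l 45)) (.l 45)) (.l 45))) (.b 4 (.b 3 (.b 2 (.b 1 (.b 0 (.b 42 (.b 44 (.m 27 (.l 43)) (.l 44)) (.b 35 (.b 44 (.m 28 (.l 43)) (.l 44)) (.l 42))) (.l 45)) (.l 45)) (.l 45)) (.l 45)) (.l 45))) (.b 5 (.b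 4 (.b 3 (.b 2 (.b 1 (.b 0 (.b 42 (.b 39 (.b 43 (.m 27 (.l 44)) (.l 43)) (.l 39)) (.b 35 (.b 39 (.l 42) (.l 39)) (.l 42))) (.l 45)) (.l 45)) (.l 45)) (.l 45)) (.l 45)) (.l 45))) (.b 6 (.b 5 (.b 4 (.b 3 (.b 2 (.b 1 (.b 0 (.b 42 (.b 39 (.b 43 (.m 27 (.l 44)) (.l 43)) (.l 39)) (.b 35 (.b 39 (.l 42) (.l 39)) (.l 42))) (.l 45)) (.l 45)) (.l 45)) (.l 45)) (.l 45)) (.l 45)) (.l 45))) (.b 7 (.b 6 (.b 5 (.b 4 (.b 3 (.b 2 (.b 1 (.b 0 (.b 42 (.b 44 (.m 27 (.l 43)) (.l 44)) (.b 35 (.b 44 (.m 28 (.l 43)) (.l 44)) (.l 42))) (.l 45)) (.l 45)) (.l 45)) (.l 45)) (.l 45)) (.l 45)) (.l 45)) (.l 45))) (.b 8 (.b 7 (.b 6 (.b 5 (.b 4 (.b 3 (.b 2 (.b 1 (.b 0 (.b 42 (.b 39 (.b 43 (.m 27 (.l 44)) (.l 43)) (.l 39)) (.b 35 (.b 39 (.l 42) (.l 39)) (.l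 42))) (.l 45)) (.l 45)) (.l 45)) (.l 45)) (.l 45)) (.l 45)) (.l 45)) (.l 45)) (.l 45))) (.b 9 (.b 8 (.b 7 (.b 6 (.b 5 (.b 4 (.b 3 (.b 2 (.b 1 (.b 0 (.b 42 (.b 44 (.m 27 (.l 43)) (.l 44)) (.b 35 (.b 44 (.m 28 (.l 43)) (.l 44)) (.l 42))) (.l 45)) (.l 45)) (.l 45)) (.l 45)) (.l 45)) (.l 45)) (.l 45)) (.l 45)) (.l 45)) (.l 45))) (.b 10 (.b 9 (.b 8 (.b 7 (.b 6 (.b 5 (.b 4 (.b 3 (.b 2 (.b 1 (.b 0 (.b 42 (.b 39 (.b 43 (.m 27 (.l 44)) (.l 43)) (.l 39)) (.b 35 (.b 39 (.l 42) (.l 39)) (.l 42))) (.l 45)) (.l 45)) (.l 45)) (.l 45)) (.l 45)) (.l 45)) (.l 45)) (.l 45)) (.l 45)) (.l 45)) (.l 45))) (.b 11 (.b 10 (.b 9 (.b 8 (.b 7 (.b 6 (.b 5 (.b 4 (.b 3 (.b 2 (.b 1 (.b 0 (.b 41 (.b 44 (.m 28 (.l 43)) (.l 44)) (.b 30 (.b 21 (.b 39 (.b 42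 (.m 0 (.l 44)) (.l 42)) (.l 39)) (.l 41)) (.l 41))) (.l 45)) (.l 45)) (.l 45)) (.l 45)) (.l 45)) (.l 45)) (.l 45)) (.l 45)) (.l 45)) (.l 45)) (.l 45)) (.l 45))) (.b 12 (.b 11 (.b 10 (.b 9 (.b 8 (.b 7 (.b 6 (.b 5 (.b 4 (.b 3 (.b 2 (.b 1 (.b 0 (.b 42 (.b 39 (.b 43 (.m 27 (.l 44)) (.l 43)) (.l 39)) (.b 35 (.b 39 (.l 42) (.l 39)) (.l 42))) (.l 45)) (.l 45)) (.l 45)) (.l 45)) (.l 45)) (.l 45)) (.l 45)) (.l 45)) (.l 45)) (.l 45)) (.l 45)) (.l 45)) (.l 45))) (.b 13 (.b 12 (.b 11 (.b 10 (.b 9 (.b 8 (.b 7 (.b 6 (.b 5 (.b 4 (.b 3 (.b 2 (.b 1 (.b 0 (.b 42 (.b 44 (.m 27 (.l 43)) (.l 44)) (.b 35 (.b 44 (.m 28 (.l 43)) (.l 44)) (.l 42))) (.l 45)) (.l 45)) (.l 45)) (.l 45)) (.l 45)) (.l 45)) (.l 45)) (.l 45)) (.l 45)) (.l 45)) (.l 45))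 (.l 45)) (.l 45)) (.l 45))) (.b 14 (.b 13 (.b 12 (.b 11 (.b 10 (.b 9 (.b 8 (.b 7 (.b 6 (.b 5 (.b 4 (.b 3 (.b 2 (.b 1 (.b 0 (.b 42 (.b 39 (.b 43 (.m 27 (.l 44)) (.l 43)) (.l 39)) (.b 35 (.b 39 (.l 42) (.l 39)) (.l 42))) (.l 45)) (.l 45)) (.l 45)) (.l 45)) (.l 45)) (.l 45)) (.l 45)) (.l 45)) (.l 45)) (.l 45)) (.l 45)) (.l 45)) (.l 45)) (.l 45)) (.l 45))) (.b 15 (.b 14 (.b 13 (.b 12 (.b 11 (.b 10 (.b 9 (.b 8 (.b 7 (.b 6 (.b 5 (.b 4 (.b 3 (.b 2 (.b 1 (.b 0 (.b 41 (.b 44 (.m 28 (.l 43)) (.l 44)) (.b 30 (.b 21 (.b 39 (.b 42 (.m 0 (.l 44)) (.l 42)) (.l 39)) (.l 41)) (.l 41))) (.l 45)) (.l 45)) (.l 45)) (.l 45)) (.l 45)) (.l 45)) (.l 45)) (.l 45)) (.l 45)) (.l 45)) (.l 45)) (.l 45)) (.l 45)) (.l 45)) (.l 45)) (.l 45))) (.b 16 (.b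 15 (.b 14 (.b 13 (.b 12 (.b 11 (.b 10 (.b 9 (.b 8 (.b 7 (.b 6 (.b 5 (.b 4 (.b 3 (.b 2 (.b 1 (.b 0 (.b 42 (.b 41 (.b 39 (.b 35 (.m 0 (.l 44)) (.l 35)) (.l 39)) (.b 30 (.b 39 (.b 35 (.m 0 (.l 44)) (.l 35)) (.l 39)) (.l 41))) (.b 35 (.b 29 (.b 43 (.m 28 (.l 44)) (.l 43)) (.l 42)) (.l 42))) (.l 45)) (.l 45)) (.l 45)) (.l 45)) (.l 45)) (.l 45)) (.l 45)) (.l 45)) (.l 45)) (.l 45)) (.l 45)) (.l 45)) (.l 45)) (.l 45)) (.l 45)) (.l 45)) (.l 45))) (.b 17 (.b 16 (.b 15 (.b 14 (.b 13 (.b 12 (.b 11 (.b 10 (.b 9 (.b 8 (.b 7 (.b 6 (.b 5 (.b 4 (.b 3 (.b 2 (.b 1 (.b 0 (.b 41 (.b 44 (.m 28 (.l 43)) (.l 44)) (.b 30 (.b 21 (.b 39 (.b 42 (.m 0 (.l 44)) (.l 42)) (.l 39)) (.l 41)) (.l 41))) (.l 45)) (.l 45)) (.l 45)) (.l 45)) (.l 45)) (.l 45))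 (.l 45)) (.l 45)) (.l 45)) (.l 45)) (.l 45)) (.l 45)) (.l 45)) (.l 45)) (.l 45)) (.l 45)) (.l 45)) (.l 45))) (.b 19 (.b 17 (.b 16 (.b 15 (.b 14 (.b 13 (.b 12 (.b 11 (.b 10 (.b 9 (.b 8 (.b 7 (.b 6 (.b 5 (.b 4 (.b 3 (.b 2 (.b 1 (.b 0 (.b 42 (.b 39 (.b 43 (.m 27 (.l 44)) (.l 43)) (.l 39)) (.b 35 (.b 39 (.l 42) (.l 39)) (.l 42))) (.l 45)) (.l 45)) (.l 45)) (.l 45)) (.l 45)) (.l 45)) (.l 45)) (.l 45)) (.l 45)) (.l 45)) (.l 45)) (.l 45)) (.l 45)) (.l 45)) (.l 45)) (.l 45)) (.l 45)) (.l 45)) (.l 45)))) (.b 22 (.b 20 (.b 19 (.b 17 (.b 16 (.b 15 (.b 14 (.b 13 (.b 12 (.b 11 (.b 10 (.b 9 (.b 8 (.b 7 (.b 6 (.b 44 (.m 28 (.b 5 (.b 39 (.l 43) (.l 39)) (.b 4 (.b 3 (.b 2 (.b 1 (.b 0 (.b 41 (.l 43) (.b 30 (.l 43) (.l 41))) (.l 45)) (.l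 45)) (.l 45)) (.l 45)) (.l 45)))) (.l 44)) (.b 5 (.b 4 (.b 3 (.b 2 (.b 1 (.b 0 (.b 41 (.b 39 (.b 42 (.b 32 (.m 0 (.l 44)) (.l 32)) (.l 42)) (.l 39)) (.b 30 (.b 39 (.b 42 (.b 32 (.m 0 (.l 44)) (.l 32)) (.l 42)) (.l 39)) (.l 41))) (.l 45)) (.l 45)) (.l 45)) (.l 45)) (.l 45)) (.l 45))) (.b 6 (.b 44 (.m 28 (.b 5 (.b 39 (.b 37 (.l 43) (.l 37)) (.l 39)) (.l 45))) (.l 44)) (.l 45))) (.b 7 (.b 6 (.b 44 (.m 28 (.b 5 (.b 4 (.b 3 (.b 2 (.b 1 (.b 0 (.b 41 (.l 43) (.b 30 (.l 43) (.l 41))) (.l 45)) (.l 45)) (.l 45)) (.l 45)) (.l 45)) (.l 45))) (.l 44)) (.l 45)) (.l 45))) (.b 8 (.b 7 (.b 6 (.b 5 (.b 4 (.b 3 (.b 2 (.b 1 (.b 0 (.b 41 (.b 39 (.b 42 (.b 32 (.m 0 (.l 44)) (.l 32)) (.l 42)) (.l 39)) (.b 30 (.b 39 (.b 42 (.b 32 (.m 0 (.l 44))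 (.l 32)) (.l 42)) (.l 39)) (.l 41))) (.l 45)) (.l 45)) (.l 45)) (.l 45)) (.l 45)) (.l 45)) (.l 45)) (.l 45)) (.l 45))) (.b 9 (.b 8 (.b 7 (.b 6 (.b 44 (.m 28 (.b 5 (.b 4 (.b 3 (.b 2 (.b 1 (.b 0 (.b 41 (.l 43) (.b 30 (.l 43) (.l 41))) (.l 45)) (.l 45)) (.l 45)) (.l 45)) (.l 45)) (.l 45))) (.l 44)) (.l 45)) (.l 45)) (.l 45)) (.l 45))) (.b 10 (.b 9 (.b 8 (.b 7 (.b 6 (.b 5 (.b 4 (.b 3 (.b 2 (.b 1 (.b 0 (.b 44 (.m 28 (.l 43)) (.b 37 (.b 39 (.l 44) (.l 39)) (.b 33 (.b 39 (.l 44) (.l 39)) (.l 44)))) (.l 45)) (.l 45)) (.l 45)) (.l 45)) (.l 45)) (.l 45)) (.l 45)) (.l 45)) (.l 45)) (.l 45)) (.l 45))) (.b 11 (.b 10 (.b 9 (.b 8 (.b 7 (.b 6 (.b 44 (.m 28 (.b 5 (.b 4 (.b 3 (.b 2 (.b 1 (.b 0 (.b 41 (.l 43) (.b 30 (.l 43) (.l 41))) (.l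 45)) (.l 45)) (.l 45)) (.l 45)) (.l 45)) (.l 45))) (.l 44)) (.l 45)) (.l 45)) (.l 45)) (.l 45)) (.l 45)) (.l 45))) (.b 12 (.b 11 (.b 10 (.b 9 (.b 8 (.b 7 (.b 6 (.b 5 (.b 4 (.b 3 (.b 2 (.b 1 (.b 0 (.b 41 (.b 39 (.b 42 (.b 35 (.m 0 (.l 44)) (.l 35)) (.l 42)) (.l 39)) (.b 30 (.b 39 (.b 42 (.b 35 (.m 0 (.l 44)) (.l 35)) (.l 42)) (.l 39)) (.l 41))) (.l 45)) (.l 45)) (.l 45)) (.l 45)) (.l 45)) (.l 45)) (.l 45)) (.l 45)) (.l 45)) (.l 45)) (.l 45)) (.l 45)) (.l 45))) (.b 13 (.b 12 (.b 11 (.b 10 (.b 9 (.b 8 (.b 7 (.b 6 (.b 44 (.m 28 (.b 5 (.b 4 (.b 3 (.b 2 (.b 1 (.b 0 (.b 41 (.l 43) (.b 30 (.l 43) (.l 41))) (.l 45)) (.l 45)) (.l 45)) (.l 45)) (.l 45)) (.l 45))) (.l 44)) (.l 45)) (.l 45)) (.l 45)) (.l 45)) (.l 45)) (.l 45)) (.l 45))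 (.l 45))) (.b 14 (.b 13 (.b 12 (.b 11 (.b 10 (.b 9 (.b 8 (.b 7 (.b 6 (.b 5 (.b 4 (.b 3 (.b 2 (.b 1 (.b 0 (.b 44 (.m 28 (.l 43)) (.b 37 (.b 39 (.l 44) (.l 39)) (.b 33 (.b 39 (.l 44) (.l 39)) (.l 44)))) (.l 45)) (.l 45)) (.l 45)) (.l 45)) (.l 45)) (.l 45)) (.l 45)) (.l 45)) (.l 45)) (.l 45)) (.l 45)) (.l 45)) (.l 45)) (.l 45)) (.l 45))) (.b 15 (.b 14 (.b 13 (.b 12 (.b 11 (.b 10 (.b 9 (.b 8 (.b 7 (.b 6 (.b 44 (.m 28 (.b 5 (.b 4 (.b 3 (.b 2 (.b 1 (.b 0 (.b 41 (.l 43) (.b 30 (.l 43) (.l 41))) (.l 45)) (.l 45)) (.l 45)) (.l 45)) (.l 45)) (.l 45))) (.l 44)) (.l 45)) (.l 45)) (.l 45)) (.l 45)) (.l 45)) (.l 45)) (.l 45)) (.l 45)) (.l 45)) (.l 45))) (.b 16 (.b 15 (.b 14 (.b 13 (.b 12 (.b 11 (.b 10 (.b 9 (.b 8 (.b 7 (.b 6 (.b 5 (.b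 4 (.b 3 (.b 2 (.b 1 (.b 0 (.b 41 (.b 44 (.m 28 (.l 43)) (.l 44)) (.b 30 (.b 21 (.b 39 (.b 35 (.m 0 (.l 44)) (.l 35)) (.l 39)) (.l 41)) (.l 41))) (.l 45)) (.l 45)) (.l 45)) (.l 45)) (.l 45)) (.l 45)) (.l 45)) (.l 45)) (.l 45)) (.l 45)) (.l 45)) (.l 45)) (.l 45)) (.l 45)) (.l 45)) (.l 45)) (.l 45))) (.b 17 (.b 16 (.b 15 (.b 14 (.b 13 (.b 12 (.b 11 (.b 10 (.b 9 (.b 8 (.b 7 (.b 6 (.b 44 (.m 28 (.b 5 (.b 4 (.b 3 (.b 2 (.b 1 (.b 0 (.b 41 (.l 43) (.b 30 (.l 43) (.l 41))) (.l 45)) (.l 45)) (.l 45)) (.l 45)) (.l 45)) (.l 45))) (.l 44)) (.l 45)) (.l 45)) (.l 45)) (.l 45)) (.l 45)) (.l 45)) (.l 45)) (.l 45)) (.l 45)) (.l 45)) (.l 45)) (.l 45))) (.b 19 (.b 17 (.b 16 (.b 15 (.b 14 (.b 13 (.b 12 (.b 11 (.b 10 (.b 9 (.b 8 (.b 7 (.b 6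 (.b 5 (.b 4 (.b 3 (.b 2 (.b 1 (.b 0 (.b 44 (.m 28 (.b 39 (.l 43) (.l 39))) (.b 37 (.b 39 (.l 44) (.l 39)) (.b 33 (.b 39 (.l 44) (.l 39)) (.l 44)))) (.l 45)) (.l 45)) (.l 45)) (.l 45)) (.l 45)) (.l 45)) (.l 45)) (.l 45)) (.l 45)) (.l 45)) (.l 45)) (.l 45)) (.l 45)) (.l 45)) (.l 45)) (.l 45)) (.l 45)) (.l 45)) (.l 45))) (.b 20 (.b 19 (.b 17 (.b 16 (.b 15 (.b 14 (.b 13 (.b 12 (.b 11 (.b 10 (.b 9 (.b 8 (.b 7 (.b 6 (.b 5 (.b 4 (.b 3 (.b 2 (.b 1 (.b 0 (.b 41 (.b 44 (.m 28 (.l 43)) (.l 44)) (.b 30 (.b 21 (.b 39 (.b 42 (.m 0 (.l 44)) (.l 42)) (.l 39)) (.l 41)) (.l 41))) (.l 45)) (.l 45)) (.l 45)) (.l 45)) (.l 45)) (.l 45)) (.l 45)) (.l 45)) (.l 45)) (.l 45)) (.l 45)) (.l 45)) (.l 45)) (.l 45)) (.l 45)) (.l 45)) (.l 45)) (.l 45))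 (.l 45)) (.l 45)))) (.b 24 (.b 22 (.b 20 (.b 19 (.b 17 (.b 16 (.b 15 (.b 14 (.b 13 (.b 12 (.b 11 (.b 10 (.b 9 (.b 8 (.b 7 (.b 6 (.b 5 (.b 4 (.b 3 (.b 2 (.b 1 (.b 42 (.b 39 (.b 35 (.b 32 (.m 0 (.l 44)) (.l 32)) (.l 35)) (.l 39)) (.b 35 (.b 39 (.l 42) (.l 39)) (.b 29 (.b 43 (.m 28 (.l 44)) (.l 43)) (.l 42)))) (.b 0 (.b 42 (.b 39 (.b 35 (.b 32 (.m 0 (.l 44)) (.l 32)) (.l 35)) (.l 39)) (.b 35 (.b 39 (.l 42) (.l 39)) (.l 42))) (.l 45))) (.b 1 (.b 0 (.b 42 (.b 39 (.b 35 (.b 32 (.m 0 (.l 44)) (.l 32)) (.l 35)) (.l 39)) (.b 35 (.b 39 (.l 42) (.l 39)) (.l 42))) (.l 45)) (.l 45))) (.b 2 (.b 1 (.b 0 (.b 42 (.b 39 (.b 35 (.b 37 (.m 0 (.l 44)) (.l 37)) (.l 35)) (.l 39)) (.b 35 (.b 39 (.l 42) (.l 39)) (.l 42))) (.l 45)) (.l 45)) (.l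 45))) (.b 3 (.b 2 (.b 1 (.b 0 (.b 42 (.b 39 (.b 35 (.b 32 (.m 0 (.l 44)) (.l 32)) (.l 35)) (.l 39)) (.b 35 (.b 39 (.l 42) (.l 39)) (.l 42))) (.l 45)) (.l 45)) (.l 45)) (.l 45))) (.b 4 (.b 3 (.b 2 (.b 1 (.b 0 (.b 42 (.b 44 (.m 27 (.l 43)) (.l 44)) (.b 35 (.b 44 (.m 28 (.l 43)) (.l 44)) (.l 42))) (.l 45)) (.l 45)) (.l 45)) (.l 45)) (.l 45))) (.b 5 (.b 4 (.b 3 (.b 2 (.b 1 (.b 0 (.b 42 (.b 39 (.b 35 (.b 32 (.m 0 (.l 44)) (.l 32)) (.l 35)) (.l 39)) (.b 35 (.b 39 (.l 42) (.l 39)) (.l 42))) (.l 45)) (.l 45)) (.l 45)) (.l 45)) (.l 45)) (.l 45))) (.b 6 (.b 5 (.b 4 (.b 3 (.b 2 (.b 1 (.b 0 (.b 42 (.b 39 (.b 35 (.b 37 (.m 0 (.l 44)) (.l 37)) (.l 35)) (.l 39)) (.b 35 (.b 39 (.l 42) (.l 39)) (.l 42))) (.l 45)) (.l 45)) (.l 45)) (.l 45))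 (.l 45)) (.l 45)) (.l 45))) (.b 7 (.b 6 (.b 5 (.b 4 (.b 3 (.b 2 (.b 1 (.b 0 (.b 42 (.b 44 (.m 27 (.l 43)) (.l 44)) (.b 35 (.b 44 (.m 28 (.l 43)) (.l 44)) (.l 42))) (.l 45)) (.l 45)) (.l 45)) (.l 45)) (.l 45)) (.l 45)) (.l 45)) (.l 45))) (.b 8 (.b 7 (.b 6 (.b 5 (.b 4 (.b 3 (.b 2 (.b 1 (.b 0 (.b 42 (.b 39 (.b 35 (.b 32 (.m 0 (.l 44)) (.l 32)) (.l 35)) (.l 39)) (.b 35 (.b 39 (.l 42) (.l 39)) (.l 42))) (.l 45)) (.l 45)) (.l 45)) (.l 45)) (.l 45)) (.l 45)) (.l 45)) (.l 45)) (.l 45))) (.b 9 (.b 8 (.b 7 (.b 6 (.b 5 (.b 4 (.b 3 (.b 2 (.b 1 (.b 0 (.b 42 (.b 44 (.m 27 (.l 43)) (.l 44)) (.b 35 (.b 44 (.m 28 (.l 43)) (.l 44)) (.l 42))) (.l 45)) (.l 45)) (.l 45)) (.l 45)) (.l 45)) (.l 45)) (.l 45)) (.l 45)) (.l 45)) (.l 45))) (.b 10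 (.b 9 (.b 8 (.b 7 (.b 6 (.b 5 (.b 4 (.b 3 (.b 2 (.b 1 (.b 0 (.b 42 (.b 39 (.b 35 (.b 32 (.m 0 (.l 44)) (.l 32)) (.l 35)) (.l 39)) (.b 35 (.b 39 (.l 42) (.l 39)) (.l 42))) (.l 45)) (.l 45)) (.l 45)) (.l 45)) (.l 45)) (.l 45)) (.l 45)) (.l 45)) (.l 45)) (.l 45)) (.l 45))) (.b 11 (.b 10 (.b 9 (.b 8 (.b 7 (.b 6 (.b 5 (.b 4 (.b 3 (.b 2 (.b 1 (.b 0 (.b 44 (.m 28 (.b 36 (.b 39 (.l 43) (.l 39)) (.b 32 (.b 42 (.l 43) (.l 42)) (.b 26 (.b 42 (.l 43) (.l 42)) (.l 43))))) (.b 37 (.b 33 (.b 39 (.l 44) (.l 39)) (.b 30 (.b 39 (.l 44) (.l 39)) (.l 44))) (.b 33 (.b 30 (.b 39 (.l 44) (.l 39)) (.l 44)) (.l 44)))) (.l 45)) (.l 45)) (.l 45)) (.l 45)) (.l 45)) (.l 45)) (.l 45)) (.l 45)) (.l 45)) (.l 45)) (.l 45)) (.l 45))) (.b 12 (.b 11 (.b 10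 (.b 9 (.b 8 (.b 7 (.b 6 (.b 5 (.b 4 (.b 3 (.b 2 (.b 1 (.b 0 (.b 42 (.b 39 (.b 35 (.b 43 (.m 0 (.l 44)) (.l 43)) (.l 35)) (.l 39)) (.b 35 (.b 39 (.l 42) (.l 39)) (.l 42))) (.l 45)) (.l 45)) (.l 45)) (.l 45)) (.l 45)) (.l 45)) (.l 45)) (.l 45)) (.l 45)) (.l 45)) (.l 45)) (.l 45)) (.l 45))) (.b 13 (.b 12 (.b 11 (.b 10 (.b 9 (.b 8 (.b 7 (.b 6 (.b 5 (.b 4 (.b 3 (.b 2 (.b 1 (.b 0 (.b 42 (.b 44 (.m 27 (.l 43)) (.l 44)) (.b 35 (.b 44 (.m 28 (.l 43)) (.l 44)) (.l 42))) (.l 45)) (.l 45)) (.l 45)) (.l 45)) (.l 45)) (.l 45)) (.l 45)) (.l 45)) (.l 45)) (.l 45)) (.l 45)) (.l 45)) (.l 45)) (.l 45))) (.b 14 (.b 13 (.b 12 (.b 11 (.b 10 (.b 9 (.b 8 (.b 7 (.b 6 (.b 5 (.b 4 (.b 3 (.b 2 (.b 1 (.b 0 (.b 42 (.b 39 (.b 35 (.b 32 (.m 0 (.l 44))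 (.l 32)) (.l 35)) (.l 39)) (.b 35 (.b 39 (.l 42) (.l 39)) (.l 42))) (.l 45)) (.l 45)) (.l 45)) (.l 45)) (.l 45)) (.l 45)) (.l 45)) (.l 45)) (.l 45)) (.l 45)) (.l 45)) (.l 45)) (.l 45)) (.l 45)) (.l 45))) (.b 15 (.b 14 (.b 13 (.b 12 (.b 11 (.b 10 (.b 9 (.b 8 (.b 7 (.b 6 (.b 5 (.b 4 (.b 3 (.b 2 (.b 1 (.b 0 (.b 44 (.m 28 (.b 36 (.b 39 (.l 43) (.l 39)) (.b 32 (.b 42 (.l 43) (.l 42)) (.b 26 (.b 42 (.l 43) (.l 42)) (.l 43))))) (.b 37 (.b 33 (.b 39 (.l 44) (.l 39)) (.b 30 (.b 39 (.l 44) (.l 39)) (.l 44))) (.b 33 (.b 30 (.b 39 (.l 44) (.l 39)) (.l 44)) (.l 44)))) (.l 45)) (.l 45)) (.l 45)) (.l 45)) (.l 45)) (.l 45)) (.l 45)) (.l 45)) (.l 45)) (.l 45)) (.l 45)) (.l 45)) (.l 45)) (.l 45)) (.l 45)) (.l 45))) (.b 16 (.b 15 (.b 14 (.b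 13 (.b 12 (.b 11 (.b 10 (.b 9 (.b 8 (.b 7 (.b 6 (.b 5 (.b 4 (.b 3 (.b 2 (.b 1 (.b 0 (.b 42 (.b 35 (.b 39 (.b 43 (.m 0 (.l 44)) (.l 43)) (.l 39)) (.b 29 (.b 43 (.m 27 (.l 44)) (.l 43)) (.l 35))) (.b 35 (.b 29 (.b 43 (.m 28 (.l 44)) (.l 43)) (.l 42)) (.l 42))) (.l 45)) (.l 45)) (.l 45)) (.l 45)) (.l 45)) (.l 45)) (.l 45)) (.l 45)) (.l 45)) (.l 45)) (.l 45)) (.l 45)) (.l 45)) (.l 45)) (.l 45)) (.l 45)) (.l 45))) (.b 17 (.b 16 (.b 15 (.b 14 (.b 13 (.b 12 (.b 11 (.b 10 (.b 9 (.b 8 (.b 7 (.b 6 (.b 5 (.b 4 (.b 3 (.b 2 (.b 1 (.b 0 (.b 44 (.m 28 (.b 36 (.b 39 (.l 43) (.l 39)) (.b 32 (.b 42 (.l 43) (.l 42)) (.b 26 (.b 42 (.l 43) (.l 42)) (.l 43))))) (.b 37 (.b 33 (.b 39 (.l 44) (.l 39)) (.b 30 (.b 39 (.l 44) (.l 39)) (.l 44))) (.b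 33 (.b 30 (.b 39 (.l 44) (.l 39)) (.l 44)) (.l 44)))) (.l 45)) (.l 45)) (.l 45)) (.l 45)) (.l 45)) (.l 45)) (.l 45)) (.l 45)) (.l 45)) (.l 45)) (.l 45)) (.l 45)) (.l 45)) (.l 45)) (.l 45)) (.l 45)) (.l 45)) (.l 45))) (.b 19 (.b 17 (.b 16 (.b 15 (.b 14 (.b 13 (.b 12 (.b 11 (.b 10 (.b 9 (.b 8 (.b 7 (.b 6 (.b 5 (.b 4 (.b 3 (.b 2 (.b 1 (.b 0 (.b 42 (.b 39 (.b 35 (.b 43 (.m 0 (.l 44)) (.l 43)) (.l 35)) (.l 39)) (.b 35 (.b 39 (.l 42) (.l 39)) (.l 42))) (.l 45)) (.l 45)) (.l 45)) (.l 45)) (.l 45)) (.l 45)) (.l 45)) (.l 45)) (.l 45)) (.l 45)) (.l 45)) (.l 45)) (.l 45)) (.l 45)) (.l 45)) (.l 45)) (.l 45)) (.l 45)) (.l 45))) (.b 20 (.b 19 (.b 17 (.b 16 (.b 15 (.b 14 (.b 13 (.b 12 (.b 11 (.b 10 (.b 9 (.b 8 (.b 7 (.b 6 (.b 5 (.b 4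 (.b 3 (.b 2 (.b 1 (.b 0 (.b 42 (.b 41 (.b 39 (.b 35 (.m 0 (.l 44)) (.l 35)) (.l 39)) (.b 30 (.b 39 (.b 35 (.m 0 (.l 44)) (.l 35)) (.l 39)) (.b 21 (.b 39 (.b 35 (.m 0 (.l 44)) (.l 35)) (.l 39)) (.l 41)))) (.b 35 (.b 29 (.b 43 (.m 28 (.l 44)) (.l 43)) (.l 42)) (.l 42))) (.l 45)) (.l 45)) (.l 45)) (.l 45)) (.l 45)) (.l 45)) (.l 45)) (.l 45)) (.l 45)) (.l 45)) (.l 45)) (.l 45)) (.l 45)) (.l 45)) (.l 45)) (.l 45)) (.l 45)) (.l 45)) (.l 45)) (.l 45))) (.b 22 (.b 20 (.b 19 (.b 17 (.b 16 (.b 15 (.b 14 (.b 13 (.b 12 (.b 11 (.b 10 (.b 9 (.b 8 (.b 7 (.b 6 (.b 5 (.b 4 (.b 3 (.b 2 (.b 1 (.b 0 (.b 44 (.m 28 (.b 36 (.b 39 (.l 43) (.l 39)) (.b 32 (.b 42 (.l 43) (.l 42)) (.b 26 (.b 42 (.l 43) (.l 42)) (.l 43))))) (.b 37 (.b 33 (.b 39 (.l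 44) (.l 39)) (.b 30 (.b 39 (.l 44) (.l 39)) (.l 44))) (.b 33 (.b 30 (.b 39 (.l 44) (.l 39)) (.l 44)) (.l 44)))) (.l 45)) (.l 45)) (.l 45)) (.l 45)) (.l 45)) (.l 45)) (.l 45)) (.l 45)) (.l 45)) (.l 45)) (.l 45)) (.l 45)) (.l 45)) (.l 45)) (.l 45)) (.l 45)) (.l 45)) (.l 45)) (.l 45)) (.l 45)) (.l 45)))) (.b 25 (.b 24 (.b 22 (.b 20 (.b 19 (.b 17 (.b 16 (.b 15 (.b 14 (.b 13 (.b 12 (.b 11 (.b 10 (.b 9 (.b 8 (.b 7 (.b 6 (.b 5 (.b 4 (.b 3 (.b 2 (.b 1 (.b 41 (.b 39 (.b 42 (.b 32 (.m 0 (.l 44)) (.l 32)) (.l 42)) (.l 39)) (.b 30 (.b 39 (.b 42 (.b 32 (.m 0 (.l 44)) (.l 32)) (.l 42)) (.l 39)) (.b 21 (.b 39 (.b 42 (.b 32 (.m 0 (.l 44)) (.l 32)) (.l 42)) (.l 39)) (.l 41)))) (.b 0 (.b 41 (.b 39 (.b 42 (.b 32 (.m 0 (.l 44)) (.l 32)) (.l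 42)) (.l 39)) (.b 30 (.b 39 (.b 42 (.b 32 (.m 0 (.l 44)) (.l 32)) (.l 42)) (.l 39)) (.l 41))) (.l 45))) (.b 1 (.b 0 (.b 41 (.b 39 (.b 42 (.b 32 (.m 0 (.l 44)) (.l 32)) (.l 42)) (.l 39)) (.b 30 (.b 39 (.b 42 (.b 32 (.m 0 (.l 44)) (.l 32)) (.l 42)) (.l 39)) (.l 41))) (.l 45)) (.l 45))) (.b 2 (.b 1 (.b 0 (.b 41 (.b 39 (.b 42 (.b 35 (.m 0 (.l 44)) (.l 35)) (.l 42)) (.l 39)) (.b 30 (.b 39 (.b 42 (.b 35 (.m 0 (.l 44)) (.l 35)) (.l 42)) (.l 39)) (.l 41))) (.l 45)) (.l 45)) (.l 45))) (.b 3 (.b 2 (.b 1 (.b 0 (.b 41 (.b 39 (.b 42 (.b 32 (.m 0 (.l 44)) (.l 32)) (.l 42)) (.l 39)) (.b 30 (.b 39 (.b 42 (.b 32 (.m 0 (.l 44)) (.l 32)) (.l 42)) (.l 39)) (.l 41))) (.l 45)) (.l 45)) (.l 45)) (.l 45))) (.b 4 (.b 3 (.b 2 (.b 1 (.b 0 (.b 41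 (.b 44 (.m 28 (.l 43)) (.l 44)) (.b 30 (.b 21 (.b 39 (.b 35 (.m 0 (.l 44)) (.l 35)) (.l 39)) (.l 41)) (.l 41))) (.l 45)) (.l 45)) (.l 45)) (.l 45)) (.l 45))) (.b 5 (.b 4 (.b 3 (.b 2 (.b 1 (.b 0 (.b 41 (.b 39 (.b 42 (.b 32 (.m 0 (.l 44)) (.l 32)) (.l 42)) (.l 39)) (.b 30 (.b 39 (.b 42 (.b 32 (.m 0 (.l 44)) (.l 32)) (.l 42)) (.l 39)) (.l 41))) (.l 45)) (.l 45)) (.l 45)) (.l 45)) (.l 45)) (.l 45))) (.b 6 (.b 5 (.b 4 (.b 3 (.b 2 (.b 1 (.b 0 (.b 41 (.b 39 (.b 42 (.b 35 (.m 0 (.l 44)) (.l 35)) (.l 42)) (.l 39)) (.b 30 (.b 39 (.b 42 (.b 35 (.m 0 (.l 44)) (.l 35)) (.l 42)) (.l 39)) (.l 41))) (.l 45)) (.l 45)) (.l 45)) (.l 45)) (.l 45)) (.l 45)) (.l 45))) (.b 7 (.b 6 (.b 5 (.b 4 (.b 3 (.b 2 (.b 1 (.b 0 (.b 41 (.b 44 (.m 28 (.l 43))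 (.l 44)) (.b 30 (.b 21 (.b 39 (.b 42 (.m 0 (.l 44)) (.l 42)) (.l 39)) (.l 41)) (.l 41))) (.l 45)) (.l 45)) (.l 45)) (.l 45)) (.l 45)) (.l 45)) (.l 45)) (.l 45))) (.b 8 (.b 7 (.b 6 (.b 5 (.b 4 (.b 3 (.b 2 (.b 1 (.b 0 (.b 41 (.b 39 (.b 42 (.b 32 (.m 0 (.l 44)) (.l 32)) (.l 42)) (.l 39)) (.b 30 (.b 39 (.b 42 (.b 32 (.m 0 (.l 44)) (.l 32)) (.l 42)) (.l 39)) (.l 41))) (.l 45)) (.l 45)) (.l 45)) (.l 45)) (.l 45)) (.l 45)) (.l 45)) (.l 45)) (.l 45))) (.b 9 (.b 8 (.b 7 (.b 6 (.b 5 (.b 4 (.b 3 (.b 2 (.b 1 (.b 0 (.b 41 (.b 44 (.m 28 (.l 43)) (.l 44)) (.b 30 (.b 21 (.b 39 (.b 35 (.m 0 (.l 44)) (.l 35)) (.l 39)) (.l 41)) (.l 41))) (.l 45)) (.l 45)) (.l 45)) (.l 45)) (.l 45)) (.l 45)) (.l 45)) (.l 45)) (.l 45)) (.l 45))) (.b 10 (.b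 9 (.b 8 (.b 7 (.b 6 (.b 5 (.b 4 (.b 3 (.b 2 (.b 1 (.b 0 (.b 43 (.m 28 (.b 39 (.l 44) (.l 39))) (.b 36 (.b 39 (.l 43) (.l 39)) (.b 32 (.b 26 (.b 42 (.l 43) (.l 42)) (.l 43)) (.l 43)))) (.l 45)) (.l 45)) (.l 45)) (.l 45)) (.l 45)) (.l 45)) (.l 45)) (.l 45)) (.l 45)) (.l 45)) (.l 45))) (.b 11 (.b 10 (.b 9 (.b 8 (.b 7 (.b 6 (.b 5 (.b 4 (.b 3 (.b 2 (.b 1 (.b 0 (.b 41 (.b 44 (.m 28 (.l 43)) (.l 44)) (.b 30 (.b 21 (.b 39 (.b 42 (.m 0 (.l 44)) (.l 42)) (.l 39)) (.l 41)) (.l 41))) (.l 45)) (.l 45)) (.l 45)) (.l 45)) (.l 45)) (.l 45)) (.l 45)) (.l 45)) (.l 45)) (.l 45)) (.l 45)) (.l 45))) (.b 12 (.b 11 (.b 10 (.b 9 (.b 8 (.b 7 (.b 6 (.b 5 (.b 4 (.b 3 (.b 2 (.b 1 (.b 0 (.b 41 (.b 39 (.b 42 (.b 35 (.m 0 (.l 44)) (.l 35)) (.l 42)) (.l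 39)) (.b 30 (.b 39 (.b 42 (.b 35 (.m 0 (.l 44)) (.l 35)) (.l 42)) (.l 39)) (.l 41))) (.l 45)) (.l 45)) (.l 45)) (.l 45)) (.l 45)) (.l 45)) (.l 45)) (.l 45)) (.l 45)) (.l 45)) (.l 45)) (.l 45)) (.l 45))) (.b 13 (.b 12 (.b 11 (.b 10 (.b 9 (.b 8 (.b 7 (.b 6 (.b 5 (.b 4 (.b 3 (.b 2 (.b 1 (.b 0 (.b 41 (.b 44 (.m 28 (.l 43)) (.l 44)) (.b 30 (.b 21 (.b 39 (.b 42 (.m 0 (.l 44)) (.l 42)) (.l 39)) (.l 41)) (.l 41))) (.l 45)) (.l 45)) (.l 45)) (.l 45)) (.l 45)) (.l 45)) (.l 45)) (.l 45)) (.l 45)) (.l 45)) (.l 45)) (.l 45)) (.l 45)) (.l 45))) (.b 14 (.b 13 (.b 12 (.b 11 (.b 10 (.b 9 (.b 8 (.b 7 (.b 6 (.b 5 (.b 4 (.b 3 (.b 2 (.b 1 (.b 0 (.b 43 (.m 28 (.b 39 (.l 44) (.l 39))) (.b 36 (.b 39 (.l 43) (.l 39)) (.b 32 (.b 26 (.b 42 (.l 43)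 (.l 42)) (.l 43)) (.l 43)))) (.l 45)) (.l 45)) (.l 45)) (.l 45)) (.l 45)) (.l 45)) (.l 45)) (.l 45)) (.l 45)) (.l 45)) (.l 45)) (.l 45)) (.l 45)) (.l 45)) (.l 45))) (.b 15 (.b 14 (.b 13 (.b 12 (.b 11 (.b 10 (.b 9 (.b 8 (.b 7 (.b 6 (.b 5 (.b 4 (.b 3 (.b 2 (.b 1 (.b 0 (.b 41 (.b 44 (.m 28 (.l 43)) (.l 44)) (.b 30 (.b 21 (.b 39 (.b 42 (.m 0 (.l 44)) (.l 42)) (.l 39)) (.l 41)) (.l 41))) (.l 45)) (.l 45)) (.l 45)) (.l 45)) (.l 45)) (.l 45)) (.l 45)) (.l 45)) (.l 45)) (.l 45)) (.l 45)) (.l 45)) (.l 45)) (.l 45)) (.l 45)) (.l 45))) (.b 16 (.b 15 (.b 14 (.b 13 (.b 12 (.b 11 (.b 10 (.b 9 (.b 8 (.b 7 (.b 6 (.b 5 (.b 4 (.b 3 (.b 2 (.b 1 (.b 0 (.b 41 (.b 42 (.b 39 (.b 35 (.m 0 (.l 44)) (.l 35)) (.l 39)) (.b 35 (.b 39 (.l 42) (.l 39))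 (.b 29 (.b 43 (.m 28 (.l 44)) (.l 43)) (.l 42)))) (.b 30 (.b 21 (.b 39 (.b 35 (.m 0 (.l 44)) (.l 35)) (.l 39)) (.l 41)) (.l 41))) (.l 45)) (.l 45)) (.l 45)) (.l 45)) (.l 45)) (.l 45)) (.l 45)) (.l 45)) (.l 45)) (.l 45)) (.l 45)) (.l 45)) (.l 45)) (.l 45)) (.l 45)) (.l 45)) (.l 45))) (.b 17 (.b 16 (.b 15 (.b 14 (.b 13 (.b 12 (.b 11 (.b 10 (.b 9 (.b 8 (.b 7 (.b 6 (.b 5 (.b 4 (.b 3 (.b 2 (.b 1 (.b 0 (.b 41 (.b 44 (.m 28 (.l 43)) (.l 44)) (.b 30 (.b 21 (.b 39 (.b 42 (.m 0 (.l 44)) (.l 42)) (.l 39)) (.l 41)) (.l 41))) (.l 45)) (.l 45)) (.l 45)) (.l 45)) (.l 45)) (.l 45)) (.l 45)) (.l 45)) (.l 45)) (.l 45)) (.l 45)) (.l 45)) (.l 45)) (.l 45)) (.l 45)) (.l 45)) (.l 45)) (.l 45))) (.b 19 (.b 17 (.b 16 (.b 15 (.b 14 (.b 13 (.b 12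 (.b 11 (.b 10 (.b 9 (.b 8 (.b 7 (.b 6 (.b 5 (.b 4 (.b 3 (.b 2 (.b 1 (.b 0 (.b 42 (.b 39 (.b 43 (.m 27 (.l 44)) (.l 43)) (.l 39)) (.b 35 (.b 39 (.b 43 (.m 28 (.l 44)) (.l 43)) (.l 39)) (.b 29 (.b 23 (.b 44 (.m 28 (.l 43)) (.l 44)) (.l 42)) (.l 42)))) (.l 45)) (.l 45)) (.l 45)) (.l 45)) (.l 45)) (.l 45)) (.l 45)) (.l 45)) (.l 45)) (.l 45)) (.l 45)) (.l 45)) (.l 45)) (.l 45)) (.l 45)) (.l 45)) (.l 45)) (.l 45)) (.l 45))) (.b 20 (.b 19 (.b 17 (.b 16 (.b 15 (.b 14 (.b 13 (.b 12 (.b 11 (.b 10 (.b 9 (.b 8 (.b 7 (.b 6 (.b 5 (.b 4 (.b 3 (.b 2 (.b 1 (.b 0 (.b 41 (.b 42 (.b 39 (.b 43 (.m 0 (.l 44)) (.l 43)) (.l 39)) (.b 35 (.b 39 (.l 42) (.l 39)) (.b 29 (.b 43 (.m 28 (.l 44)) (.l 43)) (.l 42)))) (.b 30 (.b 21 (.b 39 (.b 42 (.m 0 (.l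 44)) (.l 42)) (.l 39)) (.l 41)) (.l 41))) (.l 45)) (.l 45)) (.l 45)) (.l 45)) (.l 45)) (.l 45)) (.l 45)) (.l 45)) (.l 45)) (.l 45)) (.l 45)) (.l 45)) (.l 45)) (.l 45)) (.l 45)) (.l 45)) (.l 45)) (.l 45)) (.l 45)) (.l 45))) (.b 22 (.b 20 (.b 19 (.b 17 (.b 16 (.b 15 (.b 14 (.b 13 (.b 12 (.b 11 (.b 10 (.b 9 (.b 8 (.b 7 (.b 6 (.b 5 (.b 4 (.b 3 (.b 2 (.b 1 (.b 0 (.b 41 (.b 44 (.m 28 (.l 43)) (.l 44)) (.b 30 (.b 21 (.b 39 (.b 42 (.m 0 (.l 44)) (.l 42)) (.l 39)) (.l 41)) (.l 41))) (.l 45)) (.l 45)) (.l 45)) (.l 45)) (.l 45)) (.l 45)) (.l 45)) (.l 45)) (.l 45)) (.l 45)) (.l 45)) (.l 45)) (.l 45)) (.l 45)) (.l 45)) (.l 45)) (.l 45)) (.l 45)) (.l 45)) (.l 45)) (.l 45))) (.b 24 (.b 22 (.b 20 (.b 19 (.b 17 (.b 16 (.b 15 (.b 14 (.b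 13 (.b 12 (.b 11 (.b 10 (.b 9 (.b 8 (.b 7 (.b 6 (.b 5 (.b 4 (.b 3 (.b 2 (.b 1 (.b 0 (.b 42 (.b 41 (.b 39 (.b 35 (.m 0 (.l 44)) (.l 35)) (.l 39)) (.b 30 (.b 39 (.b 35 (.m 0 (.l 44)) (.l 35)) (.l 39)) (.b 21 (.b 39 (.b 35 (.m 0 (.l 44)) (.l 35)) (.l 39)) (.l 41)))) (.b 35 (.b 29 (.b 43 (.m 28 (.l 44)) (.l 43)) (.b 23 (.b 44 (.m 28 (.l 43)) (.l 44)) (.l 42))) (.b 29 (.b 23 (.b 44 (.m 28 (.l 43)) (.l 44)) (.l 42)) (.l 42)))) (.l 45)) (.l 45)) (.l 45)) (.l 45)) (.l 45)) (.l 45)) (.l 45)) (.l 45)) (.l 45)) (.l 45)) (.l 45)) (.l 45)) (.l 45)) (.l 45)) (.l 45)) (.l 45)) (.l 45)) (.l 45)) (.l 45)) (.l 45)) (.l 45)) (.l 45)))) (.b 28 (.b 25 (.b 24 (.b 22 (.b 20 (.b 19 (.b 17 (.b 16 (.b 15 (.b 14 (.b 13 (.b 12 (.b 11 (.b 10 (.b 9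 (.b 8 (.b 7 (.b 6 (.b 5 (.b 4 (.b 3 (.b 2 (.b 1 (.b 42 (.b 39 (.b 43 (.m 27 (.l 44)) (.l 43)) (.l 39)) (.b 35 (.b 39 (.l 42) (.l 39)) (.b 29 (.b 43 (.m 28 (.l 44)) (.l 43)) (.l 42)))) (.b 0 (.b 42 (.b 39 (.b 43 (.m 27 (.l 44)) (.l 43)) (.l 39)) (.b 35 (.b 39 (.l 42) (.l 39)) (.l 42))) (.l 45))) (.b 1 (.b 0 (.b 42 (.b 39 (.b 43 (.m 27 (.l 44)) (.l 43)) (.l 39)) (.b 35 (.b 39 (.l 42) (.l 39)) (.l 42))) (.l 45)) (.l 45))) (.b 2 (.b 1 (.b 0 (.b 42 (.b 39 (.b 43 (.m 27 (.l 44)) (.l 43)) (.l 39)) (.b 35 (.b 39 (.l 42) (.l 39)) (.l 42))) (.l 45)) (.l 45)) (.l 45))) (.b 3 (.b 2 (.b 1 (.b 0 (.b 42 (.b 39 (.b 43 (.m 27 (.l 44)) (.l 43)) (.l 39)) (.b 35 (.b 39 (.l 42) (.l 39)) (.l 42))) (.l 45)) (.l 45)) (.l 45)) (.l 45))) (.b 4 (.b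 3 (.b 2 (.b 1 (.b 0 (.b 42 (.b 44 (.m 27 (.l 43)) (.l 44)) (.b 35 (.b 44 (.m 28 (.l 43)) (.l 44)) (.l 42))) (.l 45)) (.l 45)) (.l 45)) (.l 45)) (.l 45))) (.b 5 (.b 4 (.b 3 (.b 2 (.b 1 (.b 0 (.b 42 (.b 39 (.b 43 (.m 27 (.l 44)) (.l 43)) (.l 39)) (.b 35 (.b 39 (.l 42) (.l 39)) (.l 42))) (.l 45)) (.l 45)) (.l 45)) (.l 45)) (.l 45)) (.l 45))) (.b 6 (.b 5 (.b 4 (.b 3 (.b 2 (.b 1 (.b 0 (.b 42 (.b 39 (.b 43 (.m 27 (.l 44)) (.l 43)) (.l 39)) (.b 35 (.b 39 (.l 42) (.l 39)) (.l 42))) (.l 45)) (.l 45)) (.l 45)) (.l 45)) (.l 45)) (.l 45)) (.l 45))) (.b 7 (.b 6 (.b 5 (.b 4 (.b 3 (.b 2 (.b 1 (.b 0 (.b 42 (.b 44 (.m 27 (.l 43)) (.l 44)) (.b 35 (.b 44 (.m 28 (.l 43)) (.l 44)) (.l 42))) (.l 45)) (.l 45)) (.l 45)) (.l 45)) (.l 45)) (.l 45))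 (.l 45)) (.l 45))) (.b 8 (.b 7 (.b 6 (.b 5 (.b 4 (.b 3 (.b 2 (.b 1 (.b 0 (.b 42 (.b 39 (.b 43 (.m 27 (.l 44)) (.l 43)) (.l 39)) (.b 35 (.b 39 (.l 42) (.l 39)) (.l 42))) (.l 45)) (.l 45)) (.l 45)) (.l 45)) (.l 45)) (.l 45)) (.l 45)) (.l 45)) (.l 45))) (.b 9 (.b 8 (.b 7 (.b 6 (.b 5 (.b 4 (.b 3 (.b 2 (.b 1 (.b 0 (.b 42 (.b 44 (.m 27 (.l 43)) (.l 44)) (.b 35 (.b 44 (.m 28 (.l 43)) (.l 44)) (.l 42))) (.l 45)) (.l 45)) (.l 45)) (.l 45)) (.l 45)) (.l 45)) (.l 45)) (.l 45)) (.l 45)) (.l 45))) (.b 10 (.b 9 (.b 8 (.b 7 (.b 6 (.b 5 (.b 4 (.b 3 (.b 2 (.b 1 (.b 0 (.b 42 (.b 39 (.b 43 (.m 27 (.l 44)) (.l 43)) (.l 39)) (.b 35 (.b 39 (.l 42) (.l 39)) (.l 42))) (.l 45)) (.l 45)) (.l 45)) (.l 45)) (.l 45)) (.l 45)) (.l 45)) (.l 45)) (.l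 45)) (.l 45)) (.l 45))) (.b 11 (.b 10 (.b 9 (.b 8 (.b 7 (.b 6 (.b 5 (.b 4 (.b 3 (.b 2 (.b 1 (.b 0 (.b 44 (.m 28 (.b 36 (.b 39 (.l 43) (.l 39)) (.b 32 (.b 42 (.l 43) (.l 42)) (.b 26 (.b 42 (.l 43) (.l 42)) (.l 43))))) (.b 37 (.b 33 (.b 39 (.l 44) (.l 39)) (.b 30 (.b 39 (.l 44) (.l 39)) (.l 44))) (.b 33 (.b 30 (.b 39 (.l 44) (.l 39)) (.l 44)) (.l 44)))) (.l 45)) (.l 45)) (.l 45)) (.l 45)) (.l 45)) (.l 45)) (.l 45)) (.l 45)) (.l 45)) (.l 45)) (.l 45)) (.l 45))) (.b 12 (.b 11 (.b 10 (.b 9 (.b 8 (.b 7 (.b 6 (.b 5 (.b 4 (.b 3 (.b 2 (.b 1 (.b 0 (.b 42 (.b 39 (.b 43 (.m 27 (.l 44)) (.l 43)) (.l 39)) (.b 35 (.b 39 (.l 42) (.l 39)) (.l 42))) (.l 45)) (.l 45)) (.l 45)) (.l 45)) (.l 45)) (.l 45)) (.l 45)) (.l 45)) (.l 45)) (.l 45))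 (.l 45)) (.l 45)) (.l 45))) (.b 13 (.b 12 (.b 11 (.b 10 (.b 9 (.b 8 (.b 7 (.b 6 (.b 5 (.b 4 (.b 3 (.b 2 (.b 1 (.b 0 (.b 42 (.b 44 (.m 27 (.l 43)) (.l 44)) (.b 35 (.b 44 (.m 28 (.l 43)) (.l 44)) (.l 42))) (.l 45)) (.l 45)) (.l 45)) (.l 45)) (.l 45)) (.l 45)) (.l 45)) (.l 45)) (.l 45)) (.l 45)) (.l 45)) (.l 45)) (.l 45)) (.l 45))) (.b 14 (.b 13 (.b 12 (.b 11 (.b 10 (.b 9 (.b 8 (.b 7 (.b 6 (.b 5 (.b 4 (.b 3 (.b 2 (.b 1 (.b 0 (.b 42 (.b 39 (.b 43 (.m 27 (.l 44)) (.l 43)) (.l 39)) (.b 35 (.b 39 (.l 42) (.l 39)) (.l 42))) (.l 45)) (.l 45)) (.l 45)) (.l 45)) (.l 45)) (.l 45)) (.l 45)) (.l 45)) (.l 45)) (.l 45)) (.l 45)) (.l 45)) (.l 45)) (.l 45)) (.l 45))) (.b 15 (.b 14 (.b 13 (.b 12 (.b 11 (.b 10 (.b 9 (.b 8 (.b 7 (.b 6 (.b 5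 (.b 4 (.b 3 (.b 2 (.b 1 (.b 0 (.b 44 (.m 28 (.b 36 (.b 39 (.l 43) (.l 39)) (.b 32 (.b 42 (.l 43) (.l 42)) (.b 26 (.b 42 (.l 43) (.l 42)) (.l 43))))) (.b 37 (.b 33 (.b 39 (.l 44) (.l 39)) (.b 30 (.b 39 (.l 44) (.l 39)) (.l 44))) (.b 33 (.b 30 (.b 39 (.l 44) (.l 39)) (.l 44)) (.l 44)))) (.l 45)) (.l 45)) (.l 45)) (.l 45)) (.l 45)) (.l 45)) (.l 45)) (.l 45)) (.l 45)) (.l 45)) (.l 45)) (.l 45)) (.l 45)) (.l 45)) (.l 45)) (.l 45))) (.b 16 (.b 15 (.b 14 (.b 13 (.b 12 (.b 11 (.b 10 (.b 9 (.b 8 (.b 7 (.b 6 (.b 5 (.b 4 (.b 3 (.b 2 (.b 1 (.b 0 (.b 42 (.b 41 (.b 39 (.b 35 (.m 0 (.l 44)) (.l 35)) (.l 39)) (.b 30 (.b 39 (.b 35 (.m 0 (.l 44)) (.l 35)) (.l 39)) (.b 21 (.b 39 (.b 35 (.m 0 (.l 44)) (.l 35)) (.l 39)) (.l 41)))) (.b 35 (.b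 29 (.b 43 (.m 28 (.l 44)) (.l 43)) (.l 42)) (.l 42))) (.l 45)) (.l 45)) (.l 45)) (.l 45)) (.l 45)) (.l 45)) (.l 45)) (.l 45)) (.l 45)) (.l 45)) (.l 45)) (.l 45)) (.l 45)) (.l 45)) (.l 45)) (.l 45)) (.l 45))) (.b 17 (.b 16 (.b 15 (.b 14 (.b 13 (.b 12 (.b 11 (.b 10 (.b 9 (.b 8 (.b 7 (.b 6 (.b 5 (.b 4 (.b 3 (.b 2 (.b 1 (.b 0 (.b 44 (.m 28 (.b 36 (.b 39 (.l 43) (.l 39)) (.b 32 (.b 42 (.l 43) (.l 42)) (.b 26 (.b 42 (.l 43) (.l 42)) (.l 43))))) (.b 37 (.b 33 (.b 39 (.l 44) (.l 39)) (.b 30 (.b 39 (.l 44) (.l 39)) (.l 44))) (.b 33 (.b 30 (.b 39 (.l 44) (.l 39)) (.l 44)) (.l 44)))) (.l 45)) (.l 45)) (.l 45)) (.l 45)) (.l 45)) (.l 45)) (.l 45)) (.l 45)) (.l 45)) (.l 45)) (.l 45)) (.l 45)) (.l 45)) (.l 45)) (.l 45)) (.l 45)) (.l 45))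 (.l 45))) (.b 19 (.b 17 (.b 16 (.b 15 (.b 14 (.b 13 (.b 12 (.b 11 (.b 10 (.b 9 (.b 8 (.b 7 (.b 6 (.b 5 (.b 4 (.b 3 (.b 2 (.b 1 (.b 0 (.b 42 (.b 39 (.b 43 (.m 27 (.l 44)) (.l 43)) (.l 39)) (.b 35 (.b 39 (.l 42) (.l 39)) (.l 42))) (.l 45)) (.l 45)) (.l 45)) (.l 45)) (.l 45)) (.l 45)) (.l 45)) (.l 45)) (.l 45)) (.l 45)) (.l 45)) (.l 45)) (.l 45)) (.l 45)) (.l 45)) (.l 45)) (.l 45)) (.l 45)) (.l 45))) (.b 20 (.b 19 (.b 17 (.b 16 (.b 15 (.b 14 (.b 13 (.b 12 (.b 11 (.b 10 (.b 9 (.b 8 (.b 7 (.b 6 (.b 5 (.b 4 (.b 3 (.b 2 (.b 1 (.b 0 (.b 42 (.b 41 (.b 39 (.b 43 (.m 0 (.l 44)) (.l 43)) (.l 39)) (.b 30 (.b 39 (.b 43 (.m 0 (.l 44)) (.l 43)) (.l 39)) (.b 21 (.b 39 (.b 43 (.m 0 (.l 44)) (.l 43)) (.l 39)) (.l 41)))) (.b 35 (.b 29 (.b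 43 (.m 28 (.l 44)) (.l 43)) (.l 42)) (.l 42))) (.l 45)) (.l 45)) (.l 45)) (.l 45)) (.l 45)) (.l 45)) (.l 45)) (.l 45)) (.l 45)) (.l 45)) (.l 45)) (.l 45)) (.l 45)) (.l 45)) (.l 45)) (.l 45)) (.l 45)) (.l 45)) (.l 45)) (.l 45))) (.b 22 (.b 20 (.b 19 (.b 17 (.b 16 (.b 15 (.b 14 (.b 13 (.b 12 (.b 11 (.b 10 (.b 9 (.b 8 (.b 7 (.b 6 (.b 5 (.b 4 (.b 3 (.b 2 (.b 1 (.b 0 (.b 44 (.m 28 (.b 36 (.b 39 (.l 43) (.l 39)) (.b 32 (.b 42 (.l 43) (.l 42)) (.b 26 (.b 42 (.l 43) (.l 42)) (.l 43))))) (.b 37 (.b 33 (.b 39 (.l 44) (.l 39)) (.b 30 (.b 39 (.l 44) (.l 39)) (.l 44))) (.b 33 (.b 30 (.b 39 (.l 44) (.l 39)) (.l 44)) (.l 44)))) (.l 45)) (.l 45)) (.l 45)) (.l 45)) (.l 45)) (.l 45)) (.l 45)) (.l 45)) (.l 45)) (.l 45)) (.l 45)) (.l 45))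 (.l 45)) (.l 45)) (.l 45)) (.l 45)) (.l 45)) (.l 45)) (.l 45)) (.l 45)) (.l 45))) (.b 24 (.b 22 (.b 20 (.b 19 (.b 17 (.b 16 (.b 15 (.b 14 (.b 13 (.b 12 (.b 11 (.b 10 (.b 9 (.b 8 (.b 7 (.b 6 (.b 5 (.b 4 (.b 3 (.b 2 (.b 1 (.b 0 (.b 42 (.b 35 (.b 39 (.b 43 (.m 0 (.l 44)) (.l 43)) (.l 39)) (.b 29 (.b 43 (.m 27 (.l 44)) (.l 43)) (.b 23 (.b 44 (.m 27 (.l 43)) (.l 44)) (.l 35)))) (.b 35 (.b 29 (.b 43 (.m 28 (.l 44)) (.l 43)) (.l 42)) (.l 42))) (.l 45)) (.l 45)) (.l 45)) (.l 45)) (.l 45)) (.l 45)) (.l 45)) (.l 45)) (.l 45)) (.l 45)) (.l 45)) (.l 45)) (.l 45)) (.l 45)) (.l 45)) (.l 45)) (.l 45)) (.l 45)) (.l 45)) (.l 45)) (.l 45)) (.l 45))) (.b 25 (.b 24 (.b 22 (.b 20 (.b 19 (.b 17 (.b 16 (.b 15 (.b 14 (.b 13 (.b 12 (.b 11 (.b 10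 (.b 9 (.b 8 (.b 7 (.b 6 (.b 5 (.b 4 (.b 3 (.b 2 (.b 1 (.b 0 (.b 42 (.b 41 (.b 39 (.b 43 (.m 0 (.l 44)) (.l 43)) (.l 39)) (.b 30 (.b 39 (.b 43 (.m 0 (.l 44)) (.l 43)) (.l 39)) (.b 21 (.b 39 (.b 43 (.m 0 (.l 44)) (.l 43)) (.l 39)) (.l 41)))) (.b 35 (.b 29 (.b 43 (.m 28 (.l 44)) (.l 43)) (.b 23 (.b 44 (.m 28 (.l 43)) (.l 44)) (.l 42))) (.b 29 (.b 23 (.b 44 (.m 28 (.l 43)) (.l 44)) (.l 42)) (.l 42)))) (.l 45)) (.l 45)) (.l 45)) (.l 45)) (.l 45)) (.l 45)) (.l 45)) (.l 45)) (.l 45)) (.l 45)) (.l 45)) (.l 45)) (.l 45)) (.l 45)) (.l 45)) (.l 45)) (.l 45)) (.l 45)) (.l 45)) (.l 45)) (.l 45)) (.l 45)) (.l 45)))) (.b 31 (.b 28 (.b 25 (.b 24 (.b 22 (.b 20 (.b 19 (.b 17 (.b 16 (.b 15 (.b 14 (.b 13 (.b 12 (.b 11 (.b 10 (.b 9 (.b 8 (.b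 7 (.b 6 (.b 5 (.b 4 (.b 3 (.b 2 (.b 1 (.b 41 (.b 39 (.b 42 (.b 32 (.m 0 (.l 44)) (.l 32)) (.l 42)) (.l 39)) (.b 30 (.b 39 (.b 42 (.b 32 (.m 0 (.l 44)) (.l 32)) (.l 42)) (.l 39)) (.b 21 (.b 39 (.b 42 (.b 32 (.m 0 (.l 44)) (.l 32)) (.l 42)) (.l 39)) (.l 41)))) (.b 0 (.b 41 (.b 39 (.b 42 (.b 32 (.m 0 (.l 44)) (.l 32)) (.l 42)) (.l 39)) (.b 30 (.b 39 (.b 42 (.b 32 (.m 0 (.l 44)) (.l 32)) (.l 42)) (.l 39)) (.l 41))) (.l 45))) (.b 1 (.b 0 (.b 41 (.b 39 (.b 42 (.b 32 (.m 0 (.l 44)) (.l 32)) (.l 42)) (.l 39)) (.b 30 (.b 39 (.b 42 (.b 32 (.m 0 (.l 44)) (.l 32)) (.l 42)) (.l 39)) (.l 41))) (.l 45)) (.l 45))) (.b 2 (.b 1 (.b 0 (.b 41 (.b 39 (.b 42 (.b 35 (.m 0 (.l 44)) (.l 35)) (.l 42)) (.l 39)) (.b 30 (.b 39 (.b 42 (.b 35 (.m 0 (.l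 44)) (.l 35)) (.l 42)) (.l 39)) (.l 41))) (.l 45)) (.l 45)) (.l 45))) (.b 3 (.b 2 (.b 1 (.b 0 (.b 41 (.b 39 (.b 42 (.b 32 (.m 0 (.l 44)) (.l 32)) (.l 42)) (.l 39)) (.b 30 (.b 39 (.b 42 (.b 32 (.m 0 (.l 44)) (.l 32)) (.l 42)) (.l 39)) (.l 41))) (.l 45)) (.l 45)) (.l 45)) (.l 45))) (.b 4 (.b 3 (.b 2 (.b 1 (.b 0 (.b 41 (.b 44 (.m 28 (.l 43)) (.l 44)) (.b 30 (.b 21 (.b 39 (.b 35 (.m 0 (.l 44)) (.l 35)) (.l 39)) (.l 41)) (.l 41))) (.l 45)) (.l 45)) (.l 45)) (.l 45)) (.l 45))) (.b 5 (.b 4 (.b 3 (.b 2 (.b 1 (.b 0 (.b 41 (.b 39 (.b 42 (.b 32 (.m 0 (.l 44)) (.l 32)) (.l 42)) (.l 39)) (.b 30 (.b 39 (.b 42 (.b 32 (.m 0 (.l 44)) (.l 32)) (.l 42)) (.l 39)) (.l 41))) (.l 45)) (.l 45)) (.l 45)) (.l 45)) (.l 45)) (.l 45))) (.b 6 (.b 5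 (.b 4 (.b 3 (.b 2 (.b 1 (.b 0 (.b 41 (.b 39 (.b 42 (.b 35 (.m 0 (.l 44)) (.l 35)) (.l 42)) (.l 39)) (.b 30 (.b 39 (.b 42 (.b 35 (.m 0 (.l 44)) (.l 35)) (.l 42)) (.l 39)) (.l 41))) (.l 45)) (.l 45)) (.l 45)) (.l 45)) (.l 45)) (.l 45)) (.l 45))) (.b 7 (.b 6 (.b 5 (.b 4 (.b 3 (.b 2 (.b 1 (.b 0 (.b 41 (.b 44 (.m 28 (.l 43)) (.l 44)) (.b 30 (.b 21 (.b 39 (.b 42 (.m 0 (.l 44)) (.l 42)) (.l 39)) (.l 41)) (.l 41))) (.l 45)) (.l 45)) (.l 45)) (.l 45)) (.l 45)) (.l 45)) (.l 45)) (.l 45))) (.b 8 (.b 7 (.b 6 (.b 5 (.b 4 (.b 3 (.b 2 (.b 1 (.b 0 (.b 41 (.b 39 (.b 42 (.b 32 (.m 0 (.l 44)) (.l 32)) (.l 42)) (.l 39)) (.b 30 (.b 39 (.b 42 (.b 32 (.m 0 (.l 44)) (.l 32)) (.l 42)) (.l 39)) (.l 41))) (.l 45)) (.l 45)) (.l 45)) (.l 45)) (.l 45))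 (.l 45)) (.l 45)) (.l 45)) (.l 45))) (.b 9 (.b 8 (.b 7 (.b 6 (.b 5 (.b 4 (.b 3 (.b 2 (.b 1 (.b 0 (.b 41 (.b 44 (.m 28 (.l 43)) (.l 44)) (.b 30 (.b 21 (.b 39 (.b 35 (.m 0 (.l 44)) (.l 35)) (.l 39)) (.l 41)) (.l 41))) (.l 45)) (.l 45)) (.l 45)) (.l 45)) (.l 45)) (.l 45)) (.l 45)) (.l 45)) (.l 45)) (.l 45))) (.b 10 (.b 9 (.b 8 (.b 7 (.b 6 (.b 5 (.b 4 (.b 3 (.b 2 (.b 1 (.b 0 (.b 43 (.m 28 (.b 39 (.l 44) (.l 39))) (.b 36 (.b 39 (.l 43) (.l 39)) (.b 32 (.b 26 (.b 42 (.l 43) (.l 42)) (.l 43)) (.l 43)))) (.l 45)) (.l 45)) (.l 45)) (.l 45)) (.l 45)) (.l 45)) (.l 45)) (.l 45)) (.l 45)) (.l 45)) (.l 45))) (.b 11 (.b 10 (.b 9 (.b 8 (.b 7 (.b 6 (.b 5 (.b 4 (.b 3 (.b 2 (.b 1 (.b 0 (.b 41 (.b 44 (.m 28 (.l 43)) (.l 44)) (.b 30 (.b 21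 (.b 39 (.b 42 (.m 0 (.l 44)) (.l 42)) (.l 39)) (.l 41)) (.l 41))) (.l 45)) (.l 45)) (.l 45)) (.l 45)) (.l 45)) (.l 45)) (.l 45)) (.l 45)) (.l 45)) (.l 45)) (.l 45)) (.l 45))) (.b 12 (.b 11 (.b 10 (.b 9 (.b 8 (.b 7 (.b 6 (.b 5 (.b 4 (.b 3 (.b 2 (.b 1 (.b 0 (.b 41 (.b 39 (.b 42 (.b 35 (.m 0 (.l 44)) (.l 35)) (.l 42)) (.l 39)) (.b 30 (.b 39 (.b 42 (.b 35 (.m 0 (.l 44)) (.l 35)) (.l 42)) (.l 39)) (.l 41))) (.l 45)) (.l 45)) (.l 45)) (.l 45)) (.l 45)) (.l 45)) (.l 45)) (.l 45)) (.l 45)) (.l 45)) (.l 45)) (.l 45)) (.l 45))) (.b 13 (.b 12 (.b 11 (.b 10 (.b 9 (.b 8 (.b 7 (.b 6 (.b 5 (.b 4 (.b 3 (.b 2 (.b 1 (.b 0 (.b 41 (.b 44 (.m 28 (.l 43)) (.l 44)) (.b 30 (.b 21 (.b 39 (.b 42 (.m 0 (.l 44)) (.l 42)) (.l 39)) (.l 41)) (.l 41)))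 (.l 45)) (.l 45)) (.l 45)) (.l 45)) (.l 45)) (.l 45)) (.l 45)) (.l 45)) (.l 45)) (.l 45)) (.l 45)) (.l 45)) (.l 45)) (.l 45))) (.b 14 (.b 13 (.b 12 (.b 11 (.b 10 (.b 9 (.b 8 (.b 7 (.b 6 (.b 5 (.b 4 (.b 3 (.b 2 (.b 1 (.b 0 (.b 43 (.m 28 (.b 39 (.l 44) (.l 39))) (.b 36 (.b 39 (.l 43) (.l 39)) (.b 32 (.b 26 (.b 42 (.l 43) (.l 42)) (.l 43)) (.l 43)))) (.l 45)) (.l 45)) (.l 45)) (.l 45)) (.l 45)) (.l 45)) (.l 45)) (.l 45)) (.l 45)) (.l 45)) (.l 45)) (.l 45)) (.l 45)) (.l 45)) (.l 45))) (.b 15 (.b 14 (.b 13 (.b 12 (.b 11 (.b 10 (.b 9 (.b 8 (.b 7 (.b 6 (.b 5 (.b 4 (.b 3 (.b 2 (.b 1 (.b 0 (.b 41 (.b 44 (.m 28 (.l 43)) (.l 44)) (.b 30 (.b 21 (.b 39 (.b 42 (.m 0 (.l 44)) (.l 42)) (.l 39)) (.l 41)) (.l 41))) (.l 45)) (.l 45)) (.l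 45)) (.l 45)) (.l 45)) (.l 45)) (.l 45)) (.l 45)) (.l 45)) (.l 45)) (.l 45)) (.l 45)) (.l 45)) (.l 45)) (.l 45)) (.l 45))) (.b 16 (.b 15 (.b 14 (.b 13 (.b 12 (.b 11 (.b 10 (.b 9 (.b 8 (.b 7 (.b 6 (.b 5 (.b 4 (.b 3 (.b 2 (.b 1 (.b 0 (.b 41 (.b 42 (.b 39 (.b 35 (.m 0 (.l 44)) (.l 35)) (.l 39)) (.b 35 (.b 39 (.l 42) (.l 39)) (.b 29 (.b 43 (.m 28 (.l 44)) (.l 43)) (.l 42)))) (.b 30 (.b 21 (.b 39 (.b 35 (.m 0 (.l 44)) (.l 35)) (.l 39)) (.l 41)) (.l 41))) (.l 45)) (.l 45)) (.l 45)) (.l 45)) (.l 45)) (.l 45)) (.l 45)) (.l 45)) (.l 45)) (.l 45)) (.l 45)) (.l 45)) (.l 45)) (.l 45)) (.l 45)) (.l 45)) (.l 45))) (.b 17 (.b 16 (.b 15 (.b 14 (.b 13 (.b 12 (.b 11 (.b 10 (.b 9 (.b 8 (.b 7 (.b 6 (.b 5 (.b 4 (.b 3 (.b 2 (.b 1 (.b 0 (.b 41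 (.b 44 (.m 28 (.l 43)) (.l 44)) (.b 30 (.b 21 (.b 39 (.b 42 (.m 0 (.l 44)) (.l 42)) (.l 39)) (.l 41)) (.l 41))) (.l 45)) (.l 45)) (.l 45)) (.l 45)) (.l 45)) (.l 45)) (.l 45)) (.l 45)) (.l 45)) (.l 45)) (.l 45)) (.l 45)) (.l 45)) (.l 45)) (.l 45)) (.l 45)) (.l 45)) (.l 45))) (.b 19 (.b 17 (.b 16 (.b 15 (.b 14 (.b 13 (.b 12 (.b 11 (.b 10 (.b 9 (.b 8 (.b 7 (.b 6 (.b 5 (.b 4 (.b 3 (.b 2 (.b 1 (.b 0 (.b 42 (.b 39 (.b 43 (.m 27 (.l 44)) (.l 43)) (.l 39)) (.b 35 (.b 39 (.b 43 (.m 28 (.l 44)) (.l 43)) (.l 39)) (.b 29 (.b 23 (.b 44 (.m 28 (.l 43)) (.l 44)) (.l 42)) (.l 42)))) (.l 45)) (.l 45)) (.l 45)) (.l 45)) (.l 45)) (.l 45)) (.l 45)) (.l 45)) (.l 45)) (.l 45)) (.l 45)) (.l 45)) (.l 45)) (.l 45)) (.l 45)) (.l 45)) (.l 45)) (.l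 45)) (.l 45))) (.b 20 (.b 19 (.b 17 (.b 16 (.b 15 (.b 14 (.b 13 (.b 12 (.b 11 (.b 10 (.b 9 (.b 8 (.b 7 (.b 6 (.b 5 (.b 4 (.b 3 (.b 2 (.b 1 (.b 0 (.b 41 (.b 42 (.b 39 (.b 43 (.m 0 (.l 44)) (.l 43)) (.l 39)) (.b 35 (.b 39 (.l 42) (.l 39)) (.b 29 (.b 43 (.m 28 (.l 44)) (.l 43)) (.l 42)))) (.b 30 (.b 21 (.b 39 (.b 42 (.m 0 (.l 44)) (.l 42)) (.l 39)) (.l 41)) (.l 41))) (.l 45)) (.l 45)) (.l 45)) (.l 45)) (.l 45)) (.l 45)) (.l 45)) (.l 45)) (.l 45)) (.l 45)) (.l 45)) (.l 45)) (.l 45)) (.l 45)) (.l 45)) (.l 45)) (.l 45)) (.l 45)) (.l 45)) (.l 45))) (.b 22 (.b 20 (.b 19 (.b 17 (.b 16 (.b 15 (.b 14 (.b 13 (.b 12 (.b 11 (.b 10 (.b 9 (.b 8 (.b 7 (.b 6 (.b 5 (.b 4 (.b 3 (.b 2 (.b 1 (.b 0 (.b 41 (.b 44 (.m 28 (.l 43)) (.l 44)) (.b 30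 (.b 21 (.b 39 (.b 42 (.m 0 (.l 44)) (.l 42)) (.l 39)) (.l 41)) (.l 41))) (.l 45)) (.l 45)) (.l 45)) (.l 45)) (.l 45)) (.l 45)) (.l 45)) (.l 45)) (.l 45)) (.l 45)) (.l 45)) (.l 45)) (.l 45)) (.l 45)) (.l 45)) (.l 45)) (.l 45)) (.l 45)) (.l 45)) (.l 45)) (.l 45))) (.b 24 (.b 22 (.b 20 (.b 19 (.b 17 (.b 16 (.b 15 (.b 14 (.b 13 (.b 12 (.b 11 (.b 10 (.b 9 (.b 8 (.b 7 (.b 6 (.b 5 (.b 4 (.b 3 (.b 2 (.b 1 (.b 0 (.b 42 (.b 41 (.b 39 (.b 35 (.m 0 (.l 44)) (.l 35)) (.l 39)) (.b 30 (.b 39 (.b 35 (.m 0 (.l 44)) (.l 35)) (.l 39)) (.b 21 (.b 39 (.b 35 (.m 0 (.l 44)) (.l 35)) (.l 39)) (.l 41)))) (.b 35 (.b 29 (.b 43 (.m 28 (.l 44)) (.l 43)) (.b 23 (.b 44 (.m 28 (.l 43)) (.l 44)) (.l 42))) (.b 29 (.b 23 (.b 44 (.m 28 (.l 43)) (.l 44)) (.l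 42)) (.l 42)))) (.l 45)) (.l 45)) (.l 45)) (.l 45)) (.l 45)) (.l 45)) (.l 45)) (.l 45)) (.l 45)) (.l 45)) (.l 45)) (.l 45)) (.l 45)) (.l 45)) (.l 45)) (.l 45)) (.l 45)) (.l 45)) (.l 45)) (.l 45)) (.l 45)) (.l 45))) (.b 25 (.b 24 (.b 22 (.b 20 (.b 19 (.b 17 (.b 16 (.b 15 (.b 14 (.b 13 (.b 12 (.b 11 (.b 10 (.b 9 (.b 8 (.b 7 (.b 6 (.b 5 (.b 4 (.b 3 (.b 2 (.b 1 (.b 0 (.b 41 (.b 44 (.m 28 (.l 43)) (.b 37 (.b 39 (.l 44) (.l 39)) (.b 33 (.b 39 (.l 44) (.l 39)) (.b 30 (.b 39 (.l 44) (.l 39)) (.l 44))))) (.b 30 (.b 21 (.b 39 (.b 42 (.m 0 (.l 44)) (.l 42)) (.l 39)) (.l 41)) (.l 41))) (.l 45)) (.l 45)) (.l 45)) (.l 45)) (.l 45)) (.l 45)) (.l 45)) (.l 45)) (.l 45)) (.l 45)) (.l 45)) (.l 45)) (.l 45)) (.l 45)) (.l 45)) (.l 45)) (.l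 45)) (.l 45)) (.l 45)) (.l 45)) (.l 45)) (.l 45)) (.l 45))) (.b 28 (.b 25 (.b 24 (.b 22 (.b 20 (.b 19 (.b 17 (.b 16 (.b 15 (.b 14 (.b 13 (.b 12 (.b 11 (.b 10 (.b 9 (.b 8 (.b 7 (.b 6 (.b 5 (.b 4 (.b 3 (.b 2 (.b 1 (.b 0 (.b 42 (.b 41 (.b 39 (.b 43 (.m 0 (.l 44)) (.l 43)) (.l 39)) (.b 30 (.b 39 (.b 43 (.m 0 (.l 44)) (.l 43)) (.l 39)) (.b 21 (.b 39 (.b 43 (.m 0 (.l 44)) (.l 43)) (.l 39)) (.l 41)))) (.b 35 (.b 29 (.b 43 (.m 28 (.l 44)) (.l 43)) (.b 23 (.b 44 (.m 28 (.l 43)) (.l 44)) (.l 42))) (.b 29 (.b 23 (.b 44 (.m 28 (.l 43)) (.l 44)) (.l 42)) (.l 42)))) (.l 45)) (.l 45)) (.l 45)) (.l 45)) (.l 45)) (.l 45)) (.l 45)) (.l 45)) (.l 45)) (.l 45)) (.l 45)) (.l 45)) (.l 45)) (.l 45)) (.l 45)) (.l 45)) (.l 45)) (.l 45)) (.l 45))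 (.l 45)) (.l 45)) (.l 45)) (.l 45)) (.l 45)))) (.b 34 (.b 31 (.b 28 (.b 25 (.b 24 (.b 22 (.b 20 (.b 19 (.b 17 (.b 16 (.b 15 (.b 14 (.b 13 (.b 12 (.b 11 (.b 10 (.b 9 (.b 8 (.b 7 (.b 6 (.b 5 (.b 4 (.b 3 (.b 2 (.b 1 (.b 44 (.m 28 (.l 43)) (.b 37 (.b 39 (.l 44) (.l 39)) (.b 33 (.b 39 (.l 44) (.l 39)) (.b 30 (.b 39 (.l 44) (.l 39)) (.l 44))))) (.b 0 (.b 44 (.m 28 (.l 43)) (.b 37 (.b 39 (.l 44) (.l 39)) (.b 33 (.b 39 (.l 44) (.l 39)) (.l 44)))) (.l 45))) (.b 1 (.b 0 (.b 44 (.m 28 (.l 43)) (.b 37 (.b 39 (.l 44) (.l 39)) (.b 33 (.b 39 (.l 44) (.l 39)) (.l 44)))) (.l 45)) (.l 45))) (.b 2 (.b 1 (.b 0 (.b 44 (.m 28 (.b 39 (.l 43) (.l 39))) (.b 37 (.b 39 (.l 44) (.l 39)) (.b 33 (.b 39 (.l 44) (.l 39)) (.l 44)))) (.l 45)) (.l 45)) (.l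 45))) (.b 3 (.b 2 (.b 1 (.b 0 (.b 44 (.m 28 (.l 43)) (.b 37 (.b 39 (.l 44) (.l 39)) (.b 33 (.b 39 (.l 44) (.l 39)) (.l 44)))) (.l 45)) (.l 45)) (.l 45)) (.l 45))) (.b 4 (.b 3 (.b 2 (.b 1 (.b 0 (.b 44 (.m 28 (.b 36 (.b 39 (.l 43) (.l 39)) (.b 32 (.b 42 (.l 43) (.l 42)) (.b 26 (.b 42 (.l 43) (.l 42)) (.l 43))))) (.b 37 (.b 33 (.b 39 (.l 44) (.l 39)) (.b 30 (.b 39 (.l 44) (.l 39)) (.l 44))) (.b 33 (.b 30 (.b 39 (.l 44) (.l 39)) (.l 44)) (.l 44)))) (.l 45)) (.l 45)) (.l 45)) (.l 45)) (.l 45))) (.b 5 (.b 4 (.b 3 (.b 2 (.b 1 (.b 0 (.b 43 (.m 28 (.b 39 (.l 44) (.l 39))) (.b 36 (.b 39 (.l 43) (.l 39)) (.b 32 (.b 26 (.b 42 (.l 43) (.l 42)) (.l 43)) (.l 43)))) (.l 45)) (.l 45)) (.l 45)) (.l 45)) (.l 45)) (.l 45))) (.b 6 (.b 5 (.b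 4 (.b 3 (.b 2 (.b 1 (.b 0 (.b 44 (.m 28 (.b 39 (.l 43) (.l 39))) (.b 37 (.b 39 (.l 44) (.l 39)) (.b 33 (.b 39 (.l 44) (.l 39)) (.l 44)))) (.l 45)) (.l 45)) (.l 45)) (.l 45)) (.l 45)) (.l 45)) (.l 45))) (.b 7 (.b 6 (.b 5 (.b 4 (.b 3 (.b 2 (.b 1 (.b 0 (.b 44 (.m 28 (.b 36 (.b 39 (.l 43) (.l 39)) (.b 32 (.b 42 (.l 43) (.l 42)) (.b 26 (.b 42 (.l 43) (.l 42)) (.l 43))))) (.b 37 (.b 33 (.b 39 (.l 44) (.l 39)) (.b 30 (.b 39 (.l 44) (.l 39)) (.l 44))) (.b 33 (.b 30 (.b 39 (.l 44) (.l 39)) (.l 44)) (.l 44)))) (.l 45)) (.l 45)) (.l 45)) (.l 45)) (.l 45)) (.l 45)) (.l 45)) (.l 45))) (.b 8 (.b 7 (.b 6 (.b 5 (.b 4 (.b 3 (.b 2 (.b 1 (.b 0 (.b 43 (.m 28 (.b 39 (.l 44) (.l 39))) (.b 36 (.b 39 (.l 43) (.l 39)) (.b 32 (.b 26 (.b 42 (.l 43)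 (.l 42)) (.l 43)) (.l 43)))) (.l 45)) (.l 45)) (.l 45)) (.l 45)) (.l 45)) (.l 45)) (.l 45)) (.l 45)) (.l 45))) (.b 9 (.b 8 (.b 7 (.b 6 (.b 5 (.b 4 (.b 3 (.b 2 (.b 1 (.b 0 (.b 44 (.m 28 (.b 36 (.b 39 (.l 43) (.l 39)) (.b 32 (.b 42 (.l 43) (.l 42)) (.b 26 (.b 42 (.l 43) (.l 42)) (.l 43))))) (.b 37 (.b 33 (.b 39 (.l 44) (.l 39)) (.b 30 (.b 39 (.l 44) (.l 39)) (.l 44))) (.b 33 (.b 30 (.b 39 (.l 44) (.l 39)) (.l 44)) (.l 44)))) (.l 45)) (.l 45)) (.l 45)) (.l 45)) (.l 45)) (.l 45)) (.l 45)) (.l 45)) (.l 45)) (.l 45))) (.b 10 (.b 9 (.b 8 (.b 7 (.b 6 (.b 5 (.b 4 (.b 3 (.b 2 (.b 1 (.b 0 (.b 43 (.m 28 (.b 39 (.l 44) (.l 39))) (.b 36 (.b 39 (.l 43) (.l 39)) (.b 32 (.b 26 (.b 42 (.l 43) (.l 42)) (.l 43)) (.l 43)))) (.l 45)) (.l 45))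 (.l 45)) (.l 45)) (.l 45)) (.l 45)) (.l 45)) (.l 45)) (.l 45)) (.l 45)) (.l 45))) (.b 11 (.b 10 (.b 9 (.b 8 (.b 7 (.b 6 (.b 5 (.b 4 (.b 3 (.b 2 (.b 1 (.b 0 (.b 44 (.m 28 (.b 36 (.b 39 (.l 43) (.l 39)) (.b 32 (.b 26 (.b 37 (.m 0 (.l 43)) (.l 37)) (.b 23 (.b 37 (.m 0 (.l 43)) (.l 37)) (.l 43))) (.b 26 (.b 23 (.b 37 (.m 0 (.l 43)) (.l 37)) (.l 43)) (.l 43))))) (.b 37 (.b 33 (.b 39 (.l 44) (.l 39)) (.b 30 (.b 39 (.l 44) (.l 39)) (.l 44))) (.b 33 (.b 30 (.b 39 (.l 44) (.l 39)) (.l 44)) (.l 44)))) (.l 45)) (.l 45)) (.l 45)) (.l 45)) (.l 45)) (.l 45)) (.l 45)) (.l 45)) (.l 45)) (.l 45)) (.l 45)) (.l 45))) (.b 12 (.b 11 (.b 10 (.b 9 (.b 8 (.b 7 (.b 6 (.b 5 (.b 4 (.b 3 (.b 2 (.b 1 (.b 0 (.b 42 (.b 39 (.b 43 (.m 27 (.l 44)) (.l 43))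 (.l 39)) (.b 35 (.b 39 (.b 43 (.m 28 (.l 44)) (.l 43)) (.l 39)) (.b 29 (.b 23 (.b 44 (.m 28 (.l 43)) (.l 44)) (.l 42)) (.l 42)))) (.l 45)) (.l 45)) (.l 45)) (.l 45)) (.l 45)) (.l 45)) (.l 45)) (.l 45)) (.l 45)) (.l 45)) (.l 45)) (.l 45)) (.l 45))) (.b 13 (.b 12 (.b 11 (.b 10 (.b 9 (.b 8 (.b 7 (.b 6 (.b 5 (.b 4 (.b 3 (.b 2 (.b 1 (.b 0 (.b 44 (.m 28 (.b 36 (.b 39 (.l 43) (.l 39)) (.b 32 (.b 42 (.l 43) (.l 42)) (.b 26 (.b 42 (.l 43) (.l 42)) (.l 43))))) (.b 37 (.b 33 (.b 39 (.l 44) (.l 39)) (.b 30 (.b 39 (.l 44) (.l 39)) (.l 44))) (.b 33 (.b 30 (.b 39 (.l 44) (.l 39)) (.l 44)) (.l 44)))) (.l 45)) (.l 45)) (.l 45)) (.l 45)) (.l 45)) (.l 45)) (.l 45)) (.l 45)) (.l 45)) (.l 45)) (.l 45)) (.l 45)) (.l 45)) (.l 45))) (.b 14 (.b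 13 (.b 12 (.b 11 (.b 10 (.b 9 (.b 8 (.b 7 (.b 6 (.b 5 (.b 4 (.b 3 (.b 2 (.b 1 (.b 0 (.b 43 (.m 28 (.b 39 (.l 44) (.l 39))) (.b 36 (.b 39 (.l 43) (.l 39)) (.b 32 (.b 26 (.b 42 (.l 43) (.l 42)) (.l 43)) (.l 43)))) (.l 45)) (.l 45)) (.l 45)) (.l 45)) (.l 45)) (.l 45)) (.l 45)) (.l 45)) (.l 45)) (.l 45)) (.l 45)) (.l 45)) (.l 45)) (.l 45)) (.l 45))) (.b 15 (.b 14 (.b 13 (.b 12 (.b 11 (.b 10 (.b 9 (.b 8 (.b 7 (.b 6 (.b 5 (.b 4 (.b 3 (.b 2 (.b 1 (.b 0 (.b 44 (.m 28 (.b 36 (.b 39 (.l 43) (.l 39)) (.b 32 (.b 26 (.b 37 (.m 0 (.l 43)) (.l 37)) (.b 23 (.b 37 (.m 0 (.l 43)) (.l 37)) (.l 43))) (.b 26 (.b 23 (.b 37 (.m 0 (.l 43)) (.l 37)) (.l 43)) (.l 43))))) (.b 37 (.b 33 (.b 39 (.l 44) (.l 39)) (.b 30 (.b 39 (.l 44) (.l 39)) (.l 44)))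 (.b 33 (.b 30 (.b 39 (.l 44) (.l 39)) (.l 44)) (.l 44)))) (.l 45)) (.l 45)) (.l 45)) (.l 45)) (.l 45)) (.l 45)) (.l 45)) (.l 45)) (.l 45)) (.l 45)) (.l 45)) (.l 45)) (.l 45)) (.l 45)) (.l 45)) (.l 45))) (.b 16 (.b 15 (.b 14 (.b 13 (.b 12 (.b 11 (.b 10 (.b 9 (.b 8 (.b 7 (.b 6 (.b 5 (.b 4 (.b 3 (.b 2 (.b 1 (.b 0 (.b 42 (.b 41 (.b 39 (.b 35 (.m 0 (.l 44)) (.l 35)) (.l 39)) (.b 30 (.b 39 (.b 35 (.m 0 (.l 44)) (.l 35)) (.l 39)) (.b 21 (.b 39 (.b 35 (.m 0 (.l 44)) (.l 35)) (.l 39)) (.l 41)))) (.b 35 (.b 29 (.b 43 (.m 28 (.l 44)) (.l 43)) (.b 23 (.b 44 (.m 28 (.l 43)) (.l 44)) (.l 42))) (.b 29 (.b 23 (.b 44 (.m 28 (.l 43)) (.l 44)) (.l 42)) (.l 42)))) (.l 45)) (.l 45)) (.l 45)) (.l 45)) (.l 45)) (.l 45)) (.l 45)) (.l 45)) (.l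 45)) (.l 45)) (.l 45)) (.l 45)) (.l 45)) (.l 45)) (.l 45)) (.l 45)) (.l 45))) (.b 17 (.b 16 (.b 15 (.b 14 (.b 13 (.b 12 (.b 11 (.b 10 (.b 9 (.b 8 (.b 7 (.b 6 (.b 5 (.b 4 (.b 3 (.b 2 (.b 1 (.b 0 (.b 44 (.m 28 (.b 36 (.b 39 (.l 43) (.l 39)) (.b 32 (.b 26 (.b 37 (.m 0 (.l 43)) (.l 37)) (.b 23 (.b 37 (.m 0 (.l 43)) (.l 37)) (.l 43))) (.b 26 (.b 23 (.b 37 (.m 0 (.l 43)) (.l 37)) (.l 43)) (.l 43))))) (.b 37 (.b 33 (.b 39 (.l 44) (.l 39)) (.b 30 (.b 39 (.l 44) (.l 39)) (.l 44))) (.b 33 (.b 30 (.b 39 (.l 44) (.l 39)) (.l 44)) (.l 44)))) (.l 45)) (.l 45)) (.l 45)) (.l 45)) (.l 45)) (.l 45)) (.l 45)) (.l 45)) (.l 45)) (.l 45)) (.l 45)) (.l 45)) (.l 45)) (.l 45)) (.l 45)) (.l 45)) (.l 45)) (.l 45))) (.b 19 (.b 17 (.b 16 (.b 15 (.b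 14 (.b 13 (.b 12 (.b 11 (.b 10 (.b 9 (.b 8 (.b 7 (.b 6 (.b 5 (.b 4 (.b 3 (.b 2 (.b 1 (.b 0 (.b 42 (.b 39 (.b 43 (.m 27 (.l 44)) (.l 43)) (.l 39)) (.b 35 (.b 39 (.b 43 (.m 28 (.l 44)) (.l 43)) (.l 39)) (.b 29 (.b 23 (.b 44 (.m 28 (.l 43)) (.l 44)) (.l 42)) (.l 42)))) (.l 45)) (.l 45)) (.l 45)) (.l 45)) (.l 45)) (.l 45)) (.l 45)) (.l 45)) (.l 45)) (.l 45)) (.l 45)) (.l 45)) (.l 45)) (.l 45)) (.l 45)) (.l 45)) (.l 45)) (.l 45)) (.l 45))) (.b 20 (.b 19 (.b 17 (.b 16 (.b 15 (.b 14 (.b 13 (.b 12 (.b 11 (.b 10 (.b 9 (.b 8 (.b 7 (.b 6 (.b 5 (.b 4 (.b 3 (.b 2 (.b 1 (.b 0 (.b 42 (.b 41 (.b 39 (.b 43 (.m 0 (.l 44)) (.l 43)) (.l 39)) (.b 30 (.b 39 (.b 43 (.m 0 (.l 44)) (.l 43)) (.l 39)) (.b 21 (.b 39 (.b 43 (.m 0 (.l 44)) (.l 43))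 (.l 39)) (.l 41)))) (.b 35 (.b 29 (.b 43 (.m 28 (.l 44)) (.l 43)) (.b 23 (.b 44 (.m 28 (.l 43)) (.l 44)) (.l 42))) (.b 29 (.b 23 (.b 44 (.m 28 (.l 43)) (.l 44)) (.l 42)) (.l 42)))) (.l 45)) (.l 45)) (.l 45)) (.l 45)) (.l 45)) (.l 45)) (.l 45)) (.l 45)) (.l 45)) (.l 45)) (.l 45)) (.l 45)) (.l 45)) (.l 45)) (.l 45)) (.l 45)) (.l 45)) (.l 45)) (.l 45)) (.l 45))) (.b 22 (.b 20 (.b 19 (.b 17 (.b 16 (.b 15 (.b 14 (.b 13 (.b 12 (.b 11 (.b 10 (.b 9 (.b 8 (.b 7 (.b 6 (.b 5 (.b 4 (.b 3 (.b 2 (.b 1 (.b 0 (.b 44 (.m 28 (.b 36 (.b 39 (.l 43) (.l 39)) (.b 32 (.b 26 (.b 37 (.m 0 (.l 43)) (.l 37)) (.b 23 (.b 37 (.m 0 (.l 43)) (.l 37)) (.l 43))) (.b 26 (.b 23 (.b 37 (.m 0 (.l 43)) (.l 37)) (.l 43)) (.l 43))))) (.b 37 (.b 33 (.b 39 (.l 44)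 (.l 39)) (.b 30 (.b 39 (.l 44) (.l 39)) (.l 44))) (.b 33 (.b 30 (.b 39 (.l 44) (.l 39)) (.l 44)) (.l 44)))) (.l 45)) (.l 45)) (.l 45)) (.l 45)) (.l 45)) (.l 45)) (.l 45)) (.l 45)) (.l 45)) (.l 45)) (.l 45)) (.l 45)) (.l 45)) (.l 45)) (.l 45)) (.l 45)) (.l 45)) (.l 45)) (.l 45)) (.l 45)) (.l 45))) (.b 24 (.b 22 (.b 20 (.b 19 (.b 17 (.b 16 (.b 15 (.b 14 (.b 13 (.b 12 (.b 11 (.b 10 (.b 9 (.b 8 (.b 7 (.b 6 (.b 5 (.b 4 (.b 3 (.b 2 (.b 1 (.b 0 (.b 42 (.b 35 (.b 39 (.b 43 (.m 0 (.l 44)) (.l 43)) (.l 39)) (.b 29 (.b 43 (.m 27 (.l 44)) (.l 43)) (.b 23 (.b 44 (.m 27 (.l 43)) (.l 44)) (.l 35)))) (.b 35 (.b 29 (.b 43 (.m 28 (.l 44)) (.l 43)) (.b 23 (.b 44 (.m 28 (.l 43)) (.l 44)) (.l 42))) (.b 29 (.b 23 (.b 44 (.m 28 (.l 43)) (.l 44))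 (.l 42)) (.l 42)))) (.l 45)) (.l 45)) (.l 45)) (.l 45)) (.l 45)) (.l 45)) (.l 45)) (.l 45)) (.l 45)) (.l 45)) (.l 45)) (.l 45)) (.l 45)) (.l 45)) (.l 45)) (.l 45)) (.l 45)) (.l 45)) (.l 45)) (.l 45)) (.l 45)) (.l 45))) (.b 25 (.b 24 (.b 22 (.b 20 (.b 19 (.b 17 (.b 16 (.b 15 (.b 14 (.b 13 (.b 12 (.b 11 (.b 10 (.b 9 (.b 8 (.b 7 (.b 6 (.b 5 (.b 4 (.b 3 (.b 2 (.b 1 (.b 0 (.b 41 (.b 44 (.m 28 (.l 43)) (.b 37 (.b 39 (.l 44) (.l 39)) (.b 33 (.b 39 (.l 44) (.l 39)) (.b 30 (.b 39 (.l 44) (.l 39)) (.l 44))))) (.b 30 (.b 44 (.m 28 (.l 43)) (.b 37 (.b 39 (.b 42 (.m 0 (.l 44)) (.l 42)) (.l 39)) (.b 33 (.b 39 (.b 42 (.m 0 (.l 44)) (.l 42)) (.l 39)) (.b 27 (.b 39 (.b 42 (.m 0 (.l 44)) (.l 42)) (.l 39)) (.l 44))))) (.b 21 (.b 44 (.m 28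 (.l 43)) (.b 37 (.b 39 (.b 42 (.m 0 (.l 44)) (.l 42)) (.l 39)) (.b 33 (.b 39 (.b 42 (.m 0 (.l 44)) (.l 42)) (.l 39)) (.l 44)))) (.l 41)))) (.l 45)) (.l 45)) (.l 45)) (.l 45)) (.l 45)) (.l 45)) (.l 45)) (.l 45)) (.l 45)) (.l 45)) (.l 45)) (.l 45)) (.l 45)) (.l 45)) (.l 45)) (.l 45)) (.l 45)) (.l 45)) (.l 45)) (.l 45)) (.l 45)) (.l 45)) (.l 45))) (.b 28 (.b 25 (.b 24 (.b 22 (.b 20 (.b 19 (.b 17 (.b 16 (.b 15 (.b 14 (.b 13 (.b 12 (.b 11 (.b 10 (.b 9 (.b 8 (.b 7 (.b 6 (.b 5 (.b 4 (.b 3 (.b 2 (.b 1 (.b 0 (.b 42 (.b 44 (.m 27 (.l 43)) (.b 37 (.b 39 (.l 44) (.l 39)) (.b 33 (.b 39 (.l 44) (.l 39)) (.b 30 (.b 39 (.l 44) (.l 39)) (.l 44))))) (.b 35 (.b 29 (.b 43 (.m 28 (.l 44)) (.l 43)) (.b 23 (.b 44 (.m 28 (.l 43)) (.l 44)) (.l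 42))) (.b 29 (.b 23 (.b 44 (.m 28 (.l 43)) (.l 44)) (.l 42)) (.l 42)))) (.l 45)) (.l 45)) (.l 45)) (.l 45)) (.l 45)) (.l 45)) (.l 45)) (.l 45)) (.l 45)) (.l 45)) (.l 45)) (.l 45)) (.l 45)) (.l 45)) (.l 45)) (.l 45)) (.l 45)) (.l 45)) (.l 45)) (.l 45)) (.l 45)) (.l 45)) (.l 45)) (.l 45))) (.b 31 (.b 28 (.b 25 (.b 24 (.b 22 (.b 20 (.b 19 (.b 17 (.b 16 (.b 15 (.b 14 (.b 13 (.b 12 (.b 11 (.b 10 (.b 9 (.b 8 (.b 7 (.b 6 (.b 5 (.b 4 (.b 3 (.b 2 (.b 1 (.b 0 (.b 41 (.b 44 (.m 28 (.l 43)) (.b 37 (.b 39 (.l 44) (.l 39)) (.b 33 (.b 39 (.l 44) (.l 39)) (.b 30 (.b 39 (.l 44) (.l 39)) (.l 44))))) (.b 30 (.b 44 (.m 28 (.l 43)) (.b 37 (.b 39 (.b 42 (.m 0 (.l 44)) (.l 42)) (.l 39)) (.b 33 (.b 39 (.b 42 (.m 0 (.l 44)) (.l 42)) (.l 39)) (.b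 27 (.b 39 (.b 42 (.m 0 (.l 44)) (.l 42)) (.l 39)) (.l 44))))) (.b 21 (.b 44 (.m 28 (.l 43)) (.b 37 (.b 39 (.b 42 (.m 0 (.l 44)) (.l 42)) (.l 39)) (.b 33 (.b 39 (.b 42 (.m 0 (.l 44)) (.l 42)) (.l 39)) (.l 44)))) (.l 41)))) (.l 45)) (.l 45)) (.l 45)) (.l 45)) (.l 45)) (.l 45)) (.l 45)) (.l 45)) (.l 45)) (.l 45)) (.l 45)) (.l 45)) (.l 45)) (.l 45)) (.l 45)) (.l 45)) (.l 45)) (.l 45)) (.l 45)) (.l 45)) (.l 45)) (.l 45)) (.l 45)) (.l 45)) (.l 45)))))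

private lemma k30 : chk dm3 (PLf PL3 30) 46 29 c30 0 0 = true := by decide +kernel

private def c31 : Cert := (.m 30 (.b 39 (.b 35 (.b 32 (.b 29 (.b 26 (.b 25 (.b 23 (.b 45 (.b 20 (.b 18 (.b 41 (.b 17 (.b 15 (.b 13 (.b 44 (.m 28 (.b 34 (.b 37 (.b 38 (.b 28 (.b 30 (.b 24 (.b 22 (.l 46) (.l 22)) (.l 24)) (.l 30)) (.l 28)) (.l 38)) (.l 37)) (.l 34))) (.l 44)) (.b 11 (.b 34 (.b 38 (.b 37 (.b 28 (.b 30 (.b 31 (.b 22 (.b 24 (.l 46) (.l 24)) (.l 22)) (.l 31)) (.l 30)) (.l 28)) (.l 37)) (.l 38)) (.l 34)) (.b 10 (.b 9 (.b 44 (.m 28 (.b 34 (.b 37 (.b 38 (.b 28 (.b 30 (.b 24 (.b 22 (.l 46) (.l 22)) (.l 24)) (.l 30)) (.l 28)) (.l 38)) (.l 37)) (.l 34))) (.l 44)) (.l 46)) (.l 46)))) (.b 13 (.b 11 (.b 44 (.m 28 (.b 34 (.b 37 (.b 38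 (.b 28 (.b 30 (.b 24 (.b 22 (.l 46) (.l 22)) (.l 24)) (.l 30)) (.l 28)) (.l 38)) (.l 37)) (.l 34))) (.l 44)) (.b 10 (.b 9 (.b 44 (.m 28 (.b 38 (.b 34 (.b 37 (.b 30 (.b 28 (.b 24 (.b 31 (.l 46) (.l 31)) (.l 24)) (.l 28)) (.l 30)) (.l 37)) (.l 34)) (.l 38))) (.l 44)) (.l 46)) (.l 46))) (.b 11 (.b 10 (.b 9 (.b 44 (.m 28 (.b 34 (.b 37 (.b 38 (.b 28 (.b 30 (.b 24 (.b 22 (.l 46) (.l 22)) (.l 24)) (.l 30)) (.l 28)) (.l 38)) (.l 37)) (.l 34))) (.l 44)) (.l 46)) (.l 46)) (.l 46)))) (.b 15 (.b 13 (.b 11 (.b 34 (.b 38 (.b 37 (.b 28 (.b 30 (.b 31 (.b 22 (.b 24 (.l 46) (.l 24)) (.l 22)) (.l 31)) (.l 30)) (.l 28)) (.l 37)) (.l 38)) (.l 34)) (.b 10 (.b 9 (.b 44 (.m 28 (.b 34 (.b 37 (.b 38 (.b 28 (.b 30 (.b 24 (.b 22 (.l 46) (.l 22)) (.l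 24)) (.l 30)) (.l 28)) (.l 38)) (.l 37)) (.l 34))) (.l 44)) (.l 46)) (.l 46))) (.b 11 (.b 34 (.b 38 (.b 44 (.m 28 (.b 28 (.b 37 (.b 30 (.b 22 (.b 24 (.l 46) (.l 24)) (.l 22)) (.l 30)) (.l 37)) (.l 28))) (.l 44)) (.l 38)) (.l 34)) (.l 46))) (.b 13 (.b 11 (.b 10 (.b 9 (.b 44 (.m 28 (.b 34 (.b 37 (.b 38 (.b 28 (.b 30 (.b 24 (.b 22 (.l 46) (.l 22)) (.l 24)) (.l 30)) (.l 28)) (.l 38)) (.l 37)) (.l 34))) (.l 44)) (.l 46)) (.l 46)) (.l 46)) (.l 46)))) (.l 41)) (.b 17 (.b 15 (.b 41 (.b 13 (.b 11 (.b 44 (.m 28 (.b 34 (.b 37 (.b 38 (.b 28 (.b 30 (.b 24 (.b 22 (.l 46) (.l 22)) (.l 24)) (.l 30)) (.l 28)) (.l 38)) (.l 37)) (.l 34))) (.l 44)) (.b 10 (.b 9 (.b 44 (.m 28 (.b 7 (.b 6 (.b 37 (.b 34 (.b 30 (.b 38 (.b 24 (.b 28 (.b 19 (.l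 46) (.l 19)) (.l 28)) (.l 24)) (.l 38)) (.l 30)) (.l 34)) (.l 37)) (.l 46)) (.l 46))) (.l 44)) (.l 46)) (.l 46))) (.b 11 (.b 10 (.b 9 (.b 44 (.m 28 (.b 34 (.b 37 (.b 38 (.b 28 (.b 30 (.b 24 (.b 22 (.l 46) (.l 22)) (.l 24)) (.l 30)) (.l 28)) (.l 38)) (.l 37)) (.l 34))) (.l 44)) (.l 46)) (.l 46)) (.l 46))) (.l 41)) (.b 13 (.b 11 (.b 41 (.b 10 (.b 9 (.b 44 (.m 28 (.b 7 (.b 6 (.b 37 (.b 34 (.b 30 (.b 38 (.b 24 (.b 28 (.b 19 (.l 46) (.l 19)) (.l 28)) (.l 24)) (.l 38)) (.l 30)) (.l 34)) (.l 37)) (.l 46)) (.l 46))) (.l 44)) (.l 46)) (.l 46)) (.l 41)) (.l 46)) (.l 46))) (.b 15 (.b 41 (.b 13 (.b 11 (.b 10 (.b 9 (.b 44 (.m 28 (.b 34 (.b 37 (.b 38 (.b 28 (.b 30 (.b 24 (.b 22 (.l 46) (.l 22)) (.l 24)) (.l 30)) (.l 28)) (.l 38)) (.l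 37)) (.l 34))) (.l 44)) (.l 46)) (.l 46)) (.l 46)) (.l 46)) (.l 41)) (.l 46)))) (.b 18 (.b 17 (.b 15 (.b 41 (.b 13 (.b 11 (.b 44 (.m 28 (.b 34 (.b 37 (.b 38 (.b 28 (.b 30 (.b 24 (.b 22 (.l 46) (.l 22)) (.l 24)) (.l 30)) (.l 28)) (.l 38)) (.l 37)) (.l 34))) (.l 44)) (.b 10 (.b 9 (.b 44 (.m 28 (.b 38 (.b 34 (.b 37 (.b 30 (.b 28 (.b 24 (.b 31 (.l 46) (.l 31)) (.l 24)) (.l 28)) (.l 30)) (.l 37)) (.l 34)) (.l 38))) (.l 44)) (.l 46)) (.l 46))) (.b 11 (.b 10 (.b 9 (.b 44 (.m 28 (.b 34 (.b 37 (.b 38 (.b 28 (.b 30 (.b 24 (.b 22 (.l 46) (.l 22)) (.l 24)) (.l 30)) (.l 28)) (.l 38)) (.l 37)) (.l 34))) (.l 44)) (.l 46)) (.l 46)) (.l 46))) (.l 41)) (.b 13 (.b 11 (.b 41 (.b 10 (.b 9 (.b 44 (.m 28 (.b 38 (.b 34 (.b 37 (.b 30 (.b 28 (.b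 24 (.b 31 (.l 46) (.l 31)) (.l 24)) (.l 28)) (.l 30)) (.l 37)) (.l 34)) (.l 38))) (.l 44)) (.l 46)) (.l 46)) (.l 41)) (.l 46)) (.l 46))) (.b 15 (.b 41 (.b 13 (.b 11 (.b 10 (.b 9 (.b 44 (.m 28 (.b 34 (.b 37 (.b 38 (.b 28 (.b 30 (.b 24 (.b 22 (.l 46) (.l 22)) (.l 24)) (.l 30)) (.l 28)) (.l 38)) (.l 37)) (.l 34))) (.l 44)) (.l 46)) (.l 46)) (.l 46)) (.l 46)) (.l 41)) (.l 46))) (.b 17 (.b 15 (.b 13 (.b 11 (.b 41 (.b 10 (.b 9 (.b 44 (.m 28 (.b 7 (.b 6 (.b 37 (.b 34 (.b 30 (.b 38 (.b 24 (.b 28 (.b 19 (.l 46) (.l 19)) (.l 28)) (.l 24)) (.l 38)) (.l 30)) (.l 34)) (.l 37)) (.l 46)) (.l 46))) (.l 44)) (.l 46)) (.l 46)) (.l 41)) (.l 46)) (.l 46)) (.l 46)) (.l 46)))) (.l 45)) (.b 20 (.b 18 (.b 45 (.b 17 (.b 15 (.b 41 (.b 13 (.b 11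 (.b 44 (.m 28 (.b 34 (.b 37 (.b 38 (.b 28 (.b 30 (.b 24 (.b 22 (.l 46) (.l 22)) (.l 24)) (.l 30)) (.l 28)) (.l 38)) (.l 37)) (.l 34))) (.l 44)) (.b 10 (.b 9 (.b 44 (.m 28 (.b 7 (.b 6 (.b 37 (.b 34 (.b 30 (.b 38 (.b 24 (.b 28 (.b 19 (.l 46) (.l 19)) (.l 28)) (.l 24)) (.l 38)) (.l 30)) (.l 34)) (.l 37)) (.l 46)) (.l 46))) (.l 44)) (.l 46)) (.l 46))) (.b 11 (.b 10 (.b 9 (.b 44 (.m 28 (.b 34 (.b 37 (.b 38 (.b 28 (.b 30 (.b 24 (.b 22 (.l 46) (.l 22)) (.l 24)) (.l 30)) (.l 28)) (.l 38)) (.l 37)) (.l 34))) (.l 44)) (.l 46)) (.l 46)) (.l 46))) (.l 41)) (.b 13 (.b 11 (.b 41 (.b 10 (.b 9 (.b 44 (.m 28 (.b 7 (.b 6 (.b 37 (.b 34 (.b 30 (.b 38 (.b 24 (.b 28 (.b 19 (.l 46) (.l 19)) (.l 28)) (.l 24)) (.l 38)) (.l 30)) (.l 34)) (.l 37))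 (.l 46)) (.l 46))) (.l 44)) (.l 46)) (.l 46)) (.l 41)) (.l 46)) (.l 46))) (.b 15 (.b 41 (.b 13 (.b 11 (.b 10 (.b 9 (.b 44 (.m 28 (.b 34 (.b 37 (.b 38 (.b 28 (.b 30 (.b 24 (.b 22 (.l 46) (.l 22)) (.l 24)) (.l 30)) (.l 28)) (.l 38)) (.l 37)) (.l 34))) (.l 44)) (.l 46)) (.l 46)) (.l 46)) (.l 46)) (.l 41)) (.l 46))) (.l 45)) (.b 17 (.b 15 (.b 13 (.b 11 (.b 10 (.b 9 (.b 7 (.b 6 (.b 5 (.b 4 (.b 3 (.b 2 (.b 1 (.b 0 (.b 43 (.b 41 (.b 44 (.m 28 (.l 45)) (.l 44)) (.l 41)) (.b 36 (.b 41 (.b 44 (.b 37 (.b 34 (.b 30 (.b 38 (.b 24 (.b 27 (.m 0 (.l 45)) (.l 27)) (.l 24)) (.l 38)) (.l 30)) (.l 34)) (.l 37)) (.l 44)) (.l 41)) (.l 43))) (.l 46)) (.l 46)) (.l 46)) (.l 46)) (.l 46)) (.l 46)) (.l 46)) (.l 46)) (.l 46)) (.l 46)) (.l 46)) (.l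 46)) (.l 46)) (.l 46))) (.b 18 (.b 45 (.b 17 (.b 15 (.b 13 (.b 11 (.b 41 (.b 10 (.b 9 (.b 44 (.m 28 (.b 7 (.b 6 (.b 37 (.b 34 (.b 30 (.b 38 (.b 24 (.b 28 (.b 19 (.l 46) (.l 19)) (.l 28)) (.l 24)) (.l 38)) (.l 30)) (.l 34)) (.l 37)) (.l 46)) (.l 46))) (.l 44)) (.l 46)) (.l 46)) (.l 41)) (.l 46)) (.l 46)) (.l 46)) (.l 46)) (.l 45)) (.l 46)))) (.b 23 (.b 45 (.b 20 (.b 18 (.b 17 (.b 15 (.b 41 (.b 13 (.b 11 (.b 44 (.m 28 (.b 34 (.b 37 (.b 38 (.b 28 (.b 30 (.b 24 (.b 22 (.l 46) (.l 22)) (.l 24)) (.l 30)) (.l 28)) (.l 38)) (.l 37)) (.l 34))) (.l 44)) (.b 10 (.b 9 (.b 44 (.m 28 (.b 38 (.b 34 (.b 37 (.b 30 (.b 28 (.b 24 (.b 31 (.l 46) (.l 31)) (.l 24)) (.l 28)) (.l 30)) (.l 37)) (.l 34)) (.l 38))) (.l 44)) (.l 46)) (.l 46))) (.b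 11 (.b 10 (.b 9 (.b 44 (.m 28 (.b 34 (.b 37 (.b 38 (.b 28 (.b 30 (.b 24 (.b 22 (.l 46) (.l 22)) (.l 24)) (.l 30)) (.l 28)) (.l 38)) (.l 37)) (.l 34))) (.l 44)) (.l 46)) (.l 46)) (.l 46))) (.l 41)) (.b 13 (.b 11 (.b 41 (.b 10 (.b 9 (.b 44 (.m 28 (.b 38 (.b 34 (.b 37 (.b 30 (.b 28 (.b 24 (.b 31 (.l 46) (.l 31)) (.l 24)) (.l 28)) (.l 30)) (.l 37)) (.l 34)) (.l 38))) (.l 44)) (.l 46)) (.l 46)) (.l 41)) (.l 46)) (.l 46))) (.b 15 (.b 41 (.b 13 (.b 11 (.b 10 (.b 9 (.b 44 (.m 28 (.b 34 (.b 37 (.b 38 (.b 28 (.b 30 (.b 24 (.b 22 (.l 46) (.l 22)) (.l 24)) (.l 30)) (.l 28)) (.l 38)) (.l 37)) (.l 34))) (.l 44)) (.l 46)) (.l 46)) (.l 46)) (.l 46)) (.l 41)) (.l 46))) (.b 17 (.b 15 (.b 13 (.b 11 (.b 41 (.b 10 (.b 9 (.b 44 (.m 28 (.b 7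 (.b 6 (.b 37 (.b 34 (.b 30 (.b 38 (.b 24 (.b 28 (.b 19 (.l 46) (.l 19)) (.l 28)) (.l 24)) (.l 38)) (.l 30)) (.l 34)) (.l 37)) (.l 46)) (.l 46))) (.l 44)) (.l 46)) (.l 46)) (.l 41)) (.l 46)) (.l 46)) (.l 46)) (.l 46))) (.b 18 (.b 17 (.b 15 (.b 13 (.b 11 (.b 41 (.b 10 (.b 9 (.b 44 (.m 28 (.b 38 (.b 34 (.b 37 (.b 30 (.b 28 (.b 24 (.b 31 (.l 46) (.l 31)) (.l 24)) (.l 28)) (.l 30)) (.l 37)) (.l 34)) (.l 38))) (.l 44)) (.l 46)) (.l 46)) (.l 41)) (.l 46)) (.l 46)) (.l 46)) (.l 46)) (.l 46))) (.l 45)) (.b 20 (.b 18 (.b 45 (.b 17 (.b 15 (.b 13 (.b 11 (.b 41 (.b 10 (.b 9 (.b 44 (.m 28 (.b 7 (.b 6 (.b 37 (.b 34 (.b 30 (.b 38 (.b 24 (.b 28 (.b 19 (.l 46) (.l 19)) (.l 28)) (.l 24)) (.l 38)) (.l 30)) (.l 34)) (.l 37)) (.l 46)) (.l 46)))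 (.l 44)) (.l 46)) (.l 46)) (.l 41)) (.l 46)) (.l 46)) (.l 46)) (.l 46)) (.l 45)) (.l 46)) (.l 46)))) (.b 25 (.b 23 (.b 20 (.b 18 (.b 45 (.b 17 (.b 15 (.b 41 (.b 13 (.b 11 (.b 44 (.m 28 (.b 34 (.b 37 (.b 38 (.b 28 (.b 30 (.b 24 (.b 22 (.l 46) (.l 22)) (.l 24)) (.l 30)) (.l 28)) (.l 38)) (.l 37)) (.l 34))) (.l 44)) (.b 10 (.b 9 (.b 44 (.m 28 (.b 7 (.b 6 (.b 37 (.b 34 (.b 30 (.b 38 (.b 24 (.b 28 (.b 19 (.l 46) (.l 19)) (.l 28)) (.l 24)) (.l 38)) (.l 30)) (.l 34)) (.l 37)) (.l 46)) (.l 46))) (.l 44)) (.l 46)) (.l 46))) (.b 11 (.b 10 (.b 9 (.b 44 (.m 28 (.b 34 (.b 37 (.b 38 (.b 28 (.b 30 (.b 24 (.b 22 (.l 46) (.l 22)) (.l 24)) (.l 30)) (.l 28)) (.l 38)) (.l 37)) (.l 34))) (.l 44)) (.l 46)) (.l 46)) (.l 46))) (.l 41)) (.b 13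 (.b 11 (.b 41 (.b 10 (.b 9 (.b 44 (.m 28 (.b 7 (.b 6 (.b 37 (.b 34 (.b 30 (.b 38 (.b 24 (.b 28 (.b 19 (.l 46) (.l 19)) (.l 28)) (.l 24)) (.l 38)) (.l 30)) (.l 34)) (.l 37)) (.l 46)) (.l 46))) (.l 44)) (.l 46)) (.l 46)) (.l 41)) (.l 46)) (.l 46))) (.b 15 (.b 41 (.b 13 (.b 11 (.b 10 (.b 9 (.b 44 (.m 28 (.b 34 (.b 37 (.b 38 (.b 28 (.b 30 (.b 24 (.b 22 (.l 46) (.l 22)) (.l 24)) (.l 30)) (.l 28)) (.l 38)) (.l 37)) (.l 34))) (.l 44)) (.l 46)) (.l 46)) (.l 46)) (.l 46)) (.l 41)) (.l 46))) (.l 45)) (.b 17 (.b 15 (.b 13 (.b 11 (.b 10 (.b 9 (.b 7 (.b 6 (.b 5 (.b 4 (.b 3 (.b 2 (.b 1 (.b 0 (.b 43 (.b 41 (.b 44 (.m 28 (.l 45)) (.l 44)) (.l 41)) (.b 36 (.b 41 (.b 44 (.b 37 (.b 34 (.b 30 (.b 38 (.b 24 (.b 27 (.m 0 (.l 45)) (.l 27)) (.l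 24)) (.l 38)) (.l 30)) (.l 34)) (.l 37)) (.l 44)) (.l 41)) (.l 43))) (.l 46)) (.l 46)) (.l 46)) (.l 46)) (.l 46)) (.l 46)) (.l 46)) (.l 46)) (.l 46)) (.l 46)) (.l 46)) (.l 46)) (.l 46)) (.l 46))) (.b 18 (.b 45 (.b 17 (.b 15 (.b 13 (.b 11 (.b 41 (.b 10 (.b 9 (.b 44 (.m 28 (.b 7 (.b 6 (.b 37 (.b 34 (.b 30 (.b 38 (.b 24 (.b 28 (.b 19 (.l 46) (.l 19)) (.l 28)) (.l 24)) (.l 38)) (.l 30)) (.l 34)) (.l 37)) (.l 46)) (.l 46))) (.l 44)) (.l 46)) (.l 46)) (.l 41)) (.l 46)) (.l 46)) (.l 46)) (.l 46)) (.l 45)) (.l 46))) (.b 20 (.b 18 (.b 17 (.b 15 (.b 13 (.b 11 (.b 10 (.b 9 (.b 7 (.b 6 (.b 5 (.b 4 (.b 3 (.b 2 (.b 1 (.b 0 (.b 43 (.b 41 (.b 44 (.m 28 (.l 45)) (.l 44)) (.l 41)) (.b 36 (.b 41 (.b 44 (.b 37 (.b 34 (.b 30 (.b 38 (.b 24 (.b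 27 (.m 0 (.l 45)) (.l 27)) (.l 24)) (.l 38)) (.l 30)) (.l 34)) (.l 37)) (.l 44)) (.l 41)) (.l 43))) (.l 46)) (.l 46)) (.l 46)) (.l 46)) (.l 46)) (.l 46)) (.l 46)) (.l 46)) (.l 46)) (.l 46)) (.l 46)) (.l 46)) (.l 46)) (.l 46)) (.l 46)) (.l 46))) (.b 23 (.b 20 (.b 18 (.b 45 (.b 17 (.b 15 (.b 13 (.b 11 (.b 41 (.b 10 (.b 9 (.b 44 (.m 28 (.b 7 (.b 6 (.b 37 (.b 34 (.b 30 (.b 38 (.b 24 (.b 28 (.b 19 (.l 46) (.l 19)) (.l 28)) (.l 24)) (.l 38)) (.l 30)) (.l 34)) (.l 37)) (.l 46)) (.l 46))) (.l 44)) (.l 46)) (.l 46)) (.l 41)) (.l 46)) (.l 46)) (.l 46)) (.l 46)) (.l 45)) (.l 46)) (.l 46)) (.l 46)))) (.b 26 (.b 25 (.b 23 (.b 20 (.b 18 (.b 45 (.b 17 (.b 15 (.b 41 (.b 13 (.b 11 (.b 44 (.m 28 (.b 34 (.b 37 (.b 38 (.b 28 (.b 30 (.b 24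 (.b 22 (.l 46) (.l 22)) (.l 24)) (.l 30)) (.l 28)) (.l 38)) (.l 37)) (.l 34))) (.l 44)) (.b 10 (.b 9 (.b 44 (.m 28 (.b 7 (.b 6 (.b 37 (.b 34 (.b 30 (.b 38 (.b 24 (.b 28 (.b 19 (.l 46) (.l 19)) (.l 28)) (.l 24)) (.l 38)) (.l 30)) (.l 34)) (.l 37)) (.l 46)) (.l 46))) (.l 44)) (.l 46)) (.l 46))) (.b 11 (.b 10 (.b 9 (.b 44 (.m 28 (.b 34 (.b 37 (.b 38 (.b 28 (.b 30 (.b 24 (.b 22 (.l 46) (.l 22)) (.l 24)) (.l 30)) (.l 28)) (.l 38)) (.l 37)) (.l 34))) (.l 44)) (.l 46)) (.l 46)) (.l 46))) (.l 41)) (.b 13 (.b 11 (.b 41 (.b 10 (.b 9 (.b 44 (.m 28 (.b 7 (.b 6 (.b 37 (.b 34 (.b 30 (.b 38 (.b 24 (.b 28 (.b 19 (.l 46) (.l 19)) (.l 28)) (.l 24)) (.l 38)) (.l 30)) (.l 34)) (.l 37)) (.l 46)) (.l 46))) (.l 44)) (.l 46)) (.l 46)) (.l 41))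 (.l 46)) (.l 46))) (.b 15 (.b 41 (.b 13 (.b 11 (.b 10 (.b 9 (.b 44 (.m 28 (.b 34 (.b 37 (.b 38 (.b 28 (.b 30 (.b 24 (.b 22 (.l 46) (.l 22)) (.l 24)) (.l 30)) (.l 28)) (.l 38)) (.l 37)) (.l 34))) (.l 44)) (.l 46)) (.l 46)) (.l 46)) (.l 46)) (.l 41)) (.l 46))) (.l 45)) (.b 17 (.b 15 (.b 13 (.b 11 (.b 10 (.b 9 (.b 7 (.b 6 (.b 5 (.b 4 (.b 3 (.b 2 (.b 1 (.b 0 (.b 42 (.b 41 (.b 44 (.b 37 (.b 34 (.b 30 (.b 38 (.b 24 (.b 27 (.m 0 (.l 45)) (.l 27)) (.l 24)) (.l 38)) (.l 30)) (.l 34)) (.l 37)) (.l 44)) (.l 41)) (.b 31 (.b 41 (.b 44 (.b 37 (.b 34 (.b 30 (.b 38 (.l 42) (.l 38)) (.l 30)) (.l 34)) (.l 37)) (.l 44)) (.l 41)) (.l 42))) (.l 46)) (.l 46)) (.l 46)) (.l 46)) (.l 46)) (.l 46)) (.l 46)) (.l 46)) (.l 46)) (.l 46)) (.l 46)) (.l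 46)) (.l 46)) (.l 46))) (.b 18 (.b 45 (.b 17 (.b 15 (.b 13 (.b 11 (.b 41 (.b 10 (.b 9 (.b 44 (.m 28 (.b 7 (.b 6 (.b 37 (.b 34 (.b 30 (.b 38 (.b 24 (.b 28 (.b 19 (.l 46) (.l 19)) (.l 28)) (.l 24)) (.l 38)) (.l 30)) (.l 34)) (.l 37)) (.l 46)) (.l 46))) (.l 44)) (.l 46)) (.l 46)) (.l 41)) (.l 46)) (.l 46)) (.l 46)) (.l 46)) (.l 45)) (.l 46))) (.b 20 (.b 18 (.b 17 (.b 15 (.b 13 (.b 11 (.b 10 (.b 9 (.b 7 (.b 6 (.b 5 (.b 4 (.b 3 (.b 2 (.b 1 (.b 0 (.b 42 (.b 41 (.b 44 (.b 37 (.b 34 (.b 30 (.b 38 (.b 24 (.b 27 (.m 0 (.l 45)) (.l 27)) (.l 24)) (.l 38)) (.l 30)) (.l 34)) (.l 37)) (.l 44)) (.l 41)) (.b 31 (.b 41 (.b 44 (.b 37 (.b 34 (.b 30 (.b 38 (.l 42) (.l 38)) (.l 30)) (.l 34)) (.l 37)) (.l 44)) (.l 41)) (.l 42))) (.l 46)) (.l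 46)) (.l 46)) (.l 46)) (.l 46)) (.l 46)) (.l 46)) (.l 46)) (.l 46)) (.l 46)) (.l 46)) (.l 46)) (.l 46)) (.l 46)) (.l 46)) (.l 46))) (.b 23 (.b 20 (.b 18 (.b 45 (.b 17 (.b 15 (.b 13 (.b 11 (.b 41 (.b 10 (.b 9 (.b 44 (.m 28 (.b 7 (.b 6 (.b 37 (.b 34 (.b 30 (.b 38 (.b 24 (.b 28 (.b 19 (.l 46) (.l 19)) (.l 28)) (.l 24)) (.l 38)) (.l 30)) (.l 34)) (.l 37)) (.l 46)) (.l 46))) (.l 44)) (.l 46)) (.l 46)) (.l 41)) (.l 46)) (.l 46)) (.l 46)) (.l 46)) (.l 45)) (.l 46)) (.l 46)) (.l 46))) (.b 25 (.b 23 (.b 20 (.b 18 (.b 17 (.b 15 (.b 13 (.b 11 (.b 10 (.b 9 (.b 7 (.b 6 (.b 5 (.b 4 (.b 3 (.b 2 (.b 1 (.b 0 (.b 42 (.b 41 (.b 44 (.b 37 (.b 34 (.b 30 (.b 38 (.b 24 (.b 27 (.m 0 (.l 45)) (.l 27)) (.l 24)) (.l 38)) (.l 30)) (.l 34)) (.l 37))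 (.l 44)) (.l 41)) (.b 31 (.b 41 (.b 44 (.b 37 (.b 34 (.b 30 (.b 38 (.b 24 (.l 42) (.l 24)) (.l 38)) (.l 30)) (.l 34)) (.l 37)) (.l 44)) (.l 41)) (.b 22 (.b 44 (.b 41 (.b 37 (.b 45 (.m 28 (.b 30 (.b 34 (.b 24 (.l 42) (.l 24)) (.l 34)) (.l 30))) (.l 45)) (.l 37)) (.l 41)) (.l 44)) (.l 42)))) (.l 46)) (.l 46)) (.l 46)) (.l 46)) (.l 46)) (.l 46)) (.l 46)) (.l 46)) (.l 46)) (.l 46)) (.l 46)) (.l 46)) (.l 46)) (.l 46)) (.l 46)) (.l 46)) (.l 46)) (.l 46)))) (.b 29 (.b 26 (.b 25 (.b 23 (.b 20 (.b 18 (.b 45 (.b 17 (.b 15 (.b 41 (.b 13 (.b 11 (.b 44 (.m 28 (.b 34 (.b 37 (.b 38 (.b 28 (.b 30 (.b 24 (.b 22 (.l 46) (.l 22)) (.l 24)) (.l 30)) (.l 28)) (.l 38)) (.l 37)) (.l 34))) (.l 44)) (.b 10 (.b 9 (.b 44 (.m 28 (.b 7 (.b 6 (.b 37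 (.b 34 (.b 30 (.b 38 (.b 24 (.b 28 (.b 19 (.l 46) (.l 19)) (.l 28)) (.l 24)) (.l 38)) (.l 30)) (.l 34)) (.l 37)) (.l 46)) (.l 46))) (.l 44)) (.l 46)) (.l 46))) (.b 11 (.b 10 (.b 9 (.b 44 (.m 28 (.b 34 (.b 37 (.b 38 (.b 28 (.b 30 (.b 24 (.b 22 (.l 46) (.l 22)) (.l 24)) (.l 30)) (.l 28)) (.l 38)) (.l 37)) (.l 34))) (.l 44)) (.l 46)) (.l 46)) (.l 46))) (.l 41)) (.b 13 (.b 11 (.b 41 (.b 10 (.b 9 (.b 44 (.m 28 (.b 7 (.b 6 (.b 37 (.b 34 (.b 30 (.b 38 (.b 24 (.b 28 (.b 19 (.l 46) (.l 19)) (.l 28)) (.l 24)) (.l 38)) (.l 30)) (.l 34)) (.l 37)) (.l 46)) (.l 46))) (.l 44)) (.l 46)) (.l 46)) (.l 41)) (.l 46)) (.l 46))) (.b 15 (.b 41 (.b 13 (.b 11 (.b 10 (.b 9 (.b 44 (.m 28 (.b 34 (.b 37 (.b 38 (.b 28 (.b 30 (.b 24 (.b 22 (.l 46) (.l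 22)) (.l 24)) (.l 30)) (.l 28)) (.l 38)) (.l 37)) (.l 34))) (.l 44)) (.l 46)) (.l 46)) (.l 46)) (.l 46)) (.l 41)) (.l 46))) (.l 45)) (.b 17 (.b 15 (.b 13 (.b 11 (.b 10 (.b 9 (.b 7 (.b 6 (.b 5 (.b 4 (.b 3 (.b 2 (.b 1 (.b 0 (.b 43 (.b 41 (.b 44 (.m 28 (.l 45)) (.l 44)) (.l 41)) (.b 36 (.b 41 (.b 44 (.b 37 (.b 34 (.b 30 (.b 38 (.b 24 (.b 27 (.m 0 (.l 45)) (.l 27)) (.l 24)) (.l 38)) (.l 30)) (.l 34)) (.l 37)) (.l 44)) (.l 41)) (.l 43))) (.l 46)) (.l 46)) (.l 46)) (.l 46)) (.l 46)) (.l 46)) (.l 46)) (.l 46)) (.l 46)) (.l 46)) (.l 46)) (.l 46)) (.l 46)) (.l 46))) (.b 18 (.b 45 (.b 17 (.b 15 (.b 13 (.b 11 (.b 41 (.b 10 (.b 9 (.b 44 (.m 28 (.b 7 (.b 6 (.b 37 (.b 34 (.b 30 (.b 38 (.b 24 (.b 28 (.b 19 (.l 46) (.l 19)) (.l 28)) (.l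 24)) (.l 38)) (.l 30)) (.l 34)) (.l 37)) (.l 46)) (.l 46))) (.l 44)) (.l 46)) (.l 46)) (.l 41)) (.l 46)) (.l 46)) (.l 46)) (.l 46)) (.l 45)) (.l 46))) (.b 20 (.b 18 (.b 17 (.b 15 (.b 13 (.b 11 (.b 10 (.b 9 (.b 7 (.b 6 (.b 5 (.b 4 (.b 3 (.b 2 (.b 1 (.b 0 (.b 43 (.b 41 (.b 44 (.m 28 (.l 45)) (.l 44)) (.l 41)) (.b 36 (.b 41 (.b 44 (.b 37 (.b 34 (.b 30 (.b 38 (.b 24 (.b 27 (.m 0 (.l 45)) (.l 27)) (.l 24)) (.l 38)) (.l 30)) (.l 34)) (.l 37)) (.l 44)) (.l 41)) (.l 43))) (.l 46)) (.l 46)) (.l 46)) (.l 46)) (.l 46)) (.l 46)) (.l 46)) (.l 46)) (.l 46)) (.l 46)) (.l 46)) (.l 46)) (.l 46)) (.l 46)) (.l 46)) (.l 46))) (.b 23 (.b 20 (.b 18 (.b 45 (.b 17 (.b 15 (.b 13 (.b 11 (.b 41 (.b 10 (.b 9 (.b 44 (.m 28 (.b 7 (.b 6 (.b 37 (.b 34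 (.b 30 (.b 38 (.b 24 (.b 28 (.b 19 (.l 46) (.l 19)) (.l 28)) (.l 24)) (.l 38)) (.l 30)) (.l 34)) (.l 37)) (.l 46)) (.l 46))) (.l 44)) (.l 46)) (.l 46)) (.l 41)) (.l 46)) (.l 46)) (.l 46)) (.l 46)) (.l 45)) (.l 46)) (.l 46)) (.l 46))) (.b 25 (.b 23 (.b 20 (.b 18 (.b 17 (.b 15 (.b 13 (.b 11 (.b 10 (.b 9 (.b 7 (.b 6 (.b 5 (.b 4 (.b 3 (.b 2 (.b 1 (.b 0 (.b 43 (.b 41 (.b 44 (.m 28 (.l 45)) (.l 44)) (.l 41)) (.b 36 (.b 41 (.b 44 (.b 37 (.b 34 (.b 30 (.b 38 (.b 24 (.b 27 (.m 0 (.l 45)) (.l 27)) (.l 24)) (.l 38)) (.l 30)) (.l 34)) (.l 37)) (.l 44)) (.l 41)) (.l 43))) (.l 46)) (.l 46)) (.l 46)) (.l 46)) (.l 46)) (.l 46)) (.l 46)) (.l 46)) (.l 46)) (.l 46)) (.l 46)) (.l 46)) (.l 46)) (.l 46)) (.l 46)) (.l 46)) (.l 46)) (.l 46)))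 (.b 26 (.b 25 (.b 23 (.b 20 (.b 18 (.b 17 (.b 15 (.b 13 (.b 11 (.b 10 (.b 9 (.b 7 (.b 6 (.b 5 (.b 4 (.b 3 (.b 2 (.b 1 (.b 0 (.b 42 (.b 41 (.b 44 (.b 37 (.b 34 (.b 30 (.b 38 (.b 24 (.b 27 (.m 0 (.l 45)) (.l 27)) (.l 24)) (.l 38)) (.l 30)) (.l 34)) (.l 37)) (.l 44)) (.l 41)) (.b 31 (.b 41 (.b 44 (.b 37 (.b 34 (.b 30 (.b 38 (.b 24 (.l 42) (.l 24)) (.l 38)) (.l 30)) (.l 34)) (.l 37)) (.l 44)) (.l 41)) (.b 22 (.b 44 (.b 41 (.b 37 (.b 45 (.m 28 (.b 30 (.b 34 (.b 24 (.l 42) (.l 24)) (.l 34)) (.l 30))) (.l 45)) (.l 37)) (.l 41)) (.l 44)) (.l 42)))) (.l 46)) (.l 46)) (.l 46)) (.l 46)) (.l 46)) (.l 46)) (.l 46)) (.l 46)) (.l 46)) (.l 46)) (.l 46)) (.l 46)) (.l 46)) (.l 46)) (.l 46)) (.l 46)) (.l 46)) (.l 46)) (.l 46)))) (.b 32 (.b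 29 (.b 26 (.b 25 (.b 23 (.b 20 (.b 18 (.b 45 (.b 17 (.b 15 (.b 41 (.b 13 (.b 11 (.b 44 (.m 28 (.b 34 (.b 37 (.b 38 (.b 28 (.b 30 (.b 24 (.b 22 (.l 46) (.l 22)) (.l 24)) (.l 30)) (.l 28)) (.l 38)) (.l 37)) (.l 34))) (.l 44)) (.b 10 (.b 9 (.b 44 (.m 28 (.b 7 (.b 6 (.b 37 (.b 34 (.b 30 (.b 38 (.b 24 (.b 28 (.b 19 (.l 46) (.l 19)) (.l 28)) (.l 24)) (.l 38)) (.l 30)) (.l 34)) (.l 37)) (.l 46)) (.l 46))) (.l 44)) (.l 46)) (.l 46))) (.b 11 (.b 10 (.b 9 (.b 44 (.m 28 (.b 34 (.b 37 (.b 38 (.b 28 (.b 30 (.b 24 (.b 22 (.l 46) (.l 22)) (.l 24)) (.l 30)) (.l 28)) (.l 38)) (.l 37)) (.l 34))) (.l 44)) (.l 46)) (.l 46)) (.l 46))) (.l 41)) (.b 13 (.b 11 (.b 41 (.b 10 (.b 9 (.b 44 (.m 28 (.b 7 (.b 6 (.b 37 (.b 34 (.b 30 (.b 38 (.b 24 (.b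 28 (.b 19 (.l 46) (.l 19)) (.l 28)) (.l 24)) (.l 38)) (.l 30)) (.l 34)) (.l 37)) (.l 46)) (.l 46))) (.l 44)) (.l 46)) (.l 46)) (.l 41)) (.l 46)) (.l 46))) (.b 15 (.b 41 (.b 13 (.b 11 (.b 10 (.b 9 (.b 44 (.m 28 (.b 34 (.b 37 (.b 38 (.b 28 (.b 30 (.b 24 (.b 22 (.l 46) (.l 22)) (.l 24)) (.l 30)) (.l 28)) (.l 38)) (.l 37)) (.l 34))) (.l 44)) (.l 46)) (.l 46)) (.l 46)) (.l 46)) (.l 41)) (.l 46))) (.l 45)) (.b 17 (.b 15 (.b 13 (.b 11 (.b 10 (.b 9 (.b 7 (.b 6 (.b 5 (.b 4 (.b 3 (.b 2 (.b 1 (.b 0 (.b 42 (.b 41 (.b 44 (.b 37 (.b 34 (.b 30 (.b 38 (.b 24 (.b 27 (.m 0 (.l 45)) (.l 27)) (.l 24)) (.l 38)) (.l 30)) (.l 34)) (.l 37)) (.l 44)) (.l 41)) (.b 31 (.b 41 (.b 44 (.b 37 (.b 34 (.b 30 (.b 38 (.l 42) (.l 38)) (.l 30)) (.l 34)) (.l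 37)) (.l 44)) (.l 41)) (.l 42))) (.l 46)) (.l 46)) (.l 46)) (.l 46)) (.l 46)) (.l 46)) (.l 46)) (.l 46)) (.l 46)) (.l 46)) (.l 46)) (.l 46)) (.l 46)) (.l 46))) (.b 18 (.b 45 (.b 17 (.b 15 (.b 13 (.b 11 (.b 41 (.b 10 (.b 9 (.b 44 (.m 28 (.b 7 (.b 6 (.b 37 (.b 34 (.b 30 (.b 38 (.b 24 (.b 28 (.b 19 (.l 46) (.l 19)) (.l 28)) (.l 24)) (.l 38)) (.l 30)) (.l 34)) (.l 37)) (.l 46)) (.l 46))) (.l 44)) (.l 46)) (.l 46)) (.l 41)) (.l 46)) (.l 46)) (.l 46)) (.l 46)) (.l 45)) (.l 46))) (.b 20 (.b 18 (.b 17 (.b 15 (.b 13 (.b 11 (.b 10 (.b 9 (.b 7 (.b 6 (.b 5 (.b 4 (.b 3 (.b 2 (.b 1 (.b 0 (.b 42 (.b 41 (.b 44 (.b 37 (.b 34 (.b 30 (.b 38 (.b 24 (.b 27 (.m 0 (.l 45)) (.l 27)) (.l 24)) (.l 38)) (.l 30)) (.l 34)) (.l 37)) (.l 44)) (.l 41))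 (.b 31 (.b 41 (.b 44 (.b 37 (.b 34 (.b 30 (.b 38 (.l 42) (.l 38)) (.l 30)) (.l 34)) (.l 37)) (.l 44)) (.l 41)) (.l 42))) (.l 46)) (.l 46)) (.l 46)) (.l 46)) (.l 46)) (.l 46)) (.l 46)) (.l 46)) (.l 46)) (.l 46)) (.l 46)) (.l 46)) (.l 46)) (.l 46)) (.l 46)) (.l 46))) (.b 23 (.b 20 (.b 18 (.b 45 (.b 17 (.b 15 (.b 13 (.b 11 (.b 41 (.b 10 (.b 9 (.b 44 (.m 28 (.b 7 (.b 6 (.b 37 (.b 34 (.b 30 (.b 38 (.b 24 (.b 28 (.b 19 (.l 46) (.l 19)) (.l 28)) (.l 24)) (.l 38)) (.l 30)) (.l 34)) (.l 37)) (.l 46)) (.l 46))) (.l 44)) (.l 46)) (.l 46)) (.l 41)) (.l 46)) (.l 46)) (.l 46)) (.l 46)) (.l 45)) (.l 46)) (.l 46)) (.l 46))) (.b 25 (.b 23 (.b 20 (.b 18 (.b 17 (.b 15 (.b 13 (.b 11 (.b 10 (.b 9 (.b 7 (.b 6 (.b 5 (.b 4 (.b 3 (.b 2 (.b 1 (.b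 0 (.b 42 (.b 41 (.b 44 (.b 37 (.b 34 (.b 30 (.b 38 (.b 24 (.b 27 (.m 0 (.l 45)) (.l 27)) (.l 24)) (.l 38)) (.l 30)) (.l 34)) (.l 37)) (.l 44)) (.l 41)) (.b 31 (.b 41 (.b 44 (.b 37 (.b 34 (.b 30 (.b 38 (.b 24 (.l 42) (.l 24)) (.l 38)) (.l 30)) (.l 34)) (.l 37)) (.l 44)) (.l 41)) (.b 22 (.b 44 (.b 41 (.b 37 (.b 45 (.m 28 (.b 30 (.b 34 (.b 24 (.l 42) (.l 24)) (.l 34)) (.l 30))) (.l 45)) (.l 37)) (.l 41)) (.l 44)) (.l 42)))) (.l 46)) (.l 46)) (.l 46)) (.l 46)) (.l 46)) (.l 46)) (.l 46)) (.l 46)) (.l 46)) (.l 46)) (.l 46)) (.l 46)) (.l 46)) (.l 46)) (.l 46)) (.l 46)) (.l 46)) (.l 46))) (.b 26 (.b 25 (.b 23 (.b 20 (.b 18 (.b 17 (.b 15 (.b 13 (.b 11 (.b 10 (.b 9 (.b 7 (.b 6 (.b 5 (.b 4 (.b 3 (.b 2 (.b 1 (.b 0 (.b 42 (.b 41 (.b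 44 (.b 37 (.b 34 (.b 30 (.b 38 (.b 24 (.b 27 (.m 0 (.l 45)) (.l 27)) (.l 24)) (.l 38)) (.l 30)) (.l 34)) (.l 37)) (.l 44)) (.l 41)) (.b 31 (.b 41 (.b 44 (.b 37 (.b 34 (.b 30 (.b 38 (.l 42) (.l 38)) (.l 30)) (.l 34)) (.l 37)) (.l 44)) (.l 41)) (.l 42))) (.l 46)) (.l 46)) (.l 46)) (.l 46)) (.l 46)) (.l 46)) (.l 46)) (.l 46)) (.l 46)) (.l 46)) (.l 46)) (.l 46)) (.l 46)) (.l 46)) (.l 46)) (.l 46)) (.l 46)) (.l 46)) (.l 46))) (.b 29 (.b 26 (.b 25 (.b 23 (.b 20 (.b 18 (.b 17 (.b 15 (.b 13 (.b 11 (.b 10 (.b 9 (.b 7 (.b 6 (.b 5 (.b 4 (.b 3 (.b 2 (.b 1 (.b 0 (.b 42 (.b 41 (.b 44 (.b 37 (.b 34 (.b 30 (.b 38 (.b 24 (.b 27 (.m 0 (.l 45)) (.l 27)) (.l 24)) (.l 38)) (.l 30)) (.l 34)) (.l 37)) (.l 44)) (.l 41)) (.b 31 (.b 41 (.b 44 (.b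 37 (.b 34 (.b 30 (.b 38 (.b 24 (.l 42) (.l 24)) (.l 38)) (.l 30)) (.l 34)) (.l 37)) (.l 44)) (.l 41)) (.b 22 (.b 44 (.b 41 (.b 37 (.b 45 (.m 28 (.b 30 (.b 34 (.b 24 (.l 42) (.l 24)) (.l 34)) (.l 30))) (.l 45)) (.l 37)) (.l 41)) (.l 44)) (.l 42)))) (.l 46)) (.l 46)) (.l 46)) (.l 46)) (.l 46)) (.l 46)) (.l 46)) (.l 46)) (.l 46)) (.l 46)) (.l 46)) (.l 46)) (.l 46)) (.l 46)) (.l 46)) (.l 46)) (.l 46)) (.l 46)) (.l 46)) (.l 46)))) (.b 35 (.b 32 (.b 29 (.b 26 (.b 25 (.b 23 (.b 20 (.b 18 (.b 45 (.b 17 (.b 15 (.b 41 (.b 13 (.b 11 (.b 44 (.m 28 (.b 34 (.b 37 (.b 38 (.b 28 (.b 30 (.b 24 (.b 22 (.l 46) (.l 22)) (.l 24)) (.l 30)) (.l 28)) (.l 38)) (.l 37)) (.l 34))) (.l 44)) (.b 10 (.b 9 (.b 44 (.m 28 (.b 7 (.b 6 (.b 37 (.b 34 (.b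 30 (.b 38 (.b 24 (.b 28 (.b 19 (.l 46) (.l 19)) (.l 28)) (.l 24)) (.l 38)) (.l 30)) (.l 34)) (.l 37)) (.l 46)) (.l 46))) (.l 44)) (.l 46)) (.l 46))) (.b 11 (.b 10 (.b 9 (.b 44 (.m 28 (.b 34 (.b 37 (.b 38 (.b 28 (.b 30 (.b 24 (.b 22 (.l 46) (.l 22)) (.l 24)) (.l 30)) (.l 28)) (.l 38)) (.l 37)) (.l 34))) (.l 44)) (.l 46)) (.l 46)) (.l 46))) (.l 41)) (.b 13 (.b 11 (.b 41 (.b 10 (.b 9 (.b 44 (.m 28 (.b 7 (.b 6 (.b 37 (.b 34 (.b 30 (.b 38 (.b 24 (.b 28 (.b 19 (.l 46) (.l 19)) (.l 28)) (.l 24)) (.l 38)) (.l 30)) (.l 34)) (.l 37)) (.l 46)) (.l 46))) (.l 44)) (.l 46)) (.l 46)) (.l 41)) (.l 46)) (.l 46))) (.b 15 (.b 41 (.b 13 (.b 11 (.b 10 (.b 9 (.b 44 (.m 28 (.b 34 (.b 37 (.b 38 (.b 28 (.b 30 (.b 24 (.b 22 (.l 46) (.l 22)) (.l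 24)) (.l 30)) (.l 28)) (.l 38)) (.l 37)) (.l 34))) (.l 44)) (.l 46)) (.l 46)) (.l 46)) (.l 46)) (.l 41)) (.l 46))) (.l 45)) (.b 17 (.b 15 (.b 13 (.b 11 (.b 10 (.b 9 (.b 7 (.b 6 (.b 5 (.b 4 (.b 3 (.b 2 (.b 1 (.b 0 (.b 42 (.b 41 (.b 44 (.b 37 (.b 34 (.b 30 (.b 38 (.b 24 (.b 27 (.m 0 (.l 45)) (.l 27)) (.l 24)) (.l 38)) (.l 30)) (.l 34)) (.l 37)) (.l 44)) (.l 41)) (.b 31 (.b 41 (.b 44 (.b 37 (.b 34 (.b 30 (.b 38 (.b 24 (.l 42) (.l 24)) (.l 38)) (.l 30)) (.l 34)) (.l 37)) (.l 44)) (.l 41)) (.b 22 (.b 44 (.b 41 (.b 37 (.b 45 (.m 28 (.b 30 (.b 34 (.b 24 (.l 42) (.l 24)) (.l 34)) (.l 30))) (.l 45)) (.l 37)) (.l 41)) (.l 44)) (.l 42)))) (.l 46)) (.l 46)) (.l 46)) (.l 46)) (.l 46)) (.l 46)) (.l 46)) (.l 46)) (.l 46)) (.l 46)) (.l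 46)) (.l 46)) (.l 46)) (.l 46))) (.b 18 (.b 45 (.b 17 (.b 15 (.b 13 (.b 11 (.b 41 (.b 10 (.b 9 (.b 44 (.m 28 (.b 7 (.b 6 (.b 37 (.b 34 (.b 30 (.b 38 (.b 24 (.b 28 (.b 19 (.l 46) (.l 19)) (.l 28)) (.l 24)) (.l 38)) (.l 30)) (.l 34)) (.l 37)) (.l 46)) (.l 46))) (.l 44)) (.l 46)) (.l 46)) (.l 41)) (.l 46)) (.l 46)) (.l 46)) (.l 46)) (.l 45)) (.l 46))) (.b 20 (.b 18 (.b 17 (.b 15 (.b 13 (.b 11 (.b 10 (.b 9 (.b 7 (.b 6 (.b 5 (.b 4 (.b 3 (.b 2 (.b 1 (.b 0 (.b 42 (.b 41 (.b 44 (.b 37 (.b 34 (.b 30 (.b 38 (.b 24 (.b 27 (.m 0 (.l 45)) (.l 27)) (.l 24)) (.l 38)) (.l 30)) (.l 34)) (.l 37)) (.l 44)) (.l 41)) (.b 31 (.b 41 (.b 44 (.b 37 (.b 34 (.b 30 (.b 38 (.b 24 (.l 42) (.l 24)) (.l 38)) (.l 30)) (.l 34)) (.l 37)) (.l 44)) (.l 41))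 (.b 22 (.b 44 (.b 41 (.b 37 (.b 45 (.m 28 (.b 30 (.b 34 (.b 24 (.l 42) (.l 24)) (.l 34)) (.l 30))) (.l 45)) (.l 37)) (.l 41)) (.l 44)) (.l 42)))) (.l 46)) (.l 46)) (.l 46)) (.l 46)) (.l 46)) (.l 46)) (.l 46)) (.l 46)) (.l 46)) (.l 46)) (.l 46)) (.l 46)) (.l 46)) (.l 46)) (.l 46)) (.l 46))) (.b 23 (.b 20 (.b 18 (.b 45 (.b 17 (.b 15 (.b 13 (.b 11 (.b 41 (.b 10 (.b 9 (.b 44 (.m 28 (.b 7 (.b 6 (.b 37 (.b 34 (.b 30 (.b 38 (.b 24 (.b 28 (.b 19 (.l 46) (.l 19)) (.l 28)) (.l 24)) (.l 38)) (.l 30)) (.l 34)) (.l 37)) (.l 46)) (.l 46))) (.l 44)) (.l 46)) (.l 46)) (.l 41)) (.l 46)) (.l 46)) (.l 46)) (.l 46)) (.l 45)) (.l 46)) (.l 46)) (.l 46))) (.b 25 (.b 23 (.b 20 (.b 18 (.b 17 (.b 15 (.b 13 (.b 11 (.b 10 (.b 9 (.b 7 (.b 6 (.b 5 (.b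 4 (.b 3 (.b 2 (.b 1 (.b 0 (.b 45 (.b 41 (.b 44 (.m 28 (.b 37 (.b 34 (.b 30 (.b 38 (.b 24 (.b 27 (.m 0 (.l 42)) (.l 27)) (.l 24)) (.l 38)) (.l 30)) (.l 34)) (.l 37))) (.l 44)) (.l 41)) (.b 38 (.b 41 (.l 45) (.l 41)) (.b 34 (.b 44 (.l 45) (.l 44)) (.b 31 (.b 41 (.l 45) (.l 41)) (.l 45))))) (.l 46)) (.l 46)) (.l 46)) (.l 46)) (.l 46)) (.l 46)) (.l 46)) (.l 46)) (.l 46)) (.l 46)) (.l 46)) (.l 46)) (.l 46)) (.l 46)) (.l 46)) (.l 46)) (.l 46)) (.l 46))) (.b 26 (.b 25 (.b 23 (.b 20 (.b 18 (.b 17 (.b 15 (.b 13 (.b 11 (.b 10 (.b 9 (.b 7 (.b 6 (.b 5 (.b 4 (.b 3 (.b 2 (.b 1 (.b 0 (.b 42 (.b 41 (.b 44 (.b 37 (.b 34 (.b 30 (.b 38 (.b 24 (.b 27 (.m 0 (.l 45)) (.l 27)) (.l 24)) (.l 38)) (.l 30)) (.l 34)) (.l 37)) (.l 44)) (.l 41)) (.b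 31 (.b 41 (.b 44 (.b 37 (.b 34 (.b 30 (.b 38 (.b 24 (.l 42) (.l 24)) (.l 38)) (.l 30)) (.l 34)) (.l 37)) (.l 44)) (.l 41)) (.b 22 (.b 44 (.b 41 (.b 37 (.b 45 (.m 28 (.b 30 (.b 34 (.b 24 (.l 42) (.l 24)) (.l 34)) (.l 30))) (.l 45)) (.l 37)) (.l 41)) (.l 44)) (.l 42)))) (.l 46)) (.l 46)) (.l 46)) (.l 46)) (.l 46)) (.l 46)) (.l 46)) (.l 46)) (.l 46)) (.l 46)) (.l 46)) (.l 46)) (.l 46)) (.l 46)) (.l 46)) (.l 46)) (.l 46)) (.l 46)) (.l 46))) (.b 29 (.b 26 (.b 25 (.b 23 (.b 20 (.b 18 (.b 17 (.b 15 (.b 13 (.b 11 (.b 10 (.b 9 (.b 7 (.b 6 (.b 5 (.b 4 (.b 3 (.b 2 (.b 1 (.b 0 (.b 45 (.b 41 (.b 44 (.m 28 (.b 37 (.b 34 (.b 30 (.b 38 (.b 24 (.b 27 (.m 0 (.l 42)) (.l 27)) (.l 24)) (.l 38)) (.l 30)) (.l 34)) (.l 37))) (.l 44)) (.l 41))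 (.b 38 (.b 41 (.l 45) (.l 41)) (.b 34 (.b 44 (.l 45) (.l 44)) (.b 31 (.b 41 (.l 45) (.l 41)) (.l 45))))) (.l 46)) (.l 46)) (.l 46)) (.l 46)) (.l 46)) (.l 46)) (.l 46)) (.l 46)) (.l 46)) (.l 46)) (.l 46)) (.l 46)) (.l 46)) (.l 46)) (.l 46)) (.l 46)) (.l 46)) (.l 46)) (.l 46)) (.l 46))) (.b 32 (.b 29 (.b 26 (.b 25 (.b 23 (.b 20 (.b 18 (.b 17 (.b 15 (.b 13 (.b 11 (.b 10 (.b 9 (.b 7 (.b 6 (.b 5 (.b 4 (.b 3 (.b 2 (.b 1 (.b 0 (.b 42 (.b 41 (.b 44 (.b 37 (.b 34 (.b 30 (.b 38 (.b 24 (.b 27 (.m 0 (.l 45)) (.l 27)) (.l 24)) (.l 38)) (.l 30)) (.l 34)) (.l 37)) (.l 44)) (.l 41)) (.b 31 (.b 41 (.b 44 (.b 37 (.b 34 (.b 30 (.b 38 (.b 24 (.l 42) (.l 24)) (.l 38)) (.l 30)) (.l 34)) (.l 37)) (.l 44)) (.l 41)) (.b 22 (.b 44 (.b 41 (.b 37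 (.b 45 (.m 28 (.b 30 (.b 34 (.b 24 (.l 42) (.l 24)) (.l 34)) (.l 30))) (.l 45)) (.l 37)) (.l 41)) (.l 44)) (.l 42)))) (.l 46)) (.l 46)) (.l 46)) (.l 46)) (.l 46)) (.l 46)) (.l 46)) (.l 46)) (.l 46)) (.l 46)) (.l 46)) (.l 46)) (.l 46)) (.l 46)) (.l 46)) (.l 46)) (.l 46)) (.l 46)) (.l 46)) (.l 46)) (.l 46)))))

private lemma k31 : chk dm3 (PLf PL3 31) 47 30 c31 0 0 = true := by decide +kernel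

/-- the certificates for the levels 29 to 31 -/
theorem certs3C : ∀ j, 29 ≤ j → j ≤ 31 →
    ∃ c, chk dm3 (PLf PL3 j) (PL3.getD j 100) (j - 1) c 0 0 = true := by
  intro j h1 h2
  interval_cases j
  · exact ⟨c29, k29⟩
  · exact ⟨c30, k30⟩
  · exact ⟨c31, k31⟩

end Pool.Agent.Lib.MP_573265_nt.H31
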