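import Pool.Agent.Lib.MP_573265_nt.H31Omit

/-! Certificates: 5-smooth numbers, levels 1 to 18 (helper31, MP_573265_nt, k = 3). -/

namespace Pool.Agent.Lib.MP_573265_nt.H31

/-- the 5-smooth numbers up to 150 -/
def PP5 : List ℕ := [1, 2, 3, 4, 5, 6, 8, 9, 10, 12, 15, 16, 18, 20, 24, 25, 27, 30, 32, 36, 40, 45, 48, 50, 54, 60, 64, 72, 75, 80, 81, 90, 96, 100, 108, 120, 125, 128, 135, 144, 150]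

/-- the `a`-th 5-smooth number -/
def el5 (a : ℕ) : ℕ := PP5.getD a 0

/-- divisor masks, 64 bits each -/
def TAB5 : ℕ := 120019495502591949382634291636551116586551639638391128210747261254178555889072120179323653182833359150737203490626407557987788311012550515820351196765446513802670537950446754715226559893115560804396264372118939911142270845019556290806929193542544881316578740425077097991595748754748344314823884214013711018026737902669828584310734195448818392699046984142670058984378029592608645654659360569684672653060761638845780050789914821707734281108578114581261530787972866586343710205490642445617437972638850369612754031767478551339992338392360571753514808939572458225577803916121748526301789170782882240693006792193871064264334677755514110433819597065845682031010064998136342203785221401850667046495623652088214410923888041534022565162691506991433322372380607375685035999025579360427966464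

/-- mask of the proper divisors of the `a`-th 5-smooth number -/
def dm5 (a : ℕ) : ℕ := (TAB5 >>> (64 * a)) % 18446744073709551616

/-- prefix lengths -/
def PL5 : List ℕ := [0, 6, 10, 12, 14, 15, 18, 20, 21, 25, 26, 28, 30, 32, 33, 35, 36, 40, 41]

lemma dm5_lt : ∀ a < 41, dm5 a < 2 ^ a := by decide +kernel

lemma dm5_spec : ∀ a < 41, ∀ d < 41, ((dm5 a).testBit d = true ↔ d ≠ a ∧ el5 d ∣ el5 a) := by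
  decide +kernel

lemma el5_inj : ∀ a < 41, ∀ d < 41, el5 a = el5 d → a = d := by decide +kernel

lemma el5_mono : ∀ a < 41, ∀ d < 41, a ≤ d → el5 a ≤ el5 d := by decide +kernel

lemma PL5_le : ∀ j ≤ 18, PL5.getD j 100 ≤ 41 := by decide

set_option maxRecDepth 100000

private def c1 : Cert := (.m 0 (.l 5))

private lemma k1 : chk dm5 (PLf PL5 1) 6 0 c1 0 0 = true := by decide +kernel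

private def c2 : Cert := (.m 1 (.l 9))

private lemma k2 : chk dm5 (PLf PL5 2) 10 1 c2 0 0 = true := by decide +kernel

private def c3 : Cert := (.m 2 (.b 9 (.m 1 (.l 11)) (.l 9)))

private lemma k3 : chk dm5 (PLf PL5 3) 12 2 c3 0 0 = true := by decide +kernel

private def c4 : Cert := (.m 3 (.b 8 (.l 12) (.b 4 (.l 12) (.b 3 (.l 12) (.l 13)))))

private lemma k4 : chk dm5 (PLf PL5 4) 14 3 c4 0 0 = true := by decide +kernel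

private def c5 : Cert := (.m 4 (.l 14))

private lemma k5 : chk dm5 (PLf PL5 5) 15 4 c5 0 0 = true := by decide +kernel

private def c6 : Cert := (.m 5 (.b 10 (.b 14 (.l 17) (.l 14)) (.b 8 (.b 14 (.l 17) (.l 14)) (.b 5 (.b 4 (.b 14 (.l 17) (.l 14)) (.l 17)) (.l 17)))))

private lemma k6 : chk dm5 (PLf PL5 6) 18 5 c6 0 0 = true := by decide +kernel

private def c7 : Cert := (.m 6 (.b 12 (.b 9 (.b 17 (.m 5 (.l 19)) (.l 17)) (.b 7 (.b 14 (.l 19) (.l 14)) (.b 5 (.b 3 (.b 17 (.m 5 (.l 19)) (.l 17)) (.l 19)) (.l 19)))) (.b 9 (.b 7 (.b 17 (.m 5 (.l 19)) (.l 17)) (.b 5 (.b 3 (.b 17 (.m 5 (.l 19)) (.l 17)) (.l 19)) (.l 19))) (.b 7 (.b 5 (.b 3 (.b 17 (.m 5 (.l 19)) (.l 17)) (.l 19)) (.l 19)) (.l 19)))))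

private lemma k7 : chk dm5 (PLf PL5 7) 20 6 c7 0 0 = true := by decide +kernel

private def c8 : Cert := (.m 7 (.b 13 (.b 8 (.b 19 (.m 6 (.b 14 (.b 17 (.m 3 (.l 20)) (.l 17)) (.l 14))) (.l 19)) (.b 6 (.b 19 (.m 6 (.b 17 (.m 5 (.b 14 (.m 3 (.l 20)) (.l 14))) (.l 17))) (.l 19)) (.b 4 (.b 19 (.m 6 (.b 14 (.b 17 (.m 3 (.l 20)) (.l 17)) (.l 14))) (.l 19)) (.l 20)))) (.b 8 (.b 6 (.b 19 (.m 6 (.b 4 (.b 14 (.b 9 (.l 20) (.l 9)) (.l 14)) (.b 3 (.b 17 (.m 5 (.b 12 (.l 20) (.l 12))) (.l 17)) (.l 20)))) (.l 19)) (.b 4 (.b 19 (.m 6 (.b 14 (.b 3 (.b 12 (.l 20) (.l 12)) (.l 20)) (.l 14))) (.l 19)) (.l 20))) (.b 6 (.b 4 (.b 19 (.m 6 (.b 3 (.b 17 (.m 5 (.b 12 (.l 20) (.l 12))) (.l 17)) (.l 20))) (.l 19)) (.l 20)) (.l 20)))))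

private lemma k8 : chk dm5 (PLf PL5 8) 21 7 c8 0 0 = true := by decide +kernel

private def c9 : Cert := (.m 8 (.b 16 (.b 12 (.l 22) (.b 7 (.l 22) (.b 5 (.b 2 (.b 1 (.b 0 (.b 10 (.l 22) (.b 4 (.l 22) (.l 21))) (.l 24)) (.l 24)) (.l 24)) (.l 24)))) (.b 12 (.b 7 (.l 22) (.b 5 (.b 2 (.b 1 (.b 0 (.b 10 (.l 22) (.b 4 (.l 22) (.l 21))) (.l 24)) (.l 24)) (.l 24)) (.l 24))) (.b 7 (.b 5 (.b 2 (.b 1 (.b 0 (.b 15 (.l 22) (.b 8 (.l 22) (.b 4 (.l 22) (.l 23)))) (.l 24)) (.l 24)) (.l 24)) (.l 24)) (.l 24)))))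

private lemma k9 : chk dm5 (PLf PL5 9) 25 8 c9 0 0 = true := by decide +kernel

private def c10 : Cert := (.m 9 (.b 17 (.b 13 (.b 10 (.b 22 (.m 8 (.l 25)) (.l 22)) (.b 9 (.b 8 (.b 22 (.m 8 (.l 25)) (.l 22)) (.b 5 (.b 4 (.b 22 (.m 8 (.l 25)) (.l 22)) (.l 25)) (.l 25))) (.b 8 (.b 22 (.m 8 (.l 25)) (.l 22)) (.l 25)))) (.b 10 (.b 9 (.b 8 (.b 22 (.m 8 (.l 25)) (.l 22)) (.b 5 (.b 4 (.b 22 (.m 8 (.l 25)) (.l 22)) (.l 25)) (.l 25))) (.b 8 (.b 22 (.m 8 (.l 25)) (.l 22)) (.l 25))) (.b 9 (.b 8 (.b 5 (.b 4 (.b 22 (.m 8 (.l 25)) (.l 22)) (.l 25)) (.l 25)) (.l 25)) (.l 25)))) (.b 13 (.b 10 (.b 9 (.b 8 (.b 22 (.m 8 (.l 25)) (.l 22)) (.b 5 (.b 4 (.b 22 (.m 8 (.l 25)) (.l 22)) (.l 25)) (.l 25))) (.b 8 (.b 22 (.m 8 (.l 25)) (.l 22)) (.l 25))) (.b 9 (.b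 8 (.b 5 (.b 4 (.b 22 (.m 8 (.l 25)) (.l 22)) (.l 25)) (.l 25)) (.l 25)) (.l 25))) (.b 10 (.b 9 (.b 8 (.b 5 (.b 4 (.b 22 (.m 8 (.l 25)) (.l 22)) (.l 25)) (.l 25)) (.l 25)) (.l 25)) (.l 25)))))

private lemma k10 : chk dm5 (PLf PL5 10) 26 9 c10 0 0 = true := by decide +kernel

private def c11 : Cert := (.m 10 (.b 19 (.b 14 (.b 25 (.b 12 (.b 9 (.b 7 (.b 17 (.l 27) (.l 17)) (.b 6 (.b 17 (.l 27) (.l 17)) (.b 5 (.b 20 (.l 27) (.l 20)) (.l 27)))) (.b 7 (.b 22 (.m 8 (.l 27)) (.l 22)) (.b 6 (.b 5 (.b 3 (.b 17 (.l 27) (.l 17)) (.l 27)) (.l 27)) (.l 27)))) (.b 9 (.b 7 (.b 6 (.b 17 (.l 27) (.l 17)) (.b 5 (.b 20 (.l 27) (.l 20)) (.l 27))) (.b 6 (.b 5 (.b 3 (.b 17 (.l 27) (.l 17)) (.l 27)) (.l 27)) (.l 27))) (.b 7 (.b 6 (.b 5 (.b 3 (.b 17 (.l 27)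 (.l 17)) (.l 27)) (.l 27)) (.l 27)) (.l 27)))) (.l 25)) (.b 12 (.b 25 (.b 9 (.b 7 (.b 22 (.m 8 (.l 27)) (.l 22)) (.b 6 (.b 5 (.b 3 (.b 17 (.l 27) (.l 17)) (.l 27)) (.l 27)) (.l 27))) (.b 7 (.b 22 (.m 8 (.l 27)) (.l 22)) (.l 27))) (.l 25)) (.b 9 (.b 7 (.b 25 (.b 6 (.b 5 (.b 3 (.b 17 (.l 27) (.l 17)) (.l 27)) (.l 27)) (.l 27)) (.l 25)) (.l 27)) (.l 27)))) (.b 14 (.b 12 (.b 25 (.b 9 (.b 7 (.b 6 (.b 17 (.l 27) (.l 17)) (.b 5 (.b 20 (.l 27) (.l 20)) (.l 27))) (.b 6 (.b 5 (.b 3 (.b 17 (.l 27) (.l 17)) (.l 27)) (.l 27)) (.l 27))) (.b 7 (.b 6 (.b 5 (.b 3 (.b 17 (.l 27) (.l 17)) (.l 27)) (.l 27)) (.l 27)) (.l 27))) (.l 25)) (.b 9 (.b 7 (.b 25 (.b 6 (.b 5 (.b 3 (.b 17 (.l 27) (.l 17)) (.l 27)) (.l 27)) (.l 27)) (.l 25)) (.l 27)) (.l 27))) (.b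 12 (.b 9 (.b 7 (.b 25 (.b 6 (.b 5 (.b 3 (.b 17 (.l 27) (.l 17)) (.l 27)) (.l 27)) (.l 27)) (.l 25)) (.l 27)) (.l 27)) (.l 27)))))

private lemma k11 : chk dm5 (PLf PL5 11) 28 10 c11 0 0 = true := by decide +kernel

private def c12 : Cert := (.m 11 (.b 20 (.b 13 (.b 11 (.b 27 (.m 10 (.b 25 (.b 8 (.b 19 (.b 14 (.b 17 (.l 29) (.l 17)) (.l 14)) (.l 19)) (.b 6 (.b 19 (.b 17 (.b 14 (.l 29) (.l 14)) (.l 17)) (.l 19)) (.b 4 (.b 19 (.b 14 (.b 17 (.l 29) (.l 17)) (.l 14)) (.l 19)) (.l 29)))) (.l 25))) (.l 27)) (.b 8 (.b 27 (.m 10 (.b 6 (.b 25 (.b 19 (.b 22 (.m 6 (.l 24)) (.l 22)) (.l 19)) (.l 25)) (.b 4 (.b 22 (.b 19 (.b 14 (.l 26) (.l 14)) (.l 19)) (.l 22)) (.l 29)))) (.l 27)) (.b 6 (.b 4 (.b 27 (.m 10 (.b 25 (.b 19 (.b 22 (.m 6 (.l 24)) (.l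 22)) (.l 19)) (.l 25))) (.l 27)) (.l 29)) (.l 29)))) (.b 11 (.b 8 (.b 27 (.m 10 (.b 25 (.b 6 (.b 19 (.b 22 (.m 6 (.l 24)) (.l 22)) (.l 19)) (.b 4 (.b 19 (.b 14 (.b 22 (.m 6 (.l 29)) (.l 22)) (.l 14)) (.l 19)) (.l 29))) (.l 25))) (.l 27)) (.b 6 (.b 25 (.b 27 (.m 9 (.b 4 (.b 19 (.b 22 (.m 6 (.l 24)) (.l 22)) (.l 19)) (.l 29))) (.l 27)) (.l 25)) (.l 29))) (.b 8 (.b 6 (.b 4 (.b 27 (.m 10 (.b 25 (.b 19 (.b 22 (.m 6 (.l 24)) (.l 22)) (.l 19)) (.l 25))) (.l 27)) (.l 29)) (.l 29)) (.l 29)))) (.b 13 (.b 11 (.b 8 (.b 27 (.m 10 (.b 6 (.b 25 (.b 19 (.b 22 (.m 8 (.l 24)) (.l 22)) (.l 19)) (.l 25)) (.b 4 (.b 3 (.b 1 (.b 0 (.b 15 (.b 19 (.b 14 (.m 0 (.l 25)) (.l 14)) (.l 19)) (.b 10 (.b 19 (.b 14 (.m 0 (.l 25)) (.l 14)) (.l 19)) (.b 2 (.b 25 (.b 19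 (.m 0 (.l 24)) (.l 19)) (.b 17 (.b 19 (.m 0 (.l 25)) (.l 19)) (.b 9 (.b 24 (.m 0 (.l 25)) (.l 24)) (.l 25)))) (.l 28)))) (.l 29)) (.l 29)) (.l 29)) (.l 29)))) (.l 27)) (.b 6 (.b 4 (.b 27 (.m 10 (.b 25 (.b 19 (.b 22 (.m 8 (.l 24)) (.l 22)) (.l 19)) (.l 25))) (.l 27)) (.l 29)) (.l 29))) (.b 8 (.b 6 (.b 4 (.b 27 (.m 10 (.b 3 (.b 1 (.b 0 (.b 15 (.b 19 (.b 22 (.m 0 (.l 25)) (.l 22)) (.l 19)) (.b 10 (.b 19 (.b 22 (.m 0 (.l 25)) (.l 22)) (.l 19)) (.b 2 (.b 25 (.b 19 (.m 0 (.l 24)) (.l 19)) (.b 17 (.b 19 (.m 0 (.l 25)) (.l 19)) (.b 9 (.b 24 (.m 0 (.l 25)) (.l 24)) (.l 25)))) (.l 28)))) (.l 29)) (.l 29)) (.l 29))) (.l 27)) (.l 29)) (.l 29)) (.l 29))) (.b 11 (.b 8 (.b 6 (.b 4 (.b 27 (.m 10 (.b 25 (.b 19 (.b 22 (.m 8 (.l 24)) (.l 22)) (.l 19))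 (.l 25))) (.l 27)) (.l 29)) (.l 29)) (.l 29)) (.l 29)))))

private lemma k12 : chk dm5 (PLf PL5 12) 30 11 c12 0 0 = true := by decide +kernel

private def c13 : Cert := (.m 12 (.b 21 (.b 17 (.b 12 (.b 10 (.b 8 (.b 27 (.b 22 (.b 25 (.m 8 (.l 29)) (.l 25)) (.l 22)) (.l 27)) (.b 7 (.b 5 (.b 29 (.m 11 (.b 22 (.b 20 (.b 14 (.l 31) (.l 14)) (.l 20)) (.l 22))) (.l 29)) (.b 4 (.b 22 (.b 25 (.b 14 (.b 19 (.l 31) (.l 19)) (.l 14)) (.l 25)) (.l 22)) (.l 31))) (.b 5 (.b 4 (.b 27 (.b 22 (.b 25 (.m 8 (.l 29)) (.l 25)) (.l 22)) (.l 27)) (.l 31)) (.l 31)))) (.b 8 (.b 7 (.b 5 (.b 4 (.b 22 (.b 25 (.b 14 (.b 18 (.l 31) (.l 18)) (.l 14)) (.l 25)) (.l 22)) (.b 2 (.b 29 (.m 11 (.b 22 (.b 20 (.b 14 (.l 31) (.l 14)) (.l 20)) (.l 22))) (.l 29)) (.l 31))) (.b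 4 (.b 22 (.b 25 (.b 14 (.b 19 (.l 31) (.l 19)) (.l 14)) (.l 25)) (.l 22)) (.l 31))) (.b 5 (.b 4 (.b 27 (.b 22 (.b 25 (.m 8 (.l 29)) (.l 25)) (.l 22)) (.l 27)) (.l 31)) (.l 31))) (.b 7 (.b 5 (.b 4 (.b 2 (.b 29 (.m 11 (.b 22 (.b 20 (.b 14 (.l 31) (.l 14)) (.l 20)) (.l 22))) (.l 29)) (.l 31)) (.l 31)) (.l 31)) (.l 31)))) (.b 10 (.b 8 (.b 27 (.b 7 (.b 22 (.b 25 (.m 8 (.l 29)) (.l 25)) (.l 22)) (.b 5 (.b 4 (.b 22 (.b 19 (.b 14 (.l 31) (.l 14)) (.l 19)) (.l 22)) (.l 31)) (.l 31))) (.l 27)) (.b 7 (.b 5 (.b 4 (.b 27 (.b 22 (.b 25 (.m 8 (.l 29)) (.l 25)) (.l 22)) (.l 27)) (.l 31)) (.l 31)) (.l 31))) (.b 8 (.b 7 (.b 5 (.b 4 (.b 27 (.b 22 (.b 25 (.m 8 (.l 29)) (.l 25)) (.l 22)) (.l 27)) (.l 31)) (.l 31)) (.l 31)) (.l 31)))) (.b 12 (.b 10 (.b 8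 (.b 7 (.b 5 (.b 4 (.b 22 (.b 25 (.b 14 (.b 18 (.l 31) (.l 18)) (.l 14)) (.l 25)) (.l 22)) (.b 2 (.b 29 (.m 11 (.b 22 (.b 20 (.b 14 (.l 31) (.l 14)) (.l 20)) (.l 22))) (.l 29)) (.l 31))) (.b 4 (.b 22 (.b 25 (.b 14 (.b 19 (.l 31) (.l 19)) (.l 14)) (.l 25)) (.l 22)) (.l 31))) (.b 5 (.b 4 (.b 27 (.b 22 (.b 25 (.m 8 (.l 29)) (.l 25)) (.l 22)) (.l 27)) (.l 31)) (.l 31))) (.b 7 (.b 5 (.b 4 (.b 2 (.b 29 (.m 11 (.b 22 (.b 20 (.b 14 (.l 31) (.l 14)) (.l 20)) (.l 22))) (.l 29)) (.l 31)) (.l 31)) (.l 31)) (.l 31))) (.b 8 (.b 7 (.b 5 (.b 4 (.b 2 (.b 1 (.b 0 (.b 25 (.b 22 (.b 26 (.m 0 (.l 29)) (.l 26)) (.l 22)) (.b 13 (.b 22 (.l 25) (.l 22)) (.l 25))) (.l 31)) (.l 31)) (.l 31)) (.l 31)) (.l 31)) (.l 31)) (.l 31))) (.b 10 (.b 8 (.b 7 (.b 5 (.b 4 (.b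 27 (.b 22 (.b 25 (.m 8 (.l 29)) (.l 25)) (.l 22)) (.l 27)) (.l 31)) (.l 31)) (.l 31)) (.l 31)) (.l 31)))) (.b 17 (.b 12 (.b 10 (.b 8 (.b 7 (.b 5 (.b 4 (.b 22 (.b 27 (.b 14 (.b 18 (.l 31) (.l 18)) (.l 14)) (.l 27)) (.l 22)) (.b 2 (.b 29 (.m 11 (.b 22 (.b 20 (.b 14 (.l 31) (.l 14)) (.l 20)) (.l 22))) (.l 29)) (.l 31))) (.b 4 (.b 22 (.b 27 (.b 14 (.b 19 (.l 31) (.l 19)) (.l 14)) (.l 27)) (.l 22)) (.l 31))) (.b 5 (.b 4 (.b 27 (.b 22 (.b 29 (.m 10 (.l 26)) (.l 29)) (.l 22)) (.l 27)) (.l 31)) (.l 31))) (.b 7 (.b 5 (.b 4 (.b 2 (.b 29 (.m 11 (.b 22 (.b 20 (.b 14 (.l 31) (.l 14)) (.l 20)) (.l 22))) (.l 29)) (.l 31)) (.l 31)) (.l 31)) (.l 31))) (.b 8 (.b 7 (.b 5 (.b 4 (.b 2 (.b 1 (.b 0 (.b 25 (.b 22 (.b 26 (.m 0 (.l 29)) (.l 26)) (.l 22)) (.b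 13 (.b 22 (.b 26 (.m 0 (.l 29)) (.l 26)) (.l 22)) (.b 9 (.b 29 (.m 11 (.b 22 (.m 0 (.l 27)) (.l 22))) (.l 29)) (.l 25)))) (.l 31)) (.l 31)) (.l 31)) (.l 31)) (.l 31)) (.l 31)) (.l 31))) (.b 10 (.b 8 (.b 7 (.b 5 (.b 4 (.b 27 (.b 22 (.b 29 (.m 10 (.l 26)) (.l 29)) (.l 22)) (.l 27)) (.l 31)) (.l 31)) (.l 31)) (.l 31)) (.l 31))) (.b 12 (.b 10 (.b 8 (.b 7 (.b 5 (.b 4 (.b 2 (.b 1 (.b 0 (.b 25 (.b 22 (.b 26 (.m 0 (.l 29)) (.l 26)) (.l 22)) (.b 13 (.b 22 (.b 26 (.m 0 (.l 29)) (.l 26)) (.l 22)) (.b 9 (.b 29 (.m 11 (.b 22 (.m 0 (.l 27)) (.l 22))) (.l 29)) (.l 25)))) (.l 31)) (.l 31)) (.l 31)) (.l 31)) (.l 31)) (.l 31)) (.l 31)) (.l 31)) (.l 31)))))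

private lemma k13 : chk dm5 (PLf PL5 13) 32 12 c13 0 0 = true := by decide +kernel

private def c14 : Cert := (.m 13 (.b 22 (.b 18 (.b 14 (.b 11 (.b 9 (.b 31 (.m 12 (.b 25 (.b 27 (.b 29 (.m 8 (.l 24)) (.l 29)) (.l 27)) (.l 25))) (.l 31)) (.b 6 (.b 25 (.b 31 (.m 12 (.b 27 (.b 19 (.b 17 (.l 32) (.l 17)) (.l 19)) (.l 27))) (.l 31)) (.l 25)) (.b 5 (.b 3 (.b 31 (.m 12 (.b 25 (.b 27 (.b 29 (.m 8 (.l 24)) (.l 29)) (.l 27)) (.l 25))) (.l 31)) (.l 32)) (.l 32)))) (.b 9 (.b 6 (.b 31 (.m 12 (.b 25 (.b 5 (.b 29 (.m 11 (.b 27 (.m 8 (.l 24)) (.l 27))) (.l 29)) (.b 3 (.b 2 (.b 29 (.m 11 (.b 17 (.b 19 (.l 32) (.l 19)) (.l 17))) (.l 29)) (.l 32)) (.l 32))) (.l 25))) (.l 31)) (.b 5 (.b 3 (.b 31 (.m 12 (.b 2 (.b 29 (.m 11 (.b 25 (.b 20 (.b 17 (.l 32)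 (.l 17)) (.l 20)) (.l 25))) (.l 29)) (.l 32))) (.l 31)) (.l 32)) (.l 32))) (.b 6 (.b 5 (.b 3 (.b 31 (.m 12 (.b 25 (.b 2 (.b 29 (.m 11 (.b 27 (.m 8 (.l 24)) (.l 27))) (.l 29)) (.l 32)) (.l 25))) (.l 31)) (.l 32)) (.l 32)) (.l 32)))) (.b 11 (.b 9 (.b 6 (.b 31 (.m 12 (.b 25 (.b 27 (.b 5 (.b 29 (.m 8 (.l 24)) (.l 29)) (.b 3 (.b 17 (.b 19 (.l 32) (.l 19)) (.l 17)) (.l 32))) (.l 27)) (.l 25))) (.l 31)) (.b 5 (.b 3 (.b 31 (.m 12 (.b 2 (.b 1 (.b 0 (.b 27 (.b 25 (.b 20 (.m 0 (.l 29)) (.l 20)) (.l 25)) (.b 19 (.b 25 (.l 27) (.l 25)) (.l 27))) (.l 32)) (.l 32)) (.l 32))) (.l 31)) (.l 32)) (.l 32))) (.b 6 (.b 5 (.b 3 (.b 31 (.m 12 (.b 25 (.b 27 (.b 2 (.b 29 (.m 8 (.l 24)) (.l 29)) (.l 32)) (.l 27)) (.l 25))) (.l 31)) (.l 32)) (.l 32)) (.l 32)))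 (.b 9 (.b 6 (.b 5 (.b 3 (.b 31 (.m 12 (.b 2 (.b 1 (.b 0 (.b 29 (.m 11 (.b 25 (.b 27 (.m 0 (.l 28)) (.l 27)) (.l 25))) (.b 20 (.b 25 (.l 29) (.l 25)) (.b 13 (.b 8 (.b 27 (.m 0 (.l 29)) (.l 27)) (.l 29)) (.l 29)))) (.l 32)) (.l 32)) (.l 32))) (.l 31)) (.l 32)) (.l 32)) (.l 32)) (.l 32)))) (.b 14 (.b 11 (.b 9 (.b 6 (.b 31 (.m 12 (.b 25 (.b 5 (.b 3 (.b 2 (.b 29 (.m 11 (.b 17 (.l 28) (.l 17))) (.l 29)) (.b 1 (.b 0 (.b 16 (.b 17 (.m 0 (.l 29)) (.l 17)) (.b 7 (.b 17 (.m 0 (.l 29)) (.l 17)) (.l 30))) (.l 32)) (.l 32))) (.b 2 (.b 29 (.m 11 (.b 20 (.b 13 (.l 32) (.l 13)) (.l 20))) (.l 29)) (.l 32))) (.b 3 (.b 2 (.b 1 (.b 0 (.b 27 (.b 17 (.m 0 (.l 29)) (.l 17)) (.b 19 (.b 17 (.m 0 (.l 29)) (.l 17)) (.b 12 (.b 17 (.m 0 (.l 29)) (.l 17)) (.l 27))))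 (.l 32)) (.l 32)) (.l 32)) (.l 32))) (.l 25))) (.l 31)) (.b 5 (.b 3 (.b 31 (.m 12 (.b 2 (.b 1 (.b 0 (.b 29 (.m 11 (.b 25 (.b 20 (.m 0 (.l 28)) (.l 20)) (.l 25))) (.b 20 (.b 25 (.l 29) (.l 25)) (.b 13 (.b 8 (.b 27 (.m 0 (.l 29)) (.l 27)) (.l 29)) (.l 29)))) (.l 32)) (.l 32)) (.l 32))) (.l 31)) (.l 32)) (.l 32))) (.b 6 (.b 5 (.b 3 (.b 31 (.m 12 (.b 25 (.b 2 (.b 1 (.b 0 (.b 27 (.b 29 (.m 0 (.l 28)) (.l 29)) (.b 19 (.b 29 (.m 0 (.l 28)) (.l 29)) (.b 12 (.b 29 (.m 0 (.l 28)) (.l 29)) (.l 27)))) (.l 32)) (.l 32)) (.l 32)) (.l 25))) (.l 31)) (.l 32)) (.l 32)) (.l 32))) (.b 9 (.b 6 (.b 5 (.b 3 (.b 31 (.m 12 (.b 2 (.b 1 (.b 0 (.b 29 (.m 11 (.b 25 (.b 15 (.m 0 (.l 27)) (.b 10 (.m 0 (.l 27)) (.b 4 (.m 0 (.l 27)) (.l 28)))) (.l 25))) (.b 20 (.b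 25 (.l 29) (.l 25)) (.b 13 (.b 8 (.b 4 (.m 0 (.l 27)) (.l 29)) (.l 29)) (.l 29)))) (.l 32)) (.l 32)) (.l 32))) (.l 31)) (.l 32)) (.l 32)) (.l 32)) (.l 32))) (.b 11 (.b 9 (.b 6 (.b 5 (.b 3 (.b 31 (.m 12 (.b 2 (.b 1 (.b 0 (.b 27 (.b 25 (.b 29 (.m 0 (.l 28)) (.l 29)) (.l 25)) (.b 19 (.b 25 (.b 29 (.m 0 (.l 28)) (.l 29)) (.l 25)) (.b 12 (.b 25 (.b 29 (.m 0 (.l 28)) (.l 29)) (.l 25)) (.l 27)))) (.l 32)) (.l 32)) (.l 32))) (.l 31)) (.l 32)) (.l 32)) (.l 32)) (.l 32)) (.l 32)))) (.b 18 (.b 14 (.b 11 (.b 9 (.b 6 (.b 31 (.m 12 (.b 25 (.b 5 (.b 3 (.b 2 (.b 29 (.m 11 (.b 17 (.l 28) (.l 17))) (.l 29)) (.b 1 (.b 0 (.b 16 (.b 17 (.m 0 (.l 29)) (.l 17)) (.b 7 (.b 17 (.m 0 (.l 29)) (.l 17)) (.l 30))) (.l 32)) (.l 32))) (.b 2 (.b 29 (.m 11 (.b 20 (.b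 13 (.l 32) (.l 13)) (.l 20))) (.l 29)) (.l 32))) (.b 3 (.b 2 (.b 1 (.b 0 (.b 27 (.b 17 (.m 0 (.l 29)) (.l 17)) (.b 19 (.b 17 (.m 0 (.l 29)) (.l 17)) (.b 12 (.b 17 (.m 0 (.l 29)) (.l 17)) (.l 27)))) (.l 32)) (.l 32)) (.l 32)) (.l 32))) (.l 25))) (.l 31)) (.b 5 (.b 3 (.b 31 (.m 12 (.b 2 (.b 1 (.b 0 (.b 29 (.m 11 (.b 25 (.b 20 (.m 0 (.l 28)) (.l 20)) (.l 25))) (.b 20 (.b 25 (.l 29) (.l 25)) (.b 13 (.b 8 (.b 27 (.m 0 (.l 29)) (.l 27)) (.l 29)) (.l 29)))) (.l 32)) (.l 32)) (.l 32))) (.l 31)) (.l 32)) (.l 32))) (.b 6 (.b 5 (.b 3 (.b 31 (.m 12 (.b 25 (.b 2 (.b 1 (.b 0 (.b 27 (.b 29 (.m 0 (.l 28)) (.l 29)) (.b 19 (.b 29 (.m 0 (.l 28)) (.l 29)) (.b 12 (.b 29 (.m 0 (.l 28)) (.l 29)) (.l 27)))) (.l 32)) (.l 32)) (.l 32)) (.l 25))) (.l 31)) (.l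 32)) (.l 32)) (.l 32))) (.b 9 (.b 6 (.b 5 (.b 3 (.b 31 (.m 12 (.b 2 (.b 1 (.b 0 (.b 29 (.m 11 (.b 25 (.b 15 (.m 0 (.l 27)) (.b 10 (.m 0 (.l 27)) (.b 4 (.m 0 (.l 27)) (.l 28)))) (.l 25))) (.b 20 (.b 25 (.l 29) (.l 25)) (.b 13 (.b 8 (.b 4 (.m 0 (.l 27)) (.l 29)) (.l 29)) (.l 29)))) (.l 32)) (.l 32)) (.l 32))) (.l 31)) (.l 32)) (.l 32)) (.l 32)) (.l 32))) (.b 11 (.b 9 (.b 6 (.b 5 (.b 3 (.b 31 (.m 12 (.b 2 (.b 1 (.b 0 (.b 27 (.b 25 (.b 29 (.m 0 (.l 28)) (.l 29)) (.l 25)) (.b 19 (.b 25 (.b 29 (.m 0 (.l 28)) (.l 29)) (.l 25)) (.b 12 (.b 25 (.b 29 (.m 0 (.l 28)) (.l 29)) (.l 25)) (.l 27)))) (.l 32)) (.l 32)) (.l 32))) (.l 31)) (.l 32)) (.l 32)) (.l 32)) (.l 32)) (.l 32))) (.b 14 (.b 11 (.b 9 (.b 6 (.b 5 (.b 3 (.b 31 (.m 12 (.b 2 (.b 1 (.b 0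 (.b 29 (.m 11 (.b 25 (.b 15 (.m 0 (.l 27)) (.b 10 (.m 0 (.l 27)) (.b 4 (.m 0 (.l 27)) (.l 28)))) (.l 25))) (.b 20 (.b 25 (.b 13 (.m 0 (.l 28)) (.b 8 (.m 0 (.l 28)) (.b 4 (.m 0 (.l 27)) (.l 29)))) (.l 25)) (.b 13 (.b 8 (.b 28 (.m 0 (.l 27)) (.b 15 (.m 0 (.l 27)) (.b 10 (.m 0 (.l 27)) (.b 4 (.m 0 (.l 27)) (.l 28))))) (.b 4 (.b 25 (.m 0 (.l 27)) (.b 17 (.m 0 (.l 27)) (.b 10 (.m 0 (.l 27)) (.l 25)))) (.l 29))) (.b 8 (.b 4 (.b 25 (.m 0 (.l 27)) (.b 17 (.m 0 (.l 27)) (.b 10 (.m 0 (.l 27)) (.l 25)))) (.l 29)) (.l 29))))) (.l 32)) (.l 32)) (.l 32))) (.l 31)) (.l 32)) (.l 32)) (.l 32)) (.l 32)) (.l 32)) (.l 32)))))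

private lemma k14 : chk dm5 (PLf PL5 14) 33 13 c14 0 0 = true := by decide +kernel

private def c15 : Cert := (.m 14 (.b 24 (.b 19 (.b 16 (.b 12 (.b 9 (.b 7 (.b 5 (.b 3 (.b 2 (.b 29 (.l 33) (.l 29)) (.b 1 (.b 23 (.b 25 (.b 29 (.l 33) (.l 29)) (.l 25)) (.b 15 (.b 25 (.b 29 (.l 33) (.l 29)) (.l 25)) (.b 13 (.b 31 (.b 25 (.l 33) (.l 25)) (.l 31)) (.l 33)))) (.b 0 (.b 23 (.b 25 (.b 29 (.l 33) (.l 29)) (.l 25)) (.b 15 (.b 25 (.b 29 (.l 33) (.l 29)) (.l 25)) (.l 33))) (.l 34)))) (.b 2 (.b 29 (.l 33) (.l 29)) (.b 1 (.b 0 (.b 23 (.b 25 (.b 29 (.l 33) (.l 29)) (.l 25)) (.b 15 (.b 25 (.b 29 (.l 33) (.l 29)) (.l 25)) (.l 33))) (.l 34)) (.l 34)))) (.b 3 (.b 2 (.b 1 (.b 23 (.b 25 (.b 29 (.l 33) (.l 29)) (.l 25)) (.b 15 (.b 25 (.b 29 (.l 33) (.l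 29)) (.l 25)) (.b 13 (.b 31 (.b 25 (.l 33) (.l 25)) (.l 31)) (.l 33)))) (.b 0 (.b 23 (.b 25 (.b 29 (.l 33) (.l 29)) (.l 25)) (.b 15 (.b 25 (.b 29 (.l 33) (.l 29)) (.l 25)) (.l 33))) (.l 34))) (.b 1 (.b 0 (.b 32 (.b 25 (.b 29 (.l 33) (.l 29)) (.l 25)) (.b 22 (.b 25 (.l 32) (.l 25)) (.l 32))) (.l 34)) (.l 34))) (.b 2 (.b 1 (.b 0 (.b 23 (.b 25 (.b 29 (.l 33) (.l 29)) (.l 25)) (.b 15 (.b 25 (.b 29 (.l 33) (.l 29)) (.l 25)) (.l 33))) (.l 34)) (.l 34)) (.l 34)))) (.b 5 (.b 3 (.b 2 (.b 1 (.b 23 (.b 29 (.b 25 (.l 33) (.l 25)) (.l 29)) (.b 15 (.b 29 (.b 25 (.l 33) (.l 25)) (.l 29)) (.b 13 (.b 31 (.b 29 (.l 33) (.l 29)) (.l 31)) (.l 33)))) (.b 0 (.b 23 (.b 29 (.b 25 (.l 33) (.l 25)) (.l 29)) (.b 15 (.b 29 (.b 25 (.l 33) (.l 25)) (.l 29)) (.l 33)))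 (.l 34))) (.b 1 (.b 0 (.b 31 (.b 27 (.b 25 (.l 33) (.l 25)) (.b 14 (.b 25 (.l 33) (.l 25)) (.l 27))) (.b 21 (.b 17 (.b 29 (.l 33) (.l 29)) (.l 31)) (.l 31))) (.l 34)) (.l 34))) (.b 2 (.b 1 (.b 0 (.b 23 (.b 29 (.b 25 (.l 33) (.l 25)) (.l 29)) (.b 15 (.b 29 (.b 25 (.l 33) (.l 25)) (.l 29)) (.l 33))) (.l 34)) (.l 34)) (.l 34))) (.b 3 (.b 2 (.b 1 (.b 0 (.b 31 (.b 27 (.b 25 (.l 33) (.l 25)) (.b 14 (.b 25 (.l 33) (.l 25)) (.l 27))) (.b 21 (.b 17 (.b 29 (.l 33) (.l 29)) (.l 31)) (.l 31))) (.l 34)) (.l 34)) (.l 34)) (.l 34)))) (.b 7 (.b 5 (.b 3 (.b 2 (.b 1 (.b 23 (.b 25 (.b 29 (.l 33) (.l 29)) (.l 25)) (.b 15 (.b 25 (.b 29 (.l 33) (.l 29)) (.l 25)) (.b 13 (.b 32 (.b 25 (.l 33) (.l 25)) (.l 32)) (.l 33)))) (.b 0 (.b 23 (.b 25 (.b 29 (.l 33) (.l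 29)) (.l 25)) (.b 15 (.b 25 (.b 29 (.l 33) (.l 29)) (.l 25)) (.l 33))) (.l 34))) (.b 1 (.b 0 (.b 32 (.b 25 (.b 29 (.l 33) (.l 29)) (.l 25)) (.b 22 (.b 25 (.l 32) (.l 25)) (.l 32))) (.l 34)) (.l 34))) (.b 2 (.b 1 (.b 0 (.b 23 (.b 25 (.b 29 (.l 33) (.l 29)) (.l 25)) (.b 15 (.b 25 (.b 29 (.l 33) (.l 29)) (.l 25)) (.l 33))) (.l 34)) (.l 34)) (.l 34))) (.b 3 (.b 2 (.b 1 (.b 0 (.b 32 (.b 25 (.b 29 (.l 33) (.l 29)) (.l 25)) (.b 22 (.b 25 (.l 32) (.l 25)) (.l 32))) (.l 34)) (.l 34)) (.l 34)) (.l 34))) (.b 5 (.b 3 (.b 2 (.b 1 (.b 0 (.b 27 (.b 23 (.b 25 (.b 29 (.l 33) (.l 29)) (.l 25)) (.b 15 (.b 25 (.b 29 (.l 33) (.l 29)) (.l 25)) (.b 13 (.b 31 (.b 25 (.l 33) (.l 25)) (.l 31)) (.l 33)))) (.b 14 (.b 6 (.b 25 (.l 33) (.l 25)) (.l 27)) (.l 27)))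 (.l 34)) (.l 34)) (.l 34)) (.l 34)) (.l 34)))) (.b 9 (.b 7 (.b 5 (.b 3 (.b 2 (.b 1 (.b 23 (.b 29 (.b 25 (.l 33) (.l 25)) (.l 29)) (.b 15 (.b 29 (.b 25 (.l 33) (.l 25)) (.l 29)) (.b 13 (.b 31 (.b 29 (.l 33) (.l 29)) (.l 31)) (.l 33)))) (.b 0 (.b 23 (.b 29 (.b 25 (.l 33) (.l 25)) (.l 29)) (.b 15 (.b 29 (.b 25 (.l 33) (.l 25)) (.l 29)) (.l 33))) (.l 34))) (.b 1 (.b 0 (.b 31 (.b 27 (.b 25 (.l 33) (.l 25)) (.b 14 (.b 25 (.l 33) (.l 25)) (.l 27))) (.b 21 (.b 17 (.b 29 (.l 33) (.l 29)) (.l 31)) (.l 31))) (.l 34)) (.l 34))) (.b 2 (.b 1 (.b 0 (.b 23 (.b 29 (.b 25 (.l 33) (.l 25)) (.l 29)) (.b 15 (.b 29 (.b 25 (.l 33) (.l 25)) (.l 29)) (.l 33))) (.l 34)) (.l 34)) (.l 34))) (.b 3 (.b 2 (.b 1 (.b 0 (.b 31 (.b 27 (.b 25 (.l 33) (.l 25)) (.b 14 (.b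 25 (.l 33) (.l 25)) (.l 27))) (.b 21 (.b 17 (.b 29 (.l 33) (.l 29)) (.l 31)) (.l 31))) (.l 34)) (.l 34)) (.l 34)) (.l 34))) (.b 5 (.b 3 (.b 2 (.b 1 (.b 0 (.b 31 (.b 27 (.b 29 (.l 33) (.l 29)) (.b 14 (.b 29 (.l 33) (.l 29)) (.l 27))) (.b 21 (.b 17 (.b 29 (.l 33) (.l 29)) (.l 31)) (.l 31))) (.l 34)) (.l 34)) (.l 34)) (.l 34)) (.l 34))) (.b 7 (.b 5 (.b 3 (.b 2 (.b 1 (.b 0 (.b 27 (.b 23 (.b 25 (.b 29 (.l 33) (.l 29)) (.l 25)) (.b 15 (.b 25 (.b 29 (.l 33) (.l 29)) (.l 25)) (.b 13 (.b 31 (.b 25 (.l 33) (.l 25)) (.l 31)) (.l 33)))) (.b 14 (.b 6 (.b 25 (.l 33) (.l 25)) (.l 27)) (.l 27))) (.l 34)) (.l 34)) (.l 34)) (.l 34)) (.l 34)) (.l 34)))) (.b 12 (.b 9 (.b 7 (.b 5 (.b 3 (.b 2 (.b 1 (.b 23 (.b 29 (.b 25 (.l 33) (.l 25)) (.l 29)) (.b 15 (.b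 29 (.b 25 (.l 33) (.l 25)) (.l 29)) (.b 13 (.b 8 (.b 32 (.b 29 (.l 33) (.l 29)) (.l 32)) (.l 33)) (.l 33)))) (.b 0 (.b 23 (.b 29 (.b 25 (.l 33) (.l 25)) (.l 29)) (.b 15 (.b 29 (.b 25 (.l 33) (.l 25)) (.l 29)) (.l 33))) (.l 34))) (.b 1 (.b 0 (.b 23 (.b 15 (.b 25 (.b 29 (.b 17 (.m 0 (.l 33)) (.l 17)) (.l 29)) (.l 25)) (.b 13 (.b 31 (.b 25 (.b 17 (.m 0 (.l 33)) (.l 17)) (.l 25)) (.l 31)) (.b 8 (.b 32 (.b 25 (.b 22 (.m 0 (.l 33)) (.l 22)) (.l 25)) (.l 32)) (.l 33)))) (.b 15 (.b 13 (.b 31 (.b 25 (.b 17 (.m 0 (.l 33)) (.l 17)) (.l 25)) (.l 31)) (.b 8 (.b 32 (.b 25 (.b 22 (.m 0 (.l 33)) (.l 22)) (.l 25)) (.l 32)) (.l 33))) (.b 13 (.b 8 (.b 32 (.b 31 (.m 12 (.b 22 (.m 0 (.l 33)) (.l 22))) (.l 31)) (.l 32)) (.l 33)) (.l 33)))) (.l 34)) (.l 34)))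 (.b 2 (.b 1 (.b 0 (.b 23 (.b 29 (.b 25 (.l 33) (.l 25)) (.l 29)) (.b 15 (.b 29 (.b 25 (.l 33) (.l 25)) (.l 29)) (.l 33))) (.l 34)) (.l 34)) (.l 34))) (.b 3 (.b 2 (.b 1 (.b 0 (.b 23 (.b 15 (.b 25 (.b 29 (.b 17 (.m 0 (.l 33)) (.l 17)) (.l 29)) (.l 25)) (.b 13 (.b 31 (.b 25 (.b 17 (.m 0 (.l 33)) (.l 17)) (.l 25)) (.l 31)) (.b 8 (.b 32 (.b 25 (.b 22 (.m 0 (.l 33)) (.l 22)) (.l 25)) (.l 32)) (.l 33)))) (.b 15 (.b 13 (.b 31 (.b 25 (.b 17 (.m 0 (.l 33)) (.l 17)) (.l 25)) (.l 31)) (.b 8 (.b 32 (.b 25 (.b 22 (.m 0 (.l 33)) (.l 22)) (.l 25)) (.l 32)) (.l 33))) (.b 13 (.b 8 (.b 32 (.b 31 (.m 12 (.b 22 (.m 0 (.l 33)) (.l 22))) (.l 31)) (.l 32)) (.l 33)) (.l 33)))) (.l 34)) (.l 34)) (.l 34)) (.l 34))) (.b 5 (.b 3 (.b 2 (.b 1 (.b 0 (.b 23 (.b 15 (.b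 29 (.b 25 (.b 20 (.m 0 (.l 33)) (.l 20)) (.l 25)) (.l 29)) (.b 13 (.b 31 (.b 29 (.b 25 (.m 0 (.l 33)) (.l 25)) (.l 29)) (.l 31)) (.b 8 (.b 4 (.b 32 (.b 29 (.m 0 (.l 31)) (.l 29)) (.l 32)) (.l 33)) (.l 33)))) (.b 15 (.b 13 (.b 31 (.b 29 (.b 25 (.m 0 (.l 33)) (.l 25)) (.l 29)) (.l 31)) (.b 8 (.b 4 (.b 32 (.b 29 (.m 0 (.l 31)) (.l 29)) (.l 32)) (.l 33)) (.l 33))) (.b 13 (.b 8 (.b 4 (.b 32 (.b 31 (.m 0 (.l 29)) (.l 31)) (.l 32)) (.l 33)) (.l 33)) (.l 33)))) (.l 34)) (.l 34)) (.l 34)) (.l 34)) (.l 34))) (.b 7 (.b 5 (.b 3 (.b 2 (.b 1 (.b 0 (.b 23 (.b 15 (.b 25 (.b 29 (.b 20 (.m 0 (.l 33)) (.l 20)) (.l 29)) (.l 25)) (.b 13 (.b 32 (.b 25 (.b 22 (.m 0 (.l 33)) (.l 22)) (.l 25)) (.l 32)) (.b 8 (.b 32 (.b 25 (.b 22 (.m 0 (.l 33)) (.l 22)) (.l 25))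 (.l 32)) (.l 33)))) (.b 15 (.b 13 (.b 32 (.b 25 (.b 22 (.m 0 (.l 33)) (.l 22)) (.l 25)) (.l 32)) (.b 8 (.b 32 (.b 25 (.b 22 (.m 0 (.l 33)) (.l 22)) (.l 25)) (.l 32)) (.l 33))) (.b 13 (.b 8 (.b 32 (.b 4 (.b 22 (.m 0 (.l 31)) (.l 22)) (.l 33)) (.l 32)) (.l 33)) (.l 33)))) (.l 34)) (.l 34)) (.l 34)) (.l 34)) (.l 34)) (.l 34))) (.b 9 (.b 7 (.b 5 (.b 3 (.b 2 (.b 1 (.b 0 (.b 23 (.b 15 (.b 29 (.b 25 (.b 20 (.m 0 (.l 33)) (.l 20)) (.l 25)) (.l 29)) (.b 13 (.b 31 (.b 29 (.b 25 (.m 0 (.l 33)) (.l 25)) (.l 29)) (.l 31)) (.b 8 (.b 4 (.b 32 (.b 29 (.m 0 (.l 31)) (.l 29)) (.l 32)) (.l 33)) (.l 33)))) (.b 15 (.b 13 (.b 31 (.b 29 (.b 25 (.m 0 (.l 33)) (.l 25)) (.l 29)) (.l 31)) (.b 8 (.b 4 (.b 32 (.b 29 (.m 0 (.l 31)) (.l 29)) (.l 32)) (.l 33)) (.l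 33))) (.b 13 (.b 8 (.b 4 (.b 32 (.b 31 (.m 0 (.l 29)) (.l 31)) (.l 32)) (.l 33)) (.l 33)) (.l 33)))) (.l 34)) (.l 34)) (.l 34)) (.l 34)) (.l 34)) (.l 34)) (.l 34)))) (.b 16 (.b 12 (.b 9 (.b 7 (.b 5 (.b 3 (.b 2 (.b 1 (.b 23 (.b 29 (.b 25 (.l 33) (.l 25)) (.l 29)) (.b 15 (.b 29 (.b 25 (.l 33) (.l 25)) (.l 29)) (.b 13 (.b 8 (.b 32 (.b 29 (.l 33) (.l 29)) (.l 32)) (.l 33)) (.l 33)))) (.b 0 (.b 23 (.b 29 (.b 25 (.l 33) (.l 25)) (.l 29)) (.b 15 (.b 29 (.b 25 (.l 33) (.l 25)) (.l 29)) (.l 33))) (.l 34))) (.b 1 (.b 0 (.b 27 (.b 23 (.b 25 (.b 29 (.l 33) (.l 29)) (.l 25)) (.b 15 (.b 25 (.b 29 (.l 33) (.l 29)) (.l 25)) (.b 13 (.b 31 (.b 25 (.l 33) (.l 25)) (.l 31)) (.l 33)))) (.b 14 (.b 6 (.b 25 (.l 33) (.l 25)) (.l 27)) (.l 27))) (.l 34)) (.l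 34))) (.b 2 (.b 1 (.b 0 (.b 23 (.b 29 (.b 25 (.l 33) (.l 25)) (.l 29)) (.b 15 (.b 29 (.b 25 (.l 33) (.l 25)) (.l 29)) (.l 33))) (.l 34)) (.l 34)) (.l 34))) (.b 3 (.b 2 (.b 1 (.b 0 (.b 27 (.b 23 (.b 25 (.b 29 (.l 33) (.l 29)) (.l 25)) (.b 15 (.b 25 (.b 29 (.l 33) (.l 29)) (.l 25)) (.b 13 (.b 31 (.b 25 (.l 33) (.l 25)) (.l 31)) (.l 33)))) (.b 14 (.b 6 (.b 25 (.l 33) (.l 25)) (.l 27)) (.l 27))) (.l 34)) (.l 34)) (.l 34)) (.l 34))) (.b 5 (.b 3 (.b 2 (.b 1 (.b 0 (.b 27 (.b 23 (.b 29 (.b 25 (.l 33) (.l 25)) (.l 29)) (.b 15 (.b 29 (.b 25 (.l 33) (.l 25)) (.l 29)) (.b 13 (.b 31 (.b 29 (.l 33) (.l 29)) (.l 31)) (.l 33)))) (.b 14 (.b 6 (.b 31 (.l 33) (.l 31)) (.l 27)) (.l 27))) (.l 34)) (.l 34)) (.l 34)) (.l 34)) (.l 34))) (.b 7 (.b 5 (.b 3 (.b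 2 (.b 1 (.b 0 (.b 27 (.b 23 (.b 25 (.b 29 (.l 33) (.l 29)) (.l 25)) (.b 15 (.b 25 (.b 29 (.l 33) (.l 29)) (.l 25)) (.b 13 (.b 32 (.b 25 (.l 33) (.l 25)) (.l 32)) (.l 33)))) (.b 14 (.b 6 (.b 25 (.l 33) (.l 25)) (.l 27)) (.l 27))) (.l 34)) (.l 34)) (.l 34)) (.l 34)) (.l 34)) (.l 34))) (.b 9 (.b 7 (.b 5 (.b 3 (.b 2 (.b 1 (.b 0 (.b 27 (.b 23 (.b 29 (.b 25 (.l 33) (.l 25)) (.l 29)) (.b 15 (.b 29 (.b 25 (.l 33) (.l 25)) (.l 29)) (.b 13 (.b 31 (.b 29 (.l 33) (.l 29)) (.l 31)) (.l 33)))) (.b 14 (.b 6 (.b 31 (.l 33) (.l 31)) (.l 27)) (.l 27))) (.l 34)) (.l 34)) (.l 34)) (.l 34)) (.l 34)) (.l 34)) (.l 34))) (.b 12 (.b 9 (.b 7 (.b 5 (.b 3 (.b 2 (.b 1 (.b 0 (.b 23 (.b 15 (.b 29 (.b 25 (.b 20 (.m 0 (.l 33)) (.l 20)) (.l 25)) (.l 29)) (.b 13 (.b 8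 (.b 32 (.b 29 (.m 0 (.l 31)) (.l 29)) (.l 32)) (.b 4 (.b 32 (.b 29 (.m 0 (.l 31)) (.l 29)) (.l 32)) (.l 33))) (.b 8 (.b 4 (.b 32 (.b 29 (.m 0 (.l 31)) (.l 29)) (.l 32)) (.l 33)) (.l 33)))) (.b 15 (.b 13 (.b 8 (.b 32 (.b 29 (.m 0 (.l 31)) (.l 29)) (.l 32)) (.b 4 (.b 32 (.b 29 (.m 0 (.l 31)) (.l 29)) (.l 32)) (.l 33))) (.b 8 (.b 4 (.b 32 (.b 29 (.m 0 (.l 31)) (.l 29)) (.l 32)) (.l 33)) (.l 33))) (.b 13 (.b 8 (.b 4 (.b 32 (.b 27 (.m 0 (.l 31)) (.b 14 (.m 0 (.l 31)) (.b 6 (.m 0 (.l 31)) (.l 27)))) (.l 32)) (.l 33)) (.l 33)) (.l 33)))) (.l 34)) (.l 34)) (.l 34)) (.l 34)) (.l 34)) (.l 34)) (.l 34)) (.l 34)))) (.b 19 (.b 16 (.b 12 (.b 9 (.b 7 (.b 5 (.b 3 (.b 2 (.b 1 (.b 23 (.b 29 (.b 25 (.l 33) (.l 25)) (.l 29)) (.b 15 (.b 29 (.b 25 (.l 33)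 (.l 25)) (.l 29)) (.b 13 (.b 8 (.b 32 (.b 29 (.l 33) (.l 29)) (.l 32)) (.l 33)) (.l 33)))) (.b 0 (.b 23 (.b 29 (.b 25 (.l 33) (.l 25)) (.l 29)) (.b 15 (.b 29 (.b 25 (.l 33) (.l 25)) (.l 29)) (.l 33))) (.l 34))) (.b 1 (.b 0 (.b 23 (.b 15 (.b 25 (.b 29 (.b 17 (.m 0 (.l 33)) (.l 17)) (.l 29)) (.l 25)) (.b 13 (.b 31 (.b 25 (.b 17 (.m 0 (.l 33)) (.l 17)) (.l 25)) (.l 31)) (.b 8 (.b 32 (.b 25 (.b 22 (.m 0 (.l 33)) (.l 22)) (.l 25)) (.l 32)) (.l 33)))) (.b 15 (.b 13 (.b 31 (.b 25 (.b 17 (.m 0 (.l 33)) (.l 17)) (.l 25)) (.l 31)) (.b 8 (.b 32 (.b 25 (.b 22 (.m 0 (.l 33)) (.l 22)) (.l 25)) (.l 32)) (.l 33))) (.b 13 (.b 8 (.b 32 (.b 31 (.m 12 (.b 22 (.m 0 (.l 33)) (.l 22))) (.l 31)) (.l 32)) (.l 33)) (.l 33)))) (.l 34)) (.l 34))) (.b 2 (.b 1 (.b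 0 (.b 23 (.b 29 (.b 25 (.l 33) (.l 25)) (.l 29)) (.b 15 (.b 29 (.b 25 (.l 33) (.l 25)) (.l 29)) (.l 33))) (.l 34)) (.l 34)) (.l 34))) (.b 3 (.b 2 (.b 1 (.b 0 (.b 23 (.b 15 (.b 25 (.b 29 (.b 17 (.m 0 (.l 33)) (.l 17)) (.l 29)) (.l 25)) (.b 13 (.b 31 (.b 25 (.b 17 (.m 0 (.l 33)) (.l 17)) (.l 25)) (.l 31)) (.b 8 (.b 32 (.b 25 (.b 22 (.m 0 (.l 33)) (.l 22)) (.l 25)) (.l 32)) (.l 33)))) (.b 15 (.b 13 (.b 31 (.b 25 (.b 17 (.m 0 (.l 33)) (.l 17)) (.l 25)) (.l 31)) (.b 8 (.b 32 (.b 25 (.b 22 (.m 0 (.l 33)) (.l 22)) (.l 25)) (.l 32)) (.l 33))) (.b 13 (.b 8 (.b 32 (.b 31 (.m 12 (.b 22 (.m 0 (.l 33)) (.l 22))) (.l 31)) (.l 32)) (.l 33)) (.l 33)))) (.l 34)) (.l 34)) (.l 34)) (.l 34))) (.b 5 (.b 3 (.b 2 (.b 1 (.b 0 (.b 23 (.b 15 (.b 29 (.b 25 (.b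 20 (.m 0 (.l 33)) (.l 20)) (.l 25)) (.l 29)) (.b 13 (.b 31 (.b 29 (.b 25 (.m 0 (.l 33)) (.l 25)) (.l 29)) (.l 31)) (.b 8 (.b 4 (.b 32 (.b 29 (.m 0 (.l 31)) (.l 29)) (.l 32)) (.l 33)) (.l 33)))) (.b 15 (.b 13 (.b 31 (.b 29 (.b 25 (.m 0 (.l 33)) (.l 25)) (.l 29)) (.l 31)) (.b 8 (.b 4 (.b 32 (.b 29 (.m 0 (.l 31)) (.l 29)) (.l 32)) (.l 33)) (.l 33))) (.b 13 (.b 8 (.b 4 (.b 32 (.b 31 (.m 0 (.l 29)) (.l 31)) (.l 32)) (.l 33)) (.l 33)) (.l 33)))) (.l 34)) (.l 34)) (.l 34)) (.l 34)) (.l 34))) (.b 7 (.b 5 (.b 3 (.b 2 (.b 1 (.b 0 (.b 23 (.b 15 (.b 25 (.b 29 (.b 20 (.m 0 (.l 33)) (.l 20)) (.l 29)) (.l 25)) (.b 13 (.b 32 (.b 25 (.b 22 (.m 0 (.l 33)) (.l 22)) (.l 25)) (.l 32)) (.b 8 (.b 32 (.b 25 (.b 22 (.m 0 (.l 33)) (.l 22)) (.l 25)) (.l 32)) (.l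 33)))) (.b 15 (.b 13 (.b 32 (.b 25 (.b 22 (.m 0 (.l 33)) (.l 22)) (.l 25)) (.l 32)) (.b 8 (.b 32 (.b 25 (.b 22 (.m 0 (.l 33)) (.l 22)) (.l 25)) (.l 32)) (.l 33))) (.b 13 (.b 8 (.b 32 (.b 4 (.b 22 (.m 0 (.l 31)) (.l 22)) (.l 33)) (.l 32)) (.l 33)) (.l 33)))) (.l 34)) (.l 34)) (.l 34)) (.l 34)) (.l 34)) (.l 34))) (.b 9 (.b 7 (.b 5 (.b 3 (.b 2 (.b 1 (.b 0 (.b 23 (.b 15 (.b 29 (.b 25 (.b 20 (.m 0 (.l 33)) (.l 20)) (.l 25)) (.l 29)) (.b 13 (.b 31 (.b 29 (.b 25 (.m 0 (.l 33)) (.l 25)) (.l 29)) (.l 31)) (.b 8 (.b 4 (.b 32 (.b 29 (.m 0 (.l 31)) (.l 29)) (.l 32)) (.l 33)) (.l 33)))) (.b 15 (.b 13 (.b 31 (.b 29 (.b 25 (.m 0 (.l 33)) (.l 25)) (.l 29)) (.l 31)) (.b 8 (.b 4 (.b 32 (.b 29 (.m 0 (.l 31)) (.l 29)) (.l 32)) (.l 33)) (.l 33))) (.b 13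 (.b 8 (.b 4 (.b 32 (.b 31 (.m 0 (.l 29)) (.l 31)) (.l 32)) (.l 33)) (.l 33)) (.l 33)))) (.l 34)) (.l 34)) (.l 34)) (.l 34)) (.l 34)) (.l 34)) (.l 34))) (.b 12 (.b 9 (.b 7 (.b 5 (.b 3 (.b 2 (.b 1 (.b 0 (.b 23 (.b 15 (.b 29 (.b 25 (.b 20 (.m 0 (.l 33)) (.l 20)) (.l 25)) (.l 29)) (.b 13 (.b 8 (.b 32 (.b 29 (.m 0 (.l 31)) (.l 29)) (.l 32)) (.b 4 (.b 32 (.b 29 (.m 0 (.l 31)) (.l 29)) (.l 32)) (.l 33))) (.b 8 (.b 4 (.b 32 (.b 29 (.m 0 (.l 31)) (.l 29)) (.l 32)) (.l 33)) (.l 33)))) (.b 15 (.b 13 (.b 8 (.b 32 (.b 29 (.m 0 (.l 31)) (.l 29)) (.l 32)) (.b 4 (.b 32 (.b 29 (.m 0 (.l 31)) (.l 29)) (.l 32)) (.l 33))) (.b 8 (.b 4 (.b 32 (.b 29 (.m 0 (.l 31)) (.l 29)) (.l 32)) (.l 33)) (.l 33))) (.b 13 (.b 8 (.b 4 (.b 32 (.b 31 (.m 0 (.l 29)) (.b 21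 (.m 0 (.l 29)) (.b 17 (.m 0 (.l 29)) (.b 10 (.m 0 (.l 29)) (.l 31))))) (.l 32)) (.l 33)) (.l 33)) (.l 33)))) (.l 34)) (.l 34)) (.l 34)) (.l 34)) (.l 34)) (.l 34)) (.l 34)) (.l 34))) (.b 16 (.b 12 (.b 9 (.b 7 (.b 5 (.b 3 (.b 2 (.b 1 (.b 0 (.b 23 (.b 15 (.b 29 (.b 25 (.b 20 (.m 0 (.l 33)) (.l 20)) (.l 25)) (.l 29)) (.b 13 (.b 8 (.b 32 (.b 29 (.m 0 (.l 31)) (.l 29)) (.l 32)) (.b 4 (.b 32 (.b 29 (.m 0 (.l 31)) (.l 29)) (.l 32)) (.l 33))) (.b 8 (.b 4 (.b 32 (.b 29 (.m 0 (.l 31)) (.l 29)) (.l 32)) (.l 33)) (.l 33)))) (.b 15 (.b 13 (.b 8 (.b 32 (.b 29 (.m 0 (.l 31)) (.l 29)) (.l 32)) (.b 4 (.b 32 (.b 29 (.m 0 (.l 31)) (.l 29)) (.l 32)) (.l 33))) (.b 8 (.b 4 (.b 32 (.b 29 (.m 0 (.l 31)) (.l 29)) (.l 32)) (.l 33)) (.l 33))) (.b 13 (.b 8 (.b 4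 (.b 32 (.b 27 (.m 0 (.l 31)) (.b 14 (.m 0 (.l 31)) (.b 6 (.m 0 (.l 31)) (.l 27)))) (.l 32)) (.l 33)) (.l 33)) (.l 33)))) (.l 34)) (.l 34)) (.l 34)) (.l 34)) (.l 34)) (.l 34)) (.l 34)) (.l 34)) (.l 34)))))

private lemma k15 : chk dm5 (PLf PL5 15) 35 14 c15 0 0 = true := by decide +kernel

private def c16 : Cert := (.m 15 (.b 25 (.b 20 (.b 17 (.b 14 (.b 13 (.b 10 (.b 9 (.b 8 (.b 34 (.m 14 (.b 27 (.b 31 (.l 35) (.l 31)) (.l 27))) (.l 34)) (.b 6 (.b 34 (.m 14 (.b 31 (.b 27 (.l 35) (.l 27)) (.l 31))) (.l 34)) (.b 5 (.b 4 (.b 34 (.m 14 (.b 27 (.b 31 (.l 35) (.l 31)) (.l 27))) (.l 34)) (.l 35)) (.l 35)))) (.b 8 (.b 34 (.m 14 (.b 27 (.b 32 (.l 35) (.l 32)) (.l 27))) (.l 34)) (.b 6 (.b 34 (.m 14 (.b 5 (.b 4 (.b 27 (.b 19 (.l 35) (.l 19)) (.l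 27)) (.l 35)) (.l 35))) (.l 34)) (.l 35)))) (.b 9 (.b 8 (.b 6 (.b 34 (.m 14 (.b 31 (.b 27 (.l 35) (.l 27)) (.l 31))) (.l 34)) (.b 5 (.b 4 (.b 34 (.m 14 (.b 27 (.b 31 (.l 35) (.l 31)) (.l 27))) (.l 34)) (.l 35)) (.l 35))) (.b 6 (.b 5 (.b 4 (.b 34 (.m 14 (.b 31 (.b 27 (.l 35) (.l 27)) (.l 31))) (.l 34)) (.l 35)) (.l 35)) (.l 35))) (.b 8 (.b 6 (.b 34 (.m 14 (.b 5 (.b 4 (.b 27 (.b 19 (.l 35) (.l 19)) (.l 27)) (.l 35)) (.l 35))) (.l 34)) (.l 35)) (.l 35)))) (.b 10 (.b 9 (.b 8 (.b 6 (.b 34 (.m 14 (.b 5 (.b 4 (.b 27 (.l 33) (.l 27)) (.b 3 (.b 31 (.l 33) (.l 31)) (.l 35))) (.b 4 (.b 27 (.b 19 (.l 35) (.l 19)) (.l 27)) (.l 35)))) (.l 34)) (.b 5 (.b 4 (.b 34 (.m 14 (.b 27 (.b 32 (.l 35) (.l 32)) (.l 27))) (.l 34)) (.l 35)) (.l 35))) (.b 6 (.b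 5 (.b 4 (.b 34 (.m 14 (.b 3 (.b 31 (.l 33) (.l 31)) (.l 35))) (.l 34)) (.l 35)) (.l 35)) (.l 35))) (.b 8 (.b 6 (.b 34 (.m 14 (.b 5 (.b 4 (.b 27 (.b 19 (.l 35) (.l 19)) (.l 27)) (.l 35)) (.l 35))) (.l 34)) (.l 35)) (.l 35))) (.b 9 (.b 8 (.b 6 (.b 5 (.b 4 (.b 34 (.m 14 (.b 3 (.b 31 (.b 24 (.l 35) (.l 24)) (.l 31)) (.l 35))) (.l 34)) (.l 35)) (.l 35)) (.l 35)) (.l 35)) (.l 35)))) (.b 13 (.b 10 (.b 9 (.b 8 (.b 6 (.b 34 (.m 14 (.b 27 (.b 31 (.l 35) (.l 31)) (.l 27))) (.l 34)) (.b 5 (.b 4 (.b 27 (.b 32 (.b 22 (.l 35) (.l 22)) (.l 32)) (.l 27)) (.l 35)) (.l 35))) (.b 6 (.b 5 (.b 4 (.b 34 (.m 14 (.b 27 (.b 31 (.l 35) (.l 31)) (.l 27))) (.l 34)) (.l 35)) (.l 35)) (.l 35))) (.b 8 (.b 6 (.b 34 (.m 14 (.b 27 (.b 32 (.l 35) (.l 32)) (.l 27))) (.l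 34)) (.l 35)) (.l 35))) (.b 9 (.b 8 (.b 6 (.b 5 (.b 4 (.b 34 (.m 14 (.b 27 (.b 31 (.l 35) (.l 31)) (.l 27))) (.l 34)) (.l 35)) (.l 35)) (.l 35)) (.l 35)) (.l 35))) (.b 10 (.b 9 (.b 8 (.b 6 (.b 5 (.b 4 (.b 34 (.m 14 (.b 27 (.b 32 (.l 35) (.l 32)) (.l 27))) (.l 34)) (.l 35)) (.l 35)) (.l 35)) (.l 35)) (.l 35)) (.l 35)))) (.b 14 (.b 13 (.b 10 (.b 9 (.b 8 (.b 6 (.b 34 (.m 14 (.b 31 (.b 27 (.l 35) (.l 27)) (.l 31))) (.l 34)) (.b 5 (.b 4 (.b 34 (.m 14 (.b 27 (.b 31 (.l 35) (.l 31)) (.l 27))) (.l 34)) (.l 35)) (.l 35))) (.b 6 (.b 5 (.b 4 (.b 34 (.m 14 (.b 31 (.b 27 (.l 35) (.l 27)) (.l 31))) (.l 34)) (.l 35)) (.l 35)) (.l 35))) (.b 8 (.b 6 (.b 34 (.m 14 (.b 5 (.b 4 (.b 27 (.b 19 (.l 35) (.l 19)) (.l 27)) (.l 35)) (.l 35))) (.l 34)) (.l 35))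 (.l 35))) (.b 9 (.b 8 (.b 6 (.b 5 (.b 4 (.b 34 (.m 14 (.b 31 (.b 27 (.l 35) (.l 27)) (.l 31))) (.l 34)) (.l 35)) (.l 35)) (.l 35)) (.l 35)) (.l 35))) (.b 10 (.b 9 (.b 8 (.b 6 (.b 5 (.b 4 (.b 34 (.m 14 (.b 3 (.b 31 (.b 24 (.l 35) (.l 24)) (.l 31)) (.l 35))) (.l 34)) (.l 35)) (.l 35)) (.l 35)) (.l 35)) (.l 35)) (.l 35))) (.b 13 (.b 10 (.b 9 (.b 8 (.b 6 (.b 5 (.b 4 (.b 34 (.m 14 (.b 27 (.b 31 (.l 35) (.l 31)) (.l 27))) (.l 34)) (.l 35)) (.l 35)) (.l 35)) (.l 35)) (.l 35)) (.l 35)) (.l 35)))) (.b 17 (.b 14 (.b 13 (.b 10 (.b 9 (.b 8 (.b 6 (.b 34 (.m 14 (.b 5 (.b 4 (.b 27 (.b 19 (.l 35) (.l 19)) (.l 27)) (.b 3 (.b 31 (.b 24 (.l 35) (.l 24)) (.l 31)) (.l 35))) (.b 4 (.b 27 (.b 19 (.l 35) (.l 19)) (.l 27)) (.l 35)))) (.l 34)) (.b 5 (.b 4 (.b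 34 (.m 14 (.b 27 (.b 32 (.l 35) (.l 32)) (.l 27))) (.l 34)) (.l 35)) (.l 35))) (.b 6 (.b 5 (.b 4 (.b 34 (.m 14 (.b 3 (.b 31 (.b 24 (.l 35) (.l 24)) (.l 31)) (.l 35))) (.l 34)) (.l 35)) (.l 35)) (.l 35))) (.b 8 (.b 6 (.b 34 (.m 14 (.b 5 (.b 4 (.b 27 (.b 19 (.l 35) (.l 19)) (.l 27)) (.l 35)) (.l 35))) (.l 34)) (.l 35)) (.l 35))) (.b 9 (.b 8 (.b 6 (.b 5 (.b 4 (.b 34 (.m 14 (.b 3 (.b 31 (.b 24 (.l 35) (.l 24)) (.l 31)) (.l 35))) (.l 34)) (.l 35)) (.l 35)) (.l 35)) (.l 35)) (.l 35))) (.b 10 (.b 9 (.b 8 (.b 6 (.b 5 (.b 4 (.b 34 (.m 14 (.b 3 (.b 2 (.b 1 (.b 0 (.b 23 (.m 0 (.l 32)) (.b 15 (.m 0 (.l 32)) (.l 33))) (.l 35)) (.l 35)) (.l 35)) (.l 35))) (.l 34)) (.l 35)) (.l 35)) (.l 35)) (.l 35)) (.l 35)) (.l 35))) (.b 13 (.b 10 (.b 9 (.b 8 (.b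 6 (.b 5 (.b 4 (.b 34 (.m 14 (.b 27 (.b 32 (.l 35) (.l 32)) (.l 27))) (.l 34)) (.l 35)) (.l 35)) (.l 35)) (.l 35)) (.l 35)) (.l 35)) (.l 35))) (.b 14 (.b 13 (.b 10 (.b 9 (.b 8 (.b 6 (.b 5 (.b 4 (.b 34 (.m 14 (.b 3 (.b 31 (.b 24 (.l 35) (.l 24)) (.l 31)) (.l 35))) (.l 34)) (.l 35)) (.l 35)) (.l 35)) (.l 35)) (.l 35)) (.l 35)) (.l 35)) (.l 35)))) (.b 20 (.b 17 (.b 14 (.b 13 (.b 10 (.b 9 (.b 8 (.b 6 (.b 34 (.m 14 (.b 5 (.b 4 (.b 27 (.b 19 (.l 35) (.l 19)) (.l 27)) (.b 3 (.b 31 (.b 24 (.l 35) (.l 24)) (.l 31)) (.l 35))) (.b 4 (.b 27 (.b 19 (.l 35) (.l 19)) (.l 27)) (.l 35)))) (.l 34)) (.b 5 (.b 4 (.b 34 (.m 14 (.b 27 (.b 32 (.l 35) (.l 32)) (.l 27))) (.l 34)) (.l 35)) (.l 35))) (.b 6 (.b 5 (.b 4 (.b 34 (.m 14 (.b 3 (.b 31 (.b 24 (.l 35) (.l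 24)) (.l 31)) (.l 35))) (.l 34)) (.l 35)) (.l 35)) (.l 35))) (.b 8 (.b 6 (.b 34 (.m 14 (.b 5 (.b 4 (.b 27 (.b 19 (.l 35) (.l 19)) (.l 27)) (.l 35)) (.l 35))) (.l 34)) (.l 35)) (.l 35))) (.b 9 (.b 8 (.b 6 (.b 5 (.b 4 (.b 34 (.m 14 (.b 3 (.b 31 (.b 24 (.l 35) (.l 24)) (.l 31)) (.l 35))) (.l 34)) (.l 35)) (.l 35)) (.l 35)) (.l 35)) (.l 35))) (.b 10 (.b 9 (.b 8 (.b 6 (.b 5 (.b 4 (.b 34 (.m 14 (.b 3 (.b 2 (.b 1 (.b 0 (.b 23 (.m 0 (.l 32)) (.b 15 (.m 0 (.l 32)) (.l 33))) (.l 35)) (.l 35)) (.l 35)) (.l 35))) (.l 34)) (.l 35)) (.l 35)) (.l 35)) (.l 35)) (.l 35)) (.l 35))) (.b 13 (.b 10 (.b 9 (.b 8 (.b 6 (.b 5 (.b 4 (.b 34 (.m 14 (.b 27 (.b 32 (.l 35) (.l 32)) (.l 27))) (.l 34)) (.l 35)) (.l 35)) (.l 35)) (.l 35)) (.l 35)) (.l 35)) (.l 35)))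 (.b 14 (.b 13 (.b 10 (.b 9 (.b 8 (.b 6 (.b 5 (.b 4 (.b 34 (.m 14 (.b 3 (.b 31 (.b 24 (.l 35) (.l 24)) (.l 31)) (.l 35))) (.l 34)) (.l 35)) (.l 35)) (.l 35)) (.l 35)) (.l 35)) (.l 35)) (.l 35)) (.l 35))) (.b 17 (.b 14 (.b 13 (.b 10 (.b 9 (.b 8 (.b 6 (.b 5 (.b 4 (.b 34 (.m 14 (.b 3 (.b 2 (.b 1 (.b 0 (.b 32 (.m 0 (.l 31)) (.b 22 (.m 0 (.l 31)) (.b 18 (.m 0 (.l 31)) (.b 11 (.m 0 (.l 31)) (.l 32))))) (.l 35)) (.l 35)) (.l 35)) (.l 35))) (.l 34)) (.l 35)) (.l 35)) (.l 35)) (.l 35)) (.l 35)) (.l 35)) (.l 35)) (.l 35)) (.l 35)))))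

private lemma k16 : chk dm5 (PLf PL5 16) 36 15 c16 0 0 = true := by decide +kernel

private def c17 : Cert := (.m 16 (.b 27 (.b 22 (.b 19 (.b 14 (.b 12 (.b 35 (.b 11 (.b 9 (.b 7 (.b 25 (.b 31 (.b 29 (.b 17 (.l 39) (.l 17)) (.l 29)) (.l 31)) (.l 25)) (.b 6 (.b 25 (.b 31 (.b 33 (.m 14 (.l 38)) (.l 33)) (.l 31)) (.l 25)) (.b 5 (.b 3 (.b 31 (.b 25 (.l 38) (.l 25)) (.l 31)) (.l 39)) (.l 39)))) (.b 7 (.b 25 (.b 6 (.b 31 (.b 33 (.m 14 (.l 34)) (.l 33)) (.l 31)) (.b 5 (.b 3 (.b 31 (.b 29 (.l 38) (.l 29)) (.l 31)) (.l 39)) (.l 39))) (.l 25)) (.b 6 (.b 25 (.b 31 (.b 34 (.m 14 (.l 33)) (.l 34)) (.l 31)) (.l 25)) (.l 39)))) (.b 9 (.b 7 (.b 6 (.b 25 (.b 31 (.b 29 (.b 17 (.l 39) (.l 17)) (.l 29)) (.l 31)) (.l 25)) (.b 5 (.b 3 (.b 2 (.b 29 (.b 25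 (.l 37) (.l 25)) (.l 29)) (.l 39)) (.l 39)) (.l 39))) (.b 6 (.b 5 (.b 3 (.b 31 (.b 25 (.l 38) (.l 25)) (.l 31)) (.l 39)) (.l 39)) (.l 39))) (.b 7 (.b 6 (.b 25 (.b 5 (.b 3 (.b 31 (.b 29 (.l 38) (.l 29)) (.l 31)) (.l 39)) (.l 39)) (.l 25)) (.l 39)) (.l 39)))) (.l 35)) (.b 11 (.b 35 (.b 9 (.b 7 (.b 6 (.b 25 (.b 31 (.b 33 (.m 14 (.l 34)) (.l 33)) (.l 31)) (.l 25)) (.b 5 (.b 3 (.b 31 (.b 25 (.b 29 (.l 38) (.l 29)) (.l 25)) (.l 31)) (.l 39)) (.l 39))) (.b 6 (.b 31 (.b 25 (.b 34 (.m 14 (.l 33)) (.l 34)) (.l 25)) (.l 31)) (.l 39))) (.b 7 (.b 6 (.b 25 (.b 31 (.b 34 (.m 14 (.l 33)) (.l 34)) (.l 31)) (.l 25)) (.l 39)) (.l 39))) (.l 35)) (.b 9 (.b 7 (.b 35 (.b 6 (.b 5 (.b 3 (.b 31 (.b 25 (.b 29 (.l 38) (.l 29)) (.l 25)) (.l 31)) (.l 39)) (.l 39))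 (.l 39)) (.l 35)) (.l 39)) (.l 39)))) (.b 12 (.b 35 (.b 11 (.b 9 (.b 7 (.b 6 (.b 25 (.b 31 (.b 33 (.m 14 (.l 34)) (.l 33)) (.l 31)) (.l 25)) (.b 5 (.b 3 (.b 2 (.b 1 (.b 0 (.b 26 (.b 25 (.l 38) (.l 25)) (.b 18 (.b 25 (.l 38) (.l 25)) (.l 37))) (.l 39)) (.l 39)) (.l 39)) (.l 39)) (.l 39))) (.b 6 (.b 5 (.b 3 (.b 31 (.b 25 (.l 38) (.l 25)) (.l 31)) (.l 39)) (.l 39)) (.l 39))) (.b 7 (.b 6 (.b 25 (.b 5 (.b 3 (.b 31 (.b 33 (.m 14 (.l 38)) (.l 33)) (.l 31)) (.l 39)) (.l 39)) (.l 25)) (.l 39)) (.l 39))) (.b 9 (.b 7 (.b 6 (.b 5 (.b 3 (.b 2 (.b 1 (.b 0 (.b 26 (.b 25 (.l 38) (.l 25)) (.b 18 (.b 25 (.l 38) (.l 25)) (.l 37))) (.l 39)) (.l 39)) (.l 39)) (.l 39)) (.l 39)) (.l 39)) (.l 39)) (.l 39))) (.l 35)) (.b 11 (.b 35 (.b 9 (.b 7 (.b 6 (.b 5 (.b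 3 (.b 31 (.b 25 (.b 33 (.m 14 (.l 38)) (.l 33)) (.l 25)) (.l 31)) (.l 39)) (.l 39)) (.l 39)) (.l 39)) (.l 39)) (.l 35)) (.l 39)))) (.b 14 (.b 12 (.b 11 (.b 35 (.b 9 (.b 7 (.b 6 (.b 25 (.b 31 (.b 33 (.m 14 (.l 34)) (.l 33)) (.l 31)) (.l 25)) (.b 5 (.b 3 (.b 2 (.b 1 (.b 0 (.b 26 (.b 25 (.l 38) (.l 25)) (.b 18 (.b 25 (.l 38) (.l 25)) (.l 37))) (.l 39)) (.l 39)) (.l 39)) (.l 39)) (.l 39))) (.b 6 (.b 5 (.b 3 (.b 31 (.b 25 (.l 38) (.l 25)) (.l 31)) (.l 39)) (.l 39)) (.l 39))) (.b 7 (.b 6 (.b 25 (.b 5 (.b 3 (.b 31 (.b 33 (.m 14 (.l 38)) (.l 33)) (.l 31)) (.l 39)) (.l 39)) (.l 25)) (.l 39)) (.l 39))) (.l 35)) (.b 9 (.b 7 (.b 35 (.b 6 (.b 5 (.b 3 (.b 2 (.b 1 (.b 0 (.b 26 (.b 25 (.l 38) (.l 25)) (.b 18 (.b 25 (.l 38) (.l 25)) (.l 37))) (.l 39))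 (.l 39)) (.l 39)) (.l 39)) (.l 39)) (.l 39)) (.l 35)) (.l 39)) (.l 39))) (.b 11 (.b 9 (.b 7 (.b 35 (.b 6 (.b 5 (.b 3 (.b 31 (.b 25 (.b 33 (.m 14 (.l 38)) (.l 33)) (.l 25)) (.l 31)) (.l 39)) (.l 39)) (.l 39)) (.l 35)) (.l 39)) (.l 39)) (.l 39))) (.b 12 (.b 11 (.b 35 (.b 9 (.b 7 (.b 6 (.b 5 (.b 3 (.b 2 (.b 1 (.b 0 (.b 21 (.b 25 (.b 29 (.m 0 (.l 38)) (.l 29)) (.l 25)) (.b 16 (.b 25 (.b 29 (.m 0 (.l 38)) (.l 29)) (.l 25)) (.b 10 (.b 33 (.m 14 (.b 25 (.m 0 (.l 38)) (.l 25))) (.l 33)) (.l 38)))) (.l 39)) (.l 39)) (.l 39)) (.l 39)) (.l 39)) (.l 39)) (.l 39)) (.l 39)) (.l 35)) (.l 39)) (.l 39)))) (.b 19 (.b 14 (.b 12 (.b 11 (.b 35 (.b 9 (.b 7 (.b 6 (.b 25 (.b 31 (.b 33 (.m 14 (.l 34)) (.l 33)) (.l 31)) (.l 25)) (.b 5 (.b 3 (.b 2 (.b 1 (.b 0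 (.b 26 (.b 25 (.l 38) (.l 25)) (.b 18 (.b 25 (.l 38) (.l 25)) (.l 37))) (.l 39)) (.l 39)) (.l 39)) (.l 39)) (.l 39))) (.b 6 (.b 5 (.b 3 (.b 31 (.b 25 (.l 38) (.l 25)) (.l 31)) (.l 39)) (.l 39)) (.l 39))) (.b 7 (.b 6 (.b 25 (.b 5 (.b 3 (.b 31 (.b 33 (.m 14 (.l 38)) (.l 33)) (.l 31)) (.l 39)) (.l 39)) (.l 25)) (.l 39)) (.l 39))) (.l 35)) (.b 9 (.b 7 (.b 35 (.b 6 (.b 5 (.b 3 (.b 2 (.b 1 (.b 0 (.b 26 (.b 25 (.l 38) (.l 25)) (.b 18 (.b 25 (.l 38) (.l 25)) (.l 37))) (.l 39)) (.l 39)) (.l 39)) (.l 39)) (.l 39)) (.l 39)) (.l 35)) (.l 39)) (.l 39))) (.b 11 (.b 9 (.b 7 (.b 35 (.b 6 (.b 5 (.b 3 (.b 31 (.b 25 (.b 33 (.m 14 (.l 38)) (.l 33)) (.l 25)) (.l 31)) (.l 39)) (.l 39)) (.l 39)) (.l 35)) (.l 39)) (.l 39)) (.l 39))) (.b 12 (.b 11 (.b 35 (.b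 9 (.b 7 (.b 6 (.b 5 (.b 3 (.b 2 (.b 1 (.b 0 (.b 32 (.b 25 (.l 38) (.l 25)) (.b 18 (.b 25 (.l 38) (.l 25)) (.l 32))) (.l 39)) (.l 39)) (.l 39)) (.l 39)) (.l 39)) (.l 39)) (.l 39)) (.l 39)) (.l 35)) (.l 39)) (.l 39))) (.b 14 (.b 12 (.b 11 (.b 9 (.b 7 (.b 35 (.b 6 (.b 5 (.b 3 (.b 2 (.b 1 (.b 0 (.b 21 (.b 25 (.b 29 (.m 0 (.l 38)) (.l 29)) (.l 25)) (.b 16 (.b 25 (.b 29 (.m 0 (.l 38)) (.l 29)) (.l 25)) (.b 10 (.b 33 (.m 14 (.b 25 (.m 0 (.l 38)) (.l 25))) (.l 33)) (.l 38)))) (.l 39)) (.l 39)) (.l 39)) (.l 39)) (.l 39)) (.l 39)) (.l 35)) (.l 39)) (.l 39)) (.l 39)) (.l 39)) (.l 39)))) (.b 22 (.b 19 (.b 14 (.b 12 (.b 11 (.b 35 (.b 9 (.b 7 (.b 6 (.b 25 (.b 31 (.b 33 (.m 14 (.l 34)) (.l 33)) (.l 31)) (.l 25)) (.b 5 (.b 3 (.b 2 (.b 1 (.b 0 (.b 26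 (.b 25 (.l 38) (.l 25)) (.b 18 (.b 25 (.l 38) (.l 25)) (.l 37))) (.l 39)) (.l 39)) (.l 39)) (.l 39)) (.l 39))) (.b 6 (.b 5 (.b 3 (.b 31 (.b 25 (.l 38) (.l 25)) (.l 31)) (.l 39)) (.l 39)) (.l 39))) (.b 7 (.b 6 (.b 25 (.b 5 (.b 3 (.b 31 (.b 33 (.m 14 (.l 38)) (.l 33)) (.l 31)) (.l 39)) (.l 39)) (.l 25)) (.l 39)) (.l 39))) (.l 35)) (.b 9 (.b 7 (.b 35 (.b 6 (.b 5 (.b 3 (.b 2 (.b 1 (.b 0 (.b 26 (.b 25 (.l 38) (.l 25)) (.b 18 (.b 25 (.l 38) (.l 25)) (.l 37))) (.l 39)) (.l 39)) (.l 39)) (.l 39)) (.l 39)) (.l 39)) (.l 35)) (.l 39)) (.l 39))) (.b 11 (.b 9 (.b 7 (.b 35 (.b 6 (.b 5 (.b 3 (.b 31 (.b 25 (.b 33 (.m 14 (.l 38)) (.l 33)) (.l 25)) (.l 31)) (.l 39)) (.l 39)) (.l 39)) (.l 35)) (.l 39)) (.l 39)) (.l 39))) (.b 12 (.b 11 (.b 35 (.b 9 (.b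 7 (.b 6 (.b 5 (.b 3 (.b 2 (.b 1 (.b 0 (.b 21 (.b 25 (.b 29 (.m 0 (.l 38)) (.l 29)) (.l 25)) (.b 16 (.b 25 (.b 29 (.m 0 (.l 38)) (.l 29)) (.l 25)) (.b 10 (.b 33 (.m 14 (.b 25 (.m 0 (.l 38)) (.l 25))) (.l 33)) (.l 38)))) (.l 39)) (.l 39)) (.l 39)) (.l 39)) (.l 39)) (.l 39)) (.l 39)) (.l 39)) (.l 35)) (.l 39)) (.l 39))) (.b 14 (.b 12 (.b 11 (.b 9 (.b 7 (.b 35 (.b 6 (.b 5 (.b 3 (.b 2 (.b 1 (.b 0 (.b 21 (.b 25 (.b 29 (.m 0 (.l 38)) (.l 29)) (.l 25)) (.b 16 (.b 25 (.b 29 (.m 0 (.l 38)) (.l 29)) (.l 25)) (.b 10 (.b 33 (.m 14 (.b 25 (.m 0 (.l 38)) (.l 25))) (.l 33)) (.l 38)))) (.l 39)) (.l 39)) (.l 39)) (.l 39)) (.l 39)) (.l 39)) (.l 35)) (.l 39)) (.l 39)) (.l 39)) (.l 39)) (.l 39))) (.b 19 (.b 14 (.b 12 (.b 11 (.b 9 (.b 7 (.b 35 (.b 6 (.b 5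 (.b 3 (.b 2 (.b 1 (.b 0 (.b 21 (.b 25 (.b 29 (.m 0 (.l 38)) (.l 29)) (.l 25)) (.b 16 (.b 25 (.b 29 (.m 0 (.l 38)) (.l 29)) (.l 25)) (.b 10 (.b 33 (.m 14 (.b 25 (.m 0 (.l 38)) (.l 25))) (.l 33)) (.l 38)))) (.l 39)) (.l 39)) (.l 39)) (.l 39)) (.l 39)) (.l 39)) (.l 35)) (.l 39)) (.l 39)) (.l 39)) (.l 39)) (.l 39)) (.l 39)))))

private lemma k17 : chk dm5 (PLf PL5 17) 40 16 c17 0 0 = true := by decide +kernel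

private def c18 : Cert := (.m 17 (.b 28 (.b 23 (.b 17 (.b 15 (.b 10 (.b 8 (.b 39 (.m 16 (.b 5 (.b 4 (.b 2 (.b 21 (.b 27 (.b 32 (.l 37) (.l 32)) (.l 27)) (.b 16 (.b 27 (.b 32 (.l 37) (.l 32)) (.l 27)) (.b 7 (.b 32 (.b 27 (.l 37) (.l 27)) (.l 32)) (.l 38)))) (.b 1 (.b 21 (.b 27 (.b 32 (.b 22 (.l 37) (.l 22)) (.l 32)) (.l 27)) (.b 16 (.b 27 (.b 32 (.b 22 (.l 37) (.l 22)) (.l 32)) (.l 27)) (.l 38))) (.b 0 (.b 21 (.b 27 (.b 32 (.b 22 (.l 37) (.l 22)) (.l 32)) (.l 27)) (.b 31 (.b 27 (.b 32 (.b 22 (.l 37) (.l 22)) (.l 32)) (.l 27)) (.l 31))) (.l 40)))) (.b 2 (.b 1 (.b 21 (.b 35 (.b 27 (.b 29 (.l 37) (.l 29)) (.l 27)) (.l 35)) (.b 16 (.b 35 (.b 27 (.b 29 (.l 37) (.l 29)) (.l 27)) (.l 35)) (.l 38))) (.b 0 (.b 21 (.b 35 (.b 27 (.b 29 (.l 37)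 (.l 29)) (.l 27)) (.l 35)) (.b 31 (.b 35 (.b 27 (.b 29 (.l 37) (.l 29)) (.l 27)) (.l 35)) (.l 31))) (.l 40))) (.b 1 (.b 0 (.b 21 (.b 35 (.b 27 (.b 32 (.b 22 (.l 37) (.l 22)) (.l 32)) (.l 27)) (.l 35)) (.l 38)) (.l 40)) (.l 40)))) (.b 4 (.b 2 (.b 1 (.b 21 (.b 27 (.b 32 (.b 22 (.l 37) (.l 22)) (.l 32)) (.l 27)) (.b 16 (.b 27 (.b 32 (.b 22 (.l 37) (.l 22)) (.l 32)) (.l 27)) (.b 7 (.b 32 (.b 27 (.b 22 (.l 37) (.l 22)) (.l 27)) (.l 32)) (.l 38)))) (.b 0 (.b 26 (.b 27 (.b 32 (.b 22 (.b 19 (.l 37) (.l 19)) (.l 22)) (.l 32)) (.l 27)) (.b 18 (.b 27 (.b 32 (.b 22 (.b 19 (.l 37) (.l 19)) (.l 22)) (.l 32)) (.l 27)) (.l 37))) (.l 40))) (.b 1 (.b 0 (.b 21 (.b 27 (.b 32 (.b 22 (.b 19 (.l 37) (.l 19)) (.l 22)) (.l 32)) (.l 27)) (.b 31 (.b 27 (.b 32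 (.b 22 (.b 19 (.l 37) (.l 19)) (.l 22)) (.l 32)) (.l 27)) (.l 31))) (.l 40)) (.l 40))) (.b 2 (.b 1 (.b 0 (.b 21 (.b 35 (.b 27 (.b 32 (.b 22 (.l 37) (.l 22)) (.l 32)) (.l 27)) (.l 35)) (.b 31 (.b 35 (.b 27 (.b 32 (.b 22 (.l 37) (.l 22)) (.l 32)) (.l 27)) (.l 35)) (.l 31))) (.l 40)) (.l 40)) (.l 40))))) (.l 39)) (.b 5 (.b 4 (.b 39 (.m 16 (.b 2 (.b 1 (.b 21 (.b 35 (.b 27 (.b 29 (.l 37) (.l 29)) (.l 27)) (.l 35)) (.b 16 (.b 35 (.b 27 (.b 29 (.l 37) (.l 29)) (.l 27)) (.l 35)) (.b 7 (.b 35 (.b 32 (.b 27 (.l 37) (.l 27)) (.l 32)) (.l 35)) (.l 38)))) (.b 0 (.b 26 (.b 35 (.b 27 (.b 29 (.b 22 (.l 37) (.l 22)) (.l 29)) (.l 27)) (.l 35)) (.b 18 (.b 35 (.b 27 (.b 29 (.b 22 (.l 37) (.l 22)) (.l 29)) (.l 27)) (.l 35)) (.l 37))) (.l 40))) (.b 1 (.b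 0 (.b 21 (.b 35 (.b 27 (.b 32 (.b 22 (.l 37) (.l 22)) (.l 32)) (.l 27)) (.l 35)) (.b 31 (.b 35 (.b 27 (.b 32 (.b 22 (.l 37) (.l 22)) (.l 32)) (.l 27)) (.l 35)) (.l 31))) (.l 40)) (.l 40)))) (.l 39)) (.b 2 (.b 1 (.b 0 (.b 35 (.b 39 (.m 15 (.b 21 (.b 16 (.b 27 (.b 29 (.l 37) (.l 29)) (.l 27)) (.b 7 (.b 29 (.b 27 (.l 37) (.l 27)) (.l 29)) (.l 38))) (.b 31 (.b 16 (.b 27 (.b 29 (.l 37) (.l 29)) (.l 27)) (.l 38)) (.l 31)))) (.l 39)) (.b 25 (.b 39 (.m 16 (.b 20 (.b 14 (.b 34 (.l 35) (.l 34)) (.l 35)) (.l 35))) (.l 39)) (.l 35))) (.l 40)) (.l 40)) (.l 40))) (.b 4 (.b 39 (.m 16 (.b 2 (.b 1 (.b 0 (.b 35 (.b 31 (.b 27 (.b 32 (.b 22 (.l 37) (.l 22)) (.l 32)) (.l 27)) (.b 21 (.b 27 (.b 32 (.b 22 (.l 37) (.l 22)) (.l 32)) (.l 27)) (.l 31))) (.b 25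 (.b 20 (.b 27 (.l 35) (.l 27)) (.l 35)) (.l 35))) (.l 40)) (.l 40)) (.l 40))) (.l 39)) (.l 40)))) (.b 8 (.b 5 (.b 4 (.b 39 (.m 16 (.b 2 (.b 1 (.b 21 (.b 35 (.b 27 (.b 32 (.l 37) (.l 32)) (.l 27)) (.l 35)) (.b 16 (.b 35 (.b 27 (.b 32 (.l 37) (.l 32)) (.l 27)) (.l 35)) (.l 38))) (.b 0 (.b 21 (.b 35 (.b 27 (.b 32 (.l 37) (.l 32)) (.l 27)) (.l 35)) (.b 31 (.b 35 (.b 27 (.b 32 (.l 37) (.l 32)) (.l 27)) (.l 35)) (.l 31))) (.l 40))) (.b 1 (.b 0 (.b 21 (.b 35 (.b 27 (.b 32 (.b 22 (.l 37) (.l 22)) (.l 32)) (.l 27)) (.l 35)) (.l 38)) (.l 40)) (.l 40)))) (.l 39)) (.b 2 (.b 1 (.b 0 (.b 38 (.m 16 (.l 39)) (.b 21 (.b 39 (.m 16 (.b 35 (.b 16 (.b 27 (.b 29 (.l 37) (.l 29)) (.l 27)) (.l 38)) (.l 35))) (.l 39)) (.l 38))) (.l 40)) (.l 40)) (.l 40))) (.b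 4 (.b 39 (.m 16 (.b 2 (.b 1 (.b 0 (.b 21 (.b 35 (.b 27 (.b 32 (.b 22 (.l 37) (.l 22)) (.l 32)) (.l 27)) (.l 35)) (.b 31 (.b 35 (.b 27 (.b 32 (.b 22 (.l 37) (.l 22)) (.l 32)) (.l 27)) (.l 35)) (.l 31))) (.l 40)) (.l 40)) (.l 40))) (.l 39)) (.l 40))) (.b 5 (.b 4 (.b 2 (.b 1 (.b 0 (.b 35 (.b 39 (.m 15 (.b 21 (.b 16 (.b 27 (.b 29 (.l 37) (.l 29)) (.l 27)) (.b 7 (.b 32 (.b 27 (.l 37) (.l 27)) (.l 32)) (.l 38))) (.b 31 (.b 16 (.b 27 (.b 29 (.l 37) (.l 29)) (.l 27)) (.l 38)) (.l 31)))) (.l 39)) (.b 25 (.b 39 (.m 16 (.b 20 (.b 14 (.b 34 (.l 35) (.l 34)) (.l 35)) (.l 35))) (.l 39)) (.l 35))) (.l 40)) (.l 40)) (.l 40)) (.l 40)) (.l 40)))) (.b 10 (.b 8 (.b 5 (.b 4 (.b 39 (.m 16 (.b 2 (.b 1 (.b 21 (.b 16 (.b 27 (.b 32 (.l 37) (.l 32)) (.l 27)) (.b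 7 (.b 32 (.b 27 (.l 37) (.l 27)) (.l 32)) (.b 0 (.b 34 (.b 27 (.b 32 (.l 37) (.l 32)) (.l 27)) (.b 24 (.b 27 (.l 34) (.l 27)) (.l 34))) (.l 38)))) (.b 16 (.b 7 (.b 32 (.b 27 (.l 37) (.l 27)) (.l 32)) (.b 0 (.b 31 (.b 27 (.b 32 (.l 37) (.l 32)) (.l 27)) (.b 12 (.b 32 (.b 27 (.l 37) (.l 27)) (.l 32)) (.l 31))) (.l 38))) (.b 7 (.b 0 (.b 26 (.b 32 (.b 27 (.b 22 (.l 37) (.l 22)) (.l 27)) (.l 32)) (.b 18 (.b 35 (.b 27 (.b 22 (.l 37) (.l 22)) (.l 27)) (.l 35)) (.b 11 (.b 35 (.b 27 (.b 32 (.l 37) (.l 32)) (.l 27)) (.l 35)) (.l 37)))) (.l 38)) (.l 38)))) (.b 0 (.b 26 (.b 18 (.b 27 (.b 32 (.b 22 (.b 19 (.l 37) (.l 19)) (.l 22)) (.l 32)) (.l 27)) (.b 11 (.b 27 (.b 32 (.b 34 (.b 19 (.l 37) (.l 19)) (.l 34)) (.l 32)) (.l 27)) (.l 37))) (.b 18 (.b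 11 (.b 27 (.b 34 (.b 32 (.b 19 (.l 37) (.l 19)) (.l 32)) (.l 34)) (.l 27)) (.l 37)) (.l 37))) (.l 40))) (.b 1 (.b 0 (.b 21 (.b 16 (.b 27 (.b 32 (.b 22 (.l 37) (.l 22)) (.l 32)) (.l 27)) (.b 7 (.b 32 (.b 27 (.b 22 (.l 37) (.l 22)) (.l 27)) (.l 32)) (.l 38))) (.b 16 (.b 7 (.b 32 (.b 27 (.b 22 (.l 37) (.l 22)) (.l 27)) (.l 32)) (.l 38)) (.l 38))) (.l 40)) (.l 40)))) (.l 39)) (.b 2 (.b 1 (.b 0 (.b 33 (.b 39 (.m 16 (.b 21 (.b 35 (.m 14 (.l 34)) (.l 35)) (.b 16 (.b 35 (.m 14 (.b 27 (.l 34) (.l 27))) (.l 35)) (.l 38)))) (.l 39)) (.b 13 (.b 39 (.m 16 (.b 3 (.b 21 (.b 16 (.b 27 (.b 32 (.l 37) (.l 32)) (.l 27)) (.b 7 (.b 32 (.b 27 (.l 37) (.l 27)) (.l 32)) (.l 38))) (.b 16 (.b 7 (.b 32 (.b 27 (.l 37) (.l 27)) (.l 32)) (.l 38)) (.l 38))) (.l 33)))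 (.l 39)) (.l 33))) (.l 40)) (.l 40)) (.l 40))) (.b 4 (.b 39 (.m 16 (.b 2 (.b 1 (.b 0 (.b 21 (.b 26 (.b 27 (.b 32 (.b 22 (.b 19 (.l 37) (.l 19)) (.l 22)) (.l 32)) (.l 27)) (.b 18 (.b 27 (.b 32 (.b 22 (.b 19 (.l 37) (.l 19)) (.l 22)) (.l 32)) (.l 27)) (.b 11 (.b 27 (.b 32 (.b 34 (.b 19 (.l 37) (.l 19)) (.l 34)) (.l 32)) (.l 27)) (.l 37)))) (.b 16 (.b 31 (.b 27 (.b 32 (.b 22 (.l 37) (.l 22)) (.l 32)) (.l 27)) (.b 12 (.b 32 (.b 27 (.b 22 (.l 37) (.l 22)) (.l 27)) (.l 32)) (.l 31))) (.b 7 (.b 34 (.b 32 (.b 27 (.b 22 (.l 37) (.l 22)) (.l 27)) (.l 32)) (.b 24 (.b 32 (.b 27 (.l 34) (.l 27)) (.l 32)) (.l 34))) (.l 38)))) (.l 40)) (.l 40)) (.l 40))) (.l 39)) (.l 40))) (.b 5 (.b 4 (.b 2 (.b 1 (.b 0 (.b 33 (.b 39 (.m 16 (.b 21 (.b 35 (.m 14 (.l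 34)) (.l 35)) (.b 16 (.b 35 (.m 14 (.b 27 (.l 34) (.l 27))) (.l 35)) (.b 7 (.b 35 (.m 14 (.b 32 (.l 34) (.l 32))) (.l 35)) (.l 38))))) (.l 39)) (.b 13 (.b 39 (.m 16 (.b 3 (.b 21 (.b 26 (.b 27 (.b 32 (.b 22 (.m 0 (.l 37)) (.l 22)) (.l 32)) (.l 27)) (.b 18 (.b 27 (.b 32 (.b 22 (.m 0 (.l 37)) (.l 22)) (.l 32)) (.l 27)) (.b 11 (.b 27 (.b 32 (.b 34 (.m 0 (.l 37)) (.l 34)) (.l 32)) (.l 27)) (.l 37)))) (.b 16 (.b 31 (.b 27 (.b 32 (.l 37) (.l 32)) (.l 27)) (.b 12 (.b 32 (.b 27 (.l 37) (.l 27)) (.l 32)) (.l 31))) (.b 7 (.b 31 (.b 32 (.b 27 (.l 37) (.l 27)) (.l 32)) (.b 12 (.b 32 (.b 35 (.l 37) (.l 35)) (.l 32)) (.l 31))) (.l 38)))) (.l 33))) (.l 39)) (.l 33))) (.l 40)) (.l 40)) (.l 40)) (.l 40)) (.l 40))) (.b 8 (.b 5 (.b 4 (.b 2 (.b 1 (.b 0 (.b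 38 (.m 16 (.l 39)) (.b 21 (.b 39 (.m 16 (.b 16 (.b 35 (.b 27 (.b 32 (.l 37) (.l 32)) (.l 27)) (.l 35)) (.b 7 (.b 35 (.b 32 (.b 27 (.l 37) (.l 27)) (.l 32)) (.l 35)) (.l 38)))) (.l 39)) (.b 16 (.b 39 (.m 16 (.b 7 (.b 35 (.b 32 (.b 27 (.l 37) (.l 27)) (.l 32)) (.l 35)) (.l 38))) (.l 39)) (.l 38)))) (.l 40)) (.l 40)) (.l 40)) (.l 40)) (.l 40)) (.l 40)))) (.b 15 (.b 10 (.b 8 (.b 5 (.b 4 (.b 39 (.m 16 (.b 2 (.b 1 (.b 21 (.b 35 (.b 27 (.b 32 (.l 37) (.l 32)) (.l 27)) (.l 35)) (.b 16 (.b 35 (.b 27 (.b 32 (.l 37) (.l 32)) (.l 27)) (.l 35)) (.b 7 (.b 35 (.b 32 (.b 27 (.l 37) (.l 27)) (.l 32)) (.l 35)) (.l 38)))) (.b 0 (.b 26 (.b 35 (.b 27 (.b 32 (.b 22 (.l 37) (.l 22)) (.l 32)) (.l 27)) (.l 35)) (.b 18 (.b 35 (.b 27 (.b 32 (.b 22 (.l 37) (.l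 22)) (.l 32)) (.l 27)) (.l 35)) (.l 37))) (.l 40))) (.b 1 (.b 0 (.b 21 (.b 35 (.b 27 (.b 32 (.b 22 (.l 37) (.l 22)) (.l 32)) (.l 27)) (.l 35)) (.b 31 (.b 35 (.b 27 (.b 32 (.b 22 (.l 37) (.l 22)) (.l 32)) (.l 27)) (.l 35)) (.l 31))) (.l 40)) (.l 40)))) (.l 39)) (.b 2 (.b 1 (.b 0 (.b 35 (.b 39 (.m 15 (.b 21 (.b 16 (.b 27 (.b 29 (.l 37) (.l 29)) (.l 27)) (.b 7 (.b 32 (.b 27 (.l 37) (.l 27)) (.l 32)) (.l 38))) (.b 31 (.b 16 (.b 27 (.b 29 (.l 37) (.l 29)) (.l 27)) (.l 38)) (.l 31)))) (.l 39)) (.b 25 (.b 39 (.m 16 (.b 20 (.b 14 (.b 34 (.l 35) (.l 34)) (.l 35)) (.l 35))) (.l 39)) (.l 35))) (.l 40)) (.l 40)) (.l 40))) (.b 4 (.b 39 (.m 16 (.b 2 (.b 1 (.b 0 (.b 35 (.b 31 (.b 27 (.b 32 (.b 22 (.l 37) (.l 22)) (.l 32)) (.l 27)) (.b 21 (.b 27 (.b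 32 (.b 22 (.l 37) (.l 22)) (.l 32)) (.l 27)) (.l 31))) (.b 25 (.b 20 (.b 27 (.l 35) (.l 27)) (.l 35)) (.l 35))) (.l 40)) (.l 40)) (.l 40))) (.l 39)) (.l 40))) (.b 5 (.b 4 (.b 2 (.b 1 (.b 0 (.b 35 (.b 39 (.m 15 (.b 31 (.b 25 (.b 27 (.b 29 (.l 37) (.l 29)) (.l 27)) (.b 13 (.b 27 (.b 32 (.l 37) (.l 32)) (.l 27)) (.l 25))) (.b 21 (.b 12 (.b 32 (.b 27 (.l 37) (.l 27)) (.l 32)) (.l 31)) (.l 31)))) (.l 39)) (.b 25 (.b 39 (.m 16 (.b 20 (.b 14 (.b 34 (.l 35) (.l 34)) (.l 35)) (.l 35))) (.l 39)) (.l 35))) (.l 40)) (.l 40)) (.l 40)) (.l 40)) (.l 40))) (.b 8 (.b 5 (.b 4 (.b 2 (.b 1 (.b 0 (.b 35 (.b 39 (.m 15 (.b 21 (.b 16 (.b 27 (.b 32 (.l 37) (.l 32)) (.l 27)) (.b 7 (.b 32 (.b 27 (.l 37) (.l 27)) (.l 32)) (.l 38))) (.b 31 (.b 16 (.b 27 (.b 32 (.l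 37) (.l 32)) (.l 27)) (.l 38)) (.l 31)))) (.l 39)) (.b 25 (.b 39 (.m 16 (.b 20 (.b 14 (.b 34 (.l 35) (.l 34)) (.l 35)) (.l 35))) (.l 39)) (.l 35))) (.l 40)) (.l 40)) (.l 40)) (.l 40)) (.l 40)) (.l 40))) (.b 10 (.b 8 (.b 5 (.b 4 (.b 2 (.b 1 (.b 0 (.b 35 (.b 39 (.m 15 (.b 21 (.b 26 (.b 27 (.b 32 (.b 22 (.m 8 (.l 37)) (.l 22)) (.l 32)) (.l 27)) (.b 18 (.b 27 (.b 32 (.b 22 (.l 37) (.l 22)) (.l 32)) (.l 27)) (.b 11 (.b 27 (.b 32 (.b 34 (.m 13 (.l 37)) (.l 34)) (.l 32)) (.l 27)) (.l 37)))) (.b 16 (.b 31 (.b 27 (.b 32 (.l 37) (.l 32)) (.l 27)) (.b 12 (.b 32 (.b 27 (.l 37) (.l 27)) (.l 32)) (.l 31))) (.b 7 (.b 31 (.b 32 (.b 27 (.l 37) (.l 27)) (.l 32)) (.b 12 (.b 32 (.b 26 (.b 22 (.l 37) (.l 22)) (.b 18 (.b 22 (.l 37) (.l 22)) (.b 11 (.b 27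 (.l 37) (.l 27)) (.l 37)))) (.l 32)) (.l 31))) (.l 38))))) (.l 39)) (.b 25 (.b 39 (.m 16 (.b 20 (.b 14 (.b 34 (.b 27 (.l 37) (.l 27)) (.l 34)) (.b 13 (.b 27 (.b 32 (.l 37) (.l 32)) (.l 27)) (.l 35))) (.b 14 (.b 13 (.b 34 (.b 27 (.l 37) (.l 27)) (.l 34)) (.l 35)) (.l 35)))) (.l 39)) (.b 20 (.b 39 (.m 16 (.b 14 (.b 13 (.b 34 (.b 27 (.l 37) (.l 27)) (.l 34)) (.l 35)) (.l 35))) (.l 39)) (.l 35)))) (.l 40)) (.l 40)) (.l 40)) (.l 40)) (.l 40)) (.l 40)) (.l 40)))) (.b 17 (.b 15 (.b 10 (.b 8 (.b 5 (.b 4 (.b 39 (.m 16 (.b 2 (.b 1 (.b 21 (.b 16 (.b 27 (.b 32 (.l 37) (.l 32)) (.l 27)) (.b 7 (.b 32 (.b 27 (.l 37) (.l 27)) (.l 32)) (.b 0 (.b 34 (.b 27 (.b 32 (.l 37) (.l 32)) (.l 27)) (.b 24 (.b 27 (.l 34) (.l 27)) (.l 34))) (.l 38)))) (.b 16 (.b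 7 (.b 32 (.b 27 (.l 37) (.l 27)) (.l 32)) (.b 0 (.b 31 (.b 27 (.b 32 (.l 37) (.l 32)) (.l 27)) (.b 12 (.b 32 (.b 27 (.l 37) (.l 27)) (.l 32)) (.l 31))) (.l 38))) (.b 7 (.b 0 (.b 26 (.b 32 (.b 27 (.b 22 (.l 37) (.l 22)) (.l 27)) (.l 32)) (.b 18 (.b 35 (.b 27 (.b 22 (.l 37) (.l 22)) (.l 27)) (.l 35)) (.b 11 (.b 35 (.b 27 (.b 32 (.l 37) (.l 32)) (.l 27)) (.l 35)) (.l 37)))) (.l 38)) (.l 38)))) (.b 0 (.b 26 (.b 18 (.b 27 (.b 32 (.b 22 (.b 19 (.l 37) (.l 19)) (.l 22)) (.l 32)) (.l 27)) (.b 11 (.b 27 (.b 32 (.b 34 (.b 19 (.l 37) (.l 19)) (.l 34)) (.l 32)) (.l 27)) (.l 37))) (.b 18 (.b 11 (.b 27 (.b 34 (.b 32 (.b 19 (.l 37) (.l 19)) (.l 32)) (.l 34)) (.l 27)) (.l 37)) (.l 37))) (.l 40))) (.b 1 (.b 0 (.b 21 (.b 16 (.b 27 (.b 32 (.b 22 (.l 37)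 (.l 22)) (.l 32)) (.l 27)) (.b 7 (.b 32 (.b 27 (.b 22 (.l 37) (.l 22)) (.l 27)) (.l 32)) (.l 38))) (.b 16 (.b 7 (.b 32 (.b 27 (.b 22 (.l 37) (.l 22)) (.l 27)) (.l 32)) (.l 38)) (.l 38))) (.l 40)) (.l 40)))) (.l 39)) (.b 2 (.b 1 (.b 0 (.b 33 (.b 39 (.m 16 (.b 21 (.b 35 (.m 14 (.l 34)) (.l 35)) (.b 16 (.b 35 (.m 14 (.b 27 (.l 34) (.l 27))) (.l 35)) (.l 38)))) (.l 39)) (.b 13 (.b 39 (.m 16 (.b 3 (.b 21 (.b 16 (.b 27 (.b 32 (.l 37) (.l 32)) (.l 27)) (.b 7 (.b 32 (.b 27 (.l 37) (.l 27)) (.l 32)) (.l 38))) (.b 16 (.b 7 (.b 32 (.b 27 (.l 37) (.l 27)) (.l 32)) (.l 38)) (.l 38))) (.l 33))) (.l 39)) (.l 33))) (.l 40)) (.l 40)) (.l 40))) (.b 4 (.b 39 (.m 16 (.b 2 (.b 1 (.b 0 (.b 21 (.b 26 (.b 27 (.b 32 (.b 22 (.b 19 (.l 37) (.l 19)) (.l 22)) (.l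 32)) (.l 27)) (.b 18 (.b 27 (.b 32 (.b 22 (.b 19 (.l 37) (.l 19)) (.l 22)) (.l 32)) (.l 27)) (.b 11 (.b 27 (.b 32 (.b 34 (.b 19 (.l 37) (.l 19)) (.l 34)) (.l 32)) (.l 27)) (.l 37)))) (.b 16 (.b 31 (.b 27 (.b 32 (.b 22 (.l 37) (.l 22)) (.l 32)) (.l 27)) (.b 12 (.b 32 (.b 27 (.b 22 (.l 37) (.l 22)) (.l 27)) (.l 32)) (.l 31))) (.b 7 (.b 34 (.b 32 (.b 27 (.b 22 (.l 37) (.l 22)) (.l 27)) (.l 32)) (.b 24 (.b 32 (.b 27 (.l 34) (.l 27)) (.l 32)) (.l 34))) (.l 38)))) (.l 40)) (.l 40)) (.l 40))) (.l 39)) (.l 40))) (.b 5 (.b 4 (.b 2 (.b 1 (.b 0 (.b 33 (.b 39 (.m 16 (.b 21 (.b 35 (.m 14 (.l 34)) (.l 35)) (.b 16 (.b 35 (.m 14 (.b 27 (.l 34) (.l 27))) (.l 35)) (.b 7 (.b 35 (.m 14 (.b 32 (.l 34) (.l 32))) (.l 35)) (.l 38))))) (.l 39)) (.b 13 (.b 39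 (.m 16 (.b 3 (.b 21 (.b 26 (.b 27 (.b 32 (.b 22 (.m 0 (.l 37)) (.l 22)) (.l 32)) (.l 27)) (.b 18 (.b 27 (.b 32 (.b 22 (.m 0 (.l 37)) (.l 22)) (.l 32)) (.l 27)) (.b 11 (.b 27 (.b 32 (.b 34 (.m 0 (.l 37)) (.l 34)) (.l 32)) (.l 27)) (.l 37)))) (.b 16 (.b 31 (.b 27 (.b 32 (.l 37) (.l 32)) (.l 27)) (.b 12 (.b 32 (.b 27 (.l 37) (.l 27)) (.l 32)) (.l 31))) (.b 7 (.b 31 (.b 32 (.b 27 (.l 37) (.l 27)) (.l 32)) (.b 12 (.b 32 (.b 35 (.l 37) (.l 35)) (.l 32)) (.l 31))) (.l 38)))) (.l 33))) (.l 39)) (.l 33))) (.l 40)) (.l 40)) (.l 40)) (.l 40)) (.l 40))) (.b 8 (.b 5 (.b 4 (.b 2 (.b 1 (.b 0 (.b 38 (.m 16 (.l 39)) (.b 21 (.b 39 (.m 16 (.b 16 (.b 35 (.b 27 (.b 32 (.l 37) (.l 32)) (.l 27)) (.l 35)) (.b 7 (.b 35 (.b 32 (.b 27 (.l 37) (.l 27)) (.l 32))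 (.l 35)) (.l 38)))) (.l 39)) (.b 16 (.b 39 (.m 16 (.b 7 (.b 35 (.b 32 (.b 27 (.l 37) (.l 27)) (.l 32)) (.l 35)) (.l 38))) (.l 39)) (.l 38)))) (.l 40)) (.l 40)) (.l 40)) (.l 40)) (.l 40)) (.l 40))) (.b 10 (.b 8 (.b 5 (.b 4 (.b 2 (.b 1 (.b 0 (.b 33 (.b 39 (.m 16 (.b 21 (.b 26 (.b 27 (.b 32 (.b 22 (.l 37) (.l 22)) (.l 32)) (.l 27)) (.b 18 (.b 27 (.b 32 (.b 22 (.l 37) (.l 22)) (.l 32)) (.l 27)) (.b 11 (.b 27 (.b 32 (.b 34 (.m 13 (.l 37)) (.l 34)) (.l 32)) (.l 27)) (.l 37)))) (.b 16 (.b 26 (.b 27 (.b 32 (.b 22 (.l 37) (.l 22)) (.l 32)) (.l 27)) (.b 18 (.b 27 (.b 32 (.b 22 (.l 37) (.l 22)) (.l 32)) (.l 27)) (.b 11 (.b 27 (.b 32 (.b 34 (.m 13 (.l 37)) (.l 34)) (.l 32)) (.l 27)) (.l 37)))) (.b 7 (.b 26 (.b 32 (.b 27 (.b 22 (.l 37) (.l 22)) (.l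 27)) (.l 32)) (.b 18 (.b 35 (.m 14 (.l 34)) (.l 35)) (.b 11 (.b 35 (.m 14 (.l 34)) (.l 35)) (.l 37)))) (.l 38))))) (.l 39)) (.b 13 (.b 39 (.m 16 (.b 3 (.b 21 (.b 26 (.b 27 (.b 32 (.b 22 (.m 0 (.l 37)) (.l 22)) (.l 32)) (.l 27)) (.b 18 (.b 27 (.b 32 (.b 22 (.m 0 (.l 37)) (.l 22)) (.l 32)) (.l 27)) (.b 11 (.b 27 (.b 32 (.b 34 (.m 0 (.l 37)) (.l 34)) (.l 32)) (.l 27)) (.l 37)))) (.b 16 (.b 26 (.b 27 (.b 32 (.b 22 (.m 0 (.l 37)) (.l 22)) (.l 32)) (.l 27)) (.b 18 (.b 27 (.b 32 (.b 22 (.m 0 (.l 37)) (.l 22)) (.l 32)) (.l 27)) (.b 11 (.b 27 (.b 32 (.b 34 (.m 0 (.l 37)) (.l 34)) (.l 32)) (.l 27)) (.l 37)))) (.b 7 (.b 26 (.b 32 (.b 27 (.b 22 (.m 0 (.l 37)) (.l 22)) (.l 27)) (.l 32)) (.b 18 (.b 11 (.b 27 (.b 32 (.m 0 (.l 35)) (.l 32)) (.l 27))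 (.b 6 (.b 34 (.b 27 (.m 0 (.l 35)) (.l 27)) (.l 34)) (.l 37))) (.b 11 (.b 6 (.b 34 (.b 27 (.m 0 (.l 35)) (.l 27)) (.l 34)) (.l 37)) (.l 37)))) (.l 38)))) (.l 33))) (.l 39)) (.l 33))) (.l 40)) (.l 40)) (.l 40)) (.l 40)) (.l 40)) (.l 40)) (.l 40))) (.b 15 (.b 10 (.b 8 (.b 5 (.b 4 (.b 2 (.b 1 (.b 0 (.b 35 (.b 39 (.m 15 (.b 21 (.b 26 (.b 27 (.b 32 (.b 22 (.l 37) (.l 22)) (.l 32)) (.l 27)) (.b 18 (.b 27 (.b 32 (.b 22 (.l 37) (.l 22)) (.l 32)) (.l 27)) (.b 11 (.b 27 (.b 32 (.b 34 (.m 13 (.l 37)) (.l 34)) (.l 32)) (.l 27)) (.l 37)))) (.b 16 (.b 31 (.b 27 (.b 32 (.l 37) (.l 32)) (.l 27)) (.b 12 (.b 32 (.b 27 (.l 37) (.l 27)) (.l 32)) (.l 31))) (.b 7 (.b 31 (.b 32 (.b 27 (.l 37) (.l 27)) (.l 32)) (.b 12 (.b 32 (.b 26 (.b 22 (.l 37) (.l 22)) (.b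 18 (.b 22 (.l 37) (.l 22)) (.b 11 (.b 27 (.l 37) (.l 27)) (.l 37)))) (.l 32)) (.l 31))) (.l 38))))) (.l 39)) (.b 25 (.b 39 (.m 16 (.b 20 (.b 14 (.b 34 (.b 27 (.l 37) (.l 27)) (.l 34)) (.b 13 (.b 27 (.b 32 (.l 37) (.l 32)) (.l 27)) (.l 35))) (.b 14 (.b 13 (.b 34 (.b 27 (.l 37) (.l 27)) (.l 34)) (.l 35)) (.l 35)))) (.l 39)) (.b 20 (.b 39 (.m 16 (.b 14 (.b 13 (.b 34 (.b 27 (.l 37) (.l 27)) (.l 34)) (.l 35)) (.l 35))) (.l 39)) (.l 35)))) (.l 40)) (.l 40)) (.l 40)) (.l 40)) (.l 40)) (.l 40)) (.l 40)) (.l 40)))) (.b 23 (.b 17 (.b 15 (.b 10 (.b 8 (.b 5 (.b 4 (.b 39 (.m 16 (.b 2 (.b 1 (.b 21 (.b 16 (.b 27 (.b 32 (.l 37) (.l 32)) (.l 27)) (.b 7 (.b 32 (.b 27 (.l 37) (.l 27)) (.l 32)) (.b 0 (.b 34 (.b 27 (.b 32 (.l 37) (.l 32)) (.l 27)) (.b 24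 (.b 27 (.l 34) (.l 27)) (.l 34))) (.l 38)))) (.b 16 (.b 7 (.b 32 (.b 27 (.l 37) (.l 27)) (.l 32)) (.b 0 (.b 31 (.b 27 (.b 32 (.l 37) (.l 32)) (.l 27)) (.b 12 (.b 32 (.b 27 (.l 37) (.l 27)) (.l 32)) (.l 31))) (.l 38))) (.b 7 (.b 0 (.b 26 (.b 32 (.b 27 (.b 22 (.l 37) (.l 22)) (.l 27)) (.l 32)) (.b 18 (.b 35 (.b 27 (.b 22 (.l 37) (.l 22)) (.l 27)) (.l 35)) (.b 11 (.b 35 (.b 27 (.b 32 (.l 37) (.l 32)) (.l 27)) (.l 35)) (.l 37)))) (.l 38)) (.l 38)))) (.b 0 (.b 26 (.b 18 (.b 27 (.b 32 (.b 22 (.b 19 (.l 37) (.l 19)) (.l 22)) (.l 32)) (.l 27)) (.b 11 (.b 27 (.b 32 (.b 34 (.b 19 (.l 37) (.l 19)) (.l 34)) (.l 32)) (.l 27)) (.l 37))) (.b 18 (.b 11 (.b 27 (.b 34 (.b 32 (.b 19 (.l 37) (.l 19)) (.l 32)) (.l 34)) (.l 27)) (.l 37)) (.l 37))) (.l 40)))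 (.b 1 (.b 0 (.b 21 (.b 16 (.b 27 (.b 32 (.b 22 (.l 37) (.l 22)) (.l 32)) (.l 27)) (.b 7 (.b 32 (.b 27 (.b 22 (.l 37) (.l 22)) (.l 27)) (.l 32)) (.l 38))) (.b 16 (.b 7 (.b 32 (.b 27 (.b 22 (.l 37) (.l 22)) (.l 27)) (.l 32)) (.l 38)) (.l 38))) (.l 40)) (.l 40)))) (.l 39)) (.b 2 (.b 1 (.b 0 (.b 38 (.m 16 (.l 39)) (.b 21 (.b 39 (.m 16 (.b 16 (.b 35 (.b 27 (.b 29 (.l 37) (.l 29)) (.l 27)) (.l 35)) (.b 7 (.b 35 (.b 32 (.b 27 (.l 37) (.l 27)) (.l 32)) (.l 35)) (.l 38)))) (.l 39)) (.b 16 (.b 39 (.m 16 (.b 7 (.b 35 (.b 32 (.b 27 (.l 37) (.l 27)) (.l 32)) (.l 35)) (.l 38))) (.l 39)) (.l 38)))) (.l 40)) (.l 40)) (.l 40))) (.b 4 (.b 39 (.m 16 (.b 2 (.b 1 (.b 0 (.b 21 (.b 26 (.b 27 (.b 32 (.b 22 (.b 19 (.l 37) (.l 19)) (.l 22)) (.l 32)) (.l 27))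 (.b 18 (.b 27 (.b 32 (.b 22 (.b 19 (.l 37) (.l 19)) (.l 22)) (.l 32)) (.l 27)) (.b 11 (.b 27 (.b 32 (.b 34 (.b 19 (.l 37) (.l 19)) (.l 34)) (.l 32)) (.l 27)) (.l 37)))) (.b 16 (.b 31 (.b 27 (.b 32 (.b 22 (.l 37) (.l 22)) (.l 32)) (.l 27)) (.b 12 (.b 32 (.b 27 (.b 22 (.l 37) (.l 22)) (.l 27)) (.l 32)) (.l 31))) (.b 7 (.b 34 (.b 32 (.b 27 (.b 22 (.l 37) (.l 22)) (.l 27)) (.l 32)) (.b 24 (.b 32 (.b 27 (.l 34) (.l 27)) (.l 32)) (.l 34))) (.l 38)))) (.l 40)) (.l 40)) (.l 40))) (.l 39)) (.l 40))) (.b 5 (.b 4 (.b 2 (.b 1 (.b 0 (.b 35 (.b 39 (.m 15 (.b 21 (.b 26 (.b 27 (.b 29 (.b 22 (.l 37) (.l 22)) (.l 29)) (.l 27)) (.b 18 (.b 27 (.b 29 (.b 22 (.l 37) (.l 22)) (.l 29)) (.l 27)) (.b 11 (.b 27 (.b 32 (.b 29 (.l 37) (.l 29)) (.l 32)) (.l 27))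 (.l 37)))) (.b 16 (.b 31 (.b 27 (.b 29 (.l 37) (.l 29)) (.l 27)) (.b 12 (.b 32 (.b 27 (.l 37) (.l 27)) (.l 32)) (.l 31))) (.b 7 (.b 31 (.b 32 (.b 27 (.l 37) (.l 27)) (.l 32)) (.b 12 (.b 32 (.b 29 (.l 37) (.l 29)) (.l 32)) (.l 31))) (.l 38))))) (.l 39)) (.b 25 (.b 39 (.m 16 (.b 20 (.b 14 (.b 34 (.b 27 (.l 37) (.l 27)) (.l 34)) (.b 13 (.b 27 (.b 32 (.l 37) (.l 32)) (.l 27)) (.l 35))) (.b 14 (.b 13 (.b 34 (.b 27 (.l 37) (.l 27)) (.l 34)) (.l 35)) (.l 35)))) (.l 39)) (.b 20 (.b 39 (.m 16 (.b 14 (.b 13 (.b 34 (.b 27 (.l 37) (.l 27)) (.l 34)) (.l 35)) (.l 35))) (.l 39)) (.l 35)))) (.l 40)) (.l 40)) (.l 40)) (.l 40)) (.l 40))) (.b 8 (.b 5 (.b 4 (.b 2 (.b 1 (.b 0 (.b 38 (.m 16 (.l 39)) (.b 21 (.b 39 (.m 16 (.b 16 (.b 35 (.b 27 (.b 32 (.l 37)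 (.l 32)) (.l 27)) (.l 35)) (.b 7 (.b 35 (.b 32 (.b 27 (.l 37) (.l 27)) (.l 32)) (.l 35)) (.l 38)))) (.l 39)) (.b 16 (.b 39 (.m 16 (.b 7 (.b 35 (.b 32 (.b 27 (.l 37) (.l 27)) (.l 32)) (.l 35)) (.l 38))) (.l 39)) (.l 38)))) (.l 40)) (.l 40)) (.l 40)) (.l 40)) (.l 40)) (.l 40))) (.b 10 (.b 8 (.b 5 (.b 4 (.b 2 (.b 1 (.b 0 (.b 33 (.b 39 (.m 16 (.b 21 (.b 26 (.b 27 (.b 32 (.b 22 (.l 37) (.l 22)) (.l 32)) (.l 27)) (.b 18 (.b 27 (.b 32 (.b 22 (.l 37) (.l 22)) (.l 32)) (.l 27)) (.b 11 (.b 27 (.b 32 (.b 34 (.m 13 (.l 37)) (.l 34)) (.l 32)) (.l 27)) (.l 37)))) (.b 16 (.b 26 (.b 27 (.b 32 (.b 22 (.l 37) (.l 22)) (.l 32)) (.l 27)) (.b 18 (.b 27 (.b 32 (.b 22 (.l 37) (.l 22)) (.l 32)) (.l 27)) (.b 11 (.b 27 (.b 32 (.b 34 (.m 13 (.l 37)) (.l 34)) (.l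 32)) (.l 27)) (.l 37)))) (.b 7 (.b 26 (.b 32 (.b 27 (.b 22 (.l 37) (.l 22)) (.l 27)) (.l 32)) (.b 18 (.b 35 (.m 14 (.l 34)) (.l 35)) (.b 11 (.b 35 (.m 14 (.l 34)) (.l 35)) (.l 37)))) (.l 38))))) (.l 39)) (.b 13 (.b 39 (.m 16 (.b 21 (.b 26 (.b 27 (.b 32 (.b 22 (.l 37) (.l 22)) (.l 32)) (.l 27)) (.b 18 (.b 27 (.b 32 (.b 22 (.l 37) (.l 22)) (.l 32)) (.l 27)) (.b 11 (.b 27 (.b 32 (.b 34 (.l 37) (.l 34)) (.l 32)) (.l 27)) (.l 37)))) (.b 16 (.b 26 (.b 27 (.b 32 (.b 22 (.l 37) (.l 22)) (.l 32)) (.l 27)) (.b 18 (.b 27 (.b 32 (.b 22 (.l 37) (.l 22)) (.l 32)) (.l 27)) (.b 11 (.b 27 (.b 32 (.b 34 (.l 37) (.l 34)) (.l 32)) (.l 27)) (.l 37)))) (.b 7 (.b 26 (.b 32 (.b 27 (.b 22 (.l 37) (.l 22)) (.l 27)) (.l 32)) (.b 18 (.b 11 (.b 27 (.b 32 (.b 22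 (.m 0 (.l 37)) (.l 22)) (.l 32)) (.l 27)) (.b 6 (.b 34 (.b 27 (.b 22 (.m 0 (.l 37)) (.l 22)) (.l 27)) (.l 34)) (.l 37))) (.b 11 (.b 6 (.b 34 (.b 27 (.b 32 (.m 0 (.l 37)) (.l 32)) (.l 27)) (.l 34)) (.l 37)) (.l 37)))) (.l 38))))) (.l 39)) (.b 3 (.b 35 (.b 39 (.m 15 (.b 21 (.b 26 (.b 27 (.b 32 (.b 22 (.m 0 (.l 37)) (.l 22)) (.l 32)) (.l 27)) (.b 18 (.b 27 (.b 32 (.b 22 (.m 0 (.l 37)) (.l 22)) (.l 32)) (.l 27)) (.b 11 (.b 27 (.b 32 (.b 34 (.m 0 (.l 37)) (.l 34)) (.l 32)) (.l 27)) (.l 37)))) (.b 16 (.b 26 (.b 27 (.b 32 (.b 22 (.m 0 (.l 37)) (.l 22)) (.l 32)) (.l 27)) (.b 18 (.b 27 (.b 32 (.b 22 (.m 0 (.l 37)) (.l 22)) (.l 32)) (.l 27)) (.b 11 (.b 27 (.b 32 (.b 34 (.m 0 (.l 37)) (.l 34)) (.l 32)) (.l 27)) (.l 37)))) (.b 7 (.b 26 (.b 32 (.b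 27 (.b 22 (.m 0 (.l 37)) (.l 22)) (.l 27)) (.l 32)) (.b 18 (.b 11 (.b 27 (.b 32 (.m 0 (.l 34)) (.l 32)) (.l 27)) (.b 6 (.b 34 (.b 27 (.m 0 (.l 32)) (.l 27)) (.l 34)) (.l 37))) (.b 11 (.b 6 (.b 34 (.b 27 (.m 0 (.l 32)) (.l 27)) (.l 34)) (.l 37)) (.l 37)))) (.l 38))))) (.l 39)) (.b 25 (.b 39 (.m 16 (.b 20 (.b 14 (.b 34 (.b 27 (.l 37) (.l 27)) (.l 34)) (.b 9 (.b 6 (.b 34 (.b 27 (.m 0 (.l 38)) (.l 27)) (.l 34)) (.l 35)) (.l 35))) (.b 14 (.b 9 (.b 6 (.b 34 (.b 29 (.m 0 (.l 38)) (.b 11 (.m 0 (.l 38)) (.l 29))) (.l 34)) (.l 35)) (.l 35)) (.l 35)))) (.l 39)) (.b 20 (.b 39 (.m 16 (.b 14 (.b 9 (.b 6 (.b 34 (.b 21 (.m 0 (.l 37)) (.b 16 (.m 0 (.l 37)) (.b 7 (.m 0 (.l 37)) (.l 38)))) (.l 34)) (.l 35)) (.l 35)) (.l 35))) (.l 39)) (.l 35)))) (.l 33))))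 (.l 40)) (.l 40)) (.l 40)) (.l 40)) (.l 40)) (.l 40)) (.l 40))) (.b 15 (.b 10 (.b 8 (.b 5 (.b 4 (.b 2 (.b 1 (.b 0 (.b 35 (.b 39 (.m 15 (.b 21 (.b 26 (.b 27 (.b 32 (.b 22 (.l 37) (.l 22)) (.l 32)) (.l 27)) (.b 18 (.b 27 (.b 32 (.b 22 (.l 37) (.l 22)) (.l 32)) (.l 27)) (.b 11 (.b 27 (.b 32 (.b 34 (.m 13 (.l 37)) (.l 34)) (.l 32)) (.l 27)) (.l 37)))) (.b 16 (.b 31 (.b 27 (.b 32 (.l 37) (.l 32)) (.l 27)) (.b 12 (.b 32 (.b 27 (.l 37) (.l 27)) (.l 32)) (.l 31))) (.b 7 (.b 31 (.b 32 (.b 27 (.l 37) (.l 27)) (.l 32)) (.b 12 (.b 32 (.b 26 (.b 22 (.l 37) (.l 22)) (.b 18 (.b 22 (.l 37) (.l 22)) (.b 11 (.b 27 (.l 37) (.l 27)) (.l 37)))) (.l 32)) (.l 31))) (.l 38))))) (.l 39)) (.b 25 (.b 39 (.m 16 (.b 20 (.b 14 (.b 34 (.b 27 (.l 37) (.l 27)) (.l 34))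 (.b 13 (.b 27 (.b 32 (.l 37) (.l 32)) (.l 27)) (.l 35))) (.b 14 (.b 13 (.b 34 (.b 27 (.l 37) (.l 27)) (.l 34)) (.l 35)) (.l 35)))) (.l 39)) (.b 20 (.b 39 (.m 16 (.b 14 (.b 13 (.b 34 (.b 27 (.l 37) (.l 27)) (.l 34)) (.l 35)) (.l 35))) (.l 39)) (.l 35)))) (.l 40)) (.l 40)) (.l 40)) (.l 40)) (.l 40)) (.l 40)) (.l 40)) (.l 40))) (.b 17 (.b 15 (.b 10 (.b 8 (.b 5 (.b 4 (.b 2 (.b 1 (.b 0 (.b 33 (.b 39 (.m 16 (.b 21 (.b 26 (.b 27 (.b 32 (.b 22 (.l 37) (.l 22)) (.l 32)) (.l 27)) (.b 18 (.b 27 (.b 32 (.b 22 (.l 37) (.l 22)) (.l 32)) (.l 27)) (.b 11 (.b 27 (.b 32 (.b 34 (.m 13 (.l 37)) (.l 34)) (.l 32)) (.l 27)) (.l 37)))) (.b 16 (.b 26 (.b 27 (.b 32 (.b 22 (.l 37) (.l 22)) (.l 32)) (.l 27)) (.b 18 (.b 27 (.b 32 (.b 22 (.l 37) (.l 22)) (.l 32))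 (.l 27)) (.b 11 (.b 27 (.b 32 (.b 34 (.m 13 (.l 37)) (.l 34)) (.l 32)) (.l 27)) (.l 37)))) (.b 7 (.b 26 (.b 32 (.b 27 (.b 22 (.l 37) (.l 22)) (.l 27)) (.l 32)) (.b 18 (.b 35 (.m 14 (.l 34)) (.l 35)) (.b 11 (.b 35 (.m 14 (.l 34)) (.l 35)) (.l 37)))) (.l 38))))) (.l 39)) (.b 13 (.b 39 (.m 16 (.b 21 (.b 26 (.b 27 (.b 32 (.b 22 (.l 37) (.l 22)) (.l 32)) (.l 27)) (.b 18 (.b 27 (.b 32 (.b 22 (.l 37) (.l 22)) (.l 32)) (.l 27)) (.b 11 (.b 27 (.b 32 (.b 34 (.l 37) (.l 34)) (.l 32)) (.l 27)) (.l 37)))) (.b 16 (.b 26 (.b 27 (.b 32 (.b 22 (.l 37) (.l 22)) (.l 32)) (.l 27)) (.b 18 (.b 27 (.b 32 (.b 22 (.l 37) (.l 22)) (.l 32)) (.l 27)) (.b 11 (.b 27 (.b 32 (.b 34 (.l 37) (.l 34)) (.l 32)) (.l 27)) (.l 37)))) (.b 7 (.b 26 (.b 32 (.b 27 (.b 22 (.l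 37) (.l 22)) (.l 27)) (.l 32)) (.b 18 (.b 11 (.b 27 (.b 32 (.b 22 (.m 0 (.l 37)) (.l 22)) (.l 32)) (.l 27)) (.b 6 (.b 34 (.b 27 (.b 22 (.m 0 (.l 37)) (.l 22)) (.l 27)) (.l 34)) (.l 37))) (.b 11 (.b 6 (.b 34 (.b 27 (.b 32 (.m 0 (.l 37)) (.l 32)) (.l 27)) (.l 34)) (.l 37)) (.l 37)))) (.l 38))))) (.l 39)) (.b 3 (.b 35 (.b 39 (.m 15 (.b 21 (.b 26 (.b 27 (.b 32 (.b 22 (.m 0 (.l 37)) (.l 22)) (.l 32)) (.l 27)) (.b 18 (.b 27 (.b 32 (.b 22 (.m 0 (.l 37)) (.l 22)) (.l 32)) (.l 27)) (.b 11 (.b 27 (.b 32 (.b 34 (.m 0 (.l 37)) (.l 34)) (.l 32)) (.l 27)) (.l 37)))) (.b 16 (.b 26 (.b 27 (.b 32 (.b 22 (.m 0 (.l 37)) (.l 22)) (.l 32)) (.l 27)) (.b 18 (.b 27 (.b 32 (.b 22 (.m 0 (.l 37)) (.l 22)) (.l 32)) (.l 27)) (.b 11 (.b 27 (.b 32 (.b 34 (.m 0 (.l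 37)) (.l 34)) (.l 32)) (.l 27)) (.l 37)))) (.b 7 (.b 26 (.b 32 (.b 27 (.b 22 (.m 0 (.l 37)) (.l 22)) (.l 27)) (.l 32)) (.b 18 (.b 11 (.b 27 (.b 32 (.m 0 (.l 34)) (.l 32)) (.l 27)) (.b 6 (.b 34 (.b 27 (.m 0 (.l 32)) (.l 27)) (.l 34)) (.l 37))) (.b 11 (.b 6 (.b 34 (.b 27 (.m 0 (.l 32)) (.l 27)) (.l 34)) (.l 37)) (.l 37)))) (.l 38))))) (.l 39)) (.b 25 (.b 39 (.m 16 (.b 20 (.b 14 (.b 34 (.b 27 (.l 37) (.l 27)) (.l 34)) (.b 9 (.b 6 (.b 34 (.b 27 (.m 0 (.l 38)) (.l 27)) (.l 34)) (.l 35)) (.l 35))) (.b 14 (.b 9 (.b 6 (.b 34 (.b 29 (.m 0 (.l 38)) (.b 11 (.m 0 (.l 38)) (.l 29))) (.l 34)) (.l 35)) (.l 35)) (.l 35)))) (.l 39)) (.b 20 (.b 39 (.m 16 (.b 14 (.b 9 (.b 6 (.b 34 (.b 21 (.m 0 (.l 37)) (.b 16 (.m 0 (.l 37)) (.b 7 (.m 0 (.l 37)) (.l 38))))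 (.l 34)) (.l 35)) (.l 35)) (.l 35))) (.l 39)) (.l 35)))) (.l 33)))) (.l 40)) (.l 40)) (.l 40)) (.l 40)) (.l 40)) (.l 40)) (.l 40)) (.l 40)) (.l 40)))))

private lemma k18 : chk dm5 (PLf PL5 18) 41 17 c18 0 0 = true := by decide +kernel

/-- the certificates for the levels 1 to 18 -/
theorem certs5 : ∀ j, 1 ≤ j → j ≤ 18 →
    ∃ c, chk dm5 (PLf PL5 j) (PL5.getD j 100) (j - 1) c 0 0 = true := by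
  intro j h1 h2
  interval_cases j
  · exact ⟨c1, k1⟩
  · exact ⟨c2, k2⟩
  · exact ⟨c3, k3⟩
  · exact ⟨c4, k4⟩
  · exact ⟨c5, k5⟩
  · exact ⟨c6, k6⟩
  · exact ⟨c7, k7⟩
  · exact ⟨c8, k8⟩
  · exact ⟨c9, k9⟩
  · exact ⟨c10, k10⟩
  · exact ⟨c11, k11⟩
  · exact ⟨c12, k12⟩
  · exact ⟨c13, k13⟩
  · exact ⟨c14, k14⟩
  · exact ⟨c15, k15⟩
  · exact ⟨c16, k16⟩
  · exact ⟨c17, k17⟩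
  · exact ⟨c18, k18⟩

end Pool.Agent.Lib.MP_573265_nt.H31
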