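import Pool.Agent.Lib.MP_573265_nt.H31Lower

/-! Lower bound by fibres over the 7-smooth numbers (helper31, MP_573265_nt, k = 3). -/

open Finset Filter Topology

namespace Pool.Agent.Lib.MP_573265_nt.H31

open Pool.Agent.Results.MP_573265_nt.AsymptoticConstant

private lemma T_pos {n t : ℕ} (ht : t ∈ T 11 n) : 0 < t ∧ t ≤ n ∧ (M 11).Coprime t := by
  unfold T at ht
  rw [Finset.mem_filter, Finset.mem_Icc] at ht
  exact ⟨ht.1.1, ht.1.2, ht.2⟩

/-- independent fibres: windows of ratio 11 over the 7-smooth numbers -/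
theorem sum_le_F {P : ℕ → Finset ℕ} (hP : ∀ x, IsAdmissible 3 (P x))
    (hs : ∀ x, ∀ s ∈ P x, s ∈ Nat.smoothNumbers 11 ∧ s ≤ x ∧ x < 11 * s) (n : ℕ) :
    ∑ t ∈ T 11 n, (P (n / t)).card ≤ F 3 n := by
  set A : Finset ℕ := (T 11 n).biUnion (fun t => (P (n / t)).image (fun s => s * t)) with hA
  have hmem : ∀ a ∈ A, ∃ t ∈ T 11 n, ∃ s ∈ P (n / t), a = s * t := by
    intro a ha
    rw [hA, Finset.mem_biUnion] at ha
    obtain ⟨t, ht, ha⟩ := ha
    rw [Finset.mem_image] at ha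
    obtain ⟨s, hs, rfl⟩ := ha
    exact ⟨t, ht, s, hs, rfl⟩
  have hbd : ∀ t ∈ T 11 n, ∀ s ∈ P (n / t), 1 ≤ s * t ∧ s * t ≤ n ∧ n < s * t * 11 := by
    intro t ht s hst
    obtain ⟨h1, h2, h3⟩ := hs _ s hst
    obtain ⟨ht0, -, -⟩ := T_pos ht
    refine ⟨Nat.mul_pos (Nat.pos_of_ne_zero (Nat.ne_zero_of_mem_smoothNumbers h1)) ht0,
      (Nat.le_div_iff_mul_le ht0).1 h2, ?_⟩
    have := (Nat.div_lt_iff_lt_mul ht0).1 h3
    calc n < 11 * s * t := this
      _ = s * t * 11 := by ring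
  have hcard : A.card = ∑ t ∈ T 11 n, (P (n / t)).card := by
    rw [hA, Finset.card_biUnion]
    · apply Finset.sum_congr rfl
      intro t ht
      rw [Finset.card_image_of_injective]
      intro x y hxy
      exact Nat.eq_of_mul_eq_mul_right (T_pos ht).1 hxy
    · intro t ht t' ht' htt'
      show Disjoint ((P (n / t)).image (fun s => s * t)) ((P (n / t')).image (fun s => s * t'))
      rw [Finset.disjoint_left]
      intro x hx hx'
      rw [Finset.mem_image] at hx hx'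
      obtain ⟨s, hs1, hsx⟩ := hx
      obtain ⟨s', hs1', hsx'⟩ := hx'
      apply htt'
      exact (decomp_unique (hs _ s hs1).1 (hs _ s' hs1').1 (T_pos ht).2.2 (T_pos ht').2.2
        (hsx.trans hsx'.symm)).2
  have hadm : IsAdmissible 3 A := by
    intro a ha
    obtain ⟨t, ht, s, hst, rfl⟩ := hmem a ha
    obtain ⟨ht0, -, htc⟩ := T_pos ht
    refine lt_of_le_of_lt ?_ (hP (n / t) s hst)
    have hinj : Function.Injective (fun s : ℕ => s * t) := by
      intro x y hxy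
      exact Nat.eq_of_mul_eq_mul_right ht0 hxy
    rw [← Finset.card_image_of_injective ((P (n / t)).filter (fun b => b ≠ s ∧ b ∣ s)) hinj]
    apply Finset.card_le_card
    intro b hb
    rw [Finset.mem_filter] at hb
    obtain ⟨hbA, hbne, hbd'⟩ := hb
    obtain ⟨t', ht', s', hst', rfl⟩ := hmem b hbA
    obtain ⟨ht0', -, htc'⟩ := T_pos ht'
    obtain ⟨q, hq⟩ := hbd'
    have hqN : q < 11 := by
      have hle : s' * t' * q ≤ n := by rw [← hq]; exact (hbd t ht s hst).2.1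
      by_contra hcon
      rw [not_lt] at hcon
      have h1 : s' * t' * 11 ≤ s' * t' * q := Nat.mul_le_mul_left _ hcon
      have h2 := (hbd t' ht' s' hst').2.2
      omega
    have hq0 : 0 < q := by
      rcases Nat.eq_zero_or_pos q with h | h
      · exfalso
        rw [h, Nat.mul_zero] at hq
        have := (hbd t ht s hst).1
        omega
      · exact h
    have hqs : q ∈ Nat.smoothNumbers 11 := Nat.mem_smoothNumbers_of_lt hq0 hqN
    have hss : s' * q ∈ Nat.smoothNumbers 11 := Nat.mul_mem_smoothNumbers (hs _ s' hst').1 hqs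
    have heq : s * t = (s' * q) * t' := by rw [hq]; ring
    obtain ⟨h1, h2⟩ := decomp_unique (hs _ s hst).1 hss htc htc' heq
    subst h2
    rw [Finset.mem_image]
    refine ⟨s', ?_, rfl⟩
    rw [Finset.mem_filter]
    refine ⟨hst', ?_, ?_⟩
    · intro h
      apply hbne
      rw [h]
    · rw [h1]; exact Dvd.intro _ rfl
  rw [← hcard]
  apply le_maxAdm _ hadm
  intro a ha
  obtain ⟨t, ht, s, hst, rfl⟩ := hmem a ha
  rw [Finset.mem_Icc]
  exact ⟨(hbd t ht s hst).1, (hbd t ht s hst).2.1⟩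

/-- the 7-smooth members of the explicit set -/
def pat (x : ℕ) : Finset ℕ := (expl x).filter (fun s => s ∈ Nat.smoothNumbers 11)

private lemma res72 : ∀ a < 72, ∀ b < 72, (b % 2 = 1 ∧ b % 3 ≠ 0) →
    ((a * b % 72 = 12 ∨ a * b % 72 = 60) ↔ (a = 12 ∨ a = 60)) := by decide +kernel

private lemma res18 : ∀ a < 18, ∀ b < 18, (b % 2 = 1 ∧ b % 3 ≠ 0) →
    ((a * b % 18 = 3 ∨ a * b % 18 = 15) ↔ (a = 3 ∨ a = 15)) := by decide +kernel

private lemma res12 : ∀ a < 12, ∀ b < 12, (b % 2 = 1 ∧ b % 3 ≠ 0) →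
    ((a * b % 12 = 2 ∨ a * b % 12 = 10) ↔ (a = 2 ∨ a = 10)) := by decide +kernel

private lemma res3 : ∀ a < 3, ∀ b < 3, b ≠ 0 → (a * b % 3 ≠ 0 ↔ a ≠ 0) := by decide +kernel

private lemma res4 : ∀ a < 4, ∀ b < 4, b % 2 = 1 → (a * b % 4 ≠ 0 ↔ a ≠ 0) := by decide +kernel

private lemma res5 : ∀ a < 5, ∀ b < 5, b ≠ 0 → (a * b % 5 ≠ 0 ↔ a ≠ 0) := by decide +kernel

lemma cls_fibre {n s t : ℕ} (ht0 : 0 < t) (h2 : t % 2 = 1) (h3 : t % 3 ≠ 0) (h5 : t % 5 ≠ 0)
    (h : cls n (s * t)) : cls (n / t) s := by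
  have hle : ∀ c, c * (s * t) ≤ n ↔ c * s ≤ n / t := by
    intro c; rw [Nat.le_div_iff_mul_le ht0, Nat.mul_assoc]
  have hlt : ∀ c, n < c * (s * t) ↔ n / t < c * s := by
    intro c; rw [Nat.div_lt_iff_lt_mul ht0, Nat.mul_assoc]
  have hle1 : s * t ≤ n ↔ s ≤ n / t := by
    rw [Nat.le_div_iff_mul_le ht0]
  have e72 : (s * t % 72 = 12 ∨ s * t % 72 = 60) ↔ (s % 72 = 12 ∨ s % 72 = 60) := by
    rw [Nat.mul_mod]
    exact res72 _ (Nat.mod_lt _ (by norm_num)) _ (Nat.mod_lt _ (by norm_num)) (by omega)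
  have e18 : (s * t % 18 = 3 ∨ s * t % 18 = 15) ↔ (s % 18 = 3 ∨ s % 18 = 15) := by
    rw [Nat.mul_mod]
    exact res18 _ (Nat.mod_lt _ (by norm_num)) _ (Nat.mod_lt _ (by norm_num)) (by omega)
  have e12 : (s * t % 12 = 2 ∨ s * t % 12 = 10) ↔ (s % 12 = 2 ∨ s % 12 = 10) := by
    rw [Nat.mul_mod]
    exact res12 _ (Nat.mod_lt _ (by norm_num)) _ (Nat.mod_lt _ (by norm_num)) (by omega)
  have e3 : s * t % 3 ≠ 0 ↔ s % 3 ≠ 0 := by
    rw [Nat.mul_mod]
    exact res3 _ (Nat.mod_lt _ (by norm_num)) _ (Nat.mod_lt _ (by norm_num)) (by omega)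
  have e4 : s * t % 4 ≠ 0 ↔ s % 4 ≠ 0 := by
    rw [Nat.mul_mod]
    exact res4 _ (Nat.mod_lt _ (by norm_num)) _ (Nat.mod_lt _ (by norm_num)) (by omega)
  have e5 : s * t % 5 ≠ 0 ↔ s % 5 ≠ 0 := by
    rw [Nat.mul_mod]
    exact res5 _ (Nat.mod_lt _ (by norm_num)) _ (Nat.mod_lt _ (by norm_num)) (by omega)
  unfold cls at h ⊢
  rcases h with ⟨a1, a2, a3⟩ | ⟨a1, a2, a3⟩ | ⟨a1, a2, a3, a4⟩ | ⟨a1, a2, a3, a4⟩
  · left
    refine ⟨(hlt 4).1 a1, hle1.1 a2, ?_⟩
    by_cases hr : s % 72 = 12 ∨ s % 72 = 60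
    · left
      have hr' := e72.2 hr
      have h6 : 5 * (s * t) ≤ 4 * n := by
        rcases a3 with a3 | a3
        · exact a3
        · exfalso; omega
      obtain ⟨w, rfl⟩ : ∃ w, s = 12 * w := ⟨s / 12, by omega⟩
      have h7 : 12 * w * t = 12 * (w * t) := by ring
      have h8 : 15 * (w * t) ≤ n := by
        rw [h7] at h6
        omega
      have h9 : 15 * w ≤ n / t := by
        rw [Nat.le_div_iff_mul_le ht0, Nat.mul_assoc]
        exact h8
      omega
    · right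
      omega
  · right; left
    exact ⟨(hlt 5).1 a1, (hle 4).1 a2, by rcases a3 with a3 | a3; exacts [Or.inl (e3.1 a3), Or.inr (e18.1 a3)]⟩
  · right; right; left
    exact ⟨(hlt 6).1 a1, (hle 5).1 a2, e3.1 a3, e4.1 a4⟩
  · right; right; right
    have hr := e12.1 a3
    refine ⟨?_, (hle 6).1 a2, hr, ?_⟩
    · obtain ⟨v, rfl⟩ : ∃ v, s = 2 * v := ⟨s / 2, by omega⟩
      have h7 : 2 * v * t = 2 * (v * t) := by ring
      have h8 : n < 15 * (v * t) := by
        rw [h7] at a1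
        omega
      have h9 : n / t < 15 * v := by
        rw [Nat.div_lt_iff_lt_mul ht0, Nat.mul_assoc]
        exact h8
      omega
    · rcases a4 with a4 | a4
      · exact Or.inl ((hlt 7).1 a4)
      · exact Or.inr (e5.1 a4)

lemma M11 : M 11 = 210 := by decide +kernel

lemma tot11 : (M 11).totient = 48 := by rw [M11]; decide +kernel

private lemma cop_res {t : ℕ} (h : (M 11).Coprime t) : t % 2 = 1 ∧ t % 3 ≠ 0 ∧ t % 5 ≠ 0 := by
  have key : ∀ p, p.Prime → p < 11 → ¬ p ∣ t := by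
    intro p hp hlt hd
    have h1 : p ∣ 1 := by
      rw [← Nat.coprime_iff_gcd_eq_one.1 h]
      exact Nat.dvd_gcd ((prime_dvd_M hp).2 hlt) hd
    exact hp.one_lt.ne' (Nat.dvd_one.1 h1)
  have h2 := key 2 Nat.prime_two (by norm_num)
  have h3 := key 3 Nat.prime_three (by norm_num)
  have h5 := key 5 Nat.prime_five (by norm_num)
  rw [Nat.dvd_iff_mod_eq_zero] at h2 h3 h5
  omega

lemma mem_expl {n m : ℕ} : m ∈ expl n ↔ 1 ≤ m ∧ m ≤ n ∧ cls n m := by
  unfold expl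
  rw [Finset.mem_filter, Finset.mem_Icc, and_assoc]

theorem expl_le (n : ℕ) : (expl n).card ≤ ∑ t ∈ T 11 n, (pat (n / t)).card := by
  have hsub : expl n ⊆ (T 11 n).biUnion (fun t => (pat (n / t)).image (fun s => s * t)) := by
    intro m hm
    rw [mem_expl] at hm
    obtain ⟨h1, h2, h3⟩ := hm
    obtain ⟨s, t, hs, ht, rfl⟩ := decomp_exists 11 (a := m) (by omega)
    have ht0 : 0 < t := Nat.pos_of_ne_zero (by rintro rfl; simp at h1)
    have hs0 : 0 < s := Nat.pos_of_ne_zero (by rintro rfl; simp at h1)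
    rw [Finset.mem_biUnion]
    refine ⟨t, ?_, ?_⟩
    · unfold T
      rw [Finset.mem_filter, Finset.mem_Icc]
      exact ⟨⟨ht0, (Nat.le_mul_of_pos_left t hs0).trans h2⟩, ht⟩
    · rw [Finset.mem_image]
      refine ⟨s, ?_, rfl⟩
      unfold pat
      rw [Finset.mem_filter, mem_expl]
      obtain ⟨r2, r3, r5⟩ := cop_res ht
      exact ⟨⟨hs0, (Nat.le_div_iff_mul_le ht0).2 h2, cls_fibre ht0 r2 r3 r5 h3⟩, hs⟩
  calc (expl n).card ≤ _ := Finset.card_le_card hsub
    _ ≤ ∑ t ∈ T 11 n, ((pat (n / t)).image (fun s => s * t)).card := Finset.card_biUnion_le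
    _ ≤ _ := Finset.sum_le_sum (fun t _ => Finset.card_image_le)

/-- number of fibres with `a ≤ n / t < b` -/
lemma count_range (n a b : ℕ) (ha : 0 < a) (hab : a ≤ b) :
    R 11 (n / a) = R 11 (n / b) + ((T 11 n).filter (fun t => a ≤ n / t ∧ n / t < b)).card := by
  have hb : 0 < b := by omega
  unfold R
  rw [← Finset.card_union_of_disjoint]
  · congr 1
    ext t
    simp only [T, Finset.mem_filter, Finset.mem_Icc, Finset.mem_union]
    constructor
    · rintro ⟨⟨h1, h2⟩, h3⟩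
      rcases Nat.lt_or_ge (n / t) b with h | h
      · right
        have h4 : t * a ≤ n := (Nat.le_div_iff_mul_le ha).1 h2
        refine ⟨⟨⟨h1, (Nat.le_mul_of_pos_right t ha).trans h4⟩, h3⟩, ?_, h⟩
        rw [Nat.le_div_iff_mul_le (by omega : 0 < t), Nat.mul_comm]
        exact h4
      · left
        refine ⟨⟨h1, ?_⟩, h3⟩
        rw [Nat.le_div_iff_mul_le hb, Nat.mul_comm]
        exact (Nat.le_div_iff_mul_le (by omega : 0 < t)).1 h
    · rintro (⟨⟨h1, h2⟩, h3⟩ | ⟨⟨⟨h1, h2⟩, h3⟩, h4, h5⟩)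
      · exact ⟨⟨h1, h2.trans (Nat.div_le_div_left hab ha)⟩, h3⟩
      · refine ⟨⟨h1, ?_⟩, h3⟩
        rw [Nat.le_div_iff_mul_le ha, Nat.mul_comm]
        exact (Nat.le_div_iff_mul_le (by omega : 0 < t)).1 h4
  · rw [Finset.disjoint_left]
    intro t h1 h2
    simp only [T, Finset.mem_filter, Finset.mem_Icc] at h1 h2
    have h3 := (Nat.le_div_iff_mul_le hb).1 h1.1.2
    have h4 : b ≤ n / t := by
      rw [Nat.le_div_iff_mul_le (by omega : 0 < t), Nat.mul_comm]
      exact h3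
    omega

lemma count_ge (n a b : ℕ) (ha : 0 < a) (hab : a ≤ b) :
    (8 / 35 : ℝ) * n * (1 / a - 1 / b) - 97 ≤
      (((T 11 n).filter (fun t => a ≤ n / t ∧ n / t < b)).card : ℝ) := by
  have hb : 0 < b := by omega
  have h1 := count_range n a b ha hab
  have h1' : (R 11 (n / a) : ℝ) = (R 11 (n / b) : ℝ) +
      (((T 11 n).filter (fun t => a ≤ n / t ∧ n / t < b)).card : ℝ) := by exact_mod_cast h1
  have h2 := R_bounds 11 (n / a)
  have h3 := R_bounds 11 (n / b)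
  rw [tot11, M11] at h2 h3
  have h4 := (abs_le.1 h2).1
  have h5 := (abs_le.1 h3).2
  have ha' : (0 : ℝ) < a := by exact_mod_cast ha
  have hb' : (0 : ℝ) < b := by exact_mod_cast hb
  have h6 : ((n / b : ℕ) : ℝ) ≤ (n : ℝ) / b := Nat.cast_div_le
  have h7 : (n : ℝ) / a - 1 ≤ ((n / a : ℕ) : ℝ) := by
    have h8 : n < (n / a + 1) * a := by
      have := Nat.lt_div_mul_add (a := n) ha
      calc n < n / a * a + a := this
        _ = (n / a + 1) * a := by ring
    have h9 : (n : ℝ) < (((n / a : ℕ) : ℝ) + 1) * a := by exact_mod_cast h8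
    rw [sub_le_iff_le_add, div_le_iff₀ ha']
    exact h9.le
  have h10 : (8 / 35 : ℝ) * n * (1 / a - 1 / b) = 8 / 35 * ((n : ℝ) / a) - 8 / 35 * ((n : ℝ) / b) := by
    field_simp
  rw [h10]
  push_cast at h4 h5
  norm_num at h4 h5
  linarith

end Pool.Agent.Lib.MP_573265_nt.H31
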