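import Pool.Agent.Lib.MP_573265_nt.H31WinA

/-! Tables of windows of 7-smooth numbers: admissibility (helper31, MP_573265_nt, k = 3). -/

open Finset

namespace Pool.Agent.Lib.MP_573265_nt.H31

private lemma RL_all : RL.all (fun e => allb (fun i => cond (e.2.2.1.testBit i)
    (and (Nat.ble (e7 i) e.1) (and (Nat.ble e.2.1 (Nat.mul 11 (e7 i)))
      (Nat.ble (fp 24 (e.2.2.1 &&& dm7 i)) 2))) true) 186) = true := by decide +kernel

lemma RL_adm (e : ℕ × ℕ × ℕ × ℕ) (he : e ∈ RL) (i : ℕ) (hi : i < 186)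
    (hb : e.2.2.1.testBit i = true) :
    (e7 i ≤ e.1 ∧ e.2.1 ≤ 11 * e7 i ∧ fp 24 (e.2.2.1 &&& dm7 i) ≤ 2) := by
  have h := allb_spec _ (List.all_eq_true.1 RL_all e he) i hi
  simp only [hb, cond_true] at h
  have h' : Nat.ble (e7 i) e.1 = true ∧ Nat.ble e.2.1 (Nat.mul 11 (e7 i)) = true ∧
      Nat.ble (fp 24 (e.2.2.1 &&& dm7 i)) 2 = true := by
    rw [← Bool.and_eq_true, ← Bool.and_eq_true]
    exact h
  rw [Nat.ble_eq, Nat.ble_eq, Nat.ble_eq] at h'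
  exact h'

end Pool.Agent.Lib.MP_573265_nt.H31
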