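import Pool.Agent.Lib.MP_573265_nt.H31WinB
import Pool.Agent.Lib.MP_573265_nt.H31WinC

/-! The improved lower bound (helper31, MP_573265_nt, k = 3). -/

open Finset Filter Topology

namespace Pool.Agent.Lib.MP_573265_nt.H31

open Pool.Agent.Results.MP_573265_nt.AsymptoticConstant

/-- mask of the first window containing `x`, `0` if there is none -/
def mk : List (ℕ × ℕ × ℕ × ℕ) → ℕ → ℕ
  | [], _ => 0
  | e :: l, x => if e.1 ≤ x ∧ x < e.2.1 then e.2.2.1 else mk l x

/-- sum of the gains of the windows containing `x` -/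
def ds : List (ℕ × ℕ × ℕ × ℕ) → ℕ → ℕ
  | [], _ => 0
  | e :: l, x => (if e.1 ≤ x ∧ x < e.2.1 then e.2.2.2 else 0) + ds l x

private lemma ds_zero {l : List (ℕ × ℕ × ℕ × ℕ)} {x : ℕ}
    (h : ∀ e ∈ l, ¬ (e.1 ≤ x ∧ x < e.2.1)) : ds l x = 0 := by
  induction l with
  | nil => rfl
  | cons e l ih =>
    unfold ds
    rw [if_neg (h e (by simp)), ih (fun e' he' => h e' (by simp [he']))]

private lemma mk_spec {l : List (ℕ × ℕ × ℕ × ℕ)} {x : ℕ} (h : mk l x ≠ 0) :
    ∃ e ∈ l, e.1 ≤ x ∧ x < e.2.1 ∧ e.2.2.1 = mk l x := by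
  induction l with
  | nil => exact absurd rfl h
  | cons e l ih =>
    by_cases hx : e.1 ≤ x ∧ x < e.2.1
    · refine ⟨e, by simp, hx.1, hx.2, ?_⟩
      unfold mk
      rw [if_pos hx]
    · unfold mk at h ⊢
      rw [if_neg hx] at h ⊢
      obtain ⟨e', he', h'⟩ := ih h
      exact ⟨e', by simp [he'], h'⟩

private lemma mk_zero {l : List (ℕ × ℕ × ℕ × ℕ)} {x : ℕ} (h : mk l x = 0)
    (hl : ∀ e ∈ l, e.2.2.1 ≠ 0) : ds l x = 0 := by
  apply ds_zero
  induction l with
  | nil => simp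
  | cons e l ih =>
    intro e' he'
    by_cases hx : e.1 ≤ x ∧ x < e.2.1
    · exfalso
      unfold mk at h
      rw [if_pos hx] at h
      exact hl e (by simp) h
    · unfold mk at h
      rw [if_neg hx] at h
      rw [List.mem_cons] at he'
      rcases he' with rfl | he'
      · exact hx
      · exact ih h (fun e he => hl e (by simp [he])) e' he'

private lemma ds_eq {l : List (ℕ × ℕ × ℕ × ℕ)} {x : ℕ}
    (hp : l.Pairwise (fun e e' => e.2.1 ≤ e'.1)) {e : ℕ × ℕ × ℕ × ℕ} (he : e ∈ l)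
    (h1 : e.1 ≤ x) (h2 : x < e.2.1) : ds l x = e.2.2.2 := by
  induction l with
  | nil => simp at he
  | cons f l ih =>
    rw [List.pairwise_cons] at hp
    rw [List.mem_cons] at he
    unfold ds
    rcases he with rfl | he
    · rw [if_pos ⟨h1, h2⟩, ds_zero, add_zero]
      intro e' he' hc
      have := hp.1 e' he'
      omega
    · have h3 := hp.1 e he
      rw [if_neg (by omega), zero_add]
      exact ih hp.2 he

/-- the fibre sets -/
noncomputable def PP (x : ℕ) : Finset ℕ :=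
  if mk RL x = 0 then pat x
  else ((range 186).filter (fun i => (mk RL x).testBit i = true)).image e7

private lemma e7_mono {i j : ℕ} (hij : i < j) (hj : j < 186) : e7 i < e7 j := by
  induction j with
  | zero => omega
  | succ j ih =>
    have h1 := e7_lt j (by omega)
    rcases Nat.lt_or_ge i j with h | h
    · exact (ih h (by omega)).trans h1
    · have : i = j := by omega
      rw [this]
      exact h1

private lemma e7_inj {i j : ℕ} (hi : i < 186) (hj : j < 186) (h : e7 i = e7 j) : i = j := by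
  rcases Nat.lt_trichotomy i j with h1 | h1 | h1
  · have := e7_mono h1 hj; omega
  · exact h1
  · have := e7_mono h1 hi; omega

private lemma e7_smooth {i : ℕ} (hi : i < 186) : e7 i ∈ Nat.smoothNumbers 11 := by
  rw [e7_form i hi]
  generalize EX7.getD i (0, 0, 0, 0) = e
  unfold vl
  rw [Nat.mem_smoothNumbers']
  intro p hp hd
  have key : ∀ q k, q.Prime → p ∣ q ^ k → p = q := fun q k hq h =>
    (Nat.prime_dvd_prime_iff_eq hp hq).1 (hp.dvd_of_dvd_pow h)
  rcases (Nat.Prime.dvd_mul hp).1 hd with hd | hd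
  · rcases (Nat.Prime.dvd_mul hp).1 hd with hd | hd
    · rcases (Nat.Prime.dvd_mul hp).1 hd with hd | hd
      · rw [key 2 _ Nat.prime_two hd]; norm_num
      · rw [key 3 _ Nat.prime_three hd]; norm_num
    · rw [key 5 _ Nat.prime_five hd]; norm_num
  · rw [key 7 _ (by norm_num) hd]; norm_num

/-- every 7-smooth number below 2000 is in the table -/
private lemma ix7_smooth {s : ℕ} (hs : s ∈ Nat.smoothNumbers 11) (h : s < 2000) :
    ix7 s < 186 ∧ e7 (ix7 s) = s := by
  rcases ix7_spec s h with h0 | h1 | ⟨h1, h2⟩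
  · exact absurd h0 (Nat.ne_zero_of_mem_smoothNumbers hs)
  · exact h1
  · exfalso
    set c := s / Nat.gcd s (210 ^ 11) with hc
    have hd : c ∣ s := Nat.div_dvd_of_dvd (Nat.gcd_dvd_left _ _)
    have hcs : c ∈ Nat.smoothNumbers 11 := by
      rw [Nat.mem_smoothNumbers'] at hs ⊢
      intro p hp hpd
      exact hs p hp (hpd.trans hd)
    have hcop : (M 11).Coprime c := by rw [M11]; exact h2
    have := coprime_smooth_rough hcs hcop
    rw [Nat.coprime_self] at this
    omega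

private lemma pat_le {x : ℕ} (hx : x < 2000) : (pat x).card ≤ cf x SL7 := by
  refine le_trans ?_ (le_cf x SL7_pair)
  refine le_trans (Finset.card_le_card
    (t := (SL7.filter (fun s => decide (s ≤ x) && clsb x s)).toFinset) ?_) (List.toFinset_card_le _)
  intro s hs
  unfold pat at hs
  rw [Finset.mem_filter, mem_expl] at hs
  obtain ⟨h1, h2⟩ := ix7_smooth hs.2 (by omega)
  rw [List.mem_toFinset, List.mem_filter]
  refine ⟨?_, ?_⟩
  · rw [← h2]
    exact e7_mem _ h1
  · rw [Bool.and_eq_true, decide_eq_true_iff]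
    exact ⟨hs.1.2.1, clsb_of hs.1.2.2⟩

private lemma tb_lt {m i : ℕ} (hm : m < 2 ^ 186) (h : m.testBit i = true) : i < 186 := by
  by_contra hi
  rw [not_lt] at hi
  rw [Nat.testBit_lt_two_pow (lt_of_lt_of_le hm (Nat.pow_le_pow_right (by norm_num) hi))] at h
  simp at h

set_option maxRecDepth 100000 in
theorem PP_card (x : ℕ) : (pat x).card + ds RL x ≤ (PP x).card := by
  unfold PP
  by_cases h0 : mk RL x = 0
  · rw [if_pos h0, mk_zero h0 (fun e he => (RL_spec e he).2.2.2.1), add_zero]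
  · rw [if_neg h0]
    obtain ⟨e, he, h1, h2, h3⟩ := mk_spec h0
    obtain ⟨r1, r2, r3, r4, r5⟩ := RL_spec e he
    have h4 := cmp_spec _ _ (RL_cmp e he) x h1 (by omega)
    rw [ds_eq RL_pair he h1 h2, ← h3, Finset.card_image_of_injOn]
    · have h5 : fp 24 e.2.2.1 = ((range 186).filter (fun i => e.2.2.1.testBit i = true)).card := by
        rw [fp_eq, pc_eq]
        congr 1
        ext i
        simp only [Finset.mem_filter, mem_range]
        constructor
        · rintro ⟨_, h⟩; exact ⟨tb_lt r5 h, h⟩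
        · rintro ⟨h', h⟩; exact ⟨by omega, h⟩
      rw [← h5]
      have := pat_le (x := x) (by omega)
      omega
    · intro i hi j hj hij
      rw [mem_coe, Finset.mem_filter, mem_range] at hi hj
      exact e7_inj hi.1 hj.1 hij

theorem PP_mem (x : ℕ) : ∀ s ∈ PP x, s ∈ Nat.smoothNumbers 11 ∧ s ≤ x ∧ x < 11 * s := by
  intro s hs
  unfold PP at hs
  by_cases h0 : mk RL x = 0
  · rw [if_pos h0] at hs
    unfold pat at hs
    rw [Finset.mem_filter, mem_expl] at hs
    refine ⟨hs.2, hs.1.2.1, ?_⟩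
    have := hs.1.2.2
    unfold cls at this
    omega
  · rw [if_neg h0] at hs
    obtain ⟨e, he, h1, h2, h3⟩ := mk_spec h0
    rw [Finset.mem_image] at hs
    obtain ⟨i, hi, rfl⟩ := hs
    rw [Finset.mem_filter, mem_range, ← h3] at hi
    obtain ⟨a1, a2, _⟩ := RL_adm e he i hi.1 hi.2
    exact ⟨e7_smooth hi.1, by omega, by omega⟩

theorem PP_adm (x : ℕ) : IsAdmissible 3 (PP x) := by
  unfold PP
  by_cases h0 : mk RL x = 0
  · rw [if_pos h0]
    exact (expl_adm x).subset (Finset.filter_subset _ _)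
  · rw [if_neg h0]
    obtain ⟨e, he, h1, h2, h3⟩ := mk_spec h0
    rw [← h3]
    intro s hs
    rw [Finset.mem_image] at hs
    obtain ⟨i, hi, rfl⟩ := hs
    rw [Finset.mem_filter, mem_range] at hi
    obtain ⟨_, _, a3⟩ := RL_adm e he i hi.1 hi.2
    rw [fp_eq, pc_eq] at a3
    refine lt_of_le_of_lt (b := ((range (8 * 24)).filter
      (fun j => (e.2.2.1 &&& dm7 i).testBit j = true)).card) ?_ (by omega)
    have hsub : (((range 186).filter (fun i => e.2.2.1.testBit i = true)).image e7).filter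
        (fun b => b ≠ e7 i ∧ b ∣ e7 i) ⊆ ((range (8 * 24)).filter
      (fun j => (e.2.2.1 &&& dm7 i).testBit j = true)).image e7 := by
      intro b hb
      rw [Finset.mem_filter, Finset.mem_image] at hb
      obtain ⟨⟨j, hj, rfl⟩, hne, hd⟩ := hb
      rw [Finset.mem_filter, mem_range] at hj
      rw [Finset.mem_image]
      refine ⟨j, ?_, rfl⟩
      rw [Finset.mem_filter, mem_range, Nat.testBit_and, Bool.and_eq_true]
      refine ⟨by omega, hj.2, ?_⟩
      rcases dm7_spec i hi.1 j hj.1 with h | h | h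
      · exact absurd (congrArg e7 h) hne
      · exact absurd (Nat.mod_eq_zero_of_dvd hd) h
      · exact h
    exact (Finset.card_le_card hsub).trans Finset.card_image_le

/-- total gain -/
noncomputable def gs (l : List (ℕ × ℕ × ℕ × ℕ)) : ℝ :=
  (l.map (fun e => (e.2.2.2 : ℝ) * (1 / (e.1 : ℝ) - 1 / (e.2.1 : ℝ)))).sum

/-- number of gains -/
noncomputable def gn (l : List (ℕ × ℕ × ℕ × ℕ)) : ℝ := (l.map (fun e => (e.2.2.2 : ℝ))).sum

lemma ds_sum (n : ℕ) (l : List (ℕ × ℕ × ℕ × ℕ)) (hl : ∀ e ∈ l, 0 < e.1 ∧ e.1 ≤ e.2.1) :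
    (8 / 35 : ℝ) * n * gs l - 97 * gn l ≤ ∑ t ∈ T 11 n, (ds l (n / t) : ℝ) := by
  induction l with
  | nil => simp [gs, gn, ds]
  | cons e l ih =>
    have ih := ih (fun e he => hl e (by simp [he]))
    obtain ⟨h1, h2⟩ := hl e (by simp)
    have h3 := count_ge n e.1 e.2.1 h1 h2
    have h4 : ∑ t ∈ T 11 n, (ds (e :: l) (n / t) : ℝ) =
        (e.2.2.2 : ℝ) * (((T 11 n).filter (fun t => e.1 ≤ n / t ∧ n / t < e.2.1)).card : ℝ) +
        ∑ t ∈ T 11 n, (ds l (n / t) : ℝ) := by
      rw [← Finset.sum_boole, Finset.mul_sum, ← Finset.sum_add_distrib]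
      apply Finset.sum_congr rfl
      intro t _
      rw [ds]
      push_cast
      split_ifs <;> simp
    have h5 : gs (e :: l) = (e.2.2.2 : ℝ) * (1 / (e.1 : ℝ) - 1 / (e.2.1 : ℝ)) + gs l := by
      simp [gs]
    have h6 : gn (e :: l) = (e.2.2.2 : ℝ) + gn l := by simp [gn]
    rw [h4, h5, h6]
    have h7 := mul_le_mul_of_nonneg_left h3 (Nat.cast_nonneg (α := ℝ) e.2.2.2)
    nlinarith

/-- scaled gains -/
def gz (l : List (ℕ × ℕ × ℕ × ℕ)) : ℕ :=
  (l.map (fun e => e.2.2.2 * (1000000000000 * (e.2.1 - e.1) / (e.1 * e.2.1)))).sum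

lemma gz_le (l : List (ℕ × ℕ × ℕ × ℕ)) (hl : ∀ e ∈ l, 0 < e.1 ∧ e.1 ≤ e.2.1) :
    (gz l : ℝ) / 1000000000000 ≤ gs l := by
  induction l with
  | nil => simp [gz, gs]
  | cons e l ih =>
    have ih := ih (fun e he => hl e (by simp [he]))
    obtain ⟨h1, h2⟩ := hl e (by simp)
    have h5 : gs (e :: l) = (e.2.2.2 : ℝ) * (1 / (e.1 : ℝ) - 1 / (e.2.1 : ℝ)) + gs l := by
      simp [gs]
    have h6 : (gz (e :: l) : ℝ) = (e.2.2.2 : ℝ) *
        ((1000000000000 * (e.2.1 - e.1) / (e.1 * e.2.1) : ℕ) : ℝ) + (gz l : ℝ) := by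
      simp [gz]
    have ha : (0 : ℝ) < e.1 := by exact_mod_cast h1
    have hb : (0 : ℝ) < e.2.1 := by
      have : 0 < e.2.1 := by omega
      exact_mod_cast this
    have h7 : ((1000000000000 * (e.2.1 - e.1) / (e.1 * e.2.1) : ℕ) : ℝ) ≤
        1000000000000 * (1 / (e.1 : ℝ) - 1 / (e.2.1 : ℝ)) := by
      refine Nat.cast_div_le.trans (le_of_eq ?_)
      push_cast [Nat.cast_sub h2]
      field_simp
    have h8 := mul_le_mul_of_nonneg_left h7 (Nat.cast_nonneg (α := ℝ) e.2.2.2)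
    rw [h5, h6, add_div]
    have h9 : (e.2.2.2 : ℝ) * ((1000000000000 * (e.2.1 - e.1) / (e.1 * e.2.1) : ℕ) : ℝ) /
        1000000000000 ≤ (e.2.2.2 : ℝ) * (1 / (e.1 : ℝ) - 1 / (e.2.1 : ℝ)) := by
      rw [div_le_iff₀ (by norm_num)]
      linarith
    linarith

private lemma gz_RL : 20400000000 ≤ gz RL := by decide +kernel

theorem lower2 {c : ℝ} (hc : Tendsto (fun n : ℕ => (F 3 n : ℝ) / n) atTop (𝓝 c)) :
    8099 / 10000 ≤ c := by
  have hl : ∀ e ∈ RL, 0 < e.1 ∧ e.1 ≤ e.2.1 := fun e he => ⟨(RL_spec e he).1, (RL_spec e he).2.1⟩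
  have hg : (51 / 2500 : ℝ) ≤ gs RL := by
    have h1 := gz_le RL hl
    have h2 : (20400000000 : ℝ) ≤ (gz RL : ℝ) := by exact_mod_cast gz_RL
    have h3 : (20400000000 : ℝ) / 1000000000000 ≤ (gz RL : ℝ) / 1000000000000 :=
      div_le_div_of_nonneg_right h2 (by norm_num)
    have h4 : (20400000000 : ℝ) / 1000000000000 = 51 / 2500 := by norm_num
    linarith
  have hF : ∀ n : ℕ, (8099 / 10000 : ℝ) * n - (1000 + 97 * gn RL) ≤ (F 3 n : ℝ) := by
    intro n
    have h1 := sum_le_F PP_adm PP_mem n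
    have h2 : ∑ t ∈ T 11 n, ((pat (n / t)).card + ds RL (n / t)) ≤
        ∑ t ∈ T 11 n, (PP (n / t)).card := Finset.sum_le_sum (fun t _ => PP_card (n / t))
    rw [Finset.sum_add_distrib] at h2
    have h3 := expl_le n
    have h4 := card_expl n
    have h5 := ds_sum n RL hl
    have h6 : ((expl n).card : ℝ) + ∑ t ∈ T 11 n, (ds RL (n / t) : ℝ) ≤ (F 3 n : ℝ) := by
      have : (expl n).card + ∑ t ∈ T 11 n, ds RL (n / t) ≤ F 3 n := by omega
      exact_mod_cast this
    have h7 : (1691 : ℝ) * n ≤ 2100 * ((expl n).card : ℝ) + 2100 * 1000 := by exact_mod_cast h4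
    have h8 : (0 : ℝ) ≤ n := Nat.cast_nonneg n
    have h9 := mul_le_mul_of_nonneg_left hg h8
    nlinarith
  have h1 : Tendsto (fun n : ℕ => (8099 / 10000 : ℝ) - (1000 + 97 * gn RL) / (n : ℝ)) atTop
      (𝓝 (8099 / 10000 - 0)) :=
    tendsto_const_nhds.sub (tendsto_const_div_atTop_nhds_zero_nat _)
  rw [sub_zero] at h1
  refine le_of_tendsto_of_tendsto h1 hc ?_
  filter_upwards [eventually_gt_atTop 0] with n hn
  have h2 : (0 : ℝ) < n := by exact_mod_cast hn
  rw [le_div_iff₀ h2, sub_mul, div_mul_cancel₀ _ h2.ne']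
  exact hF n

end Pool.Agent.Lib.MP_573265_nt.H31
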