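import Pool.Agent.Results.MP_573265_nt.AsymptoticConstant

/-! Lower bound: an explicit 3-admissible set (helper31, MP_573265_nt, k = 3). -/

open Finset Filter Topology

namespace Pool.Agent.Lib.MP_573265_nt.H31

open Pool.Agent.Results.MP_573265_nt.AsymptoticConstant

/-- membership rule of the explicit set -/
def cls (n m : ℕ) : Prop :=
  (n < 4 * m ∧ m ≤ n ∧ (5 * m ≤ 4 * n ∨ (m % 72 ≠ 12 ∧ m % 72 ≠ 60))) ∨
  (n < 5 * m ∧ 4 * m ≤ n ∧ (m % 3 ≠ 0 ∨ m % 18 = 3 ∨ m % 18 = 15)) ∨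
  (n < 6 * m ∧ 5 * m ≤ n ∧ m % 3 ≠ 0 ∧ m % 4 ≠ 0) ∨
  (2 * n < 15 * m ∧ 6 * m ≤ n ∧ (m % 12 = 2 ∨ m % 12 = 10) ∧ (n < 7 * m ∨ m % 5 ≠ 0))

instance (n m : ℕ) : Decidable (cls n m) := by unfold cls; infer_instance

private lemma k234 (n a x y z : ℕ) (e1 : a = 2 * x) (e2 : a = 3 * y) (e3 : a = 4 * z)
    (h0 : cls n a) (h1 : cls n x) (h2 : cls n y) (h3 : cls n z) : False := by
  obtain ⟨u, rfl⟩ : ∃ u, a = 12 * u := ⟨a / 12, by omega⟩
  obtain rfl : x = 6 * u := by omega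
  obtain rfl : y = 4 * u := by omega
  obtain rfl : z = 3 * u := by omega
  unfold cls at h0 h1 h2 h3
  rcases h3 with h3 | h3 | h3 | h3 <;> rcases h0 with h0 | h0 | h0 | h0 <;>
    omega

private lemma k235 (n a x y z : ℕ) (e1 : a = 2 * x) (e2 : a = 3 * y) (e3 : a = 5 * z)
    (h0 : cls n a) (h1 : cls n x) (h2 : cls n y) (h3 : cls n z) : False := by
  obtain ⟨u, rfl⟩ : ∃ u, a = 30 * u := ⟨a / 30, by omega⟩
  obtain rfl : x = 15 * u := by omega
  obtain rfl : y = 10 * u := by omega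
  obtain rfl : z = 6 * u := by omega
  unfold cls at h0 h1 h2 h3
  rcases h3 with h3 | h3 | h3 | h3 <;> rcases h0 with h0 | h0 | h0 | h0 <;>
    omega

private lemma k236 (n a x y z : ℕ) (e1 : a = 2 * x) (e2 : a = 3 * y) (e3 : a = 6 * z)
    (h0 : cls n a) (h1 : cls n x) (h2 : cls n y) (h3 : cls n z) : False := by
  obtain ⟨u, rfl⟩ : ∃ u, a = 6 * u := ⟨a / 6, by omega⟩
  obtain rfl : x = 3 * u := by omega
  obtain rfl : y = 2 * u := by omega
  obtain rfl : z = 1 * u := by omega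
  unfold cls at h0 h1 h2 h3
  rcases h3 with h3 | h3 | h3 | h3 <;> rcases h0 with h0 | h0 | h0 | h0 <;>
    omega

private lemma k237 (n a x y z : ℕ) (e1 : a = 2 * x) (e2 : a = 3 * y) (e3 : a = 7 * z)
    (h0 : cls n a) (h1 : cls n x) (h2 : cls n y) (h3 : cls n z) : False := by
  obtain ⟨u, rfl⟩ : ∃ u, a = 42 * u := ⟨a / 42, by omega⟩
  obtain rfl : x = 21 * u := by omega
  obtain rfl : y = 14 * u := by omega
  obtain rfl : z = 6 * u := by omega
  unfold cls at h0 h1 h2 h3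
  rcases h3 with h3 | h3 | h3 | h3 <;> rcases h0 with h0 | h0 | h0 | h0 <;>
    omega

private lemma k245 (n a x y z : ℕ) (e1 : a = 2 * x) (e2 : a = 4 * y) (e3 : a = 5 * z)
    (h0 : cls n a) (h1 : cls n x) (h2 : cls n y) (h3 : cls n z) : False := by
  obtain ⟨u, rfl⟩ : ∃ u, a = 20 * u := ⟨a / 20, by omega⟩
  obtain rfl : x = 10 * u := by omega
  obtain rfl : y = 5 * u := by omega
  obtain rfl : z = 4 * u := by omega
  unfold cls at h0 h1 h2 h3
  rcases h3 with h3 | h3 | h3 | h3 <;> rcases h0 with h0 | h0 | h0 | h0 <;>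
    omega

private lemma k246 (n a x y z : ℕ) (e1 : a = 2 * x) (e2 : a = 4 * y) (e3 : a = 6 * z)
    (h0 : cls n a) (h1 : cls n x) (h2 : cls n y) (h3 : cls n z) : False := by
  obtain ⟨u, rfl⟩ : ∃ u, a = 12 * u := ⟨a / 12, by omega⟩
  obtain rfl : x = 6 * u := by omega
  obtain rfl : y = 3 * u := by omega
  obtain rfl : z = 2 * u := by omega
  unfold cls at h0 h1 h2 h3
  rcases h3 with h3 | h3 | h3 | h3 <;> rcases h0 with h0 | h0 | h0 | h0 <;>
    omega

private lemma k247 (n a x y z : ℕ) (e1 : a = 2 * x) (e2 : a = 4 * y) (e3 : a = 7 * z)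
    (h0 : cls n a) (h1 : cls n x) (h2 : cls n y) (h3 : cls n z) : False := by
  obtain ⟨u, rfl⟩ : ∃ u, a = 28 * u := ⟨a / 28, by omega⟩
  obtain rfl : x = 14 * u := by omega
  obtain rfl : y = 7 * u := by omega
  obtain rfl : z = 4 * u := by omega
  unfold cls at h0 h1 h2 h3
  rcases h3 with h3 | h3 | h3 | h3 <;> rcases h0 with h0 | h0 | h0 | h0 <;>
    omega

private lemma k256 (n a x y z : ℕ) (e1 : a = 2 * x) (e2 : a = 5 * y) (e3 : a = 6 * z)
    (h0 : cls n a) (h1 : cls n x) (h2 : cls n y) (h3 : cls n z) : False := by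
  obtain ⟨u, rfl⟩ : ∃ u, a = 30 * u := ⟨a / 30, by omega⟩
  obtain rfl : x = 15 * u := by omega
  obtain rfl : y = 6 * u := by omega
  obtain rfl : z = 5 * u := by omega
  unfold cls at h0 h1 h2 h3
  rcases h3 with h3 | h3 | h3 | h3 <;> rcases h0 with h0 | h0 | h0 | h0 <;>
    omega

private lemma k257 (n a x y z : ℕ) (e1 : a = 2 * x) (e2 : a = 5 * y) (e3 : a = 7 * z)
    (h0 : cls n a) (h1 : cls n x) (h2 : cls n y) (h3 : cls n z) : False := by
  obtain ⟨u, rfl⟩ : ∃ u, a = 70 * u := ⟨a / 70, by omega⟩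
  obtain rfl : x = 35 * u := by omega
  obtain rfl : y = 14 * u := by omega
  obtain rfl : z = 10 * u := by omega
  unfold cls at h0 h1 h2 h3
  rcases h3 with h3 | h3 | h3 | h3 <;> rcases h0 with h0 | h0 | h0 | h0 <;>
    omega

private lemma k267 (n a x y z : ℕ) (e1 : a = 2 * x) (e2 : a = 6 * y) (e3 : a = 7 * z)
    (h0 : cls n a) (h1 : cls n x) (h2 : cls n y) (h3 : cls n z) : False := by
  obtain ⟨u, rfl⟩ : ∃ u, a = 42 * u := ⟨a / 42, by omega⟩
  obtain rfl : x = 21 * u := by omega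
  obtain rfl : y = 7 * u := by omega
  obtain rfl : z = 6 * u := by omega
  unfold cls at h0 h1 h2 h3
  rcases h3 with h3 | h3 | h3 | h3 <;> rcases h0 with h0 | h0 | h0 | h0 <;>
    omega

private lemma k345 (n a x y z : ℕ) (e1 : a = 3 * x) (e2 : a = 4 * y) (e3 : a = 5 * z)
    (h0 : cls n a) (h1 : cls n x) (h2 : cls n y) (h3 : cls n z) : False := by
  obtain ⟨u, rfl⟩ : ∃ u, a = 60 * u := ⟨a / 60, by omega⟩
  obtain rfl : x = 20 * u := by omega
  obtain rfl : y = 15 * u := by omega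
  obtain rfl : z = 12 * u := by omega
  unfold cls at h0 h1 h2 h3
  rcases h3 with h3 | h3 | h3 | h3 <;> rcases h0 with h0 | h0 | h0 | h0 <;>
    omega

private lemma k346 (n a x y z : ℕ) (e1 : a = 3 * x) (e2 : a = 4 * y) (e3 : a = 6 * z)
    (h0 : cls n a) (h1 : cls n x) (h2 : cls n y) (h3 : cls n z) : False := by
  obtain ⟨u, rfl⟩ : ∃ u, a = 12 * u := ⟨a / 12, by omega⟩
  obtain rfl : x = 4 * u := by omega
  obtain rfl : y = 3 * u := by omega
  obtain rfl : z = 2 * u := by omega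
  unfold cls at h0 h1 h2 h3
  rcases h3 with h3 | h3 | h3 | h3 <;> rcases h0 with h0 | h0 | h0 | h0 <;>
    omega

private lemma k347 (n a x y z : ℕ) (e1 : a = 3 * x) (e2 : a = 4 * y) (e3 : a = 7 * z)
    (h0 : cls n a) (h1 : cls n x) (h2 : cls n y) (h3 : cls n z) : False := by
  obtain ⟨u, rfl⟩ : ∃ u, a = 84 * u := ⟨a / 84, by omega⟩
  obtain rfl : x = 28 * u := by omega
  obtain rfl : y = 21 * u := by omega
  obtain rfl : z = 12 * u := by omega
  unfold cls at h0 h1 h2 h3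
  rcases h3 with h3 | h3 | h3 | h3 <;> rcases h0 with h0 | h0 | h0 | h0 <;>
    omega

private lemma k356 (n a x y z : ℕ) (e1 : a = 3 * x) (e2 : a = 5 * y) (e3 : a = 6 * z)
    (h0 : cls n a) (h1 : cls n x) (h2 : cls n y) (h3 : cls n z) : False := by
  obtain ⟨u, rfl⟩ : ∃ u, a = 30 * u := ⟨a / 30, by omega⟩
  obtain rfl : x = 10 * u := by omega
  obtain rfl : y = 6 * u := by omega
  obtain rfl : z = 5 * u := by omega
  unfold cls at h0 h1 h2 h3
  rcases h3 with h3 | h3 | h3 | h3 <;> rcases h0 with h0 | h0 | h0 | h0 <;>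
    omega

private lemma k357 (n a x y z : ℕ) (e1 : a = 3 * x) (e2 : a = 5 * y) (e3 : a = 7 * z)
    (h0 : cls n a) (h1 : cls n x) (h2 : cls n y) (h3 : cls n z) : False := by
  obtain ⟨u, rfl⟩ : ∃ u, a = 105 * u := ⟨a / 105, by omega⟩
  obtain rfl : x = 35 * u := by omega
  obtain rfl : y = 21 * u := by omega
  obtain rfl : z = 15 * u := by omega
  unfold cls at h0 h1 h2 h3
  rcases h3 with h3 | h3 | h3 | h3 <;> rcases h0 with h0 | h0 | h0 | h0 <;>
    omega

private lemma k367 (n a x y z : ℕ) (e1 : a = 3 * x) (e2 : a = 6 * y) (e3 : a = 7 * z)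
    (h0 : cls n a) (h1 : cls n x) (h2 : cls n y) (h3 : cls n z) : False := by
  obtain ⟨u, rfl⟩ : ∃ u, a = 42 * u := ⟨a / 42, by omega⟩
  obtain rfl : x = 14 * u := by omega
  obtain rfl : y = 7 * u := by omega
  obtain rfl : z = 6 * u := by omega
  unfold cls at h0 h1 h2 h3
  rcases h3 with h3 | h3 | h3 | h3 <;> rcases h0 with h0 | h0 | h0 | h0 <;>
    omega

private lemma k456 (n a x y z : ℕ) (e1 : a = 4 * x) (e2 : a = 5 * y) (e3 : a = 6 * z)
    (h0 : cls n a) (h1 : cls n x) (h2 : cls n y) (h3 : cls n z) : False := by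
  obtain ⟨u, rfl⟩ : ∃ u, a = 60 * u := ⟨a / 60, by omega⟩
  obtain rfl : x = 15 * u := by omega
  obtain rfl : y = 12 * u := by omega
  obtain rfl : z = 10 * u := by omega
  unfold cls at h0 h1 h2 h3
  rcases h3 with h3 | h3 | h3 | h3 <;> rcases h0 with h0 | h0 | h0 | h0 <;>
    omega

private lemma k457 (n a x y z : ℕ) (e1 : a = 4 * x) (e2 : a = 5 * y) (e3 : a = 7 * z)
    (h0 : cls n a) (h1 : cls n x) (h2 : cls n y) (h3 : cls n z) : False := by
  obtain ⟨u, rfl⟩ : ∃ u, a = 140 * u := ⟨a / 140, by omega⟩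
  obtain rfl : x = 35 * u := by omega
  obtain rfl : y = 28 * u := by omega
  obtain rfl : z = 20 * u := by omega
  unfold cls at h0 h1 h2 h3
  rcases h3 with h3 | h3 | h3 | h3 <;> rcases h0 with h0 | h0 | h0 | h0 <;>
    omega

private lemma k467 (n a x y z : ℕ) (e1 : a = 4 * x) (e2 : a = 6 * y) (e3 : a = 7 * z)
    (h0 : cls n a) (h1 : cls n x) (h2 : cls n y) (h3 : cls n z) : False := by
  obtain ⟨u, rfl⟩ : ∃ u, a = 84 * u := ⟨a / 84, by omega⟩
  obtain rfl : x = 21 * u := by omega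
  obtain rfl : y = 14 * u := by omega
  obtain rfl : z = 12 * u := by omega
  unfold cls at h0 h1 h2 h3
  rcases h3 with h3 | h3 | h3 | h3 <;> rcases h0 with h0 | h0 | h0 | h0 <;>
    omega

private lemma k567 (n a x y z : ℕ) (e1 : a = 5 * x) (e2 : a = 6 * y) (e3 : a = 7 * z)
    (h0 : cls n a) (h1 : cls n x) (h2 : cls n y) (h3 : cls n z) : False := by
  obtain ⟨u, rfl⟩ : ∃ u, a = 210 * u := ⟨a / 210, by omega⟩
  obtain rfl : x = 42 * u := by omega
  obtain rfl : y = 35 * u := by omega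
  obtain rfl : z = 30 * u := by omega
  unfold cls at h0 h1 h2 h3
  rcases h3 with h3 | h3 | h3 | h3 <;> rcases h0 with h0 | h0 | h0 | h0 <;>
    omega

private lemma key (n a i j k x y z : ℕ) (hi : 2 ≤ i) (hij : i < j) (hjk : j < k) (hk : k ≤ 7)
    (e1 : a = i * x) (e2 : a = j * y) (e3 : a = k * z)
    (h0 : cls n a) (h1 : cls n x) (h2 : cls n y) (h3 : cls n z) : False := by
  have hk4 : 4 ≤ k := by omega
  have hj3 : 3 ≤ j := by omega
  interval_cases k <;> interval_cases j <;> interval_cases i <;>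
    first
    | exact k234 n a x y z e1 e2 e3 h0 h1 h2 h3
    | exact k235 n a x y z e1 e2 e3 h0 h1 h2 h3
    | exact k236 n a x y z e1 e2 e3 h0 h1 h2 h3
    | exact k237 n a x y z e1 e2 e3 h0 h1 h2 h3
    | exact k245 n a x y z e1 e2 e3 h0 h1 h2 h3
    | exact k246 n a x y z e1 e2 e3 h0 h1 h2 h3
    | exact k247 n a x y z e1 e2 e3 h0 h1 h2 h3
    | exact k256 n a x y z e1 e2 e3 h0 h1 h2 h3
    | exact k257 n a x y z e1 e2 e3 h0 h1 h2 h3
    | exact k267 n a x y z e1 e2 e3 h0 h1 h2 h3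
    | exact k345 n a x y z e1 e2 e3 h0 h1 h2 h3
    | exact k346 n a x y z e1 e2 e3 h0 h1 h2 h3
    | exact k347 n a x y z e1 e2 e3 h0 h1 h2 h3
    | exact k356 n a x y z e1 e2 e3 h0 h1 h2 h3
    | exact k357 n a x y z e1 e2 e3 h0 h1 h2 h3
    | exact k367 n a x y z e1 e2 e3 h0 h1 h2 h3
    | exact k456 n a x y z e1 e2 e3 h0 h1 h2 h3
    | exact k457 n a x y z e1 e2 e3 h0 h1 h2 h3
    | exact k467 n a x y z e1 e2 e3 h0 h1 h2 h3
    | exact k567 n a x y z e1 e2 e3 h0 h1 h2 h3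

/-- the explicit set -/
def expl (n : ℕ) : Finset ℕ := (Finset.Icc 1 n).filter (cls n)

private lemma cls_pos {n m : ℕ} (h : cls n m) : 2 * n < 15 * m ∧ m ≤ n := by
  unfold cls at h
  omega

theorem expl_adm (n : ℕ) : IsAdmissible 3 (expl n) := by
  intro a ha
  by_contra hcard
  rw [not_lt] at hcard
  have h2 : 2 < ((expl n).filter (fun b => b ≠ a ∧ b ∣ a)).card := by omega
  rw [Finset.two_lt_card] at h2
  obtain ⟨x, hx, y, hy, z, hz, hxy, hxz, hyz⟩ := h2
  unfold expl at ha hx hy hz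
  simp only [Finset.mem_filter, Finset.mem_Icc] at ha hx hy hz
  obtain ⟨-, h0⟩ := ha
  have h0' := cls_pos h0
  have getj : ∀ w : ℕ, cls n w → w ≠ a → w ∣ a → ∃ j, 2 ≤ j ∧ j ≤ 7 ∧ a = j * w := by
    intro w hw hne hd
    obtain ⟨j, hj⟩ := hd
    have hw' := cls_pos hw
    refine ⟨j, ?_, ?_, by rw [hj, Nat.mul_comm]⟩
    · rcases Nat.lt_or_ge j 2 with h | h
      · exfalso
        interval_cases j
        · omega
        · apply hne; omega
      · exact h
    · by_contra h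
      have h8 : 8 ≤ j := by omega
      have : w * 8 ≤ w * j := Nat.mul_le_mul_left w h8
      omega
  obtain ⟨i, hi2, hi7, ei⟩ := getj x hx.1.2 hx.2.1 hx.2.2
  obtain ⟨j, hj2, hj7, ej⟩ := getj y hy.1.2 hy.2.1 hy.2.2
  obtain ⟨k, hk2, hk7, ek⟩ := getj z hz.1.2 hz.2.1 hz.2.2
  have hx1 := hx.1.2
  have hy1 := hy.1.2
  have hz1 := hz.1.2
  have hij : i ≠ j := by
    rintro rfl
    apply hxy
    exact Nat.eq_of_mul_eq_mul_left (by omega) (ei.symm.trans ej)
  have hik : i ≠ k := by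
    rintro rfl
    apply hxz
    exact Nat.eq_of_mul_eq_mul_left (by omega) (ei.symm.trans ek)
  have hjk : j ≠ k := by
    rintro rfl
    apply hyz
    exact Nat.eq_of_mul_eq_mul_left (by omega) (ej.symm.trans ek)
  rcases Nat.lt_or_gt_of_ne hij with h1 | h1 <;> rcases Nat.lt_or_gt_of_ne hik with h2 | h2 <;>
    rcases Nat.lt_or_gt_of_ne hjk with h3 | h3
  · exact key n a i j k x y z hi2 h1 h3 hk7 ei ej ek h0 hx1 hy1 hz1
  · exact key n a i k j x z y hi2 h2 h3 hj7 ei ek ej h0 hx1 hz1 hy1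
  · omega
  · exact key n a k i j z x y hk2 h2 h1 hj7 ek ei ej h0 hz1 hx1 hy1
  · exact key n a j i k y x z hj2 h1 h2 hk7 ej ei ek h0 hy1 hx1 hz1
  · omega
  · exact key n a j k i y z x hj2 h3 h2 hi7 ej ek ei h0 hy1 hz1 hx1
  · exact key n a k j i z y x hk2 h3 h1 hi7 ek ej ei h0 hz1 hy1 hx1

/-! ### counting -/

private lemma cnt (M : ℕ) (hM : 0 < M) (p : ℕ → Prop) [DecidablePred p]
    (pp : Function.Periodic p M) (a b : ℕ) :
    M.count p * (b - a) ≤ M * ((Finset.Ico a b).filter p).card + M * M := by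
  have h1 : ∀ q : ℕ, ((Finset.Ico a (a + q * M)).filter p).card = q * M.count p := by
    intro q
    induction q with
    | zero => simp
    | succ q ih =>
      have h2 : Finset.Ico a (a + (q + 1) * M) =
          Finset.Ico a (a + q * M) ∪ Finset.Ico (a + q * M) (a + q * M + M) := by
        rw [Finset.Ico_union_Ico_eq_Ico (by omega) (by omega)]
        congr 1
        ring
      rw [h2, Finset.filter_union, Finset.card_union_of_disjoint, ih,
        Nat.filter_Ico_card_eq_of_periodic _ _ _ pp]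
      · ring
      · apply Finset.disjoint_filter_filter
        exact Finset.Ico_disjoint_Ico_consecutive _ _ _
  have h2 : ((Finset.Ico a (a + (b - a) / M * M)).filter p).card ≤
      ((Finset.Ico a b).filter p).card := by
    apply Finset.card_le_card
    apply Finset.filter_subset_filter
    intro m hm
    rw [Finset.mem_Ico] at hm ⊢
    have h3 := Nat.div_mul_le_self (b - a) M
    omega
  rw [h1] at h2
  have h3 : b - a ≤ M * ((b - a) / M) + M := by
    have h4 := Nat.div_add_mod (b - a) M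
    have h5 := Nat.mod_lt (b - a) hM
    omega
  have h4 : M.count p ≤ M := Nat.count_le _
  calc M.count p * (b - a) ≤ M.count p * (M * ((b - a) / M) + M) := Nat.mul_le_mul_left _ h3
    _ = M * ((b - a) / M * M.count p) + M.count p * M := by ring
    _ ≤ M * ((Finset.Ico a b).filter p).card + M * M := by
        apply Nat.add_le_add
        · exact Nat.mul_le_mul_left _ h2
        · exact Nat.mul_le_mul_right _ h4

/-- number of members of the explicit set in `[a, b)` -/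
private def cn (n a b : ℕ) : ℕ := ((Finset.Ico a b).filter (cls n)).card

private lemma cn_add {n a b c : ℕ} (h1 : a ≤ b) (h2 : b ≤ c) : cn n a c = cn n a b + cn n b c := by
  unfold cn
  rw [← Finset.Ico_union_Ico_eq_Ico h1 h2, Finset.filter_union, Finset.card_union_of_disjoint]
  apply Finset.disjoint_filter_filter
  exact Finset.Ico_disjoint_Ico_consecutive _ _ _

private lemma piece (n a b M : ℕ) (hM : 0 < M) (p : ℕ → Prop) [DecidablePred p]
    (pp : Function.Periodic p M) (h : ∀ m, a ≤ m → m < b → p m → cls n m) :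
    M.count p * (b - a) ≤ M * cn n a b + M * M := by
  refine (cnt M hM p pp a b).trans ?_
  apply Nat.add_le_add_right
  apply Nat.mul_le_mul_left
  unfold cn
  apply Finset.card_le_card
  intro m hm
  rw [Finset.mem_filter, Finset.mem_Ico] at hm ⊢
  exact ⟨hm.1, h m hm.1.1 hm.1.2 hm.2⟩

theorem card_expl (n : ℕ) : 1691 * n ≤ 2100 * (expl n).card + 2100 * 1000 := by
  have e : (expl n).card = cn n 1 (n + 1) := by
    unfold expl cn
    congr 2
  have s1 : cn n 1 (n + 1) = cn n 1 (2 * n / 15 + 1) + cn n (2 * n / 15 + 1) (n + 1) :=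
    cn_add (by omega) (by omega)
  have s2 : cn n (2 * n / 15 + 1) (n + 1) =
      cn n (2 * n / 15 + 1) (n / 7 + 1) + cn n (n / 7 + 1) (n + 1) :=
    cn_add (by omega) (by omega)
  have s3 : cn n (n / 7 + 1) (n + 1) = cn n (n / 7 + 1) (n / 6 + 1) + cn n (n / 6 + 1) (n + 1) :=
    cn_add (by omega) (by omega)
  have s4 : cn n (n / 6 + 1) (n + 1) = cn n (n / 6 + 1) (n / 5 + 1) + cn n (n / 5 + 1) (n + 1) :=
    cn_add (by omega) (by omega)
  have s5 : cn n (n / 5 + 1) (n + 1) = cn n (n / 5 + 1) (n / 4 + 1) + cn n (n / 4 + 1) (n + 1) :=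
    cn_add (by omega) (by omega)
  have s6 : cn n (n / 4 + 1) (n + 1) =
      cn n (n / 4 + 1) (4 * n / 5 + 1) + cn n (4 * n / 5 + 1) (n + 1) :=
    cn_add (by omega) (by omega)
  have p1 := piece n (2 * n / 15 + 1) (n / 7 + 1) 60 (by norm_num)
    (fun m => (m % 12 = 2 ∨ m % 12 = 10) ∧ m % 5 ≠ 0)
    (by intro m; simp only [eq_iff_iff]; omega)
    (fun m h1 h2 h3 => Or.inr (Or.inr (Or.inr ⟨by omega, by omega, h3.1, Or.inr h3.2⟩)))
  have c1 : (60 : ℕ).count (fun m => (m % 12 = 2 ∨ m % 12 = 10) ∧ m % 5 ≠ 0) = 8 := by decide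
  have p2 := piece n (n / 7 + 1) (n / 6 + 1) 12 (by norm_num)
    (fun m => m % 12 = 2 ∨ m % 12 = 10)
    (by intro m; simp only [eq_iff_iff]; omega)
    (fun m h1 h2 h3 => Or.inr (Or.inr (Or.inr ⟨by omega, by omega, h3, Or.inl (by omega)⟩)))
  have c2 : (12 : ℕ).count (fun m => m % 12 = 2 ∨ m % 12 = 10) = 2 := by decide
  have p3 := piece n (n / 6 + 1) (n / 5 + 1) 12 (by norm_num)
    (fun m => m % 3 ≠ 0 ∧ m % 4 ≠ 0)
    (by intro m; simp only [eq_iff_iff]; omega)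
    (fun m h1 h2 h3 => Or.inr (Or.inr (Or.inl ⟨by omega, by omega, h3⟩)))
  have c3 : (12 : ℕ).count (fun m => m % 3 ≠ 0 ∧ m % 4 ≠ 0) = 6 := by decide
  have p4 := piece n (n / 5 + 1) (n / 4 + 1) 18 (by norm_num)
    (fun m => m % 3 ≠ 0 ∨ m % 18 = 3 ∨ m % 18 = 15)
    (by intro m; simp only [eq_iff_iff]; omega)
    (fun m h1 h2 h3 => Or.inr (Or.inl ⟨by omega, by omega, h3⟩))
  have c4 : (18 : ℕ).count (fun m => m % 3 ≠ 0 ∨ m % 18 = 3 ∨ m % 18 = 15) = 14 := by decide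
  have p5 := piece n (n / 4 + 1) (4 * n / 5 + 1) 1 (by norm_num)
    (fun m => m % 1 = 0)
    (by intro m; simp only [eq_iff_iff]; omega)
    (fun m h1 h2 h3 => Or.inl ⟨by omega, by omega, Or.inl (by omega)⟩)
  have c5 : (1 : ℕ).count (fun m => m % 1 = 0) = 1 := by decide
  have p6 := piece n (4 * n / 5 + 1) (n + 1) 72 (by norm_num)
    (fun m => m % 72 ≠ 12 ∧ m % 72 ≠ 60)
    (by intro m; simp only [eq_iff_iff]; omega)
    (fun m h1 h2 h3 => Or.inl ⟨by omega, by omega, Or.inr h3⟩)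
  have c6 : (72 : ℕ).count (fun m => m % 72 ≠ 12 ∧ m % 72 ≠ 60) = 70 := by decide
  rw [c1] at p1
  rw [c2] at p2
  rw [c3] at p3
  rw [c4] at p4
  rw [c5] at p5
  rw [c6] at p6
  rw [e]
  omega

theorem le_F (n : ℕ) : 1691 * n ≤ 2100 * F 3 n + 2100 * 1000 := by
  have h1 : (expl n).card ≤ F 3 n := le_maxAdm (Finset.filter_subset _ _) (expl_adm n)
  have h2 := card_expl n
  omega

theorem lower {c : ℝ} (hc : Tendsto (fun n : ℕ => (F 3 n : ℝ) / n) atTop (𝓝 c)) :
    1691 / 2100 ≤ c := by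
  have h1 : Tendsto (fun n : ℕ => (1691 / 2100 : ℝ) - 1000 / (n : ℝ)) atTop
      (𝓝 (1691 / 2100 - 0)) :=
    tendsto_const_nhds.sub (tendsto_const_div_atTop_nhds_zero_nat 1000)
  rw [sub_zero] at h1
  refine le_of_tendsto_of_tendsto h1 hc ?_
  filter_upwards [eventually_gt_atTop 0] with n hn
  have h2 : (0 : ℝ) < n := by exact_mod_cast hn
  have h3 : (1691 : ℝ) * n ≤ 2100 * (F 3 n : ℝ) + 2100 * 1000 := by exact_mod_cast le_F n
  rw [le_div_iff₀ h2, sub_mul, div_mul_cancel₀ _ h2.ne']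
  linarith

end Pool.Agent.Lib.MP_573265_nt.H31
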