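import Mathlib

/-! Certificate checker for lower bounds of the number of omitted elements
(helper31, MP_573265_nt, k = 3). -/

namespace Pool.Agent.Lib.MP_573265_nt.H31

/-- number of ones among the first `f` binary digits -/
def pc : ℕ → ℕ → ℕ
  | 0, _ => 0
  | f + 1, m => m % 2 + pc f (m / 2)

lemma pc_eq (f m : ℕ) : pc f m = ((Finset.range f).filter (fun i => m.testBit i = true)).card := by
  rw [Finset.card_filter]
  induction f generalizing m with
  | zero => simp [pc]
  | succ f ih =>
    rw [pc, ih, Finset.sum_range_succ', add_comm]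
    have h0 : (if m.testBit 0 = true then 1 else 0) = m % 2 := by
      rw [Nat.testBit_zero]
      rcases Nat.mod_two_eq_zero_or_one m with h | h <;> simp [h]
    rw [h0]
    have h1 : ∀ i, (m / 2).testBit i = m.testBit (i + 1) := by
      intro i
      rw [Nat.testBit_add_one]
    simp only [h1]

/-- table of the digit sums of the bytes -/
def tb : ℕ := 95125173855764218123276304889944061997689682402263585766959741291920687686033329201817409157123347502415384089435969498586180241031507595463600295898153685276653211633572815512294064538494957912327413386667662218713394765509704508661031522276467630197481635010039778342554499416459730172574551513689147646224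

/-- fast version of `pc`: `f` bytes -/
def fp : ℕ → ℕ → ℕ
  | 0, _ => 0
  | f + 1, m => (tb >>> (4 * (m % 256))) % 16 + fp f (m / 256)

private lemma tb_spec : ∀ b < 256, (tb >>> (4 * b)) % 16 = pc 8 b := by decide +kernel

private lemma pc_add8 (k m : ℕ) : pc (k + 8) m = pc 8 (m % 256) + pc k (m / 256) := by
  have h : m / 2 / 2 / 2 / 2 / 2 / 2 / 2 / 2 = m / 256 := by omega
  simp only [pc, h]
  omega

lemma fp_eq (f m : ℕ) : fp f m = pc (8 * f) m := by
  induction f generalizing m with
  | zero => simp [fp, pc]
  | succ f ih =>
    have h := pc_add8 (8 * f) m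
    rw [fp, ih, tb_spec _ (Nat.mod_lt _ (by norm_num)), Nat.mul_succ]
    exact h.symm

lemma fp8 (m : ℕ) : fp 8 m = pc 64 m := fp_eq 8 m

/-- search trees -/
inductive Cert
  | l (a : ℕ)
  | p (i : ℕ)
  | m (i : ℕ) (c : Cert)
  | b (x : ℕ) (o c : Cert)

/-- the checker: `dm a` = mask of the proper divisors of the `a`-th element, `pl i` = length of
the `i`-th prefix, `L` = length, `tot` = number of allowed omissions, `O` / `I` masks of the
elements known to be omitted / included -/
noncomputable def chk (dm pl : ℕ → ℕ) (L tot : ℕ) (c : Cert) : ℕ → ℕ → Bool :=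
  Cert.rec (motive := fun _ => ℕ → ℕ → Bool)
    (fun a O I => Nat.blt a L && I.testBit a &&
      (Nat.ble (tot + 3) (fp 8 (dm a ^^^ (dm a &&& O)) + fp 8 O) ||
        Nat.ble 3 (fp 8 (dm a &&& I))))
    (fun i O _ => Nat.ble (pl i) L && Nat.ble (tot + 1) (i + fp 8 (O >>> pl i)))
    (fun i _ ih O I => Nat.ble (pl i) L && Nat.ble tot (i + fp 8 (O >>> pl i)) &&
      ih O (I ||| ((2 ^ L - 1) ^^^ ((2 ^ L - 1) &&& (O ||| (2 ^ pl i - 1))))))
    (fun x _ _ iho ihc O I => Nat.blt x L && iho (O ||| 2 ^ x) I && ihc O (I ||| 2 ^ x)) c

lemma chk_l (dm pl : ℕ → ℕ) (L tot a O I : ℕ) : chk dm pl L tot (.l a) O I =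
    (Nat.blt a L && I.testBit a &&
      (Nat.ble (tot + 3) (fp 8 (dm a ^^^ (dm a &&& O)) + fp 8 O) ||
        Nat.ble 3 (fp 8 (dm a &&& I)))) := rfl

lemma chk_p (dm pl : ℕ → ℕ) (L tot i O I : ℕ) : chk dm pl L tot (.p i) O I =
    (Nat.ble (pl i) L && Nat.ble (tot + 1) (i + fp 8 (O >>> pl i))) := rfl

lemma chk_m (dm pl : ℕ → ℕ) (L tot i : ℕ) (c : Cert) (O I : ℕ) :
    chk dm pl L tot (.m i c) O I =
    (Nat.ble (pl i) L && Nat.ble tot (i + fp 8 (O >>> pl i)) &&
      chk dm pl L tot c O
        (I ||| ((2 ^ L - 1) ^^^ ((2 ^ L - 1) &&& (O ||| (2 ^ pl i - 1)))))) := rfl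

lemma chk_b (dm pl : ℕ → ℕ) (L tot x : ℕ) (o c : Cert) (O I : ℕ) :
    chk dm pl L tot (.b x o c) O I =
    (Nat.blt x L && chk dm pl L tot o (O ||| 2 ^ x) I && chk dm pl L tot c O (I ||| 2 ^ x)) := rfl

open Finset

theorem chk_sound (dm pl : ℕ → ℕ) (L tot : ℕ) (hL : L ≤ 64) (om : ℕ → Prop) [DecidablePred om]
    (hd : ∀ a < L, ∀ d, (dm a).testBit d = true → d < a)
    (h1 : ∀ a < L, ¬ om a → ((range L).filter (fun d => (dm a).testBit d = true ∧ ¬ om d)).card ≤ 2)
    (h2 : ((range L).filter om).card ≤ tot)
    (h3 : ∀ i, pl i ≤ L → i ≤ ((range (pl i)).filter om).card) :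
    ∀ (c : Cert) (O I : ℕ), (∀ x, O.testBit x = true → x < L ∧ om x) →
      (∀ x, I.testBit x = true → x < L ∧ ¬ om x) → chk dm pl L tot c O I = true → False := by
  have hO : ∀ O : ℕ, (∀ x, O.testBit x = true → x < L ∧ om x) →
      pc 64 O = ((range L).filter (fun x => O.testBit x = true)).card := by
    intro O hO
    rw [pc_eq]
    congr 1
    ext x
    simp only [mem_filter, mem_range]
    constructor
    · rintro ⟨_, h⟩; exact ⟨(hO x h).1, h⟩
    · rintro ⟨h', h⟩; exact ⟨by omega, h⟩
  -- counting outside a prefix
  have hout : ∀ (O i : ℕ), (∀ x, O.testBit x = true → x < L ∧ om x) → pl i ≤ L →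
      pc 64 (O >>> pl i) ≤ ((range L).filter (fun x => pl i ≤ x ∧ O.testBit x = true)).card := by
    intro O i hO hi
    rw [pc_eq]
    refine Finset.card_le_card_of_injOn (fun x => pl i + x) ?_ ?_
    · intro x hx
      simp only [coe_filter, mem_range, Set.mem_ofPred_eq, Nat.testBit_shiftRight] at hx ⊢
      exact ⟨(hO _ hx.2).1, by omega, hx.2⟩
    · intro x _ y _ h
      simpa using h
  have hsplit : ∀ (O i : ℕ), (∀ x, O.testBit x = true → x < L ∧ om x) → pl i ≤ L →
      ∀ e, (∀ x ∈ e, x < L ∧ pl i ≤ x ∧ om x ∧ O.testBit x = false) →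
      i + pc 64 (O >>> pl i) + Finset.card e ≤ tot := by
    intro O i hO hi e he
    have hA := h3 i hi
    have hB := hout O i hO hi
    refine le_trans ?_ h2
    have hdisj1 : Disjoint ((range (pl i)).filter om)
        ((range L).filter (fun x => pl i ≤ x ∧ O.testBit x = true)) := by
      rw [Finset.disjoint_left]
      intro x hx hy
      simp only [mem_filter, mem_range] at hx hy
      omega
    have hdisj2 : Disjoint ((range (pl i)).filter om ∪
        ((range L).filter (fun x => pl i ≤ x ∧ O.testBit x = true))) e := by
      rw [Finset.disjoint_left]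
      intro x hx hy
      have h := he x hy
      simp only [mem_union, mem_filter, mem_range] at hx
      rcases hx with hx | hx
      · omega
      · rw [hx.2.2] at h; simp at h
    have hsub : ((range (pl i)).filter om ∪
        ((range L).filter (fun x => pl i ≤ x ∧ O.testBit x = true))) ∪ e ⊆
        (range L).filter om := by
      intro x hx
      simp only [mem_union, mem_filter, mem_range] at hx ⊢
      rcases hx with (hx | hx) | hx
      · exact ⟨by omega, hx.2⟩
      · exact ⟨hx.1, (hO x hx.2.2).2⟩
      · exact ⟨(he x hx).1, (he x hx).2.2.1⟩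
    have := Finset.card_le_card hsub
    rw [Finset.card_union_of_disjoint hdisj2, Finset.card_union_of_disjoint hdisj1] at this
    omega
  intro c
  induction c with
  | l a =>
    intro O I hOm hIm h
    simp only [chk_l, fp8, Bool.and_eq_true, Bool.or_eq_true, Nat.ble_eq] at h
    obtain ⟨⟨ha, hIa⟩, h⟩ := h
    have ha : a < L := by simpa [Nat.blt] using ha
    have hna := (hIm a hIa).2
    have hb := h1 a ha hna
    rcases h with h | h
    · -- many divisors
      have e1 : pc 64 (dm a ^^^ (dm a &&& O)) =
          ((range L).filter (fun d => (dm a).testBit d = true ∧ O.testBit d = false)).card := by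
        rw [pc_eq]
        congr 1
        ext d
        simp only [mem_filter, mem_range, Nat.testBit_xor, Nat.testBit_and]
        constructor
        · rintro ⟨_, h⟩
          have : (dm a).testBit d = true ∧ O.testBit d = false := by
            cases h1 : (dm a).testBit d <;> cases h2 : O.testBit d <;> simp_all
          exact ⟨lt_trans (hd a ha d this.1) ha, this⟩
        · rintro ⟨h', h1, h2⟩
          exact ⟨by omega, by simp [h1, h2]⟩
      rw [e1, hO O hOm] at h
      -- split the first set by `om`
      have e2 : ((range L).filter (fun d => (dm a).testBit d = true ∧ O.testBit d = false)).card ≤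
          ((range L).filter (fun d => (dm a).testBit d = true ∧ ¬ om d)).card +
          ((range L).filter (fun d => om d ∧ O.testBit d = false)).card := by
        rw [← Finset.card_union_add_card_inter]
        refine le_trans (Finset.card_le_card ?_) (Nat.le_add_right _ _)
        intro d hd'
        simp only [mem_union, mem_filter, mem_range] at hd' ⊢
        by_cases hod : om d
        · right; exact ⟨hd'.1, hod, hd'.2.2⟩
        · left; exact ⟨hd'.1, hd'.2.1, hod⟩
      have e3 : ((range L).filter (fun d => om d ∧ O.testBit d = false)).card +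
          ((range L).filter (fun x => O.testBit x = true)).card ≤ ((range L).filter om).card := by
        rw [← Finset.card_union_of_disjoint]
        · apply Finset.card_le_card
          intro d hd'
          simp only [mem_union, mem_filter, mem_range] at hd' ⊢
          rcases hd' with h | h
          · exact ⟨h.1, h.2.1⟩
          · exact ⟨h.1, (hOm d h.2).2⟩
        · rw [Finset.disjoint_left]
          intro d h1 h2
          simp only [mem_filter, mem_range] at h1 h2
          rw [h2.2] at h1
          simp at h1
      omega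
    · have e1 : pc 64 (dm a &&& I) ≤
          ((range L).filter (fun d => (dm a).testBit d = true ∧ ¬ om d)).card := by
        rw [pc_eq]
        apply Finset.card_le_card
        intro d hd'
        simp only [mem_filter, mem_range, Nat.testBit_and, Bool.and_eq_true] at hd' ⊢
        exact ⟨(hIm d hd'.2.2).1, hd'.2.1, (hIm d hd'.2.2).2⟩
      omega
  | p i =>
    intro O I hOm hIm h
    simp only [chk_p, fp8, Bool.and_eq_true, Nat.ble_eq] at h
    have := hsplit O i hOm h.1 ∅ (by simp)
    simp only [Finset.card_empty] at this
    omega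
  | m i c ih =>
    intro O I hOm hIm h
    simp only [chk_m, fp8, Bool.and_eq_true, Nat.ble_eq] at h
    obtain ⟨⟨hi, ht⟩, h⟩ := h
    refine ih O _ hOm ?_ h
    intro x hx
    rw [Nat.testBit_or, Bool.or_eq_true] at hx
    rcases hx with hx | hx
    · exact hIm x hx
    · rw [Nat.testBit_xor, Nat.testBit_and, Nat.testBit_or, Nat.testBit_two_pow_sub_one,
        Nat.testBit_two_pow_sub_one] at hx
      have hxL : x < L := by
        by_contra hc
        simp [hc] at hx
      have hx2 : O.testBit x = false ∧ ¬ x < pl i := by
        constructor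
        · cases hO' : O.testBit x
          · rfl
          · simp [hO', hxL] at hx
        · intro hc
          simp [hc, hxL] at hx
      refine ⟨hxL, ?_⟩
      intro hox
      have := hsplit O i hOm hi {x} (by
        intro y hy
        rw [Finset.mem_singleton] at hy
        subst hy
        exact ⟨hxL, by omega, hox, hx2.1⟩)
      simp only [Finset.card_singleton] at this
      omega
  | b x o c iho ihc =>
    intro O I hOm hIm h
    simp only [chk_b, Bool.and_eq_true] at h
    obtain ⟨⟨hx, ho⟩, hc⟩ := h
    have hx : x < L := by simpa [Nat.blt] using hx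
    by_cases hom : om x
    · refine iho (O ||| 2 ^ x) I ?_ hIm ho
      intro y hy
      rw [Nat.testBit_or, Bool.or_eq_true, Nat.testBit_two_pow] at hy
      rcases hy with hy | hy
      · exact hOm y hy
      · have : x = y := by simpa using hy
        subst this
        exact ⟨hx, hom⟩
    · refine ihc O (I ||| 2 ^ x) hOm ?_ hc
      intro y hy
      rw [Nat.testBit_or, Bool.or_eq_true, Nat.testBit_two_pow] at hy
      rcases hy with hy | hy
      · exact hIm y hy
      · have : x = y := by simpa using hy
        subst this
        exact ⟨hx, hom⟩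

end Pool.Agent.Lib.MP_573265_nt.H31
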