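import Pool.Agent.Results.MP_573265_nt.AsymptoticConstant
import Pool.Agent.Lib.MP_573265_nt.H31Search

/-! From certificates to a lower bound for the number of omitted elements
(helper31, MP_573265_nt, k = 3). -/

open Finset

namespace Pool.Agent.Lib.MP_573265_nt.H31

open Pool.Agent.Results.MP_573265_nt.AsymptoticConstant

/-- prefix lengths known before step `j` -/
def PLf (P : List ℕ) (j i : ℕ) : ℕ := bif Nat.blt i j then P.getD i 100 else 100

theorem omitted_gen {el dm : ℕ → ℕ} {P : List ℕ} {n m : ℕ} (hm : m ≤ 64)
    (hP : ∀ j ≤ n, P.getD j 100 ≤ m)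
    (inj : ∀ a < m, ∀ d < m, el a = el d → a = d)
    (dlt : ∀ a < m, dm a < 2 ^ a)
    (dspec : ∀ a < m, ∀ d < m, ((dm a).testBit d = true ↔ d ≠ a ∧ el d ∣ el a))
    (certs : ∀ j, 1 ≤ j → j ≤ n →
      ∃ c, chk dm (PLf P j) (P.getD j 100) (j - 1) c 0 0 = true)
    {t : ℕ} (ht : 0 < t) {A : Finset ℕ} (hA : IsAdmissible 3 A) :
    ∀ j ≤ n, j ≤ ((range (P.getD j 100)).filter (fun x => t * el x ∉ A)).card := by
  intro j
  induction j using Nat.strong_induction_on with
  | _ j ih =>
    intro hj
    rcases Nat.eq_zero_or_pos j with h0 | h0
    · omega
    by_contra hlt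
    obtain ⟨c, hc⟩ := certs j h0 hj
    have hL := hP j hj
    refine chk_sound dm (PLf P j) (P.getD j 100) (j - 1) (by omega) (fun x => t * el x ∉ A)
      ?_ ?_ ?_ ?_ c 0 0 (by simp) (by simp) hc
    · intro a ha d hd
      by_contra hda
      have h1 := dlt a (by omega)
      have h2 : dm a < 2 ^ d := lt_of_lt_of_le h1 (Nat.pow_le_pow_right (by norm_num) (by omega))
      rw [Nat.testBit_lt_two_pow h2] at hd
      simp at hd
    · intro a ha haA
      have haA : t * el a ∈ A := by
        by_contra h
        exact haA h
      have h := hA (t * el a) haA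
      have hle : ((range (P.getD j 100)).filter
          (fun d => (dm a).testBit d = true ∧ ¬ (t * el d ∉ A))).card ≤
          (A.filter (fun b => b ≠ t * el a ∧ b ∣ t * el a)).card := by
        refine Finset.card_le_card_of_injOn (fun x => t * el x) ?_ ?_
        · intro d hd
          simp only [coe_filter, mem_range, Set.mem_ofPred_eq] at hd ⊢
          have hs := (dspec a (by omega) d (by omega)).1 hd.2.1
          refine ⟨?_, ?_, Nat.mul_dvd_mul_left t hs.2⟩
          · by_contra h'
            exact hd.2.2 h'
          · intro he
            exact hs.1 (inj d (by omega) a (by omega) (Nat.eq_of_mul_eq_mul_left ht he))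
        · intro d hd d' hd' he
          simp only [coe_filter, mem_range, Set.mem_ofPred_eq] at hd hd'
          exact inj d (by omega) d' (by omega) (Nat.eq_of_mul_eq_mul_left ht he)
      omega
    · omega
    · intro i hi
      by_cases hij : i < j
      · have e : PLf P j i = P.getD i 100 := by
          unfold PLf
          have : Nat.blt i j = true := by simpa [Nat.blt] using hij
          rw [this]
          rfl
        rw [e]
        exact ih i hij (by omega)
      · exfalso
        have e : PLf P j i = 100 := by
          unfold PLf
          have : Nat.blt i j = false := by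
            rw [Bool.eq_false_iff]
            intro h
            exact hij (by simpa [Nat.blt] using h)
          rw [this]
          rfl
        omega

end Pool.Agent.Lib.MP_573265_nt.H31
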