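import Pool.Agent.Lib.MP_573265_nt.H31DataB
import Pool.Agent.Lib.MP_573265_nt.H31DataC
import Pool.Agent.Lib.MP_573265_nt.H31DataE

/-! Levels: how many elements of `u` times the `S`-smooth numbers up to `x` every 3-admissible set
omits; recursion over the primes of `S` (helper31, MP_573265_nt, k = 3). -/

open Finset

namespace Pool.Agent.Lib.MP_573265_nt.H31

open Pool.Agent.Results.MP_573265_nt.AsymptoticConstant

open Nat (factoredNumbers)

/-- the `S`-smooth numbers up to `x` -/
def sf (S : Finset ℕ) (x : ℕ) : Finset ℕ := (range (x + 1)).filter (fun s => s ∈ factoredNumbers S)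

/-- every 3-admissible set omits at least `i` of the numbers `u s`, `s ≤ x` being `S`-smooth -/
def Lev (S : Finset ℕ) (x i : ℕ) : Prop :=
  ∀ u, 0 < u → ∀ A : Finset ℕ, IsAdmissible 3 A → i ≤ ((sf S x).filter (fun s => u * s ∉ A)).card

lemma mem_sf {S : Finset ℕ} {x s : ℕ} : s ∈ sf S x ↔ s ≤ x ∧ s ∈ factoredNumbers S := by
  unfold sf
  rw [mem_filter, mem_range]
  constructor
  · rintro ⟨h1, h2⟩; exact ⟨by omega, h2⟩
  · rintro ⟨h1, h2⟩; exact ⟨by omega, h2⟩

lemma sf_mono {S : Finset ℕ} {x y : ℕ} (h : x ≤ y) : sf S x ⊆ sf S y := by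
  intro s hs
  rw [mem_sf] at hs ⊢
  exact ⟨hs.1.trans h, hs.2⟩

lemma Lev.mono {S : Finset ℕ} {x y i j : ℕ} (h : Lev S x i) (hxy : x ≤ y) (hj : j ≤ i) :
    Lev S y j := by
  intro u hu A hA
  refine hj.trans ((h u hu A hA).trans (card_le_card ?_))
  exact filter_subset_filter _ (sf_mono hxy)

lemma Lev.zero (S : Finset ℕ) (x : ℕ) : Lev S x 0 := fun _ _ _ _ => Nat.zero_le _

lemma Lev.rec' {S : Finset ℕ} {p x y i j : ℕ} (hp : p.Prime) (hpS : p ∈ S) (hy : y * p ≤ x)
    (h1 : Lev S y i) (h2 : Lev (S.erase p) x j) : Lev S x (i + j) := by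
  intro u hu A hA
  have a := h1 (u * p) (Nat.mul_pos hu hp.pos) A hA
  have b := h2 u hu A hA
  have hdisj : Disjoint (((sf S y).filter (fun s => u * p * s ∉ A)).image (fun s => p * s))
      ((sf (S.erase p) x).filter (fun s => u * s ∉ A)) := by
    rw [Finset.disjoint_left]
    intro s hs hs'
    rw [mem_image] at hs
    obtain ⟨t, _, rfl⟩ := hs
    rw [mem_filter, mem_sf, Nat.mem_factoredNumbers'] at hs'
    have := hs'.1.2 p hp (Dvd.intro _ rfl)
    simp at this
  have hsub : ((sf S y).filter (fun s => u * p * s ∉ A)).image (fun s => p * s) ∪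
      (sf (S.erase p) x).filter (fun s => u * s ∉ A) ⊆ (sf S x).filter (fun s => u * s ∉ A) := by
    intro s hs
    rw [mem_union] at hs
    rcases hs with hs | hs
    · rw [mem_image] at hs
      obtain ⟨t, ht, rfl⟩ := hs
      rw [mem_filter, mem_sf, Nat.mem_factoredNumbers'] at ht
      rw [mem_filter, mem_sf, Nat.mem_factoredNumbers']
      refine ⟨⟨?_, ?_⟩, ?_⟩
      · calc p * t ≤ p * y := Nat.mul_le_mul_left _ ht.1.1
          _ = y * p := Nat.mul_comm _ _
          _ ≤ x := hy
      · intro q hq hd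
        rcases (Nat.Prime.dvd_mul hq).1 hd with h | h
        · rw [(Nat.prime_dvd_prime_iff_eq hq hp).1 h]
          exact hpS
        · exact ht.1.2 q hq h
      · have := ht.2
        rwa [Nat.mul_assoc] at this
    · rw [mem_filter, mem_sf, Nat.mem_factoredNumbers'] at hs ⊢
      refine ⟨⟨hs.1.1, ?_⟩, hs.2⟩
      intro q hq hd
      exact Finset.mem_of_mem_erase (hs.1.2 q hq hd)
  have hc := card_le_card hsub
  rw [card_union_of_disjoint hdisj, card_image_of_injective] at hc
  · omega
  · intro s t hst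
    exact Nat.eq_of_mul_eq_mul_left hp.pos hst

/-- one prime: at most three of the powers are in `A` -/
lemma Lev.single {p : ℕ} (hp : p.Prime) (i : ℕ) : Lev {p} (p ^ (i + 2)) i := by
  intro u hu A hA
  by_contra hlt
  rw [not_le] at hlt
  -- exponents outside `A`
  have h1 : ((range (i + 3)).filter (fun e => u * p ^ e ∉ A)).card < i := by
    refine lt_of_le_of_lt ?_ hlt
    refine Finset.card_le_card_of_injOn (fun e => p ^ e) ?_ ?_
    · intro e he
      rw [mem_coe, mem_filter, mem_range] at he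
      rw [mem_coe, mem_filter, mem_sf, Nat.mem_factoredNumbers']
      refine ⟨⟨Nat.pow_le_pow_right hp.pos (by omega), ?_⟩, he.2⟩
      intro q hq hd
      rw [mem_singleton]
      exact (Nat.prime_dvd_prime_iff_eq hq hp).1 (hq.dvd_of_dvd_pow hd)
    · intro e _ e' _ h
      exact Nat.pow_right_injective hp.two_le h
  have h2 : ((range (i + 3)).filter (fun e => u * p ^ e ∈ A)).card +
      ((range (i + 3)).filter (fun e => u * p ^ e ∉ A)).card = i + 3 := by
    rw [Finset.card_filter_add_card_filter_not, card_range]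
  have h3 : 4 ≤ ((range (i + 3)).filter (fun e => u * p ^ e ∈ A)).card := by omega
  have hne : ((range (i + 3)).filter (fun e => u * p ^ e ∈ A)).Nonempty := by
    rw [← Finset.card_pos]; omega
  obtain ⟨m, hm, hmax⟩ := Finset.exists_max_image _ (fun e : ℕ => e) hne
  have hmA := (mem_filter.1 hm).2
  have h4 := hA (u * p ^ m) hmA
  have h5 : (((range (i + 3)).filter (fun e => u * p ^ e ∈ A)).erase m).card ≤
      (A.filter (fun b => b ≠ u * p ^ m ∧ b ∣ u * p ^ m)).card := by
    refine Finset.card_le_card_of_injOn (fun e => u * p ^ e) ?_ ?_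
    · intro e he
      rw [mem_coe, mem_erase] at he
      have he' := (mem_filter.1 he.2).2
      have hle := hmax e he.2
      rw [mem_coe, mem_filter]
      refine ⟨he', ?_, Nat.mul_dvd_mul_left u (Nat.pow_dvd_pow p hle)⟩
      intro h
      exact he.1 (Nat.pow_right_injective hp.two_le (Nat.eq_of_mul_eq_mul_left hu h))
    · intro e _ e' _ h
      exact Nat.pow_right_injective hp.two_le (Nat.eq_of_mul_eq_mul_left hu h)
  rw [card_erase_of_mem hm] at h5
  omega

/-! ### tables -/

/-- number of entries `≤ y` -/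
def cl : List ℕ → ℕ → ℕ
  | [], _ => 0
  | t :: T, y => bif Nat.ble t y then cl T y + 1 else cl T y

lemma cl_eq (T : List ℕ) (y : ℕ) : cl T y = (T.filter (fun t => t ≤ y)).length := by
  induction T with
  | nil => rfl
  | cons t T ih =>
    unfold cl
    rw [ih]
    by_cases h : t ≤ y
    · have : Nat.ble t y = true := by rw [Nat.ble_eq]; exact h
      rw [this, List.filter_cons_of_pos (by simpa using h)]
      rfl
    · have : Nat.ble t y = false := by
        rw [Bool.eq_false_iff]
        intro h'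
        rw [Nat.ble_eq] at h'
        exact h h'
      rw [this, List.filter_cons_of_neg (by simpa using h)]
      rfl

lemma cl_pred {T : List ℕ} {y : ℕ} (hy : 0 < y) (h : y ∉ T) : cl T y = cl T (y - 1) := by
  rw [cl_eq, cl_eq]
  congr 1
  apply List.filter_congr
  intro t ht
  have : t ≠ y := fun h' => h (h' ▸ ht)
  rw [decide_eq_decide]
  omega

lemma cl_zero {T : List ℕ} (h : 0 ∉ T) : cl T 0 = 0 := by
  rw [cl_eq, List.length_eq_zero_iff, List.filter_eq_nil_iff]
  intro t ht
  have : t ≠ 0 := fun h' => h (h' ▸ ht)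
  simp
  omega

theorem lev_of_table {S : Finset ℕ} {T : List ℕ}
    (h : ∀ t ∈ T, (∀ y < t, Lev S y (cl T y)) → Lev S t (cl T t)) : ∀ y, Lev S y (cl T y) := by
  intro y
  induction y using Nat.strong_induction_on with
  | _ y ih =>
    by_cases hy : y ∈ T
    · exact h y hy ih
    · rcases Nat.eq_zero_or_pos y with h0 | h0
      · subst h0
        rw [cl_zero hy]
        exact Lev.zero _ _
      · rw [cl_pred h0 hy]
        exact (ih (y - 1) (by omega)).mono (by omega) le_rfl

/-- thresholds: 3-smooth base, 5-smooth base, single primes, pairs, all three -/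
def B3 : List ℕ := [6, 12, 16, 24, 32, 36, 48, 64, 72, 96, 108, 144, 162, 192, 216, 288, 324, 384, 432, 486,
  576, 648, 768, 864, 972, 1024, 1152, 1296, 1536, 1728, 1944]

/-- see `B3` -/
def B5 : List ℕ := [6, 12, 16, 20, 24, 30, 36, 40, 54, 60, 72, 80, 90, 96, 108, 120, 144, 150]

/-- see `B3` -/
def T2 : List ℕ := [8, 16, 32, 64, 128, 256, 512, 1024, 2048, 4096, 8192, 16384, 32768, 65536, 131072, 262144]

/-- see `B3` -/
def T3 : List ℕ := [27, 81, 243, 729, 2187, 6561, 19683, 59049, 177147]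

/-- see `B3` -/
def T5 : List ℕ := [125, 625, 3125, 15625, 78125]

/-- see `B3` -/
def T23 : List ℕ := [6, 12, 16, 24, 32, 36, 48, 64, 72, 96, 108, 144, 162, 192, 216, 288, 324, 384, 432, 486,
  576, 648, 768, 864, 972, 1024, 1152, 1296, 1536, 1728, 1944, 2304, 2592, 2916, 3072, 3456,
  3888, 4096, 4608, 5184, 5832, 6912, 7776, 8192, 8748, 9216, 10368, 11664, 12288, 13824,
  15552, 16384, 17496, 20736, 23328, 24576, 26244, 27648, 31104, 32768, 34992, 36864, 41472,
  46656, 49152, 52488, 62208, 65536, 69984, 73728, 78732, 82944, 93312, 98304, 104976, 110592,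
  124416, 131072, 139968, 147456, 157464, 186624, 196608, 209952, 221184, 236196, 248832,
  262144, 279936, 294912]

/-- see `B3` -/
def T25 : List ℕ := [8, 16, 32, 40, 64, 80, 128, 160, 200, 256, 320, 400, 512, 640, 800, 1000, 1024, 1280, 1600,
  2000, 2048, 2560, 3200, 4000, 4096, 5000, 5120, 6400, 8000, 8192, 10000, 10240, 12800,
  16000, 16384, 20000, 20480, 25000, 25600, 32000, 32768, 40000, 40960, 50000, 51200, 64000,
  65536, 80000, 81920, 100000, 102400, 125000, 128000, 131072, 160000, 163840, 200000, 204800,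
  250000, 256000, 262144]

/-- see `B3` -/
def T35 : List ℕ := [27, 81, 135, 243, 405, 675, 729, 1215, 2025, 2187, 3375, 3645, 6075, 6561, 10125, 10935,
  16875, 18225, 19683, 30375, 32805, 50625, 54675, 59049, 84375, 91125, 98415, 151875, 164025,
  177147, 253125, 273375, 295245]

/-- see `B3` -/
def TT : List ℕ := [6, 12, 16, 20, 24, 30, 36, 40, 54, 60, 72, 80, 90, 96, 108, 120, 144, 150, 162, 180, 192,
  200, 216, 270, 288, 300, 324, 360, 384, 400, 432, 450, 480, 486, 540, 576, 600, 648, 720,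
  750, 768, 810, 864, 900, 960, 972, 1000, 1024, 1080, 1152, 1296, 1350, 1440, 1500, 1536,
  1620, 1728, 1800, 1920, 1944, 2000, 2160, 2250, 2304, 2400, 2430, 2592, 2700, 2880, 2916,
  3000, 3072, 3240, 3456, 3600, 3750, 3840, 3888, 4050, 4096, 4320, 4500, 4608, 4800, 4860,
  5000, 5120, 5184, 5400, 5760, 5832, 6480, 6750, 6912, 7200, 7500, 7680, 7776, 8100, 8192,
  8640, 8748, 9000, 9216, 9600, 9720, 10000, 10368, 10800, 11250, 11520, 11664, 12000, 12150,
  12288, 12960, 13500, 13824, 14400, 14580, 15000, 15360, 15552, 16200, 16384, 17280, 17496,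
  18000, 18750, 19200, 19440, 20250, 20480, 20736, 21600, 22500, 23040, 23328, 24000, 24300,
  24576, 25000, 25600, 25920, 26244, 27000, 27648, 28800, 29160, 31104, 32400, 32768, 33750,
  34560, 34992, 36000, 36864, 37500, 38400, 38880, 40500, 40960, 41472, 43200, 43740, 45000,
  46080, 46656, 48000, 48600, 49152, 50000, 51840, 52488, 54000, 56250, 57600, 58320, 60000,
  60750, 61440, 62208, 64800, 65536, 67500, 69120, 69984, 72000, 72900, 73728, 75000, 76800,
  77760, 78732, 81000, 81920, 82944, 86400, 87480, 90000, 93312, 93750, 96000, 97200, 98304,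
  101250, 102400, 103680, 104976, 108000, 110592, 112500, 115200, 116640, 120000, 121500,
  122880, 124416, 125000, 128000, 129600, 131072, 131220, 135000, 138240, 139968, 144000,
  145800, 147456, 155520, 157464, 162000, 163840, 168750, 172800, 174960, 180000, 184320,
  186624, 187500, 192000, 194400, 196608, 202500, 204800, 207360, 209952, 216000, 218700,
  221184, 225000, 230400, 233280, 236196, 240000, 243000, 245760, 248832, 250000, 259200,
  262144, 262440, 270000, 279936, 281250, 288000, 291600, 294912, 300000]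

private lemma el3_form : ∀ a < 47, ∃ i < 11, ∃ j < 7, el3 a = 2 ^ i * 3 ^ j := by decide +kernel

private lemma el5_form : ∀ a < 41, ∃ i < 8, ∃ j < 5, ∃ l < 4, el5 a = 2 ^ i * 3 ^ j * 5 ^ l := by
  decide +kernel

private lemma certs3 : ∀ j, 1 ≤ j → j ≤ 31 →
    ∃ c, chk dm3 (PLf PL3 j) (PL3.getD j 100) (j - 1) c 0 0 = true := by
  intro j h1 h2
  rcases Nat.lt_or_ge 25 j with h | h
  · rcases Nat.lt_or_ge 28 j with h' | h'
    · exact certs3C j (by omega) h2
    · exact certs3B j (by omega) h'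
  · exact certs3A j h1 h

private lemma base3 {t j : ℕ} (hj : j ≤ 31) (ht : el3 (PL3.getD j 100 - 1) ≤ t) :
    Lev {2, 3} t j := by
  intro u hu A hA
  have h1 := omitted_gen (by norm_num) PL3_le el3_inj dm3_lt dm3_spec certs3 hu hA j hj
  have hL := PL3_le j hj
  refine h1.trans ?_
  refine Finset.card_le_card_of_injOn el3 ?_ ?_
  · intro x hx
    rw [mem_coe, mem_filter, mem_range] at hx
    rw [mem_coe, mem_filter, mem_sf, Nat.mem_factoredNumbers']
    refine ⟨⟨le_trans (el3_mono x (by omega) _ (by omega) (by omega)) ht, ?_⟩, hx.2⟩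
    obtain ⟨i, _, j, _, h⟩ := el3_form x (by omega)
    intro q hq hd
    rw [h] at hd
    rcases (Nat.Prime.dvd_mul hq).1 hd with hd | hd
    · rw [(Nat.prime_dvd_prime_iff_eq hq Nat.prime_two).1 (hq.dvd_of_dvd_pow hd)]; decide
    · rw [(Nat.prime_dvd_prime_iff_eq hq Nat.prime_three).1 (hq.dvd_of_dvd_pow hd)]; decide
  · intro d hd d' hd' he
    rw [mem_coe, mem_filter, mem_range] at hd hd'
    exact el3_inj d (by omega) d' (by omega) he

private lemma base5 {t j : ℕ} (hj : j ≤ 18) (ht : el5 (PL5.getD j 100 - 1) ≤ t) :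
    Lev {2, 3, 5} t j := by
  intro u hu A hA
  have h1 := omitted_gen (by norm_num) PL5_le el5_inj dm5_lt dm5_spec certs5 hu hA j hj
  have hL := PL5_le j hj
  refine h1.trans ?_
  refine Finset.card_le_card_of_injOn el5 ?_ ?_
  · intro x hx
    rw [mem_coe, mem_filter, mem_range] at hx
    rw [mem_coe, mem_filter, mem_sf, Nat.mem_factoredNumbers']
    refine ⟨⟨le_trans (el5_mono x (by omega) _ (by omega) (by omega)) ht, ?_⟩, hx.2⟩
    obtain ⟨i, _, j, _, l, _, h⟩ := el5_form x (by omega)
    intro q hq hd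
    rw [h] at hd
    rcases (Nat.Prime.dvd_mul hq).1 hd with hd | hd
    · rcases (Nat.Prime.dvd_mul hq).1 hd with hd | hd
      · rw [(Nat.prime_dvd_prime_iff_eq hq Nat.prime_two).1 (hq.dvd_of_dvd_pow hd)]; decide
      · rw [(Nat.prime_dvd_prime_iff_eq hq Nat.prime_three).1 (hq.dvd_of_dvd_pow hd)]; decide
    · rw [(Nat.prime_dvd_prime_iff_eq hq Nat.prime_five).1 (hq.dvd_of_dvd_pow hd)]; decide
  · intro d hd d' hd' he
    rw [mem_coe, mem_filter, mem_range] at hd hd'
    exact el5_inj d (by omega) d' (by omega) he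

private lemma B3_spec : ∀ t ∈ B3, cl B3 t ≤ 31 ∧ el3 (PL3.getD (cl B3 t) 100 - 1) ≤ t := by
  decide +kernel

private lemma B5_spec : ∀ t ∈ B5, cl B5 t ≤ 18 ∧ el5 (PL5.getD (cl B5 t) 100 - 1) ≤ t := by
  decide +kernel

private lemma T2_spec : ∀ t ∈ T2, t = 2 ^ (cl T2 t + 2) := by decide +kernel

private lemma T3_spec : ∀ t ∈ T3, t = 3 ^ (cl T3 t + 2) := by decide +kernel

private lemma T5_spec : ∀ t ∈ T5, t = 5 ^ (cl T5 t + 2) := by decide +kernel

private lemma T23_spec : ∀ t ∈ T23, 0 < t ∧ (cl T23 t ≤ cl B3 t ∨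
    cl T23 t ≤ cl T23 (t / 2) + cl T3 t ∨ cl T23 t ≤ cl T23 (t / 3) + cl T2 t) := by
  decide +kernel

private lemma T25_spec : ∀ t ∈ T25, 0 < t ∧
    (cl T25 t ≤ cl T25 (t / 2) + cl T5 t ∨ cl T25 t ≤ cl T25 (t / 5) + cl T2 t) := by
  decide +kernel

private lemma T35_spec : ∀ t ∈ T35, 0 < t ∧
    (cl T35 t ≤ cl T35 (t / 3) + cl T5 t ∨ cl T35 t ≤ cl T35 (t / 5) + cl T3 t) := by
  decide +kernel

private lemma TT_spec : ∀ t ∈ TT, 0 < t ∧ (cl TT t ≤ cl B5 t ∨
    cl TT t ≤ cl TT (t / 2) + cl T35 t ∨ cl TT t ≤ cl TT (t / 3) + cl T25 t ∨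
    cl TT t ≤ cl TT (t / 5) + cl T23 t) := by
  decide +kernel

private lemma levB3 : ∀ y, Lev {2, 3} y (cl B3 y) :=
  lev_of_table (fun t ht _ => base3 (B3_spec t ht).1 (B3_spec t ht).2)

private lemma levB5 : ∀ y, Lev {2, 3, 5} y (cl B5 y) :=
  lev_of_table (fun t ht _ => base5 (B5_spec t ht).1 (B5_spec t ht).2)

private lemma lev2 : ∀ y, Lev {2} y (cl T2 y) :=
  lev_of_table (fun t ht _ => (Lev.single Nat.prime_two _).mono (T2_spec t ht).ge le_rfl)

private lemma lev3 : ∀ y, Lev {3} y (cl T3 y) :=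
  lev_of_table (fun t ht _ => (Lev.single Nat.prime_three _).mono (T3_spec t ht).ge le_rfl)

private lemma lev5 : ∀ y, Lev {5} y (cl T5 y) :=
  lev_of_table (fun t ht _ => (Lev.single Nat.prime_five _).mono (T5_spec t ht).ge le_rfl)

/-- one step of the recursion -/
private lemma step {S S' : Finset ℕ} {p t i j n : ℕ} (hp : p.Prime) (hpS : p ∈ S)
    (hS : S.erase p = S') (h1 : Lev S (t / p) i) (h2 : Lev S' t j) (hn : n ≤ i + j) :
    Lev S t n := by
  subst hS
  exact (Lev.rec' hp hpS (Nat.div_mul_le_self t p) h1 h2).mono le_rfl hn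

private lemma lev23 : ∀ y, Lev {2, 3} y (cl T23 y) := by
  refine lev_of_table (fun t ht ih => ?_)
  obtain ⟨h0, h⟩ := T23_spec t ht
  rcases h with h | h | h
  · exact (levB3 t).mono le_rfl h
  · exact step Nat.prime_two (by decide) (by decide) (ih _ (Nat.div_lt_self h0 (by norm_num)))
      (lev3 t) h
  · exact step Nat.prime_three (by decide) (by decide) (ih _ (Nat.div_lt_self h0 (by norm_num)))
      (lev2 t) h

private lemma lev25 : ∀ y, Lev {2, 5} y (cl T25 y) := by
  refine lev_of_table (fun t ht ih => ?_)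
  obtain ⟨h0, h⟩ := T25_spec t ht
  rcases h with h | h
  · exact step Nat.prime_two (by decide) (by decide) (ih _ (Nat.div_lt_self h0 (by norm_num)))
      (lev5 t) h
  · exact step Nat.prime_five (by decide) (by decide) (ih _ (Nat.div_lt_self h0 (by norm_num)))
      (lev2 t) h

private lemma lev35 : ∀ y, Lev {3, 5} y (cl T35 y) := by
  refine lev_of_table (fun t ht ih => ?_)
  obtain ⟨h0, h⟩ := T35_spec t ht
  rcases h with h | h
  · exact step Nat.prime_three (by decide) (by decide) (ih _ (Nat.div_lt_self h0 (by norm_num)))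
      (lev5 t) h
  · exact step Nat.prime_five (by decide) (by decide) (ih _ (Nat.div_lt_self h0 (by norm_num)))
      (lev3 t) h

theorem lev235 : ∀ y, Lev {2, 3, 5} y (cl TT y) := by
  refine lev_of_table (fun t ht ih => ?_)
  obtain ⟨h0, h⟩ := TT_spec t ht
  rcases h with h | h | h | h
  · exact (levB5 t).mono le_rfl h
  · exact step Nat.prime_two (by decide) (by decide) (ih _ (Nat.div_lt_self h0 (by norm_num)))
      (lev35 t) h
  · exact step Nat.prime_three (by decide) (by decide) (ih _ (Nat.div_lt_self h0 (by norm_num)))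
      (lev25 t) h
  · exact step Nat.prime_five (by decide) (by decide) (ih _ (Nat.div_lt_self h0 (by norm_num)))
      (lev23 t) h

end Pool.Agent.Lib.MP_573265_nt.H31
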