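import Pool.Agent.Lib.MP_573265_nt.H31Rec

/-! Upper bound for the constant of the 3-admissible sets through 5-smooth fibres
(helper31, MP_573265_nt, k = 3). -/

open Finset Filter Topology

namespace Pool.Agent.Lib.MP_573265_nt.H31

open Pool.Agent.Results.MP_573265_nt.AsymptoticConstant

/-- number of 5-smooth numbers up to `s` -/
noncomputable def K (s : ℕ) : ℕ := (Nat.smoothNumbersUpTo s 6).card

private lemma TT_nodup : TT.Nodup := by decide +kernel

/-- the thresholds as a finset -/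
def SS : Finset ℕ := ⟨(TT : Multiset ℕ), TT_nodup⟩

/-- number of the thresholds up to `S` -/
def cnt (S : ℕ) : ℕ := cl TT S

lemma card_SS (S : ℕ) : (SS.filter (fun t => t ≤ S)).card = cnt S := by
  unfold cnt
  rw [cl_eq]
  rfl

private lemma sf_eq (x : ℕ) : sf {2, 3, 5} x = Nat.smoothNumbersUpTo x 6 := by
  ext s
  rw [mem_sf, Nat.mem_smoothNumbersUpTo]
  have h : Nat.primesBelow 6 = {2, 3, 5} := by decide
  have h2 : s ∈ Nat.smoothNumbers 6 ↔ s ∈ Nat.factoredNumbers {2, 3, 5} := by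
    rw [Nat.mem_factoredNumbers', Nat.mem_smoothNumbers']
    constructor
    · intro h1 p hp hd
      have h3 := h1 p hp hd
      rw [← h, Nat.mem_primesBelow]
      exact ⟨h3, hp⟩
    · intro h1 p hp hd
      have h3 := h1 p hp hd
      rw [← h, Nat.mem_primesBelow] at h3
      exact h3.1
  rw [h2]

theorem G_add_cnt (t : ℕ) : G 3 6 t + cnt t ≤ K t := by
  obtain ⟨A, hAs, hA, hc⟩ := exists_maxAdm 3 (Nat.smoothNumbersUpTo t 6)
  have h1 := lev235 t 1 one_pos A hA
  rw [sf_eq] at h1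
  have h2 : (Nat.smoothNumbersUpTo t 6).filter (fun s => 1 * s ∉ A) =
      Nat.smoothNumbersUpTo t 6 \ A := by
    ext s
    rw [Finset.mem_filter, Finset.mem_sdiff, one_mul]
  rw [h2] at h1
  have h3 := Finset.card_sdiff_add_card_eq_card hAs
  unfold G K cnt
  omega

open Classical in
/-- deficiency at `s` -/
noncomputable def ef (s : ℕ) : ℝ := (if s ∈ Nat.smoothNumbers 6 then 1 else 0) - jump 3 6 s

lemma ef_nonneg (s : ℕ) : 0 ≤ ef s := by
  unfold ef
  split_ifs with h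
  · have := jump_le_one 3 6 s
    linarith
  · rw [jump_of_not_smooth 3 6 s h]
    simp

lemma sum_ef (S : ℕ) : ∑ s ∈ Finset.Icc 1 S, ef s = (K S : ℝ) - (G 3 6 S : ℝ) := by
  classical
  unfold ef
  rw [Finset.sum_sub_distrib, ← G_eq_sum_jump, Finset.sum_boole]
  congr 2
  unfold K
  congr 1
  ext s
  simp only [mem_filter, mem_Icc, Nat.mem_smoothNumbersUpTo]
  constructor
  · rintro ⟨⟨h1, h2⟩, h3⟩
    exact ⟨h2, h3⟩
  · rintro ⟨h2, h3⟩
    exact ⟨⟨Nat.pos_of_ne_zero (Nat.ne_zero_of_mem_smoothNumbers h3), h2⟩, h3⟩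

private lemma cnt_succ (S : ℕ) : (cnt (S + 1) : ℝ) =
    (cnt S : ℝ) + (if (S + 1) ∈ SS then 1 else 0) := by
  rw [← card_SS, ← card_SS]
  have : SS.filter (fun t => t ≤ S + 1) =
      SS.filter (fun t => t ≤ S) ∪ SS.filter (fun t => t = S + 1) := by
    ext t
    simp only [mem_union, mem_filter]
    constructor
    · rintro ⟨h1, h2⟩
      rcases Nat.lt_or_ge S t with h | h
      · right; exact ⟨h1, by omega⟩
      · left; exact ⟨h1, h⟩
    · rintro (⟨h1, h2⟩ | ⟨h1, h2⟩)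
      · exact ⟨h1, by omega⟩
      · exact ⟨h1, by omega⟩
  rw [this, Finset.card_union_of_disjoint]
  · push_cast
    congr 1
    rw [Finset.filter_eq']
    split_ifs <;> simp
  · rw [Finset.disjoint_left]
    intro t h1 h2
    simp only [mem_filter] at h1 h2
    omega

private lemma cnt_zero : cnt 0 = 0 := by decide +kernel

private lemma cnt_le (S : ℕ) : (0 : ℝ) ≤ (K S : ℝ) - (G 3 6 S : ℝ) - (cnt S : ℝ) := by
  have h1 := G_add_cnt S
  have h2 : (G 3 6 S : ℝ) + (cnt S : ℝ) ≤ (K S : ℝ) := by exact_mod_cast h1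
  linarith

private lemma abel (S : ℕ) :
    ((K S : ℝ) - (G 3 6 S : ℝ) - (cnt S : ℝ)) / S ≤
      ∑ s ∈ Finset.Icc 1 S, (ef s - (if s ∈ SS then 1 else 0)) / (s : ℝ) := by
  induction S with
  | zero =>
    have h : Finset.Icc 1 0 = (∅ : Finset ℕ) := by decide
    rw [h, Finset.sum_empty, Nat.cast_zero, div_zero]
  | succ S ih =>
    rw [Finset.sum_Icc_succ_top (by omega : 1 ≤ S + 1)]
    have e1 : (K (S + 1) : ℝ) - (G 3 6 (S + 1) : ℝ) = (K S : ℝ) - (G 3 6 S : ℝ) + ef (S + 1) := by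
      rw [← sum_ef, ← sum_ef, Finset.sum_Icc_succ_top (by omega : 1 ≤ S + 1)]
    have e2 := cnt_succ S
    have hge := cnt_le S
    have hstep : ((K S : ℝ) - (G 3 6 S : ℝ) - (cnt S : ℝ)) / ((S + 1 : ℕ) : ℝ) ≤
        ((K S : ℝ) - (G 3 6 S : ℝ) - (cnt S : ℝ)) / S := by
      rcases Nat.eq_zero_or_pos S with h | h
      · subst h
        have : (K 0 : ℝ) - (G 3 6 0 : ℝ) - (cnt 0 : ℝ) = 0 := by
          rw [cnt_zero, ← sum_ef]
          simp
        rw [this]
        simp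
      · apply div_le_div_of_nonneg_left hge
        · exact_mod_cast h
        · push_cast; linarith
    rw [e1, e2]
    have e3 : ((K S : ℝ) - (G 3 6 S : ℝ) + ef (S + 1) -
        ((cnt S : ℝ) + (if (S + 1) ∈ SS then 1 else 0))) / ((S + 1 : ℕ) : ℝ) =
        ((K S : ℝ) - (G 3 6 S : ℝ) - (cnt S : ℝ)) / ((S + 1 : ℕ) : ℝ) +
        (ef (S + 1) - (if (S + 1) ∈ SS then 1 else 0)) / ((S + 1 : ℕ) : ℝ) := by
      rw [← add_div]
      congr 1
      ring
    rw [e3]
    linarith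

private lemma sum_floor : 702750000 ≤ ∑ s ∈ SS, 1000000000 / s := by decide +kernel

private lemma TT_range : ∀ t ∈ TT, 1 ≤ t ∧ t ≤ 300000 := by decide +kernel

lemma sum_SS : (2811 / 4000 : ℝ) ≤ ∑ s ∈ SS, (1 : ℝ) / (s : ℝ) := by
  have h : ∀ s ∈ SS, (((1000000000 / s : ℕ) : ℝ)) / 1000000000 ≤ (1 : ℝ) / (s : ℝ) := by
    intro s hs
    have h1 := (TT_range s hs).1
    have h2 : (0 : ℝ) < s := by exact_mod_cast h1
    have h3 : ((1000000000 / s : ℕ) : ℝ) ≤ (1000000000 : ℝ) / (s : ℝ) := by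
      have := @Nat.cast_div_le ℝ _ _ _ 1000000000 s
      exact_mod_cast this
    calc ((1000000000 / s : ℕ) : ℝ) / 1000000000 ≤ ((1000000000 : ℝ) / (s : ℝ)) / 1000000000 := by
          apply div_le_div_of_nonneg_right h3
          norm_num
      _ = 1 / (s : ℝ) := by field_simp
  have h4 := Finset.sum_le_sum h
  rw [← Finset.sum_div] at h4
  have h5 : (702750000 : ℝ) ≤ ∑ s ∈ SS, ((1000000000 / s : ℕ) : ℝ) := by
    have := sum_floor
    exact_mod_cast this
  have h6 : (702750000 : ℝ) / 1000000000 ≤ (∑ s ∈ SS, ((1000000000 / s : ℕ) : ℝ)) / 1000000000 :=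
    div_le_div_of_nonneg_right h5 (by norm_num)
  have h7 : (702750000 : ℝ) / 1000000000 = 2811 / 4000 := by norm_num
  linarith

lemma sum_ef_ge : (2811 / 4000 : ℝ) ≤ ∑ s ∈ Finset.Icc 1 300000, ef s / (s : ℝ) := by
  have h := abel 300000
  have hge := cnt_le 300000
  have h0 : (0 : ℝ) ≤ ((K 300000 : ℝ) - (G 3 6 300000 : ℝ) - (cnt 300000 : ℝ)) /
      ((300000 : ℕ) : ℝ) := by positivity
  have h1 := le_trans h0 h
  simp only [sub_div] at h1
  rw [Finset.sum_sub_distrib] at h1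
  have h2 : ∑ s ∈ Finset.Icc 1 300000, (if s ∈ SS then (1 : ℝ) else 0) / (s : ℝ) =
      ∑ s ∈ SS, (1 : ℝ) / (s : ℝ) := by
    have : ∀ s ∈ Finset.Icc 1 300000, (if s ∈ SS then (1 : ℝ) else 0) / (s : ℝ) =
        if s ∈ SS then (1 : ℝ) / (s : ℝ) else 0 := by
      intro s _
      split_ifs <;> simp
    have hsub : Finset.Icc 1 300000 ∩ SS = SS := by
      rw [Finset.inter_eq_right]
      intro s hs
      rw [Finset.mem_Icc]
      exact TT_range s hs
    rw [Finset.sum_congr rfl this, Finset.sum_ite_mem, hsub]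
  rw [h2] at h1
  have := sum_SS
  linarith

open Classical in
lemma hasSum_smooth :
    HasSum (fun s : ℕ => (if s ∈ Nat.smoothNumbers 6 then (1 : ℝ) else 0) / (s : ℝ)) (15 / 4) := by
  let f : ℕ →* ℝ :=
    { toFun := fun n => (n : ℝ)⁻¹
      map_one' := by simp
      map_mul' := by intro a b; push_cast; rw [mul_inv] }
  have hf : ∀ {p : ℕ}, p.Prime → ‖f p‖ < 1 := by
    intro p hp
    show ‖(p : ℝ)⁻¹‖ < 1
    rw [norm_inv, Real.norm_natCast]
    exact inv_lt_one_of_one_lt₀ (by exact_mod_cast hp.one_lt)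
  have h := (EulerProduct.summable_and_hasSum_smoothNumbers_prod_primesBelow_geometric hf 6).2
  have hp : Nat.primesBelow 6 = {2, 3, 5} := by decide
  have hv : (∏ p ∈ Nat.primesBelow 6, (1 - f p)⁻¹) = 15 / 4 := by
    rw [hp, Finset.prod_insert (by decide), Finset.prod_pair (by norm_num)]
    show (1 - ((2 : ℕ) : ℝ)⁻¹)⁻¹ * ((1 - ((3 : ℕ) : ℝ)⁻¹)⁻¹ * (1 - ((5 : ℕ) : ℝ)⁻¹)⁻¹) = 15 / 4
    norm_num
  rw [hv] at h
  have h2 := hasSum_subtype_iff_indicator.1 h
  have he : (fun s : ℕ => (if s ∈ Nat.smoothNumbers 6 then (1 : ℝ) else 0) / (s : ℝ)) =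
      Set.indicator (Nat.smoothNumbers 6) (fun m : ℕ => f m) := by
    funext s
    by_cases hs : s ∈ Nat.smoothNumbers 6
    · rw [Set.indicator_of_mem hs, if_pos hs, one_div]
      rfl
    · rw [Set.indicator_of_notMem hs, if_neg hs, zero_div]
  rw [he]
  exact h2

theorem C_le : C 3 6 ≤ 8126 / 10000 := by
  classical
  have hs := hasSum_smooth
  have hg := summable_jump 3 6
  have hd : ∀ s : ℕ, ef s / (s : ℝ) =
      (if s ∈ Nat.smoothNumbers 6 then (1 : ℝ) else 0) / (s : ℝ) - jump 3 6 s / (s : ℝ) := by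
    intro s
    unfold ef
    rw [sub_div]
  have hsum : Summable (fun s : ℕ => ef s / (s : ℝ)) := by
    simp only [hd]
    exact hs.summable.sub hg
  have h1 : ∑' s : ℕ, ef s / (s : ℝ) = 15 / 4 - ∑' s : ℕ, jump 3 6 s / (s : ℝ) := by
    simp only [hd]
    rw [hs.summable.tsum_sub hg, hs.tsum_eq]
  have h2 : ∑ s ∈ Finset.Icc 1 300000, ef s / (s : ℝ) ≤ ∑' s : ℕ, ef s / (s : ℝ) :=
    hsum.sum_le_tsum _ (fun s _ => div_nonneg (ef_nonneg s) (Nat.cast_nonneg s))
  have h3 := sum_ef_ge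
  have hp : Nat.primesBelow 6 = {2, 3, 5} := by decide
  have hC : C 3 6 = (4 / 15) * ∑' s : ℕ, jump 3 6 s / (s : ℝ) := by
    unfold C jump
    rw [hp, Finset.prod_insert (by decide), Finset.prod_pair (by norm_num)]
    congr 1
    norm_num
  rw [hC]
  linarith

end Pool.Agent.Lib.MP_573265_nt.H31
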