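import Pool.Agent.Lib.MP_573265_nt.H31WinA

/-! Tables of windows of 7-smooth numbers: comparison with the explicit set
(helper31, MP_573265_nt, k = 3). -/

open Finset

namespace Pool.Agent.Lib.MP_573265_nt.H31

/-- boolean form of `cls` -/
def clsb (n m : ℕ) : Bool :=
  and (Nat.ble (Nat.succ (Nat.mul 2 n)) (Nat.mul 15 m))
    (cond (Nat.ble (Nat.succ n) (Nat.mul 4 m))
      (or (Nat.ble (Nat.mul 5 m) (Nat.mul 4 n))
        (not (or (Nat.beq (Nat.mod m 72) 12) (Nat.beq (Nat.mod m 72) 60))))
    (cond (Nat.ble (Nat.succ n) (Nat.mul 5 m))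
      (or (not (Nat.beq (Nat.mod m 3) 0)) (or (Nat.beq (Nat.mod m 18) 3) (Nat.beq (Nat.mod m 18) 15)))
    (cond (Nat.ble (Nat.succ n) (Nat.mul 6 m))
      (and (not (Nat.beq (Nat.mod m 3) 0)) (not (Nat.beq (Nat.mod m 4) 0)))
      (and (or (Nat.beq (Nat.mod m 12) 2) (Nat.beq (Nat.mod m 12) 10))
        (or (Nat.ble (Nat.succ n) (Nat.mul 7 m)) (not (Nat.beq (Nat.mod m 5) 0)))))))

private lemma clsb_eq (n m : ℕ) : clsb n m =
    (decide (2 * n + 1 ≤ 15 * m) && (bif decide (n + 1 ≤ 4 * m) then
      (decide (5 * m ≤ 4 * n) || !(decide (m % 72 = 12) || decide (m % 72 = 60)))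
    else bif decide (n + 1 ≤ 5 * m) then
      (!decide (m % 3 = 0) || (decide (m % 18 = 3) || decide (m % 18 = 15)))
    else bif decide (n + 1 ≤ 6 * m) then (!decide (m % 3 = 0) && !decide (m % 4 = 0))
    else ((decide (m % 12 = 2) || decide (m % 12 = 10)) &&
      (decide (n + 1 ≤ 7 * m) || !decide (m % 5 = 0))))) := by
  have h1 : ∀ a b : ℕ, Nat.ble a b = decide (a ≤ b) := by
    intro a b
    rw [Bool.eq_iff_iff, Nat.ble_eq, decide_eq_true_iff]
  have h2 : ∀ a b : ℕ, Nat.beq a b = decide (a = b) := by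
    intro a b
    rw [Bool.eq_iff_iff, Nat.beq_eq, decide_eq_true_iff]
  unfold clsb
  simp only [h1, h2]
  rfl

lemma clsb_of {n m : ℕ} (h : cls n m) : clsb n m = true := by
  unfold cls at h
  rw [clsb_eq]
  simp only [Bool.cond_eq_ite, decide_eq_true_eq]
  split_ifs <;> simp only [Bool.and_eq_true, Bool.or_eq_true, decide_eq_true_eq,
    Bool.not_eq_true', decide_eq_false_iff_not, Bool.or_eq_false_iff] <;> omega

/-- number of members `s ≤ x` of the sorted list with `clsb x s` -/
def cf (x : ℕ) : List ℕ → ℕ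
  | [] => 0
  | s :: L => cond (Nat.ble s x) (cond (clsb x s) (Nat.succ (cf x L)) (cf x L)) 0

lemma le_cf (x : ℕ) {L : List ℕ} (hL : L.Pairwise (· < ·)) :
    (L.filter (fun s => decide (s ≤ x) && clsb x s)).length ≤ cf x L := by
  induction L with
  | nil => simp
  | cons s L ih =>
    rw [List.pairwise_cons] at hL
    unfold cf
    by_cases h : s ≤ x
    · have h1 : Nat.ble s x = true := by rw [Nat.ble_eq]; exact h
      rw [h1, cond_true]
      by_cases h2 : clsb x s = true
      · rw [h2, cond_true, List.filter_cons_of_pos (by simp [h, h2]), List.length_cons]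
        exact Nat.succ_le_succ (ih hL.2)
      · rw [Bool.not_eq_true] at h2
        rw [h2, cond_false, List.filter_cons_of_neg (by simp [h2])]
        exact ih hL.2
    · have h3 : (s :: L).filter (fun s => decide (s ≤ x) && clsb x s) = [] := by
        rw [List.filter_eq_nil_iff]
        intro t ht
        have : ¬ t ≤ x := by
          rw [List.mem_cons] at ht
          rcases ht with rfl | ht
          · exact h
          · have := hL.1 t ht
            omega
        simp [this]
      rw [h3]
      exact Nat.zero_le _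

lemma SL7_pair : SL7.Pairwise (· < ·) := by decide +kernel

/-- the comparison for one window, `k` values of `x` starting from `a` -/
def cmp (m d : ℕ) : ℕ → ℕ → Bool
  | 0, _ => true
  | k + 1, a => and (Nat.ble (Nat.add (cf a SL7) d) (fp 24 m)) (cmp m d k (Nat.succ a))

lemma cmp_spec {m d : ℕ} : ∀ (k a : ℕ), cmp m d k a = true → ∀ x, a ≤ x → x < a + k →
    cf x SL7 + d ≤ fp 24 m := by
  intro k
  induction k with
  | zero => intro a _ x h1 h2; omega
  | succ k ih =>
    intro a h x h1 h2
    unfold cmp at h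
    have h' : Nat.ble (cf a SL7 + d) (fp 24 m) = true ∧ cmp m d k (Nat.succ a) = true := by
      rw [← Bool.and_eq_true]
      exact h
    rw [Nat.ble_eq] at h'
    rcases Nat.eq_or_lt_of_le h1 with h3 | h3
    · rw [← h3]; exact h'.1
    · exact ih (a + 1) h'.2 x h3 (by omega)

lemma RL_cmp : ∀ e ∈ RL, cmp e.2.2.1 e.2.2.2 (e.2.1 - e.1) e.1 = true := by
  have h : RL.all (fun e => cmp e.2.2.1 e.2.2.2 (Nat.sub e.2.1 e.1) e.1) = true := by
    decide +kernel
  exact List.all_eq_true.1 h

end Pool.Agent.Lib.MP_573265_nt.H31
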